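import Mathlib

/-!
# Small polynomials over the integers of a number field: definitions
-/

set_option autoImplicit false

namespace Pool.Agent.L5helper9.Nk

open Polynomial NumberField

variable {K : Type} [Field K] [NumberField K]

/-- degree at most `d`, weighted coefficients with all conjugates at most `M` -/
def SmK (t d : ℕ) (M : ℝ) (A : (𝓞 K)[X]) : Prop :=
  A.natDegree ≤ d ∧ ∀ i, house (A.coeff i : K) * (t : ℝ) ^ (2 * i) ≤ M

/-- the value at `r` modulo a prime of degree one, squared -/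
noncomputable def ev {p : ℕ} (ψ : 𝓞 K →+* ZMod (p ^ 2)) (r : ℤ) (A : (𝓞 K)[X]) : ZMod (p ^ 2) :=
  A.eval₂ ψ (r : ZMod (p ^ 2))

/-- the value at `r` modulo a prime of degree one -/
noncomputable def ev1 {p : ℕ} (ψ : 𝓞 K →+* ZMod (p ^ 2)) (r : ℤ) (A : (𝓞 K)[X]) : ZMod p :=
  ZMod.castHom (dvd_pow_self p two_ne_zero) (ZMod p) (ev ψ r A)

end Pool.Agent.L5helper9.Nk
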