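import Pool.Agent.L5helper32.GR.Exc
import Pool.Agent.L5helper32.GR.Defs2

set_option autoImplicit false

open Finset MeasureTheory ProbabilityTheory

namespace Pool.Agent.L5helper32.GR

/-- `(1 + p) ^ ω(n) ≤ C n ^ ε`. -/
theorem omega_bound' (p : ℕ) {ε : ℝ} (hε : 0 < ε) : ∃ C : ℝ, 0 < C ∧ ∀ n : ℕ, 1 ≤ n →
    ((1 + p : ℕ) : ℝ) ^ (#n.primeFactors) ≤ C * (n : ℝ) ^ ε := by
  have hp1 : (1 : ℝ) ≤ ((1 + p : ℕ) : ℝ) := by
    have : 1 ≤ 1 + p := by omega
    exact_mod_cast this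
  set B : ℕ := ⌈((1 + p : ℕ) : ℝ) ^ (1 / ε)⌉₊ with hB
  have hBr : ∀ r : ℕ, B ≤ r → ((1 + p : ℕ) : ℝ) ≤ (r : ℝ) ^ ε := by
    intro r hr
    have h1 : ((1 + p : ℕ) : ℝ) ^ (1 / ε) ≤ (r : ℝ) :=
      (Nat.le_ceil _).trans (by exact_mod_cast hr)
    calc ((1 + p : ℕ) : ℝ) = (((1 + p : ℕ) : ℝ) ^ (1 / ε)) ^ ε := by
          rw [← Real.rpow_mul (by positivity), one_div, inv_mul_cancel₀ hε.ne', Real.rpow_one]
      _ ≤ (r : ℝ) ^ ε := Real.rpow_le_rpow (by positivity) h1 hε.le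
  refine ⟨((1 + p : ℕ) : ℝ) ^ B, by positivity, fun n hn => ?_⟩
  have hcard : #n.primeFactors = #(n.primeFactors.filter (· < B)) +
      #(n.primeFactors.filter (fun r => ¬ r < B)) :=
    (Finset.card_filter_add_card_filter_not (· < B)).symm
  rw [hcard, pow_add]
  refine mul_le_mul ?_ ?_ (by positivity) (by positivity)
  · refine pow_le_pow_right₀ hp1 ?_
    calc #(n.primeFactors.filter (· < B)) ≤ #(range B) := by
          apply Finset.card_le_card
          intro r hr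
          rw [Finset.mem_filter] at hr
          exact Finset.mem_range.mpr hr.2
      _ = B := Finset.card_range B
  · set L := n.primeFactors.filter (fun r => ¬ r < B) with hL
    have h2 : ∏ r ∈ L, r ≤ n := by
      apply Nat.le_of_dvd (by omega)
      exact (Finset.prod_dvd_prod_of_subset _ _ _ (Finset.filter_subset _ _)).trans
        (Nat.prod_primeFactors_dvd n)
    calc ((1 + p : ℕ) : ℝ) ^ #L = ∏ _r ∈ L, ((1 + p : ℕ) : ℝ) := by rw [Finset.prod_const]
      _ ≤ ∏ r ∈ L, (r : ℝ) ^ ε := by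
          refine Finset.prod_le_prod (fun _ _ => by positivity) fun r hr => hBr r ?_
          rw [hL, Finset.mem_filter] at hr
          omega
      _ = (∏ r ∈ L, (r : ℝ)) ^ ε := Real.finsetProd_rpow _ _ (fun _ _ => by positivity) _
      _ ≤ (n : ℝ) ^ ε := by
          refine Real.rpow_le_rpow (by positivity) ?_ hε.le
          have h3 : ((∏ r ∈ L, r : ℕ) : ℝ) ≤ (n : ℝ) := Nat.cast_le.mpr h2
          rwa [Nat.cast_prod] at h3

theorem exc' {p : ℕ} (hp : p.Prime) {ε : ℝ} (hε : 0 < ε) : ∃ C : ℝ, 0 < C ∧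
    ∀ {Ω : Type} [MeasurableSpace Ω] (μ : Measure Ω) [IsProbabilityMeasure μ]
      (T : ℕ × ℕ → Ω → ℕ), Res μ T → ∀ x c y G : ℕ, 1 ≤ G → y ≤ x →
      μ.real {ω | ∃ i < y, (∀ i' < i, jump p (res T ω c) (x - i') = 1) ∧
        G ≤ jump p (res T ω c) (x - i)} ≤ C * y * (x : ℝ) ^ ε / G := by
  obtain ⟨C, hC, hb⟩ := omega_bound' p hε
  refine ⟨C, hC, ?_⟩
  intro Ω _ μ _ T h x c y G hG hyx
  have hG0 : (0 : ℝ) < G := by exact_mod_cast hG
  have hsub : {ω | ∃ i < y, (∀ i' < i, jump p (res T ω c) (x - i') = 1) ∧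
        G ≤ jump p (res T ω c) (x - i)} ⊆
      ⋃ i ∈ range y, {ω | G ≤ jump p (res T ω c) (x - i)} := by
    rintro ω ⟨i, hi, -, h2⟩
    simp only [Set.mem_iUnion, exists_prop, Set.mem_setOf_eq]
    exact ⟨i, Finset.mem_range.mpr hi, h2⟩
  calc μ.real {ω | ∃ i < y, (∀ i' < i, jump p (res T ω c) (x - i') = 1) ∧
        G ≤ jump p (res T ω c) (x - i)}
      ≤ μ.real (⋃ i ∈ range y, {ω | G ≤ jump p (res T ω c) (x - i)}) :=
        measureReal_mono hsub (measure_ne_top _ _)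
    _ ≤ ∑ i ∈ range y, μ.real {ω | G ≤ jump p (res T ω c) (x - i)} :=
        measureReal_biUnion_finset_le _ _
    _ ≤ ∑ _i ∈ range y, C * (x : ℝ) ^ ε / G := by
        refine Finset.sum_le_sum fun i hi => ?_
        rw [Finset.mem_range] at hi
        refine (prob_jump hp h c (x - i) G hG).trans ?_
        gcongr
        refine (hb (x - i) (by omega)).trans ?_
        gcongr
        exact_mod_cast Nat.sub_le x i
    _ = C * y * (x : ℝ) ^ ε / G := by
        rw [Finset.sum_const, Finset.card_range, nsmul_eq_mul]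
        ring

end Pool.Agent.L5helper32.GR
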