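import Mathlib

set_option autoImplicit false

open Finset

namespace Pool.Agent.L5helper32.GP

/-- A divisor-type bound: `∏ (1 + 4 p v_r(n)) ≤ C n ^ ε`. -/
theorem div_bound (p : ℕ) {ε : ℝ} (hε : 0 < ε) : ∃ C : ℝ, 0 < C ∧ ∀ n : ℕ, 1 ≤ n →
    ∏ r ∈ n.primeFactors, (1 + 4 * p * (n.factorization r : ℝ)) ≤ C * (n : ℝ) ^ ε := by
  classical
  set A : ℝ := 1 + 4 * p with hA
  have hA1 : 1 ≤ A := by
    rw [hA]
    have : (0 : ℝ) ≤ 4 * p := by positivity
    linarith
  have hA0 : 0 < A := by linarith
  set B : ℕ := ⌈A ^ (1 / ε)⌉₊ with hB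
  have hl : 0 < Real.log 2 := Real.log_pos one_lt_two
  set K : ℝ := 1 + 4 * p / (ε * Real.log 2) with hK
  have hK1 : 1 ≤ K := by
    rw [hK]
    have : (0 : ℝ) ≤ 4 * p / (ε * Real.log 2) := by positivity
    linarith
  have hfac : ∀ r v : ℕ, 2 ≤ r → 1 + 4 * p * (v : ℝ) ≤
      (if r < B then K else 1) * ((r : ℝ) ^ v) ^ ε := by
    intro r v hr
    have hr2 : (2 : ℝ) ≤ r := by exact_mod_cast hr
    split_ifs with h
    · have h1 : 1 + ε * Real.log 2 * v ≤ ((r : ℝ) ^ v) ^ ε := by
        calc 1 + ε * Real.log 2 * v ≤ Real.exp (ε * Real.log 2 * v) := by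
              have := Real.add_one_le_exp (ε * Real.log 2 * v)
              linarith
          _ = ((2 : ℝ) ^ v) ^ ε := by
              rw [← Real.rpow_natCast 2 v, ← Real.rpow_mul (by norm_num),
                Real.rpow_def_of_pos (by norm_num)]
              congr 1
              ring
          _ ≤ ((r : ℝ) ^ v) ^ ε := by gcongr
      calc 1 + 4 * p * (v : ℝ) ≤ K * (1 + ε * Real.log 2 * v) := by
            have e : K * (1 + ε * Real.log 2 * v) =
                K + ε * Real.log 2 * v + 4 * p * v := by
              rw [hK]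
              field_simp
              ring
            rw [e]
            have : 0 ≤ ε * Real.log 2 * v := by positivity
            linarith
        _ ≤ K * ((r : ℝ) ^ v) ^ ε := by gcongr
    · rw [one_mul]
      push Not at h
      have h1 : A ≤ (r : ℝ) ^ ε := by
        have h2 : A ^ (1 / ε) ≤ (r : ℝ) := (Nat.le_ceil _).trans (by exact_mod_cast h)
        calc A = (A ^ (1 / ε)) ^ ε := by
              rw [← Real.rpow_mul hA0.le, one_div, inv_mul_cancel₀ hε.ne', Real.rpow_one]
          _ ≤ (r : ℝ) ^ ε := Real.rpow_le_rpow (by positivity) h2 hε.le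
      calc 1 + 4 * p * (v : ℝ) = 1 + v * (4 * p) := by ring
        _ ≤ (1 + 4 * p) ^ v := by
            have := one_add_mul_le_pow (a := (4 * p : ℝ)) (by
              have : (0 : ℝ) ≤ 4 * p := by positivity
              linarith) v
            exact this
        _ = A ^ v := rfl
        _ ≤ ((r : ℝ) ^ ε) ^ v := by gcongr
        _ = ((r : ℝ) ^ v) ^ ε := by
            rw [← Real.rpow_natCast, ← Real.rpow_natCast, ← Real.rpow_mul (by positivity),
              ← Real.rpow_mul (by positivity), mul_comm]
  refine ⟨K ^ B, by positivity, fun n hn => ?_⟩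
  calc ∏ r ∈ n.primeFactors, (1 + 4 * p * (n.factorization r : ℝ))
      ≤ ∏ r ∈ n.primeFactors, ((if r < B then K else 1) * ((r : ℝ) ^ n.factorization r) ^ ε) :=
        prod_le_prod (fun _ _ => by positivity)
          fun r hr => hfac r _ (Nat.prime_of_mem_primeFactors hr).two_le
    _ = (∏ r ∈ n.primeFactors, (if r < B then K else 1)) *
          (∏ r ∈ n.primeFactors, (r : ℝ) ^ n.factorization r) ^ ε := by
        rw [prod_mul_distrib, Real.finsetProd_rpow _ _ fun _ _ => by positivity]
    _ ≤ K ^ B * (n : ℝ) ^ ε := by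
        have h1 : ∏ r ∈ n.primeFactors, (if r < B then K else 1) ≤ K ^ B := by
          rw [← prod_filter, prod_const]
          refine pow_le_pow_right₀ hK1 ?_
          calc #(n.primeFactors.filter (· < B)) ≤ #(range B) := by
                apply card_le_card
                intro r hr
                rw [mem_filter] at hr
                exact mem_range.mpr hr.2
            _ = B := card_range B
        have h2 : ∏ r ∈ n.primeFactors, (r : ℝ) ^ n.factorization r = n := by
          have h3 := Nat.factorization_prod_pow_eq_self (n := n) (by omega)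
          rw [Nat.prod_factorization_eq_prod_primeFactors] at h3
          exact_mod_cast h3
        rw [h2]
        gcongr

end Pool.Agent.L5helper32.GP
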