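import Pool.Agent.L5helper32.GR.Defs

set_option autoImplicit false

open Finset MeasureTheory ProbabilityTheory

namespace Pool.Agent.L5helper9.GRExc

open Pool.Agent.L5helper32.GR

/-- `(1 + p) ^ ω(n) ≤ C n ^ (1/4)`. -/
theorem omega_bound (p : ℕ) : ∃ C : ℝ, 0 < C ∧ ∀ n : ℕ, 1 ≤ n →
    ((1 + p : ℕ) : ℝ) ^ (#n.primeFactors) ≤ C * (n : ℝ) ^ (1 / 4 : ℝ) := by
  set B : ℕ := (1 + p) ^ 4 with hB
  refine ⟨((1 + p : ℕ) : ℝ) ^ B, by positivity, fun n hn => ?_⟩
  have hp1 : (1 : ℝ) ≤ ((1 + p : ℕ) : ℝ) := by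
    have : 1 ≤ 1 + p := by omega
    exact_mod_cast this
  have hcard : #n.primeFactors = #(n.primeFactors.filter (· < B)) +
      #(n.primeFactors.filter (fun r => ¬ r < B)) :=
    (Finset.card_filter_add_card_filter_not (· < B)).symm
  rw [hcard, pow_add]
  refine mul_le_mul ?_ ?_ (by positivity) (by positivity)
  · refine pow_le_pow_right₀ hp1 ?_
    calc #(n.primeFactors.filter (· < B)) ≤ #(range B) := by
          apply Finset.card_le_card
          intro r hr
          rw [Finset.mem_filter] at hr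
          exact Finset.mem_range.mpr hr.2
      _ = B := Finset.card_range B
  · set L := n.primeFactors.filter (fun r => ¬ r < B) with hL
    have h1 : ((1 + p) ^ #L) ^ 4 ≤ n := by
      calc ((1 + p) ^ #L) ^ 4 = ∏ _r ∈ L, B := by
            rw [Finset.prod_const, hB, ← pow_mul, ← pow_mul, mul_comm]
        _ ≤ ∏ r ∈ L, r := by
            apply Finset.prod_le_prod'
            intro r hr
            rw [hL, Finset.mem_filter] at hr
            omega
        _ ≤ n := by
            apply Nat.le_of_dvd (by omega)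
            exact (Finset.prod_dvd_prod_of_subset _ _ _ (Finset.filter_subset _ _)).trans
              (Nat.prod_primeFactors_dvd n)
    have h2 : ((((1 + p : ℕ) : ℝ) ^ #L) ^ 4) ≤ (n : ℝ) := by exact_mod_cast h1
    have h3 : (((1 + p : ℕ) : ℝ) ^ #L) = ((((1 + p : ℕ) : ℝ) ^ #L) ^ 4) ^ (1 / 4 : ℝ) := by
      rw [← Real.rpow_natCast (((1 + p : ℕ) : ℝ) ^ #L) 4, ← Real.rpow_mul (by positivity)]
      norm_num
    rw [h3]
    exact Real.rpow_le_rpow (by positivity) h2 (by norm_num)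

/-- A large jump at a given place has a small probability (`hall` is `prob_all`, `hw` is `w_le`). -/
theorem prob_jump_of {p : ℕ} {Ω : Type} [MeasurableSpace Ω] {μ : Measure Ω}
    [IsProbabilityMeasure μ] {T : ℕ × ℕ → Ω → ℕ}
    (hall : ∀ (c : ℕ) (R : Finset ℕ), (∀ r ∈ R, r.Prime) →
      μ.real {ω | ∀ r ∈ R, Root p r (res T ω c r)} = ∏ r ∈ R, ((w p r : ℝ) / r))
    (hw : ∀ r : ℕ, r.Prime → w p r ≤ p) (c n G : ℕ) (hG : 1 ≤ G) :
    μ.real {ω | G ≤ jump p (res T ω c) n} ≤ ((1 + p : ℕ) : ℝ) ^ (#n.primeFactors) / G := by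
  classical
  have hG0 : (0 : ℝ) < G := by exact_mod_cast hG
  set F := n.primeFactors.powerset.filter (fun D => G ≤ ∏ r ∈ D, r) with hF
  have hsub : {ω | G ≤ jump p (res T ω c) n} ⊆
      ⋃ D ∈ F, {ω | ∀ r ∈ D, Root p r (res T ω c r)} := by
    intro ω hω
    rw [Set.mem_setOf_eq] at hω
    unfold jump at hω
    simp only [Set.mem_iUnion, exists_prop, Set.mem_setOf_eq]
    refine ⟨n.primeFactors.filter (fun r => Root p r (res T ω c r)), ?_, ?_⟩
    · rw [hF, Finset.mem_filter, Finset.mem_powerset]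
      exact ⟨Finset.filter_subset _ _, hω⟩
    · intro r hr
      rw [Finset.mem_filter] at hr
      exact hr.2
  have hD : ∀ D ∈ F, μ.real {ω | ∀ r ∈ D, Root p r (res T ω c r)} ≤ (p : ℝ) ^ #D / G := by
    intro D hD
    rw [hF, Finset.mem_filter, Finset.mem_powerset] at hD
    have hpr : ∀ r ∈ D, r.Prime := fun r hr => Nat.prime_of_mem_primeFactors (hD.1 hr)
    rw [hall c D hpr, Finset.prod_div_distrib]
    have h1 : ∏ r ∈ D, (w p r : ℝ) ≤ (p : ℝ) ^ #D := by
      rw [← Finset.prod_const]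
      exact Finset.prod_le_prod (fun _ _ => by positivity)
        (fun r hr => by exact_mod_cast hw r (hpr r hr))
    have h2 : (G : ℝ) ≤ ∏ r ∈ D, (r : ℝ) := by
      have h3 : (G : ℝ) ≤ ((∏ r ∈ D, r : ℕ) : ℝ) := Nat.cast_le.mpr hD.2
      rwa [Nat.cast_prod] at h3
    exact div_le_div₀ (by positivity) h1 hG0 h2
  calc μ.real {ω | G ≤ jump p (res T ω c) n}
      ≤ μ.real (⋃ D ∈ F, {ω | ∀ r ∈ D, Root p r (res T ω c r)}) :=
        measureReal_mono hsub (measure_ne_top _ _)
    _ ≤ ∑ D ∈ F, μ.real {ω | ∀ r ∈ D, Root p r (res T ω c r)} :=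
        measureReal_biUnion_finset_le _ _
    _ ≤ ∑ D ∈ F, (p : ℝ) ^ #D / G := Finset.sum_le_sum hD
    _ ≤ ∑ D ∈ n.primeFactors.powerset, (p : ℝ) ^ #D / G :=
        Finset.sum_le_sum_of_subset_of_nonneg (Finset.filter_subset _ _)
          (fun _ _ _ => by positivity)
    _ = ((1 + p : ℕ) : ℝ) ^ (#n.primeFactors) / G := by
        rw [← Finset.sum_div]
        congr 1
        have h := Finset.sum_pow_mul_eq_add_pow (p : ℝ) 1 n.primeFactors
        simp only [one_pow, mul_one] at h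
        rw [h]
        push_cast
        ring

end Pool.Agent.L5helper9.GRExc
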