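import Pool.Agent.L5helper9.Nf1

/-!
# Most residues have small representatives

`Good t n m p r`: no nonzero polynomial `A` of degree at most `m` with `|a_i| < t ^ (n - 2 i)`
vanishes at `r` modulo `p`. At most `m 2 ^ (m + 1) t ^ ((m + 1) (n - m))` residues modulo the prime
`p > t ^ n` are not good. For a good `r` every residue modulo `p` is the value at `r` of a
polynomial `A` with `Sm t m (J t ^ n) A`, where `J` depends on `p / t ^ ((m + 1) (n - m))` only.
-/

set_option autoImplicit false

namespace Pool.Agent.L5helper9.Nf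

open Polynomial Finset
open scoped Pointwise

/-- no small polynomial vanishes at `r` modulo `p` -/
def Good (t n m p : ℕ) (r : ℤ) : Prop :=
  ∀ A : ℤ[X], A.natDegree ≤ m → (∀ i ≤ m, |A.coeff i| < (t : ℤ) ^ (n - 2 * i)) →
    (p : ℤ) ∣ A.eval r → A = 0

lemma sum_exp (n m : ℕ) (h : 2 * m ≤ n) :
    ∑ i ∈ Finset.range (m + 1), (n - 2 * i) = (m + 1) * (n - m) := by
  induction m with
  | zero => simp
  | succ m ih =>
    rw [Finset.sum_range_succ, ih (by omega)]
    obtain ⟨k, rfl⟩ : ∃ k, n = 2 * (m + 1) + k := ⟨n - 2 * (m + 1), by omega⟩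
    have h1 : 2 * (m + 1) + k - m = m + 2 + k := by omega
    have h2 : 2 * (m + 1) + k - 2 * (m + 1) = k := by omega
    have h3 : 2 * (m + 1) + k - (m + 1) = m + 1 + k := by omega
    rw [h1, h2, h3]
    ring

lemma prod_exp (t n m : ℕ) (h : 2 * m ≤ n) :
    ∏ i : Fin (m + 1), t ^ (n - 2 * (i : ℕ)) = t ^ ((m + 1) * (n - m)) := by
  rw [Finset.prod_pow_eq_pow_sum, Fin.sum_univ_eq_sum_range (fun i => n - 2 * i), sum_exp n m h]

lemma card_roots_le (p : ℕ) (hp : p.Prime) (A : ℤ[X]) (m : ℕ) (hA : A.natDegree ≤ m)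
    (h : ∃ i, ¬ (p : ℤ) ∣ A.coeff i) :
    ((Finset.range p).filter fun r : ℕ => (p : ℤ) ∣ A.eval (r : ℤ)).card ≤ m := by
  have : Fact p.Prime := ⟨hp⟩
  set B : (ZMod p)[X] := A.map (Int.castRingHom (ZMod p)) with hB
  have hB0 : B ≠ 0 := by
    obtain ⟨i, hi⟩ := h
    intro h0
    apply hi
    rw [← ZMod.intCast_zmod_eq_zero_iff_dvd]
    have := congrArg (fun P => P.coeff i) h0
    simpa [hB, coeff_map] using this
  calc ((Finset.range p).filter fun r : ℕ => (p : ℤ) ∣ A.eval (r : ℤ)).card
      ≤ B.roots.toFinset.card := by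
        apply Finset.card_le_card_of_injOn (fun r : ℕ => (r : ZMod p))
        · intro r hr
          simp only [Finset.coe_filter, Finset.mem_range, Set.mem_ofPred_eq] at hr
          simp only [Finset.mem_coe, Multiset.mem_toFinset]
          rw [mem_roots hB0, IsRoot.def, hB, eval_map]
          have h1 := (ZMod.intCast_zmod_eq_zero_iff_dvd (A.eval (r : ℤ)) p).2 hr.2
          have h2 : ((A.eval (r : ℤ) : ℤ) : ZMod p) =
              eval₂ (Int.castRingHom (ZMod p)) ((Int.castRingHom (ZMod p)) (r : ℤ)) A := by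
            rw [eval₂_at_apply]
            simp
          rw [h2] at h1
          simpa using h1
        · intro a ha b hb hab
          simp only [Finset.coe_filter, Finset.mem_range, Set.mem_ofPred_eq] at ha hb
          simp only at hab
          have h1 := (ZMod.natCast_eq_natCast_iff' a b p).1 hab
          rwa [Nat.mod_eq_of_lt ha.1, Nat.mod_eq_of_lt hb.1] at h1
    _ ≤ B.roots.card := Multiset.toFinset_card_le _
    _ ≤ B.natDegree := card_roots' B
    _ ≤ A.natDegree := natDegree_map_le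
    _ ≤ m := hA

open Classical in
/-- most residues are good -/
theorem card_not_good (t n m p : ℕ) (hp : p.Prime) (hm : 2 * m ≤ n) (htp : t ^ n ≤ p)
    (ht : 1 ≤ t) :
    ((Finset.range p).filter fun r : ℕ => ¬ Good t n m p (r : ℤ)).card ≤
      m * (2 ^ (m + 1) * t ^ ((m + 1) * (n - m))) := by
  classical
  set P : Finset (Fin (m + 1) → ℤ) := Fintype.piFinset fun i : Fin (m + 1) =>
    Finset.Ioo (-(t : ℤ) ^ (n - 2 * (i : ℕ))) ((t : ℤ) ^ (n - 2 * (i : ℕ))) with hP
  have hPcard : P.card ≤ 2 ^ (m + 1) * t ^ ((m + 1) * (n - m)) := by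
    rw [hP, Fintype.card_piFinset, ← prod_exp t n m hm]
    have h1 : (2 : ℕ) ^ (m + 1) = ∏ _i : Fin (m + 1), 2 := by simp
    rw [h1, ← Finset.prod_mul_distrib]
    apply Finset.prod_le_prod'
    intro i _
    rw [Int.card_Ioo]
    have h2 : (0 : ℤ) ≤ (t : ℤ) ^ (n - 2 * (i : ℕ)) := by positivity
    have h3 : ((2 * t ^ (n - 2 * (i : ℕ)) : ℕ) : ℤ) = 2 * (t : ℤ) ^ (n - 2 * (i : ℕ)) := by
      push_cast; ring
    omega
  have hsub : ((Finset.range p).filter fun r : ℕ => ¬ Good t n m p (r : ℤ)) ⊆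
      P.biUnion fun a => if a = 0 then ∅ else
        (Finset.range p).filter fun r : ℕ => (p : ℤ) ∣ (ofFn (m + 1) a).eval (r : ℤ) := by
    intro r hr
    rw [Finset.mem_filter] at hr
    obtain ⟨hr1, hr2⟩ := hr
    unfold Good at hr2
    push Not at hr2
    obtain ⟨A, hA1, hA2, hA3, hA4⟩ := hr2
    rw [Finset.mem_biUnion]
    refine ⟨toFn (m + 1) A, ?_, ?_⟩
    · rw [hP, Fintype.mem_piFinset]
      intro i
      have := hA2 i (by omega)
      rw [abs_lt] at this
      rw [Finset.mem_Ioo]
      simpa [toFn] using this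
    · have h1 : ofFn (m + 1) (toFn (m + 1) A) = A := ofFn_comp_toFn_eq_id_of_natDegree_lt (by omega)
      rw [if_neg]
      · rw [Finset.mem_filter, h1]
        exact ⟨hr1, hA3⟩
      · intro h0
        rw [h0, map_zero] at h1
        exact hA4 h1.symm
  calc _ ≤ _ := Finset.card_le_card hsub
    _ ≤ ∑ a ∈ P, (if a = 0 then (∅ : Finset ℕ) else
        (Finset.range p).filter fun r : ℕ => (p : ℤ) ∣ (ofFn (m + 1) a).eval (r : ℤ)).card :=
        Finset.card_biUnion_le
    _ ≤ ∑ _a ∈ P, m := by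
        apply Finset.sum_le_sum
        intro a ha
        split_ifs with h0
        · simp
        · apply card_roots_le p hp
          · have := ofFn_natDegree_lt (n := m + 1) (by omega) a
            omega
          · by_contra hcon
            push Not at hcon
            apply h0
            funext i
            have h1 := hcon i
            rw [ofFn_coeff_eq_val_of_lt a i.2] at h1
            rw [hP, Fintype.mem_piFinset] at ha
            have h2 := ha i
            rw [Finset.mem_Ioo] at h2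
            have h3 : (t : ℤ) ^ (n - 2 * (i : ℕ)) ≤ p := by
              calc (t : ℤ) ^ (n - 2 * (i : ℕ)) ≤ (t : ℤ) ^ n :=
                    pow_le_pow_right₀ (by exact_mod_cast ht) (by omega)
                _ ≤ p := by exact_mod_cast htp
            have h4 : |a i| < p := by
              rw [abs_lt]
              constructor
              · linarith [h2.1]
              · linarith [h2.2]
            exact Int.eq_zero_of_abs_lt_dvd h1 h4
    _ = m * P.card := by rw [Finset.sum_const, smul_eq_mul, mul_comm]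
    _ ≤ _ := Nat.mul_le_mul_left _ hPcard

/-- residues represented by small polynomials -/
noncomputable def Rs (t n m p : ℕ) [NeZero p] (r : ℤ) (j : ℕ) : Finset (ZMod p) := by
  classical
  exact Finset.univ.filter fun ρ => ∃ A : ℤ[X], Sm t m (j * t ^ n) A ∧ ((A.eval r : ℤ) : ZMod p) = ρ

lemma mem_Rs {t n m p : ℕ} [NeZero p] {r : ℤ} {j : ℕ} {ρ : ZMod p} :
    ρ ∈ Rs t n m p r j ↔ ∃ A : ℤ[X], Sm t m (j * t ^ n) A ∧ ((A.eval r : ℤ) : ZMod p) = ρ := by
  unfold Rs
  simp

lemma card_Rs_one (t n m p : ℕ) [NeZero p] (r : ℤ) (hm : 2 * m ≤ n) (hr : Good t n m p r) :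
    t ^ ((m + 1) * (n - m)) ≤ (Rs t n m p r 1).card := by
  classical
  set P : Finset (Fin (m + 1) → ℤ) := Fintype.piFinset fun i : Fin (m + 1) =>
    Finset.Ico 0 ((t : ℤ) ^ (n - 2 * (i : ℕ))) with hP
  have hPcard : P.card = t ^ ((m + 1) * (n - m)) := by
    rw [hP, Fintype.card_piFinset, ← prod_exp t n m hm]
    apply Finset.prod_congr rfl
    intro i _
    rw [Int.card_Ico, sub_zero]
    have : ((t : ℤ) ^ (n - 2 * (i : ℕ))) = ((t ^ (n - 2 * (i : ℕ)) : ℕ) : ℤ) := by push_cast; ring
    rw [this, Int.toNat_natCast]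
  rw [← hPcard]
  apply Finset.card_le_card_of_injOn (fun a => (((ofFn (m + 1) a).eval r : ℤ) : ZMod p))
  · intro a ha
    rw [Finset.mem_coe, hP, Fintype.mem_piFinset] at ha
    rw [Finset.mem_coe, mem_Rs]
    refine ⟨ofFn (m + 1) a, ⟨?_, ?_⟩, rfl⟩
    · have := ofFn_natDegree_lt (n := m + 1) (by omega) a
      omega
    · intro i
      rcases lt_or_ge i (m + 1) with hi | hi
      · rw [ofFn_coeff_eq_val_of_lt a hi]
        have h1 := ha ⟨i, hi⟩
        rw [Finset.mem_Ico] at h1
        simp only at h1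
        rw [abs_of_nonneg h1.1]
        have h2 : (t : ℤ) ^ n = (t : ℤ) ^ (n - 2 * i) * (t : ℤ) ^ (2 * i) := by
          rw [← pow_add]
          congr 1
          omega
        rw [h2]
        push_cast
        rw [one_mul]
        exact mul_le_mul_of_nonneg_right h1.2.le (by positivity)
      · rw [ofFn_coeff_eq_zero_of_ge a hi]
        simp only [abs_zero, zero_mul]
        positivity
  · intro a ha b hb hab
    rw [Finset.mem_coe, hP, Fintype.mem_piFinset] at ha hb
    simp only at hab
    have h1 : (p : ℤ) ∣ (ofFn (m + 1) (a - b)).eval r := by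
      rw [← ZMod.intCast_zmod_eq_zero_iff_dvd, map_sub, eval_sub]
      push_cast
      rw [hab, sub_self]
    have h2 := hr _ (by have := ofFn_natDegree_lt (n := m + 1) (by omega) (a - b); omega) (by
      intro i hi
      rw [ofFn_coeff_eq_val_of_lt _ (by omega : i < m + 1)]
      have h3 := ha ⟨i, by omega⟩
      have h4 := hb ⟨i, by omega⟩
      rw [Finset.mem_Ico] at h3 h4
      simp only [Pi.sub_apply] at h3 h4 ⊢
      rw [abs_lt]
      constructor
      · linarith [h3.1, h4.2]
      · linarith [h3.2, h4.1]) h1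
    have h3 : a - b = 0 := by
      apply injective_ofFn (R := ℤ) (m + 1)
      rw [h2, map_zero]
    exact sub_eq_zero.1 h3

lemma Rs_add (t n m p : ℕ) [NeZero p] (r : ℤ) (j k : ℕ) :
    Rs t n m p r j + Rs t n m p r k ⊆ Rs t n m p r (j + k) := by
  intro ρ hρ
  rw [Finset.mem_add] at hρ
  obtain ⟨x, hx, y, hy, rfl⟩ := hρ
  rw [mem_Rs] at hx hy ⊢
  obtain ⟨A, hA, rfl⟩ := hx
  obtain ⟨B, hB, rfl⟩ := hy
  refine ⟨A + B, ?_, by rw [eval_add]; push_cast; ring⟩
  have := hA.add hB
  refine this.mono le_rfl ?_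
  push_cast
  ring_nf
  rfl

/-- **Small representatives modulo a prime, for good residues.** -/
theorem reps1 (t n m p : ℕ) (hp : p.Prime) (r : ℤ) (hm : 2 * m + 1 ≤ n) (ht : 2 ≤ t)
    (hr : Good t n m p r) (C : ℕ) (hpC : p ≤ C * t ^ ((m + 1) * (n - m))) (ρ : ℤ) :
    ∃ A : ℤ[X], Sm t m ((2 * C : ℕ) * t ^ n) A ∧ (p : ℤ) ∣ A.eval r - ρ := by
  have : NeZero p := ⟨hp.ne_zero⟩
  have : Fact p.Prime := ⟨hp⟩
  set s := t ^ ((m + 1) * (n - m)) with hs
  have hs2 : 2 ≤ s := by
    have h1 : 1 ≤ (m + 1) * (n - m) := Nat.mul_pos (by omega) (by omega)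
    calc 2 ≤ t := ht
      _ = t ^ 1 := (pow_one t).symm
      _ ≤ s := Nat.pow_le_pow_right (by omega) h1
  have h1 := card_Rs_one t n m p r (by omega) hr
  rw [← hs] at h1
  have h2 : ∀ j : ℕ, min p (j * (s - 1) + 1) ≤ (Rs t n m p r j).card := by
    intro j
    induction j with
    | zero =>
      have h3 : (0 : ZMod p) ∈ Rs t n m p r 0 := by
        rw [mem_Rs]
        refine ⟨0, ⟨by simp, fun i => by simp⟩, by simp⟩
      have h4 : 1 ≤ (Rs t n m p r 0).card := Finset.card_pos.2 ⟨0, h3⟩
      omega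
    | succ j ih =>
      have hne1 : (Rs t n m p r 1).Nonempty := Finset.card_pos.1 (by omega)
      have hnej : (Rs t n m p r j).Nonempty := by
        rw [← Finset.card_pos]
        have := hp.pos
        omega
      have h3 := ZMod.cauchy_davenport hp hnej hne1
      have h4 := Finset.card_le_card (Rs_add t n m p r j 1)
      have h5 : (j + 1) * (s - 1) = j * (s - 1) + (s - 1) := by ring
      rw [h5]
      omega
  have h3 : (Rs t n m p r (2 * C)).card = Fintype.card (ZMod p) := by
    rw [ZMod.card p]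
    apply le_antisymm
    · calc _ ≤ Fintype.card (ZMod p) := Finset.card_le_univ _
        _ = p := ZMod.card p
    · have h4 := h2 (2 * C)
      have h5 : p ≤ 2 * C * (s - 1) + 1 := by
        have h6 : s ≤ 2 * (s - 1) := by omega
        have h7 : C * s ≤ C * (2 * (s - 1)) := Nat.mul_le_mul_left _ h6
        have h8 : C * (2 * (s - 1)) = 2 * C * (s - 1) := by ring
        omega
      omega
  have h4 : Rs t n m p r (2 * C) = Finset.univ := Finset.eq_univ_of_card _ h3
  have h5 : ((ρ : ℤ) : ZMod p) ∈ Rs t n m p r (2 * C) := by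
    rw [h4]
    exact Finset.mem_univ _
  rw [mem_Rs] at h5
  obtain ⟨A, hA1, hA2⟩ := h5
  refine ⟨A, hA1, ?_⟩
  exact (ZMod.intCast_eq_intCast_iff_dvd_sub _ _ _).1 hA2.symm

end Pool.Agent.L5helper9.Nf
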