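import Mathlib

/-!
# Discriminants of families of algebraic integers

* `discr_family`: the discriminant of a `ℚ`-basis `b` of the number field `L` consisting of
  algebraic integers is an integer `z` with `|disc L| ≤ |z|`.
* `discr_bound`: `|disc b| ≤ (n! ∏ c_j) ^ 2` if all conjugates of `b_j` are at most `c_j`.
* `index_lemma`: if `α` is a root of the monic polynomial `f` of degree `[L : ℚ]`, generates `L`
  and `P ^ 2 ∣ f(r)`, `P ∣ f'(r)`, then the discriminant of `1, α, …, α ^ (n - 1)` is `P ^ 2 z`
  with `|disc L| ≤ |z|`.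
-/

set_option autoImplicit false

namespace Pool.Agent.L5helper9.Nf

open Module NumberField Polynomial

section family

variable (L : Type) [Field L] [NumberField L]

lemma discr_family {n : ℕ} (hn : finrank ℚ L = n) (b : Fin n → 𝓞 L)
    (hb : Algebra.discr ℚ (fun i => (b i : L)) ≠ 0) :
    ∃ z : ℤ, z ≠ 0 ∧ Algebra.discr ℚ (fun i => (b i : L)) = z ∧ |NumberField.discr L| ≤ |z| := by
  classical
  have hcard : Fintype.card (Free.ChooseBasisIndex ℤ (𝓞 L)) = n := by
    rw [← Module.finrank_eq_card_chooseBasisIndex, RingOfIntegers.rank, hn]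
  set e : Free.ChooseBasisIndex ℤ (𝓞 L) ≃ Fin n := Fintype.equivFinOfCardEq hcard with he
  set B : Basis (Fin n) ℚ L := (integralBasis L).reindex e with hB
  have hBd : Algebra.discr ℚ B = NumberField.discr L := by
    rw [NumberField.coe_discr, hB, Basis.coe_reindex, Algebra.discr_reindex]
  set M : Matrix (Fin n) (Fin n) ℤ := fun i j => (RingOfIntegers.basis L).repr (b j) (e.symm i)
    with hM
  have hMb : (fun i => (b i : L)) = Matrix.vecMul (B : Fin n → L)
      ((M.map (fun x : ℤ => (x : ℚ))).map (algebraMap ℚ L)) := by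
    funext j
    rw [Matrix.vecMul, dotProduct]
    have h1 := B.sum_repr (b j : L)
    rw [← h1]
    apply Finset.sum_congr rfl
    intro i _
    have h2 : B.repr (b j : L) i = ((RingOfIntegers.basis L).repr (b j) (e.symm i) : ℚ) := by
      rw [hB, Basis.repr_reindex_apply]
      have := integralBasis_repr_apply L (b j) (e.symm i)
      rw [this]
      simp
    rw [h2, Algebra.smul_def, mul_comm]
    simp [hM]
  have hd : Algebra.discr ℚ (fun i => (b i : L)) = ((M.det ^ 2 * NumberField.discr L : ℤ) : ℚ) := by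
    rw [hMb, Algebra.discr_of_matrix_vecMul, hBd]
    push_cast
    congr 2
  refine ⟨M.det ^ 2 * NumberField.discr L, ?_, hd, ?_⟩
  · intro h0
    rw [h0] at hd
    exact hb (by rw [hd]; simp)
  · have h4 : M.det ≠ 0 := by
      intro h0
      rw [h0] at hd
      exact hb (by rw [hd]; simp)
    rw [abs_mul, abs_pow]
    have h5 : 1 ≤ |M.det| := Int.one_le_abs h4
    nlinarith [abs_nonneg (NumberField.discr L), one_le_pow₀ h5 (n := 2)]

lemma discr_bound {n : ℕ} (hn : finrank ℚ L = n) (b : Fin n → L) (c : Fin n → ℝ)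
    (hb : ∀ j, ∀ φ : L →+* ℂ, ‖φ (b j)‖ ≤ c j) :
    |((Algebra.discr ℚ b : ℚ) : ℝ)| ≤ ((n.factorial : ℝ) * ∏ j, c j) ^ 2 := by
  classical
  have hcard : Fintype.card (Fin n) = Fintype.card (L →ₐ[ℚ] ℂ) := by
    rw [AlgHom.card, hn, Fintype.card_fin]
  have e : Fin n ≃ (L →ₐ[ℚ] ℂ) := Fintype.equivOfCardEq hcard
  have h1 := Algebra.discr_eq_det_embeddingsMatrixReindex_pow_two ℚ ℂ b e
  have hc : ∀ j, 0 ≤ c j := fun j => le_trans (norm_nonneg _) (hb j (e ⟨0, by
    have := j.2; omega⟩).toRingHom)
  have h2 : ‖(Algebra.embeddingsMatrixReindex ℚ ℂ b e).det‖ ≤ (n.factorial : ℝ) * ∏ j, c j := by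
    rw [Matrix.det_apply]
    calc ‖∑ σ : Equiv.Perm (Fin n), Equiv.Perm.sign σ •
            ∏ i, Algebra.embeddingsMatrixReindex ℚ ℂ b e (σ i) i‖
        ≤ ∑ σ : Equiv.Perm (Fin n), ‖Equiv.Perm.sign σ •
            ∏ i, Algebra.embeddingsMatrixReindex ℚ ℂ b e (σ i) i‖ := norm_sum_le _ _
      _ ≤ ∑ _σ : Equiv.Perm (Fin n), ∏ j, c j := by
          apply Finset.sum_le_sum
          intro σ _
          have h3 : ‖Equiv.Perm.sign σ •
              ∏ i, Algebra.embeddingsMatrixReindex ℚ ℂ b e (σ i) i‖ =
              ‖∏ i, Algebra.embeddingsMatrixReindex ℚ ℂ b e (σ i) i‖ := by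
            rcases Int.units_eq_one_or (Equiv.Perm.sign σ) with h | h <;> rw [h] <;> simp
          rw [h3, norm_prod]
          have h4 : ∏ j, c j = ∏ i, c (σ i) := (Equiv.prod_comp σ c).symm
          rw [h4]
          apply Finset.prod_le_prod
          · intro i _
            exact norm_nonneg _
          · intro i _
            exact hb (σ i) (e i).toRingHom
      _ = (n.factorial : ℝ) * ∏ j, c j := by
          rw [Finset.sum_const, Finset.card_univ, Fintype.card_perm, Fintype.card_fin,
            nsmul_eq_mul]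
  have h3 : |((Algebra.discr ℚ b : ℚ) : ℝ)| = ‖(Algebra.embeddingsMatrixReindex ℚ ℂ b e).det‖ ^ 2 := by
    rw [← norm_pow, ← h1]
    rw [eq_ratCast]
    rw [← Complex.ofReal_ratCast, Complex.norm_real, Real.norm_eq_abs]
  rw [h3]
  exact pow_le_pow_left₀ (norm_nonneg _) h2 2

end family

section index

variable (L : Type) [Field L] [NumberField L]

lemma pow_discr_ne_zero {n : ℕ} (hn : finrank ℚ L = n) (x : L)
    (hx : (minpoly ℚ x).natDegree = n) :
    Algebra.discr ℚ (fun i : Fin n => x ^ (i : ℕ)) ≠ 0 := by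
  have h1 := linearIndependent_pow (K := ℚ) x
  have h2 : LinearIndependent ℚ (fun i : Fin n => x ^ (i : ℕ)) := by
    subst hx
    exact h1
  rcases Nat.eq_zero_or_pos n with h0 | hpos
  · have := finrank_pos (R := ℚ) (M := L)
    omega
  · have : Nonempty (Fin n) := ⟨⟨0, hpos⟩⟩
    have h3 := Algebra.discr_not_zero_of_basis ℚ
      (basisOfLinearIndependentOfCardEqFinrank h2 (by rw [Fintype.card_fin, hn]))
    rwa [coe_basisOfLinearIndependentOfCardEqFinrank] at h3

theorem index_lemma {n : ℕ} (hn : finrank ℚ L = n) (α : 𝓞 L)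
    (hα : (minpoly ℚ (α : L)).natDegree = n) (f : ℤ[X]) (hf : f.Monic) (hfn : f.natDegree = n)
    (hroot : aeval (α : L) f = 0) (P r : ℤ) (hP : P ≠ 0) (h1 : P ^ 2 ∣ f.eval r)
    (h2 : P ∣ f.derivative.eval r) :
    ∃ z : ℤ, z ≠ 0 ∧ Algebra.discr ℚ (fun i : Fin n => (α : L) ^ (i : ℕ)) = P ^ 2 * z ∧
      |NumberField.discr L| ≤ |z| := by
  classical
  have hnpos : 0 < n := by rw [← hn]; exact finrank_pos
  obtain ⟨k, rfl⟩ : ∃ k, n = k + 1 := ⟨n - 1, by omega⟩
  have hPL : ((P : ℤ) : L) ≠ 0 := by exact_mod_cast hP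
  set g : ℤ[X] := f /ₘ (X - C r) with hg
  set h : ℤ[X] := g /ₘ (X - C r) with hh
  have hfg : f = (X - C r) * g + C (f.eval r) := by
    have := modByMonic_add_div f (X - C r)
    rw [modByMonic_X_sub_C_eq_C_eval] at this
    rw [hg]
    rw [add_comm] at this
    exact this.symm
  have hgh : g = (X - C r) * h + C (g.eval r) := by
    have := modByMonic_add_div g (X - C r)
    rw [modByMonic_X_sub_C_eq_C_eval] at this
    rw [hh]
    rw [add_comm] at this
    exact this.symm
  have hgr : g.eval r = f.derivative.eval r := by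
    conv_rhs => rw [hfg]
    rw [derivative_add, derivative_C, add_zero, derivative_mul, eval_add, eval_mul, eval_mul]
    simp
  have hgdeg : g.natDegree = k := by
    rw [hg, natDegree_divByMonic _ (monic_X_sub_C r), hfn, natDegree_X_sub_C]
    omega
  have hgm : g.Monic := by
    have h3 : (f - C (f.eval r)).Monic := by
      apply hf.sub_of_left
      apply lt_of_le_of_lt degree_C_le
      rw [degree_eq_natDegree hf.ne_zero, hfn]
      exact_mod_cast Nat.succ_pos k
    have h4 : f - C (f.eval r) = (X - C r) * g := by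
      conv_lhs => rw [hfg]
      simp
    rw [h4] at h3
    exact (monic_X_sub_C r).of_mul_monic_left h3
  obtain ⟨u, hu⟩ := h1
  obtain ⟨w, hw⟩ := h2
  set a : L := (α : L) with ha
  have hA1 : (a - r) * aeval a g = -((f.eval r : ℤ) : L) := by
    have h3 := congrArg (aeval a) hfg
    rw [hroot, map_add, map_mul, map_sub, aeval_X, aeval_C, aeval_C] at h3
    simp only [algebraMap_int_eq, eq_intCast] at h3
    linear_combination -h3
  have hA2 : aeval a g = (a - r) * aeval a h + ((g.eval r : ℤ) : L) := by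
    have h3 := congrArg (aeval a) hgh
    rw [map_add, map_mul, map_sub, aeval_X, aeval_C, aeval_C] at h3
    simp only [algebraMap_int_eq, eq_intCast] at h3
    exact h3
  -- the element `γ = g(α) / P`
  set γ : L := aeval a g / (P : L) with hγ
  have hγ2 : γ ^ 2 = (w : L) * γ - (u : L) * aeval a h := by
    have h3 : (aeval a g) ^ 2 = -((f.eval r : ℤ) : L) * aeval a h +
        ((g.eval r : ℤ) : L) * aeval a g := by
      linear_combination (aeval a h) * hA1 + (aeval a g) * hA2
    rw [hu, hgr, hw] at h3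
    rw [hγ]
    field_simp
    push_cast at h3
    linear_combination h3
  have hγint : IsIntegral ℤ γ := by
    have h3 : IsIntegral (𝓞 L) γ := by
      refine ⟨X ^ 2 - (C (w : 𝓞 L) * X - C ((u : 𝓞 L) * aeval α h)), ?_, ?_⟩
      · apply Monic.sub_of_left (monic_X_pow 2)
        rw [degree_X_pow]
        refine lt_of_le_of_lt (degree_sub_le _ _) ?_
        rw [max_lt_iff]
        constructor
        · refine lt_of_le_of_lt (degree_C_mul_X_le _) ?_
          norm_num
        · exact lt_of_le_of_lt degree_C_le (by norm_num)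
      · rw [eval₂_sub, eval₂_X_pow, eval₂_sub, eval₂_mul, eval₂_C, eval₂_X, eval₂_C]
        rw [hγ2]
        have h4 : algebraMap (𝓞 L) L (aeval α h) = aeval a h := by
          rw [← aeval_algebraMap_apply]
        rw [map_mul, h4]
        simp
    exact isIntegral_trans γ h3
  set γ' : 𝓞 L := ⟨γ, hγint⟩ with hγ'
  set b : Fin (k + 1) → 𝓞 L := fun i => if i = Fin.last k then γ' else α ^ (i : ℕ) with hb
  -- the matrix
  set Q : Matrix (Fin (k + 1)) (Fin (k + 1)) ℚ := fun i j =>
    if j = Fin.last k then (if i = Fin.last k then (P : ℚ) else -(g.coeff i : ℚ))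
    else (if i = j then 1 else 0) with hQ
  have hQdet : Q.det = P := by
    rw [Matrix.det_of_isUpperTriangular]
    · rw [Fin.prod_univ_castSucc]
      have h3 : ∀ i : Fin k, Q (Fin.castSucc i) (Fin.castSucc i) = 1 := by
        intro i
        rw [hQ]
        simp [(Fin.castSucc_lt_last i).ne]
      simp only [h3, Finset.prod_const_one, one_mul]
      simp [hQ]
    · intro i j hij
      simp only [id] at hij
      simp only [hQ]
      have hj : j ≠ Fin.last k := ne_of_lt (lt_of_lt_of_le hij (Fin.le_last i))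
      rw [if_neg hj, if_neg (ne_of_gt hij)]
  have hmat : (fun i : Fin (k + 1) => a ^ (i : ℕ)) =
      Matrix.vecMul (fun i => (b i : L)) (Q.map (algebraMap ℚ L)) := by
    funext j
    rw [Matrix.vecMul, dotProduct]
    by_cases hj : j = Fin.last k
    · subst hj
      rw [Fin.sum_univ_castSucc]
      have h3 : ∀ i : Fin k, ((b (Fin.castSucc i) : 𝓞 L) : L) *
          (Q.map (algebraMap ℚ L)) (Fin.castSucc i) (Fin.last k) =
          -((g.coeff i : ℤ) : L) * a ^ (i : ℕ) := by
        intro i
        simp only [hb, hQ, Matrix.map_apply, if_true]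
        rw [if_neg (Fin.castSucc_lt_last i).ne, if_neg (Fin.castSucc_lt_last i).ne]
        simp
        ring
      simp only [h3]
      have h4 : ((b (Fin.last k) : 𝓞 L) : L) *
          (Q.map (algebraMap ℚ L)) (Fin.last k) (Fin.last k) = aeval a g := by
        simp only [hb, hQ, Matrix.map_apply, if_true]
        simp only [eq_ratCast, Rat.cast_intCast]
        change γ * (P : L) = aeval a g
        rw [hγ]
        field_simp
      rw [h4, Fin.val_last]
      have h5 : aeval a g = ∑ i ∈ Finset.range (k + 1), ((g.coeff i : ℤ) : L) * a ^ i := by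
        rw [aeval_eq_sum_range' (n := k + 1) (by omega)]
        apply Finset.sum_congr rfl
        intro i _
        rw [zsmul_eq_mul]
      have h6 : g.coeff k = 1 := by
        have := hgm.coeff_natDegree
        rwa [hgdeg] at this
      rw [h5, Finset.sum_range_succ, h6,
        Fin.sum_univ_eq_sum_range (fun i => -((g.coeff i : ℤ) : L) * a ^ i)]
      simp only [neg_mul, Finset.sum_neg_distrib]
      push_cast
      ring
    · rw [Finset.sum_eq_single j]
      · simp only [hb, hQ, Matrix.map_apply]
        rw [if_neg hj, if_neg hj]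
        simp [ha]
      · intro i _ hij
        simp only [hQ, Matrix.map_apply]
        rw [if_neg hj, if_neg hij]
        simp
      · simp
  have hd : Algebra.discr ℚ (fun i : Fin (k + 1) => a ^ (i : ℕ)) =
      (P : ℚ) ^ 2 * Algebra.discr ℚ (fun i => (b i : L)) := by
    rw [hmat, Algebra.discr_of_matrix_vecMul, hQdet]
  have hd0 := pow_discr_ne_zero L hn a hα
  have hb0 : Algebra.discr ℚ (fun i => (b i : L)) ≠ 0 := by
    intro h0
    rw [h0, mul_zero] at hd
    exact hd0 hd
  obtain ⟨z, hz0, hz1, hz2⟩ := discr_family L hn b hb0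
  exact ⟨z, hz0, by rw [hd, hz1], hz2⟩

end index

end Pool.Agent.L5helper9.Nf
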