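import Pool.Agent.N906.EQ.Law
import Pool.Agent.N906.EQ.Mom

/-!
# The limit law for general defects

The abstract version of the limit law of `Pool.Agent.N906.EQ`: the defect is the sum of a
scaling-invariant continuous function at infinity and of a function which is approximable by
congruence conditions.
-/

set_option autoImplicit false
set_option linter.unusedSectionVars false

namespace Pool.Agent.L5helper9.Arr

open NumberField NumberField.InfinitePlace IsDedekindDomain Module Finset Filter Topology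
  Pool.Agent.N852 Pool.Agent.H691R3 Pool.Agent.TH876.Loc MeasureTheory Pool.Agent.N906.EQ

section

variable {K : Type} [Field K] [NumberField K] {m q : ℕ}

open Classical in
/-- the weighted sum over the points off the hyperplanes -/
noncomputable def SPa (L : Fin q → Fin m → K) (Ef : (Fin m → K) → ℝ) (f χ : ℝ → ℝ) (Y : ℝ) : ℝ :=
  ∑' P : Projectivization K (Fin m → K), if ∀ l, lfK (L l) P.rep ≠ 0 then
    χ (Height.mulHeight P.rep / Y ^ (finrank ℚ K)) * f (Ef P.rep) else 0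

/-- the data of a defect -/
structure Dat (L : Fin q → Fin m → 𝓞 K) (Ef : (Fin m → K) → ℝ) (Q : (Fin m × Jx K → ℝ) → ℝ)
    (e : (Fin m × Jx K → ℤ) → ℝ) : Prop where
  smul : ∀ (t : K) (x : Fin m → K), t ≠ 0 → x ≠ 0 → Ef (t • x) = Ef x
  cont : ∀ c, Hc c ≠ 0 → ContinuousAt Q c
  hom : ∀ (r : ℝ) (c : Fin m × Jx K → ℝ), 0 < r → Q (r • c) = Q c
  pos : ∀ z : Fin m × Jx K → ℤ, z ≠ 0 → (∀ l, lf (L l) (vec z) ≠ 0) → 0 < Q (ic z)
  eq : ∀ z : Fin m × Jx K → ℤ, z ≠ 0 → (∀ l, lf (L l) (vec z) ≠ 0) →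
    Ef (kv (vec z)) = e z - Real.log (Q (ic z))
  app : ∀ c : ClassGroup (𝓞 K), Approx (Vo c L) e

open Classical in
/-- **Smooth averages converge.** -/
theorem smoothA (L : Fin q → Fin m → 𝓞 K) {Ef : (Fin m → K) → ℝ}
    {Q : (Fin m × Jx K → ℝ) → ℝ} {e : (Fin m × Jx K → ℤ) → ℝ} (hD : Dat L Ef Q e)
    {f : ℝ → ℝ} (hf : Continuous f) {Bf : ℝ} (hBf : ∀ x, Bf ≤ x → f x = 0) {Cf : ℝ}
    (hCf : ∀ x, |f x| ≤ Cf) {χ : ℝ → ℝ} (hχ : Continuous χ) {a b : ℝ} (ha : 0 < a)
    (hχa : ∀ y, y ≤ a → χ y = 0) (hχb : ∀ y, b ≤ y → χ y = 0) {Cχ : ℝ} (hCχ : ∀ x, |χ x| ≤ Cχ) :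
    ∃ ℓ : ℝ, Tendsto (fun Y : ℝ => SPa (fun l => kv (L l)) Ef f χ Y / Y ^ (m * finrank ℚ K)) atTop
      (𝓝 ℓ) := by
  obtain ⟨Φ, R, hR, hΦc, hΦ0, hΦ1, hΦs, hΦsum, hΦconst⟩ := exists_weight K
  set d := finrank ℚ K with hd
  have hd0 : 0 < d := finrank_pos (R := ℚ) (M := K)
  have hCf0 : 0 ≤ Cf := (abs_nonneg _).trans (hCf 0)
  have hCχ0 : 0 ≤ Cχ := (abs_nonneg _).trans (hCχ 0)
  -- the functions for the classes
  set χc : ClassGroup (𝓞 K) → ℝ → ℝ := fun c y => χ (y / Ideal.absNorm (Jr c)) with hχcdef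
  have hNc : ∀ c : ClassGroup (𝓞 K), (1 : ℝ) ≤ Ideal.absNorm (Jr c) := Jr_norm_pos
  have hN0 : ∀ c : ClassGroup (𝓞 K), (0 : ℝ) < Ideal.absNorm (Jr c) := fun c => by
    linarith [hNc c]
  have hχcc : ∀ c, Continuous (χc c) := fun c => hχ.comp (continuous_id.div_const _)
  have hχca : ∀ c y, y ≤ a → χc c y = 0 := by
    intro c y hy
    apply hχa
    rw [div_le_iff₀ (hN0 c)]
    nlinarith [hNc c]
  have hχcb : ∀ c y, b * Ideal.absNorm (Jr c) ≤ y → χc c y = 0 := by
    intro c y hy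
    apply hχb
    rw [le_div_iff₀ (hN0 c)]
    exact hy
  set F : ClassGroup (𝓞 K) → ℝ → (Fin m × Jx K → ℝ) → ℝ := fun c s x =>
    Φ (el x) * χc c (Hc x) * ftil f s (Q x) with hF
  have hFc : ∀ c s, Continuous (F c s) := by
    intro c s
    refine test_continuous hΦc (hχcc c) ha (hχca c) fun x hx => ?_
    exact (ftil_continuous hf hBf s).continuousAt.comp (hD.cont x hx)
  have hFsupp : ∀ c, ∃ R' : ℝ, 0 < R' ∧ ∀ s x, R' < ‖x‖ → F c s x = 0 := by
    intro c
    obtain ⟨R', hR', h⟩ := test_support (m := m) hΦs (χ := χc c) ha (hχca c) (hχcb c)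
    refine ⟨R', hR', fun s x hx => ?_⟩
    simp only [hF]
    rw [h x hx, zero_mul]
  have hFb : ∀ c s x, |F c s x| ≤ Cχ * Cf := by
    intro c s x
    simp only [hF]
    rw [abs_mul, abs_mul]
    refine mul_le_mul ?_ (ftil_abs_le hCf0 hCf _ _) (abs_nonneg _) hCχ0
    calc |Φ (el x)| * |χc c (Hc x)| ≤ 1 * Cχ :=
          mul_le_mul (by rw [abs_of_nonneg (hΦ0 _)]; exact hΦ1 _) (hCχ _) (abs_nonneg _)
            zero_le_one
      _ = Cχ := one_mul _
  have hF0 : ∀ c s, F c s 0 = 0 := by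
    intro c s
    have h1 : Hc (0 : Fin m × Jx K → ℝ) = 0 := by
      have h2 := Hc_smul (K := K) (m := m) le_rfl (r := 0) 0
      rw [zero_smul, zero_pow hd0.ne', zero_mul] at h2
      exact h2
    simp only [hF]
    rw [h1, hχca c 0 ha.le, mul_zero, zero_mul]
  have hlim : ∀ c : ClassGroup (𝓞 K), ∃ ℓ : ℝ, Tendsto (fun Y : ℝ =>
      (∑' z : Fin m × Jx K → ℤ, (if z ∈ Vo c L then F c (e z) (Y⁻¹ • ic z) else 0)) /
        Y ^ (m * d)) atTop (𝓝 ℓ) := by
    intro c
    obtain ⟨R', hR', hs⟩ := hFsupp c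
    have h1 := engine (hD.app c) (F := F c) (C := Cχ * Cf) (R := R')
      (by positivity) hR' (hFc c) (hFb c) hs (hF0 c)
    rw [card_idx, ← hd] at h1
    exact h1
  choose ℓ hℓ using hlim
  refine ⟨∑ c, ℓ c, ?_⟩
  have hsum := tendsto_finsetSum (univ : Finset (ClassGroup (𝓞 K))) fun c _ => hℓ c
  refine hsum.congr' ?_
  filter_upwards [eventually_gt_atTop 0] with Y hY
  rw [← sum_div]
  congr 1
  -- the sum over the points
  set av : (Fin m → K) → ℝ := fun x => if ∀ l, lfK (kv (L l)) x ≠ 0 then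
    χ (Height.mulHeight x / Y ^ d) * f (Ef x) else 0 with hav
  have hav1 : ∀ (t : K) (x : Fin m → K), t ≠ 0 → x ≠ 0 → av (t • x) = av x := by
    intro t x ht hx
    simp only [hav]
    rw [Height.mulHeight_smul_eq_mulHeight x ht, hD.smul t x ht hx]
    have h1 : (∀ l, lfK (kv (L l)) (t • x) ≠ 0) ↔ ∀ l, lfK (kv (L l)) x ≠ 0 := by
      refine forall_congr' fun l => ?_
      rw [lfK_smul]
      exact ⟨fun h h2 => h (by rw [h2, mul_zero]), fun h h2 => h ((mul_eq_zero.1 h2).resolve_left ht)⟩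
    by_cases h2 : ∀ l, lfK (kv (L l)) x ≠ 0
    · rw [if_pos h2, if_pos (h1.2 h2)]
    · rw [if_neg h2, if_neg fun h => h2 (h1.1 h)]
  have hfin : Summable fun P : Projectivization K (Fin m → K) => av P.rep := by
    apply summable_of_hasFiniteSupport
    obtain ⟨C, hC, hcount⟩ := count_le K m
    set B : ℝ := max 1 (|b| + 1) * max 1 Y with hB
    have hB1 : 1 ≤ B := by
      have h1 := le_max_left (1 : ℝ) (|b| + 1)
      have h2 := le_max_left (1 : ℝ) Y
      rw [hB]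
      nlinarith
    refine (hcount B hB1).1.subset ?_
    intro P hP
    rw [Function.mem_support] at hP
    by_contra hcon
    apply hP
    simp only [hav]
    have h1 : b ≤ Height.mulHeight P.rep / Y ^ d := by
      have h2 : B ^ d < Height.mulHeight P.rep := not_le.1 hcon
      rw [le_div_iff₀ (by positivity)]
      refine le_trans ?_ h2.le
      rw [hB, mul_pow]
      have h3 : b ≤ max 1 (|b| + 1) ^ d := by
        refine le_trans ?_ (le_self_pow₀ (le_max_left _ _) hd0.ne')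
        refine le_trans ?_ (le_max_right _ _)
        linarith [le_abs_self b]
      have h4 : Y ^ d ≤ max 1 Y ^ d := pow_le_pow_left₀ hY.le (le_max_right _ _) _
      exact mul_le_mul h3 h4 (by positivity) (by positivity)
    rw [hχb _ h1, zero_mul]
    split_ifs <;> rfl
  have hos := orbit_sum hΦ0 hΦsum av hav1 hfin
  have hSP : SPa (fun l => kv (L l)) Ef f χ Y = ∑' P : Projectivization K (Fin m → K), av P.rep := rfl
  rw [hSP, ← hos.tsum_eq]
  -- the terms
  have hterm : ∀ (c : ClassGroup (𝓞 K)) (z : Fin m × Jx K → ℤ), z ∈ Vc c →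
      Φ (el (ic z)) * av (kv (vec z)) =
        if z ∈ Vo c L then F c (e z) (Y⁻¹ • ic z) else 0 := by
    intro c z hz
    have hz0 := ne_zero_of_mem hz
    by_cases hoff : ∀ l, lf (L l) (vec z) ≠ 0
    · have h1 : ∀ l, lfK (kv (L l)) (kv (vec z)) ≠ 0 := fun l => exists_zero (hoff l)
      have hVo : z ∈ Vo c L := ⟨hz, hoff⟩
      have hQ0 := hD.pos z hz0 hoff
      have hQ := hD.eq z hz0 hoff
      rw [if_pos hVo]
      simp only [hav, hF]
      rw [if_pos h1, hD.hom _ _ (inv_pos.2 hY), el_smul (inv_pos.2 hY) fun w => sN_int_pos w hz0,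
        hΦconst, mul_assoc]
      congr 1
      congr 1
      · simp only [hχcdef]
        congr 1
        rw [Hc_smul (inv_nonneg.2 hY.le), ← mh_int hz, ← hd, inv_pow]
        have := (hN0 c).ne'
        have := (pow_pos hY d).ne'
        field_simp
      · unfold ftil
        rw [if_pos hQ0]
        rw [hQ]
    · have h1 : ¬ ∀ l, lfK (kv (L l)) (kv (vec z)) ≠ 0 := by
        intro h2
        apply hoff
        intro l h3
        apply h2 l
        rw [lfK_kv, h3]
        exact map_zero (algebraMap (𝓞 K) K)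
      have hVo : z ∉ Vo c L := fun h => hoff h.2
      rw [if_neg hVo]
      simp only [hav]
      rw [if_neg h1, mul_zero]
  have huniq : ∀ (c c' : ClassGroup (𝓞 K)) (z : Fin m × Jx K → ℤ), z ∈ Vc c → z ∈ Vc c' →
      c = c' := by
    intro c c' z h1 h2
    exact (prim_unique h1 h2 (t := 1) (by rw [one_smul])).1
  rw [← Summable.tsum_finsetSum]
  · refine tsum_congr fun z => ?_
    by_cases h : ∃ c : ClassGroup (𝓞 K), z ∈ Vc c
    · rw [if_pos h]
      obtain ⟨c, hc⟩ := h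
      rw [sum_eq_single_of_mem c (mem_univ c), ← hterm c z hc]
      intro c' _ hne
      rw [if_neg]
      intro h2
      exact hne (huniq c' c z h2.1 hc)
    · rw [if_neg h]
      refine sum_eq_zero fun c _ => ?_
      rw [if_neg]
      intro h2
      exact h ⟨c, h2.1⟩
  · intro c _
    obtain ⟨R', hR', hs⟩ := hFsupp c
    apply summable_of_box (R' * Y)
    intro z hz
    have h2 : F c (e z) (Y⁻¹ • ic z) = 0 := by
      apply hs
      rw [norm_smul, norm_inv, Real.norm_of_nonneg hY.le, lt_inv_mul_iff₀ hY]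
      linarith
    rw [h2]
    split_ifs <;> rfl

/-- **The limit law, in the order of the height**, provided that the tail is controlled. -/
theorem lawA (hm : 1 ≤ m) (L : Fin q → Fin m → K) (L' : Fin q → Fin m → 𝓞 K)
    {t : Fin q → K} (ht : ∀ l, t l ≠ 0) (hk : ∀ l, kv (L' l) = t l • L l)
    {Ef : (Fin m → K) → ℝ} {Q : (Fin m × Jx K → ℝ) → ℝ} {e : (Fin m × Jx K → ℤ) → ℝ}
    (hDat : Dat L' Ef Q e) {a c : ℝ} (ha : 0 < a) (E : Om L → ℝ)
    (hE : ∀ P : Om L, E P = a * Ef P.1.rep + c) {c₀ : ℝ}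
    (hT : Tail (rho L) E ((m * finrank ℚ K : ℕ) : ℝ) c₀) :
    ∃ μ : Measure ℝ, IsFiniteMeasure μ ∧
      ∀ f : ℝ → ℝ, Continuous f → (∃ M : ℝ, ∀ x, |f x| ≤ M) →
        Tendsto (fun B : ℝ => SS (rho L) E f B / B ^ ((m * finrank ℚ K : ℕ) : ℝ)) atTop
          (𝓝 (∫ x, f x ∂μ)) := by
  classical
  have hd0 : 0 < finrank ℚ K := finrank_pos (R := ℚ) (M := K)
  have hdR : (0 : ℝ) < finrank ℚ K := by exact_mod_cast hd0
  have hDpos : (0 : ℝ) < ((m * finrank ℚ K : ℕ) : ℝ) := by exact_mod_cast Nat.mul_pos hm hd0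
  obtain ⟨C, hC, hcount⟩ := count_le K m
  have hC' : ∀ B : ℝ, 1 ≤ B → ({P : Om L | rho L P ≤ B}.ncard : ℝ) ≤
      C * B ^ ((m * finrank ℚ K : ℕ) : ℝ) := by
    intro B hB
    obtain ⟨h1, h2⟩ := hcount B hB
    rw [Real.rpow_natCast]
    refine le_trans ?_ h2
    have h3 : Subtype.val '' {P : Om L | rho L P ≤ B} ⊆
        {P : Projectivization K (Fin m → K) | Height.mulHeight P.rep ≤ B ^ (finrank ℚ K)} := by
      rintro _ ⟨P, hP, rfl⟩
      exact (rho_le_iff L P (by linarith)).1 hP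
    have h4 := Set.ncard_le_ncard h3 h1
    rw [Set.ncard_image_of_injective _ Subtype.val_injective] at h4
    exact_mod_cast h4
  have hsm : ∀ f : ℝ → ℝ, Continuous f → (∃ M : ℝ, ∀ x, |f x| ≤ M) →
      (∃ b : ℝ, ∀ x, b ≤ x → f x = 0) →
      ∀ χ : ℝ → ℝ, Continuous χ → (∃ a₀ : ℝ, 0 < a₀ ∧ ∀ y, y ≤ a₀ → χ y = 0) →
      (∃ b : ℝ, ∀ y, b ≤ y → χ y = 0) → (∃ M : ℝ, ∀ y, |χ y| ≤ M) →
      ∃ ℓ : ℝ, Tendsto (fun B : ℝ => (∑' P, χ (rho L P / B) * f (E P)) /
        B ^ ((m * finrank ℚ K : ℕ) : ℝ)) atTop (𝓝 ℓ) := by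
    rintro f hf ⟨M, hM⟩ ⟨b₁, hb₁⟩ χ hχ ⟨a₀, ha₀, hχa⟩ ⟨b, hχb⟩ ⟨M', hM'⟩
    -- the transformed functions
    have hf' : Continuous fun y => f (a * y + c) := hf.comp (by fun_prop)
    set χ' : ℝ → ℝ := fun y => χ ((max y 0) ^ ((finrank ℚ K : ℝ)⁻¹)) with hχ'
    have hχ'c : Continuous χ' :=
      hχ.comp ((Real.continuous_rpow_const (inv_nonneg.2 hdR.le)).comp
        (continuous_id.max continuous_const))
    have hpow : ∀ r : ℝ, 0 ≤ r → (r ^ (finrank ℚ K)) ^ ((finrank ℚ K : ℝ)⁻¹) = r := fun r hr =>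
      Real.pow_rpow_inv_natCast hr hd0.ne'
    obtain ⟨ℓ, hℓ⟩ := smoothA L' hDat (f := fun y => f (a * y + c)) hf'
      (Bf := (b₁ - c) / a) (fun x hx => hb₁ _ (by rw [div_le_iff₀ ha] at hx; linarith))
      (Cf := M) (fun x => hM _) (χ := χ') hχ'c (a := a₀ ^ (finrank ℚ K))
      (b := (max b 0) ^ (finrank ℚ K)) (by positivity)
      (fun y hy => by
        apply hχa
        rw [← hpow a₀ ha₀.le]
        refine Real.rpow_le_rpow (le_max_right _ _) (max_le hy (by positivity)) (by positivity))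
      (fun y hy => by
        apply hχb
        refine (le_max_left b 0).trans ?_
        rw [← hpow (max b 0) (le_max_right _ _)]
        exact Real.rpow_le_rpow (by positivity) (hy.trans (le_max_left _ _)) (by positivity))
      (Cχ := M') (fun y => hM' _)
    refine ⟨ℓ, hℓ.congr' ?_⟩
    filter_upwards [eventually_gt_atTop 0] with B hB
    rw [Real.rpow_natCast]
    congr 1
    unfold SPa
    have hoff : ∀ P : Projectivization K (Fin m → K), (∀ l, lfK (kv (L' l)) P.rep ≠ 0) ↔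
        ∀ l, lfK (L l) P.rep ≠ 0 := by
      intro P
      refine forall_congr' fun l => ?_
      rw [hk, lfK_smul_left]
      exact ⟨fun h h2 => h (by rw [h2, mul_zero]), fun h h2 =>
        h ((mul_eq_zero.1 h2).resolve_left (ht l))⟩
    have h1 : (∑' P : Om L, χ (rho L P / B) * f (E P)) =
        ∑' P : Projectivization K (Fin m → K),
          Set.indicator {P : Projectivization K (Fin m → K) | ∀ l, lfK (L l) P.rep ≠ 0}
            (fun P => χ (Height.mulHeight P.rep ^ ((finrank ℚ K : ℝ)⁻¹) / B) *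
              f (a * Ef P.rep + c)) P := by
      rw [← _root_.tsum_subtype]
      refine tsum_congr fun P => ?_
      rw [hE P]
      rfl
    rw [h1]
    refine tsum_congr fun P => ?_
    by_cases h2 : ∀ l, lfK (L l) P.rep ≠ 0
    · rw [if_pos ((hoff P).2 h2), Set.indicator_of_mem (by exact h2)]
      congr 1
      simp only [hχ']
      congr 1
      rw [max_eq_left (div_nonneg (Height.mulHeight_pos _).le (by positivity)),
        Real.div_rpow (Height.mulHeight_pos _).le (by positivity), hpow B hB.le]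
    · rw [if_neg fun h => h2 ((hoff P).1 h), Set.indicator_of_notMem (by exact h2)]
  have hlim : ∀ f : ℝ → ℝ, Continuous f → HasCompactSupport f → (∀ x, 0 ≤ f x) →
      ∃ ℓ : ℝ, Tendsto (fun B : ℝ => SS (rho L) E f B / B ^ ((m * finrank ℚ K : ℕ) : ℝ)) atTop
        (𝓝 ℓ) := by
    intro f hf hcs hf0
    obtain ⟨M, hM⟩ : ∃ M : ℝ, ∀ x, |f x| ≤ M := by
      obtain ⟨M, hM⟩ := hcs.exists_bound_of_continuous hf
      exact ⟨M, fun x => by rw [← Real.norm_eq_abs]; exact hM x⟩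
    obtain ⟨b, hb⟩ : ∃ b : ℝ, ∀ x, b ≤ x → f x = 0 := by
      obtain ⟨M', hM'⟩ := hcs.isCompact.isBounded.exists_norm_le
      refine ⟨M' + 1, fun x hx => ?_⟩
      by_contra h
      have h1 := hM' x (subset_tsupport f h)
      rw [Real.norm_eq_abs] at h1
      linarith [le_abs_self x]
    have hM0 : 0 ≤ M := (abs_nonneg _).trans (hM 0)
    exact cutoff (rho L) (fun P => f (E P)) hDpos hC.le (rho_pos L) (fun P => hf0 _) hM0
      (fun P => (le_abs_self _).trans (hM _)) hT.fin hC' (hsm f hf ⟨M, hM⟩ ⟨b, hb⟩)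
  obtain ⟨μ, hμc, hμ⟩ := exists_measure hT.fin hlim
  obtain ⟨hμf, hμb⟩ := extend hT hμ
  exact ⟨μ, hμf, hμb⟩

end

end Pool.Agent.L5helper9.Arr
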