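import Pool.Agent.L5helper9.Arr1

/-!
# Primitive vectors with general local data are approximable by congruence conditions
-/

set_option autoImplicit false
set_option linter.unusedSectionVars false

namespace Pool.Agent.L5helper9.Arr

open NumberField NumberField.InfinitePlace IsDedekindDomain Module Finset Filter Topology
  Pool.Agent.N852 Pool.Agent.H691R3 Pool.Agent.TH876.Loc Pool.Agent.N906.EQ

section

variable {K : Type} [Field K] [NumberField K] {m q : ℕ}

/-- the vectors at which two independent linear forms have nonzero values in an ideal -/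
theorem ud_pair (L M : Fin m → 𝓞 K) {i₀ i₁ : Fin m} (hne : i₀ ≠ i₁)
    (hdet : L i₀ * M i₁ - L i₁ * M i₀ ≠ 0) : ∃ C : ℝ, 0 < C ∧ ∀ I : Ideal (𝓞 K), I ≠ ⊥ →
    UD (fun z : Fin m × Jx K → ℤ => (lf L (vec z) ∈ I ∧ lf L (vec z) ≠ 0) ∧
      (lf M (vec z) ∈ I ∧ lf M (vec z) ≠ 0)) (C / (Ideal.absNorm I : ℝ) ^ 2) := by
  classical
  obtain ⟨C1, hC1, h1⟩ := lf_norm_le L
  obtain ⟨C2, hC2, h2⟩ := lf_norm_le M
  obtain ⟨C, hC, h⟩ := norm_ge K 1
  set d := finrank ℚ K with hd
  have hd0 : 0 < d := finrank_pos (R := ℚ) (M := K)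
  set D : ℝ := C1 + C2 + 1 with hD
  have hD0 : 0 < D := by positivity
  refine ⟨(4 * D) ^ (m * d) * C ^ d * C ^ d, by positivity, fun I hI Y hY S hS => ?_⟩
  have hN0 : (0 : ℝ) < Ideal.absNorm I := by
    exact_mod_cast Nat.pos_of_ne_zero (by rwa [Ne, Ideal.absNorm_eq_zero_iff])
  rcases S.eq_empty_or_nonempty with rfl | ⟨z₀, hz₀⟩
  · rw [card_empty, Nat.cast_zero]
    positivity
  set ρ : ℝ := (Ideal.absNorm I : ℝ) ^ (1 / (d : ℝ)) / C with hρ
  have hρ0 : 0 < ρ := by positivity
  have hρd : (C * ρ) ^ d = Ideal.absNorm I := by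
    rw [hρ, mul_div_cancel₀ _ hC.ne', ← Real.rpow_natCast, ← Real.rpow_mul hN0.le,
      one_div_mul_cancel (by exact_mod_cast hd0.ne'), Real.rpow_one]
  have hbig : ∀ y : Fin 1 × Jx K → ℤ, vec y 0 ≠ 0 → vec y 0 ∈ I → ρ ≤ ‖ic y‖ := by
    intro y hy hyI
    have h1 := h I y 0 hyI hy
    rw [← hρd] at h1
    have h2 := (pow_le_pow_iff_left₀ (by positivity) (by positivity) hd0.ne').1 h1
    exact le_of_mul_le_mul_left h2 hC
  -- the coordinates of the values
  have hval : ∀ (N : Fin m → 𝓞 K) (z : Fin m × Jx K → ℤ), ∃ y : Fin 1 × Jx K → ℤ,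
      vec y 0 = lf N (vec z) := by
    intro N z
    obtain ⟨y, hy⟩ := vec_surj (m := 1) (fun _ => lf N (vec z))
    exact ⟨y, congrFun hy 0⟩
  choose yv hyv using hval
  have hval_sub : ∀ N z z', yv N z - yv N z' = yv N (z - z') := by
    intro N z z'
    apply vec_inj
    funext i
    have hi : i = 0 := Subsingleton.elim _ _
    rw [hi, vec_sub, Pi.sub_apply, hyv, hyv, hyv, vec_sub, lf_sub]
  set T : (Fin m × Jx K → ℤ) → (Fin m × Jx K → ℤ) := fun z p =>
    if p.1 = i₀ then yv L z (0, p.2) else if p.1 = i₁ then yv M z (0, p.2) else z p with hT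
  have hTinj : Function.Injective T := by
    intro z z' hzz
    have h2 : ∀ p : Fin m × Jx K, p.1 ≠ i₀ → p.1 ≠ i₁ → z p = z' p := by
      intro p hp hp'
      have := congrFun hzz p
      simpa only [hT, if_neg hp, if_neg hp'] using this
    have h3 : yv L z = yv L z' := by
      funext ⟨i, j⟩
      have hi : i = 0 := Subsingleton.elim _ _
      have := congrFun hzz (i₀, j)
      simp only [hT, if_true] at this
      rw [hi]
      exact this
    have h3' : yv M z = yv M z' := by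
      funext ⟨i, j⟩
      have hi : i = 0 := Subsingleton.elim _ _
      have := congrFun hzz (i₁, j)
      simp only [hT, if_neg hne.symm, if_true] at this
      rw [hi]
      exact this
    have h4 : lf L (vec z - vec z') = 0 := by rw [lf_sub, ← hyv, ← hyv, h3, sub_self]
    have h4' : lf M (vec z - vec z') = 0 := by rw [lf_sub, ← hyv, ← hyv, h3', sub_self]
    have h5 : ∀ i, i ≠ i₀ → i ≠ i₁ → (vec z - vec z') i = 0 := by
      intro i hi hi'
      rw [Pi.sub_apply, sub_eq_zero]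
      unfold vec
      exact sum_congr rfl fun j _ => by rw [h2 (i, j) hi hi']
    have h6 : ∀ N : Fin m → 𝓞 K, lf N (vec z - vec z') =
        N i₀ * (vec z - vec z') i₀ + N i₁ * (vec z - vec z') i₁ := by
      intro N
      unfold lf
      refine Fintype.sum_eq_add i₀ i₁ hne fun i hi => ?_
      rw [h5 i hi.1 hi.2, mul_zero]
    rw [h6] at h4 h4'
    have h7 : (vec z - vec z') i₀ = 0 := by
      have h8 : (L i₀ * M i₁ - L i₁ * M i₀) * (vec z - vec z') i₀ = 0 := by
        linear_combination M i₁ * h4 - L i₁ * h4'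
      exact (mul_eq_zero.1 h8).resolve_left hdet
    have h7' : (vec z - vec z') i₁ = 0 := by
      have h8 : (L i₀ * M i₁ - L i₁ * M i₀) * (vec z - vec z') i₁ = 0 := by
        linear_combination L i₀ * h4' - M i₀ * h4
      exact (mul_eq_zero.1 h8).resolve_left hdet
    apply vec_inj
    rw [← sub_eq_zero]
    funext i
    by_cases hi : i = i₀
    · rw [hi]
      exact h7
    · by_cases hi' : i = i₁
      · rw [hi']
        exact h7'
      · exact h5 i hi hi'
  have hTnorm : ∀ z ∈ S, ‖ic (T z)‖ ≤ D * Y := by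
    intro z hz
    have h3 := (hS z hz).2.1
    have hY0 : 0 ≤ Y := by linarith
    have hn := norm_nonneg (ic z)
    rw [pi_norm_le_iff_of_nonneg (by positivity)]
    intro p
    by_cases hp : p.1 = i₀
    · have h4 : ic (T z) p = ic (yv L z) (0, p.2) := by
        simp only [ic, hT, if_pos hp]
      rw [h4]
      refine (norm_le_pi_norm (ic (yv L z)) (0, p.2)).trans ((h1 z (yv L z) (hyv L z)).trans ?_)
      rw [hD]
      nlinarith
    · by_cases hp' : p.1 = i₁
      · have h4 : ic (T z) p = ic (yv M z) (0, p.2) := by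
          simp only [ic, hT, if_neg hp, if_pos hp']
        rw [h4]
        refine (norm_le_pi_norm (ic (yv M z)) (0, p.2)).trans ((h2 z (yv M z) (hyv M z)).trans ?_)
        rw [hD]
        nlinarith
      · have h4 : ic (T z) p = ic z p := by
          simp only [ic, hT, if_neg hp, if_neg hp']
        rw [h4]
        refine (norm_le_pi_norm (ic z) p).trans ?_
        rw [hD]
        nlinarith
  have hY0 : 0 ≤ Y := by linarith
  have hρY : ρ ≤ D * Y := by
    have h3 := hbig (yv L z₀) (by rw [hyv]; exact (hS z₀ hz₀).2.2.1.2)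
      (by rw [hyv]; exact (hS z₀ hz₀).2.2.1.1)
    refine h3.trans ((h1 z₀ _ (hyv L z₀)).trans ?_)
    have h4 := (hS z₀ hz₀).2.1
    have := norm_nonneg (ic z₀)
    rw [hD]
    nlinarith
  have hsame : ∀ (N : Fin m → 𝓞 K) (i : Fin m) (z z' : Fin m × Jx K → ℤ), lf N (vec z) ∈ I →
      lf N (vec z') ∈ I → (∀ j, |(yv N z (0, j) : ℝ) - yv N z' (0, j)| < ρ) → yv N z = yv N z' := by
    intro N i z z' hz hz' hlt
    by_contra hne
    have h4 : vec (yv N (z - z')) 0 ≠ 0 := by
      intro h5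
      apply hne
      rw [← sub_eq_zero, hval_sub]
      apply vec_inj
      funext i
      have hi : i = 0 := Subsingleton.elim _ _
      rw [hi, h5, vec_zero]
      rfl
    have h5 := hbig (yv N (z - z')) h4 (by
      rw [hyv, vec_sub, lf_sub]
      exact I.sub_mem hz hz')
    have h6 : ‖ic (yv N (z - z'))‖ < ρ := by
      rw [pi_norm_lt_iff hρ0]
      rintro ⟨i, j⟩
      have hi : i = 0 := Subsingleton.elim _ _
      rw [← hval_sub, ic_sub, hi]
      exact hlt j
    linarith
  have h3 := pack (S.image T) (fun p => if p.1 = i₀ then ρ else if p.1 = i₁ then ρ else 1)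
    (fun p => by split_ifs; exacts [hρ0, hρ0, one_pos]) (Y := D * Y) (by positivity)
    (fun y hy => by
      obtain ⟨z, hz, rfl⟩ := mem_image.1 hy
      exact hTnorm z hz)
    (by
      intro y hy y' hy' hlt
      obtain ⟨z, hz, rfl⟩ := mem_image.1 hy
      obtain ⟨z', hz', rfl⟩ := mem_image.1 hy'
      have h3 : yv L z = yv L z' := by
        refine hsame L i₀ z z' (hS z hz).2.2.1.1 (hS z' hz').2.2.1.1 fun j => ?_
        have h7 := hlt (i₀, j)
        simp only [hT, if_true] at h7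
        exact h7
      have h3' : yv M z = yv M z' := by
        refine hsame M i₁ z z' (hS z hz).2.2.2.1 (hS z' hz').2.2.2.1 fun j => ?_
        have h7 := hlt (i₁, j)
        simp only [hT, if_neg hne.symm, if_true] at h7
        exact h7
      funext p
      by_cases hp : p.1 = i₀
      · simp only [hT, if_pos hp, h3]
      · by_cases hp' : p.1 = i₁
        · simp only [hT, if_neg hp, if_pos hp', h3']
        · have h7 := hlt p
          simp only [hT, if_neg hp, if_neg hp'] at h7 ⊢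
          have h8 : |((z p - z' p : ℤ) : ℝ)| < 1 := by
            push_cast
            exact h7
          rw [← Int.cast_abs] at h8
          have h9 : |z p - z' p| < 1 := by exact_mod_cast h8
          have h10 := Int.abs_lt_one_iff.1 h9
          omega)
  rw [card_image_of_injective S hTinj] at h3
  refine h3.trans ?_
  have hDY : 1 ≤ D * Y := by
    rw [hD]
    nlinarith
  have h4 : ∀ p : Fin m × Jx K, 2 * (D * Y) / (if p.1 = i₀ then ρ else if p.1 = i₁ then ρ else 1) + 2 ≤
      (4 * (D * Y)) * ((if p.1 = i₀ then ρ⁻¹ else 1) * (if p.1 = i₁ then ρ⁻¹ else 1)) := by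
    intro p
    have h5 : 2 ≤ 2 * (D * Y) / ρ := by
      rw [le_div_iff₀ hρ0]
      linarith
    have h6 : 4 * (D * Y) * ρ⁻¹ = 2 * (D * Y) / ρ + 2 * (D * Y) / ρ := by
      rw [← div_eq_mul_inv]
      ring
    by_cases hp : p.1 = i₀
    · have hp' : p.1 ≠ i₁ := fun h => hne (hp.symm.trans h)
      rw [if_pos hp, if_pos hp, if_neg hp', mul_one, h6]
      linarith
    · by_cases hp' : p.1 = i₁
      · rw [if_neg hp, if_pos hp', if_neg hp, if_pos hp', one_mul, h6]
        linarith
      · rw [if_neg hp, if_neg hp', if_neg hp, if_neg hp', mul_one, mul_one, div_one]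
        linarith
  have h5 : ∀ i : Fin m, ∏ p : Fin m × Jx K, (if p.1 = i then ρ⁻¹ else 1) = ρ⁻¹ ^ d := by
    intro i
    rw [Fintype.prod_prod_type]
    have h6 : ∀ k : Fin m, ∏ _j : Jx K, (if k = i then ρ⁻¹ else 1) = if k = i then ρ⁻¹ ^ d else 1 := by
      intro k
      rw [prod_const, card_univ, card_Jx, ← hd]
      split_ifs
      · rfl
      · rw [one_pow]
    rw [prod_congr rfl fun k _ => h6 k, prod_ite_eq' univ i, if_pos (mem_univ i)]
  calc ∏ p : Fin m × Jx K, (2 * (D * Y) / (if p.1 = i₀ then ρ else if p.1 = i₁ then ρ else 1) + 2)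
      ≤ ∏ p : Fin m × Jx K, (4 * (D * Y)) *
          ((if p.1 = i₀ then ρ⁻¹ else 1) * (if p.1 = i₁ then ρ⁻¹ else 1)) :=
        prod_le_prod (fun p _ => by
          split_ifs <;> positivity) fun p _ => h4 p
    _ = (4 * (D * Y)) ^ (m * d) * (ρ⁻¹ ^ d * ρ⁻¹ ^ d) := by
        generalize 4 * (D * Y) = W
        rw [prod_mul_distrib, prod_mul_distrib, h5, h5, prod_const, card_univ, card_idx, ← hd]
    _ = (4 * D) ^ (m * d) * C ^ d * C ^ d / (Ideal.absNorm I : ℝ) ^ 2 *
          Y ^ (Fintype.card (Fin m × Jx K)) := by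
        have e1 : (4 * (D * Y)) ^ (m * d) = (4 * D) ^ (m * d) * Y ^ (m * d) := by
          rw [← mul_pow]
          congr 1
          ring
        rw [card_idx, ← hd, ← hρd, mul_pow C ρ, e1, inv_pow]
        field_simp

lemma UD.or {ι : Type} [Fintype ι] {P Q : (ι → ℤ) → Prop} {ε ε' : ℝ} (h : UD P ε) (h' : UD Q ε') :
    UD (fun z => P z ∨ Q z) (ε + ε') := by
  classical
  intro Y hY S hS
  have h1 := h Y hY
  have h2 := h' Y hY
  have h3 : S ⊆ (S.filter P) ∪ (S.filter Q) := by
    intro z hz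
    rcases (hS z hz).2.2 with h | h
    · exact mem_union_left _ (mem_filter.2 ⟨hz, h⟩)
    · exact mem_union_right _ (mem_filter.2 ⟨hz, h⟩)
  have h4 : (S.card : ℝ) ≤ (S.filter P).card + (S.filter Q).card := by
    exact_mod_cast (card_le_card h3).trans (card_union_le _ _)
  have h5 := h1 (S.filter P) fun z hz => by
    obtain ⟨a, b⟩ := mem_filter.1 hz
    exact ⟨(hS z a).1, (hS z a).2.1, b⟩
  have h6 := h2 (S.filter Q) fun z hz => by
    obtain ⟨a, b⟩ := mem_filter.1 hz
    exact ⟨(hS z a).1, (hS z a).2.1, b⟩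
  rw [add_mul]
  linarith

/-- the local function at a finite place -/
noncomputable def locG (G : Pr K → (Fin q → ℝ) → ℝ) (L : Fin q → Fin m → 𝓞 K) (v : Pr K)
    (z : Fin m × Jx K → ℤ) : ℝ :=
  G v fun l => lamF v (kv (L l)) (kv (vec z))

/-- **Primitive vectors with general local data.** -/
theorem approx_G (hm : 2 ≤ m) (c : ClassGroup (𝓞 K)) (L : Fin q → Fin m → 𝓞 K)
    (hL : ∀ l, L l ≠ 0) (hLL : ∀ l l', l ≠ l' → ∃ i₀ i₁, i₀ ≠ i₁ ∧
      L l i₀ * L l' i₁ - L l i₁ * L l' i₀ ≠ 0) (G : Pr K → (Fin q → ℝ) → ℝ) (A : Finset (Pr K))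
    (hG0 : ∀ v, v ∉ A → G v 0 = 0)
    (hG1 : ∀ v, v ∉ A → ∀ l, G v (Pi.single l (Real.log (Nv v))) = 0) :
    Approx (Vo c L) fun z => ∑ᶠ v, locG G L v z := by
  classical
  by_cases hne : (Vc c : Set (Fin m × Jx K → ℤ)).Nonempty
  swap
  · -- no primitive vectors
    rw [Set.not_nonempty_iff_eq_empty] at hne
    have hVo : Vo c L = (∅ : Set (Fin m × Jx K → ℤ)) := by
      rw [Set.eq_empty_iff_forall_notMem]
      intro z hz
      have h1 := hz.1
      rw [hne] at h1
      exact h1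
    rw [hVo]
    intro ε hε
    refine ⟨1, one_ne_zero, ∅, fun _ => 0, fun z w _ => ⟨Iff.rfl, rfl⟩, ?_⟩
    filter_upwards [eventually_ge_atTop 1] with Y hY S hS
    have : S = ∅ := by
      rw [eq_empty_iff_forall_notMem]
      intro z hz
      exact (hS z hz).2.2 ⟨Iff.rfl, fun h => absurd h (Set.notMem_empty z)⟩
    rw [this, card_empty, Nat.cast_zero]
    positivity
  obtain ⟨z₀, hz₀⟩ := hne
  set κ : Pr K → ℝ := fun v => fN v (kv (vec z₀)) with hκ
  have hz₀ne : kv (vec z₀) ≠ 0 := kv_ne (vec_ne_zero.2 (ne_zero_of_mem hz₀))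
  have hκpos : ∀ v, 0 < κ v := fun v => fN_pos v hz₀ne
  have hκle : ∀ v, κ v ≤ 1 := fun v => fN_le zero_le_one fun i => fv_le_one v _
  have hκeq : ∀ v (z : Fin m × Jx K → ℤ), z ∈ Vc c → fN v (kv (vec z)) = κ v :=
    fun v z hz => fN_eq_of_mem v hz hz₀
  have hLne : ∀ l, kv (L l) ≠ 0 := fun l => kv_ne (hL l)
  have hLle : ∀ v l, fN v (kv (L l)) ≤ 1 := fun v l => fN_le zero_le_one fun i => fv_le_one v _
  have hLpos : ∀ v l, 0 < fN v (kv (L l)) := fun v l => fN_pos v (hLne l)
  -- constants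
  obtain ⟨CQ, hCQ, hQ⟩ := ud_all K m
  choose CB hCB hB using fun l => ud_form (L l) (hL l)
  have hpair : ∀ p : Fin q × Fin q, ∃ C : ℝ, 0 < C ∧ ∀ I : Ideal (𝓞 K), I ≠ ⊥ →
      UD (fun z : Fin m × Jx K → ℤ => p.1 ≠ p.2 ∧
        ((lf (L p.1) (vec z) ∈ I ∧ lf (L p.1) (vec z) ≠ 0) ∧
        (lf (L p.2) (vec z) ∈ I ∧ lf (L p.2) (vec z) ≠ 0))) (C / (Ideal.absNorm I : ℝ) ^ 2) := by
    intro p
    by_cases hp : p.1 = p.2
    · refine ⟨1, one_pos, fun I hI Y hY S hS => ?_⟩
      rcases S.eq_empty_or_nonempty with h | ⟨z, hz⟩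
      · rw [h, card_empty, Nat.cast_zero]
        positivity
      · exact absurd hp (hS z hz).2.2.1
    · obtain ⟨i₀, i₁, h1, h2⟩ := hLL p.1 p.2 hp
      obtain ⟨C, hC, h3⟩ := ud_pair (L p.1) (L p.2) h1 h2
      exact ⟨C, hC, fun I hI => (h3 I hI).mono fun z _ hz => hz.2⟩
  choose CP hCP hPr using hpair
  have hsum2 : Summable fun v : Pr K => ((Ideal.absNorm v.asIdeal : ℝ) ^ 2)⁻¹ := by
    have h1 := nm_summable (K := K) (x := 2) (by norm_num)
    refine h1.congr fun v => ?_
    rw [Real.rpow_neg (Nat.cast_nonneg _), ← Real.rpow_natCast]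
    push_cast
    rfl
  have hN1 : ∀ v : Pr K, (1 : ℝ) ≤ Ideal.absNorm v.asIdeal := by
    intro v
    have := two_le_nm v
    have h2 : (2 : ℝ) ≤ nm v := by exact_mod_cast this
    have h3 : (nm v : ℝ) = Ideal.absNorm v.asIdeal := rfl
    linarith
  have hA₀ : {v : Pr K | κ v ≠ 1 ∨ ∃ l, fN v (kv (L l)) ≠ 1}.Finite := by
    have h1 : {v : Pr K | κ v ≠ 1 ∨ ∃ l, fN v (kv (L l)) ≠ 1} =
        {v : Pr K | κ v ≠ 1} ∪ ⋃ l, {v : Pr K | fN v (kv (L l)) ≠ 1} := by
      ext v
      simp
    rw [h1]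
    exact (fN_finite hz₀ne).union (Set.finite_iUnion fun l => fN_finite (hLne l))
  -- the union over the forms
  have hUDor : ∀ (I : Ideal (𝓞 K)), I ≠ ⊥ → UD (fun z : Fin m × Jx K → ℤ =>
      ∃ l, lf (L l) (vec z) ∈ I ∧ lf (L l) (vec z) ≠ 0) ((∑ l, CB l) / Ideal.absNorm I) := by
    intro I hI
    have h1 := UD.exists (P := fun (l : Fin q) (z : Fin m × Jx K → ℤ) => lf (L l) (vec z) ∈ I ∧
      lf (L l) (vec z) ≠ 0) (ε := fun l => CB l / Ideal.absNorm I) (hasSum_fintype _).summable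
      (fun l => div_nonneg (hCB l).le (Nat.cast_nonneg _)) (fun l => hB l I hI)
    rw [tsum_fintype, ← sum_div] at h1
    exact h1
  have hUDp : ∀ (I : Ideal (𝓞 K)), I ≠ ⊥ → UD (fun z : Fin m × Jx K → ℤ =>
      ∃ p : Fin q × Fin q, p.1 ≠ p.2 ∧
        ((lf (L p.1) (vec z) ∈ I ∧ lf (L p.1) (vec z) ≠ 0) ∧
        (lf (L p.2) (vec z) ∈ I ∧ lf (L p.2) (vec z) ≠ 0)))
        ((∑ p, CP p) / (Ideal.absNorm I : ℝ) ^ 2) := by
    intro I hI
    have h1 := UD.exists (ε := fun p => CP p / (Ideal.absNorm I : ℝ) ^ 2)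
      (hasSum_fintype _).summable (fun p => div_nonneg (hCP p).le (by positivity))
      (fun p => hPr p I hI)
    rw [tsum_fintype, ← sum_div] at h1
    exact h1
  refine approx_local (V := Vc c) (VF c) (nVF c) (nVF_ne c) (VF_per c) (Vc_sub c)
    (Q := fun v z => ∀ i, vec z i ∈ v.asIdeal)
    (εQ := fun v => CQ / (Ideal.absNorm v.asIdeal : ℝ) ^ m) ?_ ?_ ?_ (fun F z => VF_diff c F z)
    (V₁ := Vo c L) (fun z hz => hz.1) ?_
    (loc := locG G L) (bad := fun v z => (∃ l, lf (L l) (vec z) ∈ v.asIdeal ^ 2 ∧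
      lf (L l) (vec z) ≠ 0) ∨ ∃ p : Fin q × Fin q, p.1 ≠ p.2 ∧
        ((lf (L p.1) (vec z) ∈ v.asIdeal ∧ lf (L p.1) (vec z) ≠ 0) ∧
        (lf (L p.2) (vec z) ∈ v.asIdeal ∧ lf (L p.2) (vec z) ≠ 0)))
    (εB := fun v => (∑ l, CB l) / (Ideal.absNorm v.asIdeal : ℝ) ^ 2 +
      (∑ p, CP p) / (Ideal.absNorm v.asIdeal : ℝ) ^ 2)
    ?_ ?_ ?_ (A ∪ hA₀.toFinset) ?_ ?_ (fun z _ => rfl)
  · -- summability
    refine Summable.of_nonneg_of_le (fun v => by positivity) (fun v => ?_) (hsum2.mul_left CQ)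
    rw [← div_eq_mul_inv]
    refine div_le_div_of_nonneg_left hCQ.le (by have := hN1 v; positivity) ?_
    exact pow_le_pow_right₀ (hN1 v) hm
  · intro v
    positivity
  · intro v
    exact hQ v.asIdeal v.ne_bot
  · -- zeros
    intro δ hδ
    have h1 : ∀ G : Finset (Fin q), ED (fun z : Fin m × Jx K → ℤ => ∃ l ∈ G, lf (L l) (vec z) = 0)
        (G.card * (δ / (q + 1))) := by
      intro G
      induction G using Finset.induction_on with
      | empty =>
        rw [card_empty, Nat.cast_zero, zero_mul]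
        refine Eventually.of_forall fun Y S hS => ?_
        rw [zero_mul]
        rcases S.eq_empty_or_nonempty with h | ⟨z, hz⟩
        · rw [h, card_empty, Nat.cast_zero]
        · obtain ⟨a, ha, -⟩ := (hS z hz).2.2
          exact absurd ha (notMem_empty a)
      | insert a G ha ih =>
        rw [card_insert_of_notMem ha]
        refine ((ed_zero (L a) (hL a) (δ / (q + 1)) (by positivity)).or ih).mono ?_ |>.mono_eps ?_
        · intro z _ hz
          obtain ⟨b, hb, h⟩ := hz
          rcases mem_insert.1 hb with rfl | hb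
          · exact Or.inl h
          · exact Or.inr ⟨b, hb, h⟩
        · push_cast
          linarith
    refine (h1 univ).mono ?_ |>.mono_eps ?_
    · rintro z _ ⟨h2, h3⟩
      by_contra h4
      push Not at h4
      exact h3 ⟨h2, fun l => h4 l (mem_univ l)⟩
    · rw [card_univ, Fintype.card_fin, mul_div_assoc', div_le_iff₀ (by positivity)]
      nlinarith
  · have h1 := (hsum2.mul_left (∑ l, CB l)).add (hsum2.mul_left (∑ p, CP p))
    exact h1.congr fun v => by rw [div_eq_mul_inv, div_eq_mul_inv]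
  · intro v
    exact add_nonneg (div_nonneg (sum_nonneg fun l _ => (hCB l).le) (by positivity))
      (div_nonneg (sum_nonneg fun l _ => (hCP l).le) (by positivity))
  · intro v
    have h1 := hUDor (v.asIdeal ^ 2) (pow_ne_zero 2 v.ne_bot)
    rw [map_pow, Nat.cast_pow] at h1
    exact UD.or h1 (hUDp v.asIdeal v.ne_bot)
  · -- large places
    intro v hv z hz hloc
    rw [mem_union, not_or, Set.Finite.mem_toFinset] at hv
    obtain ⟨hv1, hv2⟩ := hv
    simp only [Set.mem_ofPred_eq, not_or, not_exists, not_not] at hv2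
    choose n hn1 hn2 using fun l => lamF_discrete v (exists_zero (hz.2 l))
    by_contra hcon
    rw [not_or] at hcon
    obtain ⟨hc1, hc2⟩ := hcon
    push Not at hc1 hc2
    have h3 : ∀ l, fv v (lf (L l) (vec z) : K) = (Nv v)⁻¹ ^ n l := by
      intro l
      have h2 := hn2 l
      rw [hκeq v z hz.1, hv2.1, hv2.2 l, one_mul, lfK_kv] at h2
      have hp : (Nv v) ^ n l ≠ 0 := pow_ne_zero _ (Nv_pos v).ne'
      rw [inv_pow, ← one_mul ((Nv v ^ n l)⁻¹), ← div_eq_mul_inv, eq_div_iff hp, mul_comm]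
      exact h2.symm
    have hmem : ∀ l k, k ≤ n l → lf (L l) (vec z) ∈ v.asIdeal ^ k := by
      intro l k hk
      apply mem_pow_of_fv_le
      rw [h3 l]
      exact pow_le_pow_of_le_one (inv_nonneg.2 (Nv_pos v).le) (inv_le_one_of_one_le₀ (Nv_gt v).le) hk
    have hle1 : ∀ l, n l ≤ 1 := by
      intro l
      by_contra h4
      exact hz.2 l (hc1 l (hmem l 2 (by omega)))
    have hone : ∀ l l', l ≠ l' → n l = 1 → n l' = 0 := by
      intro l l' hll h4
      by_contra h5
      have h6 := hmem l 1 (by omega)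
      have h7 := hmem l' 1 (by omega)
      rw [pow_one] at h6 h7
      exact hz.2 l' (hc2 (l, l') hll ⟨h6, hz.2 l⟩ h7)
    apply hloc
    unfold locG
    by_cases h4 : ∃ l, n l = 1
    · obtain ⟨l, hl⟩ := h4
      have h5 : (fun l => lamF v (kv (L l)) (kv (vec z))) = Pi.single l (Real.log (Nv v)) := by
        funext l'
        rw [hn1 l']
        by_cases h6 : l' = l
        · rw [h6, hl, Pi.single_eq_same, Nat.cast_one, one_mul]
        · rw [Pi.single_eq_of_ne h6, hone l l' (Ne.symm h6) hl, Nat.cast_zero, zero_mul]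
      rw [h5]
      exact hG1 v hv1 l
    · push Not at h4
      have h5 : (fun l => lamF v (kv (L l)) (kv (vec z))) = 0 := by
        funext l'
        have h6 := hle1 l'
        have h7 := h4 l'
        have h8 : n l' = 0 := by omega
        rw [hn1 l', h8, Nat.cast_zero, zero_mul]
        rfl
      rw [h5]
      exact hG0 v hv1
  · -- a fixed place
    intro v δ hδ
    obtain ⟨k, hk⟩ : ∃ k : ℕ, (∑ l, CB l) / (Ideal.absNorm v.asIdeal : ℝ) ^ k ≤ δ := by
      have h1 : Tendsto (fun k : ℕ => (∑ l, CB l) * ((Ideal.absNorm v.asIdeal : ℝ)⁻¹) ^ k) atTop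
          (𝓝 ((∑ l, CB l) * 0)) := by
        refine Tendsto.const_mul _ (tendsto_pow_atTop_nhds_zero_of_lt_one (by positivity) ?_)
        exact inv_lt_one_of_one_lt₀ (Nv_gt v)
      rw [mul_zero] at h1
      obtain ⟨k, hk⟩ := (h1.eventually (ge_mem_nhds hδ)).exists
      refine ⟨k, ?_⟩
      rw [div_eq_mul_inv, ← inv_pow]
      exact hk
    obtain ⟨j, hj⟩ : ∃ j : ℕ, (Nv v)⁻¹ ^ j ≤ κ v := by
      have h1 : Tendsto (fun j : ℕ => (Nv v)⁻¹ ^ j) atTop (𝓝 0) :=
        tendsto_pow_atTop_nhds_zero_of_lt_one (inv_nonneg.2 (Nv_pos v).le)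
          (inv_lt_one_of_one_lt₀ (Nv_gt v))
      exact (h1.eventually (ge_mem_nhds (hκpos v))).exists
    set n : ℕ := (Ideal.absNorm v.asIdeal) ^ (j + k) with hn
    have hnv : fv v ((n : ℕ) : K) ≤ κ v * (Nv v)⁻¹ ^ k := by
      have h1 : fv v (((Ideal.absNorm v.asIdeal : ℕ) : 𝓞 K) : K) ≤ (Nv v)⁻¹ :=
        fv_le_inv v (Ideal.absNorm_mem _)
      have h2 : (((Ideal.absNorm v.asIdeal : ℕ) : 𝓞 K) : K) =
          ((Ideal.absNorm v.asIdeal : ℕ) : K) := map_natCast (algebraMap (𝓞 K) K) _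
      rw [h2] at h1
      rw [hn, Nat.cast_pow, map_pow]
      calc fv v ((Ideal.absNorm v.asIdeal : ℕ) : K) ^ (j + k) ≤ (Nv v)⁻¹ ^ (j + k) :=
            pow_le_pow_left₀ ((fv v).nonneg _) h1 _
        _ = (Nv v)⁻¹ ^ j * (Nv v)⁻¹ ^ k := pow_add _ _ _
        _ ≤ _ := mul_le_mul_of_nonneg_right hj (pow_nonneg (inv_nonneg.2 (Nv_pos v).le) _)
    refine ⟨n, fun z => G v fun l => Real.log (κ v * fN v (kv (L l)) /
      max (fv v (lfK (kv (L l)) (kv (vec z)))) (κ v * fN v (kv (L l)) * (Nv v)⁻¹ ^ k)),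
      pow_ne_zero _ (nm_ne_zero v), ?_, ?_⟩
    · rintro z w ⟨u, hu⟩
      show G v _ = G v _
      congr 1
      funext l
      rw [max_eq_of_close v (a := lfK (kv (L l)) (kv (vec z))) (b := lfK (kv (L l)) (kv (vec w)))]
      have h1 : lfK (kv (L l)) (kv (vec z)) - lfK (kv (L l)) (kv (vec w)) =
          ((n : ℕ) : K) * lfK (kv (L l)) (kv (vec u)) := by
        rw [lfK_kv, lfK_kv, lfK_kv]
        have h2 : lf (L l) (vec z) = lf (L l) (vec w) + (n : 𝓞 K) * lf (L l) (vec u) := by
          unfold lf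
          rw [mul_sum, ← sum_add_distrib]
          refine sum_congr rfl fun i _ => ?_
          rw [vec_per hu i]
          ring
        rw [h2]
        show algebraMap (𝓞 K) K _ - algebraMap (𝓞 K) K _ = _
        rw [map_add, map_mul, map_natCast]
        ring
      rw [h1, map_mul]
      have h3 : fv v (lfK (kv (L l)) (kv (vec u))) ≤ fN v (kv (L l)) := by
        refine (fv_lfK_le v _ _).trans ?_
        exact mul_le_of_le_one_right (fN_nonneg _ _) (fN_le zero_le_one fun i => fv_le_one v _)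
      calc fv v ((n : ℕ) : K) * fv v (lfK (kv (L l)) (kv (vec u)))
          ≤ (κ v * (Nv v)⁻¹ ^ k) * fN v (kv (L l)) :=
            mul_le_mul hnv h3 ((fv v).nonneg _) (mul_nonneg (hκpos v).le
              (pow_nonneg (inv_nonneg.2 (Nv_pos v).le) _))
        _ = _ := by ring
    · have h1 := (hUDor (v.asIdeal ^ k) (pow_ne_zero k v.ne_bot)).ed
      rw [map_pow, Nat.cast_pow] at h1
      refine (h1.mono ?_).mono_eps hk
      rintro z _ ⟨hz, hne⟩
      by_contra hcon
      push Not at hcon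
      apply hne
      unfold locG
      congr 1
      funext l
      have h2 : κ v * fN v (kv (L l)) * (Nv v)⁻¹ ^ k ≤ fv v (lfK (kv (L l)) (kv (vec z))) := by
        by_contra h3
        rw [not_le] at h3
        apply hz.2 l
        apply hcon l
        apply mem_pow_of_fv_le
        rw [← lfK_kv]
        refine h3.le.trans ?_
        refine mul_le_of_le_one_left (pow_nonneg (inv_nonneg.2 (Nv_pos v).le) _) ?_
        exact mul_le_one₀ (hκle v) (hLpos v l).le (hLle v l)
      rw [max_eq_left h2]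
      unfold lamF
      rw [hκeq v z hz.1]

end

end Pool.Agent.L5helper9.Arr
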