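import Pool.Agent.L5helper9.Arr2
import Pool.Agent.W232.VA.LB

/-!
# The defect of a hyperplane arrangement
-/

set_option autoImplicit false
set_option linter.unusedSectionVars false

namespace Pool.Agent.L5helper9.Arr

open NumberField NumberField.InfinitePlace IsDedekindDomain Module Finset Filter Topology
  Pool.Agent.N852 Pool.Agent.TH876.Loc Pool.Agent.N906.EQ
open Pool.Agent.H691R3 hiding lam
open Pool.Agent.W232.VA (lin lam wt wt_att le_wt hW N1 cz transfer exists_scale exists_T wt_zero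
  lam_fin_nonneg indep_smul indep_singleton)

section

variable {K : Type} [Field K] [NumberField K] {n r : ℕ}

lemma lfK_lin (a x : Fin (n + 1) → K) : lfK a x = lin a x := rfl

lemma kv_cz (x : Fin (n + 1) → 𝓞 K) : kv x = cz x := rfl

lemma lam_F (v : Pr K) (a x : Fin (n + 1) → K) : lam (fv v) a x = lamF v a x := by
  unfold lam lamF
  rw [mul_comm (⨆ j, fv v (a j))]
  unfold fN
  rw [norm_eq_iSup _ fun i => (fv v).nonneg _, norm_eq_iSup _ fun i => (fv v).nonneg _]
  rfl

lemma lam_I (w : InfinitePlace K) (a x : Fin (n + 1) → K) : lam w.1 a x = lamI w a x := by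
  unfold lam lamI
  rw [mul_comm (⨆ j, w.1 (a j))]
  unfold iN
  rw [norm_eq_iSup _ fun i => apply_nonneg w _, norm_eq_iSup _ fun i => apply_nonneg w _]
  rfl

/-- the defect -/
noncomputable def Ed (S : Finset (Pr K)) (a : Fin r → Fin (n + 1) → K) (x : Fin (n + 1) → K) : ℝ :=
  hW a x - N1 S a x

open Classical in
/-- the local function at a finite place -/
noncomputable def GA (S : Finset (Pr K)) (a : Fin r → Fin (n + 1) → K) (v : Pr K)
    (t : Fin r → ℝ) : ℝ :=
  (⨆ I : {I : Finset (Fin r) // LinearIndependent K (fun i : I => a i)}, ∑ i ∈ I.1, t i) -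
    if v ∉ S ∧ ∃ i, 0 < t i then Real.log (Nv v) else 0

lemma sup_le_sum (a : Fin r → Fin (n + 1) → K) (t : Fin r → ℝ) (I : Finset (Fin r))
    (hI : LinearIndependent K (fun i : I => a i)) : ∑ i ∈ I, t i ≤
      ⨆ I : {I : Finset (Fin r) // LinearIndependent K (fun i : I => a i)}, ∑ i ∈ I.1, t i :=
  le_ciSup (f := fun I : {I : Finset (Fin r) // LinearIndependent K (fun i : I => a i)} =>
    ∑ i ∈ I.1, t i) (Set.finite_range _).bddAbove ⟨I, hI⟩

lemma indep_empty (a : Fin r → Fin (n + 1) → K) :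
    LinearIndependent K (fun i : (∅ : Finset (Fin r)) => a i) := by
  have : IsEmpty {x // x ∈ (∅ : Finset (Fin r))} := ⟨fun x => absurd x.2 (notMem_empty _)⟩
  exact linearIndependent_empty_type

lemma GA_zero (S : Finset (Pr K)) (a : Fin r → Fin (n + 1) → K) (v : Pr K) : GA S a v 0 = 0 := by
  have : Nonempty {I : Finset (Fin r) // LinearIndependent K (fun i : I => a i)} :=
    ⟨⟨∅, indep_empty a⟩⟩
  unfold GA
  rw [if_neg (by simp)]
  simp

lemma GA_single (S : Finset (Pr K)) {a : Fin r → Fin (n + 1) → K} (ha : ∀ i, a i ≠ 0) {v : Pr K}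
    (hv : v ∉ S) (l : Fin r) : GA S a v (Pi.single l (Real.log (Nv v))) = 0 := by
  have : Nonempty {I : Finset (Fin r) // LinearIndependent K (fun i : I => a i)} :=
    ⟨⟨∅, indep_empty a⟩⟩
  have h0 : 0 < Real.log (Nv v) := Real.log_pos (by linarith [two_le_Nv v])
  unfold GA
  rw [if_pos ⟨hv, l, by rw [Pi.single_eq_same]; exact h0⟩, sub_eq_zero]
  apply le_antisymm
  · refine ciSup_le fun I => ?_
    by_cases hl : l ∈ I.1
    · rw [sum_eq_single_of_mem l hl fun i _ hi => Pi.single_eq_of_ne hi _, Pi.single_eq_same]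
    · rw [sum_eq_zero fun i hi => Pi.single_eq_of_ne (fun h => hl (by rw [← h]; exact hi)) _]
      exact h0.le
  · have h1 := sup_le_sum a (Pi.single l (Real.log (Nv v))) {l} (indep_singleton a (ha l))
    rwa [sum_singleton, Pi.single_eq_same] at h1

lemma finN1 (S : Finset (Pr K)) {a : Fin r → Fin (n + 1) → K} (ha : ∀ i, a i ≠ 0)
    {x : Fin (n + 1) → K} (hx : x ≠ 0) (hl : ∀ i, lin (a i) x ≠ 0) :
    Ed S a x = ∑ w : InfinitePlace K, (w.mult : ℝ) * wt w.1 a x +
      ∑ᶠ v : Pr K, GA S a v fun l => lamF v (a l) x := by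
  classical
  obtain ⟨T, hT⟩ := exists_T ha hx hl
  have h1 : ∑ᶠ v : Pr K, GA S a v (fun l => lamF v (a l) x) =
      ∑ᶠ v : Pr K, wt (fv v) a x - N1 S a x := by
    unfold N1
    rw [← finsum_sub_distrib]
    · refine finsum_congr fun v => ?_
      unfold GA wt
      simp only [lam_F]
    · refine T.finite_toSet.subset fun v hv => ?_
      by_contra h
      exact hv (wt_zero (hT v h))
    · refine T.finite_toSet.subset fun v hv => ?_
      by_contra h
      apply hv
      refine if_neg ?_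
      rintro ⟨-, i, hi⟩
      rw [hT v h i] at hi
      exact lt_irrefl _ hi
  rw [h1]
  unfold Ed hW
  ring

open Classical in
/-- the linearly independent subfamilies -/
noncomputable def FI (a : Fin r → Fin (n + 1) → K) : Finset (Finset (Fin r)) :=
  univ.filter fun I => LinearIndependent K (fun i : I => a i)

lemma mem_FI {a : Fin r → Fin (n + 1) → K} {I : Finset (Fin r)} :
    I ∈ FI a ↔ LinearIndependent K (fun i : I => a i) := by
  classical
  unfold FI
  rw [mem_filter]
  exact ⟨fun h => h.2, fun h => ⟨mem_univ _, h⟩⟩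

lemma FI_ne (a : Fin r → Fin (n + 1) → K) : (FI a).Nonempty := ⟨∅, mem_FI.2 (indep_empty a)⟩

/-- the archimedean part -/
noncomputable def QA (b : Fin r → Fin (n + 1) → 𝓞 K) (c : Fin (n + 1) × Jx K → ℝ) : ℝ :=
  ∏ w : InfinitePlace K, ((FI fun i => cz (b i)).inf' (FI_ne _) fun I =>
    ∏ l ∈ I, lN w (b l) c / (sN w c * iN w (kv (b l)))) ^ w.mult

lemma QA_cont {b : Fin r → Fin (n + 1) → 𝓞 K} (hb : ∀ l, b l ≠ 0) {c : Fin (n + 1) × Jx K → ℝ}
    (hc : Hc c ≠ 0) : ContinuousAt (QA b) c := by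
  unfold QA
  refine tendsto_finsetProd _ fun w _ => ?_
  refine ContinuousAt.pow ?_ _
  refine ContinuousAt.finset_inf'_apply _ fun I _ => ?_
  refine tendsto_finsetProd _ fun l _ => ?_
  refine ContinuousAt.div (lN_continuous w _).continuousAt
    ((sN_continuous w).continuousAt.mul continuousAt_const) ?_
  exact (mul_pos (Hc_ne hc w) (iN_pos w (kv_ne (hb l)))).ne'

lemma QA_smul (b : Fin r → Fin (n + 1) → 𝓞 K) {t : ℝ} (ht : 0 < t)
    (c : Fin (n + 1) × Jx K → ℝ) : QA b (t • c) = QA b c := by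
  unfold QA
  refine prod_congr rfl fun w _ => ?_
  congr 2
  funext I
  refine prod_congr rfl fun l _ => ?_
  rw [lN_smul w _ ht.le, sN_smul, abs_of_pos ht, mul_assoc, mul_div_mul_left _ _ ht.ne']

lemma QA_int {b : Fin r → Fin (n + 1) → 𝓞 K} (hb : ∀ l, b l ≠ 0)
    {z : Fin (n + 1) × Jx K → ℤ} (hz : z ≠ 0) (h : ∀ l, lf (b l) (vec z) ≠ 0) :
    0 < QA b (ic z) ∧ -Real.log (QA b (ic z)) =
      ∑ w : InfinitePlace K, (w.mult : ℝ) * wt w.1 (fun i => cz (b i)) (cz (vec z)) := by
  have hexp : ∀ (w : InfinitePlace K) l, lN w (b l) (ic z) / (sN w (ic z) * iN w (kv (b l))) =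
      Real.exp (-lam w.1 (cz (b l)) (cz (vec z))) := by
    intro w l
    have h1 : 0 < lN w (b l) (ic z) := by
      rw [lN_int]
      exact (w.pos_iff).2 (exists_zero (h l))
    have h2 : 0 < sN w (ic z) * iN w (kv (b l)) := mul_pos (sN_int_pos w hz) (iN_pos w (kv_ne (hb l)))
    rw [lam_I]
    unfold lamI
    rw [← Real.log_inv, inv_div, Real.exp_log]
    · rw [lN_int, sN_int]
      rfl
    · have h3 := div_pos h1 h2
      rw [lN_int, sN_int] at h3
      exact h3
  have hinf : ∀ w : InfinitePlace K, ((FI fun i => cz (b i)).inf' (FI_ne _) fun I =>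
      ∏ l ∈ I, lN w (b l) (ic z) / (sN w (ic z) * iN w (kv (b l)))) =
      Real.exp (-wt w.1 (fun i => cz (b i)) (cz (vec z))) := by
    intro w
    have h1 : ∀ I : Finset (Fin r), ∏ l ∈ I, lN w (b l) (ic z) / (sN w (ic z) * iN w (kv (b l))) =
        Real.exp (-∑ l ∈ I, lam w.1 (cz (b l)) (cz (vec z))) := by
      intro I
      rw [prod_congr rfl fun l _ => hexp w l, ← Real.exp_sum, sum_neg_distrib]
    apply le_antisymm
    · obtain ⟨I, hI, he⟩ := wt_att w.1 (fun i => cz (b i)) (cz (vec z))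
      rw [he, ← h1]
      exact inf'_le _ (mem_FI.2 hI)
    · refine le_inf' _ _ fun I hI => ?_
      rw [h1]
      exact Real.exp_le_exp.2 (neg_le_neg (le_wt w.1 (fun i => cz (b i)) (cz (vec z)) I (mem_FI.1 hI)))
  have h2 : QA b (ic z) = Real.exp (-∑ w : InfinitePlace K, (w.mult : ℝ) *
      wt w.1 (fun i => cz (b i)) (cz (vec z))) := by
    unfold QA
    rw [← sum_neg_distrib, Real.exp_sum]
    refine prod_congr rfl fun w _ => ?_
    rw [hinf w, ← Real.exp_nat_mul, mul_neg]
  rw [h2, Real.log_exp, neg_neg]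
  exact ⟨Real.exp_pos _, rfl⟩

/-- a nonzero minor -/
lemma minor {a a' : Fin (n + 1) → K} (ha : a ≠ 0) (h : ∀ t : K, a' ≠ t • a) :
    ∃ i₀ i₁, i₀ ≠ i₁ ∧ a i₀ * a' i₁ - a i₁ * a' i₀ ≠ 0 := by
  obtain ⟨k, hk⟩ := Function.ne_iff.1 ha
  have hk' : a k ≠ 0 := hk
  by_contra hcon
  push Not at hcon
  apply h (a' k / a k)
  funext l
  rw [Pi.smul_apply, smul_eq_mul]
  by_cases hkl : k = l
  · rw [← hkl]
    field_simp
  · have h1 := hcon k l hkl
    field_simp
    linear_combination h1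

/-- **The data of the defect of an arrangement.** -/
theorem dat (hn : 1 ≤ n) {a : Fin r → Fin (n + 1) → K} (ha : ∀ i, a i ≠ 0)
    (hdis : ∀ i j, i ≠ j → ∀ t : K, a j ≠ t • a i) (S : Finset (Pr K)) {s : K} (hs : s ≠ 0)
    {b : Fin r → Fin (n + 1) → 𝓞 K} (hb : ∀ i, cz (b i) = s • a i) :
    Dat b (Ed S a) (QA b) (fun z => ∑ᶠ v, locG (GA S a) b v z) := by
  have hb0 : ∀ i, b i ≠ 0 := by
    intro i h
    have h1 := hb i
    have h2 : cz (b i) = 0 := by
      rw [h]
      funext j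
      exact map_zero _
    rw [h2] at h1
    exact smul_ne_zero hs (ha i) h1.symm
  have hcb0 : ∀ i, cz (b i) ≠ 0 := fun i => kv_ne (hb0 i)
  have hGA : GA S (fun i => cz (b i)) = GA S a := by
    funext v t
    unfold GA
    congr 1
    have hindep : ∀ I : Finset (Fin r), LinearIndependent K (fun i : I => cz (b i)) ↔
        LinearIndependent K (fun i : I => a i) := by
      intro I
      have : (fun i : I => cz (b i)) = fun i : I => s • a i := funext fun i => hb i
      rw [this]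
      exact indep_smul a hs I
    have hne1 : Nonempty {I : Finset (Fin r) // LinearIndependent K (fun i : I => cz (b i))} :=
      ⟨⟨∅, indep_empty (fun i => cz (b i))⟩⟩
    have hne2 : Nonempty {I : Finset (Fin r) // LinearIndependent K (fun i : I => a i)} :=
      ⟨⟨∅, indep_empty a⟩⟩
    apply le_antisymm
    · exact ciSup_le fun I => sup_le_sum a t I.1 ((hindep I.1).1 I.2)
    · exact ciSup_le fun I => sup_le_sum (fun i => cz (b i)) t I.1 ((hindep I.1).2 I.2)
  refine ⟨?_, fun c hc => QA_cont hb0 hc, fun t c ht => QA_smul b ht c,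
    fun z hz h => (QA_int hb0 hz h).1, ?_, ?_⟩
  · intro t x ht hx
    obtain ⟨h1, h2⟩ := transfer S (a := a) (b := a) (s := 1) (t := t) one_ne_zero ht
      (fun i => (one_smul K (a i)).symm) (x := x) (x' := t • x) rfl
    unfold Ed
    rw [h1, h2]
  · intro z hz h
    have hz' : cz (vec z) ≠ 0 := kv_ne (Pool.Agent.N906.EQ.vec_ne_zero.2 hz)
    have hl : ∀ i, lin (cz (b i)) (cz (vec z)) ≠ 0 := fun i => exists_zero (h i)
    obtain ⟨h1, h2⟩ := transfer S hs one_ne_zero hb (x := cz (vec z)) (x' := cz (vec z))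
      (one_smul K _).symm
    have h3 := finN1 S hcb0 hz' hl
    have h4 := (QA_int hb0 hz h).2
    show Ed S a (cz (vec z)) = _
    have h5 : Ed S a (cz (vec z)) = Ed S (fun i => cz (b i)) (cz (vec z)) := by
      unfold Ed
      rw [h1, h2]
    rw [h5, h3, ← h4, hGA]
    simp only [locG]
    have h6 : ∀ v l, lamF v (kv (b l)) (kv (vec z)) = lamF v (cz (b l)) (cz (vec z)) :=
      fun v l => rfl
    simp only [h6]
    ring
  · intro c
    refine approx_G (by omega) c b hb0 ?_ (GA S a) S (fun v _ => GA_zero S a v)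
      (fun v hv l => GA_single S ha hv l)
    intro l l' hll
    obtain ⟨i₀, i₁, h1, h2⟩ := minor (ha l) (hdis l l' hll)
    refine ⟨i₀, i₁, h1, fun h3 => h2 ?_⟩
    have e : ∀ l j, ((b l j : 𝓞 K) : K) = s * a l j := fun l j => congrFun (hb l) j
    have h4 : ((b l i₀ * b l' i₁ - b l i₁ * b l' i₀ : 𝓞 K) : K) = 0 := by
      rw [h3]
      exact map_zero _
    have h5 : ((b l i₀ * b l' i₁ - b l i₁ * b l' i₀ : 𝓞 K) : K) =
        s * s * (a l i₀ * a l' i₁ - a l i₁ * a l' i₀) := by
      have h6 : ((b l i₀ * b l' i₁ - b l i₁ * b l' i₀ : 𝓞 K) : K) =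
          ((b l i₀ : 𝓞 K) : K) * ((b l' i₁ : 𝓞 K) : K) -
            ((b l i₁ : 𝓞 K) : K) * ((b l' i₀ : 𝓞 K) : K) := by
        simp
      rw [h6, e, e, e, e]
      ring
    rw [h5] at h4
    exact (mul_eq_zero.1 h4).resolve_left (mul_ne_zero hs hs)

end

end Pool.Agent.L5helper9.Arr
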