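import Pool.Agent.W232.VA.LB

/-!
# The number of points with a large defect

Uniform bound for the number of points of bounded height at which the defect of an arrangement is at
least `t`.
-/

set_option autoImplicit false
set_option linter.unusedSectionVars false

namespace Pool.Agent.L5helper9.Arr

open NumberField IsDedekindDomain Finset Height LinearAlgebra.Projectivization
open Pool.Agent.H691R3 hiding lam
open Pool.Agent.W232.VA

variable {K : Type*} [Field K] [NumberField K] {n r : ℕ}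

lemma tot_le_sav (S : Finset (HeightOneSpectrum (𝓞 K))) (p : Pl K) (e : Fin r → ℕ)
    (h : 0 < sav S p e) : Lu p * ∑ i, (e i : ℝ) ≤ 2 * sav S p e := by
  have hL := Lu_pos p
  have h3 : cost S p e ≤ Lu p := by
    unfold cost
    rcases p with w | v
    · simp only [Sum.elim_inl]; exact hL.le
    · simp only [Sum.elim_inr]
      split_ifs
      · exact le_rfl
      · exact hL.le
  have h4 : cost S p e = 0 ∨ cost S p e = Lu p := by
    unfold cost
    rcases p with w | v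
    · left; rfl
    · simp only [Sum.elim_inr]
      split_ifs
      · right; rfl
      · left; rfl
  unfold sav at h ⊢
  rcases h4 with h4 | h4
  · rw [h4] at h ⊢
    linarith
  · rw [h4] at h ⊢
    have h5 : (1 : ℝ) < ∑ i, (e i : ℝ) := by
      by_contra h6
      rw [not_lt] at h6
      have := mul_le_mul_of_nonneg_left h6 hL.le
      linarith
    have h6 : (1 : ℕ) < ∑ i, e i := by
      have : ((1 : ℕ) : ℝ) < ((∑ i, e i : ℕ) : ℝ) := by push_cast; exact h5
      exact_mod_cast this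
    have h7 : (2 : ℝ) ≤ ∑ i, (e i : ℝ) := by exact_mod_cast h6
    nlinarith

/-- the selection with positive savings -/
lemma select3 (S : Finset (HeightOneSpectrum (𝓞 K))) (P0 : Finset (Pl K)) (e : Pl K → Fin r → ℕ)
    {Θ Λ : ℝ} (h1 : Θ ≤ ∑ p ∈ P0, sav S p (e p)) (h4 : 2 * Θ ≤ Λ) (hΛ : 0 ≤ Λ)
    (h2 : ∀ p ∈ P0, (mx (e p) : ℝ) * Lu p ≤ Λ) :
    ∃ e' : Pl K → Fin r → ℕ, (∀ p, e' p = e p ∨ e' p = 0) ∧ (∀ p ∉ P0, e' p = 0) ∧
      Θ ≤ ∑ p ∈ P0, sav S p (e' p) ∧ (∑ p ∈ P0, (mx (e' p) : ℝ) * Lu p ≤ Λ ∨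
        ∃ i1, ∑ p ∈ P0, (mx1 i1 (e' p) : ℝ) * Lu p ≤ Λ) ∧
      ∀ p, Lu p * ∑ i, (e' p i : ℝ) ≤ 2 * sav S p (e' p) := by
  classical
  obtain ⟨e', g1, g2, g3, g4⟩ := select2 S P0 e h1 h4 hΛ h2
  have hm0 : ∀ i1 : Fin r, mx1 i1 (0 : Fin r → ℕ) = 0 := by
    intro i1
    have := mx1_le_mx i1 (0 : Fin r → ℕ)
    rw [mx_zero] at this
    omega
  refine ⟨fun p => if 0 < sav S p (e' p) then e' p else 0, fun p => ?_, fun p hp => ?_, ?_, ?_,
    fun p => ?_⟩
  · dsimp only
    split_ifs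
    · exact g1 p
    · exact Or.inr rfl
  · dsimp only
    split_ifs
    · exact g2 p hp
    · rfl
  · refine g3.trans (le_of_eq (Finset.sum_congr rfl fun p _ => ?_))
    dsimp only
    split_ifs with h
    · rfl
    · rw [sav_zero]
      exact le_antisymm (not_lt.1 h) (sav_nonneg S p _)
  · rcases g4 with g4 | ⟨i1, g4⟩
    · left
      refine le_trans (Finset.sum_le_sum fun p _ => ?_) g4
      dsimp only
      split_ifs with h
      · exact le_rfl
      · rw [mx_zero, Nat.cast_zero, zero_mul]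
        exact mul_nonneg (Nat.cast_nonneg _) (Lu_pos p).le
    · right
      refine ⟨i1, le_trans (Finset.sum_le_sum fun p _ => ?_) g4⟩
      dsimp only
      split_ifs with h
      · exact le_rfl
      · rw [hm0, Nat.cast_zero, zero_mul]
        exact mul_nonneg (Nat.cast_nonneg _) (Lu_pos p).le
  · dsimp only
    split_ifs with h
    · exact tot_le_sav S p _ h
    · rw [sav_zero]
      simp

theorem shell3 (a : Fin r → Fin (n + 1) → 𝓞 K) (ha : ∀ i, cz (a i) ≠ 0)
    (S : Finset (HeightOneSpectrum (𝓞 K))) (C0 C2 δ : ℝ) (hC0 : 1 ≤ C0) (hC2 : 0 ≤ C2)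
    (hδ : 0 < δ) (hδ1 : δ ≤ 1) :
    ∃ M : ℝ, 0 < M ∧ ∀ B : ℝ, 1 ≤ B → ∀ Θ : ℝ, 2 * Θ ≤ Real.log B + C2 →
      ∀ A : Finset (Fin (n + 1) → 𝓞 K),
      (∀ y ∈ A, cz y ≠ 0 ∧ (∀ i, lin (cz (a i)) (cz y) ≠ 0) ∧
        (∀ w : InfinitePlace K, ∀ j, w (cz y j) ≤ C0 * B ^ (1 / (Module.finrank ℚ K : ℝ))) ∧
        (∀ (T : Finset (HeightOneSpectrum (𝓞 K))) (i : Fin r),
          ∑ p ∈ (univ : Finset (InfinitePlace K)).disjSum T, max 0 (lamP p (cz (a i)) (cz y)) ≤
            Real.log B + C2) ∧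
        ∃ e : Pl K → Fin r → ℕ, (∀ p, Prof (fun i => cz (a i)) (e p)) ∧
          (∀ p i, e p i ≠ 0 → (e p i : ℝ) * Lu p ≤ lamP p (cz (a i)) (cz y)) ∧
          ∃ T : Finset (HeightOneSpectrum (𝓞 K)),
            Θ ≤ ∑ p ∈ (univ : Finset (InfinitePlace K)).disjSum T, sav S p (e p)) →
      (A.card : ℝ) ≤ M * Real.exp ((n + 1) * Real.log B - (1 - δ) * Θ) := by
  classical
  obtain ⟨Ca, hCa, hcounta⟩ := count_prof a ha C0 C2 hC0
  obtain ⟨Cb, hCb, hcountb⟩ := count_prof2 a ha C0 C2 hC0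
  set C : ℝ := max Ca Cb with hCdef
  have hC : 0 < C := lt_max_of_lt_left hCa
  set δ' : ℝ := δ / 2 with hδ'
  have hδ'0 : 0 < δ' := by positivity
  obtain ⟨H, hH⟩ := gw_sum (K := K) S hδ'0
  refine ⟨C * Real.exp (Cd r δ' * H), by positivity, ?_⟩
  intro B hB Θ h2Θ A hA
  have hB0 : 0 < B := by linarith
  have hlogB : 0 ≤ Real.log B := Real.log_nonneg hB
  set Λ : ℝ := Real.log B + C2 with hΛ
  have hΛ0 : 0 ≤ Λ := by linarith
  set T0 : Finset (HeightOneSpectrum (𝓞 K)) := (fin_places Λ).toFinset with hT0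
  set P0 : Finset (Pl K) := (univ : Finset (InfinitePlace K)).disjSum T0 with hP0
  have hlog2 : 0 < Real.log 2 := Real.log_pos (by norm_num)
  set E : ℕ := ⌊Λ / Real.log 2⌋₊ with hE
  -- the truncated profiles
  have hex : ∀ y : Fin (n + 1) → 𝓞 K, ∃ e : Pl K → Fin r → ℕ, y ∈ A →
      (∀ p, Prof (fun i => cz (a i)) (e p)) ∧
      (∀ p i, e p i ≠ 0 → (e p i : ℝ) * Lu p ≤ lamP p (cz (a i)) (cz y)) ∧
      (∀ p ∉ P0, e p = 0) ∧ Θ ≤ ∑ p ∈ P0, sav S p (e p) ∧
      (∑ p ∈ P0, (mx (e p) : ℝ) * Lu p ≤ Λ ∨ ∃ i1, ∑ p ∈ P0, (mx1 i1 (e p) : ℝ) * Lu p ≤ Λ) ∧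
      (∀ p, e p ∈ box r E) ∧ ∀ p, Lu p * ∑ i, (e p i : ℝ) ≤ 2 * sav S p (e p) := by
    intro y
    by_cases hy : y ∈ A
    · obtain ⟨hy0, hyl, hyB, hyL, e, he1, he2, T, he3⟩ := hA y hy
      have hle : ∀ p i, (e p i : ℝ) * Lu p ≤ Λ := by
        intro p i
        by_cases h0 : e p i = 0
        · rw [h0]; simpa using hΛ0
        · refine (he2 p i h0).trans ?_
          have hnn : ∀ q : Pl K, 0 ≤ max 0 (lamP q (cz (a i)) (cz y)) := fun q => le_max_left _ _
          rcases p with w | v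
          · refine (le_max_right 0 _).trans (le_trans ?_ (hyL ∅ i))
            exact Finset.single_le_sum (f := fun q => max 0 (lamP q (cz (a i)) (cz y)))
              (fun q _ => hnn q) (Finset.mem_disjSum.mpr (Or.inl ⟨w, Finset.mem_univ _, rfl⟩))
          · refine (le_max_right 0 _).trans (le_trans ?_ (hyL {v} i))
            exact Finset.single_le_sum (f := fun q => max 0 (lamP q (cz (a i)) (cz y)))
              (fun q _ => hnn q) (Finset.mem_disjSum.mpr (Or.inr ⟨v, Finset.mem_singleton_self v, rfl⟩))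
      have hmem : ∀ v, e (Sum.inr v) ≠ 0 → v ∈ T0 := by
        intro v hv
        rw [hT0, Set.Finite.mem_toFinset]
        obtain ⟨i, hi⟩ := Function.ne_iff.mp hv
        have h1 := hle (Sum.inr v) i
        have h2 : (1 : ℝ) ≤ e (Sum.inr v) i := by exact_mod_cast Nat.one_le_iff_ne_zero.mpr hi
        have h3 := Lu_pos (Sum.inr v : Pl K)
        show Real.log (Nv v) ≤ Λ
        have h4 : Lu (Sum.inr v : Pl K) = Real.log (Nv v) := rfl
        rw [← h4]
        nlinarith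
      have h1 : Θ ≤ ∑ p ∈ P0, sav S p (e p) := he3.trans (sav_le_of_subset S e T T0 hmem)
      have hmx : ∀ p, (mx (e p) : ℝ) * Lu p ≤ Λ := by
        intro p
        rcases Nat.eq_zero_or_pos (mx (e p)) with h0 | h0
        · rw [h0]; simpa using hΛ0
        · have hr0 : (univ : Finset (Fin r)).Nonempty := by
            by_contra hne
            rw [Finset.not_nonempty_iff_eq_empty] at hne
            have : mx (e p) = 0 := by unfold mx; rw [hne]; rfl
            omega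
          obtain ⟨i, _, hi⟩ := Finset.exists_mem_eq_sup univ hr0 (e p)
          have : mx (e p) = e p i := hi
          rw [this]
          exact hle p i
      obtain ⟨e', g1, g2, g3, g4, g5⟩ := select3 S P0 e h1 h2Θ hΛ0 (fun p _ => hmx p)
      refine ⟨e', fun _ => ⟨fun p => ?_, fun p i hi => ?_, g2, g3, g4, fun p => ?_, g5⟩⟩
      · rcases g1 p with h | h
        · rw [h]; exact he1 p
        · rw [h]; exact prof_zero' _
      · rcases g1 p with h | h
        · rw [h] at hi ⊢; exact he2 p i hi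
        · rw [h] at hi; exact absurd rfl hi
      · rw [mem_box]
        intro i
        rcases g1 p with h | h
        · rw [h]
          refine Nat.le_floor ?_
          rw [le_div_iff₀ hlog2]
          have h5 := log_two_le_Lu p
          have h6 := hle p i
          have h7 : (0 : ℝ) ≤ e p i := Nat.cast_nonneg _
          nlinarith
        · rw [h]; exact Nat.zero_le _
    · exact ⟨fun _ => 0, fun h => absurd h hy⟩
  choose ε hε using hex
  set Φ : Finset (Pl K → Fin r → ℕ) := A.image ε with hΦ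
  have hcard : A.card = ∑ e ∈ Φ, (A.filter fun y => ε y = e).card :=
    Finset.card_eq_sum_card_fiberwise fun y hy => Finset.mem_image_of_mem _ hy
  -- the bound for one profile
  have hone : ∀ e ∈ Φ, ((A.filter fun y => ε y = e).card : ℝ) ≤
      C * Real.exp ((n + 1) * Real.log B - (1 - δ) * Θ) * ∏ p ∈ P0, fw S δ' p (e p) := by
    intro e he
    obtain ⟨y0, hy0, rfl⟩ := Finset.mem_image.mp he
    obtain ⟨k1, k2, k3, k4, k5, k6, k7⟩ := hε y0 hy0
    have hfil : ∀ y ∈ A.filter fun y => ε y = ε y0, cz y ≠ 0 ∧ (∀ i, lin (cz (a i)) (cz y) ≠ 0) ∧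
        (∀ w : InfinitePlace K, ∀ j, w (cz y j) ≤ C0 * B ^ (1 / (Module.finrank ℚ K : ℝ))) ∧
        ∀ p ∈ (univ : Finset (InfinitePlace K)).disjSum T0, ∀ i, ε y0 p i ≠ 0 →
          (ε y0 p i : ℝ) * Lu p ≤ lamP p (cz (a i)) (cz y) := by
      intro y hy
      rw [Finset.mem_filter] at hy
      obtain ⟨f1, f2, f3, f4, f5⟩ := hA y hy.1
      obtain ⟨g1, g2, g3, g4, g5, g6, g7⟩ := hε y hy.1
      refine ⟨f1, f2, f3, fun p _ i hi => ?_⟩
      rw [← hy.2] at hi ⊢
      exact g2 p i hi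
    have h1 : ((A.filter fun y => ε y = ε y0).card : ℝ) ≤ C * Real.exp ((n + 1) * Real.log B -
        ∑ p ∈ (univ : Finset (InfinitePlace K)).disjSum T0, Lu p * ∑ i, (ε y0 p i : ℝ)) := by
      rcases k5 with k5 | ⟨i1, k5⟩
      · refine (hcounta B hB T0 (ε y0) k1 (by rw [← hP0]; exact k5) _ hfil).trans ?_
        exact mul_le_mul_of_nonneg_right (le_max_left _ _) (Real.exp_pos _).le
      · refine (hcountb B hB T0 (ε y0) k1 i1 (by rw [← hP0]; exact k5) _ hfil).trans ?_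
        exact mul_le_mul_of_nonneg_right (le_max_right _ _) (Real.exp_pos _).le
    refine h1.trans ?_
    rw [mul_assoc C]
    refine mul_le_mul_of_nonneg_left ?_ hC.le
    have e1 : ∏ p ∈ P0, fw S δ' p (ε y0 p) =
        Real.exp (∑ p ∈ P0, (-(cost S p (ε y0 p)) - δ' * (Lu p * ∑ i, (ε y0 p i : ℝ)))) := by
      rw [Real.exp_sum]
      rfl
    rw [e1, ← Real.exp_add, ← hP0]
    refine Real.exp_le_exp.mpr ?_
    have e2 : ∑ p ∈ P0, sav S p (ε y0 p) =
        ∑ p ∈ P0, Lu p * ∑ i, (ε y0 p i : ℝ) - ∑ p ∈ P0, cost S p (ε y0 p) := by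
      unfold sav
      rw [Finset.sum_sub_distrib]
    have e3 : ∑ p ∈ P0, (-(cost S p (ε y0 p)) - δ' * (Lu p * ∑ i, (ε y0 p i : ℝ))) =
        -∑ p ∈ P0, cost S p (ε y0 p) - δ' * ∑ p ∈ P0, Lu p * ∑ i, (ε y0 p i : ℝ) := by
      rw [Finset.sum_sub_distrib, Finset.sum_neg_distrib, Finset.mul_sum]
    have e4 : ∑ p ∈ P0, Lu p * ∑ i, (ε y0 p i : ℝ) ≤ 2 * ∑ p ∈ P0, sav S p (ε y0 p) := by
      rw [Finset.mul_sum]
      exact Finset.sum_le_sum fun p _ => k7 p
    rw [e3]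
    have e5 := mul_le_mul_of_nonneg_left e4 hδ'0.le
    have e6 := mul_le_mul_of_nonneg_left k4 (show 0 ≤ 1 - δ by linarith)
    have e7 : δ' * (2 * ∑ p ∈ P0, sav S p (ε y0 p)) = δ * ∑ p ∈ P0, sav S p (ε y0 p) := by
      rw [hδ']
      ring
    rw [e7] at e5
    rw [e2] at e6 e5
    linarith
  have hsum : ∑ e ∈ Φ, ∏ p ∈ P0, fw S δ' p (e p) ≤ Real.exp (Cd r δ' * H) := by
    refine (sum_prod_le P0 (box r E) 0 Φ (fun p e => fw S δ' p e)
      (fun p e => (Real.exp_pos _).le) ?_).trans ?_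
    · intro e he
      obtain ⟨y0, hy0, rfl⟩ := Finset.mem_image.mp he
      obtain ⟨k1, k2, k3, k4, k5, k6, k7⟩ := hε y0 hy0
      exact ⟨fun p _ => k6 p, k3⟩
    · calc ∏ p ∈ P0, ∑ e ∈ box r E, fw S δ' p e ≤ ∏ p ∈ P0, Real.exp (Cd r δ' * gw S δ' p) := by
            refine Finset.prod_le_prod (fun p _ => Finset.sum_nonneg fun e _ => (Real.exp_pos _).le)
              fun p _ => ?_
            refine (fw_sum S hδ'0 p E).trans ?_
            have := Real.add_one_le_exp (Cd r δ' * gw S δ' p)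
            linarith
        _ = Real.exp (Cd r δ' * ∑ p ∈ P0, gw S δ' p) := by
            rw [Finset.mul_sum, Real.exp_sum]
        _ ≤ Real.exp (Cd r δ' * H) :=
            Real.exp_le_exp.mpr (mul_le_mul_of_nonneg_left (hH T0) (Cd_nonneg r hδ'0))
  have hfin : (A.card : ℝ) ≤ C * Real.exp ((n + 1) * Real.log B - (1 - δ) * Θ) *
      Real.exp (Cd r δ' * H) := by
    rw [hcard]
    push_cast
    refine (Finset.sum_le_sum hone).trans ?_
    rw [← Finset.mul_sum]
    exact mul_le_mul_of_nonneg_left hsum (by positivity)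
  refine hfin.trans (le_of_eq ?_)
  ring

theorem shell_proj3 (a : Fin r → Fin (n + 1) → K) (ha : ∀ i, a i ≠ 0)
    (S : Finset (HeightOneSpectrum (𝓞 K))) (δ : ℝ) (hδ : 0 < δ) (hδ1 : δ ≤ 1) :
    ∃ M : ℝ, 0 < M ∧ ∀ B : ℝ, 1 ≤ B → ∀ τ : ℝ, ∀ F : Finset (ℙ K (Fin (n + 1) → K)),
      (∀ P ∈ F, (∀ i, lin (a i) P.rep ≠ 0) ∧ mulHeight P.rep ≤ B ∧
        τ ≤ hW a P.rep - N1 S a P.rep) →
      (F.card : ℝ) ≤ M * (Real.exp (-((1 - δ) * τ)) + B ^ (-((1 - δ) / 2))) *
        B ^ ((n : ℝ) + 1) := by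
  classical
  obtain ⟨s, hs, b, hb⟩ := exists_scale a
  obtain ⟨CR0, hCR0, hrep⟩ := rep K (n := n)
  obtain ⟨CA, hCA1, hCA⟩ := exists_CA b
  set CR : ℝ := max CR0 1 with hCR
  have hCR1 : 1 ≤ CR := le_max_right _ _
  have hb0 : ∀ i, cz (b i) ≠ 0 := fun i => by
    rw [hb i]; exact smul_ne_zero hs (ha i)
  have hn1 : (1 : ℝ) ≤ (n : ℝ) + 1 := by
    have : (0 : ℝ) ≤ n := Nat.cast_nonneg n
    linarith
  set X0 : ℝ := (n + 1) * CA * CR with hX0
  have hX01 : 1 ≤ X0 := by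
    have h1 : 1 ≤ (n + 1) * CA := one_le_mul_of_one_le_of_one_le hn1 hCA1
    exact one_le_mul_of_one_le_of_one_le h1 hCR1
  have hd : (0 : ℝ) < (Module.finrank ℚ K : ℝ) := by exact_mod_cast Module.finrank_pos
  set c1 : ℝ := ∑ _w : InfinitePlace K, (r : ℝ) with hc1
  have hlog2 : 0 ≤ Real.log 2 := Real.log_nonneg (by norm_num)
  have hc10 : 0 ≤ c1 := by positivity
  obtain ⟨M, hM, hshell⟩ := shell3 b hb0 S CR ((Module.finrank ℚ K : ℝ) * Real.log X0) δ hCR1
    (mul_nonneg hd.le (Real.log_nonneg hX01)) hδ hδ1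
  refine ⟨M * Real.exp c1, by positivity, ?_⟩
  intro B hB τ F hF
  have hB0 : 0 < B := by linarith
  have hex : ∀ P : ℙ K (Fin (n + 1) → K), ∃ (t : K) (y : Fin (n + 1) → 𝓞 K), t ≠ 0 ∧ cz y = t • P.rep ∧
      ∀ (w : InfinitePlace K) (j : Fin (n + 1)), w (cz y j) ≤
        CR * mulHeight P.rep ^ (1 / (Module.finrank ℚ K : ℝ)) := by
    intro P
    obtain ⟨t, ht, y, hy, hyw⟩ := hrep P.rep P.rep_nonzero
    refine ⟨t, y, ht, ?_, fun w j => (hyw w j).trans ?_⟩
    · ext j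
      exact hy j
    · exact mul_le_mul_of_nonneg_right (le_max_left _ _) (Real.rpow_nonneg (by positivity) _)
  choose t y ht hty hyw using hex
  have hinj : Set.InjOn y (F : Set (ℙ K (Fin (n + 1) → K))) := by
    intro P _ Q _ hPQ
    have h1 : t P • P.rep = t Q • Q.rep := by rw [← hty, ← hty, hPQ]
    rw [← P.mk_rep, ← Q.mk_rep]
    refine (Projectivization.mk_eq_mk_iff' K _ _ P.rep_nonzero Q.rep_nonzero).mpr ⟨(t P)⁻¹ * t Q, ?_⟩
    rw [mul_smul, ← h1, smul_smul, inv_mul_cancel₀ (ht P), one_smul]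
  rw [← Finset.card_image_of_injOn hinj]
  have hlogB0 : 0 ≤ Real.log B := Real.log_nonneg hB
  obtain ⟨Θ, hΘ⟩ : ∃ Θ : ℝ, Θ = min (max 0 (τ - c1)) (Real.log B / 2) := ⟨_, rfl⟩
  have hΘ2 : 2 * Θ ≤ Real.log B + (Module.finrank ℚ K : ℝ) * Real.log X0 := by
    have h1 : Θ ≤ Real.log B / 2 := by rw [hΘ]; exact min_le_right _ _
    have h2 := mul_nonneg hd.le (Real.log_nonneg hX01)
    linarith
  have hfinal : Real.exp ((n + 1) * Real.log B - (1 - δ) * Θ) ≤
      Real.exp c1 * (Real.exp (-((1 - δ) * τ)) + B ^ (-((1 - δ) / 2))) * B ^ ((n : ℝ) + 1) := by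
    have e1 : Real.exp ((n + 1) * Real.log B - (1 - δ) * Θ) =
        Real.exp (-((1 - δ) * Θ)) * B ^ ((n : ℝ) + 1) := by
      rw [Real.rpow_def_of_pos hB0, ← Real.exp_add]
      congr 1
      ring
    rw [e1]
    refine mul_le_mul_of_nonneg_right ?_ (Real.rpow_nonneg hB0.le _)
    rw [mul_add]
    have hb1 : 0 < B ^ (-((1 - δ) / 2)) := Real.rpow_pos_of_pos hB0 _
    have he1 := Real.exp_pos (-((1 - δ) * τ))
    have hec : 1 ≤ Real.exp c1 := Real.one_le_exp hc10
    rcases le_total (max 0 (τ - c1)) (Real.log B / 2) with h | h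
    · have h1 : τ - c1 ≤ Θ := by
        rw [hΘ, min_eq_left h]
        exact le_max_right _ _
      have h2 : Real.exp (-((1 - δ) * Θ)) ≤ Real.exp c1 * Real.exp (-((1 - δ) * τ)) := by
        rw [← Real.exp_add]
        apply Real.exp_le_exp.2
        have h3 := mul_le_mul_of_nonneg_left h1 (show 0 ≤ 1 - δ by linarith)
        have h4 := mul_nonneg hδ.le hc10
        linarith
      have h5 : 0 ≤ Real.exp c1 * B ^ (-((1 - δ) / 2)) := by positivity
      linarith
    · have h1 : Θ = Real.log B / 2 := by rw [hΘ, min_eq_right h]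
      have h2 : Real.exp (-((1 - δ) * Θ)) = B ^ (-((1 - δ) / 2)) := by
        rw [h1, Real.rpow_def_of_pos hB0]
        congr 1
        ring
      rw [h2]
      have h5 : 0 ≤ Real.exp c1 * Real.exp (-((1 - δ) * τ)) := by positivity
      have h6 : B ^ (-((1 - δ) / 2)) ≤ Real.exp c1 * B ^ (-((1 - δ) / 2)) :=
        le_mul_of_one_le_left hb1.le hec
      linarith
  refine (hshell B hB Θ hΘ2 _ ?_).trans ?_
  swap
  · refine (mul_le_mul_of_nonneg_left hfinal hM.le).trans (le_of_eq ?_)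
    ring
  intro z hz
  obtain ⟨P, hP, rfl⟩ := Finset.mem_image.mp hz
  obtain ⟨hlin, hHB, hbad⟩ := hF P hP
  have hH1 : 1 ≤ mulHeight P.rep := one_le_mulHeight P.rep
  have hR : mulHeight P.rep ^ (1 / (Module.finrank ℚ K : ℝ)) ≤ B ^ (1 / (Module.finrank ℚ K : ℝ)) := by
    exact Real.rpow_le_rpow (by positivity) hHB (by positivity)
  have hyB : ∀ (w : InfinitePlace K) (j : Fin (n + 1)), w (cz (y P) j) ≤
      CR * B ^ (1 / (Module.finrank ℚ K : ℝ)) := fun w j =>
    (hyw P w j).trans (mul_le_mul_of_nonneg_left hR (by linarith))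
  have hlam : ∀ (f : AbsoluteValue K ℝ) i, lam f (cz (b i)) (cz (y P)) = lam f (a i) P.rep := fun f i =>
    lam_congr f hs (ht P) (hb i) (hty P)
  have hindep : ∀ I : Finset (Fin r), LinearIndependent K (fun i : I => cz (b i)) ↔
      LinearIndependent K (fun i : I => a i) := by
    intro I
    have : (fun i : I => cz (b i)) = fun i : I => s • a i := funext fun i => hb i
    rw [this]
    exact indep_smul a hs I
  have hy0 : cz (y P) ≠ 0 := by
    rw [hty]; exact smul_ne_zero (ht P) P.rep_nonzero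
  have hyl : ∀ i, lin (cz (b i)) (cz (y P)) ≠ 0 := by
    intro i
    rw [hb, hty, lin_smul_left, lin_smul_right]
    exact mul_ne_zero hs (mul_ne_zero (ht P) (hlin i))
  have hCA0 : 0 ≤ CA := by linarith
  have hRpos : 0 < B ^ (1 / (Module.finrank ℚ K : ℝ)) := Real.rpow_pos_of_pos hB0 _
  have hR1 : 1 ≤ B ^ (1 / (Module.finrank ℚ K : ℝ)) := Real.one_le_rpow hB (by positivity)
  refine ⟨hy0, hyl, hyB, ?_, ?_⟩
  · intro T i
    have h1 := sumlam_le (hb0 i) hy0 (hyl i) (X := X0 * B ^ (1 / (Module.finrank ℚ K : ℝ)))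
      (fun w => by
        have := w_lin_le w (cz (b i)) (cz (y P)) hCA0
          (fun j => (sup_le_of w.1 (cz (b i)) j).trans (hCA w i)) (hyB w)
        rw [hX0]
        linarith)
      (fun w => by
        have h2 : (⨆ j, w (cz (b i) j)) * (⨆ j, w (cz (y P) j)) ≤
            CA * (CR * B ^ (1 / (Module.finrank ℚ K : ℝ))) :=
          mul_le_mul (hCA w i) (ciSup_le fun j => hyB w j) (sup_pos w.1 hy0).le hCA0
        refine h2.trans ?_
        rw [hX0]
        have h3 : 0 ≤ CA * (CR * B ^ (1 / (Module.finrank ℚ K : ℝ))) := by positivity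
        nlinarith) T
    refine h1.trans (le_of_eq ?_)
    rw [Real.log_mul (by linarith) hRpos.ne', Real.log_rpow hB0]
    field_simp
    ring
  · choose e he1 he2 he3 using fun p => prof hb0 hy0 hyl p
    obtain ⟨T, hT⟩ := exists_T hb0 hy0 hyl
    refine ⟨e, he1, fun p i => he2 p i, T, ?_⟩
    have hcost := cost_le_N1 S hT (fun p i => he2 p i)
    have hWeq := hW_eq hT
    have hNeq : N1 S (fun i => cz (b i)) (cz (y P)) = N1 S a P.rep := by
      unfold N1
      simp only [hlam]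
    have hWeq2 : hW (fun i => cz (b i)) (cz (y P)) = hW a P.rep := by
      unfold hW
      have : ∀ f : AbsoluteValue K ℝ, wt f (fun i => cz (b i)) (cz (y P)) = wt f a P.rep := fun f =>
        wt_congr f (fun i => hlam f i) hindep
      simp only [this]
    have hsum : ∑ p ∈ (univ : Finset (InfinitePlace K)).disjSum T, wtP p (fun i => cz (b i)) (cz (y P)) ≤
        ∑ p ∈ (univ : Finset (InfinitePlace K)).disjSum T, Lu p * ∑ i, (e p i : ℝ) +
          ∑ _w : InfinitePlace K, (r : ℝ) := by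
      refine (Finset.sum_le_sum fun p _ => he3 p).trans ?_
      rw [Finset.sum_add_distrib]
      refine add_le_add le_rfl ?_
      rw [Finset.sum_disjSum]
      have : ∑ v ∈ T, ls r (Sum.inr v : Pl K) = 0 := Finset.sum_eq_zero fun v _ => rfl
      rw [this, add_zero]
      exact le_rfl
    have hsav : ∑ p ∈ (univ : Finset (InfinitePlace K)).disjSum T, sav S p (e p) =
        ∑ p ∈ (univ : Finset (InfinitePlace K)).disjSum T, Lu p * ∑ i, (e p i : ℝ) -
          ∑ p ∈ (univ : Finset (InfinitePlace K)).disjSum T, cost S p (e p) := by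
      unfold sav
      rw [Finset.sum_sub_distrib]
    rw [← hNeq, ← hWeq2, hWeq] at hbad
    have hT1 : τ - c1 ≤ ∑ p ∈ (univ : Finset (InfinitePlace K)).disjSum T, sav S p (e p) := by
      rw [hsav]
      linarith
    have hT2 : 0 ≤ ∑ p ∈ (univ : Finset (InfinitePlace K)).disjSum T, sav S p (e p) :=
      Finset.sum_nonneg fun p _ => sav_nonneg S p _
    rw [hΘ]
    exact (min_le_left _ _).trans (max_le hT2 hT1)


theorem tailT (a : Fin r → Fin (n + 1) → K) (ha : ∀ i, a i ≠ 0)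
    (S : Finset (HeightOneSpectrum (𝓞 K))) (δ : ℝ) (hδ : 0 < δ) (hδ1 : δ ≤ 1) :
    ∃ M : ℝ, 0 < M ∧ ∀ B : ℝ, 1 ≤ B → ∀ t : ℝ,
      {P : ℙ K (Fin (n + 1) → K) | (∀ i, lin (a i) P.rep ≠ 0) ∧ mulHeight P.rep ≤ B ∧
        t ≤ hW a P.rep - N1 S a P.rep}.Finite ∧
      ({P : ℙ K (Fin (n + 1) → K) | (∀ i, lin (a i) P.rep ≠ 0) ∧ mulHeight P.rep ≤ B ∧
        t ≤ hW a P.rep - N1 S a P.rep}.ncard : ℝ) ≤
        M * (Real.exp (-((1 - δ) * t)) + B ^ (-((1 - δ) / 2))) * B ^ ((n : ℝ) + 1) := by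
  obtain ⟨M, hM, h⟩ := shell_proj3 a ha S δ hδ hδ1
  refine ⟨M, hM, fun B hB t => ?_⟩
  apply Pool.Agent.H57R3.VJ.fin_of_bdd
  intro F hF
  exact h B hB t F fun P hP => hF hP

end Pool.Agent.L5helper9.Arr
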