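import Pool.Agent.L5helper9.Arr4

/-!
# Many points with a large defect

A lower bound, uniform in `k`, for the number of points of bounded height at which the defect of an
arrangement is at least `k [K : ℚ] log 2 - c₀`.
-/

set_option autoImplicit false
set_option linter.unusedSectionVars false

namespace Pool.Agent.L5helper9.Arr

open NumberField IsDedekindDomain Finset Height LinearAlgebra.Projectivization
open Pool.Agent.H691R3 hiding lam
open Pool.Agent.W232.VA

variable {K : Type*} [Field K] [NumberField K] {n r : ℕ}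

/-- the points of height at most `B` with defect at least `t` -/
def Big (S : Finset (HeightOneSpectrum (𝓞 K))) (a : Fin r → Fin (n + 1) → K) (t B : ℝ) :
    Set (ℙ K (Fin (n + 1) → K)) :=
  {P : ℙ K (Fin (n + 1) → K) | (∀ i, lin (a i) P.rep ≠ 0) ∧ mulHeight P.rep ≤ B ∧
    t ≤ hW a P.rep - N1 S a P.rep}

theorem lowT (hn : 1 ≤ n) (hr : 1 ≤ r) (a : Fin r → Fin (n + 1) → K) (ha : ∀ i, a i ≠ 0)
    (S : Finset (HeightOneSpectrum (𝓞 K))) :
    ∃ c0 m : ℝ, 0 < m ∧ ∀ k : ℕ, ∃ B0 : ℝ, 1 ≤ B0 ∧ ∀ B : ℝ, B0 ≤ B →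
      m * B ^ (n + 1) / (2 ^ k) ^ (Module.finrank ℚ K) ≤
        ((Big S a (k * (Module.finrank ℚ K * Real.log 2) - c0) B).ncard : ℝ) := by
  classical
  obtain ⟨s, hs, b, hb⟩ := exists_scale a
  have hb0 : ∀ i, cz (b i) ≠ 0 := fun i => by
    rw [hb i]; exact smul_ne_zero hs (ha i)
  set i0 : Fin r := ⟨0, hr⟩ with hi0
  obtain ⟨j0, hj0'⟩ := Function.ne_iff.mp (hb0 i0)
  have hj0 : b i0 j0 ≠ 0 := by
    intro h
    apply hj0'
    unfold cz
    rw [h]
    exact map_zero _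
  have hnt : Nontrivial (Fin (n + 1)) := Fin.nontrivial_iff_two_le.mpr (by omega)
  obtain ⟨j1, hj1⟩ := exists_ne j0
  obtain ⟨c0, hdef⟩ := defect b hb0 i0 hj0 hj1 S
  obtain ⟨Q, h2Q, hQ0, hgood⟩ := good_card K hn r
  obtain ⟨Ω, hΩ1, hΩ⟩ := comb_size K
  obtain ⟨CH, hCH1, hCH⟩ := xo_size (b i0) j0
  obtain ⟨Cm, hCm, hmult⟩ := mult_bound K (n := n)
  set d : ℕ := Module.finrank ℚ K with hd
  have hdpos : 0 < d := Module.finrank_pos
  have hdr : (0 : ℝ) < (d : ℝ) := by exact_mod_cast hdpos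
  have hQr : (2 : ℝ) ≤ Q := by
    have : 2 ≤ Q := Nat.le_of_dvd hQ0 h2Q
    exact_mod_cast this
  set ε : ℝ := 1 / (8 * Q * Ω) with hε
  have hε0 : 0 < ε := by positivity
  refine ⟨c0, (ε / (2 * CH)) ^ (d * (n + 1)) / (2 * Cm), by positivity, fun k => ?_⟩
  have h1κ : 0 < 1 / (d : ℝ) := by positivity
  obtain ⟨B1, hB1⟩ : ∃ B1 : ℝ, ∀ B ≥ B1, (4 * r + 2) / (ε / (CH * 2 ^ k)) ≤ B ^ (1 / (d : ℝ)) := by
    have h1 := (tendsto_rpow_atTop h1κ).eventually_ge_atTop
      ((4 * (r : ℝ) + 2) / (ε / (CH * 2 ^ k)))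
    rw [Filter.eventually_atTop] at h1
    exact h1
  refine ⟨max 1 B1, le_max_left _ _, ?_⟩
  intro B hB
  have hB1' : 1 ≤ B := (le_max_left _ _).trans hB
  have hB0 : 0 < B := by linarith
  have hlogB : 0 ≤ Real.log B := Real.log_nonneg hB1'
  have hlarge := hB1 B ((le_max_right _ _).trans hB)
  -- the parameters
  set X : ℝ := B ^ (1 / (d : ℝ)) / CH with hX
  have hX0 : 0 < X := by positivity
  have h2k : (1 : ℝ) ≤ 2 ^ k := one_le_pow₀ (by norm_num)
  set y : ℝ := ε * X / 2 ^ k with hy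
  have hyl : 4 * (r : ℝ) + 2 ≤ y := by
    rw [div_le_iff₀ (by positivity)] at hlarge
    refine hlarge.trans (le_of_eq ?_)
    rw [hy, hX]
    field_simp
  have hr0 : (0 : ℝ) ≤ r := Nat.cast_nonneg r
  have hy0 : 0 < y := by linarith
  have hεX : y ≤ ε * X := by
    rw [hy]
    exact div_le_self (by positivity) h2k
  set M0 : ℕ := ⌊y⌋₊ with hM0
  set M : ℕ := ⌊ε * X⌋₊ with hM
  have hM0M : M0 ≤ M := Nat.floor_le_floor hεX
  have hM0l : 4 * r + 1 ≤ M0 := by
    refine Nat.le_floor ?_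
    push_cast
    linarith
  have hM0y : (M0 : ℝ) ≤ y := Nat.floor_le hy0.le
  have hMX : (M : ℝ) ≤ ε * X := Nat.floor_le (by positivity)
  have hM0y2 : y / 2 ≤ M0 := by
    have := Nat.lt_floor_add_one y
    rw [← hM0] at this
    linarith
  have hMX2 : ε * X / 2 ≤ M := by
    have := Nat.lt_floor_add_one (ε * X)
    rw [← hM] at this
    linarith
  have hXl : 4 * (1 + (Q : ℝ)) ≤ X := by
    have h1 : 2 ≤ ε * X := by linarith
    rw [hε, div_mul_eq_mul_div, one_mul, le_div_iff₀ (by positivity)] at h1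
    nlinarith
  set t0 : ℕ := ⌈X / (4 * Q)⌉₊ with ht0
  have hQpos : (0 : ℝ) < Q := by linarith
  have ht01 : X / 4 ≤ Q * t0 := by
    have h1 : X / (4 * Q) ≤ t0 := Nat.le_ceil _
    rw [div_le_iff₀ (by positivity)] at h1
    linarith
  have ht02 : Q * (t0 : ℝ) ≤ X / 4 + Q := by
    have h1 : (t0 : ℝ) < X / (4 * Q) + 1 := Nat.ceil_lt_add_one (by positivity)
    have h2 := mul_lt_mul_of_pos_left h1 hQpos
    have h3 : (Q : ℝ) * (X / (4 * Q) + 1) = X / 4 + Q := by field_simp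
    linarith
  set N0 : 𝓞 K := 1 + (Q : 𝓞 K) * t0 with hN0
  have hN0m : (N0 - 1) ∈ Ideal.span {(Q : 𝓞 K)} := by
    rw [hN0, add_sub_cancel_left]
    exact Ideal.mul_mem_right _ _ (Ideal.mem_span_singleton_self _)
  obtain ⟨G, hG, hGc, hGg⟩ := hgood j0 j1 hj1 N0 hN0m k M0 M hM0l hM0M
    (fun i => pb (b i0) j0 (cz (b i))) (fun i => pb_ne_zero hj0 (hb0 i))
  set p : Fin (n + 1) → 𝓞 K := fun j => if j = j1 then N0 else 0 with hp
  set q : Fin (n + 1) → 𝓞 K := fun j => if j = j0 then 2 ^ k else if j = j1 then (Q : 𝓞 K) else 1 with hq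
  have hQne : (Q : 𝓞 K) ≠ 0 := by
    have : Q ≠ 0 := by omega
    exact_mod_cast this
  have hqne : ∀ j, q j ≠ 0 := by
    intro j
    rw [hq]
    simp only
    split_ifs
    · exact pow_ne_zero _ two_ne_zero
    · exact hQne
    · exact one_ne_zero
  have hcomb : ∀ (w : InfinitePlace K) (M' : ℕ) (u : BI K → ℕ), u ∈ bx1 M' →
      w ((comb u : 𝓞 K) : K) ≤ Ω * M' := by
    intro w M' u hu
    exact hΩ w u M' fun i => by exact_mod_cast (mem_bx1.mp hu i).2
  have hmemG : ∀ c' ∈ G, ∀ j, c' j ∈ bx1 (if j = j0 then M0 else M) := by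
    intro c' hc' j
    have h1 := hG hc'
    unfold bx at h1
    rw [Fintype.mem_piFinset] at h1
    exact h1 j
  have hQΩ : Q * Ω * (ε * X) = X / 8 := by
    rw [hε]; field_simp
  -- sizes of the coordinates
  have hz1 : ∀ c' ∈ G, ∀ w : InfinitePlace K, X / 8 ≤ w (cz (zz p q c') j1) ∧ w (cz (zz p q c') j1) ≤ X := by
    intro c' hc' w
    have e1 : cz (zz p q c') j1 = ((1 + Q * t0 : ℕ) : K) + ((Q : ℕ) : K) * ((comb (c' j1) : 𝓞 K) : K) := by
      unfold cz zz
      rw [hp, hq]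
      simp only [if_true, if_neg hj1]
      rw [hN0]
      refine (map_add (algebraMap (𝓞 K) K) _ _).trans ?_
      congr 1
      push_cast
      simp
    have e2 : w (((1 + Q * t0 : ℕ) : K)) = 1 + Q * t0 := by
      rw [w_natCast]; push_cast; ring
    have h1 := hmemG c' hc' j1
    rw [if_neg hj1] at h1
    have e3 : w (((Q : ℕ) : K) * ((comb (c' j1) : 𝓞 K) : K)) ≤ X / 8 := by
      have h2 := hcomb w _ _ h1
      have h3 : w (((Q : ℕ) : K) * ((comb (c' j1) : 𝓞 K) : K)) = Q * w ((comb (c' j1) : 𝓞 K) : K) := by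
        rw [map_mul, w_natCast]
      rw [h3, ← hQΩ]
      calc (Q : ℝ) * w ((comb (c' j1) : 𝓞 K) : K) ≤ Q * (Ω * M) := mul_le_mul_of_nonneg_left h2 hQpos.le
        _ = Q * Ω * M := by ring
        _ ≤ Q * Ω * (ε * X) := mul_le_mul_of_nonneg_left hMX (by positivity)
    rw [e1]
    constructor
    · have h4 : w (((1 + Q * t0 : ℕ) : K)) ≤
          w (((1 + Q * t0 : ℕ) : K) + ((Q : ℕ) : K) * ((comb (c' j1) : 𝓞 K) : K)) +
            w (((Q : ℕ) : K) * ((comb (c' j1) : 𝓞 K) : K)) := by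
        calc w (((1 + Q * t0 : ℕ) : K)) = w ((((1 + Q * t0 : ℕ) : K) +
              ((Q : ℕ) : K) * ((comb (c' j1) : 𝓞 K) : K)) + -(((Q : ℕ) : K) * ((comb (c' j1) : 𝓞 K) : K))) := by
              rw [add_neg_cancel_right]
          _ ≤ w (((1 + Q * t0 : ℕ) : K) + ((Q : ℕ) : K) * ((comb (c' j1) : 𝓞 K) : K)) +
            w (-(((Q : ℕ) : K) * ((comb (c' j1) : 𝓞 K) : K))) := w.1.add_le _ _
          _ = _ := by
            congr 1
            exact w.1.map_neg _
      rw [e2] at h4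
      linarith
    · have h4 : w (((1 + Q * t0 : ℕ) : K) + ((Q : ℕ) : K) * ((comb (c' j1) : 𝓞 K) : K)) ≤
          w (((1 + Q * t0 : ℕ) : K)) + w (((Q : ℕ) : K) * ((comb (c' j1) : 𝓞 K) : K)) := w.1.add_le _ _
      rw [e2] at h4
      linarith
  have hΩle : Ω * (ε * X) ≤ X := by
    have h1 : Ω * (ε * X) ≤ Q * Ω * (ε * X) := by
      have : 0 ≤ Ω * (ε * X) := by positivity
      nlinarith
    rw [hQΩ] at h1
    linarith
  have hzX : ∀ c' ∈ G, ∀ (w : InfinitePlace K) j, w (cz (zz p q c') j) ≤ X := by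
    intro c' hc' w j
    by_cases hjj : j = j0
    · have e1 : cz (zz p q c') j = ((2 : ℕ) : K) ^ k * ((comb (c' j0) : 𝓞 K) : K) := by
        unfold cz zz
        rw [hp, hq, hjj]
        simp only [if_neg (Ne.symm hj1), if_true, zero_add]
        refine (map_mul (algebraMap (𝓞 K) K) _ _).trans ?_
        rw [map_pow, map_ofNat]
        norm_num
      have h1 := hmemG c' hc' j0
      rw [if_pos rfl] at h1
      have e2 : w (((2 : ℕ) : K) ^ k * ((comb (c' j0) : 𝓞 K) : K)) = 2 ^ k * w ((comb (c' j0) : 𝓞 K) : K) := by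
        rw [map_mul, map_pow, w_natCast]; norm_num
      rw [e1, e2]
      calc (2 : ℝ) ^ k * w ((comb (c' j0) : 𝓞 K) : K) ≤ 2 ^ k * (Ω * M0) :=
            mul_le_mul_of_nonneg_left (hcomb w _ _ h1) (by positivity)
        _ ≤ 2 ^ k * (Ω * y) := by gcongr
        _ = Ω * (ε * X) := by rw [hy]; field_simp
        _ ≤ X := hΩle
    · by_cases hjj1 : j = j1
      · rw [hjj1]
        exact (hz1 c' hc' w).2
      · have e1 : cz (zz p q c') j = ((comb (c' j) : 𝓞 K) : K) := by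
          unfold cz zz
          rw [hp, hq]
          simp only [if_neg hjj, if_neg hjj1, zero_add, one_mul]
        have h1 := hmemG c' hc' j
        rw [if_neg hjj] at h1
        rw [e1]
        calc w ((comb (c' j) : 𝓞 K) : K) ≤ Ω * M := hcomb w _ _ h1
          _ ≤ Ω * (ε * X) := by gcongr
          _ ≤ X := hΩle
  have hz1ne : ∀ c' ∈ G, zz p q c' j1 ≠ 0 := by
    intro c' hc' h0
    obtain ⟨w⟩ := (inferInstance : Nonempty (InfinitePlace K))
    have h1 := (hz1 c' hc' w).1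
    unfold cz at h1
    rw [h0] at h1
    have h2 : ((0 : 𝓞 K) : K) = 0 := map_zero _
    rw [h2, map_zero] at h1
    linarith
  -- the points
  set xx : (Fin (n + 1) → BI K → ℕ) → Fin (n + 1) → K := fun c' => cz (xo (b i0) j0 (zz p q c')) with hxx
  have hlin : ∀ c' ∈ G, ∀ i, lin (cz (b i)) (xx c') ≠ 0 := by
    intro c' hc' i
    have h1 := (hGg c' hc').1 i
    rw [← lin_pb] at h1
    exact h1
  have hxx0 : ∀ c' ∈ G, xx c' ≠ 0 := by
    intro c' hc' h
    apply hlin c' hc' i0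
    rw [h]
    unfold lin
    exact Finset.sum_eq_zero fun j _ => by rw [Pi.zero_apply, mul_zero]
  have h1ne : (fun _ => 1 : Fin (n + 1) → K) ≠ 0 := by
    intro h
    have := congrFun h 0
    simp at this
  set PP : (Fin (n + 1) → BI K → ℕ) → ℙ K (Fin (n + 1) → K) := fun c' =>
    if h : xx c' ≠ 0 then Projectivization.mk K (xx c') h else Projectivization.mk K (fun _ => 1) h1ne with hPP
  have hPPeq : ∀ c' (hc' : c' ∈ G), PP c' = Projectivization.mk K (xx c') (hxx0 c' hc') := by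
    intro c' hc'
    rw [hPP]
    exact dif_pos (hxx0 c' hc')
  have hfib : ∀ P ∈ G.image PP, (G.filter fun c' => PP c' = P).card ≤ ⌊Cm⌋₊ := by
    intro P hP
    obtain ⟨c1, hc1, rfl⟩ := Finset.mem_image.mp hP
    refine Nat.le_floor ?_
    rw [← Finset.card_image_of_injective (G.filter fun c' => PP c' = PP c1) (zz_inj p hqne)]
    refine hmult X hX0 j1 (zz p q c1) _ (hGg c1 hc1).2 (fun w => (hz1 c1 hc1 w).1) ?_ ?_ ?_
    · intro z hz w
      obtain ⟨c2, hc2, rfl⟩ := Finset.mem_image.mp hz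
      exact (hz1 c2 (Finset.mem_filter.mp hc2).1 w).2
    · intro z hz
      obtain ⟨c2, hc2, rfl⟩ := Finset.mem_image.mp hz
      exact hz1ne c2 (Finset.mem_filter.mp hc2).1
    · intro z hz
      obtain ⟨c2, hc2, rfl⟩ := Finset.mem_image.mp hz
      rw [Finset.mem_filter] at hc2
      have h1 := (hPPeq c2 hc2.1).symm.trans (hc2.2.trans (hPPeq c1 hc1))
      rw [Projectivization.mk_eq_mk_iff'] at h1
      obtain ⟨t, ht⟩ := h1
      exact ⟨t, xo_smul hj0 ht.symm⟩
  have hcardG : (G.card : ℝ) ≤ Cm * (G.image PP).card := by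
    have h1 := Finset.card_le_mul_card_image G ⌊Cm⌋₊ hfib
    have h2 : (G.card : ℝ) ≤ (⌊Cm⌋₊ : ℝ) * (G.image PP).card := by exact_mod_cast h1
    refine h2.trans (mul_le_mul_of_nonneg_right (Nat.floor_le hCm.le) (Nat.cast_nonneg _))
  have hsub : ((G.image PP : Finset (ℙ K (Fin (n + 1) → K))) : Set (ℙ K (Fin (n + 1) → K))) ⊆
      Big S a (k * (d * Real.log 2) - c0) B := by
    intro P hP
    rw [Finset.mem_coe] at hP
    obtain ⟨c1, hc1, rfl⟩ := Finset.mem_image.mp hP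
    rw [hPPeq c1 hc1]
    obtain ⟨u, hu⟩ := Projectivization.exists_smul_eq_mk_rep K (xx c1) (hxx0 c1 hc1)
    set R := Projectivization.mk K (xx c1) (hxx0 c1 hc1) with hR
    have hu' : R.rep = ((u : Kˣ) : K) • xx c1 := hu.symm
    have hu0 : ((u : Kˣ) : K) ≠ 0 := u.ne_zero
    have hxr : xx c1 = (((u : Kˣ) : K)⁻¹) • R.rep := by
      rw [hu', smul_smul, inv_mul_cancel₀ hu0, one_smul]
    have hH : mulHeight R.rep ≤ B := by
      have hmh : R.mulHeight = mulHeight R.rep := by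
        conv_lhs => rw [← R.mk_rep]
        rw [Projectivization.mulHeight_mk]
      rw [← hmh, hR, Projectivization.mulHeight_mk]
      refine (height_int (hxx0 c1 hc1) (hCH X hX0.le _ (hzX c1 hc1))).trans (le_of_eq ?_)
      rw [hX, mul_div_cancel₀ _ (by positivity : CH ≠ 0), ← Real.rpow_natCast, ← Real.rpow_mul hB0.le,
        ← hd, one_div_mul_cancel hdr.ne', Real.rpow_one]
    refine ⟨?_, hH, ?_⟩
    · intro i hi
      apply hlin c1 hc1 i
      rw [hb i, hxr, lin_smul_left, lin_smul_right, hi, mul_zero, mul_zero]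
    · obtain ⟨e1, e2⟩ := transfer S hs (inv_ne_zero hu0) hb hxr
      rw [← e1, ← e2]
      have h1 := hdef k (zz p q c1) (comb (c1 j0)) (by
        unfold zz
        rw [hp, hq]
        simp only [if_neg (Ne.symm hj1), if_true, zero_add]) (by
        intro v h2v hz
        unfold zz at hz
        rw [hp, hq] at hz
        simp only [if_true, if_neg hj1] at hz
        have hQv : (Q : 𝓞 K) ∈ v.asIdeal := by
          obtain ⟨Q', hQ'⟩ := h2Q
          rw [hQ']
          push_cast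
          exact Ideal.mul_mem_right _ _ h2v
        have h2 : (1 : 𝓞 K) ∈ v.asIdeal := by
          have h3 : (1 : 𝓞 K) = (N0 + Q * comb (c1 j1)) - Q * t0 - Q * comb (c1 j1) := by rw [hN0]; ring
          rw [h3]
          exact Ideal.sub_mem _ (Ideal.sub_mem _ hz (Ideal.mul_mem_right _ _ hQv))
            (Ideal.mul_mem_right _ _ hQv)
        exact v.isPrime.ne_top ((Ideal.eq_top_iff_one _).mpr h2)) (hlin c1 hc1)
      linarith
  obtain ⟨Mt, hMt, htail⟩ := tailT a ha S 1 one_pos le_rfl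
  have hncard : ((G.image PP).card : ℝ) ≤
      ((Big S a (k * (d * Real.log 2) - c0) B).ncard : ℝ) := by
    have h1 := Set.ncard_le_ncard hsub (htail B hB1' _).1
    rw [Set.ncard_coe_finset] at h1
    exact_mod_cast h1
  -- the size of the box
  have hbox : (ε / (2 * CH)) ^ (d * (n + 1)) * B ^ (n + 1) / (2 ^ k) ^ d ≤
      ((bx (K := K) (fun j : Fin (n + 1) => if j = j0 then M0 else M)).card : ℝ) := by
    rw [card_bx, ← Finset.mul_prod_erase univ _ (Finset.mem_univ j0)]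
    have h1 : ∏ j ∈ univ.erase j0, (if j = j0 then M0 else M) ^ d = (M ^ d) ^ n := by
      rw [Finset.prod_congr rfl fun j hj => by rw [if_neg (Finset.ne_of_mem_erase hj)], Finset.prod_const,
        Finset.card_erase_of_mem (Finset.mem_univ _), Finset.card_univ, Fintype.card_fin]
      rfl
    rw [← hd, h1, if_pos rfl]
    push_cast
    have h2 : (y / 2) ^ d * ((ε * X / 2) ^ d) ^ n ≤ (M0 : ℝ) ^ d * ((M : ℝ) ^ d) ^ n := by
      gcongr
    refine le_trans ?_ h2
    have h3 : X ^ d = B / CH ^ d := by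
      rw [hX, div_pow, ← Real.rpow_natCast (B ^ (1 / (d : ℝ))), ← Real.rpow_mul hB0.le,
        one_div_mul_cancel hdr.ne', Real.rpow_one]
    have h4 : (y / 2) ^ d * ((ε * X / 2) ^ d) ^ n = (ε / (2 * CH)) ^ (d * (n + 1)) * B ^ (n + 1) / (2 ^ k) ^ d := by
      have e1 : (y / 2) ^ d = (ε / 2) ^ d * X ^ d / (2 ^ k) ^ d := by
        rw [hy, ← mul_pow, ← div_pow]
        congr 1
        ring
      have e2 : (ε * X / 2) ^ d = (ε / 2) ^ d * X ^ d := by
        rw [← mul_pow]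
        congr 1
        ring
      rw [e1, e2, h3]
      have e3 : (ε / (2 * CH)) ^ (d * (n + 1)) = ((ε / 2) ^ d / CH ^ d) ^ (n + 1) := by
        rw [pow_mul, ← div_pow]
        congr 2
        field_simp
      rw [e3]
      rw [show (ε / 2) ^ d * (B / CH ^ d) = (ε / 2) ^ d / CH ^ d * B by ring]
      rw [mul_pow ((ε / 2) ^ d / CH ^ d) B n, pow_succ, pow_succ]
      ring
    rw [h4]
  set NN : ℝ := ((Big S a (k * (d * Real.log 2) - c0) B).ncard : ℝ) with hNN
  have hfinal : (ε / (2 * CH)) ^ (d * (n + 1)) * B ^ (n + 1) / (2 ^ k) ^ d / 2 ≤ Cm * NN := by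
    have h1 : Cm * ((G.image PP).card : ℝ) ≤ Cm * NN :=
      mul_le_mul_of_nonneg_left hncard hCm.le
    linarith
  calc (ε / (2 * CH)) ^ (d * (n + 1)) / (2 * Cm) * B ^ (n + 1) / (2 ^ k) ^ d
      = (ε / (2 * CH)) ^ (d * (n + 1)) * B ^ (n + 1) / (2 ^ k) ^ d / 2 / Cm := by
        field_simp
    _ ≤ Cm * NN / Cm := by gcongr
    _ = _ := by field_simp

end Pool.Agent.L5helper9.Arr
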