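import Pool.Agent.N906.EQ.Mom

/-!
# Limit laws with exponential tails

General facts: from the convergence of the averages of bounded functions and from bounds for the
number of points with a large value we obtain the convergence of all moments and bounds for the tail
of the limit.
-/

set_option autoImplicit false
set_option linter.unusedSectionVars false

namespace Pool.Agent.L5helper9.Arr

open Finset Filter Topology MeasureTheory
open Pool.Agent.N906.EQ (SS ss_one ss_mono ss_abs_le ss_nonneg rmp rmp_nonneg rmp_le_one rmp_one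
  rmp_zero rmp_continuous ss_summable extend_w tail_pow exp_int Tail)

/-- the number of the points with value at least `t` as a sum -/
theorem ss_ind' {Ω : Type} {ρ E : Ω → ℝ} (hfin : ∀ B : ℝ, {P | ρ P ≤ B}.Finite) (t B : ℝ) :
    SS ρ E (fun s => if t ≤ s then 1 else 0) B = ({P | ρ P ≤ B ∧ t ≤ E P}.ncard : ℝ) := by
  classical
  have hf : {P | ρ P ≤ B ∧ t ≤ E P}.Finite := (hfin B).subset fun P hP => hP.1
  unfold SS
  rw [tsum_eq_sum (s := hf.toFinset), Set.ncard_eq_toFinset_card _ hf]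
  · have h2 : ∀ P ∈ hf.toFinset, (if ρ P ≤ B then (if t ≤ E P then (1 : ℝ) else 0)
        else 0) = 1 := by
      intro P hP
      obtain ⟨g1, g2⟩ := hf.mem_toFinset.1 hP
      rw [if_pos g1, if_pos g2]
    rw [Finset.sum_congr rfl h2, Finset.sum_const, nsmul_eq_mul, mul_one]
  · intro P hP
    by_cases g1 : ρ P ≤ B
    · rw [if_pos g1]
      exact if_neg fun g2 => hP (hf.mem_toFinset.2 ⟨g1, g2⟩)
    · rw [if_neg g1]

theorem ss_finsum' {Ω : Type} {ρ E : Ω → ℝ} (hfin : ∀ B : ℝ, {P | ρ P ≤ B}.Finite) (f : ℝ → ℝ)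
    (B : ℝ) : SS ρ E f B = ∑ᶠ P ∈ {P | ρ P ≤ B}, f (E P) := by
  classical
  rw [finsum_mem_eq_finite_toFinset_sum _ (hfin B)]
  unfold SS
  rw [tsum_eq_sum (s := (hfin B).toFinset)]
  · refine Finset.sum_congr rfl fun P hP => ?_
    exact if_pos ((hfin B).mem_toFinset.1 hP)
  · intro P hP
    exact if_neg fun g => hP ((hfin B).mem_toFinset.2 g)

theorem rmp_bd' (c : ℝ) : ∃ M : ℝ, ∀ x : ℝ, |rmp (x - c)| ≤ M :=
  ⟨1, fun x => by rw [abs_of_nonneg (rmp_nonneg _)]; exact rmp_le_one _⟩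

theorem rmp_cont' (c : ℝ) : Continuous fun x : ℝ => rmp (x - c) :=
  rmp_continuous.comp (by fun_prop)

theorem rmp_int' {μ : Measure ℝ} [IsFiniteMeasure μ] (c : ℝ) :
    Integrable (fun x : ℝ => rmp (x - c)) μ :=
  (integrable_const (1 : ℝ)).mono' (rmp_cont' c).aestronglyMeasurable
    (Eventually.of_forall fun x => by
      rw [Real.norm_eq_abs, abs_of_nonneg (rmp_nonneg _)]
      exact rmp_le_one _)

theorem real_Ici (μ : Measure ℝ) (t : ℝ) :
    μ.real (Set.Ici t) = ∫ x, (Set.Ici t).indicator (fun _ => (1 : ℝ)) x ∂μ := by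
  rw [integral_indicator_const _ measurableSet_Ici, smul_eq_mul, mul_one]

theorem Ici_le {μ : Measure ℝ} [IsFiniteMeasure μ] (t : ℝ) :
    μ.real (Set.Ici (t + 1)) ≤ ∫ x, rmp (x - t) ∂μ := by
  rw [real_Ici]
  refine integral_mono ((integrable_const (1 : ℝ)).indicator measurableSet_Ici) (rmp_int' _)
    fun x => ?_
  by_cases hx : x ∈ Set.Ici (t + 1)
  · rw [Set.indicator_of_mem hx]
    rw [Set.mem_Ici] at hx
    exact (rmp_one (by linarith)).ge
  · rw [Set.indicator_of_notMem hx]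
    exact rmp_nonneg _

theorem le_Ici {μ : Measure ℝ} [IsFiniteMeasure μ] (t : ℝ) :
    ∫ x, rmp (x - t) ∂μ ≤ μ.real (Set.Ici t) := by
  rw [real_Ici]
  refine integral_mono (rmp_int' _) ((integrable_const (1 : ℝ)).indicator measurableSet_Ici)
    fun x => ?_
  by_cases hx : x ∈ Set.Ici t
  · rw [Set.indicator_of_mem hx]
    exact rmp_le_one _
  · rw [Set.indicator_of_notMem hx]
    rw [Set.mem_Ici, not_le] at hx
    exact (rmp_zero (by linarith)).le

section

variable {Ω : Type} {ρ E : Ω → ℝ} {D : ℝ}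

/-- convergence of the averages of bounded functions -/
def LimS (ρ E : Ω → ℝ) (D : ℝ) (μ : Measure ℝ) : Prop :=
  ∀ f : ℝ → ℝ, Continuous f → (∃ M : ℝ, ∀ x, |f x| ≤ M) →
    Tendsto (fun B : ℝ => SS ρ E f B / B ^ D) atTop (𝓝 (∫ x, f x ∂μ))

theorem gen_up {μ : Measure ℝ} (hfin : ∀ B : ℝ, {P | ρ P ≤ B}.Finite) (hμ : LimS ρ E D μ)
    {t M : ℝ} (h : ∀ ε : ℝ, 0 < ε → ∀ᶠ B : ℝ in atTop,
      ({P | ρ P ≤ B ∧ t ≤ E P}.ncard : ℝ) ≤ (M + ε) * B ^ D) : ∫ x, rmp (x - t) ∂μ ≤ M := by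
  refine le_of_forall_pos_le_add fun ε hε => ?_
  refine le_of_tendsto (hμ _ (rmp_cont' t) (rmp_bd' t)) ?_
  filter_upwards [h ε hε, eventually_gt_atTop 0] with B h1 hB
  rw [div_le_iff₀ (Real.rpow_pos_of_pos hB _)]
  have h2 := ss_abs_le (ρ := ρ) (E := E) hfin (f := fun x => rmp (x - t)) (M := 1) (t := t)
    zero_le_one (fun P => by rw [abs_of_nonneg (rmp_nonneg _)]; exact rmp_le_one _)
    (fun P hP => rmp_zero (by linarith)) B
  rw [one_mul] at h2
  exact (le_abs_self _).trans (h2.trans h1)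

theorem gen_low {μ : Measure ℝ} (hfin : ∀ B : ℝ, {P | ρ P ≤ B}.Finite) (hμ : LimS ρ E D μ)
    {t M : ℝ} (h : ∀ᶠ B : ℝ in atTop, M * B ^ D ≤ ({P | ρ P ≤ B ∧ t + 1 ≤ E P}.ncard : ℝ)) :
    M ≤ ∫ x, rmp (x - t) ∂μ := by
  refine ge_of_tendsto (hμ _ (rmp_cont' t) (rmp_bd' t)) ?_
  filter_upwards [h, eventually_gt_atTop 0] with B h1 hB
  rw [le_div_iff₀ (Real.rpow_pos_of_pos hB _)]
  refine h1.trans ?_
  rw [← ss_ind' hfin]
  refine ss_mono hfin (fun x => ?_) B
  split_ifs with hx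
  · exact (rmp_one (by linarith)).ge
  · exact rmp_nonneg _

/-- the limit of nonnegative values is supported on the nonnegative numbers -/
theorem gen_supp {μ : Measure ℝ} [IsFiniteMeasure μ] (hμ : LimS ρ E D μ)
    (hE : ∀ P, 0 ≤ E P) : μ (Set.Iio 0) = 0 := by
  have h1 : ∀ k : ℕ, μ (Set.Iic (-(1 / ((k : ℝ) + 1)))) = 0 := by
    intro k
    have hk : (0 : ℝ) < (k : ℝ) + 1 := by positivity
    set f : ℝ → ℝ := fun x => rmp (-((k + 1) * x)) with hf
    have hfc : Continuous f := rmp_continuous.comp (by fun_prop)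
    have hfb : ∀ x, |f x| ≤ 1 := fun x => by
      rw [abs_of_nonneg (rmp_nonneg _)]; exact rmp_le_one _
    have h2 := hμ f hfc ⟨1, hfb⟩
    have h3 : ∀ B : ℝ, SS ρ E f B = 0 := by
      intro B
      unfold SS
      have : ∀ P, (if ρ P ≤ B then f (E P) else 0) = 0 := by
        intro P
        have h4 : f (E P) = 0 := rmp_zero (by
          have := mul_nonneg hk.le (hE P)
          linarith)
        rw [h4, ite_self]
      simp only [this, tsum_zero]
    simp only [h3, zero_div] at h2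
    have h4 : ∫ x, f x ∂μ = 0 := tendsto_nhds_unique h2 tendsto_const_nhds
    have h5 : μ.real (Set.Iic (-(1 / ((k : ℝ) + 1)))) ≤ ∫ x, f x ∂μ := by
      have e1 : μ.real (Set.Iic (-(1 / ((k : ℝ) + 1)))) =
          ∫ x, (Set.Iic (-(1 / ((k : ℝ) + 1)))).indicator (fun _ => (1 : ℝ)) x ∂μ := by
        rw [integral_indicator_const _ measurableSet_Iic, smul_eq_mul, mul_one]
      rw [e1]
      refine integral_mono ((integrable_const (1 : ℝ)).indicator measurableSet_Iic)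
        (Integrable.of_bound hfc.aestronglyMeasurable 1 (Eventually.of_forall fun x => hfb x))
        fun x => ?_
      by_cases hx : x ∈ Set.Iic (-(1 / ((k : ℝ) + 1)))
      · rw [Set.indicator_of_mem hx]
        rw [Set.mem_Iic] at hx
        refine (rmp_one ?_).ge
        have h6 := mul_le_mul_of_nonneg_left hx hk.le
        have h7 : ((k : ℝ) + 1) * (-(1 / ((k : ℝ) + 1))) = -1 := by
          field_simp
        linarith
      · rw [Set.indicator_of_notMem hx]
        exact rmp_nonneg _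
    rw [h4] at h5
    have h6 : μ.real (Set.Iic (-(1 / ((k : ℝ) + 1)))) = 0 :=
      le_antisymm h5 measureReal_nonneg
    rw [measureReal_eq_zero_iff] at h6
    exact h6
  have h2 : Set.Iio (0 : ℝ) ⊆ ⋃ k : ℕ, Set.Iic (-(1 / ((k : ℝ) + 1))) := by
    intro x hx
    rw [Set.mem_Iio] at hx
    obtain ⟨k, hk⟩ := exists_nat_one_div_lt (show 0 < -x by linarith)
    rw [Set.mem_iUnion]
    exact ⟨k, by rw [Set.mem_Iic]; linarith⟩
  refine measure_mono_null h2 ?_
  rw [measure_iUnion_null_iff]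
  exact h1

/-- the hypotheses on the number of points -/
structure Cnt (ρ E : Ω → ℝ) (D : ℝ) : Prop where
  pos : ∀ P, 0 < ρ P
  fin : ∀ B : ℝ, {P | ρ P ≤ B}.Finite
  nonneg : ∀ P, 0 ≤ E P
  up : ∃ κ C : ℝ, 0 ≤ κ ∧ 0 ≤ C ∧ ∀ P, ∀ B : ℝ, 1 ≤ B → ρ P ≤ B → E P ≤ κ * Real.log B + C
  upper : ∀ δ : ℝ, 0 < δ → δ < 1 → ∃ C ν : ℝ, 0 ≤ C ∧ 0 < ν ∧ ∀ B t : ℝ, 1 ≤ B → 0 ≤ t →
    ({P | ρ P ≤ B ∧ t ≤ E P}.ncard : ℝ) ≤ C * (Real.exp (-((1 - δ) * t)) + B ^ (-ν)) * B ^ D
  lower : ∃ c : ℝ, 0 < c ∧ ∀ t : ℝ, 0 ≤ t → ∀ᶠ B : ℝ in atTop,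
    c * Real.exp (-t) * B ^ D ≤ ({P | ρ P ≤ B ∧ t ≤ E P}.ncard : ℝ)

/-- the tail is controlled -/
theorem Cnt.tail (h : Cnt ρ E D) : Tail ρ E D 0 := by
  refine ⟨h.fin, fun P => by rw [neg_zero]; exact h.nonneg P, fun ε hε => ?_⟩
  obtain ⟨C, ν, hC, hν, hup⟩ := h.upper (1 / 2) (by norm_num) (by norm_num)
  have h1 : Tendsto (fun t : ℝ => C * Real.exp (-((1 - 1 / 2) * t))) atTop (𝓝 (C * 0)) := by
    refine Tendsto.const_mul _ (Real.tendsto_exp_neg_atTop_nhds_zero.comp ?_)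
    exact tendsto_id.const_mul_atTop (by norm_num)
  have h2 : Tendsto (fun B : ℝ => C * B ^ (-ν)) atTop (𝓝 (C * 0)) :=
    (tendsto_rpow_neg_atTop hν).const_mul _
  rw [mul_zero] at h1 h2
  obtain ⟨t, ht1, ht2⟩ := ((h1.eventually (ge_mem_nhds (half_pos hε))).and
    (eventually_ge_atTop 0)).exists
  refine ⟨t, ?_⟩
  filter_upwards [h2.eventually (ge_mem_nhds (half_pos hε)), eventually_ge_atTop 1] with B hB1 hB2
  refine (hup B t hB2 ht2).trans ?_
  refine mul_le_mul_of_nonneg_right ?_ (Real.rpow_nonneg (by linarith) _)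
  rw [mul_add]
  linarith

theorem gen_rmp (h : Cnt ρ E D) {μ : Measure ℝ} (hμ : LimS ρ E D μ) {δ : ℝ} (hδ : 0 < δ)
    (hδ1 : δ < 1) : ∃ C : ℝ, 0 ≤ C ∧ ∀ t : ℝ, 0 ≤ t →
      ∫ x, rmp (x - t) ∂μ ≤ C * Real.exp (-((1 - δ) * t)) := by
  obtain ⟨C, ν, hC, hν, hup⟩ := h.upper δ hδ hδ1
  refine ⟨C, hC, fun t ht => gen_up h.fin hμ fun ε hε => ?_⟩
  have h2 : Tendsto (fun B : ℝ => C * B ^ (-ν)) atTop (𝓝 (C * 0)) :=
    (tendsto_rpow_neg_atTop hν).const_mul _
  rw [mul_zero] at h2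
  filter_upwards [h2.eventually (ge_mem_nhds hε), eventually_ge_atTop 1] with B hB1 hB2
  refine (hup B t hB2 ht).trans ?_
  refine mul_le_mul_of_nonneg_right ?_ (Real.rpow_nonneg (by linarith) _)
  rw [mul_add]
  linarith

theorem gen_exp (h : Cnt ρ E D) {μ : Measure ℝ} [IsFiniteMeasure μ] (hμ : LimS ρ E D μ) {b : ℝ}
    (hb : b < 1) : Integrable (fun s => Real.exp (b * s)) μ := by
  rcases le_total 0 b with hb0 | hb0
  · obtain ⟨δ, hδ⟩ : ∃ δ : ℝ, δ = (1 - b) / 2 := ⟨_, rfl⟩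
    obtain ⟨C, hC, h1⟩ := gen_rmp h hμ (δ := δ) (by rw [hδ]; linarith) (by rw [hδ]; linarith)
    refine exp_int (κ := 0) (a := 1 - δ) (C := C) le_rfl (by rw [hδ]; linarith) hC ?_ ?_ hb0
      (by rw [hδ]; linarith)
    · simp
    · intro n
      have h2 := h1 n (Nat.cast_nonneg n)
      simpa using h2
  · have h0 := gen_supp hμ h.nonneg
    refine (integrable_const (1 : ℝ)).mono' (by fun_prop) ?_
    have h1 : ∀ᵐ x ∂μ, x ∉ Set.Iio (0 : ℝ) := measure_eq_zero_iff_ae_notMem.1 h0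
    filter_upwards [h1] with x hx
    rw [Set.mem_Iio, not_lt] at hx
    rw [Real.norm_of_nonneg (Real.exp_pos _).le]
    exact Real.exp_le_one_iff.2 (mul_nonpos_of_nonpos_of_nonneg hb0 hx)

/-- powers are bounded by exponentials -/
lemma pow_le_exp (k : ℕ) {s : ℝ} (hs : 0 ≤ s) :
    (1 + |s|) ^ k ≤ 2 ^ k * k.factorial * Real.exp 1 * Real.exp (1 / 2 * s) := by
  rw [abs_of_nonneg hs]
  have h1 := Real.pow_div_factorial_le_exp ((1 + s) / 2) (by positivity) k
  have hf : (0 : ℝ) < k.factorial := by exact_mod_cast Nat.factorial_pos k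
  rw [div_le_iff₀ hf, div_pow, div_le_iff₀ (by positivity)] at h1
  refine h1.trans ?_
  have h2 : Real.exp ((1 + s) / 2) ≤ Real.exp 1 * Real.exp (1 / 2 * s) := by
    rw [← Real.exp_add]
    apply Real.exp_le_exp.2
    linarith
  calc Real.exp ((1 + s) / 2) * k.factorial * 2 ^ k
      ≤ (Real.exp 1 * Real.exp (1 / 2 * s)) * k.factorial * 2 ^ k := by gcongr
    _ = _ := by ring

theorem gen_pow (h : Cnt ρ E D) {μ : Measure ℝ} [IsFiniteMeasure μ] (hμ : LimS ρ E D μ) (A : ℝ)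
    (k : ℕ) : Integrable (fun s => A * (1 + |s|) ^ k) μ := by
  have h1 := (gen_exp h hμ (b := 1 / 2) (by norm_num)).const_mul
    (|A| * (2 ^ k * k.factorial * Real.exp 1))
  refine h1.mono' (by fun_prop) ?_
  have h2 : ∀ᵐ x ∂μ, x ∉ Set.Iio (0 : ℝ) :=
    measure_eq_zero_iff_ae_notMem.1 (gen_supp hμ h.nonneg)
  filter_upwards [h2] with x hx
  rw [Set.mem_Iio, not_lt] at hx
  rw [norm_mul, Real.norm_eq_abs, Real.norm_of_nonneg (by positivity), mul_assoc]
  exact mul_le_mul_of_nonneg_left (pow_le_exp k hx) (abs_nonneg _)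

/-- **Functions of polynomial growth.** -/
theorem gen_poly (h : Cnt ρ E D) {μ : Measure ℝ} [IsFiniteMeasure μ] (hμ : LimS ρ E D μ)
    {f : ℝ → ℝ} (hf : Continuous f) {A : ℝ} {k : ℕ} (hfA : ∀ s, |f s| ≤ A * (1 + |s|) ^ k) :
    Integrable f μ ∧ Tendsto (fun B : ℝ => SS ρ E f B / B ^ D) atTop (𝓝 (∫ x, f x ∂μ)) := by
  have hA : 0 ≤ A := by
    have h1 := (abs_nonneg _).trans (hfA 0)
    simpa using h1
  have hW := gen_pow h hμ A k
  refine ⟨hW.mono' hf.aestronglyMeasurable (Eventually.of_forall fun s => hfA s), ?_⟩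
  obtain ⟨κ, C', hκ, hC', hE⟩ := h.up
  obtain ⟨C, ν, hC, hν, hup⟩ := h.upper (1 / 2) (by norm_num) (by norm_num)
  refine extend_w (c₀ := 0) h.fin (fun P => by rw [neg_zero]; exact h.nonneg P) hμ
    (W := fun s => A * (1 + |s|) ^ k) (fun s => by positivity) hW ?_ hf hfA
  intro ε hε
  obtain ⟨t', ht'⟩ := tail_pow (ρ := ρ) (E := fun P => E P - C') (D := D) (c₀ := 0) (C := C)
    (a := 1 - 1 / 2) (ν := ν) (κ := κ) h.fin (by norm_num) hν hC hκ
    (fun P B hB hP => by
      have := hE P B hB hP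
      linarith)
    (fun B t hB ht => by
      have h1 := hup B (t + C') hB (by linarith)
      have h2 : {P | ρ P ≤ B ∧ t ≤ E P - C'} = {P | ρ P ≤ B ∧ t + C' ≤ E P} := by
        ext P
        simp only [Set.mem_ofPred_eq]
        constructor
        · rintro ⟨g1, g2⟩
          exact ⟨g1, by linarith⟩
        · rintro ⟨g1, g2⟩
          exact ⟨g1, by linarith⟩
      rw [h2]
      refine h1.trans ?_
      have h3 : Real.exp (-((1 - 1 / 2) * (t + C'))) ≤ Real.exp (-((1 - 1 / 2) * t)) := by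
        apply Real.exp_le_exp.2
        linarith
      have h4 : 0 ≤ B ^ D := Real.rpow_nonneg (by linarith) _
      gcongr) k (A * (1 + C') ^ k) (by positivity) ε hε
  refine ⟨t' + C', ?_⟩
  filter_upwards [ht'] with B hB
  refine le_trans ?_ hB
  have h1 : SS ρ (fun P => E P - C') (fun s => if t' ≤ s then
      A * (1 + C') ^ k * (1 + |s|) ^ k else 0) B =
      SS ρ E (fun s => if t' ≤ s - C' then A * (1 + C') ^ k * (1 + |s - C'|) ^ k else 0) B := rfl
  rw [h1]
  refine ss_mono h.fin (fun s => ?_) B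
  by_cases hs : t' + C' ≤ s
  · rw [if_pos hs, if_pos (by linarith), mul_assoc, ← mul_pow]
    refine mul_le_mul_of_nonneg_left (pow_le_pow_left₀ (by positivity) ?_ _) hA
    have h2 : |s| ≤ |s - C'| + C' := by
      have := abs_add_le (s - C') C'
      rw [sub_add_cancel, abs_of_nonneg hC'] at this
      exact this
    have h3 : 0 ≤ C' * |s - C'| := by positivity
    linarith
  · rw [if_neg hs]
    split_ifs
    · positivity
    · exact le_rfl

/-- the normalised measure -/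
noncomputable def nrm' (μ : Measure ℝ) : Measure ℝ := (μ Set.univ)⁻¹ • μ

theorem nrm_prob' {μ : Measure ℝ} [IsFiniteMeasure μ] (h : 0 < μ.real Set.univ) :
    IsProbabilityMeasure (nrm' μ) := by
  constructor
  unfold nrm'
  rw [Measure.smul_apply, smul_eq_mul]
  refine ENNReal.inv_mul_cancel ?_ (measure_ne_top _ _)
  intro h0
  rw [measureReal_def, h0] at h
  simp at h

theorem nrm_integral' {μ : Measure ℝ} (f : ℝ → ℝ) :
    ∫ x, f x ∂(nrm' μ) = (∫ x, f x ∂μ) / μ.real Set.univ := by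
  unfold nrm'
  rw [integral_smul_measure, ENNReal.toReal_inv, smul_eq_mul, measureReal_def]
  ring

theorem nrm_real' {μ : Measure ℝ} (s : Set ℝ) :
    (nrm' μ).real s = (μ.real Set.univ)⁻¹ * μ.real s := by
  unfold nrm'
  rw [measureReal_def, Measure.smul_apply, smul_eq_mul, ENNReal.toReal_mul, ENNReal.toReal_inv]
  rfl

/-- a heavy tail excludes exponential moments -/
theorem not_exp {μ : Measure ℝ} [IsFiniteMeasure μ] {c : ℝ} (hc : 0 < c)
    (h : ∀ t : ℝ, 0 ≤ t → c * Real.exp (-t) ≤ μ.real (Set.Ici t)) {b : ℝ} (hb : 1 ≤ b) :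
    ¬ Integrable (fun s => Real.exp (b * s)) μ := by
  intro hi
  have h1 : Tendsto (fun n : ℕ => ∫ x in Set.Ici (n : ℝ), Real.exp (b * x) ∂μ) atTop (𝓝 0) := by
    have h2 : Antitone fun n : ℕ => Set.Ici (n : ℝ) := by
      intro n m hnm
      exact Set.Ici_subset_Ici.2 (by exact_mod_cast hnm)
    have h3 := tendsto_setIntegral_of_antitone (μ := μ) (f := fun x => Real.exp (b * x))
      (fun n : ℕ => measurableSet_Ici) h2 ⟨0, hi.integrableOn⟩
    have h4 : (⋂ n : ℕ, Set.Ici (n : ℝ)) = ∅ := by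
      rw [Set.eq_empty_iff_forall_notMem]
      intro x hx
      rw [Set.mem_iInter] at hx
      obtain ⟨n, hn⟩ := exists_nat_gt x
      exact absurd (hx n) (not_le.2 hn)
    rw [h4, setIntegral_empty] at h3
    exact h3
  have h2 : ∀ n : ℕ, c ≤ ∫ x in Set.Ici (n : ℝ), Real.exp (b * x) ∂μ := by
    intro n
    have hn : (0 : ℝ) ≤ n := Nat.cast_nonneg n
    have h3 := h n hn
    have h4 : Real.exp n * μ.real (Set.Ici (n : ℝ)) ≤ ∫ x in Set.Ici (n : ℝ), Real.exp (b * x) ∂μ := by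
      have h5 : Real.exp n * μ.real (Set.Ici (n : ℝ)) =
          ∫ _x in Set.Ici (n : ℝ), Real.exp n ∂μ := by
        rw [setIntegral_const, smul_eq_mul, mul_comm]
      rw [h5]
      refine setIntegral_mono_on (integrable_const _) hi.integrableOn measurableSet_Ici ?_
      intro x hx
      rw [Set.mem_Ici] at hx
      apply Real.exp_le_exp.2
      nlinarith
    refine le_trans ?_ h4
    have h5 := mul_le_mul_of_nonneg_left h3 (Real.exp_pos (n : ℝ)).le
    refine le_trans (le_of_eq ?_) h5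
    rw [mul_left_comm, ← Real.exp_add, add_neg_cancel, Real.exp_zero, mul_one]
  have h3 := ge_of_tendsto' h1 h2
  linarith

/-- **The final form of the limit law.** -/
theorem gen_final (h : Cnt ρ E D) {μ : Measure ℝ} [IsFiniteMeasure μ] (hμ : LimS ρ E D μ) :
    ∃ ν : Measure ℝ, IsProbabilityMeasure ν ∧ ν (Set.Iio 0) = 0 ∧
      (∀ f : ℝ → ℝ, Continuous f → (∃ (A : ℝ) (k : ℕ), ∀ s, |f s| ≤ A * (1 + |s|) ^ k) →
        Integrable f ν ∧
        Tendsto (fun B : ℝ => SS ρ E f B / ({P | ρ P ≤ B}.ncard : ℝ)) atTop (𝓝 (∫ x, f x ∂ν))) ∧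
      (∃ c : ℝ, 0 < c ∧ ∀ t : ℝ, 0 ≤ t → c * Real.exp (-t) ≤ ν.real (Set.Ici t)) ∧
      (∀ δ : ℝ, 0 < δ → ∃ C : ℝ, ∀ t : ℝ, 0 ≤ t →
        ν.real (Set.Ici t) ≤ C * Real.exp (-((1 - δ) * t))) ∧
      ∀ b : ℝ, Integrable (fun s => Real.exp (b * s)) ν ↔ b < 1 := by
  obtain ⟨c, hc, hlow⟩ := h.lower
  have hlow' : ∀ t : ℝ, 0 ≤ t → c * Real.exp (-(t + 1)) ≤ μ.real (Set.Ici t) := by
    intro t ht
    exact (gen_low h.fin hμ (hlow (t + 1) (by linarith))).trans (le_Ici t)
  have hmass : 0 < μ.real Set.univ :=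
    lt_of_lt_of_le (by positivity) ((hlow' 0 le_rfl).trans (measureReal_mono (Set.subset_univ _)))
  have hprob := nrm_prob' hmass
  have hlowν : ∃ c : ℝ, 0 < c ∧ ∀ t : ℝ, 0 ≤ t → c * Real.exp (-t) ≤ (nrm' μ).real (Set.Ici t) := by
    refine ⟨(μ.real Set.univ)⁻¹ * (c * Real.exp (-1)), by positivity, fun t ht => ?_⟩
    rw [nrm_real']
    have h1 := mul_le_mul_of_nonneg_left (hlow' t ht) (inv_pos.2 hmass).le
    refine le_trans (le_of_eq ?_) h1
    rw [neg_add, Real.exp_add]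
    ring
  refine ⟨nrm' μ, hprob, ?_, ?_, hlowν, ?_, ?_⟩
  · unfold nrm'
    rw [Measure.smul_apply, gen_supp hμ h.nonneg, smul_zero]
  · rintro f hf ⟨A, k, hA⟩
    obtain ⟨h1, h2⟩ := gen_poly h hμ hf hA
    refine ⟨h1.smul_measure (ENNReal.inv_ne_top.2 ?_), ?_⟩
    · intro h0
      rw [measureReal_def, h0] at hmass
      simp at hmass
    · rw [nrm_integral']
      have h3 := hμ (fun _ => 1) continuous_const ⟨1, fun _ => by simp⟩
      rw [integral_const, smul_eq_mul, mul_one] at h3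
      refine (h2.div h3 hmass.ne').congr' ?_
      filter_upwards [eventually_gt_atTop 0] with B hB
      rw [Pi.div_apply, div_div_div_cancel_right₀ (Real.rpow_pos_of_pos hB _).ne', ss_one h.fin]
  · intro δ hδ
    by_cases hδ1 : δ < 1
    · obtain ⟨C, hC, h1⟩ := gen_rmp h hμ hδ hδ1
      refine ⟨(μ.real Set.univ)⁻¹ * ((C + μ.real Set.univ) * Real.exp 1), fun t ht => ?_⟩
      rw [nrm_real', mul_assoc]
      refine mul_le_mul_of_nonneg_left ?_ (inv_pos.2 hmass).le
      rw [mul_assoc, ← Real.exp_add]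
      rcases le_total t 1 with ht1 | ht1
      · have h2 : μ.real (Set.Ici t) ≤ μ.real Set.univ := measureReal_mono (Set.subset_univ _)
        have h3 : 1 ≤ Real.exp (1 + -((1 - δ) * t)) := by
          apply Real.one_le_exp
          nlinarith
        have h4 : 0 ≤ C + μ.real Set.univ := by linarith
        nlinarith
      · have h2 := (Ici_le (μ := μ) (t - 1)).trans (h1 (t - 1) (by linarith))
        rw [sub_add_cancel] at h2
        refine h2.trans ?_
        have h3 : Real.exp (-((1 - δ) * (t - 1))) ≤ Real.exp (1 + -((1 - δ) * t)) := by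
          apply Real.exp_le_exp.2
          nlinarith
        have h4 := mul_le_mul_of_nonneg_left h3 hC
        refine h4.trans ?_
        refine mul_le_mul_of_nonneg_right ?_ (Real.exp_pos _).le
        linarith
    · refine ⟨1, fun t ht => ?_⟩
      rw [one_mul]
      have h2 : (nrm' μ).real (Set.Ici t) ≤ 1 := by
        have := measureReal_mono (μ := nrm' μ) (Set.subset_univ (Set.Ici t))
        rw [probReal_univ] at this
        exact this
      refine h2.trans (Real.one_le_exp ?_)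
      have := mul_nonneg (show 0 ≤ δ - 1 by linarith [not_lt.1 hδ1]) ht
      linarith
  · intro b
    constructor
    · intro hi
      by_contra hb
      obtain ⟨c', hc', h1⟩ := hlowν
      exact not_exp hc' h1 (not_lt.1 hb) hi
    · intro hb
      refine (gen_exp h hμ hb).smul_measure (ENNReal.inv_ne_top.2 ?_)
      intro h0
      rw [measureReal_def, h0] at hmass
      simp at hmass

end

end Pool.Agent.L5helper9.Arr
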