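import Pool.Agent.L5helper9.Arr3
import Pool.Agent.L5helper9.Arr5
import Pool.Agent.L5helper9.Arr6

/-!
# The limit law of the defect of a hyperplane arrangement
-/

set_option autoImplicit false
set_option linter.unusedSectionVars false

namespace Pool.Agent.L5helper9.Arr

open NumberField NumberField.InfinitePlace IsDedekindDomain Module Finset Filter Topology
  Pool.Agent.TH876.Loc MeasureTheory
open Pool.Agent.H691R3 hiding lam
open Pool.Agent.N906.EQ (Om rho rho_pos rho_le_iff lfK kv SS count_le sum_loc lamI_ge lamF_nonneg'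
  lamF_finite lamF)
open Pool.Agent.W232.VA (lin lam wt wt_att le_wt hW N1 cz transfer exists_scale exists_T wt_zero
  lam_fin_nonneg indep_smul indep_singleton wt_nonneg log_Nv_le_wt)

section

variable {K : Type} [Field K] [NumberField K] {n r : ℕ}

/-- the defect at the points off the arrangement -/
noncomputable def EA (S : Finset (Pr K)) (a : Fin r → Fin (n + 1) → K) (P : Om a) : ℝ :=
  Ed S a P.1.rep

lemma lin_ne {a : Fin r → Fin (n + 1) → K} (P : Om a) (i : Fin r) : lin (a i) P.1.rep ≠ 0 := P.2 i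

theorem Ed_nonneg (S : Finset (Pr K)) {a : Fin r → Fin (n + 1) → K} (ha : ∀ i, a i ≠ 0)
    {x : Fin (n + 1) → K} (hx : x ≠ 0) (hl : ∀ i, lin (a i) x ≠ 0) : 0 ≤ Ed S a x := by
  classical
  rw [finN1 S ha hx hl]
  refine add_nonneg (sum_nonneg fun w _ => mul_nonneg (Nat.cast_nonneg _) (wt_nonneg _ _ _))
    (finsum_nonneg fun v => ?_)
  have h1 : GA S a v (fun l => lamF v (a l) x) = wt (fv v) a x -
      if v ∉ S ∧ ∃ i, 0 < lam (fv v) (a i) x then Real.log (Nv v) else 0 := by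
    unfold GA wt
    simp only [lam_F]
  rw [h1]
  split_ifs with h
  · obtain ⟨i, hi⟩ := h.2
    linarith [log_Nv_le_wt v ha hx hl hi]
  · linarith [wt_nonneg (fv v) a x]

theorem N1_nonneg (S : Finset (Pr K)) (a : Fin r → Fin (n + 1) → K) (x : Fin (n + 1) → K) :
    0 ≤ N1 S a x := by
  unfold N1
  refine finsum_nonneg fun v => ?_
  split_ifs
  · exact Real.log_nonneg (by linarith [two_le_Nv v])
  · exact le_rfl

theorem Ed_le (S : Finset (Pr K)) (a : Fin r → Fin (n + 1) → K)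
    {x : Fin (n + 1) → K} (hl : ∀ i, lin (a i) x ≠ 0) :
    Ed S a x ≤ r * Height.logHeight x + ∑ i, (Height.logHeight (a i) +
      ∑ w : InfinitePlace K, (w.mult : ℝ) * Real.log ((n + 1 : ℕ) : ℝ)) := by
  classical
  have hlog0 : 0 ≤ Real.log ((n + 1 : ℕ) : ℝ) := Real.log_nonneg (by
    have : (0 : ℝ) ≤ n := Nat.cast_nonneg n
    push_cast
    linarith)
  have h1 : hW a x ≤ ∑ i, (∑ w : InfinitePlace K, (w.mult : ℝ) *
      (Pool.Agent.N906.EQ.lamI w (a i) x + Real.log ((n + 1 : ℕ) : ℝ)) +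
        ∑ᶠ v : Pr K, lamF v (a i) x) := by
    rw [sum_add_distrib, sum_comm, ← finsum_sum_comm _ _ fun i _ => lamF_finite (hl i)]
    unfold hW
    refine add_le_add (sum_le_sum fun w _ => ?_) ?_
    · rw [← mul_sum]
      refine mul_le_mul_of_nonneg_left ?_ (Nat.cast_nonneg _)
      obtain ⟨I, -, hI⟩ := wt_att w.1 a x
      rw [hI]
      have h2 : ∀ i, 0 ≤ Pool.Agent.N906.EQ.lamI w (a i) x + Real.log ((n + 1 : ℕ) : ℝ) := by
        intro i
        linarith [lamI_ge (Nat.succ_pos n) w (hl i)]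
      calc ∑ i ∈ I, lam w.1 (a i) x ≤
          ∑ i ∈ I, (Pool.Agent.N906.EQ.lamI w (a i) x + Real.log ((n + 1 : ℕ) : ℝ)) := by
            refine sum_le_sum fun i _ => ?_
            rw [lam_I]
            linarith
        _ ≤ _ := sum_le_sum_of_subset_of_nonneg (subset_univ _) fun i _ _ => h2 i
    · have hfin : (Function.support fun v : Pr K => ∑ i, lamF v (a i) x).Finite := by
        refine (Set.finite_iUnion fun i => lamF_finite (hl i)).subset fun v hv => ?_
        rw [Set.mem_iUnion]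
        by_contra hcon
        push Not at hcon
        apply hv
        exact sum_eq_zero fun l _ => by
          have := hcon l
          rwa [Function.notMem_support] at this
      have hle : ∀ v : Pr K, wt (fv v) a x ≤ ∑ i, lamF v (a i) x := by
        intro v
        obtain ⟨I, -, hI⟩ := wt_att (fv v) a x
        rw [hI]
        calc ∑ i ∈ I, lam (fv v) (a i) x = ∑ i ∈ I, lamF v (a i) x :=
              sum_congr rfl fun i _ => lam_F v _ _
          _ ≤ _ := sum_le_sum_of_subset_of_nonneg (subset_univ _) fun i _ _ =>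
              lamF_nonneg' v (hl i)
      refine finsum_le_finsum' ?_ hfin hle
      refine hfin.subset fun v hv => ?_
      rw [Function.mem_support] at hv ⊢
      intro h0
      apply hv
      exact le_antisymm ((hle v).trans h0.le) (wt_nonneg _ _ _)
  have h2 : ∀ i, (∑ w : InfinitePlace K, (w.mult : ℝ) *
      (Pool.Agent.N906.EQ.lamI w (a i) x + Real.log ((n + 1 : ℕ) : ℝ)) +
        ∑ᶠ v : Pr K, lamF v (a i) x) = Height.logHeight x + (Height.logHeight (a i) +
      ∑ w : InfinitePlace K, (w.mult : ℝ) * Real.log ((n + 1 : ℕ) : ℝ)) := by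
    intro i
    have h3 := sum_loc (hl i)
    have h4 : ∑ w : InfinitePlace K, (w.mult : ℝ) *
        (Pool.Agent.N906.EQ.lamI w (a i) x + Real.log ((n + 1 : ℕ) : ℝ)) =
        ∑ w : InfinitePlace K, (w.mult : ℝ) * Pool.Agent.N906.EQ.lamI w (a i) x +
        ∑ w : InfinitePlace K, (w.mult : ℝ) * Real.log ((n + 1 : ℕ) : ℝ) := by
      rw [← sum_add_distrib]
      exact sum_congr rfl fun w _ => by ring
    rw [h4]
    linarith
  rw [sum_congr rfl fun i _ => h2 i, sum_add_distrib, sum_const, card_univ, Fintype.card_fin,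
    nsmul_eq_mul] at h1
  have h3 := N1_nonneg S a x
  unfold Ed
  linarith

/-- the underlying point -/
def pt (a : Fin r → Fin (n + 1) → K) (P : Om a) : Projectivization K (Fin (n + 1) → K) := P.1

theorem pt_inj (a : Fin r → Fin (n + 1) → K) : Function.Injective (pt a) :=
  fun _ _ h => Subtype.ext h

theorem om_fin (a : Fin r → Fin (n + 1) → K) (B : ℝ) : {P : Om a | rho a P ≤ B}.Finite := by
  obtain ⟨C, -, hcount⟩ := count_le K (n + 1)
  have h1 := (hcount (max B 1) (le_max_right _ _)).1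
  refine Set.Finite.of_finite_image (f := pt a) (h1.subset ?_) (pt_inj a).injOn
  rintro _ ⟨P, hP, rfl⟩
  have hP' : rho a P ≤ B := hP
  exact (rho_le_iff a P (by linarith [le_max_right B 1])).1 (hP'.trans (le_max_left _ _))

theorem om_big (S : Finset (Pr K)) (a : Fin r → Fin (n + 1) → K) (t : ℝ) {B : ℝ} (hB : 0 ≤ B) :
    {P : Om a | rho a P ≤ B ∧ t ≤ EA S a P}.ncard = (Big S a t (B ^ finrank ℚ K)).ncard := by
  rw [← Set.ncard_image_of_injective (f := pt a) _ (pt_inj a)]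
  congr 1
  ext P
  constructor
  · rintro ⟨Q, ⟨h1, h2⟩, rfl⟩
    exact ⟨Q.2, (rho_le_iff a Q hB).1 h1, h2⟩
  · rintro ⟨h1, h2, h3⟩
    exact ⟨⟨P, h1⟩, ⟨(rho_le_iff a ⟨P, h1⟩ hB).2 h2, h3⟩, rfl⟩

/-- **The counting hypotheses hold.** -/
theorem cntA (hn : 1 ≤ n) (hr : 1 ≤ r) {a : Fin r → Fin (n + 1) → K} (ha : ∀ i, a i ≠ 0)
    (S : Finset (Pr K)) :
    Cnt (rho a) (EA S a) (((n + 1) * finrank ℚ K : ℕ) : ℝ) := by
  have hd0 : 0 < finrank ℚ K := finrank_pos (R := ℚ) (M := K)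
  have hd : (0 : ℝ) < finrank ℚ K := by exact_mod_cast hd0
  refine ⟨rho_pos a, om_fin a, fun P => Ed_nonneg S ha P.1.rep_nonzero P.2, ?_, ?_, ?_⟩
  · refine ⟨r * finrank ℚ K, ∑ i, (Height.logHeight (a i) +
      ∑ w : InfinitePlace K, (w.mult : ℝ) * Real.log ((n + 1 : ℕ) : ℝ)), by positivity,
      sum_nonneg fun i _ => add_nonneg (Height.logHeight_nonneg _)
        (sum_nonneg fun w _ => mul_nonneg (Nat.cast_nonneg _) (Real.log_natCast_nonneg _)),
      fun P B hB hP => ?_⟩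
    have h1 := Ed_le S a P.2
    have h2 : Height.logHeight P.1.rep ≤ finrank ℚ K * Real.log B := by
      rw [Height.logHeight_eq_log_mulHeight, ← Real.log_pow]
      exact Real.log_le_log (Height.mulHeight_pos _) ((rho_le_iff a P (by linarith)).1 hP)
    have h3 := mul_le_mul_of_nonneg_left h2 (Nat.cast_nonneg (α := ℝ) r)
    unfold EA
    linarith
  · intro δ hδ hδ1
    obtain ⟨M, hM, h⟩ := tailT a ha S δ hδ hδ1.le
    refine ⟨M, finrank ℚ K * ((1 - δ) / 2), hM.le,
      mul_pos hd (by linarith), fun B t hB ht => ?_⟩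
    have hB0 : 0 < B := by linarith
    rw [om_big S a t hB0.le]
    have h1 := (h (B ^ finrank ℚ K) (one_le_pow₀ hB) t).2
    refine h1.trans (le_of_eq ?_)
    have e1 : (B ^ finrank ℚ K) ^ (-((1 - δ) / 2)) = B ^ (-(finrank ℚ K * ((1 - δ) / 2))) := by
      rw [← Real.rpow_natCast, ← Real.rpow_mul hB0.le]
      congr 1
      ring
    have e2 : (B ^ finrank ℚ K) ^ ((n : ℝ) + 1) = B ^ (((n + 1) * finrank ℚ K : ℕ) : ℝ) := by
      rw [← Real.rpow_natCast, ← Real.rpow_mul hB0.le]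
      congr 1
      push_cast
      ring
    rw [e1, e2]
  · obtain ⟨c0, m, hm, h⟩ := lowT hn hr a ha S
    have hL : 0 < finrank ℚ K * Real.log 2 := mul_pos hd (Real.log_pos (by norm_num))
    refine ⟨m * Real.exp (-(max c0 0 + finrank ℚ K * Real.log 2)), by positivity,
      fun t ht => ?_⟩
    obtain ⟨k, hk⟩ : ∃ k : ℕ, k = ⌈(t + max c0 0) / (finrank ℚ K * Real.log 2)⌉₊ := ⟨_, rfl⟩
    have hk1 : t + max c0 0 ≤ k * (finrank ℚ K * Real.log 2) := by
      have h1 := Nat.le_ceil ((t + max c0 0) / (finrank ℚ K * Real.log 2))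
      rw [← hk, div_le_iff₀ hL] at h1
      exact h1
    have hk2 : k * (finrank ℚ K * Real.log 2) ≤ t + max c0 0 + finrank ℚ K * Real.log 2 := by
      have h0 : 0 ≤ (t + max c0 0) / (finrank ℚ K * Real.log 2) :=
        div_nonneg (add_nonneg ht (le_max_right _ _)) hL.le
      have h1 := (Nat.ceil_lt_add_one h0).le
      rw [← hk, ← sub_le_iff_le_add, le_div_iff₀ hL] at h1
      linarith
    obtain ⟨B0, hB0, hbig⟩ := h k
    have htend : Tendsto (fun B : ℝ => B ^ finrank ℚ K) atTop atTop :=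
      tendsto_pow_atTop hd0.ne'
    filter_upwards [htend.eventually_ge_atTop B0, eventually_ge_atTop 1] with B hB1 hB2
    have hBpos : 0 < B := by linarith
    rw [om_big S a t hBpos.le]
    have h1 := hbig _ hB1
    have h2 : ((Big S a (k * (finrank ℚ K * Real.log 2) - c0) (B ^ finrank ℚ K)).ncard : ℝ) ≤
        ((Big S a t (B ^ finrank ℚ K)).ncard : ℝ) := by
      obtain ⟨M, hM, hfin⟩ := tailT a ha S 1 one_pos le_rfl
      have h3 := (hfin (B ^ finrank ℚ K) (one_le_pow₀ hB2) t).1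
      refine Nat.cast_le.2 (Set.ncard_le_ncard ?_ h3)
      rintro P ⟨g1, g2, g3⟩
      exact ⟨g1, g2, le_trans (by linarith [le_max_left c0 0]) g3⟩
    refine le_trans ?_ (h1.trans h2)
    have e1 : ((2 : ℝ) ^ k) ^ finrank ℚ K = Real.exp (k * (finrank ℚ K * Real.log 2)) := by
      rw [← pow_mul, ← Real.rpow_natCast, Real.rpow_def_of_pos (by norm_num)]
      congr 1
      push_cast
      ring
    have e2 : (B ^ finrank ℚ K) ^ (n + 1) = B ^ (((n + 1) * finrank ℚ K : ℕ) : ℝ) := by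
      rw [Real.rpow_natCast, ← pow_mul]
      congr 1
      ring
    rw [e1, e2, div_eq_mul_inv, ← Real.exp_neg]
    have e3 : Real.exp (-(max c0 0 + finrank ℚ K * Real.log 2)) * Real.exp (-t) ≤
        Real.exp (-(k * (finrank ℚ K * Real.log 2))) := by
      rw [← Real.exp_add]
      apply Real.exp_le_exp.2
      linarith
    have e4 : 0 < B ^ (((n + 1) * finrank ℚ K : ℕ) : ℝ) := Real.rpow_pos_of_pos hBpos _
    calc m * Real.exp (-(max c0 0 + finrank ℚ K * Real.log 2)) * Real.exp (-t) *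
          B ^ (((n + 1) * finrank ℚ K : ℕ) : ℝ)
        = m * B ^ (((n + 1) * finrank ℚ K : ℕ) : ℝ) *
          (Real.exp (-(max c0 0 + finrank ℚ K * Real.log 2)) * Real.exp (-t)) := by ring
      _ ≤ _ := mul_le_mul_of_nonneg_left e3 (by positivity)

/-- the points of height at most `B` off the arrangement -/
def Pts (a : Fin r → Fin (n + 1) → K) (B : ℝ) : Set (Projectivization K (Fin (n + 1) → K)) :=
  {P | (∀ i, lin (a i) P.rep ≠ 0) ∧ Height.mulHeight P.rep ≤ B}

/-- **The limit law of the defect of an arrangement.** -/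
theorem arr_law (hn : 1 ≤ n) (hr : 1 ≤ r) {a : Fin r → Fin (n + 1) → K} (ha : ∀ i, a i ≠ 0)
    (hdis : ∀ i j, i ≠ j → ∀ t : K, a j ≠ t • a i) (S : Finset (Pr K)) :
    ∃ ν : Measure ℝ, IsProbabilityMeasure ν ∧ ν (Set.Iio 0) = 0 ∧
      (∀ f : ℝ → ℝ, Continuous f → (∃ (A : ℝ) (k : ℕ), ∀ s, |f s| ≤ A * (1 + |s|) ^ k) →
        Integrable f ν ∧
        Tendsto (fun B : ℝ => (∑ᶠ P ∈ Pts a B, f (hW a P.rep - N1 S a P.rep)) /
          ((Pts a B).ncard : ℝ)) atTop (𝓝 (∫ x, f x ∂ν))) ∧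
      (∃ c : ℝ, 0 < c ∧ ∀ t : ℝ, 0 ≤ t → c * Real.exp (-t) ≤ ν.real (Set.Ici t)) ∧
      (∀ δ : ℝ, 0 < δ → ∃ C : ℝ, ∀ t : ℝ, 0 ≤ t →
        ν.real (Set.Ici t) ≤ C * Real.exp (-((1 - δ) * t))) ∧
      ∀ b : ℝ, Integrable (fun s => Real.exp (b * s)) ν ↔ b < 1 := by
  have hd0 : 0 < finrank ℚ K := finrank_pos (R := ℚ) (M := K)
  have hd : (0 : ℝ) < finrank ℚ K := by exact_mod_cast hd0
  obtain ⟨s, hs, b, hb⟩ := exists_scale a
  have hc := cntA hn hr ha S
  obtain ⟨μ, hμf, hμ⟩ := lawA (by omega) a b (t := fun _ => s) (fun _ => hs) hb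
    (dat hn ha hdis S hs hb) (a := 1) (c := 0) one_pos (EA S a)
    (fun P => by rw [one_mul, add_zero]; rfl) hc.tail
  obtain ⟨ν, h1, h2, h3, h4⟩ := gen_final hc hμ
  refine ⟨ν, h1, h2, fun f hf hA => ⟨(h3 f hf hA).1, ?_⟩, h4⟩
  have htend : Tendsto (fun B : ℝ => B ^ ((finrank ℚ K : ℝ)⁻¹)) atTop atTop :=
    tendsto_rpow_atTop (inv_pos.2 hd)
  refine ((h3 f hf hA).2.comp htend).congr' ?_
  filter_upwards [eventually_gt_atTop 0] with B hB
  have himg : pt a ''
      {P | rho a P ≤ B ^ ((finrank ℚ K : ℝ)⁻¹)} = Pts a B := by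
    have hpow : (B ^ ((finrank ℚ K : ℝ)⁻¹)) ^ finrank ℚ K = B :=
      Real.rpow_inv_natCast_pow hB.le hd0.ne'
    have hnn : 0 ≤ B ^ ((finrank ℚ K : ℝ)⁻¹) := Real.rpow_nonneg hB.le _
    ext P
    constructor
    · rintro ⟨Q, hQ, rfl⟩
      have h5 := (rho_le_iff a Q hnn).1 hQ
      rw [hpow] at h5
      exact ⟨Q.2, h5⟩
    · rintro ⟨g1, g2⟩
      exact ⟨⟨P, g1⟩, (rho_le_iff a ⟨P, g1⟩ hnn).2 (by rw [hpow]; exact g2), rfl⟩
  show SS (rho a) (EA S a) f (B ^ ((finrank ℚ K : ℝ)⁻¹)) /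
    ({P | rho a P ≤ B ^ ((finrank ℚ K : ℝ)⁻¹)}.ncard : ℝ) = _
  rw [ss_finsum' (om_fin a), ← himg, finsum_mem_image (pt_inj a).injOn,
    Set.ncard_image_of_injective _ (pt_inj a)]
  rfl

end

end Pool.Agent.L5helper9.Arr
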