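import Mathlib

/-!
# The asymptotics of the tail
-/

set_option autoImplicit false

namespace Pool.Agent.L5helper9

open Filter Topology

/-- `√(t / log t)` grows faster than `log t` -/
theorem w_big (A b : ℝ) : Tendsto (fun t : ℝ => (A + b * Real.log t) / √(t / Real.log t)) atTop (𝓝 0) := by
  have h3 : ∀ n : ℕ, Tendsto (fun t : ℝ => Real.log t ^ n / √t) atTop (𝓝 0) := by
    intro n
    have e0 : (fun x : ℝ => Real.log x ^ n) =o[atTop] (fun x : ℝ => x ^ (1 / 2 : ℝ)) := by
      have := isLittleO_log_rpow_rpow_atTop (n : ℝ) (show (0 : ℝ) < 1 / 2 by norm_num)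
      simpa [Real.rpow_natCast] using this
    refine e0.tendsto_div_nhds_zero.congr fun t => ?_
    rw [Real.sqrt_eq_rpow]
  -- `√(log t) ≤ 1 + log t`
  have h4 : Tendsto (fun t : ℝ => (|A| + |b| * Real.log t) * (1 + Real.log t) / √t) atTop (𝓝 0) := by
    have e1 := ((h3 0).const_mul |A|).add (((h3 1).const_mul (|A| + |b|)).add
      ((h3 2).const_mul |b|))
    rw [mul_zero, mul_zero, mul_zero, add_zero, add_zero] at e1
    refine e1.congr fun t => ?_
    ring
  refine squeeze_zero_norm' ?_ h4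
  filter_upwards [eventually_gt_atTop (1 : ℝ)] with t ht
  have hl : 0 < Real.log t := Real.log_pos ht
  have ht0 : 0 < t := by linarith
  rw [Real.norm_eq_abs, abs_div, abs_of_nonneg (Real.sqrt_nonneg _), Real.sqrt_div ht0.le]
  have h5 : |A + b * Real.log t| ≤ |A| + |b| * Real.log t := by
    refine (abs_add_le _ _).trans ?_
    rw [abs_mul, abs_of_pos hl]
  have h6 : √(Real.log t) ≤ 1 + Real.log t := by
    rw [Real.sqrt_le_left (by linarith)]
    nlinarith
  have hs : 0 < √t := Real.sqrt_pos.2 ht0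
  have hs2 : 0 < √(Real.log t) := Real.sqrt_pos.2 hl
  rw [div_div_eq_mul_div]
  refine div_le_div_of_nonneg_right ?_ hs.le
  exact mul_le_mul h5 h6 hs2.le (by positivity)

theorem asym_main {R : ℝ → ℝ} {q d a : ℝ} (hq : 0 < q) (hd : 1 ≤ d)
    (hU : ∀ ε : ℝ, 0 < ε → ∃ (C u₀ : ℝ) (n : ℕ), 0 < C ∧ 0 < u₀ ∧ ∀ u t : ℝ, 0 < u → u < u₀ →
      0 ≤ t → R t ≤ C * (u⁻¹ ^ n * Real.exp ((1 + ε) * q / (u * Real.log (1 / u)))) *
        Real.exp (-(a * t) + u * (d * t)))
    (hL : ∀ ε : ℝ, 0 < ε → ε < 1 → ∃ C t₀ : ℝ, 0 < C ∧ ∀ t : ℝ, t₀ ≤ t →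
      C * Real.exp (-(a * t) + (1 - ε) * √(8 * q * (d * (t + 1)) / Real.log (d * (t + 1)))) ≤ R t) :
    Tendsto (fun t : ℝ => (Real.log (R t) + a * t) / √(t / Real.log t)) atTop
      (𝓝 √(8 * q * d)) := by
  have hd0 : 0 < d := by linarith
  obtain ⟨L, hLd⟩ : ∃ L : ℝ, L = √(8 * q * d) := ⟨_, rfl⟩
  have hL0 : 0 < L := by rw [hLd]; exact Real.sqrt_pos.2 (by positivity)
  rw [← hLd]
  rw [tendsto_order]
  constructor
  · -- the lower bound
    intro b hb
    obtain ⟨ε, hε0, hε1, hεb⟩ : ∃ ε : ℝ, 0 < ε ∧ ε < 1 ∧ b < (1 - ε) * ((1 - ε) * L) := by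
      rcases le_or_gt b 0 with h | h
      · exact ⟨1 / 2, by norm_num, by norm_num, lt_of_le_of_lt h (by positivity)⟩
      · refine ⟨(L - b) / (2 * L), by apply div_pos <;> linarith, ?_, ?_⟩
        · rw [div_lt_one (by positivity)]
          linarith
        · have h1 : (1 - (L - b) / (2 * L)) * ((1 - (L - b) / (2 * L)) * L) = (L + b) ^ 2 / (4 * L) := by
            field_simp
            ring
          rw [h1, lt_div_iff₀ (by positivity)]
          nlinarith [sq_nonneg (L - b), sq_pos_of_pos (sub_pos.2 hb)]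
    obtain ⟨C, t₀, hC, hlow⟩ := hL ε hε0 hε1
    -- `log (d (t + 1)) ≤ (1 + ε) log t`
    have ev1 : ∀ᶠ t : ℝ in atTop, Real.log (2 * d) / ε ≤ Real.log t :=
      Real.tendsto_log_atTop.eventually_ge_atTop _
    have ev2 := (tendsto_order.1 (w_big (Real.log C) 0)).1 (b - (1 - ε) * ((1 - ε) * L))
      (by linarith)
    filter_upwards [ev1, ev2, eventually_ge_atTop t₀, eventually_gt_atTop (1 : ℝ)] with t h1 h2 h3 h4
    have ht0 : 0 < t := by linarith
    have hl : 0 < Real.log t := Real.log_pos h4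
    have hW : 0 < √(t / Real.log t) := Real.sqrt_pos.2 (by positivity)
    have h5 := hlow t h3
    have hRp : 0 < R t := lt_of_lt_of_le (by positivity) h5
    have h6 := Real.log_le_log (by positivity) h5
    rw [Real.log_mul hC.ne' (Real.exp_pos _).ne', Real.log_exp] at h6
    have h7 : Real.log (d * (t + 1)) ≤ (1 + ε) * Real.log t := by
      have h8 : Real.log (d * (t + 1)) ≤ Real.log (2 * d * t) :=
        Real.log_le_log (by positivity) (by nlinarith)
      rw [Real.log_mul (by positivity) ht0.ne'] at h8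
      rw [div_le_iff₀ hε0] at h1
      linarith
    have h9 : 0 < Real.log (d * (t + 1)) := Real.log_pos (by nlinarith)
    have h10 : (1 - ε) * L * √(t / Real.log t) ≤
        √(8 * q * (d * (t + 1)) / Real.log (d * (t + 1))) := by
      apply Real.le_sqrt_of_sq_le
      rw [mul_pow, mul_pow, Real.sq_sqrt (by positivity), hLd, Real.sq_sqrt (by positivity),
        le_div_iff₀ h9]
      calc (1 - ε) ^ 2 * (8 * q * d) * (t / Real.log t) * Real.log (d * (t + 1))
          ≤ (1 - ε) ^ 2 * (8 * q * d) * (t / Real.log t) * ((1 + ε) * Real.log t) := by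
            gcongr
        _ = (1 - ε) ^ 2 * (1 + ε) * (8 * q * d) * t := by
            field_simp
        _ ≤ 1 * (8 * q * d) * t := by
            have e1 : (1 - ε) ^ 2 * (1 + ε) = (1 - ε) * (1 - ε ^ 2) := by ring
            have e2 : ε ^ 2 ≤ 1 := by nlinarith
            have e3 : (1 - ε) * (1 - ε ^ 2) ≤ 1 :=
              mul_le_one₀ (by linarith) (by linarith) (by nlinarith)
            rw [e1]
            gcongr
        _ ≤ 8 * q * (d * (t + 1)) := by nlinarith [mul_pos hq hd0]
    rw [lt_div_iff₀ hW]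
    rw [zero_mul, add_zero, lt_div_iff₀ hW] at h2
    have h11 : (1 - ε) * ((1 - ε) * L * √(t / Real.log t)) ≤
        (1 - ε) * √(8 * q * (d * (t + 1)) / Real.log (d * (t + 1))) :=
      mul_le_mul_of_nonneg_left h10 (by linarith)
    linarith
  · -- the upper bound
    intro b hb
    obtain ⟨ε, hε0, hεb⟩ : ∃ ε : ℝ, 0 < ε ∧ (1 + ε) * L < b := by
      refine ⟨(b - L) / (2 * L), by apply div_pos <;> linarith, ?_⟩
      have h1 : (1 + (b - L) / (2 * L)) * L = (b + L) / 2 := by
        field_simp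
        ring
      rw [h1]
      linarith
    obtain ⟨C, u₀, n, hC, hu₀, hup⟩ := hU ε hε0
    obtain ⟨C₁, t₁, hC₁, hlow⟩ := hL (1 / 2) (by norm_num) (by norm_num)
    have ev1 : ∀ᶠ t : ℝ in atTop, 2 * q / (d * u₀ ^ 2) < t := eventually_gt_atTop _
    have ev2 : ∀ᶠ t : ℝ in atTop, max 1 (2 * q / d) ≤ Real.log t :=
      Real.tendsto_log_atTop.eventually_ge_atTop _
    have ev3 := (tendsto_order.1 (w_big (Real.log C + n * Real.log (d / q + 1)) (n : ℝ))).2
      (b - (1 + ε) * L) (by linarith)
    filter_upwards [ev1, ev2, ev3, eventually_ge_atTop t₁, eventually_gt_atTop (1 : ℝ)] with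
      t h1 h2 h3 h4 h5
    have ht0 : 0 < t := by linarith
    have hl1 : 1 ≤ Real.log t := (le_max_left _ _).trans h2
    have hl2 : 2 * q / d ≤ Real.log t := (le_max_right _ _).trans h2
    have hl : 0 < Real.log t := by linarith
    have hW : 0 < √(t / Real.log t) := Real.sqrt_pos.2 (by positivity)
    obtain ⟨V, hV⟩ : ∃ V : ℝ, V = √(2 * q * d * (t / Real.log t)) := ⟨_, rfl⟩
    have hV0 : 0 < V := by rw [hV]; exact Real.sqrt_pos.2 (by positivity)
    have hVsq : V ^ 2 = 2 * q * d * (t / Real.log t) := by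
      rw [hV, Real.sq_sqrt (by positivity)]
    have hVL : 2 * V = L * √(t / Real.log t) := by
      rw [hLd, ← Real.sqrt_mul (by positivity), hV]
      have e1 : 8 * q * d * (t / Real.log t) = 2 ^ 2 * (2 * q * d * (t / Real.log t)) := by ring
      have e2 : √(2 ^ 2 * (2 * q * d * (t / Real.log t))) = 2 * √(2 * q * d * (t / Real.log t)) := by
        rw [Real.sqrt_mul (by positivity) (2 * q * d * (t / Real.log t)),
          Real.sqrt_sq (by norm_num)]
      rw [e1, e2]
    obtain ⟨u, hu⟩ : ∃ u : ℝ, u = V / (d * t) := ⟨_, rfl⟩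
    have hu0 : 0 < u := by rw [hu]; positivity
    have hudt : u * (d * t) = V := by rw [hu]; field_simp
    have husq : u ^ 2 = 2 * q / (d * (t * Real.log t)) := by
      rw [hu, div_pow, hVsq]
      field_simp
    have huu : u < u₀ := by
      refine lt_of_pow_lt_pow_left₀ 2 hu₀.le ?_
      rw [husq, div_lt_iff₀ (by positivity)]
      rw [div_lt_iff₀ (by positivity)] at h1
      have : 0 < d * u₀ ^ 2 := by positivity
      nlinarith [mul_le_mul_of_nonneg_left hl1 (show 0 ≤ t * (d * u₀ ^ 2) by positivity)]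
    have hut : u ≤ (√t)⁻¹ := by
      have hs : 0 < √t := Real.sqrt_pos.2 ht0
      refine le_of_sq_le_sq ?_ (by positivity)
      rw [husq, inv_pow, Real.sq_sqrt ht0.le, ← one_div, div_le_div_iff₀ (by positivity) ht0]
      rw [div_le_iff₀ hd0] at hl2
      nlinarith
    have hlu : Real.log t / 2 ≤ Real.log (1 / u) := by
      have e1 : Real.log t / 2 = Real.log √t := by rw [Real.log_sqrt ht0.le]
      rw [e1]
      apply Real.log_le_log (Real.sqrt_pos.2 ht0)
      rw [one_div, le_inv_comm₀ (Real.sqrt_pos.2 ht0) hu0]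
      exact hut
    have hmain : q / (u * Real.log (1 / u)) ≤ V := by
      have h6 : 0 < Real.log (1 / u) := by linarith
      rw [div_le_iff₀ (by positivity)]
      have h7 : V * (u * (Real.log t / 2)) = q := by
        have h8 : V * V = 2 * q * d * (t / Real.log t) := by rw [← hVsq]; ring
        rw [hu]
        have h9 : V * (V / (d * t) * (Real.log t / 2)) = V * V * Real.log t / (2 * d * t) := by
          field_simp
        rw [h9, h8]
        field_simp
      calc q = V * (u * (Real.log t / 2)) := h7.symm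
        _ ≤ V * (u * Real.log (1 / u)) := by gcongr
    have hinv : u⁻¹ ≤ (d / q + 1) * t := by
      rw [inv_le_comm₀ hu0 (by positivity)]
      refine le_of_sq_le_sq ?_ hu0.le
      rw [husq, inv_pow, ← one_div, div_le_div_iff₀ (by positivity) (by positivity)]
      have e1 : Real.log t ≤ t := by linarith [Real.add_one_le_exp (Real.log t), Real.exp_log ht0]
      have e2 : d * (t * Real.log t) ≤ d * (t * t) := by gcongr
      have e3 : d ≤ 2 * q * (d / q + 1) ^ 2 := by
        have e4 : 2 * q * (d / q + 1) ^ 2 = 2 * d ^ 2 / q + 4 * d + 2 * q := by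
          field_simp
          ring
        rw [e4]
        have : 0 < 2 * d ^ 2 / q := by positivity
        linarith
      nlinarith [mul_le_mul_of_nonneg_right e3 (show 0 ≤ t * t by positivity)]
    have hR := hup u t hu0 huu ht0.le
    have hRp : 0 < R t := lt_of_lt_of_le (by positivity) (hlow t h4)
    have h6 := Real.log_le_log hRp hR
    rw [Real.log_mul (by positivity) (Real.exp_pos _).ne', Real.log_mul hC.ne' (by positivity),
      Real.log_mul (by positivity) (Real.exp_pos _).ne', Real.log_exp, Real.log_exp,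
      Real.log_pow, hudt] at h6
    have h7 : Real.log u⁻¹ ≤ Real.log (d / q + 1) + Real.log t := by
      rw [← Real.log_mul (by positivity) ht0.ne']
      exact Real.log_le_log (inv_pos.2 hu0) hinv
    have h8 : (1 + ε) * q / (u * Real.log (1 / u)) ≤ (1 + ε) * V := by
      rw [mul_div_assoc]
      exact mul_le_mul_of_nonneg_left hmain (by linarith)
    rw [div_lt_iff₀ hW]
    rw [div_lt_iff₀ hW] at h3
    have h9 := mul_le_mul_of_nonneg_left h7 (Nat.cast_nonneg (α := ℝ) n)
    have h10 : (1 + ε) * V + V ≤ (1 + ε) * L * √(t / Real.log t) := by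
      rw [mul_assoc, ← hVL]
      nlinarith
    nlinarith

end Pool.Agent.L5helper9
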