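import Mathlib

/-!
# Long rational cycles of endomorphisms of projective spaces: a serial odometer with a clock
-/

set_option autoImplicit false

namespace Pool.Agent.L5helper9.Cy

open MvPolynomial Finset

/-- the indices of the coordinates -/
abbrev Ix (k a b r : ℕ) := Option (Fin k ⊕ Fin a ⊕ Fin b ⊕ Bool ⊕ Fin r)

variable {k a b r : ℕ}

/-- the digits of the counter, time `t` -/
def W (d k t : ℕ) : ℕ := (t / k % d ^ (k - 1) / d ^ (t % k)) % d

/-- the ring of length `a` -/
def U (a t : ℕ) : ℕ := if a ∣ t + 2 then 1 else 0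

/-- the carry -/
def cr (d k n : ℕ) : ℕ := if d ^ (n % k) ∣ n / k + 1 then 1 else 0

/-- the marker -/
def mk (k n : ℕ) : ℕ := if k ∣ n + 1 then 1 else 0

/-- a form of degree `d` with value `x` at `(1, x)`, `x = 0, …, d - 1` -/
noncomputable def Pl {σ : Type} (d : ℕ) (h v : σ) : MvPolynomial σ ℚ :=
  X v * X h ^ (d - 1) + ∏ t ∈ range d, (X v - C (t : ℚ) * X h)

/-- a form of degree `d` with value `0` at `(1, x)`, `x = 0, …, d - 1` -/
noncomputable def Zr {σ : Type} (d : ℕ) (h v : σ) : MvPolynomial σ ℚ :=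
  ∏ t ∈ range d, (X v - C (t : ℚ) * X h)

/-- the indicator of `d - 1`, a form of degree `d - 1` -/
noncomputable def Dl {σ : Type} (d : ℕ) (h v : σ) : MvPolynomial σ ℚ :=
  C (((d - 1).factorial : ℚ)⁻¹) * ∏ t ∈ range (d - 1), (X v - C (t : ℚ) * X h)

theorem lin_hom {σ : Type} (h v : σ) (t : ℚ) :
    (X v - C t * X h : MvPolynomial σ ℚ).IsHomogeneous 1 := by
  apply IsHomogeneous.sub (isHomogeneous_X _ _)
  have := (isHomogeneous_C σ t).mul (isHomogeneous_X ℚ h)
  simpa using this

theorem Zr_hom {σ : Type} (d : ℕ) (h v : σ) : (Zr d h v).IsHomogeneous d := by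
  have := IsHomogeneous.prod (range d) (fun t : ℕ => (X v - C (t : ℚ) * X h : MvPolynomial σ ℚ))
    (fun _ => 1) (fun t _ => lin_hom h v t)
  simp only [Finset.sum_const, Finset.card_range, smul_eq_mul, mul_one] at this
  exact this

theorem Pl_hom {σ : Type} {d : ℕ} (hd : 2 ≤ d) (h v : σ) : (Pl d h v).IsHomogeneous d := by
  apply IsHomogeneous.add _ (Zr_hom d h v)
  have := (isHomogeneous_X ℚ v).mul (isHomogeneous_X_pow (R := ℚ) h (d - 1))
  rwa [show 1 + (d - 1) = d by omega] at this

theorem Dl_hom {σ : Type} (d : ℕ) (h v : σ) : (Dl d h v).IsHomogeneous (d - 1) := by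
  have h1 := IsHomogeneous.prod (range (d - 1))
    (fun t : ℕ => (X v - C (t : ℚ) * X h : MvPolynomial σ ℚ)) (fun _ => 1)
    (fun t _ => lin_hom h v t)
  have h2 := (isHomogeneous_C σ (((d - 1).factorial : ℚ)⁻¹)).mul h1
  simp only [Finset.sum_const, Finset.card_range, smul_eq_mul, mul_one, zero_add] at h2
  exact h2

theorem Zr_eval {σ : Type} {d : ℕ} {h v : σ} {s : σ → ℚ} (h1 : s h = 1) {w : ℕ} (hw : w < d)
    (h2 : s v = w) : eval s (Zr d h v) = 0 := by
  unfold Zr
  rw [eval_prod]
  apply Finset.prod_eq_zero (Finset.mem_range.2 hw)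
  simp [h1, h2]

theorem Pl_eval {σ : Type} {d : ℕ} {h v : σ} {s : σ → ℚ} (h1 : s h = 1) {w : ℕ} (hw : w < d)
    (h2 : s v = w) : eval s (Pl d h v) = w := by
  have := Zr_eval h1 hw h2
  unfold Zr at this
  unfold Pl
  rw [map_add, this]
  simp [h1, h2]

theorem Dl_eval {σ : Type} {d : ℕ} {h v : σ} {s : σ → ℚ} (h1 : s h = 1) {w : ℕ} (hw : w < d)
    (h2 : s v = w) : eval s (Dl d h v) = if w = d - 1 then 1 else 0 := by
  unfold Dl
  rw [map_mul, eval_prod, eval_C]
  split_ifs with h3
  · have e : ∏ t ∈ range (d - 1), eval s (X v - C (t : ℚ) * X h) = ((d - 1).factorial : ℚ) := by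
      rw [← Finset.prod_range_reflect]
      rw [← Finset.prod_range_add_one_eq_factorial]
      push_cast
      refine Finset.prod_congr rfl fun t ht => ?_
      have ht := Finset.mem_range.1 ht
      simp only [map_sub, eval_X, map_mul, eval_C, h1, h2, h3, mul_one]
      have : ((d - 1 - 1 - t : ℕ) : ℚ) + (t + 1) = ((d - 1 : ℕ) : ℚ) := by
        have : (d - 1 - 1 - t) + (t + 1) = d - 1 := by omega
        exact_mod_cast this
      linarith
    rw [e]
    exact inv_mul_cancel₀ (by exact_mod_cast Nat.factorial_ne_zero _)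
  · have : ∏ t ∈ range (d - 1), eval s (X v - C (t : ℚ) * X h) = 0 := by
      apply Finset.prod_eq_zero (Finset.mem_range.2 (show w < d - 1 by omega))
      simp [h1, h2]
    rw [this, mul_zero]

section zero
variable {A : Type} [Field A] [Algebra ℚ A]

theorem Zr_zero {σ : Type} {d : ℕ} {h v : σ} {s : σ → A} (h1 : s h = 0) :
    aeval s (Zr d h v) = s v ^ d := by
  unfold Zr
  rw [map_prod]
  have : ∀ t ∈ range d, aeval s (X v - C (t : ℚ) * X h : MvPolynomial σ ℚ) = s v := by
    intro t _
    simp [h1]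
  rw [Finset.prod_congr rfl this, Finset.prod_const, Finset.card_range]

theorem Pl_zero {σ : Type} {d : ℕ} (hd : 2 ≤ d) {h v : σ} {s : σ → A} (h1 : s h = 0) :
    aeval s (Pl d h v) = s v ^ d := by
  have := Zr_zero (d := d) (v := v) h1
  unfold Zr at this
  unfold Pl
  rw [map_add, this, map_mul, map_pow, aeval_X, aeval_X, h1, zero_pow (by omega), mul_zero, zero_add]

end zero

variable (k a b r) in
/-- the coordinate functions of the machine -/
noncomputable def frm (d : ℕ) [NeZero k] [NeZero a] [NeZero b] :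
    Ix k a b r → MvPolynomial (Ix k a b r) ℚ
  | none => X none ^ d
  | some (.inl i) => if h : i.1 + 1 < k then Pl d none (some (.inl ⟨i.1 + 1, h⟩)) else
      X (some (.inl 0)) * X none ^ (d - 1) + X (some (.inr (.inr (.inr (.inl true))))) *
        X none ^ (d - 1) - C (d : ℚ) * (X (some (.inr (.inr (.inr (.inl true))))) *
        Dl d none (some (.inl 0))) - X (some (.inr (.inr (.inr (.inl false))))) *
        X (some (.inr (.inr (.inr (.inl true))))) * X none ^ (d - 2) + Zr d none (some (.inl 0))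
  | some (.inr (.inl i)) => if h : i.1 + 1 < a then Pl d none (some (.inr (.inl ⟨i.1 + 1, h⟩))) else
      Pl d none (some (.inr (.inl 0)))
  | some (.inr (.inr (.inl i))) => if h : i.1 + 1 < b then
      Pl d none (some (.inr (.inr (.inl ⟨i.1 + 1, h⟩)))) else Pl d none (some (.inr (.inr (.inl 0))))
  | some (.inr (.inr (.inr (.inl false)))) => X (some (.inr (.inl 0))) *
      X (some (.inr (.inr (.inl 0)))) * X none ^ (d - 2) +
      Zr d none (some (.inr (.inr (.inr (.inl true)))))
  | some (.inr (.inr (.inr (.inl true)))) => X (some (.inr (.inr (.inr (.inl true))))) *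
      Dl d none (some (.inl 0)) + X (some (.inr (.inr (.inr (.inl false))))) * X none ^ (d - 1) +
      Zr d none (some (.inr (.inr (.inr (.inl false)))))
  | some (.inr (.inr (.inr (.inr i)))) => X (some (.inr (.inr (.inr (.inr i))))) ^ d

variable (k a b r) in
/-- the state at time `n` -/
def st (d n : ℕ) : Ix k a b r → ℚ
  | none => 1
  | some (.inl i) => W d k (n + i.1)
  | some (.inr (.inl i)) => U a (n + i.1)
  | some (.inr (.inr (.inl i))) => U b (n + i.1)
  | some (.inr (.inr (.inr (.inl false)))) => mk k n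
  | some (.inr (.inr (.inr (.inl true)))) => cr d k n
  | some (.inr (.inr (.inr (.inr _)))) => 0

theorem W_lt {d k t : ℕ} (hd : 2 ≤ d) : W d k t < d := Nat.mod_lt _ (by omega)

theorem U_lt {d a t : ℕ} (hd : 2 ≤ d) : U a t < d := by
  unfold U
  split_ifs <;> omega

theorem cr_lt {d k n : ℕ} (hd : 2 ≤ d) : cr d k n < d := by
  unfold cr
  split_ifs <;> omega

theorem mk_lt {d k n : ℕ} (hd : 2 ≤ d) : mk k n < d := by
  unfold mk
  split_ifs <;> omega

theorem U_add (a t : ℕ) : U a (t + a) = U a t := by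
  unfold U
  have : a ∣ t + a + 2 ↔ a ∣ t + 2 := by
    rw [show t + a + 2 = (t + 2) + a by ring, Nat.dvd_add_self_right]
  simp only [this]

/-- the digit before the separator -/
theorem W_eq {d k t : ℕ} (_hd : 2 ≤ d) (h : t % k < k - 1) : W d k t = (t / k / d ^ (t % k)) % d := by
  unfold W
  obtain ⟨c, hc⟩ : ∃ c, k - 1 = (t % k + 1) + c := ⟨k - 1 - (t % k + 1), by omega⟩
  rw [hc]
  set j := t % k
  set y := t / k
  have h1 : y % d ^ (j + 1 + c) / d ^ j = (y / d ^ j) % d ^ (1 + c) := by
    rw [show j + 1 + c = j + (1 + c) by ring, pow_add, Nat.mod_mul_right_div_self]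
  rw [h1, pow_add, pow_one, Nat.mod_mul_right_mod]

theorem W_last {d k t : ℕ} (hd : 2 ≤ d) (h : t % k = k - 1) : W d k t = 0 := by
  unfold W
  rw [h, Nat.div_eq_of_lt (Nat.mod_lt _ (by positivity)), Nat.zero_mod]

/-- the recursion of the digits -/
theorem W_step {d k n : ℕ} (hd : 2 ≤ d) (hk : 1 ≤ k) : (W d k (n + k) : ℚ) =
    W d k n + cr d k n - d * (cr d k n * if W d k n = d - 1 then 1 else 0) -
      mk k n * cr d k n := by
  have hj : n % k < k := Nat.mod_lt _ hk
  have e1 : (n + k) % k = n % k := Nat.add_mod_right n k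
  have e2 : (n + k) / k = n / k + 1 := Nat.add_div_right n hk
  have hm : mk k n = if n % k = k - 1 then 1 else 0 := by
    unfold mk
    have : k ∣ n + 1 ↔ n % k = k - 1 := by
      rw [Nat.dvd_iff_mod_eq_zero, Nat.add_mod]
      rcases Nat.lt_or_ge 1 k with h1 | h1
      · rw [Nat.mod_eq_of_lt h1]
        rcases Nat.lt_or_ge (n % k + 1) k with h2 | h2
        · rw [Nat.mod_eq_of_lt h2]; omega
        · have : n % k + 1 = k := by omega
          rw [this, Nat.mod_self]; omega
      · have : k = 1 := by omega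
        subst this
        omega
    simp only [this]
  rcases Nat.lt_or_ge (n % k) (k - 1) with h | h
  · have hm0 : mk k n = 0 := by rw [hm, if_neg (by omega)]
    rw [W_eq hd (by rw [e1]; exact h), W_eq hd h, e1, e2, hm0]
    unfold cr
    set j := n % k
    set y := n / k
    have h3 : (y + 1) / d ^ j = y / d ^ j + if d ^ j ∣ y + 1 then 1 else 0 := Nat.succ_div
    by_cases h4 : d ^ j ∣ y + 1
    · rw [if_pos h4] at h3 ⊢
      rw [h3]
      set z := y / d ^ j
      by_cases h5 : z % d = d - 1
      · rw [if_pos h5, Nat.add_mod, h5]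
        have : (d - 1 + 1 % d) % d = 0 := by
          rw [Nat.mod_eq_of_lt (show 1 < d by omega), show d - 1 + 1 = d by omega, Nat.mod_self]
        rw [this]
        have h6 : ((d - 1 : ℕ) : ℚ) = d - 1 := by
          rw [Nat.cast_sub (by omega)]; simp
        rw [h6]
        push_cast
        ring
      · rw [if_neg h5]
        have h6 : z % d < d := Nat.mod_lt _ (by omega)
        have : (z + 1) % d = z % d + 1 := by
          rw [Nat.add_mod, Nat.mod_eq_of_lt (show 1 < d by omega), Nat.mod_eq_of_lt (by omega)]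
        rw [this]
        push_cast
        ring
    · rw [if_neg h4] at h3 ⊢
      rw [h3]
      push_cast
      ring_nf
  · have h' : n % k = k - 1 := by omega
    have hm1 : mk k n = 1 := by rw [hm, if_pos h']
    rw [W_last hd (by rw [e1]; exact h'), W_last hd h', hm1, if_neg (by omega)]
    push_cast
    ring

/-- the recursion of the carry -/
theorem cr_step {d k n : ℕ} (hd : 2 ≤ d) (hk : 1 ≤ k) : (cr d k (n + 1) : ℚ) =
    cr d k n * (if W d k n = d - 1 then 1 else 0) + mk k n := by
  have hj : n % k < k := Nat.mod_lt _ hk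
  rcases Nat.lt_or_ge (n % k) (k - 1) with h | h
  · have e1 : (n + 1) % k = n % k + 1 := by
      rw [Nat.add_mod, Nat.mod_eq_of_lt (show 1 < k by omega), Nat.mod_eq_of_lt (by omega)]
    have e2 : (n + 1) / k = n / k := by
      rw [Nat.succ_div, if_neg, add_zero]
      intro h1
      have := Nat.mod_eq_zero_of_dvd h1
      omega
    have hm : mk k n = 0 := by
      unfold mk
      rw [if_neg]
      intro h1
      have := Nat.mod_eq_zero_of_dvd h1
      omega
    rw [W_eq hd h, hm]
    unfold cr
    rw [e1, e2]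
    set j := n % k
    set y := n / k
    have h3 : (y + 1) / d ^ j = y / d ^ j + if d ^ j ∣ y + 1 then 1 else 0 := Nat.succ_div
    have h0 : 0 < d ^ j := by positivity
    by_cases h4 : d ^ j ∣ y + 1
    · rw [if_pos h4] at h3
      have h5 : d ^ (j + 1) ∣ y + 1 ↔ (y / d ^ j) % d = d - 1 := by
        obtain ⟨q, hq⟩ := h4
        have h6 : (y + 1) / d ^ j = q := by rw [hq, Nat.mul_div_cancel_left _ h0]
        rw [hq, pow_succ, Nat.mul_dvd_mul_iff_left h0]
        rw [h6] at h3
        rw [h3, Nat.dvd_iff_mod_eq_zero, Nat.add_mod, Nat.mod_eq_of_lt (show 1 < d by omega)]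
        have h7 : y / d ^ j % d < d := Nat.mod_lt _ (by omega)
        rcases Nat.lt_or_ge (y / d ^ j % d + 1) d with h8 | h8
        · rw [Nat.mod_eq_of_lt h8]; omega
        · have : y / d ^ j % d + 1 = d := by omega
          rw [this, Nat.mod_self]; omega
      rw [if_pos h4]
      by_cases h8 : (y / d ^ j) % d = d - 1
      · rw [if_pos (h5.2 h8), if_pos h8]; norm_num
      · rw [if_neg (fun h9 => h8 (h5.1 h9)), if_neg h8]; norm_num
    · rw [if_neg h4, if_neg]
      · norm_num
      · intro h9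
        exact h4 ((pow_dvd_pow d (Nat.le_succ j)).trans h9)
  · have h' : n % k = k - 1 := by omega
    have e0 : k ∣ n + 1 := by
      have h1 := Nat.div_add_mod n k
      refine ⟨n / k + 1, ?_⟩
      rw [mul_add, mul_one]
      omega
    have e1 : (n + 1) % k = 0 := Nat.mod_eq_zero_of_dvd e0
    have hm : mk k n = 1 := by
      unfold mk
      rw [if_pos e0]
    rw [W_last hd h', hm, if_neg (by omega)]
    unfold cr
    rw [e1, pow_zero, if_pos (one_dvd _)]
    norm_num

theorem mk_step {a b n : ℕ} (hab : Nat.Coprime a b) : (mk (a * b) (n + 1) : ℚ) = U a n * U b n := by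
  unfold mk U
  have : a * b ∣ n + 1 + 1 ↔ a ∣ n + 2 ∧ b ∣ n + 2 := by
    constructor
    · intro h
      exact ⟨(Dvd.intro _ rfl).trans h, (Dvd.intro_left _ rfl).trans h⟩
    · rintro ⟨h1, h2⟩
      exact hab.mul_dvd_of_dvd_of_dvd h1 h2
  by_cases h1 : a ∣ n + 2 <;> by_cases h2 : b ∣ n + 2 <;> simp [this, h1, h2]

/-- **One step of the machine.** -/
theorem step {d : ℕ} (hd : 2 ≤ d) [NeZero a] [NeZero b] [NeZero (a * b)] (hab : Nat.Coprime a b)
    (n : ℕ) (i : Ix (a * b) a b r) :
    eval (st (a * b) a b r d n) (frm (a * b) a b r d i) = st (a * b) a b r d (n + 1) i := by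
  have h1 : st (a * b) a b r d n none = 1 := rfl
  have hk : 1 ≤ a * b := Nat.one_le_iff_ne_zero.2 (NeZero.ne _)
  rcases i with _ | i | i | i | (_ | _) | i
  · simp [frm, st]
  · by_cases h : i.1 + 1 < a * b
    · simp only [frm, h, dif_pos]
      rw [Pl_eval h1 (W_lt hd) (w := W d (a * b) (n + (i.1 + 1))) rfl]
      show _ = ((W d (a * b) (n + 1 + i.1) : ℕ) : ℚ)
      rw [show n + (i.1 + 1) = n + 1 + i.1 by ring]
    · simp only [frm, h, dif_neg, not_false_eq_true]
      have h2 : st (a * b) a b r d n (some (.inl 0)) = ((W d (a * b) n : ℕ) : ℚ) := by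
        show ((W d (a * b) (n + ((0 : Fin (a * b)) : ℕ)) : ℕ) : ℚ) = _
        simp
      have h3 : st (a * b) a b r d n (some (.inr (.inr (.inr (.inl true))))) =
        ((cr d (a * b) n : ℕ) : ℚ) := rfl
      have h4 : st (a * b) a b r d n (some (.inr (.inr (.inr (.inl false))))) =
        ((mk (a * b) n : ℕ) : ℚ) := rfl
      have hi : i.1 + 1 = a * b := by have := i.2; omega
      rw [map_add, Zr_eval h1 (W_lt hd) h2, map_sub, map_sub, map_add, map_mul, map_mul, map_mul,
        map_mul, map_mul, map_mul, Dl_eval h1 (W_lt hd) h2, map_pow, map_pow, eval_X, eval_X, eval_X,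
        eval_X, eval_C, h1, h2, h3, h4]
      show _ = ((W d (a * b) (n + 1 + i.1) : ℕ) : ℚ)
      rw [show n + 1 + i.1 = n + a * b by omega, W_step hd hk]
      simp
  · by_cases h : i.1 + 1 < a
    · simp only [frm, h, dif_pos]
      rw [Pl_eval h1 (U_lt hd) (w := U a (n + (i.1 + 1))) rfl]
      show _ = ((U a (n + 1 + i.1) : ℕ) : ℚ)
      rw [show n + (i.1 + 1) = n + 1 + i.1 by ring]
    · simp only [frm, h, dif_neg, not_false_eq_true]
      have h2 : st (a * b) a b r d n (some (.inr (.inl 0))) = ((U a n : ℕ) : ℚ) := by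
        show ((U a (n + ((0 : Fin a) : ℕ)) : ℕ) : ℚ) = _
        simp
      rw [Pl_eval h1 (U_lt hd) h2]
      show _ = ((U a (n + 1 + i.1) : ℕ) : ℚ)
      have hi : i.1 + 1 = a := by have := i.2; omega
      rw [show n + 1 + i.1 = n + a by omega, U_add]
  · by_cases h : i.1 + 1 < b
    · simp only [frm, h, dif_pos]
      rw [Pl_eval h1 (U_lt hd) (w := U b (n + (i.1 + 1))) rfl]
      show _ = ((U b (n + 1 + i.1) : ℕ) : ℚ)
      rw [show n + (i.1 + 1) = n + 1 + i.1 by ring]
    · simp only [frm, h, dif_neg, not_false_eq_true]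
      have h2 : st (a * b) a b r d n (some (.inr (.inr (.inl 0)))) = ((U b n : ℕ) : ℚ) := by
        show ((U b (n + ((0 : Fin b) : ℕ)) : ℕ) : ℚ) = _
        simp
      rw [Pl_eval h1 (U_lt hd) h2]
      show _ = ((U b (n + 1 + i.1) : ℕ) : ℚ)
      have hi : i.1 + 1 = b := by have := i.2; omega
      rw [show n + 1 + i.1 = n + b by omega, U_add]
  · have h2 : st (a * b) a b r d n (some (.inr (.inl 0))) = ((U a n : ℕ) : ℚ) := by
      show ((U a (n + ((0 : Fin a) : ℕ)) : ℕ) : ℚ) = _
      simp
    have h3 : st (a * b) a b r d n (some (.inr (.inr (.inl 0)))) = ((U b n : ℕ) : ℚ) := by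
      show ((U b (n + ((0 : Fin b) : ℕ)) : ℕ) : ℚ) = _
      simp
    have h4 : st (a * b) a b r d n (some (.inr (.inr (.inr (.inl true))))) =
      ((cr d (a * b) n : ℕ) : ℚ) := rfl
    simp only [frm]
    rw [map_add, Zr_eval h1 (cr_lt hd) h4, map_mul, map_mul, map_pow, eval_X, eval_X, eval_X, h1, h2,
      h3]
    show _ = ((mk (a * b) (n + 1) : ℕ) : ℚ)
    rw [mk_step hab]
    simp
  · have h2 : st (a * b) a b r d n (some (.inl 0)) = ((W d (a * b) n : ℕ) : ℚ) := by
      show ((W d (a * b) (n + ((0 : Fin (a * b)) : ℕ)) : ℕ) : ℚ) = _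
      simp
    have h3 : st (a * b) a b r d n (some (.inr (.inr (.inr (.inl true))))) =
      ((cr d (a * b) n : ℕ) : ℚ) := rfl
    have h4 : st (a * b) a b r d n (some (.inr (.inr (.inr (.inl false))))) =
      ((mk (a * b) n : ℕ) : ℚ) := rfl
    simp only [frm]
    rw [map_add, Zr_eval h1 (mk_lt hd) h4, map_add, map_mul, map_mul, Dl_eval h1 (W_lt hd) h2, map_pow,
      eval_X, eval_X, eval_X, h1, h3, h4]
    show _ = ((cr d (a * b) (n + 1) : ℕ) : ℚ)
    rw [cr_step hd hk]
    simp
  · have hd0 : d ≠ 0 := by omega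
    simp [frm, st, hd0]

/-- all the forms are homogeneous of degree `d` -/
theorem frm_hom {d : ℕ} (hd : 2 ≤ d) [NeZero k] [NeZero a] [NeZero b] (i : Ix k a b r) :
    (frm k a b r d i).IsHomogeneous d := by
  have h2 : ∀ u v w : Ix k a b r,
      (X u * X v * X w ^ (d - 2) : MvPolynomial (Ix k a b r) ℚ).IsHomogeneous d := by
    intro u v w
    have := ((isHomogeneous_X ℚ u).mul (isHomogeneous_X ℚ v)).mul
      (isHomogeneous_X_pow (R := ℚ) w (d - 2))
    rwa [show 1 + 1 + (d - 2) = d by omega] at this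
  have h1 : ∀ u w : Ix k a b r,
      (X u * X w ^ (d - 1) : MvPolynomial (Ix k a b r) ℚ).IsHomogeneous d := by
    intro u w
    have := (isHomogeneous_X ℚ u).mul (isHomogeneous_X_pow (R := ℚ) w (d - 1))
    rwa [show 1 + (d - 1) = d by omega] at this
  have h3 : ∀ u v w : Ix k a b r, (X u * Dl d v w).IsHomogeneous d := by
    intro u v w
    have := (isHomogeneous_X ℚ u).mul (Dl_hom d v w)
    rwa [show 1 + (d - 1) = d by omega] at this
  rcases i with _ | i | i | i | (_ | _) | i
  · exact isHomogeneous_X_pow _ _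
  · by_cases h : i.1 + 1 < k
    · simp only [frm, h, dif_pos]
      exact Pl_hom hd _ _
    · simp only [frm, h, dif_neg, not_false_eq_true]
      refine ((((h1 _ _).add (h1 _ _)).sub ?_).sub (h2 _ _ _)).add (Zr_hom d _ _)
      have := (isHomogeneous_C (Ix k a b r) (d : ℚ)).mul
        (h3 (some (.inr (.inr (.inr (.inl true))))) none (some (.inl 0)))
      rwa [zero_add] at this
  · by_cases h : i.1 + 1 < a
    · simp only [frm, h, dif_pos]
      exact Pl_hom hd _ _
    · simp only [frm, h, dif_neg, not_false_eq_true]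
      exact Pl_hom hd _ _
  · by_cases h : i.1 + 1 < b
    · simp only [frm, h, dif_pos]
      exact Pl_hom hd _ _
    · simp only [frm, h, dif_neg, not_false_eq_true]
      exact Pl_hom hd _ _
  · exact (h2 _ _ _).add (Zr_hom d _ _)
  · exact ((h3 _ _ _).add (h1 _ _)).add (Zr_hom d _ _)
  · exact isHomogeneous_X_pow _ _

/-- there is no common zero -/
theorem frm_zero {A : Type} [Field A] [Algebra ℚ A] {d : ℕ} (hd : 2 ≤ d) [NeZero k] [NeZero a]
    [NeZero b] {s : Ix k a b r → A} (h : ∀ i, aeval s (frm k a b r d i) = 0) : s = 0 := by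
  have hd0 : d ≠ 0 := by omega
  have hn : s none = 0 := by
    have := h none
    simp only [frm, map_pow, aeval_X] at this
    exact pow_eq_zero_iff hd0 |>.1 this
  have hx : ∀ i : Fin k, i.1 ≠ 0 → s (some (.inl i)) = 0 := by
    intro i hi
    have hi' : i.1 - 1 + 1 < k := by have := i.2; omega
    have := h (some (.inl ⟨i.1 - 1, by omega⟩))
    simp only [frm, hi', dif_pos] at this
    rw [Pl_zero hd hn] at this
    have h2 := pow_eq_zero_iff hd0 |>.1 this
    have e : (⟨i.1 - 1 + 1, hi'⟩ : Fin k) = i := Fin.ext (by simp; omega)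
    rwa [e] at h2
  have hu : ∀ i : Fin a, s (some (.inr (.inl i))) = 0 := by
    intro i
    by_cases hi : i.1 = 0
    · have ha : a ≠ 0 := NeZero.ne a
      have := h (some (.inr (.inl ⟨a - 1, by omega⟩)))
      simp only [frm, show ¬ (a - 1 + 1 < a) by omega, dif_neg, not_false_eq_true] at this
      rw [Pl_zero hd hn] at this
      have h2 := pow_eq_zero_iff hd0 |>.1 this
      have e : (0 : Fin a) = i := Fin.ext (by simp [hi])
      rwa [e] at h2
    · have hi' : i.1 - 1 + 1 < a := by have := i.2; omega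
      have := h (some (.inr (.inl ⟨i.1 - 1, by omega⟩)))
      simp only [frm, hi', dif_pos] at this
      rw [Pl_zero hd hn] at this
      have h2 := pow_eq_zero_iff hd0 |>.1 this
      have e : (⟨i.1 - 1 + 1, hi'⟩ : Fin a) = i := Fin.ext (by simp; omega)
      rwa [e] at h2
  have hv : ∀ i : Fin b, s (some (.inr (.inr (.inl i)))) = 0 := by
    intro i
    by_cases hi : i.1 = 0
    · have ha : b ≠ 0 := NeZero.ne b
      have := h (some (.inr (.inr (.inl ⟨b - 1, by omega⟩))))
      simp only [frm, show ¬ (b - 1 + 1 < b) by omega, dif_neg, not_false_eq_true] at this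
      rw [Pl_zero hd hn] at this
      have h2 := pow_eq_zero_iff hd0 |>.1 this
      have e : (0 : Fin b) = i := Fin.ext (by simp [hi])
      rwa [e] at h2
    · have hi' : i.1 - 1 + 1 < b := by have := i.2; omega
      have := h (some (.inr (.inr (.inl ⟨i.1 - 1, by omega⟩))))
      simp only [frm, hi', dif_pos] at this
      rw [Pl_zero hd hn] at this
      have h2 := pow_eq_zero_iff hd0 |>.1 this
      have e : (⟨i.1 - 1 + 1, hi'⟩ : Fin b) = i := Fin.ext (by simp; omega)
      rwa [e] at h2
  have hc : s (some (.inr (.inr (.inr (.inl true))))) = 0 := by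
    have := h (some (.inr (.inr (.inr (.inl false)))))
    simp only [frm] at this
    rw [map_add, Zr_zero hn, map_mul, map_mul, aeval_X, hu 0, zero_mul, zero_mul, zero_add] at this
    exact pow_eq_zero_iff hd0 |>.1 this
  have h0 : s (some (.inl 0)) = 0 := by
    have hk : k ≠ 0 := NeZero.ne k
    have := h (some (.inl ⟨k - 1, by omega⟩))
    simp only [frm, show ¬ (k - 1 + 1 < k) by omega, dif_neg, not_false_eq_true] at this
    rw [map_add, Zr_zero hn] at this
    simp only [map_sub, map_add, map_mul, map_pow, aeval_X, hn, hc, zero_pow (show d - 1 ≠ 0 by omega),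
      mul_zero, zero_mul, add_zero, sub_zero, zero_add] at this
    exact pow_eq_zero_iff hd0 |>.1 this
  have hm : s (some (.inr (.inr (.inr (.inl false))))) = 0 := by
    have := h (some (.inr (.inr (.inr (.inl true)))))
    simp only [frm] at this
    rw [map_add, Zr_zero hn] at this
    simp only [map_add, map_mul, map_pow, aeval_X, hn, hc, zero_pow (show d - 1 ≠ 0 by omega),
      mul_zero, zero_mul, add_zero, zero_add] at this
    exact pow_eq_zero_iff hd0 |>.1 this
  funext i
  rcases i with _ | i | i | i | (_ | _) | i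
  · exact hn
  · by_cases hi : i.1 = 0
    · have e : (0 : Fin k) = i := Fin.ext (by simp [hi])
      rw [← e]
      exact h0
    · exact hx i hi
  · exact hu i
  · exact hv i
  · exact hm
  · exact hc
  · have := h (some (.inr (.inr (.inr (.inr i)))))
    simp only [frm, map_pow, aeval_X] at this
    exact pow_eq_zero_iff hd0 |>.1 this

/-- **The exact period of the machine.** -/
theorem st_eq_iff {d : ℕ} (hd : 2 ≤ d) [NeZero a] [NeZero b] (hab : Nat.Coprime a b) (n : ℕ) :
    st (a * b) a b r d n = st (a * b) a b r d 0 ↔ a * b * d ^ (a * b - 1) ∣ n := by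
  have ha : 0 < a := Nat.pos_of_ne_zero (NeZero.ne a)
  have hb : 0 < b := Nat.pos_of_ne_zero (NeZero.ne b)
  have hk : 0 < a * b := Nat.mul_pos ha hb
  constructor
  · intro h
    have ring : ∀ c : ℕ, 0 < c → (∀ i : Fin c, U c (n + i.1) = U c (0 + i.1)) → c ∣ n := by
      intro c hc hU
      -- the position of the one
      have h1 := Nat.mod_lt (2 * c - 2) hc
      set i : ℕ := (2 * c - 2) % c with hi
      have h2 := hU ⟨i, h1⟩
      have h3 : c ∣ i + 2 := by
        have := Nat.div_add_mod (2 * c - 2) c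
        have h4 : c * ((2 * c - 2) / c) + (i + 2) = 2 * c := by omega
        have h5 : c ∣ c * ((2 * c - 2) / c) + (i + 2) := by
          rw [h4]
          exact Dvd.intro_left 2 rfl
        exact (Nat.dvd_add_right (Dvd.intro _ rfl)).1 h5
      unfold U at h2
      simp only [zero_add] at h2
      rw [if_pos h3] at h2
      by_cases h6 : c ∣ n + i + 2
      · have h7 : c ∣ n + (i + 2) := by rwa [← add_assoc]
        exact (Nat.dvd_add_left h3).1 h7
      · rw [if_neg h6] at h2
        exact absurd h2 (by norm_num)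
    have h1 : a ∣ n := ring a ha fun i => by
      have := congrFun h (some (.inr (.inl i)))
      exact Nat.cast_injective (R := ℚ) this
    have h2 : b ∣ n := ring b hb fun i => by
      have := congrFun h (some (.inr (.inr (.inl i))))
      exact Nat.cast_injective (R := ℚ) this
    obtain ⟨y, hy⟩ := hab.mul_dvd_of_dvd_of_dvd h1 h2
    have h3 : ∀ p : ℕ, p < a * b → (y % d ^ (a * b - 1) / d ^ p) % d = 0 := by
      intro p hp
      have h4 := congrFun h (some (.inl ⟨p, hp⟩))
      have h5 : W d (a * b) (n + p) = W d (a * b) (0 + p) := Nat.cast_injective (R := ℚ) h4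
      have h6 : W d (a * b) (n + p) = (y % d ^ (a * b - 1) / d ^ p) % d := by
        unfold W
        rw [hy, Nat.mul_add_div hk, Nat.mul_add_mod, Nat.div_eq_of_lt hp, Nat.mod_eq_of_lt hp,
          add_zero]
      have h7 : W d (a * b) (0 + p) = 0 := by
        unfold W
        rw [zero_add, Nat.div_eq_of_lt hp]
        simp
      rw [← h6, h5, h7]
    have h8 : ∀ p : ℕ, p ≤ a * b → d ^ p ∣ y % d ^ (a * b - 1) := by
      intro p
      induction p with
      | zero => intro _; simp
      | succ p ih =>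
        intro hp
        obtain ⟨z, hz⟩ := ih (by omega)
        have h9 := h3 p (by omega)
        rw [hz, Nat.mul_div_cancel_left _ (by positivity)] at h9
        obtain ⟨w, hw⟩ := Nat.dvd_of_mod_eq_zero h9
        refine ⟨w, ?_⟩
        rw [hz, hw]
        ring
    have h10 : y % d ^ (a * b - 1) = 0 := by
      apply Nat.eq_zero_of_dvd_of_lt (h8 (a * b) le_rfl)
      refine (Nat.mod_lt _ (by positivity)).trans_le ?_
      exact Nat.pow_le_pow_right (by omega) (by omega)
    rw [hy]
    exact Nat.mul_dvd_mul_left _ (Nat.dvd_of_mod_eq_zero h10)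
  · rintro ⟨y, hy⟩
    have hdiv : a * b ∣ n := ⟨d ^ (a * b - 1) * y, by rw [hy]; ring⟩
    have hU : ∀ c t : ℕ, c ∣ n → U c (n + t) = U c (0 + t) := by
      intro c t hc
      unfold U
      have : c ∣ n + t + 2 ↔ c ∣ 0 + t + 2 := by
        rw [zero_add, add_assoc]
        exact Nat.dvd_add_right hc
      simp only [this]
    have hq : n / (a * b) = d ^ (a * b - 1) * y := by
      rw [hy, mul_assoc]
      exact Nat.mul_div_cancel_left _ hk
    have hr : n % (a * b) = 0 := Nat.mod_eq_zero_of_dvd hdiv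
    funext i
    rcases i with _ | i | i | i | (_ | _) | i
    · rfl
    · show ((W d (a * b) (n + i.1) : ℕ) : ℚ) = ((W d (a * b) (0 + i.1) : ℕ) : ℚ)
      congr 1
      unfold W
      have e1 : (n + i.1) / (a * b) = d ^ (a * b - 1) * y := by
        rw [Nat.add_div_of_dvd_right hdiv, hq, Nat.div_eq_of_lt i.2, add_zero]
      have e2 : (n + i.1) % (a * b) = i.1 := by
        rw [Nat.add_mod, hr, zero_add, Nat.mod_mod, Nat.mod_eq_of_lt i.2]
      rw [e1, e2, Nat.mul_mod_right, zero_add, Nat.div_eq_of_lt i.2, Nat.mod_eq_of_lt i.2,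
        Nat.zero_mod]
    · show ((U a (n + i.1) : ℕ) : ℚ) = ((U a (0 + i.1) : ℕ) : ℚ)
      rw [hU a i.1 ((Dvd.intro _ rfl).trans hdiv)]
    · show ((U b (n + i.1) : ℕ) : ℚ) = ((U b (0 + i.1) : ℕ) : ℚ)
      rw [hU b i.1 ((Dvd.intro_left _ rfl).trans hdiv)]
    · show ((mk (a * b) n : ℕ) : ℚ) = ((mk (a * b) 0 : ℕ) : ℚ)
      unfold mk
      have : a * b ∣ n + 1 ↔ a * b ∣ 0 + 1 := by
        rw [zero_add]
        exact Nat.dvd_add_right hdiv
      simp only [this]
    · show ((cr d (a * b) n : ℕ) : ℚ) = ((cr d (a * b) 0 : ℕ) : ℚ)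
      unfold cr
      rw [hr, Nat.zero_mod, pow_zero, if_pos (one_dvd _), if_pos (one_dvd _)]
    · rfl

end Pool.Agent.L5helper9.Cy
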