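import Pool.Agent.L5helper9.Cy1

/-!
# Long rational cycles of endomorphisms of projective spaces: Singer cycles, transport, periods
-/

set_option autoImplicit false

namespace Pool.Agent.L5helper9.Cy

open MvPolynomial Finset Module

/-- the shift register of a generator of the multiplicative group of the field with `2 ^ (m + 1)`
elements -/
theorem singer (m : ℕ) : ∃ c : Fin (m + 1) → ZMod 2, c 0 = 1 ∧
    ∀ T : (Fin (m + 1) → ZMod 2) → (Fin (m + 1) → ZMod 2),
      (∀ x, T x 0 = x (Fin.last m)) →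
      (∀ x (i : Fin m), T x i.succ = x i.castSucc + c i.succ * x (Fin.last m)) →
      ∃ x₀, x₀ ≠ 0 ∧ ∀ j : ℕ, T^[j] x₀ = x₀ ↔ 2 ^ (m + 1) - 1 ∣ j := by
  classical
  set E := GaloisField 2 (m + 1) with hE
  have hm : m + 1 ≠ 0 := Nat.succ_ne_zero m
  have hfr : finrank (ZMod 2) E = m + 1 := GaloisField.finrank 2 hm
  have hcard : Nat.card E = 2 ^ (m + 1) := GaloisField.card 2 (m + 1) hm
  have hfin : Finite E := Nat.finite_of_card_ne_zero (by rw [hcard]; positivity)
  obtain ⟨g, hg⟩ := IsCyclic.exists_generator (α := Eˣ)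
  have hord : orderOf g = 2 ^ (m + 1) - 1 := by
    rw [orderOf_eq_card_of_forall_mem_zpowers hg, Nat.card_units, hcard]
  have hint : IsIntegral (ZMod 2) (g : E) := Algebra.IsIntegral.isIntegral _
  have htop : IntermediateField.adjoin (ZMod 2) {(g : E)} = ⊤ := by
    rw [eq_top_iff]
    intro x _
    by_cases hx : x = 0
    · rw [hx]
      exact zero_mem _
    · obtain ⟨n, hn⟩ := Subgroup.mem_zpowers_iff.1 (hg (Units.mk0 x hx))
      have h1 : x = (g : E) ^ n := by
        have := congrArg Units.val hn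
        simpa using this.symm
      rw [h1]
      exact zpow_mem (IntermediateField.mem_adjoin_simple_self _ _) n
  have hdeg : (minpoly (ZMod 2) (g : E)).natDegree = m + 1 := by
    rw [← IntermediateField.adjoin.finrank hint, htop, IntermediateField.finrank_top', hfr]
  have hli : LinearIndependent (ZMod 2) fun i : Fin (m + 1) => (g : E) ^ (i : ℕ) := by
    have h1 := linearIndependent_pow (K := ZMod 2) (g : E)
    rw [hdeg] at h1
    exact h1
  set b := basisOfLinearIndependentOfCardEqFinrank hli (by rw [Fintype.card_fin, hfr]) with hb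
  have hbi : ∀ i : Fin (m + 1), b i = (g : E) ^ (i : ℕ) := fun i => by
    rw [hb, coe_basisOfLinearIndependentOfCardEqFinrank]
  set c : Fin (m + 1) → ZMod 2 := fun i => b.repr ((g : E) ^ (m + 1)) i with hc
  have hmul : ∀ x : E, (g : E) * x = ∑ i : Fin m, b.repr x i.castSucc • b i.succ +
      b.repr x (Fin.last m) • (g : E) ^ (m + 1) := by
    intro x
    conv_lhs => rw [← b.sum_repr x]
    rw [Fin.sum_univ_castSucc, mul_add, Finset.mul_sum]
    congr 1
    · refine Finset.sum_congr rfl fun i _ => ?_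
      rw [mul_smul_comm, hbi, hbi, Fin.val_castSucc, Fin.val_succ, ← pow_succ']
    · rw [mul_smul_comm, hbi, Fin.val_last, ← pow_succ']
  have hr : ∀ (x : E) (j : Fin (m + 1)), b.repr ((g : E) * x) j =
      ∑ i : Fin m, b.repr x i.castSucc * (if i.succ = j then 1 else 0) +
        b.repr x (Fin.last m) * c j := by
    intro x j
    rw [hmul x, map_add, map_sum]
    simp only [map_smul, Finsupp.coe_add, Finsupp.coe_finsetSum, Finsupp.coe_smul, Pi.add_apply,
      Finset.sum_apply, Pi.smul_apply, smul_eq_mul, Basis.repr_self, Finsupp.single_apply, hc]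
  have hr0 : ∀ x : E, b.repr ((g : E) * x) 0 = c 0 * b.repr x (Fin.last m) := by
    intro x
    rw [hr x 0, Finset.sum_eq_zero, zero_add, mul_comm]
    intro i _
    rw [if_neg (Fin.succ_ne_zero i), mul_zero]
  have hc0 : c 0 = 1 := by
    have h1 : ∀ u : ZMod 2, u ≠ 0 → u = 1 := by decide
    apply h1
    intro h0
    have h2 := hr0 ((g : E)⁻¹ * b 0)
    rw [h0, zero_mul, mul_inv_cancel_left₀ g.ne_zero, Basis.repr_self, Finsupp.single_eq_same] at h2
    exact one_ne_zero h2
  refine ⟨c, hc0, fun T hT0 hT1 => ?_⟩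
  have hT : ∀ x : E, T (b.equivFun x) = b.equivFun ((g : E) * x) := by
    intro x
    funext j
    refine Fin.cases ?_ (fun i => ?_) j
    · rw [hT0, Basis.equivFun_apply, Basis.equivFun_apply, hr0, hc0, one_mul]
    · rw [hT1, Basis.equivFun_apply, Basis.equivFun_apply, hr]
      rw [Finset.sum_eq_single i]
      · rw [if_pos rfl, mul_one, mul_comm (c i.succ)]
      · intro k _ hk
        rw [if_neg (fun h => hk (Fin.succ_injective _ h)), mul_zero]
      · intro h
        exact absurd (Finset.mem_univ _) h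
  refine ⟨b.equivFun 1, ?_, fun j => ?_⟩
  · intro h
    exact one_ne_zero (b.equivFun.map_eq_zero_iff.1 h)
  · have h1 : T^[j] (b.equivFun 1) = b.equivFun ((g : E) ^ j) := by
      induction j with
      | zero => simp
      | succ j ih => rw [Function.iterate_succ_apply', ih, hT, ← pow_succ']
    rw [h1, EmbeddingLike.apply_eq_iff_eq, ← hord, orderOf_dvd_iff_pow_eq_one, ← Units.val_inj]
    simp

/-- the self-map of the space of coordinate vectors -/
noncomputable def sm {σ : Type} (F : σ → MvPolynomial σ ℚ) (x : σ → ℚ) : σ → ℚ :=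
  fun i => eval x (F i)

/-- an endomorphism of degree `d` -/
def End (d : ℕ) {σ : Type} (F : σ → MvPolynomial σ ℚ) : Prop :=
  (∀ i, (F i).IsHomogeneous d) ∧
    ∀ x : σ → AlgebraicClosure ℚ, (∀ i, aeval x (F i) = 0) → x = 0

/-- the point is periodic with exact period `n` -/
def Per {σ : Type} (F : σ → MvPolynomial σ ℚ) (x : σ → ℚ) (n : ℕ) : Prop :=
  x ≠ 0 ∧ ∀ j : ℕ, (∃ c : ℚ, c ≠ 0 ∧ (sm F)^[j] x = c • x) ↔ n ∣ j

/-- transport to another set of indices -/
noncomputable def tr {σ τ : Type} (e : σ ≃ τ) (F : σ → MvPolynomial σ ℚ) : τ → MvPolynomial τ ℚ :=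
  fun i => rename e (F (e.symm i))

theorem tr_end {σ τ : Type} (e : σ ≃ τ) {d : ℕ} {F : σ → MvPolynomial σ ℚ} (h : End d F) :
    End d (tr e F) := by
  refine ⟨fun i => (h.1 _).rename_isHomogeneous, fun x hx => ?_⟩
  have h1 := h.2 (x ∘ e) (fun i => by
    have := hx (e i)
    unfold tr at this
    rwa [Equiv.symm_apply_apply, aeval_rename] at this)
  funext i
  have := congrFun h1 (e.symm i)
  simpa using this

theorem tr_sm {σ τ : Type} (e : σ ≃ τ) (F : σ → MvPolynomial σ ℚ) (x : σ → ℚ) :
    sm (tr e F) (x ∘ e.symm) = sm F x ∘ e.symm := by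
  funext i
  unfold sm tr
  rw [eval_rename]
  simp [Function.comp_assoc]

theorem tr_iter {σ τ : Type} (e : σ ≃ τ) (F : σ → MvPolynomial σ ℚ) (x : σ → ℚ) (j : ℕ) :
    (sm (tr e F))^[j] (x ∘ e.symm) = (sm F)^[j] x ∘ e.symm := by
  induction j with
  | zero => rfl
  | succ j ih => rw [Function.iterate_succ_apply', ih, tr_sm, Function.iterate_succ_apply']

theorem tr_per {σ τ : Type} (e : σ ≃ τ) {F : σ → MvPolynomial σ ℚ} {x : σ → ℚ} {n : ℕ}
    (h : Per F x n) : Per (tr e F) (x ∘ e.symm) n := by
  refine ⟨fun h0 => h.1 ?_, fun j => ?_⟩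
  · funext i
    have := congrFun h0 (e i)
    simpa using this
  · rw [← h.2 j, tr_iter]
    refine exists_congr fun c => and_congr Iff.rfl ?_
    constructor
    · intro h1
      funext i
      have := congrFun h1 (e i)
      simpa using this
    · intro h1
      rw [h1]
      rfl

/-- **Cycles of length `2 ^ (m + 1) - 1` on `P^m`.** -/
theorem binary (m d : ℕ) (hd : 2 ≤ d) : ∃ (F : Fin (m + 1) → MvPolynomial (Fin (m + 1)) ℚ)
    (x : Fin (m + 1) → ℚ), End d F ∧ Per F x (2 ^ (m + 1) - 1) := by
  classical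
  obtain ⟨c, hc0, hc⟩ := singer m
  have hd0 : d ≠ 0 := by omega
  have hd1 : d - 1 ≠ 0 := by omega
  set F : Fin (m + 1) → MvPolynomial (Fin (m + 1)) ℚ :=
    Fin.cases (X (Fin.last m) ^ d) (fun i : Fin m => if c i.succ = 0 then X i.castSucc ^ d else
      X i.castSucc ^ d + X (Fin.last m) ^ d - C 2 * (X i.castSucc * X (Fin.last m) ^ (d - 1)))
    with hF
  have hF0 : F 0 = X (Fin.last m) ^ d := rfl
  have hF1 : ∀ i : Fin m, F i.succ = if c i.succ = 0 then X i.castSucc ^ d else
      X i.castSucc ^ d + X (Fin.last m) ^ d - C 2 * (X i.castSucc * X (Fin.last m) ^ (d - 1)) :=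
    fun i => rfl
  set T : (Fin (m + 1) → ZMod 2) → (Fin (m + 1) → ZMod 2) := fun x =>
    Fin.cases (x (Fin.last m)) (fun i : Fin m => x i.castSucc + c i.succ * x (Fin.last m)) with hT
  obtain ⟨x₀, hx₀, hper⟩ := hc T (fun x => rfl) (fun x i => rfl)
  set ι : (Fin (m + 1) → ZMod 2) → (Fin (m + 1) → ℚ) := fun x i => ((x i).val : ℚ) with hι
  have key : ∀ x, sm F (ι x) = ι (T x) := by
    intro x
    have hv : ∀ i, ι x i = 0 ∨ ι x i = 1 := by
      intro i
      have h1 : (x i).val < 2 := ZMod.val_lt _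
      have h2 : (x i).val = 0 ∨ (x i).val = 1 := by omega
      rcases h2 with h2 | h2
      · left
        show ((x i).val : ℚ) = 0
        rw [h2]
        norm_num
      · right
        show ((x i).val : ℚ) = 1
        rw [h2]
        norm_num
    have hp : ∀ (i : Fin (m + 1)) (k : ℕ), k ≠ 0 → ι x i ^ k = ι x i := by
      intro i k hk
      rcases hv i with h | h
      · rw [h, zero_pow hk]
      · rw [h, one_pow]
    funext j
    refine Fin.cases ?_ (fun i => ?_) j
    · show eval (ι x) (F 0) = _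
      rw [hF0, map_pow, eval_X, hp _ _ hd0]
      rfl
    · show eval (ι x) (F i.succ) = ι (T x) i.succ
      rw [hF1]
      have e1 : T x i.succ = x i.castSucc + c i.succ * x (Fin.last m) := rfl
      have hs : ι (T x) i.succ = ((x i.castSucc + c i.succ * x (Fin.last m)).val : ℚ) := by
        rw [hι]; simp only; rw [e1]
      rw [hs]
      by_cases h0 : c i.succ = 0
      · rw [if_pos h0, map_pow, eval_X, hp _ _ hd0, h0, zero_mul, add_zero]
      · have h1 : c i.succ = 1 := by
          have : ∀ u : ZMod 2, u ≠ 0 → u = 1 := by decide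
          exact this _ h0
        rw [if_neg h0, h1, one_mul]
        simp only [map_sub, map_add, map_mul, map_pow, eval_X, eval_C]
        rw [hp _ _ hd0, hp _ _ hd0, hp _ _ hd1]
        show ((x i.castSucc).val : ℚ) + ((x (Fin.last m)).val : ℚ) -
          2 * (((x i.castSucc).val : ℚ) * ((x (Fin.last m)).val : ℚ)) = _
        have : ∀ u v : ZMod 2, ((u + v).val : ℤ) = (u.val : ℤ) + v.val - 2 * (u.val * v.val) := by
          decide
        have h2 := this (x i.castSucc) (x (Fin.last m))
        have h3 : (((x i.castSucc + x (Fin.last m)).val : ℤ) : ℚ) =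
            (((x i.castSucc).val : ℤ) : ℚ) + ((x (Fin.last m)).val : ℤ) -
              2 * (((x i.castSucc).val : ℤ) * ((x (Fin.last m)).val : ℤ)) := by exact_mod_cast h2
        push_cast at h3
        linarith
  have hiter : ∀ j : ℕ, (sm F)^[j] (ι x₀) = ι (T^[j] x₀) := by
    intro j
    induction j with
    | zero => rfl
    | succ j ih => rw [Function.iterate_succ_apply', ih, key, Function.iterate_succ_apply']
  have hinj : ∀ x y : Fin (m + 1) → ZMod 2, ι x = ι y → x = y := by
    intro x y h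
    funext i
    have := congrFun h i
    simp only [hι] at this
    exact ZMod.val_injective 2 (by exact_mod_cast this)
  refine ⟨F, ι x₀, ⟨?_, ?_⟩, ?_, ?_⟩
  · intro j
    refine Fin.cases ?_ (fun i => ?_) j
    · rw [hF0]
      exact isHomogeneous_X_pow _ _
    · rw [hF1]
      split_ifs
      · exact isHomogeneous_X_pow _ _
      · refine ((isHomogeneous_X_pow _ _).add (isHomogeneous_X_pow _ _)).sub ?_
        have h1 := (isHomogeneous_X ℚ (i.castSucc : Fin (m + 1))).mul
          (isHomogeneous_X_pow (R := ℚ) (Fin.last m) (d - 1))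
        have h2 := (isHomogeneous_C (Fin (m + 1)) (2 : ℚ)).mul h1
        rwa [show 0 + (1 + (d - 1)) = d by omega] at h2
  · intro x hx
    have hl : x (Fin.last m) = 0 := by
      have := hx 0
      rw [hF0, map_pow, aeval_X] at this
      exact (pow_eq_zero_iff hd0).1 this
    funext j
    refine Fin.lastCases hl (fun i => ?_) j
    have := hx i.succ
    rw [hF1] at this
    split_ifs at this with h0
    · rw [map_pow, aeval_X] at this
      exact (pow_eq_zero_iff hd0).1 this
    · simp only [map_sub, map_add, map_mul, map_pow, aeval_X, hl, zero_pow hd0, zero_pow hd1,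
        mul_zero, sub_zero, add_zero] at this
      exact (pow_eq_zero_iff hd0).1 this
  · intro h
    apply hx₀
    apply hinj
    rw [h]
    funext i
    simp [hι]
  · intro j
    rw [hiter, ← hper j]
    constructor
    · rintro ⟨q, hq, h⟩
      obtain ⟨i, hi⟩ : ∃ i, x₀ i ≠ 0 := by
        by_contra hcon
        push Not at hcon
        exact hx₀ (funext hcon)
      have hi1 : x₀ i = 1 := by
        have : ∀ u : ZMod 2, u ≠ 0 → u = 1 := by decide
        exact this _ hi
      have h1 := congrFun h i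
      simp only [hι, Pi.smul_apply, smul_eq_mul, hi1] at h1
      have h2 : (T^[j] x₀) i = 0 ∨ (T^[j] x₀) i = 1 := by
        have : ∀ u : ZMod 2, u = 0 ∨ u = 1 := by decide
        exact this _
      have h3 : q = 1 := by
        rcases h2 with h2 | h2
        · rw [h2] at h1
          simp [ZMod.val_one] at h1
          exact absurd h1.symm hq
        · rw [h2] at h1
          simp [ZMod.val_one] at h1
          exact h1.symm
      rw [h3, one_smul] at h
      exact hinj _ _ h
    · intro h
      refine ⟨1, one_ne_zero, ?_⟩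
      rw [h, one_smul]

/-- **Cycles of length `a b d ^ (a b - 1)`.** -/
theorem odo (a b r d : ℕ) (hd : 2 ≤ d) (ha : 1 ≤ a) (hb : 1 ≤ b) (hab : Nat.Coprime a b) :
    ∃ (F : Fin (a * b + a + b + 2 + r + 1) → MvPolynomial (Fin (a * b + a + b + 2 + r + 1)) ℚ)
    (x : Fin (a * b + a + b + 2 + r + 1) → ℚ), End d F ∧ Per F x (a * b * d ^ (a * b - 1)) := by
  have : NeZero a := ⟨by omega⟩
  have : NeZero b := ⟨by omega⟩
  have : NeZero (a * b) := ⟨(Nat.mul_pos ha hb).ne'⟩
  have hcard : Fintype.card (Ix (a * b) a b r) = a * b + a + b + 2 + r + 1 := by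
    simp only [Fintype.card_option, Fintype.card_sum, Fintype.card_fin, Fintype.card_bool]
    ring
  set e := Fintype.equivFinOfCardEq hcard
  have h1 : End d (frm (a * b) a b r d) := ⟨fun i => frm_hom hd i, fun x hx => frm_zero hd hx⟩
  have hiter : ∀ j : ℕ, (sm (frm (a * b) a b r d))^[j] (st (a * b) a b r d 0) =
      st (a * b) a b r d j := by
    intro j
    induction j with
    | zero => rfl
    | succ j ih =>
      rw [Function.iterate_succ_apply', ih]
      funext i
      exact step hd hab j i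
  have h2 : Per (frm (a * b) a b r d) (st (a * b) a b r d 0) (a * b * d ^ (a * b - 1)) := by
    refine ⟨fun h => ?_, fun j => ?_⟩
    · have := congrFun h none
      exact one_ne_zero this
    · rw [hiter, ← st_eq_iff (r := r) hd hab j]
      constructor
      · rintro ⟨q, -, h⟩
        have h3 := congrFun h none
        have h4 : (1 : ℚ) = q * 1 := h3
        rw [mul_one] at h4
        rw [h, ← h4, one_smul]
      · intro h
        exact ⟨1, one_ne_zero, by rw [h, one_smul]⟩
  exact ⟨tr e (frm (a * b) a b r d), st (a * b) a b r d 0 ∘ e.symm, tr_end e h1, tr_per e h2⟩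

/-- **Cycles of length at least `d ^ (N - 5 √N)` on `P^N`.** -/
theorem long (N d : ℕ) (hd : 2 ≤ d) : ∃ (F : Fin (N + 1) → MvPolynomial (Fin (N + 1)) ℚ)
    (x : Fin (N + 1) → ℚ) (n : ℕ), End d F ∧ Per F x n ∧
      (d : ℝ) ^ ((N : ℝ) - 5 * √N) ≤ n := by
  set s : ℕ := Nat.sqrt N with hs
  have h1 : s * s ≤ N := Nat.sqrt_le N
  have h2 : N ≤ s * s + s + s := Nat.sqrt_le_add N
  have h3 : (s : ℝ) ≤ √N := by
    rw [Real.le_sqrt (by positivity) (by positivity)]
    rw [sq]
    exact_mod_cast h1
  have hd1 : (1 : ℝ) ≤ d := by exact_mod_cast (show 1 ≤ d by omega)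
  rcases Nat.lt_or_ge s 3 with h | h
  · obtain ⟨F, x, hF, hx⟩ := binary N d hd
    refine ⟨F, x, _, hF, hx, ?_⟩
    have h4 : (N : ℝ) - 5 * √N ≤ 0 := by
      have h5 : N ≤ s * s + s + s := h2
      have h6 : (N : ℝ) ≤ s * s + s + s := by exact_mod_cast h5
      have h7 : (s : ℝ) ≤ 2 := by exact_mod_cast (show s ≤ 2 by omega)
      have h8 : (0 : ℝ) ≤ s := Nat.cast_nonneg _
      nlinarith
    calc (d : ℝ) ^ ((N : ℝ) - 5 * √N) ≤ (d : ℝ) ^ (0 : ℝ) :=
          Real.rpow_le_rpow_of_exponent_le hd1 h4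
      _ = 1 := Real.rpow_zero _
      _ ≤ ((2 ^ (N + 1) - 1 : ℕ) : ℝ) := by
          have : 1 ≤ 2 ^ (N + 1) - 1 := by
            have : 2 ^ 1 ≤ 2 ^ (N + 1) := Nat.pow_le_pow_right (by norm_num) (by omega)
            omega
          exact_mod_cast this
  · obtain ⟨t, ht⟩ : ∃ t, s = t + 2 := ⟨s - 2, by omega⟩
    have ht1 : 1 ≤ t := by omega
    have hab : Nat.Coprime t (t + 1) := (Nat.coprime_self_add_right).2 (Nat.coprime_one_right t)
    obtain ⟨r, hr⟩ : ∃ r, N = t * (t + 1) + t + (t + 1) + 2 + r := by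
      refine ⟨N - (t * (t + 1) + t + (t + 1) + 2), ?_⟩
      have : t * (t + 1) + t + (t + 1) + 2 ≤ N := by
        refine le_trans ?_ h1
        rw [ht]
        nlinarith
      omega
    have hodo := odo t (t + 1) r d hd ht1 (by omega) hab
    rw [← hr] at hodo
    obtain ⟨F, x, hF, hx⟩ := hodo
    refine ⟨F, x, _, hF, hx, ?_⟩
    have hk : 1 ≤ t * (t + 1) := Nat.mul_pos ht1 (by omega)
    have h4 : (N : ℝ) - 5 * √N ≤ ((t * (t + 1) - 1 : ℕ) : ℝ) := by
      rw [Nat.cast_sub hk]
      push_cast
      have h5 : (N : ℝ) ≤ s * s + s + s := by exact_mod_cast h2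
      have h6 : (s : ℝ) = t + 2 := by rw [ht]; push_cast; ring
      rw [h6] at h5 h3
      nlinarith
    calc (d : ℝ) ^ ((N : ℝ) - 5 * √N) ≤ (d : ℝ) ^ (((t * (t + 1) - 1 : ℕ) : ℕ) : ℝ) :=
          Real.rpow_le_rpow_of_exponent_le hd1 h4
      _ = ((d ^ (t * (t + 1) - 1) : ℕ) : ℝ) := by rw [Real.rpow_natCast]; push_cast; rfl
      _ ≤ ((t * (t + 1) * d ^ (t * (t + 1) - 1) : ℕ) : ℝ) := by
          exact_mod_cast Nat.le_mul_of_pos_left _ hk

end Pool.Agent.L5helper9.Cy
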