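import Pool.Agent.L5helper9.Law2

/-!
# The final form of the limit laws
-/

set_option autoImplicit false
set_option linter.unusedSectionVars false

namespace Pool.Agent.L5helper9

open NumberField IsDedekindDomain Finset Filter Topology Module MeasureTheory
open Pool.Agent.H691R3 Pool.Agent.W223.AK Pool.Agent.N906.KG
open Pool.Agent.N170.KG (fin_pos)
open Pool.Agent.N906.EQ (Om rho rn Tail SS ss_one)

theorem ss_finsum {Ω : Type} {ρ E : Ω → ℝ} (hfin : ∀ B : ℝ, {P | ρ P ≤ B}.Finite) (f : ℝ → ℝ)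
    (B : ℝ) : SS ρ E f B = ∑ᶠ P ∈ {P | ρ P ≤ B}, f (E P) := by
  classical
  rw [finsum_mem_eq_finite_toFinset_sum _ (hfin B)]
  unfold SS
  rw [tsum_eq_sum (s := (hfin B).toFinset)]
  · refine Finset.sum_congr rfl fun P hP => ?_
    exact if_pos ((hfin B).mem_toFinset.1 hP)
  · intro P hP
    exact if_neg fun g => hP ((hfin B).mem_toFinset.2 g)

variable {K : Type} [Field K] [NumberField K] {q : ℕ}

theorem ss_set {T : Set (Pr K)} {α : Fin q → Fin 2 → K} {ρ : Om (Lf α) → ℝ}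
    (hfin : ∀ B : ℝ, {P | ρ P ≤ B}.Finite) (f : ℝ → ℝ) {B : ℝ}
    {A : Set (Projectivization K (Fin 2 → K))} (hA : vl α '' {P | ρ P ≤ B} = A) :
    SS ρ (EE T α) f B = ∑ᶠ P ∈ A, f (df T α P) := by
  rw [ss_finsum hfin, ← hA, finsum_mem_image (vl_inj α).injOn]
  rfl

theorem card_set {α : Fin q → Fin 2 → K} {ρ : Om (Lf α) → ℝ} {B : ℝ}
    {A : Set (Projectivization K (Fin 2 → K))} (hA : vl α '' {P | ρ P ≤ B} = A) :
    {P | ρ P ≤ B}.ncard = A.ncard := by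
  rw [← hA, Set.ncard_image_of_injective _ (vl_inj α)]

theorem fin_set {α : Fin q → Fin 2 → K} {ρ : Om (Lf α) → ℝ} (hfin : ∀ B : ℝ, {P | ρ P ≤ B}.Finite)
    {B : ℝ} {A : Set (Projectivization K (Fin 2 → K))} (hA : vl α '' {P | ρ P ≤ B} = A) :
    A.Finite := by
  rw [← hA]
  exact (hfin B).image _

/-- the mass of the limit is positive -/
theorem mass_pos {T : Set (Pr K)} (hT : T.Finite) (hq : 1 ≤ q) {α : Fin q → Fin 2 → K}
    (hα0 : ∀ i, α i ≠ 0) (hα : ∀ i j, i ≠ j → α i 0 * α j 1 - α i 1 * α j 0 ≠ 0)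
    {μ : Measure ℝ} [IsFiniteMeasure μ] (hμ : Lim T α μ) : 0 < μ.real Set.univ := by
  obtain ⟨t₀, -, h⟩ := mu_lower hT hq hα0 hα hμ (show (0 : ℝ) < 1 / 2 by norm_num) (by norm_num)
  exact lt_of_lt_of_le (Real.exp_pos _) ((h t₀ le_rfl).trans (measureReal_mono (Set.subset_univ _)))

/-- the normalised measure -/
noncomputable def nrm (μ : Measure ℝ) : Measure ℝ := (μ Set.univ)⁻¹ • μ

theorem nrm_prob {μ : Measure ℝ} [IsFiniteMeasure μ] (h : 0 < μ.real Set.univ) :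
    IsProbabilityMeasure (nrm μ) := by
  constructor
  unfold nrm
  rw [Measure.smul_apply, smul_eq_mul]
  refine ENNReal.inv_mul_cancel ?_ (measure_ne_top _ _)
  intro h0
  rw [measureReal_def, h0] at h
  simp at h

theorem nrm_integral {μ : Measure ℝ} (f : ℝ → ℝ) :
    ∫ x, f x ∂(nrm μ) = (∫ x, f x ∂μ) / μ.real Set.univ := by
  unfold nrm
  rw [integral_smul_measure, ENNReal.toReal_inv, smul_eq_mul, measureReal_def]
  ring

theorem nrm_real {μ : Measure ℝ} (s : Set ℝ) :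
    (nrm μ).real s = (μ.real Set.univ)⁻¹ * μ.real s := by
  unfold nrm
  rw [measureReal_def, Measure.smul_apply, smul_eq_mul, ENNReal.toReal_mul, ENNReal.toReal_inv]
  rfl

theorem wd_zero (μ : Measure ℝ) : wd μ 0 = μ := by
  unfold wd
  have : (fun x : ℝ => (Real.toNNReal (Real.exp (0 * x)) : ENNReal)) = 1 := by
    funext x
    simp
  rw [this, withDensity_one]

/-- the mass with the density is positive -/
theorem wd_pos {T : Set (Pr K)} (hT : T.Finite) (hq : 1 ≤ q) {α : Fin q → Fin 2 → K}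
    (hα0 : ∀ i, α i ≠ 0) (hα : ∀ i j, i ≠ j → α i 0 * α j 1 - α i 1 * α j 0 ≠ 0)
    {μ : Measure ℝ} [IsFiniteMeasure μ] (hμ : Lim T α μ) {b : ℝ} (hb : 0 ≤ b)
    [IsFiniteMeasure (wd μ b)] : 0 < (wd μ b).real Set.univ := by
  obtain ⟨t₀, -, h⟩ := mu_lower hT hq hα0 hα hμ (show (0 : ℝ) < 1 / 2 by norm_num) (by norm_num)
  have h1 : 0 < μ.real (Set.Ioi t₀) := lt_of_lt_of_le (Real.exp_pos _) (h t₀ le_rfl)
  have h2 := wd_lower (μ := μ) hb t₀
  have h3 : 0 < Real.exp (b * t₀) * μ.real (Set.Ioi t₀) := by positivity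
  exact lt_of_lt_of_le h3 (h2.trans (measureReal_mono (Set.subset_univ _)))

/-- **The limit law in the order of the height.** -/
theorem height_law {T : Set (Pr K)} (hT : T.Finite) (hq : 2 ≤ q) {α : Fin q → Fin 2 → K}
    (hα0 : ∀ i, α i ≠ 0) (hα : ∀ i j, i ≠ j → α i 0 * α j 1 - α i 1 * α j 0 ≠ 0)
    {A : ℝ → Set (Projectivization K (Fin 2 → K))}
    (hA : ∀ B : ℝ, 0 < B → vl α '' {P | rho (Lf α) P ≤ B} = A B) :
    ∃ ν : Measure ℝ, IsProbabilityMeasure ν ∧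
      (∀ f : ℝ → ℝ, Continuous f → (∃ M : ℝ, ∀ x, |f x| ≤ M) →
        Tendsto (fun B : ℝ => (∑ᶠ P ∈ A B, f (df T α P)) / ((A B).ncard : ℝ)) atTop
          (𝓝 (∫ x, f x ∂ν))) ∧
      Tendsto (fun t : ℝ => (Real.log (ν.real (Set.Ioi t)) + finrank ℚ K * t) /
        √(t / Real.log t)) atTop (𝓝 √(8 * q * finrank ℚ K)) := by
  have hd1 : (1 : ℝ) ≤ finrank ℚ K := by exact_mod_cast (finrank_pos (R := ℚ) (M := K))
  have hq0 : (0 : ℝ) < q := by
    have : 0 < q := by omega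
    exact_mod_cast this
  obtain ⟨c₀, hTl⟩ := tail_nine hT hq hα0 hα
  obtain ⟨μ, hfin, -, hμ, -⟩ := law_all hT hα0 (by positivity) hTl
  have hmass := mass_pos hT (by omega) hα0 hα hμ
  refine ⟨nrm μ, nrm_prob hmass, ?_, ?_⟩
  · intro f hf hM
    rw [nrm_integral]
    have h1 := hμ f hf hM
    have h2 := hμ (fun _ => 1) continuous_const ⟨1, fun _ => by simp⟩
    rw [integral_const, smul_eq_mul, mul_one] at h2
    refine (h1.div h2 hmass.ne').congr' ?_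
    filter_upwards [eventually_gt_atTop 0] with B hB
    have hBD : 0 < B ^ ((2 * finrank ℚ K : ℕ) : ℝ) := Real.rpow_pos_of_pos hB _
    rw [Pi.div_apply, div_div_div_cancel_right₀ hBD.ne', ss_one (rho_fin α), card_set (hA B hB),
      ss_set (rho_fin α) f (hA B hB)]
  · have hw : IsFiniteMeasure (wd μ 0) := by rw [wd_zero]; exact hfin
    have h1 := tail_asym hT hq hα0 hα hμ (b := 0) le_rfl (by linarith)
      (s := (μ.real Set.univ)⁻¹) (inv_pos.2 hmass)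
    rw [wd_zero, sub_zero] at h1
    refine h1.congr fun t => ?_
    rw [nrm_real]

/-- **The asymptotic formula and the limit law in the order of the counting function.** -/
theorem counting_law {T : Set (Pr K)} (hT : T.Finite) (hq : 3 ≤ q) {α : Fin q → Fin 2 → K}
    (hα0 : ∀ i, α i ≠ 0) (hα : ∀ i j, i ≠ j → α i 0 * α j 1 - α i 1 * α j 0 ≠ 0)
    {A : ℝ → Set (Projectivization K (Fin 2 → K))}
    (hA : ∀ X : ℝ, 0 < X → A X = {P | Off1 α P ∧ counting T α P.rep ≤ Real.log X}) :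
    (∀ X : ℝ, 0 < X → (A X).Finite) ∧
    ∃ μ : Measure ℝ, IsFiniteMeasure μ ∧ 0 < μ.real Set.univ ∧
      (∀ f : ℝ → ℝ, Continuous f → (∃ M : ℝ, ∀ x, |f x| ≤ M) →
        Tendsto (fun X : ℝ => (∑ᶠ P ∈ A X, f (df T α P)) /
          X ^ (2 * (finrank ℚ K : ℝ) / q)) atTop (𝓝 (∫ x, f x ∂μ))) ∧
      Tendsto (fun t : ℝ => (Real.log (μ.real (Set.Ioi t)) + (1 - 2 / q) * finrank ℚ K * t) /
        √(t / Real.log t)) atTop (𝓝 √(8 * q * finrank ℚ K)) := by
  have hd1 : (1 : ℝ) ≤ finrank ℚ K := by exact_mod_cast (finrank_pos (R := ℚ) (M := K))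
  have hq3 : (3 : ℝ) ≤ q := by exact_mod_cast hq
  have hq0 : (0 : ℝ) < q := by linarith
  obtain ⟨c₀, hTl⟩ := tail_q hT hq hα0 hα
  obtain ⟨μ, hfin, hint, hμ, hμ2⟩ := law_all hT hα0 hq0 hTl
  obtain ⟨b, hb⟩ : ∃ b : ℝ, b = 2 * finrank ℚ K / q := ⟨_, rfl⟩
  have hb0 : 0 ≤ b := by rw [hb]; positivity
  have hbx : ∀ x : ℝ, ((2 * finrank ℚ K : ℕ) : ℝ) * x / q = b * x := by
    intro x
    rw [hb]
    push_cast
    ring
  have hint' : Integrable (fun x => Real.exp (b * x)) μ := by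
    refine hint.congr (Eventually.of_forall fun x => ?_)
    show Real.exp (((2 * finrank ℚ K : ℕ) : ℝ) * x / q) = _
    rw [hbx]
  have hw : IsFiniteMeasure (wd μ b) := wd_finite hint'
  have hbd : b < finrank ℚ K := by
    rw [hb, div_lt_iff₀ hq0]
    nlinarith
  have hmass := wd_pos hT (by omega) hα0 hα hμ hb0
  have hrf : ∀ B : ℝ, {P : Om (Lf α) | rn (rho (Lf α)) (EE T α) q P ≤ B}.Finite := hTl.fin
  have hset : ∀ X : ℝ, 0 < X →
      vl α '' {P | rn (rho (Lf α)) (EE T α) q P ≤ X ^ ((q : ℝ)⁻¹)} = A X := by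
    intro X hX
    rw [hA X hX]
    have hiff : ∀ P : Om (Lf α), rn (rho (Lf α)) (EE T α) q P ≤ X ^ ((q : ℝ)⁻¹) ↔
        counting T α P.1.rep ≤ Real.log X := by
      intro P
      rw [rn_q T (by omega), Real.rpow_def_of_pos hX, Real.exp_le_exp, ← div_eq_mul_inv,
        div_le_div_iff_of_pos_right hq0]
    ext P
    constructor
    · rintro ⟨Q, hQ, rfl⟩
      exact ⟨(off_iff α _).2 Q.2, (hiff Q).1 hQ⟩
    · rintro ⟨h1, h2⟩
      exact ⟨⟨P, (off_iff α P).1 h1⟩, (hiff _).2 h2, rfl⟩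
  have htend : Tendsto (fun X : ℝ => X ^ ((q : ℝ)⁻¹)) atTop atTop :=
    tendsto_rpow_atTop (inv_pos.2 hq0)
  have hpow : ∀ X : ℝ, 0 < X → (X ^ ((q : ℝ)⁻¹)) ^ ((2 * finrank ℚ K : ℕ) : ℝ) =
      X ^ (2 * (finrank ℚ K : ℝ) / q) := by
    intro X hX
    rw [← Real.rpow_mul hX.le]
    congr 1
    push_cast
    ring
  have hlim : ∀ f : ℝ → ℝ, Continuous f → (∃ M : ℝ, ∀ x, |f x| ≤ M) →
      Tendsto (fun X : ℝ => (∑ᶠ P ∈ A X, f (df T α P)) / X ^ (2 * (finrank ℚ K : ℝ) / q)) atTop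
        (𝓝 (∫ x, f x ∂(wd μ b))) := by
    intro f hf hM
    have h1 := (hμ2 f hf hM).comp htend
    rw [wd_integral]
    have h2 : ∫ x, f x * Real.exp (b * x) ∂μ =
        ∫ x, f x * Real.exp (((2 * finrank ℚ K : ℕ) : ℝ) * x / q) ∂μ := by
      refine integral_congr_ae (Eventually.of_forall fun x => ?_)
      show _ = f x * Real.exp (((2 * finrank ℚ K : ℕ) : ℝ) * x / q)
      rw [hbx]
    rw [h2]
    refine h1.congr' ?_
    filter_upwards [eventually_gt_atTop 0] with X hX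
    show SS (rn (rho (Lf α)) (EE T α) q) (EE T α) f (X ^ ((q : ℝ)⁻¹)) /
      (X ^ ((q : ℝ)⁻¹)) ^ ((2 * finrank ℚ K : ℕ) : ℝ) = _
    rw [hpow X hX, ss_set hrf f (hset X hX)]
  refine ⟨fun X hX => fin_set hrf (hset X hX), wd μ b, hw, hmass, hlim, ?_⟩
  have h1 := tail_asym hT (by omega) hα0 hα hμ hb0 hbd one_pos
  refine h1.congr fun t => ?_
  rw [one_mul]
  congr 2
  rw [hb]
  ring

end Pool.Agent.L5helper9
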