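import Pool.Agent.W238.Leh.General

/-!
# Points of small canonical height on the projective line: `O(D log D)` points (after `W238.Leh.Region`)
-/

set_option autoImplicit false
set_option linter.unusedSectionVars false

namespace Pool.Agent.L5helper9.Gl

open NumberField Module MvPolynomial Pool.Agent.W238.Leh

noncomputable section

variable {K : Type} [Field K] [NumberField K]
variable {L : Type} [Field L] [NumberField L] [Algebra K L]
variable {F : Fin (1 + 1) → MvPolynomial (Fin (1 + 1)) K} {d a c : ℕ} {A : ℝ}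

/-- **the number of points of small height in a small region** -/
theorem region1 (h : Bds F d A a) (hd : 2 ≤ d) (hF : ∀ i, (F i).IsHomogeneous d)
    (hc : ∀ m, c + d ≤ m → ∀ p : MvPolynomial (Fin (1 + 1)) K, p.IsHomogeneous m →
      p ∈ Ideal.span (Set.range F))
    {ρ : ℝ} (hρ : 0 < ρ) (hρ1 : ρ < 1)
    (hρA : Real.log A + Real.log (2 * A) + 1 ≤ 1 / 2 * Real.log (1 / ρ))
    (w₀ : InfinitePlace L) (cc : Fin (1 + 1) → ℂ) (hcc : ∀ t, ‖cc t‖ ≤ 1) (a₀ : Fin (1 + 1))
    {ι : Type*} [Fintype ι] (p : ι → Fin (1 + 1) → L) (hinj : Function.Injective p)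
    (hp : ∀ i, p i a₀ = 1) (hpc : ∀ i t, ‖w₀.embedding (p i t) - cc t‖ ≤ ρ)
    (hH : ∀ i, canH F d (p i) ≤ 1 / (2 * (finrank ℚ L : ℝ)))
    {m : ℕ} (hm1 : 1 ≤ m)
    (hm : (finrank ℚ L : ℝ) * (hC A a * ((c + d : ℕ) * (1 + Nat.log 2 m : ℕ)) +
      (1 : ℕ) * Real.log (m + 1)) < m / 2) :
    Fintype.card ι ≤ m := by
  by_contra hcon
  push Not at hcon
  set n := Fintype.card ι with hn
  have hA := h.hA
  have hD := finrank_pos' (L := L)
  set r := finrank L (EL K p m) with hr
  have hrm : m + 1 ≤ r := by
    have := le_finrank_EL (K := K) hp hinj m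
    rw [← hr, ← hn] at this
    have h2 : m + 1 ≤ min n (m + 1) := le_min (by omega) le_rfl
    omega
  have hr1 : 1 ≤ r := by omega
  have hrN : r ≤ (m + 1) ^ 1 := finrank_EL_le hp m
  have hgr : 1 / 2 * ((m : ℝ) * r) ≤
      ((∑ k ∈ Finset.range m, (r - finrank L (EL K p k)) : ℕ) : ℝ) := by
    have h1 : ∀ k ∈ Finset.range m, m - k ≤ r - finrank L (EL K p k) := by
      intro k hk
      have h2 : finrank L (EL K p k) ≤ (k + 1) ^ 1 := finrank_EL_le hp k
      rw [pow_one] at h2
      rw [Finset.mem_range] at hk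
      omega
    have h3 : m * (m + 1) / 2 ≤ ∑ k ∈ Finset.range m, (r - finrank L (EL K p k)) := by
      refine le_trans (le_of_eq ?_) (Finset.sum_le_sum h1)
      have h4 : ∑ k ∈ Finset.range m, (m - k) = ∑ k ∈ Finset.range (m + 1), k := by
        rw [Finset.sum_range_succ', add_zero, ← Finset.sum_range_reflect]
        apply Finset.sum_congr rfl
        intro k hk
        rw [Finset.mem_range] at hk
        omega
      rw [h4, Finset.sum_range_id, Nat.add_sub_cancel, mul_comm]
    have h5 : m * (m + 1) = 2 * (m * (m + 1) / 2) := by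
      have := Nat.even_mul_succ_self m
      obtain ⟨c, hc⟩ := this
      have : m * (m + 1) = 2 * c := by
        rw [show m + 1 = m.succ from rfl, hc]
        ring
      omega
    have h6 : ((m : ℝ) * (m + 1)) = 2 * ((m * (m + 1) / 2 : ℕ) : ℝ) := by exact_mod_cast h5
    have h7 : ((m * (m + 1) / 2 : ℕ) : ℝ) ≤
        ((∑ k ∈ Finset.range m, (r - finrank L (EL K p k)) : ℕ) : ℝ) := by exact_mod_cast h3
    have h8 : (r : ℝ) ≤ m + 1 := by
      rw [pow_one] at hrN
      exact_mod_cast hrN
    have h9 : (0 : ℝ) ≤ m := by positivity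
    nlinarith
  obtain ⟨l, hl1, hl2, hl3, hl4⟩ := exists_list (c := c) hd m
  have hspan := EL_le_span hF hc p l hl2
  rw [hl1] at hspan
  obtain ⟨φv, hφt, hφli⟩ := exists_indep (L := L)
    {v : ι → L | ∃ φ ∈ GG F l, v = fun i => aeval (p i) φ} (Submodule.finrank_mono hspan)
  choose φ hφG hφe using hφt
  obtain ⟨e, he⟩ := exists_minor φv hφli
  have hM : (Matrix.of fun j k => φv j (e k)) =
      (Matrix.of fun j k => aeval (p (e k)) (φ j)) := by
    ext j k
    simp only [Matrix.of_apply]
    rw [hφe j]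
  rw [hM] at he
  set M : Matrix (Fin r) (Fin r) L := Matrix.of fun j k => aeval (p (e k)) (φ j) with hMdef
  have hp0 : ∀ i, p i ≠ 0 := by
    intro i h0
    have := hp i
    rw [h0] at this
    simp at this
  have hiter : ∀ i j, (act F)^[j] (p i) ≠ 0 := fun i j => h.iter_ne_zero (hp0 i) j
  -- local bounds
  have hwtpos : ∀ (w : InfinitePlace L) k, 0 < wt (nmi w) (act F) l (p (e k)) :=
    fun w k => wt_pos l fun j => nmi_pos w (hiter _ j)
  have hwtposf : ∀ (v : FinitePlace L) k, 0 < wt (nmf v) (act F) l (p (e k)) :=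
    fun v k => wt_pos l fun j => nmf_pos v (hiter _ j)
  have hinf : ∀ w : InfinitePlace L, Real.log (w M.det) ≤
      ∑ k, Real.log (wt (nmi w) (act F) l (p (e k))) + Real.log r.factorial := by
    intro w
    have h1 : w M.det ≤ r.factorial * ∏ k, wt (nmi w) (act F) l (p (e k)) := by
      apply det_le_inf
      intro j k
      exact abs_le_wt (w.1.toMonoidWithZeroHom) (fun x => w.1.nonneg x)
        (fun x j => le_nmi w x j) (fun x => nmi_nonneg w x) l (hφG j) (p (e k))
    have h2 : 0 < w M.det := InfinitePlace.pos_iff.mpr he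
    have h3 := Real.log_le_log h2 h1
    rw [Real.log_mul (by positivity) (Finset.prod_pos fun k _ => hwtpos w k).ne',
      Real.log_prod (fun k _ => (hwtpos w k).ne')] at h3
    linarith
  have hfin : ∀ v : FinitePlace L, Real.log (v M.det) ≤
      ∑ k, Real.log (wt (nmf v) (act F) l (p (e k))) := by
    intro v
    have h1 : v M.det ≤ ∏ k, wt (nmf v) (act F) l (p (e k)) := by
      apply det_le_fin v _ _ (fun k => (hwtposf v k).le)
      intro j k
      exact abs_le_wt (v.1.toMonoidWithZeroHom) (fun x => v.1.nonneg x)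
        (fun x j => le_nmf v x j) (fun x => nmf_nonneg v x) l (hφG j) (p (e k))
    have h2 : 0 < v M.det := FinitePlace.pos_iff.mpr he
    have h3 := Real.log_le_log h2 h1
    rwa [Real.log_prod (fun k _ => (hwtposf v k).ne')] at h3
  -- the special place
  have hw₀ : Real.log (w₀ M.det) ≤ ∑ k, Real.log (wt (nmi w₀) (act F) l (p (e k))) +
      Real.log r.factorial - r * m := by
    set T := ∑ k ∈ Finset.range m, (r - finrank ℂ (EC w₀.embedding
      (EL K (fun j => p (e j)) k))) with hT
    have hTge : 1 / 2 * (m * r) ≤ (T : ℝ) := by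
      refine hgr.trans ?_
      have : ∑ k ∈ Finset.range m, (r - finrank L (EL K p k)) ≤ T := by
        refine Finset.sum_le_sum fun k _ => ?_
        have h1 := finrank_EC_le w₀.embedding (EL K (fun j => p (e j)) k)
        have h2 := finrank_EL_comp (K := K) p e k
        omega
      exact_mod_cast this
    have h1 := det_small (filt_EC (K := K) w₀.embedding (p := fun j => p (e j))
      (a₀ := a₀) (fun i => hp _)) (c := cc) hρ hρ1 (fun i t => hpc (e i) t) hcc
      (fun j => map (bemb K w₀) (φ j)) (B := (2 * A) ^ m) (by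
        intro j y hy
        rw [eval_map]
        have h2 := h.GG_complex hd (bemb K w₀) l (hφG j) y
        rw [hl1] at h2
        refine h2.trans (pow_le_pow_left₀ (by positivity) ?_ _)
        have h3 : ‖y‖ ≤ 2 := (pi_norm_le_iff_of_nonneg (by norm_num)).mpr hy
        nlinarith) m
    rw [← hT] at h1
    have h2 : ‖(Matrix.of fun j i => MvPolynomial.eval (fun t => w₀.embedding (p (e i) t))
        (map (bemb K w₀) (φ j))).det‖ = w₀ M.det := by
      rw [← InfinitePlace.norm_embedding_eq, RingHom.map_det]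
      congr 2
      ext j i
      simp only [Matrix.of_apply, RingHom.mapMatrix_apply, Matrix.map_apply, hMdef]
      rw [eval_map]
      exact eval_cvec w₀ (p (e i)) (φ j)
    rw [h2] at h1
    have h3 : 0 < w₀ M.det := InfinitePlace.pos_iff.mpr he
    have h4 := Real.log_le_log h3 h1
    rw [Real.log_mul (by positivity) (by positivity), Real.log_mul (by positivity)
      (by positivity), Real.log_pow, Real.log_pow, Real.log_pow] at h4
    have h5 : ∀ k, -(m * Real.log A) ≤ Real.log (wt (nmi w₀) (act F) l (p (e k))) := by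
      intro k
      have h6 := le_wt hd hA (fun y => nmi_nonneg w₀ y) (fun x => h.loi w₀ x) l (p (e k))
      rw [hl1] at h6
      have h7 : 1 ≤ nmi w₀ (p (e k)) := by
        have h8 := le_nmi w₀ (p (e k)) a₀
        rw [hp] at h8
        have h9 : w₀ (1 : L) = 1 := by
          rw [← InfinitePlace.norm_embedding_eq, map_one, norm_one]
        rwa [h9] at h8
      have h8 : 1 ≤ A ^ m * wt (nmi w₀) (act F) l (p (e k)) :=
        (one_le_pow₀ h7).trans h6
      have h9 := Real.log_le_log one_pos h8
      rw [Real.log_one, Real.log_mul (by positivity) (hwtpos w₀ k).ne', Real.log_pow] at h9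
      linarith
    have h6 : -(r * (m * Real.log A)) ≤ ∑ k, Real.log (wt (nmi w₀) (act F) l (p (e k))) := by
      have h7 := Finset.sum_le_sum (fun k (_ : k ∈ (Finset.univ : Finset (Fin r))) => h5 k)
      rw [Finset.sum_const, Finset.card_univ, Fintype.card_fin, nsmul_eq_mul] at h7
      linarith
    have h7 : (T : ℝ) * Real.log ρ ≤ -(r * m * (Real.log A + Real.log (2 * A) + 1)) := by
      have h8 : Real.log ρ = -Real.log (1 / ρ) := by
        rw [one_div, Real.log_inv, neg_neg]
      have h9 : 0 ≤ Real.log (1 / ρ) := by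
        apply Real.log_nonneg
        rw [le_div_iff₀ hρ]
        linarith
      have h10 : (r * m : ℝ) * (Real.log A + Real.log (2 * A) + 1) ≤ T * Real.log (1 / ρ) := by
        calc (r * m : ℝ) * (Real.log A + Real.log (2 * A) + 1) ≤
            (r * m) * (1 / 2 * Real.log (1 / ρ)) :=
              mul_le_mul_of_nonneg_left hρA (by positivity)
          _ = (1 / 2 * (m * r)) * Real.log (1 / ρ) := by ring
          _ ≤ T * Real.log (1 / ρ) := mul_le_mul_of_nonneg_right hTge h9
      rw [h8]
      linarith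
    have h11 : (r : ℝ) * (m * Real.log (2 * A)) = r * m * Real.log (2 * A) := by ring
    nlinarith [h4, h6, h7]
  -- the product formula
  have hgs1 : HasGS (fun w => ∑ k, Real.log (wt (nmi w) (act F) l (p (e k))))
      (fun v => ∑ k, Real.log (wt (nmf v) (act F) l (p (e k)))) (∑ k, HL F l (p (e k))) :=
    HasGS.sum Finset.univ fun k _ => HasGS.wt l (hiter (e k))
  have hmain := (HasGS.prod he).le_gain hgs1 (c := Real.log r.factorial) (g := r * m)
    (by positivity) hinf w₀ hw₀ hfin
  have hHL : ∀ k, HL F l (p (e k)) ≤ m / 2 + finrank ℚ L *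
      (hC A a * ((c + d : ℕ) * (1 + Nat.log 2 m : ℕ))) := by
    intro k
    refine (h.HL_le hd l (hp0 (e k))).trans ?_
    rw [hl1, mul_add]
    have h1 : (finrank ℚ L : ℝ) * (m * canH F d (p (e k))) ≤ m / 2 := by
      have h2 := mul_le_mul_of_nonneg_left (hH (e k))
        (show (0 : ℝ) ≤ (finrank ℚ L : ℝ) * m by positivity)
      calc _ = (finrank ℚ L : ℝ) * m * canH F d (p (e k)) := by ring
        _ ≤ _ := h2
        _ = m / 2 := by field_simp
    have h2 : (l.sum : ℝ) ≤ (c + d : ℕ) * (1 + Nat.log 2 m : ℕ) := by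
      have h3 : l.sum ≤ l.length * (c + d) := by
        have := List.sum_le_card_nsmul l (c + d) hl3
        simpa using this
      have h4 : l.length * (c + d) ≤ (c + d) * (1 + Nat.log 2 m) := by
        rw [mul_comm]
        exact Nat.mul_le_mul_left _ hl4
      exact_mod_cast h3.trans h4
    have h3 : (finrank ℚ L : ℝ) * (hC A a * l.sum) ≤
        finrank ℚ L * (hC A a * ((c + d : ℕ) * (1 + Nat.log 2 m : ℕ))) :=
      mul_le_mul_of_nonneg_left (mul_le_mul_of_nonneg_left h2 h.hC_nonneg) hD.le
    linarith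
  have hsum : ∑ k, HL F l (p (e k)) ≤ r * (m / 2 + finrank ℚ L *
      (hC A a * ((c + d : ℕ) * (1 + Nat.log 2 m : ℕ)))) := by
    have h7 := Finset.sum_le_sum (fun k (_ : k ∈ (Finset.univ : Finset (Fin r))) => hHL k)
    rwa [Finset.sum_const, Finset.card_univ, Fintype.card_fin, nsmul_eq_mul] at h7
  have hlf := log_factorial_le (N := 1) hr1 hrN
  have hr0 : (0 : ℝ) < r := by exact_mod_cast hr1
  have h8 := mul_le_mul_of_nonneg_left hlf hD.le
  have h9 := mul_lt_mul_of_pos_left hm hr0
  simp only [Nat.cast_one, one_mul] at h8 h9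
  nlinarith [hmain, hsum, h8, h9]

end

end Pool.Agent.L5helper9.Gl
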