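import Pool.Agent.L5helper9.Gl1

/-!
# Points of small canonical height on the projective line: all regions (after `W238.Leh.Count`)
-/

set_option autoImplicit false
set_option linter.unusedSectionVars false

namespace Pool.Agent.L5helper9.Gl

open NumberField Module MvPolynomial Filter Topology Pool.Agent.W238.Leh

noncomputable section

variable {K : Type} [Field K] [NumberField K]
variable {L : Type} [Field L] [NumberField L] [Algebra K L]
variable {F : Fin (1 + 1) → MvPolynomial (Fin (1 + 1)) K} {d a c : ℕ} {A : ℝ}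

/-- **count over all regions** -/
theorem count1 (h : Bds F d A a) (hd : 2 ≤ d) (hF : ∀ i, (F i).IsHomogeneous d)
    (hc : ∀ m, c + d ≤ m → ∀ p : MvPolynomial (Fin (1 + 1)) K, p.IsHomogeneous m →
      p ∈ Ideal.span (Set.range F)) :
    ∃ R : ℕ, ∀ (L : Type) [Field L] [NumberField L] [Algebra K L] (b : ℕ), 1 ≤ b →
    ((finrank ℚ L : ℝ) * (hC A a * ((c + d : ℕ) * (1 + Nat.log 2 b : ℕ)) +
      (1 : ℕ) * Real.log (b + 1)) < b / 2) →
    ∀ (n : ℕ) (x : Fin n → Fin (1 + 1) → L), (∀ i, x i ≠ 0) →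
      (∀ i j, i ≠ j → ∀ b : L, x i ≠ b • x j) →
      (∀ i, canH F d (x i) ≤ 1 / (2 * (finrank ℚ L : ℝ))) →
      n ≤ R * b := by
  classical
  have hA := h.hA
  set V := (Real.log A + Real.log (2 * A) + 1) / (1 / 2) with hV
  have hlA : 0 ≤ Real.log A := Real.log_nonneg hA
  have hlA2 : 0 ≤ Real.log (2 * A) := Real.log_nonneg (by linarith)
  have hV0 : 0 < V := by positivity
  set ρ := Real.exp (-V) with hρdef
  have hρ : 0 < ρ := Real.exp_pos _
  have hρ1 : ρ < 1 := by
    rw [hρdef, Real.exp_lt_one_iff]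
    linarith
  have hρA : Real.log A + Real.log (2 * A) + 1 ≤ 1 / 2 * Real.log (1 / ρ) := by
    have hlr : Real.log (1 / ρ) = V := by
      rw [one_div, Real.log_inv, hρdef, Real.log_exp, neg_neg]
    rw [hlr, hV]
    apply le_of_eq
    ring
  obtain ⟨Z, hZ1, hZ2⟩ := exists_net hρ
  refine ⟨(1 + 1) * Z.card ^ (1 + 1), ?_⟩
  intro L _ _ _ b hb1 hm n x hx0 hxne hxH
  obtain ⟨w₀⟩ : Nonempty (InfinitePlace L) := inferInstance
  -- the coordinate of largest size
  have hmax : ∀ i, ∃ t, w₀ (x i t) = nmi w₀ (x i) := by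
    intro i
    obtain ⟨t, ht⟩ := exists_eq_ciSup_of_finite (f := fun t => w₀ (x i t))
    exact ⟨t, ht⟩
  choose t₀ ht₀ using hmax
  have hxt : ∀ i, x i (t₀ i) ≠ 0 := by
    intro i h0
    have := nmi_pos w₀ (hx0 i)
    rw [← ht₀ i, h0] at this
    simp at this
  set p : Fin n → Fin (1 + 1) → L := fun i => (x i (t₀ i))⁻¹ • x i with hp
  have hp1 : ∀ i, p i (t₀ i) = 1 := by
    intro i
    simp only [hp, Pi.smul_apply, smul_eq_mul]
    exact inv_mul_cancel₀ (hxt i)
  have hple : ∀ i t, ‖w₀.embedding (p i t)‖ ≤ 1 := by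
    intro i t
    rw [InfinitePlace.norm_embedding_eq]
    simp only [hp, Pi.smul_apply, smul_eq_mul]
    rw [map_mul, map_inv₀, ht₀ i]
    rw [inv_mul_le_iff₀ (nmi_pos w₀ (hx0 i)), mul_one]
    exact le_nmi _ _ _
  have hz : ∀ i t, ∃ z' : Z, ‖w₀.embedding (p i t) - z'‖ ≤ ρ := by
    intro i t
    obtain ⟨z', hz', h1⟩ := hZ2 _ (hple i t)
    exact ⟨⟨z', hz'⟩, h1⟩
  choose ζ hζ using hz
  set f : Fin n → Fin (1 + 1) × (Fin (1 + 1) → Z) := fun i => (t₀ i, ζ i) with hf
  by_contra hcon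
  push Not at hcon
  have hcard : Fintype.card (Fin (1 + 1) × (Fin (1 + 1) → Z)) * b < Fintype.card (Fin n) := by
    rw [Fintype.card_prod, Fintype.card_fin, Fintype.card_fun, Fintype.card_fin, Fintype.card_coe,
      Fintype.card_fin]
    exact hcon
  obtain ⟨y, hy⟩ := Fintype.exists_lt_card_fiber_of_mul_lt_card f hcard
  set S := (Finset.univ.filter fun i => f i = y) with hS
  have hSf : ∀ i : S, t₀ i = y.1 ∧ ζ i = y.2 := by
    intro i
    have h1 := (Finset.mem_filter.mp i.2).2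
    simp only [hf] at h1
    exact ⟨congrArg Prod.fst h1, congrArg Prod.snd h1⟩
  have hreg := region1 h hd hF hc hρ hρ1 hρA w₀ (fun t => (y.2 t : ℂ))
    (fun t => hZ1 _ (y.2 t).2) y.1 (ι := S) (fun i => p i) ?_ ?_ ?_ ?_ hb1 hm
  · rw [Fintype.card_coe] at hreg
    omega
  · intro i j hij
    by_contra hne
    have hne' : (i : Fin n) ≠ j := fun h => hne (Subtype.ext h)
    apply hxne i j hne' (x i (t₀ i) * (x j (t₀ j))⁻¹)
    have h1 : x i (t₀ i) • p i = x i (t₀ i) • p j := by
      simp only at hij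
      rw [hij]
    have h2 : x i (t₀ i) • p i = x i := by
      simp only [hp]
      rw [smul_smul, mul_inv_cancel₀ (hxt i), one_smul]
    rw [h2] at h1
    refine h1.trans ?_
    simp only [hp]
    rw [smul_smul]
  · intro i
    have h1 := hp1 i
    rw [(hSf i).1] at h1
    exact h1
  · intro i t
    have h1 := hζ i t
    rw [(hSf i).2] at h1
    exact h1
  · intro i
    have h1 := canH_smul hF (inv_ne_zero (hxt i)) (x i)
    change canH F d (p i) ≤ _
    rw [show p i = (x i (t₀ i))⁻¹ • x i from rfl, h1]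
    exact hxH i

end

end Pool.Agent.L5helper9.Gl
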