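import Pool.Agent.L5helper9.Gl2

/-!
# Points of small canonical height: the number of points, for maps over `K`
-/

set_option autoImplicit false
set_option linter.unusedSectionVars false

namespace Pool.Agent.L5helper9.Gl

open NumberField Module MvPolynomial Filter Topology Pool.Agent.W238.Leh

noncomputable section

/-- The bound `φ` for the number of points of small canonical height. -/
def CountBound {K : Type} [Field K] [NumberField K] {N : ℕ}
    (F : Fin (N + 1) → MvPolynomial (Fin (N + 1)) K) (d : ℕ) (φ : ℝ → ℝ) (C : ℝ) : Prop :=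
  ∀ (L : Type) [Field L] [NumberField L] [Algebra K L] (n : ℕ)
      (x : Fin n → Fin (N + 1) → L), (∀ i, x i ≠ 0) →
      (∀ i j, i ≠ j → ∀ b : L, x i ≠ b • x j) →
      (∀ i, canH F d (x i) ≤ 1 / (C * (finrank K L : ℝ))) →
      (n : ℝ) ≤ C * φ (finrank K L : ℝ)

/-- The choice of the parameter. -/
lemma exists_b (k₀ E₁ : ℝ) (hk₀ : 1 ≤ k₀) (hE₁ : 0 ≤ E₁) :
    ∃ C₂ : ℝ, 1 ≤ C₂ ∧ ∀ D : ℝ, 1 ≤ D → ∃ b : ℕ, 1 ≤ b ∧
      ((b : ℝ) ≤ C₂ * (D * (1 + Real.log D))) ∧
        (k₀ * D) * (E₁ * ((1 + Nat.log 2 b : ℕ) : ℝ) + Real.log (b + 1)) < b / 2 := by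
  set T : ℝ := 2 * k₀ * (11 * E₁ + 6) + 1 with hT
  have hT1 : 1 ≤ T := by
    rw [hT]
    have : 0 ≤ 2 * k₀ * (11 * E₁ + 6) := by positivity
    linarith
  have hT0 : 0 < T := by linarith
  set G : ℝ := T ^ 2 with hG
  have hG1 : 1 ≤ G := by
    rw [hG]
    nlinarith
  have hG0 : 0 < G := by linarith
  refine ⟨2 * G, by linarith, fun D hD => ?_⟩
  have hD0 : 0 < D := by linarith
  have hlD : 0 ≤ Real.log D := Real.log_nonneg hD
  set X : ℝ := D * (1 + Real.log D) with hX
  have hX1 : 1 ≤ X := by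
    rw [hX]
    nlinarith
  have hXD : X ≤ D ^ 2 := by
    have h1 := Real.log_le_sub_one_of_pos hD0
    rw [hX]
    nlinarith
  have hGX1 : 1 ≤ G * X := by nlinarith
  refine ⟨⌈G * X⌉₊, ?_, ?_, ?_⟩
  · rw [Nat.one_le_ceil_iff]
    linarith
  · have h1 := (Nat.ceil_lt_add_one (show 0 ≤ G * X by linarith)).le
    linarith
  · set b : ℕ := ⌈G * X⌉₊ with hb
    have hb1 : G * X ≤ b := Nat.le_ceil _
    have hb2 : (b : ℝ) ≤ 2 * G * D ^ 2 := by
      have h1 := (Nat.ceil_lt_add_one (show 0 ≤ G * X by linarith)).le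
      have h2 : G * X ≤ G * D ^ 2 := by gcongr
      have h3 : 1 ≤ G * D ^ 2 := by linarith
      linarith
    have hb0 : (1 : ℝ) ≤ b := by linarith
    have hlogb : Real.log (b + 1) ≤ 4 * T + 2 * Real.log D := by
      have h1 : (b : ℝ) + 1 ≤ (2 * T) ^ 2 * D ^ 2 := by
        have h3 : 1 ≤ G * D ^ 2 := by nlinarith
        have : (2 * T) ^ 2 * D ^ 2 = 4 * G * D ^ 2 := by rw [hG]; ring
        rw [this]
        linarith
      have h2 := Real.log_le_log (by linarith) h1
      rw [Real.log_mul (by positivity) (by positivity), Real.log_pow, Real.log_pow] at h2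
      have h3 := Real.log_le_sub_one_of_pos (show 0 < 2 * T by linarith)
      push_cast at h2
      linarith
    have hlogb2 : ((1 + Nat.log 2 b : ℕ) : ℝ) ≤ 1 + 2 * (4 * T + 2 * Real.log D) := by
      have h2 : ((Nat.log 2 b : ℕ) : ℝ) ≤ Real.logb 2 b := Real.natLog_le_logb b 2
      have h3 : Real.logb 2 b ≤ 2 * Real.log b := by
        rw [Real.logb, div_le_iff₀ (Real.log_pos (by norm_num))]
        have h4 : (1 : ℝ) / 2 ≤ Real.log 2 := by
          have := Real.log_two_gt_d9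
          linarith
        have h5 : 0 ≤ Real.log b := Real.log_nonneg hb0
        nlinarith
      have h4 : Real.log b ≤ Real.log (b + 1) := Real.log_le_log (by linarith) (by linarith)
      push_cast
      linarith
    have h1 : E₁ * ((1 + Nat.log 2 b : ℕ) : ℝ) + Real.log (b + 1) ≤
        T * ((9 * E₁ + 4) * (1 + Real.log D)) := by
      have h2 : E₁ * ((1 + Nat.log 2 b : ℕ) : ℝ) ≤ E₁ * (1 + 2 * (4 * T + 2 * Real.log D)) :=
        mul_le_mul_of_nonneg_left hlogb2 hE₁
      have h3 : 1 + 2 * (4 * T + 2 * Real.log D) ≤ 9 * T * (1 + Real.log D) := by nlinarith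
      have h4 : E₁ * (1 + 2 * (4 * T + 2 * Real.log D)) ≤ E₁ * (9 * T * (1 + Real.log D)) :=
        mul_le_mul_of_nonneg_left h3 hE₁
      have h5 : 4 * T + 2 * Real.log D ≤ 4 * T * (1 + Real.log D) := by nlinarith
      calc _ ≤ E₁ * (9 * T * (1 + Real.log D)) + 4 * T * (1 + Real.log D) := by linarith
        _ = _ := by ring
    have h2 : k₀ * (9 * E₁ + 4) < T / 2 := by
      rw [hT]
      nlinarith
    calc (k₀ * D) * (E₁ * ((1 + Nat.log 2 b : ℕ) : ℝ) + Real.log (b + 1))
        ≤ (k₀ * D) * (T * ((9 * E₁ + 4) * (1 + Real.log D))) :=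
          mul_le_mul_of_nonneg_left h1 (by positivity)
      _ = (k₀ * (9 * E₁ + 4)) * (T * X) := by rw [hX]; ring
      _ < (T / 2) * (T * X) := mul_lt_mul_of_pos_right h2 (by positivity)
      _ = G * X / 2 := by rw [hG]; ring
      _ ≤ b / 2 := by linarith

/-- **The number of points of small canonical height on the line is `O(D (1 + log D))`**, for forms
with integral coefficients. -/
theorem count_int {K : Type} [Field K] [NumberField K]
    {F : Fin (1 + 1) → MvPolynomial (Fin (1 + 1)) K} {d : ℕ} (hd : 2 ≤ d)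
    (hF : ∀ i, (F i).IsHomogeneous d) (hint : ∀ i s, IsIntegral ℤ ((F i).coeff s))
    (hmor : ∀ z : Fin (1 + 1) → AlgebraicClosure K, (∀ i, aeval z (F i) = 0) → z = 0) :
    ∃ C : ℝ, 0 < C ∧ CountBound F d (fun D => D * (1 + Real.log D)) C := by
  classical
  obtain ⟨c, hc0⟩ := exists_mem_span hmor
  have hc : ∀ m, c + d ≤ m → ∀ p : MvPolynomial (Fin (1 + 1)) K, p.IsHomogeneous m →
      p ∈ Ideal.span (Set.range F) := fun m hm p hp => hc0 m (by omega) p hp
  obtain ⟨A, a, h⟩ := exists_bds (by omega) hF hint hc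
  obtain ⟨R, hR⟩ := count1 h hd hF hc
  set k₀ : ℝ := (finrank ℚ K : ℝ) with hk₀
  have hk1 : 1 ≤ k₀ := by
    rw [hk₀]
    exact_mod_cast (finrank_pos : 0 < finrank ℚ K)
  obtain ⟨C₂, hC₂, hb⟩ := exists_b k₀ (hC A a * ((c + d : ℕ) : ℝ)) hk1
    (mul_nonneg h.hC_nonneg (by positivity))
  set C : ℝ := 2 * k₀ + R * C₂ with hCdef
  have hC0 : 0 < C := by positivity
  refine ⟨C, hC0, ?_⟩
  intro L _ _ _ n x hx0 hxne hxH
  have hfin : (finrank ℚ L : ℝ) = k₀ * finrank K L := by
    rw [hk₀]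
    exact_mod_cast (finrank_mul_finrank ℚ K L).symm
  have hDpos := finrank_pos' (L := L)
  have hD0 : 0 < finrank K L := by
    rcases Nat.eq_zero_or_pos (finrank K L) with h0 | h0
    · rw [hfin, h0] at hDpos
      simp at hDpos
    · exact h0
  have hD1 : (1 : ℝ) ≤ finrank K L := by exact_mod_cast hD0
  obtain ⟨b, hb1, hb2, hb3⟩ := hb (finrank K L) hD1
  have h1 := hR L b hb1 (by
    rw [← hfin] at hb3
    calc _ = (finrank ℚ L : ℝ) * (hC A a * ((c + d : ℕ) : ℝ) * ((1 + Nat.log 2 b : ℕ) : ℝ) +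
          Real.log (b + 1)) := by push_cast; ring
      _ < _ := hb3) n x hx0 hxne (by
    intro i
    refine (hxH i).trans ?_
    apply one_div_le_one_div_of_le (by positivity)
    rw [hfin, ← mul_assoc]
    apply mul_le_mul_of_nonneg_right _ (by linarith)
    rw [hCdef]
    have : 0 ≤ (R : ℝ) * C₂ := by positivity
    linarith)
  have h2 : (n : ℝ) ≤ R * b := by exact_mod_cast h1
  have hX0 : 0 ≤ (finrank K L : ℝ) * (1 + Real.log (finrank K L)) := by
    have : 0 ≤ Real.log (finrank K L) := Real.log_nonneg hD1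
    positivity
  calc (n : ℝ) ≤ R * b := h2
    _ ≤ R * (C₂ * ((finrank K L : ℝ) * (1 + Real.log (finrank K L)))) := by gcongr
    _ = (R * C₂) * ((finrank K L : ℝ) * (1 + Real.log (finrank K L))) := by ring
    _ ≤ C * ((finrank K L : ℝ) * (1 + Real.log (finrank K L))) := by
        apply mul_le_mul_of_nonneg_right _ hX0
        rw [hCdef]
        linarith

end

end Pool.Agent.L5helper9.Gl
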