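import Pool.Agent.L5helper9.Gl3
import Pool.Agent.Helper259.HtExt

/-!
# Orbits of automorphisms of the field of definition
-/

set_option autoImplicit false
set_option linter.unusedSectionVars false

namespace Pool.Agent.L5helper9.Gl

open NumberField Module MvPolynomial Filter Topology Pool.Agent.W238.Leh

open scoped LinearAlgebra.Projectivization

noncomputable section

/-- Multiplication of the forms by an integer. -/
theorem exists_integral {K : Type} [Field K] [NumberField K] {N : ℕ}
    {F : Fin (N + 1) → MvPolynomial (Fin (N + 1)) K} {d : ℕ}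
    (hF : ∀ i, (F i).IsHomogeneous d)
    (hmor : ∀ z : Fin (N + 1) → AlgebraicClosure K, (∀ i, aeval z (F i) = 0) → z = 0) :
    ∃ F' : Fin (N + 1) → MvPolynomial (Fin (N + 1)) K, (∀ i, (F' i).IsHomogeneous d) ∧
      (∀ i s, IsIntegral ℤ ((F' i).coeff s)) ∧
      (∀ z : Fin (N + 1) → AlgebraicClosure K, (∀ i, aeval z (F' i) = 0) → z = 0) ∧
      ∀ (L : Type) [Field L] [NumberField L] [Algebra K L] (z : Fin (N + 1) → L),
        (∀ n, ∃ c : L, c ≠ 0 ∧ (act F')^[n] z = c • (act F)^[n] z) ∧
        (fun n : ℕ => Height.logHeight ((act F')^[n] z) / ((finrank ℚ L : ℝ) * (d : ℝ) ^ n)) =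
          (fun n : ℕ => Height.logHeight ((act F)^[n] z) / ((finrank ℚ L : ℝ) * (d : ℝ) ^ n)) ∧
        canH F' d z = canH F d z := by
  classical
  set T : Finset K := Finset.univ.biUnion fun i => (F i).support.image (F i).coeff with hT
  obtain ⟨a, ha, haT⟩ := exists_denom T
  have haK : (a : K) ≠ 0 := by
    have : a ≠ 0 := by omega
    exact_mod_cast this
  set F' : Fin (N + 1) → MvPolynomial (Fin (N + 1)) K := fun i => C (a : K) * F i with hF'
  refine ⟨F', ?_, ?_, ?_, ?_⟩
  · intro i
    have h7 := (isHomogeneous_C (Fin (N + 1)) (a : K)).mul (hF i)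
    rwa [zero_add] at h7
  · intro i s
    simp only [hF', coeff_C_mul]
    by_cases hs : s ∈ (F i).support
    · apply haT
      rw [hT]
      simp only [Finset.mem_biUnion, Finset.mem_image]
      exact ⟨i, Finset.mem_univ _, s, hs, rfl⟩
    · rw [notMem_support_iff.mp hs, mul_zero]
      exact isIntegral_zero
  · intro z hz
    apply hmor
    intro i
    have h1 := hz i
    simp only [hF', map_mul, aeval_C] at h1
    refine (mul_eq_zero.mp h1).resolve_left ?_
    rw [map_natCast]
    have : a ≠ 0 := by omega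
    exact_mod_cast this
  · intro L _ _ _ z
    have haL : (a : L) ≠ 0 := by
      have : a ≠ 0 := by omega
      exact_mod_cast this
    have hact : ∀ z : Fin (N + 1) → L, act F' z = (a : L) • act F z := by
      intro z
      funext i
      simp only [act, hF', map_mul, map_natCast, Pi.smul_apply, smul_eq_mul]
    have hiter : ∀ (n : ℕ) (z : Fin (N + 1) → L), ∃ c : L, c ≠ 0 ∧
        (act F')^[n] z = c • (act F)^[n] z := by
      intro n z
      induction n with
      | zero => exact ⟨1, one_ne_zero, by simp⟩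
      | succ n ih =>
        obtain ⟨c, hc, h⟩ := ih
        refine ⟨a * c ^ d, mul_ne_zero haL (pow_ne_zero _ hc), ?_⟩
        rw [Function.iterate_succ_apply', Function.iterate_succ_apply', h, hact,
          act_smul hF, smul_smul]
    have hseq : (fun n : ℕ => Height.logHeight ((act F')^[n] z) /
        ((finrank ℚ L : ℝ) * (d : ℝ) ^ n)) =
          (fun n : ℕ => Height.logHeight ((act F)^[n] z) / ((finrank ℚ L : ℝ) * (d : ℝ) ^ n)) := by
      funext n
      obtain ⟨c, hc, h⟩ := hiter n z
      rw [h, Height.logHeight_smul_eq_logHeight _ hc]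
    refine ⟨fun n => hiter n z, hseq, ?_⟩
    unfold canH
    rw [hseq]

/-- **`O(D (1 + log D))` points on the line.** -/
theorem count_line {K : Type} [Field K] [NumberField K]
    {F : Fin (1 + 1) → MvPolynomial (Fin (1 + 1)) K} {d : ℕ} (hd : 2 ≤ d)
    (hF : ∀ i, (F i).IsHomogeneous d)
    (hmor : ∀ z : Fin (1 + 1) → AlgebraicClosure K, (∀ i, aeval z (F i) = 0) → z = 0) :
    ∃ C : ℝ, 0 < C ∧ CountBound F d (fun D => D * (1 + Real.log D)) C := by
  obtain ⟨F', h1, h2, h3, h4⟩ := exists_integral hF hmor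
  obtain ⟨C, hC, h⟩ := count_int hd h1 h2 h3
  refine ⟨C, hC, ?_⟩
  intro L _ _ _ n x hx0 hxne hxH
  exact h L n x hx0 hxne (fun i => by rw [(h4 L _).2.2]; exact hxH i)

/-- **`O(D ^ (N + ε))` points in general.** -/
theorem count_space {K : Type} [Field K] [NumberField K] {N : ℕ}
    {F : Fin (N + 1) → MvPolynomial (Fin (N + 1)) K} {d : ℕ} (hd : 2 ≤ d)
    (hF : ∀ i, (F i).IsHomogeneous d)
    (hmor : ∀ z : Fin (N + 1) → AlgebraicClosure K, (∀ i, aeval z (F i) = 0) → z = 0)
    {ε : ℝ} (hε : 0 < ε) :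
    ∃ C : ℝ, 0 < C ∧ CountBound F d (fun D => D ^ ((N : ℝ) + ε)) C := by
  obtain ⟨F', h1, h2, h3, h4⟩ := exists_integral hF hmor
  obtain ⟨A, a, -, C, hC, h⟩ := final_int hd h1 h2 h3 hε
  refine ⟨C, hC, ?_⟩
  intro L _ _ _ n x hx0 hxne hxH
  exact (h L).1 n x hx0 hxne (fun i => by rw [(h4 L _).2.2]; exact hxH i)

variable {K : Type} [Field K] [NumberField K] {N : ℕ}
variable {L : Type} [Field L] [NumberField L] [Algebra K L]

/-- The conjugate of a vector. -/
def cj (σ : L ≃ₐ[K] L) (x : Fin (N + 1) → L) : Fin (N + 1) → L := fun i => σ (x i)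

/-- The height of a conjugate (as in `N750.conj_height`). -/
theorem conj_height {M : Type} [Field M] [NumberField M] [Algebra K M] (σ : L →ₐ[K] M)
    {ι : Type} [Finite ι] (x : ι → L) :
    (finrank K L : ℝ) * Height.logHeight (fun i => σ (x i)) = finrank K M * Height.logHeight x := by
  let _ : Algebra L M := σ.toRingHom.toAlgebra
  have htow : IsScalarTower K L M := IsScalarTower.of_algebraMap_eq fun x => (σ.commutes x).symm
  have h1 := Pool.Agent.Helper259.HtExt.logHeight_ext (K := L) (L := M) x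
  have h2 : (fun i => algebraMap L M (x i)) = fun i => σ (x i) := rfl
  rw [h2] at h1
  rw [h1, ← mul_assoc]
  congr 1
  exact_mod_cast finrank_mul_finrank K L M

lemma finrank_pos'' (K L : Type) [Field K] [NumberField K] [Field L] [NumberField L]
    [Algebra K L] : 0 < finrank K L := by
  have hfin : finrank ℚ K * finrank K L = finrank ℚ L := finrank_mul_finrank ℚ K L
  have hL : 0 < finrank ℚ L := finrank_pos
  rcases Nat.eq_zero_or_pos (finrank K L) with h0 | h0
  · rw [h0, mul_zero] at hfin
    omega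
  · exact h0

lemma cj_height (σ : L ≃ₐ[K] L) (x : Fin (N + 1) → L) :
    Height.logHeight (cj σ x) = Height.logHeight x := by
  have h1 := conj_height (M := L) (σ : L →ₐ[K] L) x
  have h2 : (0 : ℝ) < finrank K L := by exact_mod_cast finrank_pos'' K L
  exact mul_left_cancel₀ h2.ne' h1

lemma cj_act (F : Fin (N + 1) → MvPolynomial (Fin (N + 1)) K) (σ : L ≃ₐ[K] L)
    (x : Fin (N + 1) → L) : act F (cj σ x) = cj σ (act F x) := by
  funext i
  simp only [act, cj]
  have h1 : (σ : L →ₐ[K] L) (aeval x (F i)) = aeval (fun i => (σ : L →ₐ[K] L) (x i)) (F i) := by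
    rw [← AlgHom.comp_apply, MvPolynomial.comp_aeval]
  exact h1.symm

lemma cj_iter (F : Fin (N + 1) → MvPolynomial (Fin (N + 1)) K) (σ : L ≃ₐ[K] L)
    (x : Fin (N + 1) → L) (n : ℕ) : (act F)^[n] (cj σ x) = cj σ ((act F)^[n] x) := by
  induction n with
  | zero => rfl
  | succ n ih => rw [Function.iterate_succ_apply', ih, cj_act, Function.iterate_succ_apply']

lemma cj_canH (F : Fin (N + 1) → MvPolynomial (Fin (N + 1)) K) (d : ℕ) (σ : L ≃ₐ[K] L)
    (x : Fin (N + 1) → L) : canH F d (cj σ x) = canH F d x := by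
  unfold canH
  congr 1
  funext n
  rw [cj_iter, cj_height]

end

end Pool.Agent.L5helper9.Gl
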