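import Pool.Agent.L5helper9.Gl4

/-!
# The lower bound from the orbits of automorphisms
-/

set_option autoImplicit false
set_option linter.unusedSectionVars false

namespace Pool.Agent.L5helper9.Gl

open NumberField Module MvPolynomial Filter Topology Pool.Agent.W238.Leh

noncomputable section

variable {K : Type} [Field K] [NumberField K] {N : ℕ}
variable {L : Type} [Field L] [NumberField L] [Algebra K L]

/-- The conjugates of the point with the coordinates `x`, as lines. -/
def imgs (K : Type) [Field K] {L : Type} [Field L] [Algebra K L] {N : ℕ}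
    (x : Fin (N + 1) → L) : Set (Submodule L (Fin (N + 1) → L)) :=
  Set.range fun σ : L ≃ₐ[K] L => Submodule.span L {fun i => σ (x i)}

lemma imgs_finite (x : Fin (N + 1) → L) : (imgs K x).Finite := by
  have : FiniteDimensional K L := FiniteDimensional.of_finrank_pos (finrank_pos'' K L)
  exact Set.finite_range _

lemma imgs_smul {c : L} (hc : c ≠ 0) (x : Fin (N + 1) → L) : imgs K (c • x) = imgs K x := by
  unfold imgs
  congr 1
  funext σ
  have h1 : (fun i => σ ((c • x) i)) = (σ c) • (fun i => σ (x i)) := by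
    funext i
    simp
  rw [h1]
  have h2 : σ c ≠ 0 := by simpa using hc
  exact Submodule.span_singleton_smul_eq (IsUnit.mk0 _ h2) _

/-- The number of small iterates is bounded. -/
theorem few_iterates {F : Fin (N + 1) → MvPolynomial (Fin (N + 1)) K} {d a : ℕ} {A : ℝ}
    (h : Bds F d A a) (hd : 2 ≤ d) (hF : ∀ i, (F i).IsHomogeneous d) {φ : ℝ → ℝ} {C : ℝ}
    (hcount : CountBound F d φ C)
    {x : Fin (N + 1) → L} (hx : x ≠ 0) (hpos : 0 < canH F d x) {r : ℝ} (hr : 0 < r) {n : ℕ}
    (himg : ∀ k < n, (finrank K L : ℝ) ≤ r * ((imgs K ((act F)^[k] x)).ncard : ℝ))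
    (hsmall : ∀ k < n, (d : ℝ) ^ k * canH F d x ≤ 1 / (C * (finrank K L : ℝ))) :
    (n : ℝ) * (finrank K L : ℝ) ≤ r * (C * φ (finrank K L : ℝ)) := by
  classical
  have hne : ∀ k, (act F)^[k] x ≠ 0 := fun k => h.iter_ne_zero hx k
  set ι := Σ k : Fin n, (imgs_finite (K := K) ((act F)^[(k : ℕ)] x)).toFinset with hι
  have hch : ∀ i : ι, ∃ σ : L ≃ₐ[K] L,
      Submodule.span L {fun t => σ ((act F)^[(i.1 : ℕ)] x t)} = i.2.1 := by
    intro i
    have := i.2.2
    rw [Set.Finite.mem_toFinset] at this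
    exact this
  choose σ hσ using hch
  set y : ι → Fin (N + 1) → L := fun i => cj (σ i) ((act F)^[(i.1 : ℕ)] x) with hy
  have hy0 : ∀ i, y i ≠ 0 := by
    intro i h0
    apply hne i.1
    funext t
    have h1 := congrFun h0 t
    simp only [hy, cj, Pi.zero_apply] at h1
    simpa using h1
  have hycan : ∀ i, canH F d (y i) = (d : ℝ) ^ (i.1 : ℕ) * canH F d x := by
    intro i
    simp only [hy]
    rw [cj_canH, h.canH_iter hd hx]
  have hd1 : (1 : ℝ) < d := by
    have : (2 : ℝ) ≤ d := by exact_mod_cast hd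
    linarith
  have hyne : ∀ i j : ι, i ≠ j → ∀ b : L, y i ≠ b • y j := by
    intro i j hij b hb
    have hb0 : b ≠ 0 := by
      intro h0
      rw [h0, zero_smul] at hb
      exact hy0 i hb
    have h1 : canH F d (y i) = canH F d (y j) := by
      rw [hb, canH_smul hF hb0]
    rw [hycan, hycan] at h1
    have h2 := mul_right_cancel₀ hpos.ne' h1
    have h3 : (i.1 : ℕ) = j.1 := pow_right_injective₀ (by linarith) hd1.ne' h2
    have h4 : i.1 = j.1 := Fin.ext h3
    obtain ⟨i1, i2⟩ := i
    obtain ⟨j1, j2⟩ := j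
    simp only at h4
    subst h4
    apply hij
    have h5 : i2 = j2 := by
      apply Subtype.ext
      have e1 := hσ ⟨i1, i2⟩
      have e2 := hσ ⟨i1, j2⟩
      simp only at e1 e2
      rw [← e1, ← e2]
      have h6 : (fun t => (σ ⟨i1, i2⟩) ((act F)^[(i1 : ℕ)] x t)) =
          b • (fun t => (σ ⟨i1, j2⟩) ((act F)^[(i1 : ℕ)] x t)) := hb
      rw [h6]
      exact Submodule.span_singleton_smul_eq (IsUnit.mk0 _ hb0) _
    rw [h5]
  set e := Fintype.equivFin ι with he
  have h1 := hcount L (Fintype.card ι) (fun i => y (e.symm i)) (fun i => hy0 _)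
    (fun i j hij b => hyne _ _ (fun h => hij (e.symm.injective h)) b)
    (fun i => by
      rw [hycan]
      exact hsmall _ (e.symm i).1.2)
  have h2 : (Fintype.card ι : ℝ) = ∑ k : Fin n, ((imgs K ((act F)^[(k : ℕ)] x)).ncard : ℝ) := by
    rw [show Fintype.card ι = ∑ k : Fin n,
      Fintype.card (imgs_finite (K := K) ((act F)^[(k : ℕ)] x)).toFinset from Fintype.card_sigma]
    push_cast
    apply Finset.sum_congr rfl
    intro k _
    rw [Fintype.card_coe, Set.ncard_eq_toFinset_card _ (imgs_finite _)]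
  rw [h2] at h1
  calc (n : ℝ) * (finrank K L : ℝ) = ∑ _k : Fin n, (finrank K L : ℝ) := by simp
    _ ≤ ∑ k : Fin n, r * ((imgs K ((act F)^[(k : ℕ)] x)).ncard : ℝ) :=
        Finset.sum_le_sum fun k _ => himg k k.2
    _ = r * ∑ k : Fin n, ((imgs K ((act F)^[(k : ℕ)] x)).ncard : ℝ) := by rw [Finset.mul_sum]
    _ ≤ r * (C * φ (finrank K L : ℝ)) := mul_le_mul_of_nonneg_left h1 hr.le

/-- The lower bound, with the counting function. -/
theorem lower_abs {F : Fin (N + 1) → MvPolynomial (Fin (N + 1)) K} {d a : ℕ} {A : ℝ}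
    (h : Bds F d A a) (hd : 2 ≤ d) (hF : ∀ i, (F i).IsHomogeneous d) {φ : ℝ → ℝ} {C : ℝ}
    (hC : 0 < C) (hcount : CountBound F d φ C)
    {x : Fin (N + 1) → L} (hx : x ≠ 0) (hpos : 0 < canH F d x) {r : ℝ} (hr : 0 < r)
    (himg : ∀ n, (finrank K L : ℝ) ≤ r * ((imgs K ((act F)^[n] x)).ncard : ℝ))
    (hφ : 0 ≤ φ (finrank K L : ℝ)) :
    Real.exp (-(Real.log (C * finrank K L) +
      Real.log d * (r * (C * φ (finrank K L : ℝ)) / finrank K L + 1))) ≤ canH F d x := by
  by_contra hcon
  push Not at hcon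
  have hD0 : (0 : ℝ) < finrank K L := by exact_mod_cast finrank_pos'' K L
  have hd1 : (1 : ℝ) < d := by
    have : (2 : ℝ) ≤ d := by exact_mod_cast hd
    linarith
  have hd0 : (0 : ℝ) < d := by linarith
  have hld : 0 ≤ Real.log d := Real.log_nonneg hd1.le
  set X : ℝ := r * (C * φ (finrank K L : ℝ)) / finrank K L with hX
  have hX0 : 0 ≤ X := by positivity
  set n : ℕ := ⌊X⌋₊ + 1 with hn
  have hn1 : X < n := by
    rw [hn]
    push_cast
    exact Nat.lt_floor_add_one X
  have hn2 : (n : ℝ) ≤ X + 1 := by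
    rw [hn]
    push_cast
    have := Nat.floor_le hX0
    linarith
  have h1 := few_iterates h hd hF hcount hx hpos hr (n := n) (fun k _ => himg k) (by
    intro k hk
    have h2 : (d : ℝ) ^ k ≤ Real.exp (Real.log d * (X + 1)) := by
      rw [← Real.rpow_natCast, Real.rpow_def_of_pos hd0]
      apply Real.exp_le_exp.mpr
      apply mul_le_mul_of_nonneg_left _ hld
      have : (k : ℝ) ≤ n := by exact_mod_cast hk.le
      linarith
    have h3 : 1 / (C * (finrank K L : ℝ)) = Real.exp (-Real.log (C * finrank K L)) := by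
      rw [Real.exp_neg, Real.exp_log (by positivity), one_div]
    rw [h3]
    calc (d : ℝ) ^ k * canH F d x ≤ Real.exp (Real.log d * (X + 1)) *
          Real.exp (-(Real.log (C * finrank K L) + Real.log d * (X + 1))) :=
          mul_le_mul h2 hcon.le hpos.le (Real.exp_nonneg _)
      _ = Real.exp (-Real.log (C * finrank K L)) := by
          rw [← Real.exp_add]
          congr 1
          ring)
  have h2 : (n : ℝ) ≤ X := by
    rw [hX, le_div_iff₀ hD0]
    exact h1
  linarith

end

end Pool.Agent.L5helper9.Gl
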