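import Pool.Agent.L5helper9.Gl5

/-!
# The final forms
-/

set_option autoImplicit false
set_option linter.unusedSectionVars false

namespace Pool.Agent.L5helper9.Gl

open NumberField Module MvPolynomial Filter Topology Pool.Agent.W238.Leh

noncomputable section

/-- The transfer to arbitrary coefficients. -/
theorem lower_gen {K : Type} [Field K] [NumberField K] {N : ℕ}
    {F : Fin (N + 1) → MvPolynomial (Fin (N + 1)) K} {d : ℕ} (hd : 2 ≤ d)
    (hF : ∀ i, (F i).IsHomogeneous d)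
    (hmor : ∀ z : Fin (N + 1) → AlgebraicClosure K, (∀ i, aeval z (F i) = 0) → z = 0)
    {φ : ℝ → ℝ} {C : ℝ} (hC : 0 < C) (hcount : CountBound F d φ C)
    (hφ : ∀ D : ℝ, 1 ≤ D → 0 ≤ φ D)
    (L : Type) [Field L] [NumberField L] [Algebra K L]
    {x : Fin (N + 1) → L} (hx : x ≠ 0)
    (hw : ¬ ∃ m n : ℕ, m ≠ n ∧ ∃ b : L, b ≠ 0 ∧ (act F)^[n] x = b • (act F)^[m] x)
    {r : ℝ} (hr : 0 < r)
    (himg : ∀ n, (finrank K L : ℝ) ≤ r * ((imgs K ((act F)^[n] x)).ncard : ℝ)) :
    Real.exp (-(Real.log (C * finrank K L) +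
      Real.log d * (r * (C * φ (finrank K L : ℝ)) / finrank K L + 1))) ≤ canH F d x := by
  obtain ⟨F', h1, h2, h3, h4⟩ := exists_integral hF hmor
  obtain ⟨c, hc0⟩ := exists_mem_span h3
  have hc : ∀ m, c + d ≤ m → ∀ p : MvPolynomial (Fin (N + 1)) K, p.IsHomogeneous m →
      p ∈ Ideal.span (Set.range F') := fun m hm p hp => hc0 m (by omega) p hp
  obtain ⟨A, a, h⟩ := exists_bds (by omega) h1 h2 hc
  obtain ⟨-, -, -, C', hC', h5⟩ := final_int hd h1 h2 h3 one_pos
  have hcount' : CountBound F' d φ C := by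
    intro L _ _ _ n x hx0 hxne hxH
    exact hcount L n x hx0 hxne (fun i => by rw [← (h4 L _).2.2]; exact hxH i)
  have hw' : ¬ ∃ m n : ℕ, m ≠ n ∧ ∃ b : L, b ≠ 0 ∧ (act F')^[n] x = b • (act F')^[m] x := by
    rintro ⟨m, n, hmn, b, hb, hb2⟩
    apply hw
    obtain ⟨c₁, hc₁, e₁⟩ := (h4 L x).1 n
    obtain ⟨c₂, hc₂, e₂⟩ := (h4 L x).1 m
    refine ⟨m, n, hmn, c₁⁻¹ * (b * c₂), mul_ne_zero (inv_ne_zero hc₁) (mul_ne_zero hb hc₂), ?_⟩
    rw [e₁, e₂] at hb2
    have h6 : (act F)^[n] x = c₁⁻¹ • (c₁ • (act F)^[n] x) := by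
      rw [smul_smul, inv_mul_cancel₀ hc₁, one_smul]
    rw [h6, hb2, smul_smul, smul_smul]
    congr 1
    ring
  have hpos : 0 < canH F' d x := lt_of_lt_of_le (Real.exp_pos _) ((h5 L).2 x hx hw')
  have h6 := lower_abs h hd h1 hC hcount' hx hpos hr (by
    intro n
    obtain ⟨c₁, hc₁, e₁⟩ := (h4 L x).1 n
    rw [e₁, imgs_smul hc₁]
    exact himg n) (hφ _ (by exact_mod_cast finrank_pos'' K L))
  rwa [(h4 L x).2.2] at h6

/-- **Points of the line.** -/
theorem line {K : Type} [Field K] [NumberField K]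
    {F : Fin (1 + 1) → MvPolynomial (Fin (1 + 1)) K} {d : ℕ} (hd : 2 ≤ d)
    (hF : ∀ i, (F i).IsHomogeneous d)
    (hmor : ∀ z : Fin (1 + 1) → AlgebraicClosure K, (∀ i, aeval z (F i) = 0) → z = 0) :
    ∃ C : ℝ, 0 < C ∧ ∀ (L : Type) [Field L] [NumberField L] [Algebra K L]
      (x : Fin (1 + 1) → L), x ≠ 0 →
      (¬ ∃ m n : ℕ, m ≠ n ∧ ∃ b : L, b ≠ 0 ∧ (act F)^[n] x = b • (act F)^[m] x) →
      ∀ r : ℝ, 1 ≤ r →
      (∀ n, (finrank K L : ℝ) ≤ r * ((imgs K ((act F)^[n] x)).ncard : ℝ)) →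
      (C * (finrank K L : ℝ)) ^ (-(C * r)) ≤ canH F d x := by
  obtain ⟨C, hC, hcount⟩ := count_line hd hF hmor
  have hd1 : (1 : ℝ) < d := by
    have : (2 : ℝ) ≤ d := by exact_mod_cast hd
    linarith
  have hld : 0 ≤ Real.log d := Real.log_nonneg hd1.le
  set C' : ℝ := C + 3 + (C + 1) * Real.log d with hC'
  have hC'3 : 3 ≤ C' := by
    rw [hC']
    have : 0 ≤ (C + 1) * Real.log d := by positivity
    linarith
  have hCC' : C ≤ C' := by
    rw [hC']
    have : 0 ≤ (C + 1) * Real.log d := by positivity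
    linarith
  refine ⟨C', by linarith, ?_⟩
  intro L _ _ _ x hx hw r hr himg
  have hD0 : 0 < finrank K L := finrank_pos'' K L
  have hD1 : (1 : ℝ) ≤ finrank K L := by exact_mod_cast hD0
  have h1 := lower_gen hd hF hmor hC hcount (fun D hD => by
    have : 0 ≤ Real.log D := Real.log_nonneg hD
    positivity) L hx hw (by linarith : 0 < r) himg
  refine le_trans ?_ h1
  set D : ℝ := (finrank K L : ℝ) with hD
  have hDpos : 0 < D := by linarith
  have hlD : 0 ≤ Real.log D := Real.log_nonneg hD1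
  rw [Real.rpow_def_of_pos (by positivity)]
  apply Real.exp_le_exp.mpr
  have e1 : r * (C * (D * (1 + Real.log D))) / D = r * (C * (1 + Real.log D)) := by
    field_simp
  rw [e1]
  have hlC' : 1 ≤ Real.log C' := by
    rw [Real.le_log_iff_exp_le (by linarith)]
    have := Real.exp_one_lt_d9
    linarith
  have hlog : Real.log (C' * D) = Real.log C' + Real.log D :=
    Real.log_mul (by linarith) (by linarith)
  have hlogC : Real.log (C * D) ≤ Real.log (C' * D) :=
    Real.log_le_log (by positivity) (by gcongr)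
  set Y : ℝ := Real.log (C' * D) with hY
  have hY1 : 1 + Real.log D ≤ Y := by linarith
  have hY0 : 0 ≤ Y := by linarith
  have h2 : Real.log (C * D) ≤ r * Y := by nlinarith
  have h3 : r * (C * (1 + Real.log D)) + 1 ≤ (C + 1) * (r * Y) := by
    have h4 : r * (C * (1 + Real.log D)) ≤ r * (C * Y) := by gcongr
    have h5 : 1 ≤ r * Y := by nlinarith
    nlinarith
  have h4 : Real.log d * (r * (C * (1 + Real.log D)) + 1) ≤ Real.log d * ((C + 1) * (r * Y)) :=
    mul_le_mul_of_nonneg_left h3 hld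
  have h5 : (1 + (C + 1) * Real.log d) * (r * Y) ≤ C' * (r * Y) := by
    apply mul_le_mul_of_nonneg_right _ (by positivity)
    rw [hC']
    linarith
  nlinarith

/-- **Points of the space.** -/
theorem space {K : Type} [Field K] [NumberField K] {N : ℕ} (hN : 1 ≤ N)
    {F : Fin (N + 1) → MvPolynomial (Fin (N + 1)) K} {d : ℕ} (hd : 2 ≤ d)
    (hF : ∀ i, (F i).IsHomogeneous d)
    (hmor : ∀ z : Fin (N + 1) → AlgebraicClosure K, (∀ i, aeval z (F i) = 0) → z = 0)
    {ε : ℝ} (hε : 0 < ε) :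
    ∃ C : ℝ, 0 < C ∧ ∀ (L : Type) [Field L] [NumberField L] [Algebra K L]
      (x : Fin (N + 1) → L), x ≠ 0 →
      (¬ ∃ m n : ℕ, m ≠ n ∧ ∃ b : L, b ≠ 0 ∧ (act F)^[n] x = b • (act F)^[m] x) →
      ∀ r : ℝ, 1 ≤ r →
      (∀ n, (finrank K L : ℝ) ≤ r * ((imgs K ((act F)^[n] x)).ncard : ℝ)) →
      Real.exp (-(C * r * (finrank K L : ℝ) ^ ((N : ℝ) - 1 + ε))) ≤ canH F d x := by
  obtain ⟨C, hC, hcount⟩ := count_space hd hF hmor hε
  have hd1 : (1 : ℝ) < d := by
    have : (2 : ℝ) ≤ d := by exact_mod_cast hd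
    linarith
  have hld : 0 ≤ Real.log d := Real.log_nonneg hd1.le
  set e : ℝ := (N : ℝ) - 1 + ε with he
  have hN1 : (1 : ℝ) ≤ N := by exact_mod_cast hN
  have he0 : 0 < e := by linarith
  set C' : ℝ := C + 1 / e + (C + 1) * Real.log d with hC'
  refine ⟨C', by positivity, ?_⟩
  intro L _ _ _ x hx hw r hr himg
  have hD0 : 0 < finrank K L := finrank_pos'' K L
  have hD1 : (1 : ℝ) ≤ finrank K L := by exact_mod_cast hD0
  have h1 := lower_gen hd hF hmor hC hcount (fun D hD => by positivity) L hx hw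
    (by linarith : 0 < r) himg
  refine le_trans ?_ h1
  set D : ℝ := (finrank K L : ℝ) with hD
  have hDpos : 0 < D := by linarith
  apply Real.exp_le_exp.mpr
  have e1 : r * (C * D ^ ((N : ℝ) + ε)) / D = r * (C * D ^ e) := by
    have : D ^ ((N : ℝ) + ε) = D ^ e * D := by
      rw [show (N : ℝ) + ε = e + 1 by rw [he]; ring, Real.rpow_add hDpos, Real.rpow_one]
    rw [this]
    field_simp
  rw [e1]
  set Y : ℝ := D ^ e with hY
  have hY1 : 1 ≤ Y := Real.one_le_rpow hD1 he0.le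
  have h2 : Real.log (C * D) ≤ (C + 1 / e) * (r * Y) := by
    rw [Real.log_mul (by positivity) (by positivity)]
    have h3 := Real.log_le_sub_one_of_pos hC
    have h4 : Real.log D ≤ Y / e := Real.log_le_rpow_div hDpos.le he0
    have h5 : Y ≤ r * Y := by nlinarith
    have h6 : Real.log C ≤ C * (r * Y) := by nlinarith
    have h7 : Real.log D ≤ 1 / e * (r * Y) := by
      calc Real.log D ≤ Y / e := h4
        _ = 1 / e * Y := by ring
        _ ≤ 1 / e * (r * Y) := by gcongr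
    linarith
  have h3 : r * (C * Y) + 1 ≤ (C + 1) * (r * Y) := by
    have h5 : 1 ≤ r * Y := by nlinarith
    nlinarith
  have h4 : Real.log d * (r * (C * Y) + 1) ≤ Real.log d * ((C + 1) * (r * Y)) :=
    mul_le_mul_of_nonneg_left h3 hld
  have h5 : C' * r * Y = (C + 1 / e) * (r * Y) + Real.log d * ((C + 1) * (r * Y)) := by
    rw [hC']
    ring
  linarith

end

end Pool.Agent.L5helper9.Gl
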