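import Pool.Agent.L5helper9.Gl6

/-!
# All points over Galois extensions
-/

set_option autoImplicit false
set_option linter.unusedSectionVars false

namespace Pool.Agent.L5helper9.Gl

open NumberField Module MvPolynomial Filter Topology Pool.Agent.W238.Leh

noncomputable section

variable {K : Type} [Field K] [NumberField K] {N : ℕ}
variable {L : Type} [Field L] [NumberField L] [Algebra K L]

/-- The field of definition of a point over a Galois extension. -/
theorem exists_field [IsGalois K L] {y : Fin (N + 1) → L} (hy : y ≠ 0) :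
    ∃ M : IntermediateField K L, finrank K M = (imgs K y).ncard ∧
      ∃ c : L, c ≠ 0 ∧ ∃ z : Fin (N + 1) → M, z ≠ 0 ∧ (fun i => (z i : L)) = c • y := by
  classical
  have : FiniteDimensional K L := FiniteDimensional.of_finrank_pos (finrank_pos'' K L)
  obtain ⟨t, ht⟩ : ∃ t, y t ≠ 0 := by
    by_contra h
    push Not at h
    exact hy (funext h)
  set c : L := (y t)⁻¹ with hc
  have hc0 : c ≠ 0 := inv_ne_zero ht
  set y' : Fin (N + 1) → L := c • y with hy'
  have hy't : y' t = 1 := by
    simp only [hy', hc, Pi.smul_apply, smul_eq_mul]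
    exact inv_mul_cancel₀ ht
  have himg : imgs K y = imgs K y' := (imgs_smul hc0 y).symm
  let H : Subgroup (L ≃ₐ[K] L) :=
    { carrier := {σ | ∀ i, σ (y' i) = y' i}
      one_mem' := fun i => rfl
      mul_mem' := by
        intro a b ha hb i
        rw [AlgEquiv.mul_apply, hb i, ha i]
      inv_mem' := by
        intro a ha i
        have h1 := ha i
        rw [AlgEquiv.aut_inv]
        rw [AlgEquiv.symm_apply_eq]
        exact h1.symm }
  have hHmem : ∀ σ, σ ∈ H ↔ ∀ i, σ (y' i) = y' i := fun σ => Iff.rfl
  set M := IntermediateField.fixedField H with hM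
  have hyM : ∀ i, y' i ∈ M := by
    intro i
    rw [hM, IntermediateField.mem_fixedField_iff]
    intro σ hσ
    exact hσ i
  let q : (L ≃ₐ[K] L) ⧸ H → Submodule L (Fin (N + 1) → L) :=
    Quotient.lift (fun σ => Submodule.span L {fun i => σ (y' i)}) (by
      intro σ τ hστ
      have h1 : σ⁻¹ * τ ∈ H := QuotientGroup.leftRel_apply.mp hστ
      have h2 : ∀ i, τ (y' i) = σ (y' i) := by
        intro i
        have h3 := h1 i
        have h4 : τ = σ * (σ⁻¹ * τ) := by group
        conv_lhs => rw [h4]
        rw [AlgEquiv.mul_apply, h3]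
      congr 2
      funext i
      exact (h2 i).symm)
  have hqmk : ∀ σ : L ≃ₐ[K] L, q (QuotientGroup.mk σ) = Submodule.span L {fun i => σ (y' i)} :=
    fun σ => rfl
  have hqinj : Function.Injective q := by
    intro a b hab
    induction a using QuotientGroup.induction_on with
    | H σ =>
      induction b using QuotientGroup.induction_on with
      | H τ =>
        rw [hqmk, hqmk] at hab
        have h1 : (fun i => σ (y' i)) ∈ Submodule.span L {fun i => τ (y' i)} := by
          rw [← hab]
          exact Submodule.mem_span_singleton_self _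
        obtain ⟨b, hb⟩ := Submodule.mem_span_singleton.mp h1
        have h2 := congrFun hb t
        simp only [Pi.smul_apply, smul_eq_mul, hy't, map_one, mul_one] at h2
        rw [QuotientGroup.eq]
        intro i
        have h3 := congrFun hb i
        simp only [Pi.smul_apply, smul_eq_mul, h2, one_mul] at h3
        rw [AlgEquiv.mul_apply, h3, AlgEquiv.aut_inv, AlgEquiv.symm_apply_apply]
  have hqrange : Set.range q = imgs K y' := by
    ext P
    constructor
    · rintro ⟨a, rfl⟩
      induction a using QuotientGroup.induction_on with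
      | H σ => exact ⟨σ, rfl⟩
    · rintro ⟨σ, rfl⟩
      exact ⟨QuotientGroup.mk σ, rfl⟩
  have hcard : (imgs K y').ncard = Nat.card ((L ≃ₐ[K] L) ⧸ H) := by
    rw [← hqrange, Set.ncard_range_of_injective hqinj]
  have h1 : finrank K M * Nat.card H = finrank K L := by
    rw [← IntermediateField.finrank_fixedField_eq_card H]
    exact finrank_mul_finrank K M L
  have h2 : Nat.card ((L ≃ₐ[K] L) ⧸ H) * Nat.card H = Nat.card (L ≃ₐ[K] L) :=
    (Subgroup.card_eq_card_quotient_mul_card_subgroup H).symm
  rw [IsGalois.card_aut_eq_finrank] at h2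
  have h3 : 0 < Nat.card H := Nat.card_pos
  refine ⟨M, ?_, c, hc0, fun i => ⟨y' i, hyM i⟩, ?_, rfl⟩
  · rw [himg, hcard]
    exact Nat.eq_of_mul_eq_mul_right h3 (h1.trans h2.symm)
  · intro h0
    have h4 := congrFun h0 t
    have h5 : y' t = 0 := congrArg (fun z : M => (z : L)) h4
    rw [hy't] at h5
    exact one_ne_zero h5

/-- The canonical height does not depend on the field. -/
lemma canH_coe (F : Fin (N + 1) → MvPolynomial (Fin (N + 1)) K) (d : ℕ) (M : IntermediateField K L)
    (z : Fin (N + 1) → M) : (∀ n, (act F)^[n] (fun i => (z i : L)) =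
      fun i => (((act F)^[n] z) i : L)) ∧
    canH F d (fun i => (z i : L)) = canH F d z := by
  have hact : ∀ z : Fin (N + 1) → M, act F (fun i => (z i : L)) = fun i => ((act F z) i : L) := by
    intro z
    funext i
    simp only [act]
    have h1 : M.val (aeval z (F i)) = aeval (fun i => M.val (z i)) (F i) := by
      rw [← AlgHom.comp_apply, MvPolynomial.comp_aeval]
    exact h1.symm
  have hiter : ∀ n, (act F)^[n] (fun i => (z i : L)) = fun i => (((act F)^[n] z) i : L) := by
    intro n
    induction n with
    | zero => rfl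
    | succ n ih => rw [Function.iterate_succ_apply', ih, hact, Function.iterate_succ_apply']
  refine ⟨hiter, ?_⟩
  unfold canH
  congr 1
  funext n
  rw [hiter n]
  have h1 := Pool.Agent.Helper259.HtExt.logHeight_ext (K := M) (L := L) ((act F)^[n] z)
  have h2 : (fun i => algebraMap M L (((act F)^[n] z) i)) = fun i => (((act F)^[n] z) i : L) := rfl
  rw [h2] at h1
  rw [h1]
  have h3 : (finrank ℚ M : ℝ) * finrank M L = finrank ℚ L := by
    exact_mod_cast finrank_mul_finrank ℚ M L
  rw [← h3]
  have h4 : (0 : ℝ) < finrank M L := by exact_mod_cast (finrank_pos : 0 < finrank M L)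
  rw [show (finrank ℚ M : ℝ) * (finrank M L : ℝ) * (d : ℝ) ^ n =
    (finrank M L : ℝ) * ((finrank ℚ M : ℝ) * (d : ℝ) ^ n) by ring,
    mul_div_mul_left _ _ h4.ne']

end

end Pool.Agent.L5helper9.Gl
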