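import Pool.Agent.L5helper9.Gl7

/-!
# All points over Galois extensions: the lower bound
-/

set_option autoImplicit false
set_option linter.unusedSectionVars false

namespace Pool.Agent.L5helper9.Gl

open NumberField Module MvPolynomial Filter Topology Pool.Agent.W238.Leh

noncomputable section

/-- **All wandering points over Galois extensions.** -/
theorem galois {K : Type} [Field K] [NumberField K] {N : ℕ} (hN : 1 ≤ N)
    {F : Fin (N + 1) → MvPolynomial (Fin (N + 1)) K} {d : ℕ} (hd : 2 ≤ d)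
    (hF : ∀ i, (F i).IsHomogeneous d)
    (hmor : ∀ z : Fin (N + 1) → AlgebraicClosure K, (∀ i, aeval z (F i) = 0) → z = 0)
    {ε : ℝ} (hε : 0 < ε) :
    ∃ C : ℝ, 0 < C ∧ ∀ (L : Type) [Field L] [NumberField L] [Algebra K L] [IsGalois K L]
      (x : Fin (N + 1) → L), x ≠ 0 →
      (¬ ∃ m n : ℕ, m ≠ n ∧ ∃ b : L, b ≠ 0 ∧ (act F)^[n] x = b • (act F)^[m] x) →
      Real.exp (-(C * (finrank K L : ℝ) ^ ((N : ℝ) ^ 2 / (N + 1) + ε))) ≤ canH F d x := by
  obtain ⟨F', h1, h2, h3, h4⟩ := exists_integral hF hmor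
  obtain ⟨c, hc0⟩ := exists_mem_span h3
  have hc : ∀ m, c + d ≤ m → ∀ p : MvPolynomial (Fin (N + 1)) K, p.IsHomogeneous m →
      p ∈ Ideal.span (Set.range F') := fun m hm p hp => hc0 m (by omega) p hp
  obtain ⟨A, a, h⟩ := exists_bds (by omega) h1 h2 hc
  obtain ⟨C₁, hC₁, hcount⟩ := count_space hd h1 h3 hε
  obtain ⟨-, -, -, C₂, hC₂, hwand⟩ := final_int hd h1 h2 h3 hε
  have hd1 : (1 : ℝ) < d := by
    have : (2 : ℝ) ≤ d := by exact_mod_cast hd
    linarith
  have hd0 : (0 : ℝ) < d := by linarith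
  have hld : 0 ≤ Real.log d := Real.log_nonneg hd1.le
  have hN1 : (1 : ℝ) ≤ N := by exact_mod_cast hN
  set α : ℝ := (N : ℝ) / (N + 1) with hα
  set e : ℝ := (N : ℝ) ^ 2 / (N + 1) + ε with he
  have he0 : 0 < e := by positivity
  have hα1 : α ≤ 1 := by
    rw [hα, div_le_one (by positivity)]
    linarith
  have hα0 : 0 ≤ α := by positivity
  have heα : (N : ℝ) + ε - α = e := by
    rw [he, hα]
    field_simp
    ring
  have heα2 : α * ((N : ℝ) + ε) ≤ e := by
    have : α * (N : ℝ) = (N : ℝ) ^ 2 / (N + 1) := by rw [hα]; ring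
    rw [he, mul_add, this]
    nlinarith
  set C : ℝ := C₁ + 1 / e + Real.log d * (C₁ + 1) + C₂ with hC
  refine ⟨C, by positivity, ?_⟩
  intro L _ _ _ _ x hx hw
  have hw' : ¬ ∃ m n : ℕ, m ≠ n ∧ ∃ b : L, b ≠ 0 ∧ (act F')^[n] x = b • (act F')^[m] x := by
    rintro ⟨m, n, hmn, b, hb, hb2⟩
    apply hw
    obtain ⟨c₁, hc₁, e₁⟩ := (h4 L x).1 n
    obtain ⟨c₂, hc₂, e₂⟩ := (h4 L x).1 m
    refine ⟨m, n, hmn, c₁⁻¹ * (b * c₂), mul_ne_zero (inv_ne_zero hc₁) (mul_ne_zero hb hc₂), ?_⟩
    rw [e₁, e₂] at hb2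
    have h6 : (act F)^[n] x = c₁⁻¹ • (c₁ • (act F)^[n] x) := by
      rw [smul_smul, inv_mul_cancel₀ hc₁, one_smul]
    rw [h6, hb2, smul_smul, smul_smul]
    congr 1
    ring
  rw [← (h4 L x).2.2]
  have hpos : 0 < canH F' d x := lt_of_lt_of_le (Real.exp_pos _) ((hwand L).2 x hx hw')
  have hD0 : 0 < finrank K L := finrank_pos'' K L
  have hD1 : (1 : ℝ) ≤ finrank K L := by exact_mod_cast hD0
  set D : ℝ := (finrank K L : ℝ) with hD
  have hDpos : 0 < D := by linarith
  set E : ℝ := D ^ e with hE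
  have hE1 : 1 ≤ E := Real.one_le_rpow hD1 he0.le
  set r : ℝ := D ^ (1 - α) with hr
  have hr0 : 0 < r := by positivity
  have hrT : r * D ^ α = D := by
    rw [hr, ← Real.rpow_add hDpos, show 1 - α + α = 1 by ring, Real.rpow_one]
  have hX : r * (C₁ * D ^ ((N : ℝ) + ε)) / D = C₁ * E := by
    have h5 : r * D ^ ((N : ℝ) + ε) = E * D := by
      rw [hr, hE, ← Real.rpow_add hDpos, ← heα]
      nth_rewrite 3 [← Real.rpow_one D]
      rw [← Real.rpow_add hDpos]
      congr 1
      ring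
    rw [show r * (C₁ * D ^ ((N : ℝ) + ε)) = C₁ * (r * D ^ ((N : ℝ) + ε)) by ring, h5]
    field_simp
  set n : ℕ := ⌊C₁ * E⌋₊ + 1 with hn
  have hn1 : C₁ * E < n := by
    rw [hn]
    push_cast
    exact Nat.lt_floor_add_one _
  have hn2 : (n : ℝ) ≤ C₁ * E + 1 := by
    rw [hn]
    push_cast
    have := Nat.floor_le (show 0 ≤ C₁ * E by positivity)
    linarith
  have hlogD : Real.log (C₁ * D) ≤ (C₁ + 1 / e) * E := by
    rw [Real.log_mul (by positivity) (by positivity)]
    have h5 := Real.log_le_sub_one_of_pos hC₁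
    have h6 : Real.log D ≤ E / e := Real.log_le_rpow_div hDpos.le he0
    have h7 : Real.log C₁ ≤ C₁ * E := by nlinarith
    have h8 : E / e = 1 / e * E := by ring
    linarith
  have hpow : ∀ k < n, (d : ℝ) ^ k ≤ Real.exp (Real.log d * ((C₁ + 1) * E)) := by
    intro k hk
    rw [← Real.rpow_natCast, Real.rpow_def_of_pos hd0]
    apply Real.exp_le_exp.mpr
    apply mul_le_mul_of_nonneg_left _ hld
    have : (k : ℝ) ≤ n := by exact_mod_cast hk.le
    linarith
  have hC0 : 0 ≤ Real.log d * ((C₁ + 1) * E) := by positivity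
  by_cases hcase : ∀ k < n, D ^ α ≤ ((imgs K ((act F')^[k] x)).ncard : ℝ)
  · -- many conjugates
    by_contra hcon
    push Not at hcon
    have h5 := few_iterates h hd h1 hcount hx hpos hr0 (n := n) (by
      intro k hk
      rw [← hD, ← hrT]
      exact mul_le_mul_of_nonneg_left (hcase k hk) hr0.le) (by
      intro k hk
      have h6 : 1 / (C₁ * (finrank K L : ℝ)) = Real.exp (-Real.log (C₁ * D)) := by
        rw [Real.exp_neg, Real.exp_log (by positivity), one_div]
      rw [h6]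
      calc (d : ℝ) ^ k * canH F' d x ≤ Real.exp (Real.log d * ((C₁ + 1) * E)) *
            Real.exp (-(C * E)) :=
            mul_le_mul (hpow k hk) hcon.le hpos.le (Real.exp_nonneg _)
        _ = Real.exp (Real.log d * ((C₁ + 1) * E) - C * E) := by
            rw [← Real.exp_add]
            rfl
        _ ≤ Real.exp (-Real.log (C₁ * D)) := by
            apply Real.exp_le_exp.mpr
            have h7 : C * E = (C₁ + 1 / e) * E + Real.log d * ((C₁ + 1) * E) + C₂ * E := by
              rw [hC]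
              ring
            have h8 : 0 ≤ C₂ * E := by positivity
            linarith)
    have h6 : (n : ℝ) ≤ C₁ * E := by
      rw [← hX, le_div_iff₀ hDpos]
      exact h5
    linarith
  · -- few conjugates
    push Not at hcase
    obtain ⟨k, hk, hk2⟩ := hcase
    have hy : (act F')^[k] x ≠ 0 := h.iter_ne_zero hx k
    obtain ⟨M, hM, b, hb, z, hz, hzy⟩ := exists_field (K := K) hy
    have hwz : ¬ ∃ m n : ℕ, m ≠ n ∧ ∃ b : M, b ≠ 0 ∧ (act F')^[n] z = b • (act F')^[m] z := by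
      rintro ⟨m, n, hmn, u, hu, hu2⟩
      apply hw'
      obtain ⟨b₁, hb₁, e₁⟩ := iter_smul h1 hb ((act F')^[k] x) n
      obtain ⟨b₂, hb₂, e₂⟩ := iter_smul h1 hb ((act F')^[k] x) m
      have e3 : (act F')^[n] (fun i => (z i : L)) = (u : L) • (act F')^[m] (fun i => (z i : L)) := by
        rw [(canH_coe F' d M z).1 n, (canH_coe F' d M z).1 m, hu2]
        funext i
        simp
      rw [hzy, e₁, e₂] at e3
      refine ⟨m + k, n + k, by omega, b₁⁻¹ * (u * b₂), ?_, ?_⟩
      · refine mul_ne_zero (inv_ne_zero hb₁) (mul_ne_zero ?_ hb₂)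
        simpa using hu
      · rw [Function.iterate_add_apply, Function.iterate_add_apply]
        have h6 : (act F')^[n] ((act F')^[k] x) = b₁⁻¹ • (b₁ • (act F')^[n] ((act F')^[k] x)) := by
          rw [smul_smul, inv_mul_cancel₀ hb₁, one_smul]
        rw [h6, e3, smul_smul, smul_smul]
        congr 1
        ring
    have h5 := (hwand M).2 z hz hwz
    rw [← (canH_coe F' d M z).2, hzy, canH_smul h1 hb, h.canH_iter hd hx] at h5
    have h6 : (finrank K M : ℝ) ^ ((N : ℝ) + ε) ≤ E := by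
      rw [hM]
      calc ((imgs K ((act F')^[k] x)).ncard : ℝ) ^ ((N : ℝ) + ε) ≤ (D ^ α) ^ ((N : ℝ) + ε) :=
            Real.rpow_le_rpow (by positivity) hk2.le (by positivity)
        _ = D ^ (α * ((N : ℝ) + ε)) := by rw [← Real.rpow_mul hDpos.le]
        _ ≤ D ^ e := Real.rpow_le_rpow_of_exponent_le hD1 heα2
    have h7 : Real.exp (-(C₂ * E)) ≤ (d : ℝ) ^ k * canH F' d x := by
      refine le_trans ?_ h5
      apply Real.exp_le_exp.mpr
      have := mul_le_mul_of_nonneg_left h6 hC₂.le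
      linarith
    have h8 : Real.exp (-(C₂ * E)) ≤ Real.exp (Real.log d * ((C₁ + 1) * E)) * canH F' d x :=
      h7.trans (mul_le_mul_of_nonneg_right (hpow k hk) hpos.le)
    have h9 : Real.exp (-(C * E)) ≤
        Real.exp (-(Real.log d * ((C₁ + 1) * E))) * Real.exp (-(C₂ * E)) := by
      rw [← Real.exp_add]
      apply Real.exp_le_exp.mpr
      have h10 : C * E = (C₁ + 1 / e) * E + Real.log d * ((C₁ + 1) * E) + C₂ * E := by
        rw [hC]
        ring
      have h11 : 0 ≤ (C₁ + 1 / e) * E := by positivity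
      linarith
    calc Real.exp (-(C * E)) ≤ _ := h9
      _ ≤ Real.exp (-(Real.log d * ((C₁ + 1) * E))) *
          (Real.exp (Real.log d * ((C₁ + 1) * E)) * canH F' d x) :=
          mul_le_mul_of_nonneg_left h8 (Real.exp_nonneg _)
      _ = canH F' d x := by
          rw [← mul_assoc, ← Real.exp_add, neg_add_cancel, Real.exp_zero, one_mul]

end

end Pool.Agent.L5helper9.Gl
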