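import Pool.Agent.L5helper9.Line1
import Pool.Agent.Y728.AK.QPts
import Pool.Agent.Y730.QP

/-!
# The limit law of the defect
-/

set_option autoImplicit false
set_option linter.unusedSectionVars false

namespace Pool.Agent.L5helper9

open NumberField IsDedekindDomain Finset Filter Topology Module MeasureTheory
open Pool.Agent.H691R3 Pool.Agent.W223.AK Pool.Agent.N906.KG
open Pool.Agent.N170.KG (fin_pos)
open Pool.Agent.N906.EQ (lfK lamF fN NTd DE gT DE_eq DE_ge lamF_finite Om rho gT_zero rn Tail SS ss_one law)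

variable {K : Type} [Field K] [NumberField K] {q : ℕ}

/-- the defect on the set of the points off the divisor -/
noncomputable def EE (T : Set (Pr K)) (α : Fin q → Fin 2 → K) (P : Om (Lf α)) : ℝ := df T α P.1

theorem rho_eq (α : Fin q → Fin 2 → K) (P : Om (Lf α)) : rho (Lf α) P = Real.exp (hh P.1) := by
  unfold rho hh
  rw [Real.rpow_def_of_pos (Height.mulHeight_pos _), Height.logHeight_eq_log_mulHeight,
    div_eq_mul_inv]

theorem log_rho (α : Fin q → Fin 2 → K) (P : Om (Lf α)) : Real.log (rho (Lf α) P) = hh P.1 := by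
  rw [rho_eq, Real.log_exp]

theorem rho_pos' (α : Fin q → Fin 2 → K) (P : Om (Lf α)) : 0 < rho (Lf α) P := by
  rw [rho_eq]
  exact Real.exp_pos _

theorem rho_fin (α : Fin q → Fin 2 → K) (B : ℝ) : {P : Om (Lf α) | rho (Lf α) P ≤ B}.Finite := by
  have h1 := (hgt_finite (K := K) B).preimage
    (f := (Subtype.val : Om (Lf α) → Projectivization K (Fin 2 → K)))
    (Subtype.val_injective.injOn)
  refine h1.subset fun P hP => ?_
  have hP' : rho (Lf α) P ≤ B := hP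
  rw [rho_eq] at hP'
  exact hP'

/-- the underlying point -/
def vl (α : Fin q → Fin 2 → K) (P : Om (Lf α)) : Projectivization K (Fin 2 → K) := P.1

theorem vl_inj (α : Fin q → Fin 2 → K) : Function.Injective (vl α) := fun _ _ h => Subtype.ext h

theorem om_ncard (T : Set (Pr K)) (α : Fin q → Fin 2 → K) (t B : ℝ) :
    {P : Om (Lf α) | rho (Lf α) P ≤ B ∧ t ≤ EE T α P}.ncard = (DV T α t B).ncard := by
  rw [← Set.ncard_image_of_injective _ (vl_inj α)]
  congr 1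
  ext P
  constructor
  · rintro ⟨Q, ⟨h1, h2⟩, rfl⟩
    refine ⟨(off_iff α _).2 Q.2, ?_, h2⟩
    rw [rho_eq] at h1
    exact h1
  · rintro ⟨h1, h2, h3⟩
    refine ⟨⟨P, (off_iff α P).1 h1⟩, ⟨?_, h3⟩, rfl⟩
    rw [rho_eq]
    exact h2

theorem EE_up (T : Set (Pr K)) (α : Fin q → Fin 2 → K) (P : Om (Lf α)) :
    EE T α P ≤ q * Real.log (rho (Lf α) P) := by
  rw [log_rho]
  have := counting_nonneg T α ((off_iff α _).2 P.2)
  unfold EE df
  linarith

theorem EE_low (T : Set (Pr K)) (α : Fin q → Fin 2 → K) :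
    ∃ c₀ : ℝ, ∀ P : Om (Lf α), -c₀ ≤ EE T α P := by
  have hd : (0 : ℝ) < finrank ℚ K := fin_pos
  refine ⟨(finrank ℚ K : ℝ)⁻¹ * (∑ _l : Fin q, ∑ w : InfinitePlace K,
    (w.mult : ℝ) * Real.log (2 : ℕ)) +
    ((finrank ℚ K : ℝ)⁻¹ * ∑ l, Height.logHeight (Lf α l)), fun P => ?_⟩
  unfold EE
  rw [df_eq T α ((off_iff α _).2 P.2)]
  have h1 := DE_ge (by norm_num) T (Lf α) P.2
  have h2 := mul_le_mul_of_nonneg_left h1 (inv_pos.2 hd).le
  linarith

/-- the tail, in the order of `ρ` -/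
theorem EE_count {T : Set (Pr K)} (hT : T.Finite) (hq : 2 ≤ q) {α : Fin q → Fin 2 → K}
    (hα0 : ∀ i, α i ≠ 0) (hα : ∀ i j, i ≠ j → α i 0 * α j 1 - α i 1 * α j 0 ≠ 0) :
    ∃ C : ℝ, 0 ≤ C ∧ ∀ B t : ℝ, 1 ≤ B → 0 ≤ t →
      ({P : Om (Lf α) | rho (Lf α) P ≤ B ∧ t ≤ EE T α P}.ncard : ℝ) ≤
        C * (Real.exp (-((3 / 4 * finrank ℚ K) * t)) + B ^ (-((finrank ℚ K : ℝ) / 4))) *
          B ^ ((2 * finrank ℚ K : ℕ) : ℝ) := by
  have hd : (0 : ℝ) < finrank ℚ K := fin_pos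
  obtain ⟨C, u₀, n, hC, hu₀, hu₀2, h⟩ := df_upper hT hq hα0 hα one_pos
  obtain ⟨u, hu, hu1, hu2⟩ : ∃ u : ℝ, 0 < u ∧ u < u₀ ∧ u ≤ 1 / 4 :=
    ⟨min (1 / 4) (u₀ / 2), lt_min (by norm_num) (by linarith),
      lt_of_le_of_lt (min_le_right _ _) (by linarith), min_le_left _ _⟩
  obtain ⟨M, hM⟩ : ∃ M : ℝ, M = u⁻¹ ^ n * Real.exp ((1 + 1) * q / (u * Real.log (1 / u))) :=
    ⟨_, rfl⟩
  have hM0 : 0 ≤ M := by
    have : 0 < u⁻¹ := inv_pos.2 hu
    rw [hM]; positivity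
  refine ⟨C * (M + 1), by positivity, fun B t hB ht => ?_⟩
  rw [om_ncard]
  refine (h u B t hu hu1 hB).trans ?_
  rw [← hM]
  have hB0 : 0 < B := by linarith
  have h1 : Real.exp (-((1 - u) * (finrank ℚ K * t))) ≤ Real.exp (-((3 / 4 * finrank ℚ K) * t)) := by
    apply Real.exp_le_exp.2
    have : 0 ≤ (finrank ℚ K : ℝ) * t := by positivity
    nlinarith
  have h2 : 0 < B ^ (-((finrank ℚ K : ℝ) / 4)) := Real.rpow_pos_of_pos hB0 _
  have h3 : 0 < B ^ ((2 * finrank ℚ K : ℕ) : ℝ) := Real.rpow_pos_of_pos hB0 _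
  have h4 := Real.exp_pos (-((3 / 4 * finrank ℚ K) * t))
  refine mul_le_mul_of_nonneg_right ?_ h3.le
  rw [mul_assoc C]
  refine mul_le_mul_of_nonneg_left ?_ hC.le
  have h5 := mul_le_mul_of_nonneg_left h1 hM0
  nlinarith [mul_nonneg hM0 h2.le]

theorem tail_gen {T : Set (Pr K)} (hT : T.Finite) (hq : 2 ≤ q) {α : Fin q → Fin 2 → K}
    (hα0 : ∀ i, α i ≠ 0) (hα : ∀ i j, i ≠ j → α i 0 * α j 1 - α i 1 * α j 0 ≠ 0)
    {κ : ℝ} (hκ : 0 < κ) (h23 : 2 / κ < 3 / 4)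
    (hfin' : ∀ B : ℝ, {P : Om (Lf α) | rn (rho (Lf α)) (EE T α) κ P ≤ B}.Finite)
    (hlarge : ∀ ε : ℝ, 0 < ε → ∀ᶠ B : ℝ in atTop,
      ({P : Om (Lf α) | rn (rho (Lf α)) (EE T α) κ P ≤ B ∧
        B ^ ((1 : ℝ) + 1 / 8) < rho (Lf α) P}.ncard : ℝ) ≤ ε * B ^ ((2 * finrank ℚ K : ℕ) : ℝ)) :
    ∃ c₀ : ℝ, Tail (rn (rho (Lf α)) (EE T α) κ) (EE T α) ((2 * finrank ℚ K : ℕ) : ℝ) c₀ := by
  have hd : (0 : ℝ) < finrank ℚ K := fin_pos
  obtain ⟨C, hC, hcount⟩ := EE_count hT hq hα0 hα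
  obtain ⟨c₀, hc₀⟩ := EE_low T α
  refine ⟨c₀, tail_rn (κ₂ := q) (c₂ := 0) (δ := 1 / 8) (ν := (finrank ℚ K : ℝ) / 4)
    (a := 3 / 4 * finrank ℚ K) (rho_pos' α) (rho_fin α) hfin' hc₀ (fun P => ?_)
    (Nat.cast_nonneg _) le_rfl ?_ ?_ ?_ hC hκ hcount (by norm_num) ?_ hlarge⟩
  · have := EE_up T α P
    linarith
  · push_cast
    linarith
  · push_cast
    linarith
  · push_cast
    have h1 : 2 * (finrank ℚ K : ℝ) / κ = 2 / κ * finrank ℚ K := by ring
    rw [h1]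
    exact mul_lt_mul_of_pos_right h23 hd
  · push_cast
    linarith

/-- the tail for a large exponent -/
theorem tail_nine {T : Set (Pr K)} (hT : T.Finite) (hq : 2 ≤ q) {α : Fin q → Fin 2 → K}
    (hα0 : ∀ i, α i ≠ 0) (hα : ∀ i j, i ≠ j → α i 0 * α j 1 - α i 1 * α j 0 ≠ 0) :
    ∃ c₀ : ℝ, Tail (rn (rho (Lf α)) (EE T α) (9 * q)) (EE T α) ((2 * finrank ℚ K : ℕ) : ℝ) c₀ := by
  have hq2 : (2 : ℝ) ≤ q := by exact_mod_cast hq
  have key : ∀ (B : ℝ) (P : Om (Lf α)), 0 < B → rn (rho (Lf α)) (EE T α) (9 * q) P ≤ B →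
      rho (Lf α) P ≤ B ^ ((1 : ℝ) + 1 / 8) := by
    intro B P hB hP
    have h1 := EE_up T α P
    have h2 := rho_pos' α P
    have h3 : Real.log (rho (Lf α) P) - EE T α P / (9 * q) ≤ Real.log B := by
      have h4 := Real.log_le_log (mul_pos h2 (Real.exp_pos _)) hP
      rw [Real.log_mul h2.ne' (Real.exp_pos _).ne', Real.log_exp] at h4
      linarith
    have h5 : EE T α P / (9 * q) ≤ Real.log (rho (Lf α) P) / 9 := by
      rw [div_le_div_iff₀ (by linarith) (by norm_num)]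
      nlinarith
    rw [← Real.log_le_log_iff h2 (Real.rpow_pos_of_pos hB _), Real.log_rpow hB]
    linarith
  refine tail_gen hT hq hα0 hα (by linarith) ?_ ?_ ?_
  · rw [div_lt_iff₀ (by linarith)]
    linarith
  · intro B
    rcases le_or_gt B 0 with hB | hB
    · refine Set.Finite.subset Set.finite_empty ?_
      intro P h1
      have h2 : rn (rho (Lf α)) (EE T α) (9 * q) P ≤ B := h1
      have h3 : 0 < rn (rho (Lf α)) (EE T α) (9 * q) P := mul_pos (rho_pos' α P) (Real.exp_pos _)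
      exact absurd h3 (not_lt.2 (h2.trans hB))
    · exact (rho_fin α (B ^ ((1 : ℝ) + 1 / 8))).subset fun P hP => key B P hB hP
  · intro ε hε
    filter_upwards [eventually_gt_atTop 0] with B hB
    have h1 : {P : Om (Lf α) | rn (rho (Lf α)) (EE T α) (9 * q) P ≤ B ∧
        B ^ ((1 : ℝ) + 1 / 8) < rho (Lf α) P} = ∅ := by
      ext P
      simp only [Set.mem_ofPred_eq, Set.mem_empty_iff_false, iff_false, not_and, not_lt]
      exact key B P hB
    rw [h1, Set.ncard_empty]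
    have : 0 < B ^ ((2 * finrank ℚ K : ℕ) : ℝ) := Real.rpow_pos_of_pos hB _
    push_cast at this ⊢
    positivity

open Pool.Agent.TH876.KR (form) in
theorem form_eq (a x : Fin 2 → K) : form a x = -(x 0 * a 1 - x 1 * a 0) := by
  unfold form
  ring

/-- the order of `rn` for `κ = q` -/
theorem rn_q (T : Set (Pr K)) (hq : 1 ≤ q) (α : Fin q → Fin 2 → K) (P : Om (Lf α)) :
    rn (rho (Lf α)) (EE T α) q P = Real.exp (counting T α P.1.rep / q) := by
  have hq0 : (0 : ℝ) < q := by exact_mod_cast hq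
  unfold rn
  rw [rho_eq, ← Real.exp_add]
  congr 1
  unfold EE df
  field_simp
  ring

open Pool.Agent.TH876.KR (form) in
theorem sub_pts {T : Set (Pr K)} (hq : 1 ≤ q) {α : Fin q → Fin 2 → K} (hα0 : ∀ i, α i ≠ 0)
    {B : ℝ} (hB : 0 < B) {P : Om (Lf α)} (hP : rn (rho (Lf α)) (EE T α) q P ≤ B) :
    (∀ i, form (α i) P.1.rep ≠ 0) ∧
    Real.exp (Pool.Agent.TH876.KR.counting T α P.1.rep) ≤ B ^ ((q : ℝ) * finrank ℚ K) := by
  classical
  have hd : (0 : ℝ) < finrank ℚ K := fin_pos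
  have hq0 : (0 : ℝ) < q := by exact_mod_cast hq
  have hf : ∀ i, form (α i) P.1.rep ≠ 0 := by
    intro i
    rw [form_eq, neg_ne_zero]
    exact (off_iff α _).2 P.2 i
  refine ⟨hf, ?_⟩
  have h1 := Pool.Agent.Y730.QP.counting_le T hα0 P.1.rep_nonzero hf
  have h2 : Pool.Agent.Y730.QP.cnt T α P.1.rep = finrank ℚ K * counting T α P.1.rep := by
    rw [counting_NTd]
    unfold NTd Pool.Agent.Y730.QP.cnt
    refine finsum_congr fun v => ?_
    rw [finsum_eq_if, finsum_eq_if]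
    split_ifs with hv
    · rfl
    refine Finset.sum_congr rfl fun l _ => ?_
    rw [lamF_Lf]
    congr 1
    unfold Pool.Agent.TH876.KR.localHeight
    rw [form_eq]
    have e2 : FinitePlace.mk v (-(P.1.rep 0 * α l 1 - P.1.rep 1 * α l 0)) =
        FinitePlace.mk v (P.1.rep 0 * α l 1 - P.1.rep 1 * α l 0) := (FinitePlace.mk v).1.map_neg _
    rw [e2, mul_comm (max (FinitePlace.mk v (α l 0)) (FinitePlace.mk v (α l 1)))]
  rw [rn_q T hq] at hP
  have h3 : counting T α P.1.rep / q ≤ Real.log B := by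
    rwa [← Real.exp_le_exp, Real.exp_log hB]
  rw [div_le_iff₀ hq0] at h3
  rw [Real.rpow_def_of_pos hB]
  apply Real.exp_le_exp.2
  have h4 := mul_le_mul_of_nonneg_left h3 hd.le
  linarith

/-- the tail for the exponent `q` -/
theorem tail_q {T : Set (Pr K)} (hT : T.Finite) (hq : 3 ≤ q) {α : Fin q → Fin 2 → K}
    (hα0 : ∀ i, α i ≠ 0) (hα : ∀ i j, i ≠ j → α i 0 * α j 1 - α i 1 * α j 0 ≠ 0) :
    ∃ c₀ : ℝ, Tail (rn (rho (Lf α)) (EE T α) q) (EE T α) ((2 * finrank ℚ K : ℕ) : ℝ) c₀ := by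
  have hd : (0 : ℝ) < finrank ℚ K := fin_pos
  have hq2 : (3 : ℝ) ≤ q := by exact_mod_cast hq
  have hq0 : (0 : ℝ) < q := by linarith
  have hform : ∀ i j, i ≠ j → Pool.Agent.TH876.KR.form (α i) (α j) ≠ 0 := by
    intro i j hij
    rw [form_eq, neg_ne_zero]
    have := hα i j hij
    intro h
    apply this
    linear_combination -h
  obtain ⟨Cf, hCf⟩ := Pool.Agent.Y728.line_final K T hT q hq α hform 1 one_pos
  obtain ⟨ν, C, hν, -, hC, hbig⟩ := Pool.Agent.Y728.AK.line_big K T hT q hq α hform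
    (1 / (8 * q)) (by positivity)
  refine tail_gen hT (by omega) hα0 hα hq0 ?_ ?_ ?_
  · rw [div_lt_iff₀ hq0]
    linarith
  · have key : ∀ B : ℝ, 1 ≤ B → {P : Om (Lf α) | rn (rho (Lf α)) (EE T α) q P ≤ B}.Finite := by
      intro B hB
      have hB0 : 0 < B := by linarith
      have h1 := (hCf (B ^ ((q : ℝ) * finrank ℚ K)) (Real.one_le_rpow hB (by positivity))).1
      have h2 := h1.preimage
        (f := (Subtype.val : Om (Lf α) → Projectivization K (Fin 2 → K)))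
        (Subtype.val_injective.injOn)
      refine h2.subset fun P hP => ?_
      obtain ⟨g1, g2⟩ := sub_pts (by omega) hα0 hB0 hP
      exact ⟨P.1.rep, P.1.rep_nonzero, P.1.mk_rep.symm, g1, g2⟩
    intro B
    refine (key (max B 1) (le_max_right _ _)).subset fun P hP => ?_
    have hP' : rn (rho (Lf α)) (EE T α) q P ≤ B := hP
    exact hP'.trans (le_max_left _ _)
  · intro ε hε
    have h0 : Tendsto (fun B : ℝ => C * B ^ (-((q : ℝ) * finrank ℚ K * ν))) atTop (𝓝 0) := by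
      have := (tendsto_rpow_neg_atTop (show 0 < (q : ℝ) * finrank ℚ K * ν by positivity)).const_mul C
      rwa [mul_zero] at this
    filter_upwards [eventually_ge_atTop 1, h0.eventually (gt_mem_nhds hε)] with B hB hBε
    have hB0 : 0 < B := by linarith
    have hX1 : 1 ≤ B ^ ((q : ℝ) * finrank ℚ K) := Real.one_le_rpow hB (by positivity)
    have hfin := (hCf _ hX1).1
    have hsub : vl α '' {P : Om (Lf α) | rn (rho (Lf α)) (EE T α) q P ≤ B ∧
        B ^ ((1 : ℝ) + 1 / 8) < rho (Lf α) P} ⊆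
        Pool.Agent.Y728.AK.BigQ T α (1 / (8 * q)) (B ^ ((q : ℝ) * finrank ℚ K)) := by
      rintro _ ⟨P, ⟨h1, h2⟩, rfl⟩
      obtain ⟨g1, g2⟩ := sub_pts (by omega) hα0 hB0 h1
      refine ⟨P.1.rep, P.1.rep_nonzero, P.1.mk_rep.symm, g1, g2, ?_⟩
      rw [← Real.log_lt_log_iff (Real.rpow_pos_of_pos hB0 _) (rho_pos' α P), Real.log_rpow hB0,
        log_rho] at h2
      unfold hh at h2
      rw [lt_div_iff₀ hd] at h2
      rw [Real.log_rpow hB0]
      refine le_trans (le_of_eq ?_) h2.le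
      field_simp
    have h3 := hbig _ hX1
    have h4 : ({P : Om (Lf α) | rn (rho (Lf α)) (EE T α) q P ≤ B ∧
        B ^ ((1 : ℝ) + 1 / 8) < rho (Lf α) P}.ncard : ℝ) ≤
        ((Pool.Agent.Y728.AK.BigQ T α (1 / (8 * q)) (B ^ ((q : ℝ) * finrank ℚ K))).ncard : ℝ) := by
      rw [← Set.ncard_image_of_injective _ (vl_inj α)]
      exact_mod_cast Set.ncard_le_ncard hsub
        (hfin.subset (Pool.Agent.Y728.AK.BigQ_sub T α _ _))
    refine h4.trans (h3.trans ?_)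
    have hBD : 0 < B ^ ((2 * finrank ℚ K : ℕ) : ℝ) := Real.rpow_pos_of_pos hB0 _
    have h5 : (B ^ ((q : ℝ) * finrank ℚ K)) ^ (2 / (q : ℝ) - ν) =
        B ^ (-((q : ℝ) * finrank ℚ K * ν)) * B ^ ((2 * finrank ℚ K : ℕ) : ℝ) := by
      rw [← Real.rpow_mul hB0.le, ← Real.rpow_add hB0]
      congr 1
      push_cast
      field_simp
      ring
    rw [h5, ← mul_assoc]
    exact mul_le_mul_of_nonneg_right hBε.le hBD.le

/-- **The limit law of the defect, in the order of the height.** -/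
theorem law_all {T : Set (Pr K)} (hT : T.Finite) {α : Fin q → Fin 2 → K}
    (hα0 : ∀ i, α i ≠ 0) {κ c₀ : ℝ} (hκ : 0 < κ)
    (hTl : Tail (rn (rho (Lf α)) (EE T α) κ) (EE T α) ((2 * finrank ℚ K : ℕ) : ℝ) c₀) :
    ∃ μ : Measure ℝ, IsFiniteMeasure μ ∧
      Integrable (fun s => Real.exp (((2 * finrank ℚ K : ℕ) : ℝ) * s / κ)) μ ∧
      (∀ f : ℝ → ℝ, Continuous f → (∃ M : ℝ, ∀ x, |f x| ≤ M) →
        Tendsto (fun B : ℝ => SS (rho (Lf α)) (EE T α) f B / B ^ ((2 * finrank ℚ K : ℕ) : ℝ)) atTop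
          (𝓝 (∫ x, f x ∂μ))) ∧
      (∀ f : ℝ → ℝ, Continuous f → (∃ M : ℝ, ∀ x, |f x| ≤ M) →
        Tendsto (fun B : ℝ => SS (rn (rho (Lf α)) (EE T α) κ) (EE T α) f B /
          B ^ ((2 * finrank ℚ K : ℕ) : ℝ)) atTop
          (𝓝 (∫ x, f x * Real.exp (((2 * finrank ℚ K : ℕ) : ℝ) * x / κ) ∂μ))) := by
  have hd : (0 : ℝ) < finrank ℚ K := fin_pos
  have hL : ∀ l, Lf α l ≠ 0 := by
    intro l h
    apply hα0 l
    have h0 := congrFun h 0
    have h1 := congrFun h 1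
    unfold Lf at h0 h1
    simp only [Matrix.cons_val_zero, Matrix.cons_val_one, Pi.zero_apply, neg_eq_zero] at h0 h1
    funext i
    fin_cases i
    · exact h1
    · exact h0
  exact law le_rfl (Lf α) hL (gT T) hT.toFinset
    (fun v hv => gT_zero fun h => hv ((Set.Finite.mem_toFinset hT).2 h)) (inv_pos.2 hd)
    (EE T α) (fun P => df_eq T α ((off_iff α _).2 P.2)) hκ hTl

end Pool.Agent.L5helper9
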