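import Pool.Agent.L5helper9.Law1
import Pool.Agent.L5helper9.Asym
import Pool.Agent.N906.EQ.Mom

/-!
# The tail of the limit law
-/

set_option autoImplicit false
set_option linter.unusedSectionVars false

namespace Pool.Agent.L5helper9

open NumberField IsDedekindDomain Finset Filter Topology Module MeasureTheory
open Pool.Agent.H691R3 Pool.Agent.W223.AK Pool.Agent.N906.KG
open Pool.Agent.N170.KG (fin_pos)
open Pool.Agent.N906.EQ (Om rho rn Tail SS ss_one ss_mono ss_abs_le ss_nonneg rmp rmp_nonneg rmp_le_one rmp_one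
  rmp_zero rmp_continuous ss_summable)

/-- the number of the points with value at least `t` as a sum -/
theorem ss_ind {Ω : Type} {ρ E : Ω → ℝ} (hfin : ∀ B : ℝ, {P | ρ P ≤ B}.Finite) (t B : ℝ) :
    SS ρ E (fun s => if t ≤ s then 1 else 0) B = ({P | ρ P ≤ B ∧ t ≤ E P}.ncard : ℝ) := by
  classical
  have hf : {P | ρ P ≤ B ∧ t ≤ E P}.Finite := (hfin B).subset fun P hP => hP.1
  unfold SS
  rw [tsum_eq_sum (s := hf.toFinset), Set.ncard_eq_toFinset_card _ hf]
  · have h2 : ∀ P ∈ hf.toFinset, (if ρ P ≤ B then (if t ≤ E P then (1 : ℝ) else 0)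
        else 0) = 1 := by
      intro P hP
      obtain ⟨g1, g2⟩ := hf.mem_toFinset.1 hP
      rw [if_pos g1, if_pos g2]
    rw [Finset.sum_congr rfl h2, Finset.sum_const, nsmul_eq_mul, mul_one]
  · intro P hP
    by_cases g1 : ρ P ≤ B
    · rw [if_pos g1]
      exact if_neg fun g2 => hP (hf.mem_toFinset.2 ⟨g1, g2⟩)
    · rw [if_neg g1]

variable {K : Type} [Field K] [NumberField K] {q : ℕ}

/-- convergence of the counting measures -/
def Lim (T : Set (Pr K)) (α : Fin q → Fin 2 → K) (μ : Measure ℝ) : Prop :=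
  ∀ f : ℝ → ℝ, Continuous f → (∃ M : ℝ, ∀ x, |f x| ≤ M) →
    Tendsto (fun B : ℝ => SS (rho (Lf α)) (EE T α) f B / B ^ ((2 * finrank ℚ K : ℕ) : ℝ)) atTop
      (𝓝 (∫ x, f x ∂μ))

theorem rmp_bd (c : ℝ) : ∃ M : ℝ, ∀ x : ℝ, |rmp (x - c)| ≤ M :=
  ⟨1, fun x => by rw [abs_of_nonneg (rmp_nonneg _)]; exact rmp_le_one _⟩

theorem rmp_cont (c : ℝ) : Continuous fun x : ℝ => rmp (x - c) :=
  rmp_continuous.comp (by fun_prop)

theorem rmp_int {μ : Measure ℝ} [IsFiniteMeasure μ] (c : ℝ) :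
    Integrable (fun x : ℝ => rmp (x - c)) μ :=
  (integrable_const (1 : ℝ)).mono' (rmp_cont c).aestronglyMeasurable
    (Eventually.of_forall fun x => by
      rw [Real.norm_eq_abs, abs_of_nonneg (rmp_nonneg _)]
      exact rmp_le_one _)

theorem real_Ioi (μ : Measure ℝ) (t : ℝ) :
    μ.real (Set.Ioi t) = ∫ x, (Set.Ioi t).indicator (fun _ => (1 : ℝ)) x ∂μ := by
  rw [integral_indicator_const _ measurableSet_Ioi, smul_eq_mul, mul_one]

/-- the tail of the limit: upper bound -/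
theorem mu_upper {T : Set (Pr K)} (hT : T.Finite) (hq : 2 ≤ q) {α : Fin q → Fin 2 → K}
    (hα0 : ∀ i, α i ≠ 0) (hα : ∀ i j, i ≠ j → α i 0 * α j 1 - α i 1 * α j 0 ≠ 0)
    {μ : Measure ℝ} [IsFiniteMeasure μ] (hμ : Lim T α μ) {ε : ℝ} (hε : 0 < ε) :
    ∃ (C u₀ : ℝ) (n : ℕ), 0 < C ∧ 0 < u₀ ∧ u₀ < 1 / 2 ∧ ∀ u t : ℝ, 0 < u → u < u₀ →
      μ.real (Set.Ioi t) ≤ C * (u⁻¹ ^ n * Real.exp ((1 + ε) * q / (u * Real.log (1 / u)))) *
        Real.exp (-((1 - u) * (finrank ℚ K * t))) := by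
  have hd : (0 : ℝ) < finrank ℚ K := fin_pos
  obtain ⟨C, u₀, n, hC, hu₀, hu₀2, h⟩ := df_upper hT hq hα0 hα hε
  refine ⟨C * Real.exp (finrank ℚ K), u₀, n, by positivity, hu₀, hu₀2, fun u t hu hu1 => ?_⟩
  have hu' : 0 < u⁻¹ := inv_pos.2 hu
  obtain ⟨M, hM⟩ : ∃ M : ℝ, M = u⁻¹ ^ n * Real.exp ((1 + ε) * q / (u * Real.log (1 / u))) :=
    ⟨_, rfl⟩
  have hM0 : 0 < M := by rw [hM]; positivity
  rw [← hM]
  have h1 : μ.real (Set.Ioi t) ≤ ∫ x, rmp (x - (t - 1)) ∂μ := by
    rw [real_Ioi]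
    refine integral_mono ((integrable_const (1 : ℝ)).indicator measurableSet_Ioi) (rmp_int _)
      fun x => ?_
    by_cases hx : x ∈ Set.Ioi t
    · rw [Set.indicator_of_mem hx]
      rw [Set.mem_Ioi] at hx
      exact (rmp_one (by linarith)).ge
    · rw [Set.indicator_of_notMem hx]
      exact rmp_nonneg _
  have h2 := hμ (fun x => rmp (x - (t - 1))) (rmp_cont _) (rmp_bd _)
  have h3 : Tendsto (fun B : ℝ => C * (M * Real.exp (-((1 - u) * (finrank ℚ K * (t - 1)))) +
      B ^ (-((finrank ℚ K : ℝ) / 4)))) atTop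
      (𝓝 (C * (M * Real.exp (-((1 - u) * (finrank ℚ K * (t - 1)))) + 0))) :=
    ((tendsto_rpow_neg_atTop (by positivity)).const_add _).const_mul _
  have h4 : ∫ x, rmp (x - (t - 1)) ∂μ ≤
      C * (M * Real.exp (-((1 - u) * (finrank ℚ K * (t - 1)))) + 0) := by
    refine le_of_tendsto_of_tendsto h2 h3 ?_
    filter_upwards [eventually_ge_atTop 1] with B hB
    have hB0 : 0 < B := by linarith
    rw [div_le_iff₀ (Real.rpow_pos_of_pos hB0 _)]
    have h5 := ss_abs_le (ρ := rho (Lf α)) (E := EE T α) (rho_fin α)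
      (f := fun x => rmp (x - (t - 1))) (M := 1) (t := t - 1) zero_le_one
      (fun P => by rw [abs_of_nonneg (rmp_nonneg _)]; exact rmp_le_one _)
      (fun P hP => rmp_zero (by linarith)) B
    rw [one_mul, om_ncard] at h5
    have h6 := h u B (t - 1) hu hu1 hB
    rw [← hM] at h6
    exact (le_abs_self _).trans (h5.trans h6)
  refine h1.trans (h4.trans ?_)
  rw [add_zero]
  have h7 : Real.exp (-((1 - u) * (finrank ℚ K * (t - 1)))) ≤
      Real.exp (finrank ℚ K) * Real.exp (-((1 - u) * (finrank ℚ K * t))) := by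
    rw [← Real.exp_add]
    apply Real.exp_le_exp.2
    nlinarith
  calc C * (M * Real.exp (-((1 - u) * (finrank ℚ K * (t - 1)))))
      ≤ C * (M * (Real.exp (finrank ℚ K) * Real.exp (-((1 - u) * (finrank ℚ K * t))))) := by
        gcongr
    _ = _ := by ring

/-- the tail of the limit: lower bound -/
theorem mu_lower {T : Set (Pr K)} (hT : T.Finite) (hq : 1 ≤ q) {α : Fin q → Fin 2 → K}
    (hα0 : ∀ i, α i ≠ 0) (hα : ∀ i j, i ≠ j → α i 0 * α j 1 - α i 1 * α j 0 ≠ 0)
    {μ : Measure ℝ} [IsFiniteMeasure μ] (hμ : Lim T α μ) {ε : ℝ} (hε : 0 < ε) (hε1 : ε < 1) :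
    ∃ t₀ : ℝ, 1 < t₀ ∧ ∀ t : ℝ, t₀ ≤ t →
      Real.exp (-(finrank ℚ K * (t + 1)) + (1 - ε) *
        √(8 * q * (finrank ℚ K * (t + 1)) / Real.log (finrank ℚ K * (t + 1)))) ≤
        μ.real (Set.Ioi t) := by
  classical
  have hd : (0 : ℝ) < finrank ℚ K := fin_pos
  obtain ⟨t₀, ht₀, h⟩ := df_lower hT hq hα0 hα hε hε1
  refine ⟨t₀, ht₀, fun t ht => ?_⟩
  have h1 : ∫ x, rmp (x - t) ∂μ ≤ μ.real (Set.Ioi t) := by
    rw [real_Ioi]
    refine integral_mono (rmp_int _) ((integrable_const (1 : ℝ)).indicator measurableSet_Ioi)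
      fun x => ?_
    by_cases hx : x ∈ Set.Ioi t
    · rw [Set.indicator_of_mem hx]
      exact rmp_le_one _
    · rw [Set.indicator_of_notMem hx]
      rw [Set.mem_Ioi, not_lt] at hx
      exact (rmp_zero (by linarith)).le
  refine le_trans ?_ h1
  have h2 := hμ (fun x => rmp (x - t)) (rmp_cont _) (rmp_bd _)
  refine ge_of_tendsto h2 ?_
  filter_upwards [eventually_ge_atTop 1,
    Real.tendsto_log_atTop.eventually_ge_atTop (2 * (t + 1))] with B hB hlB
  have hB0 : 0 < B := by linarith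
  rw [le_div_iff₀ (Real.rpow_pos_of_pos hB0 _)]
  have h3 := h (t + 1) B (by linarith) hlB hB0
  refine h3.trans ?_
  rw [← om_ncard, ← ss_ind (rho_fin α)]
  refine ss_mono (rho_fin α) (fun x => ?_) B
  split_ifs with hx
  · exact (rmp_one (by linarith)).ge
  · exact rmp_nonneg _

/-- the measure with the density `exp (b x)` -/
noncomputable def wd (μ : Measure ℝ) (b : ℝ) : Measure ℝ :=
  μ.withDensity fun x => (Real.toNNReal (Real.exp (b * x)) : ENNReal)

theorem meas_nn (b : ℝ) : Measurable fun x : ℝ => Real.toNNReal (Real.exp (b * x)) := by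
  fun_prop

theorem wd_integral (μ : Measure ℝ) (b : ℝ) (f : ℝ → ℝ) :
    ∫ x, f x ∂(wd μ b) = ∫ x, f x * Real.exp (b * x) ∂μ := by
  unfold wd
  rw [integral_withDensity_eq_integral_smul (meas_nn b)]
  refine integral_congr_ae (Eventually.of_forall fun x => ?_)
  show (Real.toNNReal (Real.exp (b * x))) • f x = _
  rw [NNReal.smul_def, Real.coe_toNNReal _ (Real.exp_pos _).le, smul_eq_mul, mul_comm]

theorem wd_finite {μ : Measure ℝ} {b : ℝ} (h : Integrable (fun x => Real.exp (b * x)) μ) :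
    IsFiniteMeasure (wd μ b) := by
  constructor
  unfold wd
  rw [withDensity_apply _ MeasurableSet.univ, Measure.restrict_univ]
  exact h.lintegral_lt_top

theorem wd_apply (μ : Measure ℝ) (b t : ℝ) :
    wd μ b (Set.Ioi t) = ∫⁻ x in Set.Ioi t, ENNReal.ofReal (Real.exp (b * x)) ∂μ := by
  unfold wd
  rw [withDensity_apply _ measurableSet_Ioi]
  rfl

/-- lower bound for the tail with the density -/
theorem wd_lower {μ : Measure ℝ} [IsFiniteMeasure μ] {b : ℝ} (hb : 0 ≤ b)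
    [IsFiniteMeasure (wd μ b)] (t : ℝ) :
    Real.exp (b * t) * μ.real (Set.Ioi t) ≤ (wd μ b).real (Set.Ioi t) := by
  have h1 : ENNReal.ofReal (Real.exp (b * t)) * μ (Set.Ioi t) ≤ wd μ b (Set.Ioi t) := by
    rw [wd_apply, ← setLIntegral_const]
    refine setLIntegral_mono' measurableSet_Ioi fun x hx => ?_
    apply ENNReal.ofReal_le_ofReal
    apply Real.exp_le_exp.2
    exact mul_le_mul_of_nonneg_left (le_of_lt hx) hb
  have h2 := ENNReal.toReal_mono (measure_ne_top _ _) h1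
  rw [ENNReal.toReal_mul, ENNReal.toReal_ofReal (Real.exp_pos _).le] at h2
  exact h2

/-- upper bound for the tail with the density -/
theorem wd_upper {μ : Measure ℝ} [IsFiniteMeasure μ] {b c A : ℝ} (hb : 0 ≤ b) (hbc : b < c)
    (hA : 0 ≤ A) (h : ∀ t : ℝ, 0 ≤ t → μ.real (Set.Ioi t) ≤ A * Real.exp (-(c * t)))
    {t : ℝ} (ht : 0 ≤ t) :
    (wd μ b).real (Set.Ioi t) ≤
      A * Real.exp b * (1 - Real.exp (-(c - b)))⁻¹ * Real.exp (-((c - b) * t)) := by
  have hr : 0 < c - b := by linarith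
  have hg : 0 < 1 - Real.exp (-(c - b)) := by
    rw [sub_pos, Real.exp_lt_one_iff]
    linarith
  have hterm : ∀ j : ℕ, ENNReal.ofReal (Real.exp (b * (t + j + 1))) * μ (Set.Ioi (t + j)) ≤
      ENNReal.ofReal (A * Real.exp b * Real.exp (-((c - b) * t)) * Real.exp (-(c - b)) ^ j) := by
    intro j
    have h1 : μ (Set.Ioi (t + j)) = ENNReal.ofReal (μ.real (Set.Ioi (t + j))) :=
      (ENNReal.ofReal_toReal (measure_ne_top _ _)).symm
    rw [h1, ← ENNReal.ofReal_mul (Real.exp_pos _).le]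
    apply ENNReal.ofReal_le_ofReal
    have h2 := h (t + j) (by positivity)
    refine (mul_le_mul_of_nonneg_left h2 (Real.exp_pos _).le).trans (le_of_eq ?_)
    rw [← Real.exp_nat_mul]
    have e1 : A * Real.exp b * Real.exp (-((c - b) * t)) * Real.exp ((j : ℝ) * -(c - b)) =
        A * (Real.exp b * Real.exp (-((c - b) * t)) * Real.exp ((j : ℝ) * -(c - b))) := by ring
    have e2 : Real.exp (b * (t + j + 1)) * (A * Real.exp (-(c * (t + j)))) =
        A * (Real.exp (b * (t + j + 1)) * Real.exp (-(c * (t + j)))) := by ring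
    rw [e1, e2, ← Real.exp_add, ← Real.exp_add, ← Real.exp_add]
    congr 2
    ring
  have hle : wd μ b (Set.Ioi t) ≤
      ∑' j : ℕ, ENNReal.ofReal (Real.exp (b * (t + j + 1))) * μ (Set.Ioi (t + j)) := by
    have h1 : ∀ j : ℕ, ENNReal.ofReal (Real.exp (b * (t + j + 1))) * μ (Set.Ioi (t + j)) =
        ∫⁻ x, (Set.Ioi (t + j)).indicator
          (fun _ => ENNReal.ofReal (Real.exp (b * (t + j + 1)))) x ∂μ := by
      intro j
      rw [lintegral_indicator_const measurableSet_Ioi]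
    rw [tsum_congr h1, ← lintegral_tsum fun j =>
      (measurable_const.indicator measurableSet_Ioi).aemeasurable, wd_apply,
      ← lintegral_indicator measurableSet_Ioi]
    refine lintegral_mono fun x => ?_
    by_cases hx : x ∈ Set.Ioi t
    · rw [Set.indicator_of_mem hx]
      rw [Set.mem_Ioi] at hx
      obtain ⟨j, hj1, hj2⟩ : ∃ j : ℕ, t + j < x ∧ x ≤ t + j + 1 := by
        have h2 : 0 < ⌈x - t⌉₊ := Nat.ceil_pos.2 (by linarith)
        refine ⟨⌈x - t⌉₊ - 1, ?_, ?_⟩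
        · have h3 := Nat.ceil_lt_add_one (show 0 ≤ x - t by linarith)
          rw [Nat.cast_sub h2]
          push_cast
          linarith
        · have h3 := Nat.le_ceil (x - t)
          rw [Nat.cast_sub h2]
          push_cast
          linarith
      refine le_trans ?_ (ENNReal.le_tsum j)
      rw [Set.indicator_of_mem (Set.mem_Ioi.2 hj1)]
      apply ENNReal.ofReal_le_ofReal
      apply Real.exp_le_exp.2
      exact mul_le_mul_of_nonneg_left hj2 hb
    · rw [Set.indicator_of_notMem hx]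
      exact zero_le
  have hsum : HasSum (fun j : ℕ => A * Real.exp b * Real.exp (-((c - b) * t)) *
      Real.exp (-(c - b)) ^ j)
      (A * Real.exp b * Real.exp (-((c - b) * t)) * (1 - Real.exp (-(c - b)))⁻¹) :=
    (hasSum_geometric_of_lt_one (Real.exp_pos _).le (by linarith)).mul_left _
  have hfin : ∑' j : ℕ, ENNReal.ofReal (A * Real.exp b * Real.exp (-((c - b) * t)) *
      Real.exp (-(c - b)) ^ j) =
      ENNReal.ofReal (A * Real.exp b * Real.exp (-((c - b) * t)) *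
        (1 - Real.exp (-(c - b)))⁻¹) := by
    rw [← ENNReal.ofReal_tsum_of_nonneg (fun j => by positivity) hsum.summable, hsum.tsum_eq]
  have h5 := hle.trans ((ENNReal.tsum_le_tsum hterm).trans hfin.le)
  have h6 := ENNReal.toReal_mono ENNReal.ofReal_ne_top h5
  rw [ENNReal.toReal_ofReal (by positivity)] at h6
  refine h6.trans (le_of_eq ?_)
  ring

/-- **The tail of the limit law.** -/
theorem tail_asym {T : Set (Pr K)} (hT : T.Finite) (hq : 2 ≤ q) {α : Fin q → Fin 2 → K}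
    (hα0 : ∀ i, α i ≠ 0) (hα : ∀ i j, i ≠ j → α i 0 * α j 1 - α i 1 * α j 0 ≠ 0)
    {μ : Measure ℝ} [IsFiniteMeasure μ] (hμ : Lim T α μ) {b : ℝ} (hb : 0 ≤ b)
    (hbd : b < finrank ℚ K) [IsFiniteMeasure (wd μ b)] {s : ℝ} (hs : 0 < s) :
    Tendsto (fun t : ℝ => (Real.log (s * (wd μ b).real (Set.Ioi t)) + (finrank ℚ K - b) * t) /
      √(t / Real.log t)) atTop (𝓝 √(8 * q * finrank ℚ K)) := by
  have hd1 : (1 : ℝ) ≤ finrank ℚ K := by exact_mod_cast (finrank_pos (R := ℚ) (M := K))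
  have hq0 : (0 : ℝ) < q := by
    have : 0 < q := by omega
    exact_mod_cast this
  obtain ⟨d, hd⟩ : ∃ d : ℝ, d = finrank ℚ K := ⟨_, rfl⟩
  rw [← hd] at hbd hd1 ⊢
  have hd0 : 0 < d := by linarith
  refine asym_main hq0 hd1 ?_ ?_
  · intro ε hε
    obtain ⟨C, u₀, n, hC, hu₀, hu₀2, h⟩ := mu_upper hT hq hα0 hα hμ hε
    rw [← hd] at h
    obtain ⟨r, hr⟩ : ∃ r : ℝ, r = (d - b) / 2 := ⟨_, rfl⟩
    have hr0 : 0 < r := by rw [hr]; linarith
    have hg : 0 < 1 - Real.exp (-r) := by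
      rw [sub_pos, Real.exp_lt_one_iff]
      linarith
    refine ⟨s * (C * Real.exp b * (1 - Real.exp (-r))⁻¹), min u₀ ((d - b) / (2 * d)), n,
      by positivity, lt_min hu₀ (div_pos (by linarith) (by positivity)),
      fun u t hu huu ht => ?_⟩
    have hu1 : u < u₀ := lt_of_lt_of_le huu (min_le_left _ _)
    have hu2 : u < (d - b) / (2 * d) := lt_of_lt_of_le huu (min_le_right _ _)
    rw [lt_div_iff₀ (by positivity)] at hu2
    have hu' : 0 < u⁻¹ := inv_pos.2 hu
    obtain ⟨M, hM⟩ : ∃ M : ℝ, M = u⁻¹ ^ n * Real.exp ((1 + ε) * q / (u * Real.log (1 / u))) :=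
      ⟨_, rfl⟩
    have hM0 : 0 < M := by rw [hM]; positivity
    rw [← hM]
    have h1 := wd_upper (μ := μ) (b := b) (c := (1 - u) * d) (A := C * M) hb (by nlinarith)
      (by positivity) (fun t' _ => by
        have := h u t' hu hu1
        rw [← hM] at this
        rw [mul_assoc (1 - u)]
        exact this) ht
    have h2 : r ≤ (1 - u) * d - b := by rw [hr]; nlinarith
    have h3 : (1 - Real.exp (-((1 - u) * d - b)))⁻¹ ≤ (1 - Real.exp (-r))⁻¹ := by
      apply inv_anti₀ hg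
      have := Real.exp_le_exp.2 (neg_le_neg h2)
      linarith
    have h4 : Real.exp (-(((1 - u) * d - b) * t)) = Real.exp (-((d - b) * t) + u * (d * t)) := by
      congr 1
      ring
    rw [h4] at h1
    refine (mul_le_mul_of_nonneg_left h1 hs.le).trans ?_
    calc s * (C * M * Real.exp b * (1 - Real.exp (-((1 - u) * d - b)))⁻¹ *
          Real.exp (-((d - b) * t) + u * (d * t)))
        ≤ s * (C * M * Real.exp b * (1 - Real.exp (-r))⁻¹ *
          Real.exp (-((d - b) * t) + u * (d * t))) := by gcongr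
      _ = _ := by ring
  · intro ε hε hε1
    obtain ⟨t₀, ht₀, h⟩ := mu_lower hT (by omega) hα0 hα hμ hε hε1
    rw [← hd] at h
    refine ⟨s * Real.exp (-d), t₀, by positivity, fun t ht => ?_⟩
    have h1 := wd_lower (μ := μ) (b := b) hb t
    have h2 := mul_le_mul_of_nonneg_left (h t ht) (Real.exp_pos (b * t)).le
    refine le_trans (le_of_eq ?_) (mul_le_mul_of_nonneg_left (h2.trans h1) hs.le)
    rw [mul_assoc s, ← Real.exp_add, ← Real.exp_add]
    congr 2
    ring

end Pool.Agent.L5helper9
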