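import Pool.Agent.N906.QP.All

/-!
# Lower bound for the number of the points with a large defect, uniform in the defect

Adaptation of `Pool/Agent/N432/QP_LOJ.lean`, whose lemmas are used, with different sizes of the height `X` and of the
defect `Z`.
-/

set_option autoImplicit false
set_option linter.unusedSectionVars false

namespace Pool.Agent.L5helper9

open NumberField IsDedekindDomain Finset Filter Topology Pool.Agent.H691R3 Pool.Agent.W223.AK
open Pool.Agent.N906.KG Pool.Agent.N499.KG Pool.Agent.N432.QP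
open Pool.Agent.N340.QP (sqrt_sum)

variable {K : Type} [Field K] [NumberField K] {q : ℕ}

/-- **The lower bound for the number of the points with a large defect.** -/
theorem low_u (K : Type) [Field K] [NumberField K] (h1 : S_BASQ K) (h2 : S_CELLQ K)
    (h3 : S_LOWP K) (h4 : S_WINJ K) {q : ℕ} (hq : 1 ≤ q) {α : Fin q → K × K} (hα : Al α)
    {S : Finset (Pr K)} (hS : Gd S α) {ε δ C₀ : ℝ} (hε0 : 0 < ε) (hε1 : ε < 1) (hδ : 0 < δ)
    (hC₀ : 0 ≤ C₀) :
    ∃ Z₀ : ℝ, 1 < Z₀ ∧ ∀ Z X : ℝ, Z₀ ≤ Z → (1 + δ) * Z ≤ X → ∃ F : Finset K,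
      (∀ x ∈ F, Of α x ∧ hr (aff x) ≤ X ∧ ∃ P, IsP S α x P ∧
        tr P + Z + C₀ ≤ q * hr (aff x)) ∧
      Real.exp (2 * X - Z + (1 - ε) * √(8 * q * Z / Real.log Z)) ≤ F.card := by
  classical
  obtain ⟨C₄, hC₄, hc1, hc2⟩ := Pool.Agent.N803.RS.cnt K
  obtain ⟨C, c, z, hC, hc, hA⟩ := exists_Sj h1 h2 h3 hq S α hα hS
  have hq0 : (0 : ℝ) < q := by exact_mod_cast hq
  obtain ⟨κ, hκd⟩ : ∃ κ : Fin q → ℝ, ∀ l, κ l = 1 / q := ⟨fun _ => 1 / q, fun _ => rfl⟩
  have hκ : ∀ l, 0 ≤ κ l := fun l => by rw [hκd]; positivity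
  have hκs : ∑ l, κ l = 1 := by
    rw [Finset.sum_congr rfl fun l _ => hκd l, Finset.sum_const, Finset.card_univ,
      Fintype.card_fin, nsmul_eq_mul, mul_one_div, div_self hq0.ne']
  have hsum : ∀ Z : ℝ, ∑ l, √(8 * κ l * Z / Real.log Z) = √(8 * q * Z / Real.log Z) := by
    intro Z
    have e1 := sqrt_sum hq 1 (Z / Real.log Z)
    rw [mul_one] at e1
    rw [mul_div_assoc, ← e1]
    refine Finset.sum_congr rfl fun l _ => ?_
    rw [hκd, mul_div_assoc]
  obtain ⟨η, hη, hηk⟩ : ∃ η : ℝ, 0 < η ∧ η * C * (4 * q) = c / 4 :=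
    ⟨c / (16 * C * q), by positivity, by field_simp; ring⟩
  obtain ⟨ε', hε'0, hε'1, hε'2⟩ : ∃ ε' : ℝ, 0 < ε' ∧ ε' < ε ∧ ε' ≤ δ / 2 :=
    ⟨min (ε / 2) (δ / 2), lt_min (by linarith) (by linarith),
      lt_of_le_of_lt (min_le_left _ _) (by linarith), min_le_right _ _⟩
  obtain ⟨cw, hcw0, hcw1, hcw2⟩ : ∃ cw : ℝ, 0 < cw ∧ cw ≤ c / 2 ∧ cw ≤ η :=
    ⟨min (c / 2) η, lt_min (by linarith) hη, min_le_left _ _, min_le_right _ _⟩
  obtain ⟨Z₀, hZ₀, hwin⟩ := h4 q κ ε' cw hκ hε'0 (by linarith) hcw0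
  obtain ⟨𝔮, h𝔮i, h𝔮⟩ := big_primes h4 q (max (max (2 * q / c) z) (∑ v ∈ S, Nv v))
  have h𝔮c : ∀ l, (Nv (𝔮 l))⁻¹ ≤ c / (2 * q) := by
    intro l
    have g1 : 2 * q / c < Nv (𝔮 l) :=
      lt_of_le_of_lt ((le_max_left _ _).trans (le_max_left _ _)) (h𝔮 l)
    rw [inv_le_comm₀ (Nv_pos _) (by positivity), inv_div]
    exact g1.le
  have h𝔮z : ∀ l, z < Nv (𝔮 l) := fun l =>
    lt_of_le_of_lt ((le_max_right _ _).trans (le_max_left _ _)) (h𝔮 l)
  have h𝔮S : ∀ l, ∀ v ∈ S, Nv v < Nv (𝔮 l) := by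
    intro l v hv
    refine lt_of_le_of_lt ?_ (lt_of_le_of_lt (le_max_right _ _) (h𝔮 l))
    exact Finset.single_le_sum (f := fun v => Nv v) (fun u _ => (Nv_pos u).le) hv
  have h𝔮sum : ∑ l, (Nv (𝔮 l))⁻¹ ≤ c / 2 := by
    calc ∑ l, (Nv (𝔮 l))⁻¹ ≤ ∑ _l : Fin q, c / (2 * q) := Finset.sum_le_sum fun l _ => h𝔮c l
      _ = c / 2 := by
        rw [Finset.sum_const, Finset.card_univ, Fintype.card_fin, nsmul_eq_mul]
        field_simp
  obtain ⟨lq, hlqd⟩ : ∃ lq : Fin q → ℝ, ∀ l, lq l = Real.log (Nv (𝔮 l)) := ⟨_, fun _ => rfl⟩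
  have hlq : ∀ l, 0 < lq l := fun l => by rw [hlqd]; exact log_Nv_pos _
  obtain ⟨L, hL⟩ : ∃ L : ℝ, L = ∑ l, lq l := ⟨_, rfl⟩
  obtain ⟨C₁, hC₁, hC₁d⟩ : ∃ C₁ : ℝ, 0 ≤ C₁ ∧ C₁ = C + C₀ := ⟨_, by positivity, rfl⟩
  obtain ⟨a, ha⟩ : ∃ a : ℝ, a = q * C₁ := ⟨_, rfl⟩
  obtain ⟨M, hM1, hM2, hM3, hM4⟩ : ∃ M : ℝ, 1 ≤ M ∧ 2 / η ≤ M ∧ C₄ / η ≤ M ∧ 2 * C / c ≤ M := by
    have g1 : 0 < 2 / η := by positivity
    have g2 : 0 < C₄ / η := by positivity
    have g3 : 0 < 2 * C / c := by positivity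
    exact ⟨2 / η + C₄ / η + 2 * C / c + 1, by linarith, by linarith, by linarith, by linarith⟩
  have hM0 : 0 < M := by linarith
  obtain ⟨V₀, hV1, hVq, hVc⟩ : ∃ V₀ : ℝ, 1 ≤ V₀ ∧ (∀ l, Nv (𝔮 l) ≤ V₀) ∧ C₄ / η ≤ V₀ := by
    refine ⟨1 + ∑ l, Nv (𝔮 l) + C₄ / η, ?_, fun l => ?_, ?_⟩
    · have g1 : 0 ≤ ∑ l, Nv (𝔮 l) := Finset.sum_nonneg fun u _ => (Nv_pos _).le
      have g2 : 0 < C₄ / η := by positivity
      linarith
    · have g1 : Nv (𝔮 l) ≤ ∑ l, Nv (𝔮 l) :=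
        Finset.single_le_sum (f := fun l => Nv (𝔮 l)) (fun u _ => (Nv_pos _).le) (Finset.mem_univ l)
      have g2 : 0 < C₄ / η := by positivity
      linarith
    · have g1 : 0 ≤ ∑ l, Nv (𝔮 l) := Finset.sum_nonneg fun u _ => (Nv_pos _).le
      linarith
  have t2 : Tendsto (fun X : ℝ => δ / 2 * X) atTop atTop :=
    tendsto_id.const_mul_atTop (by linarith : (0 : ℝ) < δ / 2)
  have e1 := eventually_ge_atTop Z₀
  have e2 := eventually_ge_atTop (V₀ ^ 2)
  have e3 := t2.eventually_ge_atTop (a + 2 * L + Real.log M)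
  have e5 := cmp1 (a + 2 * L - Real.log (c / 4)) (κ := κ) (by rw [hκs]; exact one_pos) hε'1
  have hev := e1.and (e2.and (e3.and (e5.and (eventually_ge_atTop (1 : ℝ)))))
  obtain ⟨X₀, hX₀⟩ := Filter.eventually_atTop.1 hev
  refine ⟨max X₀ 2, lt_max_of_lt_right (by norm_num), fun Z X hZ hZX => ?_⟩
  obtain ⟨f1, f2, f3, f5, f6⟩ := hX₀ Z ((le_max_left _ _).trans hZ)
  have hZ0 : 0 ≤ Z := by linarith
  have hZX' : Z ≤ X := by nlinarith
  have hX0 : 0 ≤ X := by linarith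
  have hVX : V₀ ≤ √Z := Real.le_sqrt_of_sq_le f2
  obtain ⟨Y, hYd⟩ : ∃ Y : ℝ, Y = Real.exp (ε' * Z) := ⟨_, rfl⟩
  have hε'X : ε' * Z ≤ X := by
    have : ε' ≤ 1 := by linarith
    nlinarith
  have hY1 : 1 ≤ Y := by
    rw [hYd]
    exact Real.one_le_exp (mul_nonneg hε'0.le hZ0)
  have hYX : Y ≤ Real.exp X := by
    rw [hYd, Real.exp_le_exp]
    exact hε'X
  obtain ⟨F, hF, hFs⟩ := hwin Z f1
  have hbig : ∀ v : Pr K, √Z < Nv v → ∀ l, v ≠ 𝔮 l := by
    intro v hv l h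
    have g1 : Nv (𝔮 l) < Nv v := lt_of_le_of_lt ((hVq l).trans hVX) hv
    rw [h] at g1
    exact lt_irrefl _ g1
  have hbigS : ∀ v : Pr K, √Z < Nv v → v ∉ S ∧ z ≤ Nv v := by
    intro v hv
    have g1 : Nv (𝔮 ⟨0, hq⟩) < Nv v := lt_of_le_of_lt ((hVq _).trans hVX) hv
    refine ⟨fun h => ?_, ?_⟩
    · have := h𝔮S ⟨0, hq⟩ v h
      linarith
    · have := h𝔮z ⟨0, hq⟩
      linarith
  -- the points for one tuple
  have hG : ∀ D₀ : Fin q → Idl K, ∃ G : Finset K, D₀ ∈ F →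
      (∀ x ∈ G, (Of α x ∧ hr (aff x) ≤ X ∧
        tr (pid S α x) + Z + C₀ ≤ q * hr (aff x)) ∧
        ∀ v, √Z < Nv v → Nv v ≤ Y →
          (v ∈ sp D₀ → ∀ i, pid S α x i v = D₀ i v) ∧
          (v ∉ sp D₀ → ∑ i, pid S α x i v ≤ 1)) ∧
      c / 4 * Real.exp (2 * X - Z - a - 2 * L - tr D₀) ≤ G.card := by
    intro D₀
    by_cases hD : D₀ ∈ F
    swap
    · exact ⟨∅, fun h => absurd h hD⟩
    obtain ⟨hcop, hSq, hsp, hgl, htr, hrs⟩ := hF D₀ hD
    -- the exponents of the primes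
    have hj : ∀ l, ∃ j : ℕ, κ l * Z + C₁ ≤ gg (D₀ l) + j * lq l ∧
        gg (D₀ l) + j * lq l ≤ κ l * Z + C₁ + lq l := by
      intro l
      have hgl' : gg (D₀ l) ≤ κ l * Z := hgl l
      refine ⟨⌈(κ l * Z + C₁ - gg (D₀ l)) / lq l⌉₊, ?_⟩
      have h6 : 0 ≤ (κ l * Z + C₁ - gg (D₀ l)) / lq l := by
        apply div_nonneg _ (hlq l).le
        linarith
      have h7 := Nat.le_ceil ((κ l * Z + C₁ - gg (D₀ l)) / lq l)
      have h8 := (Nat.ceil_lt_add_one h6).le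
      rw [div_le_iff₀ (hlq l)] at h7
      have h9 : (⌈(κ l * Z + C₁ - gg (D₀ l)) / lq l⌉₊ : ℝ) * lq l ≤
          ((κ l * Z + C₁ - gg (D₀ l)) / lq l + 1) * lq l :=
        mul_le_mul_of_nonneg_right h8 (hlq l).le
      rw [add_mul, one_mul, div_mul_cancel₀ _ (hlq l).ne'] at h9
      constructor <;> linarith
    choose j hj1 hj2 using hj
    obtain ⟨D, hDd⟩ : ∃ D : Fin q → Idl K, ∀ l, D l = D₀ l + Finsupp.single (𝔮 l) (j l + 1) :=
      ⟨_, fun _ => rfl⟩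
    have hDv : ∀ l v, v ≠ 𝔮 l → D l v = D₀ l v := by
      intro l v hv
      rw [hDd, Finsupp.add_apply, Finsupp.single_eq_of_ne hv, add_zero]
    have hDE : ∀ v, √Z < Nv v → ∀ i, D i v = D₀ i v := fun v hv i => hDv i v (hbig v hv i)
    have hDne : ∀ l v, D l v ≠ 0 → D₀ l v ≠ 0 ∨ v = 𝔮 l := by
      intro l v hv
      by_cases h : v = 𝔮 l
      · exact Or.inr h
      · rw [hDv l v h] at hv
        exact Or.inl hv
    have hspV : ∀ l v, D₀ l v ≠ 0 → √Z < Nv v := fun l v hv => hsp v ((mem_sp D₀ v).2 ⟨l, hv⟩)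
    have hcopD : ∀ l l', l ≠ l' → Cop (D l) (D l') := by
      intro l l' hl v
      by_contra hcon
      push Not at hcon
      rcases hDne l v hcon.1 with g1 | g1 <;> rcases hDne l' v hcon.2 with g2 | g2
      · rcases hcop l l' hl v with g3 | g3
        · exact g1 g3
        · exact g2 g3
      · exact hbig v (hspV l v g1) l' g2
      · exact hbig v (hspV l' v g2) l g1
      · exact hl (h𝔮i (g1.symm.trans g2))
    have hDz : ∀ l v, D l v ≠ 0 → v ∉ S ∧ z ≤ Nv v := by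
      intro l v hl
      rcases hDne l v hl with g1 | g1
      · exact hbigS v (hspV l v g1)
      · rw [g1]
        exact ⟨fun h => lt_irrefl _ (h𝔮S l _ h), (h𝔮z l).le⟩
    have hrsD : rs D ≤ c := by
      have g2 := rs_union 𝔮 hDne
      linarith
    have htl : tl D = ∑ l, (gg (D₀ l) + j l * lq l) + tr D₀ + L := by
      have g1 := tl_split D₀ hcop
      have g2 : tl D = tl D₀ + ∑ l, ((j l : ℝ) + 1) * lq l := by
        unfold tl
        rw [← Finset.sum_add_distrib]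
        refine Finset.sum_congr rfl fun l _ => ?_
        rw [hDd, len_add, len_single, hlqd]
        push_cast
        ring
      rw [g2, g1, hL, Finset.sum_add_distrib]
      have g3 : ∑ l, ((j l : ℝ) + 1) * lq l = ∑ l, (j l : ℝ) * lq l + ∑ l, lq l := by
        rw [← Finset.sum_add_distrib]
        refine Finset.sum_congr rfl fun l _ => ?_
        ring
      rw [g3]
      ring
    have htl2 : tl D ≤ Z + a + 2 * L + tr D₀ := by
      have g1 : ∑ l, (gg (D₀ l) + j l * lq l) ≤ ∑ l, (κ l * Z + C₁ + lq l) :=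
        Finset.sum_le_sum fun l _ => hj2 l
      have g2 : ∑ l, (κ l * Z + C₁ + lq l) = Z + a + L := by
        rw [Finset.sum_add_distrib, Finset.sum_add_distrib, ← Finset.sum_mul, hκs, ← hL,
          Finset.sum_const, Finset.card_univ, Fintype.card_fin, nsmul_eq_mul, ← ha, one_mul]
      rw [htl]
      linarith
    have htl3 : tl D ≤ X - Real.log M := by
      have g1 : ε' * Z ≤ δ / 2 * Z := mul_le_mul_of_nonneg_right hε'2 hZ0
      have g2 : Z + δ / 2 * Z + δ / 2 * Z = (1 + δ) * Z := by ring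
      linarith
    obtain ⟨W, hW⟩ : ∃ W : ℝ, W = Real.exp (2 * X - tl D) := ⟨_, rfl⟩
    have hWM : M * Real.exp X ≤ W := by
      rw [hW, ← Real.exp_log hM0, ← Real.exp_add, Real.exp_le_exp]
      linarith
    have heX : 1 ≤ Real.exp X := Real.one_le_exp hX0
    -- consequences of the size of `M`
    obtain ⟨kD1, kD2, kD3⟩ : 2 * Real.exp X ≤ η * W ∧ C₄ * Real.exp X ≤ η * W ∧
        C * Real.exp X ≤ c / 2 * W := by
      have g0 := Real.exp_pos X
      rw [div_le_iff₀ hη] at hM2 hM3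
      rw [div_le_iff₀ hc] at hM4
      refine ⟨?_, ?_, ?_⟩
      · calc 2 * Real.exp X ≤ M * η * Real.exp X := by gcongr
          _ = η * (M * Real.exp X) := by ring
          _ ≤ η * W := by gcongr
      · calc C₄ * Real.exp X ≤ M * η * Real.exp X := by gcongr
          _ = η * (M * Real.exp X) := by ring
          _ ≤ η * W := by gcongr
      · calc C * Real.exp X = (2 * C) * Real.exp X / 2 := by ring
          _ ≤ (M * c) * Real.exp X / 2 := by gcongr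
          _ = c / 2 * (M * Real.exp X) := by ring
          _ ≤ c / 2 * W := by gcongr
    have hom : (om D₀ : ℝ) ≤ 2 * Real.exp X := by
      have g1 := om_le D₀
      have g2 : (1 : ℝ) / 2 ≤ Real.log 2 := by
        have := Real.log_two_gt_d9
        linarith
      have g3 : X ≤ Real.exp X := by
        have := Real.add_one_le_exp X
        linarith
      have g4 : (0 : ℝ) ≤ om D₀ := Nat.cast_nonneg _
      have g5 : tr D₀ ≤ X := htr.trans hε'X
      nlinarith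
    obtain ⟨A, hAf, hAc⟩ := hA.low X D hX0 hcopD hDz hrsD
    rw [← hW] at hAc
    have hC₄Y : C₄ * Y ≤ C₄ * Real.exp X := by gcongr
    obtain ⟨G, hGs, hG1, hG2⟩ := per1 (V := √Z) (Y := Y) (η := η) hA hC hc1 hc2 hX0
      (hV1.trans hVX) hY1 D₀ D hDE A (fun x hx => ⟨(hAf x hx).1, (hAf x hx).2.1, (hAf x hx).2.2.2⟩)
      hW (hrs.trans hcw2) (hom.trans kD1) (by
        have g1 : 0 < √Z := lt_of_lt_of_le (by linarith) hVX
        rw [div_le_iff₀ g1]
        have g2 := hVc.trans hVX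
        rw [div_le_iff₀ hη] at g2
        linarith) (hC₄Y.trans kD2)
    refine ⟨G, fun _ => ⟨fun x hx => ⟨?_, hG1 x hx⟩, ?_⟩⟩
    · obtain ⟨k1, k2, k5, k3⟩ := hAf x (hGs hx)
      refine ⟨k1, k2, ?_⟩
      have g1 : ∀ l, κ l * Z + C₁ ≤ gg (pid S α x l) := by
        intro l
        refine le_trans ?_ (gg_mono (k3 l))
        rw [hDd]
        refine le_trans (hj1 l) ?_
        rw [hlqd]
        exact gg_single (D₀ l) (𝔮 l) (j l)
      have g2 := tl_split (pid S α x) (hA.cop x k1)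
      have g3 : tl (pid S α x) ≤ q * hr (aff x) + q * C := by
        unfold tl
        refine (Finset.sum_le_sum fun l _ => hA.up x k1 l).trans (le_of_eq ?_)
        rw [Finset.sum_const, Finset.card_univ, Fintype.card_fin, nsmul_eq_mul]
        ring
      have g4 : Z + a ≤ ∑ l, gg (pid S α x l) := by
        refine le_trans (le_of_eq ?_) (Finset.sum_le_sum fun l _ => g1 l)
        rw [Finset.sum_add_distrib, ← Finset.sum_mul, hκs, one_mul, Finset.sum_const,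
          Finset.card_univ, Fintype.card_fin, nsmul_eq_mul, ← ha]
      have g5 : C₀ ≤ q * C₀ := by
        have : (1 : ℝ) ≤ q := by exact_mod_cast hq
        nlinarith
      rw [ha, hC₁d] at g4
      linarith
    · rw [hηk] at hG2
      have hlow : c / 4 * W ≤ G.card := by linarith
      refine le_trans ?_ hlow
      have g1 : Real.exp (2 * X - Z - a - 2 * L - tr D₀) ≤ W := by
        rw [hW, Real.exp_le_exp]
        linarith
      gcongr
  choose G hG using hG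
  refine ⟨F.biUnion G, ?_, ?_⟩
  · intro x hx
    obtain ⟨D₀, hD₀, hpD⟩ := Finset.mem_biUnion.1 hx
    obtain ⟨⟨g1, g2, g4⟩, -⟩ := (hG D₀ hD₀).1 x hpD
    exact ⟨g1, g2, _, hA.spec _ g1, g4⟩
  · have hupY : ∀ D₀ ∈ F, ∀ v ∈ sp D₀, √Z < Nv v ∧ Nv v ≤ Y := by
      intro D₀ hD₀ v hv
      obtain ⟨-, -, hsp, -, htr, -⟩ := hF D₀ hD₀
      refine ⟨hsp v hv, ?_⟩
      rw [hYd, ← Real.log_le_iff_le_exp (Nv_pos v)]
      refine le_trans ?_ htr
      exact Finset.single_le_sum (f := fun v => Real.log (Nv v))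
        (fun u _ => (log_Nv_pos u).le) hv
    have hsq2 : ∀ D₀ ∈ F, ∀ v ∈ sp D₀, 2 ≤ ∑ i, D₀ i v := by
      intro D₀ hD₀ v hv
      have g1 := (hF D₀ hD₀).2.1 v
      obtain ⟨i, hi⟩ := (mem_sp D₀ v).1 hv
      have g2 : D₀ i v ≤ ∑ i, D₀ i v :=
        Finset.single_le_sum (f := fun i => D₀ i v) (fun _ _ => Nat.zero_le _) (Finset.mem_univ i)
      omega
    have hdisj : ∀ D₀ ∈ F, ∀ D₁ ∈ F, D₀ ≠ D₁ → Disjoint (G D₀) (G D₁) := by
      intro D₀ hD₀ D₁ hD₁ hne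
      rw [Finset.disjoint_left]
      intro p hp hp'
      apply hne
      have h5 := ((hG D₀ hD₀).1 p hp).2
      have h6 := ((hG D₁ hD₁).1 p hp').2
      funext i
      ext v
      have hz : ∀ D₂ : Fin q → Idl K, v ∉ sp D₂ → D₂ i v = 0 := by
        intro D₂ h
        by_contra h'
        exact h ((mem_sp D₂ v).2 ⟨i, h'⟩)
      by_cases k0 : v ∈ sp D₀
      · obtain ⟨k1, k2⟩ := hupY D₀ hD₀ v k0
        have k3 := (h5 v k1 k2).1 k0
        by_cases k4 : v ∈ sp D₁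
        · have k5 := (h6 v k1 k2).1 k4
          rw [← k3 i, ← k5 i]
        · have k5 := (h6 v k1 k2).2 k4
          have k6 := hsq2 D₀ hD₀ v k0
          simp only [k3] at k5
          omega
      · by_cases k4 : v ∈ sp D₁
        · obtain ⟨k1, k2⟩ := hupY D₁ hD₁ v k4
          have k3 := (h6 v k1 k2).1 k4
          have k5 := (h5 v k1 k2).2 k0
          have k6 := hsq2 D₁ hD₁ v k4
          simp only [k3] at k5
          omega
        · rw [hz D₀ k0, hz D₁ k4]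
    have hcard : ((F.biUnion G).card : ℝ) = ∑ D₀ ∈ F, ((G D₀).card : ℝ) := by
      rw [Finset.card_biUnion hdisj]
      push_cast
      rfl
    rw [hcard]
    have g1 : c / 4 * Real.exp (2 * X - Z - a - 2 * L) * ∑ D₀ ∈ F, Real.exp (-tr D₀) ≤
        ∑ D₀ ∈ F, ((G D₀).card : ℝ) := by
      rw [Finset.mul_sum]
      refine Finset.sum_le_sum fun D₀ hD₀ => le_trans (le_of_eq ?_) (hG D₀ hD₀).2
      rw [mul_assoc, ← Real.exp_add]
      rfl
    refine le_trans ?_ g1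
    have g2 : c / 4 * Real.exp (2 * X - Z - a - 2 * L) *
        Real.exp ((1 - ε') * ∑ l, √(8 * κ l * Z / Real.log Z)) ≤
        c / 4 * Real.exp (2 * X - Z - a - 2 * L) * ∑ D₀ ∈ F, Real.exp (-tr D₀) := by
      gcongr
    refine le_trans ?_ g2
    have g3 : c / 4 = Real.exp (Real.log (c / 4)) := (Real.exp_log (by positivity)).symm
    rw [hsum] at f5 ⊢
    rw [g3, ← Real.exp_add, ← Real.exp_add, Real.exp_le_exp]
    linarith


end Pool.Agent.L5helper9
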