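import Pool.Agent.N906.EQ.Soft2

/-!
# From a bound for the tail in the order of `ρ` to one in the order of `rn ρ E κ`
-/

set_option autoImplicit false

namespace Pool.Agent.L5helper9

open Filter Topology Finset
open Pool.Agent.N906.EQ (Tail rn SS)

theorem geo_tail {A b : ℝ} (hA : 0 ≤ A) (hb : 0 < b) {ε : ℝ} (hε : 0 < ε) :
    ∃ J : ℕ, ∀ M : ℕ, ∑ j ∈ Finset.Ico J M, A * Real.exp (-(b * j)) ≤ ε := by
  have hser : Summable fun j : ℕ => A * Real.exp (-(b * j)) := by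
    have h1 : Summable fun j : ℕ => Real.exp (-b) ^ j := by
      apply summable_geometric_of_lt_one (Real.exp_pos _).le
      rw [Real.exp_lt_one_iff]
      linarith
    refine (h1.mul_left A).congr fun j => ?_
    rw [← Real.exp_nat_mul]
    congr 2
    ring
  have hS0 : ∀ j : ℕ, 0 ≤ A * Real.exp (-(b * j)) := fun j => by positivity
  have h1 := hser.hasSum.tendsto_sum_nat
  have h2 := (Metric.tendsto_atTop.1 h1) ε hε
  obtain ⟨J, hJ⟩ := h2
  refine ⟨J, fun M => ?_⟩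
  have h3 := hJ J le_rfl
  rw [Real.dist_eq, abs_lt] at h3
  rcases le_total J M with h | h
  · have h4 : ∑ j ∈ Finset.range M, A * Real.exp (-(b * j)) ≤ ∑' j : ℕ, A * Real.exp (-(b * j)) :=
      hser.sum_le_tsum _ fun j _ => hS0 j
    have h5 := Finset.sum_Ico_eq_sub (fun j : ℕ => A * Real.exp (-(b * j))) h
    rw [h5]
    linarith [h3.1]
  · rw [Finset.Ico_eq_empty_of_le h, Finset.sum_empty]
    exact hε.le

theorem log_small {A c w : ℝ} (hw : 0 < w) :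
    Tendsto (fun B : ℝ => (A * Real.log B + c) * B ^ (-w)) atTop (𝓝 0) := by
  have h1 : Tendsto (fun B : ℝ => Real.log B * B ^ (-w)) atTop (𝓝 0) := by
    have h2 := (isLittleO_log_rpow_atTop hw).tendsto_div_nhds_zero
    refine h2.congr' ?_
    filter_upwards [eventually_gt_atTop 0] with B hB
    rw [Real.rpow_neg hB.le, div_eq_mul_inv]
  have h2 : Tendsto (fun B : ℝ => B ^ (-w)) atTop (𝓝 0) := tendsto_rpow_neg_atTop hw
  have h3 := (h1.const_mul A).add (h2.const_mul c)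
  rw [mul_zero, mul_zero, add_zero] at h3
  refine h3.congr fun B => ?_
  ring

/-- **The tail in the second order, from the tail in the first order.** -/
theorem tail_rn {Ω : Type} {ρ E : Ω → ℝ} {D c₀ C a ν κ δ κ₂ c₂ : ℝ} (hρ : ∀ P, 0 < ρ P)
    (hfin : ∀ B : ℝ, {P | ρ P ≤ B}.Finite) (hfin' : ∀ B : ℝ, {P | rn ρ E κ P ≤ B}.Finite)
    (hlow : ∀ P, -c₀ ≤ E P) (hup : ∀ P, E P ≤ κ₂ * Real.log (ρ P) + c₂)
    (hκ₂ : 0 ≤ κ₂) (hc₂ : 0 ≤ c₂) (hD : 0 < D) (hνD : ν ≤ D)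
    (ha : D / κ < a) (hC : 0 ≤ C) (hκ : 0 < κ)
    (hcount : ∀ B t : ℝ, 1 ≤ B → 0 ≤ t → ({P | ρ P ≤ B ∧ t ≤ E P}.ncard : ℝ) ≤
      C * (Real.exp (-(a * t)) + B ^ (-ν)) * B ^ D)
    (hδ : 0 < δ) (hδν : (1 + δ) * (D - ν) < D)
    (hlarge : ∀ ε : ℝ, 0 < ε → ∀ᶠ B : ℝ in atTop,
      ({P | rn ρ E κ P ≤ B ∧ B ^ (1 + δ) < ρ P}.ncard : ℝ) ≤ ε * B ^ D) :
    Tail (rn ρ E κ) E D c₀ := by
  classical
  refine ⟨hfin', hlow, fun ε hε => ?_⟩
  obtain ⟨b, hb⟩ : ∃ b : ℝ, b = a - D / κ := ⟨_, rfl⟩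
  have hb0 : 0 < b := by rw [hb]; linarith
  obtain ⟨J, hJ⟩ := geo_tail (A := C * Real.exp (D / κ)) (b := b) (by positivity) hb0
    (show 0 < ε / 4 by positivity)
  refine ⟨J, ?_⟩
  have hw : 0 < D - (1 + δ) * (D - ν) := by linarith
  have hlog := (log_small (A := κ₂ * (1 + δ)) (c := c₂ + 1) hw).const_mul C
  rw [mul_zero] at hlog
  filter_upwards [hlog.eventually (gt_mem_nhds (show (0 : ℝ) < ε / 4 by positivity)),
    hlarge (ε / 2) (by positivity), eventually_ge_atTop 1] with B hB1 hB2 hB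
  have hB0 : 0 < B := by linarith
  have hBD : 0 < B ^ D := Real.rpow_pos_of_pos hB0 _
  have hlogB : 0 ≤ Real.log B := Real.log_nonneg hB
  obtain ⟨M, hM⟩ : ∃ M : ℕ, M = ⌊κ₂ * (1 + δ) * Real.log B + c₂⌋₊ + 1 := ⟨_, rfl⟩
  have hMle : (M : ℝ) ≤ κ₂ * (1 + δ) * Real.log B + (c₂ + 1) := by
    rw [hM]
    push_cast
    have := Nat.floor_le (show 0 ≤ κ₂ * (1 + δ) * Real.log B + c₂ by positivity)
    linarith
  -- the cover
  have hsub : {P | rn ρ E κ P ≤ B ∧ (J : ℝ) ≤ E P} ⊆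
      {P | rn ρ E κ P ≤ B ∧ B ^ (1 + δ) < ρ P} ∪ ⋃ j ∈ Finset.Ico J M,
        {P | ρ P ≤ min (B * Real.exp (((j : ℝ) + 1) / κ)) (B ^ (1 + δ)) ∧ (j : ℝ) ≤ E P} := by
    rintro P ⟨h1, h2⟩
    by_cases h3 : B ^ (1 + δ) < ρ P
    · exact Or.inl ⟨h1, h3⟩
    right
    rw [not_lt] at h3
    have hE0 : 0 ≤ E P := (Nat.cast_nonneg J).trans h2
    have h4 : E P ≤ κ₂ * (1 + δ) * Real.log B + c₂ := by
      have h5 : Real.log (ρ P) ≤ (1 + δ) * Real.log B := by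
        rw [← Real.log_rpow hB0]
        exact Real.log_le_log (hρ P) h3
      have h6 := mul_le_mul_of_nonneg_left h5 hκ₂
      have h7 := hup P
      linarith
    rw [Set.mem_iUnion₂]
    refine ⟨⌊E P⌋₊, ?_, ?_, Nat.floor_le hE0⟩
    · rw [Finset.mem_Ico]
      refine ⟨Nat.le_floor h2, ?_⟩
      rw [hM, Nat.lt_succ_iff]
      exact Nat.floor_le_floor h4
    · refine le_min ?_ h3
      have h5 : ρ P = rn ρ E κ P * Real.exp (E P / κ) := by
        unfold rn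
        rw [mul_assoc, ← Real.exp_add, neg_add_cancel, Real.exp_zero, mul_one]
      rw [h5]
      refine mul_le_mul h1 ?_ (Real.exp_pos _).le hB0.le
      apply Real.exp_le_exp.2
      exact div_le_div_of_nonneg_right (Nat.lt_floor_add_one (E P)).le hκ.le
  -- the layers
  have hterm : ∀ j : ℕ,
      ({P | ρ P ≤ min (B * Real.exp (((j : ℝ) + 1) / κ)) (B ^ (1 + δ)) ∧
        (j : ℝ) ≤ E P}.ncard : ℝ) ≤
      C * Real.exp (D / κ) * Real.exp (-(b * j)) * B ^ D + C * B ^ ((1 + δ) * (D - ν)) := by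
    intro j
    obtain ⟨R, hR⟩ : ∃ R : ℝ, R = min (B * Real.exp (((j : ℝ) + 1) / κ)) (B ^ (1 + δ)) := ⟨_, rfl⟩
    rw [← hR]
    have hR1 : 1 ≤ R := by
      rw [hR]
      refine le_min ?_ (Real.one_le_rpow hB (by linarith))
      have h1 : 1 ≤ Real.exp (((j : ℝ) + 1) / κ) := Real.one_le_exp (by positivity)
      nlinarith
    have hR0 : 0 < R := by linarith
    refine (hcount R j hR1 (Nat.cast_nonneg j)).trans ?_
    have e1 : R ^ D ≤ B ^ D * Real.exp (D * (((j : ℝ) + 1) / κ)) := by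
      have h1 : R ≤ B * Real.exp (((j : ℝ) + 1) / κ) := by rw [hR]; exact min_le_left _ _
      refine (Real.rpow_le_rpow hR0.le h1 hD.le).trans (le_of_eq ?_)
      rw [Real.mul_rpow hB0.le (Real.exp_pos _).le, ← Real.exp_mul]
      congr 2
      ring
    have e2 : R ^ (-ν) * R ^ D ≤ B ^ ((1 + δ) * (D - ν)) := by
      have h1 : R ≤ B ^ (1 + δ) := by rw [hR]; exact min_le_right _ _
      rw [← Real.rpow_add hR0, Real.rpow_mul hB0.le]
      have h2 : -ν + D = D - ν := by ring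
      rw [h2]
      exact Real.rpow_le_rpow hR0.le h1 (by linarith)
    have e3 : Real.exp (-(a * j)) * Real.exp (D * (((j : ℝ) + 1) / κ)) =
        Real.exp (D / κ) * Real.exp (-(b * j)) := by
      rw [← Real.exp_add, ← Real.exp_add, hb]
      congr 1
      ring
    calc C * (Real.exp (-(a * j)) + R ^ (-ν)) * R ^ D
        = C * (Real.exp (-(a * j)) * R ^ D) + C * (R ^ (-ν) * R ^ D) := by ring
      _ ≤ C * (Real.exp (-(a * j)) * (B ^ D * Real.exp (D * (((j : ℝ) + 1) / κ)))) +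
          C * B ^ ((1 + δ) * (D - ν)) := by
          refine add_le_add (mul_le_mul_of_nonneg_left ?_ hC) (mul_le_mul_of_nonneg_left e2 hC)
          exact mul_le_mul_of_nonneg_left e1 (Real.exp_pos _).le
      _ = C * ((Real.exp (-(a * j)) * Real.exp (D * (((j : ℝ) + 1) / κ))) * B ^ D) +
          C * B ^ ((1 + δ) * (D - ν)) := by ring
      _ = _ := by rw [e3]; ring
  have hF1 : {P | rn ρ E κ P ≤ B ∧ B ^ (1 + δ) < ρ P}.Finite :=
    (hfin' B).subset fun P hP => hP.1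
  have hF2 : (⋃ j ∈ Finset.Ico J M,
      {P | ρ P ≤ min (B * Real.exp (((j : ℝ) + 1) / κ)) (B ^ (1 + δ)) ∧ (j : ℝ) ≤ E P}).Finite :=
    Set.Finite.biUnion (Finset.finite_toSet _) fun j _ => (hfin _).subset fun P hP => hP.1
  have hcard : ({P | rn ρ E κ P ≤ B ∧ (J : ℝ) ≤ E P}.ncard : ℝ) ≤
      ({P | rn ρ E κ P ≤ B ∧ B ^ (1 + δ) < ρ P}.ncard : ℝ) + ∑ j ∈ Finset.Ico J M,
        ({P | ρ P ≤ min (B * Real.exp (((j : ℝ) + 1) / κ)) (B ^ (1 + δ)) ∧
          (j : ℝ) ≤ E P}.ncard : ℝ) := by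
    have h1 := Set.ncard_le_ncard hsub (hF1.union hF2)
    have h2 := Set.ncard_union_le {P | rn ρ E κ P ≤ B ∧ B ^ (1 + δ) < ρ P}
      (⋃ j ∈ Finset.Ico J M,
        {P | ρ P ≤ min (B * Real.exp (((j : ℝ) + 1) / κ)) (B ^ (1 + δ)) ∧ (j : ℝ) ≤ E P})
    have h3 := Finset.set_ncard_biUnion_le (Finset.Ico J M) fun j : ℕ =>
      {P | ρ P ≤ min (B * Real.exp (((j : ℝ) + 1) / κ)) (B ^ (1 + δ)) ∧ (j : ℝ) ≤ E P}
    exact_mod_cast h1.trans (h2.trans (Nat.add_le_add_left h3 _))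
  refine hcard.trans ?_
  have h5 := Finset.sum_le_sum fun j (_ : j ∈ Finset.Ico J M) => hterm j
  rw [Finset.sum_add_distrib, ← Finset.sum_mul, Finset.sum_const, nsmul_eq_mul] at h5
  have h6 := mul_le_mul_of_nonneg_right (hJ M) hBD.le
  have h7 : (((Finset.Ico J M).card : ℕ) : ℝ) * (C * B ^ ((1 + δ) * (D - ν))) ≤ ε / 4 * B ^ D := by
    have h8 : (((Finset.Ico J M).card : ℕ) : ℝ) ≤ M := by
      rw [Nat.card_Ico]
      exact_mod_cast Nat.sub_le _ _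
    have h9 : 0 ≤ B ^ ((1 + δ) * (D - ν)) := Real.rpow_nonneg hB0.le _
    have h10 : B ^ ((1 + δ) * (D - ν)) = B ^ (-(D - (1 + δ) * (D - ν))) * B ^ D := by
      rw [← Real.rpow_add hB0]
      congr 1
      ring
    calc (((Finset.Ico J M).card : ℕ) : ℝ) * (C * B ^ ((1 + δ) * (D - ν)))
        ≤ (κ₂ * (1 + δ) * Real.log B + (c₂ + 1)) * (C * B ^ ((1 + δ) * (D - ν))) :=
          mul_le_mul_of_nonneg_right (h8.trans hMle) (by positivity)
      _ = C * ((κ₂ * (1 + δ) * Real.log B + (c₂ + 1)) *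
          B ^ (-(D - (1 + δ) * (D - ν)))) * B ^ D := by rw [h10]; ring
      _ ≤ _ := mul_le_mul_of_nonneg_right hB1.le hBD.le
  linarith

end Pool.Agent.L5helper9
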