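import Pool.Agent.L5helper9.Tail1
import Pool.Agent.L5helper9.TailRn
import Pool.Agent.L5helper9.Low1
import Pool.Agent.N906.EQ.Law

/-!
# The defect of the points of the projective line: counting function, bounds for the number of the points
-/

set_option autoImplicit false
set_option linter.unusedSectionVars false

namespace Pool.Agent.L5helper9

open NumberField IsDedekindDomain Finset Filter Topology Module
open Pool.Agent.H691R3 Pool.Agent.W223.AK Pool.Agent.N906.KG
open Pool.Agent.N170.KG (pr al_pr rep_eq_of rep_inf ht_rep of_rep off_of pt pt_rep pt_inj fin_pos lv_eq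
  pts pts_count pts_finite exp_hh)
open Pool.Agent.N340.QP (good_set ncl_bounds tr_eq)
open Pool.Agent.N906.EQ (lfK lamF fN NTd DE gT DE_eq DE_ge lamF_finite Om rho le_fN gT_zero)

variable {K : Type} [Field K] [NumberField K] {q : ℕ}

/-- the sum over the primes `v ∉ T` and over `l` of the truncated local heights -/
noncomputable def counting (T : Set (HeightOneSpectrum (𝓞 K))) (α : Fin q → Fin 2 → K)
    (x : Fin 2 → K) : ℝ :=
  ∑ᶠ (v : HeightOneSpectrum (𝓞 K)) (_ : v ∉ T), ∑ l : Fin q,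
    min
      (Real.log
          (max (FinitePlace.mk v (x 0)) (FinitePlace.mk v (x 1)) *
            max (FinitePlace.mk v (α l 0)) (FinitePlace.mk v (α l 1)) /
            FinitePlace.mk v (x 0 * α l 1 - x 1 * α l 0)) /
        (Module.finrank ℚ K : ℝ))
      (Real.log (Ideal.absNorm v.asIdeal : ℝ) / (Module.finrank ℚ K : ℝ))

/-- the defect -/
noncomputable def df (T : Set (HeightOneSpectrum (𝓞 K))) (α : Fin q → Fin 2 → K)
    (P : Projectivization K (Fin 2 → K)) : ℝ :=
  q * hh P - counting T α P.rep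

/-- the linear forms -/
def Lf (α : Fin q → Fin 2 → K) (l : Fin q) : Fin 2 → K := ![α l 1, -α l 0]

theorem lfK_Lf (α : Fin q → Fin 2 → K) (l : Fin q) (x : Fin 2 → K) :
    lfK (Lf α l) x = x 0 * α l 1 - x 1 * α l 0 := by
  unfold lfK Lf
  rw [Fin.sum_univ_two]
  simp only [Matrix.cons_val_zero, Matrix.cons_val_one]
  ring

theorem fN_two (v : Pr K) (x : Fin 2 → K) : fN v x = max (fv v (x 0)) (fv v (x 1)) := by
  apply le_antisymm
  · unfold fN
    rw [pi_norm_le_iff_of_nonneg (le_max_of_le_left ((fv v).nonneg _))]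
    intro i
    rw [Real.norm_of_nonneg ((fv v).nonneg _)]
    fin_cases i
    · exact le_max_left _ _
    · exact le_max_right _ _
  · exact max_le (le_fN v x 0) (le_fN v x 1)

theorem lamF_Lf (v : Pr K) (α : Fin q → Fin 2 → K) (l : Fin q) (x : Fin 2 → K) :
    lamF v (Lf α l) x = Real.log (max (FinitePlace.mk v (x 0)) (FinitePlace.mk v (x 1)) *
      max (FinitePlace.mk v (α l 0)) (FinitePlace.mk v (α l 1)) /
        FinitePlace.mk v (x 0 * α l 1 - x 1 * α l 0)) := by
  unfold lamF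
  rw [fN_two, fN_two, lfK_Lf]
  have e1 : fv v (Lf α l 0) = fv v (α l 1) := rfl
  have e2 : fv v (Lf α l 1) = fv v (α l 0) := (fv v).map_neg _
  rw [e1, e2, max_comm (fv v (α l 1))]
  rfl

theorem counting_NTd (T : Set (Pr K)) (α : Fin q → Fin 2 → K) (x : Fin 2 → K) :
    (finrank ℚ K : ℝ) * counting T α x = NTd T (Lf α) x := by
  classical
  have hd : (0 : ℝ) < finrank ℚ K := fin_pos
  unfold counting NTd
  rw [mul_finsum]
  refine finsum_congr fun v => ?_
  rw [finsum_eq_if, finsum_eq_if]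
  split_ifs with hv
  · rw [mul_zero]
  rw [Finset.mul_sum]
  refine Finset.sum_congr rfl fun l _ => ?_
  rw [mul_min_of_nonneg _ _ hd.le, mul_div_cancel₀ _ hd.ne', mul_div_cancel₀ _ hd.ne', lamF_Lf]
  rfl

theorem off_iff (α : Fin q → Fin 2 → K) (P : Projectivization K (Fin 2 → K)) :
    Off1 α P ↔ ∀ l, lfK (Lf α l) P.rep ≠ 0 := by
  unfold Off1
  refine forall_congr' fun l => ?_
  rw [lfK_Lf]

theorem counting_ncl (T : Set (Pr K)) {α : Fin q → Fin 2 → K}
    {P : Projectivization K (Fin 2 → K)} (hP : Off1 α P) :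
    counting T α P.rep = ∑ l, ncl T (α l) P := by
  classical
  have hd : (0 : ℝ) < finrank ℚ K := fin_pos
  unfold ncl
  rw [← finsum_sum_comm]
  · unfold counting
    refine finsum_congr fun v => ?_
    rw [finsum_eq_if]
    split_ifs with hv
    · exact (Finset.sum_eq_zero fun l _ => by rw [finsum_eq_if, if_neg (not_not.2 hv)]).symm
    · refine Finset.sum_congr rfl fun l _ => ?_
      rw [finsum_eq_if, if_pos hv]
      rfl
  · intro l _
    refine (lamF_finite ((off_iff α P).1 hP l)).subset fun v hv => ?_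
    rw [Function.mem_support] at hv ⊢
    intro h
    apply hv
    rw [finsum_eq_if]
    split_ifs with h2
    · rfl
    · have h3 : lv v (α l) P = 0 := by
        unfold lv
        rw [lamF_Lf] at h
        rw [h, zero_div]
      rw [h3]
      have h4 : 0 ≤ Real.log (Ideal.absNorm v.asIdeal : ℝ) / (finrank ℚ K : ℝ) := by
        have := (log_Nv_pos v).le
        exact div_nonneg this hd.le
      exact min_eq_left h4

/-- the counting function and the ideals -/
theorem counting_bounds {α : Fin q → Fin 2 → K} (hα : ∀ i, α i ≠ 0) {T : Set (Pr K)}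
    {S : Finset (Pr K)} (hTS : ∀ v ∈ T, v ∈ S)
    {P : Projectivization K (Fin 2 → K)} (hP : P.rep 1 ≠ 0) (hoP : Off1 α P) {A : Fin q → Idl K}
    (hA : IsP S (pr α) (P.rep 0 / P.rep 1) A) (hcop : ∀ l l', l ≠ l' → Cop (A l) (A l')) :
    tr A ≤ finrank ℚ K * counting T α P.rep ∧
      finrank ℚ K * counting T α P.rep ≤ tr A + q * ∑ v ∈ S, Real.log (Nv v) := by
  classical
  rw [counting_ncl T hoP, tr_eq hcop, Finset.mul_sum]
  have h1 := fun l => ncl_bounds hα hTS hP hoP hA l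
  constructor
  · exact Finset.sum_le_sum fun l _ => (h1 l).1
  · refine (Finset.sum_le_sum fun l _ => (h1 l).2).trans (le_of_eq ?_)
    rw [Finset.sum_add_distrib, Finset.sum_const, card_univ, Fintype.card_fin, nsmul_eq_mul]

theorem df_eq (T : Set (Pr K)) (α : Fin q → Fin 2 → K)
    {P : Projectivization K (Fin 2 → K)} (hP : Off1 α P) :
    df T α P = (finrank ℚ K : ℝ)⁻¹ * DE (gT T) (Lf α) P.rep +
      -((finrank ℚ K : ℝ)⁻¹ * ∑ l, Height.logHeight (Lf α l)) := by
  have hd : (0 : ℝ) < finrank ℚ K := fin_pos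
  rw [DE_eq T (Lf α) ((off_iff α P).1 hP), ← counting_NTd]
  unfold df hh
  field_simp
  ring

theorem counting_nonneg (T : Set (Pr K)) (α : Fin q → Fin 2 → K)
    {P : Projectivization K (Fin 2 → K)} (hP : Off1 α P) : 0 ≤ counting T α P.rep := by
  have hd : (0 : ℝ) < finrank ℚ K := fin_pos
  have h1 : 0 ≤ (finrank ℚ K : ℝ) * counting T α P.rep := by
    rw [counting_NTd]
    unfold NTd
    refine finsum_nonneg fun v => finsum_nonneg fun _ => Finset.sum_nonneg fun l _ => ?_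
    exact le_min (Pool.Agent.N906.EQ.lamF_nonneg' v ((off_iff α P).1 hP l)) (log_Nv_pos v).le
  by_contra h
  push Not at h
  nlinarith

/-- the points with a large defect -/
def DV (T : Set (Pr K)) (α : Fin q → Fin 2 → K) (t B : ℝ) : Set (Projectivization K (Fin 2 → K)) :=
  {P | Off1 α P ∧ Real.exp (hh P) ≤ B ∧ t ≤ df T α P}

theorem hgt_finite (B : ℝ) : {P : Projectivization K (Fin 2 → K) | Real.exp (hh P) ≤ B}.Finite := by
  rcases le_or_gt B 0 with hB | hB
  · refine Set.Finite.subset Set.finite_empty ?_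
    intro P h1
    exact absurd (Real.exp_pos (hh P)) (not_lt.2 (le_trans h1 hB))
  · refine (pts_finite K (finrank ℚ K * Real.log B)).subset fun P hP => ?_
    rw [Set.mem_ofPred_eq, ← Real.exp_log hB] at hP
    exact exp_hh.1 hP

theorem DV_finite (T : Set (Pr K)) (α : Fin q → Fin 2 → K) (t B : ℝ) : (DV T α t B).Finite :=
  (hgt_finite B).subset fun P hP => hP.2.1

/-- upper bound for the number of the points with a large defect -/
theorem df_upper {T : Set (Pr K)} (hT : T.Finite) (hq : 2 ≤ q) {α : Fin q → Fin 2 → K}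
    (hα0 : ∀ i, α i ≠ 0) (hα : ∀ i j, i ≠ j → α i 0 * α j 1 - α i 1 * α j 0 ≠ 0)
    {ε : ℝ} (hε : 0 < ε) :
    ∃ (C u₀ : ℝ) (n : ℕ), 0 < C ∧ 0 < u₀ ∧ u₀ < 1 / 2 ∧ ∀ u B t : ℝ, 0 < u → u < u₀ → 1 ≤ B →
      ((DV T α t B).ncard : ℝ) ≤
        C * (u⁻¹ ^ n * Real.exp ((1 + ε) * q / (u * Real.log (1 / u))) *
          Real.exp (-((1 - u) * (finrank ℚ K * t))) + B ^ (-((finrank ℚ K : ℝ) / 4))) *
          B ^ ((2 * finrank ℚ K : ℕ) : ℝ) := by
  classical
  have hd : (0 : ℝ) < finrank ℚ K := fin_pos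
  have hd1 : (1 : ℝ) ≤ finrank ℚ K := by exact_mod_cast (finrank_pos (R := ℚ) (M := K))
  have hA := al_pr hα0 hα
  obtain ⟨S, hG, hTS⟩ := good_set (basq_all K) (by omega) hT hA
  obtain ⟨-, hA2⟩ := basq_all K q (pr α) (by omega) hA
  obtain ⟨C₁, -, hA3⟩ := hA2 _ hG
  obtain ⟨C, u₀, n, hC, hu₀, hu₀2, hup⟩ := tail_u K (basq_all K) (cellq_all K) (gupk_all K)
    (Pool.Agent.N654.QP.bigq K q hq) (by omega) hA hG hε
  refine ⟨C + 1, u₀, n, by linarith, hu₀, hu₀2, fun u B t hu hu1 hB => ?_⟩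
  have hB0 : 0 < B := by linarith
  have hlB : 0 ≤ Real.log B := Real.log_nonneg hB
  obtain ⟨X, hX⟩ : ∃ X : ℝ, X = finrank ℚ K * Real.log B := ⟨_, rfl⟩
  have hX0 : 0 ≤ X := by rw [hX]; positivity
  obtain ⟨F, hF⟩ : ∃ F : Finset (Projectivization K (Fin 2 → K)),
    F = (DV_finite T α t B).toFinset := ⟨_, rfl⟩
  have hFm : ∀ P, P ∈ F ↔ P ∈ DV T α t B := fun P => by rw [hF, Set.Finite.mem_toFinset]
  have hcard : (DV T α t B).ncard = F.card := by
    rw [hF, Set.ncard_eq_toFinset_card _ (DV_finite T α t B)]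
  rw [hcard]
  have hsplit : F.card ≤ (F.filter fun P => P.rep 1 ≠ 0).card + 1 := by
    have h := Finset.card_filter_add_card_filter_not (s := F) (fun P => P.rep 1 ≠ 0)
    have h' : (F.filter fun P => ¬ P.rep 1 ≠ 0).card ≤ 1 := by
      rw [Finset.card_le_one]
      intro P hP P' hP'
      exact rep_inf (not_not.1 (mem_filter.1 hP).2) (not_not.1 (mem_filter.1 hP').2)
    omega
  have hc1 : (((F.filter fun P => P.rep 1 ≠ 0).card : ℕ) : ℝ) ≤
      C * (u⁻¹ ^ n * Real.exp ((1 + ε) * q / (u * Real.log (1 / u))) *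
        Real.exp (2 * X - (1 - u) * (finrank ℚ K * t)) + Real.exp (7 / 4 * X)) := by
    rw [← card_image_of_injOn (s := F.filter fun P => P.rep 1 ≠ 0)
      (f := fun P => P.rep 0 / P.rep 1)]
    · refine hup u X _ _ hu hu1 hX0 ?_
      intro x hx
      obtain ⟨P, hP, rfl⟩ := mem_image.1 hx
      obtain ⟨g0, g1⟩ := mem_filter.1 hP
      obtain ⟨m1, m2, m3⟩ := (hFm P).1 g0
      have o1 := of_rep g1 m1
      obtain ⟨A, hPA⟩ := (hA3 _ o1).1
      have hcop := ((hA3 _ o1).2.1 A hPA).1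
      refine ⟨o1, ?_, A, hPA, ?_⟩
      · rw [← ht_rep, hX]
        rw [← Real.exp_log hB0] at m2
        exact exp_hh.1 m2
      · rw [← ht_rep]
        have m5 := (counting_bounds hα0 hTS g1 m1 hPA hcop).1
        have m6 : (finrank ℚ K : ℝ) * t ≤ q * Height.logHeight P.rep -
            finrank ℚ K * counting T α P.rep := by
          refine (mul_le_mul_of_nonneg_left m3 hd.le).trans (le_of_eq ?_)
          unfold df hh
          field_simp
        linarith
    · intro P hP P' hP' e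
      exact rep_eq_of (mem_filter.1 (mem_coe.1 hP)).2 (mem_filter.1 (mem_coe.1 hP')).2 e
  have hs : (F.card : ℝ) ≤ (((F.filter fun P => P.rep 1 ≠ 0).card : ℕ) : ℝ) + 1 := by
    exact_mod_cast hsplit
  have e1 : Real.exp (2 * X) = B ^ ((2 * finrank ℚ K : ℕ) : ℝ) := by
    rw [Real.rpow_def_of_pos hB0, hX]
    congr 1
    push_cast
    ring
  have e2 : Real.exp (7 / 4 * X) = B ^ (-((finrank ℚ K : ℝ) / 4)) *
      B ^ ((2 * finrank ℚ K : ℕ) : ℝ) := by
    rw [← Real.rpow_add hB0, Real.rpow_def_of_pos hB0, hX]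
    congr 1
    push_cast
    ring
  have e3 : (1 : ℝ) ≤ Real.exp (7 / 4 * X) := Real.one_le_exp (by positivity)
  have e4 : Real.exp (2 * X - (1 - u) * (finrank ℚ K * t)) =
      Real.exp (-((1 - u) * (finrank ℚ K * t))) * B ^ ((2 * finrank ℚ K : ℕ) : ℝ) := by
    rw [← e1, ← Real.exp_add]
    congr 1
    ring
  rw [e4] at hc1
  have e5 : 0 ≤ u⁻¹ ^ n * Real.exp ((1 + ε) * q / (u * Real.log (1 / u))) *
      (Real.exp (-((1 - u) * (finrank ℚ K * t))) * B ^ ((2 * finrank ℚ K : ℕ) : ℝ)) := by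
    have : 0 < u⁻¹ := inv_pos.2 hu
    positivity
  have e6 : (F.card : ℝ) ≤ (C + 1) * (u⁻¹ ^ n * Real.exp ((1 + ε) * q / (u * Real.log (1 / u))) *
      (Real.exp (-((1 - u) * (finrank ℚ K * t))) * B ^ ((2 * finrank ℚ K : ℕ) : ℝ)) +
      Real.exp (7 / 4 * X)) := by
    nlinarith
  refine e6.trans (le_of_eq ?_)
  rw [e2]
  ring

/-- lower bound for the number of the points with a large defect -/
theorem df_lower {T : Set (Pr K)} (hT : T.Finite) (hq : 1 ≤ q) {α : Fin q → Fin 2 → K}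
    (hα0 : ∀ i, α i ≠ 0) (hα : ∀ i j, i ≠ j → α i 0 * α j 1 - α i 1 * α j 0 ≠ 0)
    {ε : ℝ} (hε : 0 < ε) (hε1 : ε < 1) :
    ∃ t₀ : ℝ, 1 < t₀ ∧ ∀ t B : ℝ, t₀ ≤ t → 2 * t ≤ Real.log B → 0 < B →
      Real.exp (-(finrank ℚ K * t) + (1 - ε) *
        √(8 * q * (finrank ℚ K * t) / Real.log (finrank ℚ K * t))) *
        B ^ ((2 * finrank ℚ K : ℕ) : ℝ) ≤ ((DV T α t B).ncard : ℝ) := by
  classical
  have hd : (0 : ℝ) < finrank ℚ K := fin_pos
  have hd1 : (1 : ℝ) ≤ finrank ℚ K := by exact_mod_cast (finrank_pos (R := ℚ) (M := K))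
  have hA := al_pr hα0 hα
  obtain ⟨S, hG, hTS⟩ := good_set (basq_all K) hq hT hA
  obtain ⟨-, hA2⟩ := basq_all K q (pr α) hq hA
  obtain ⟨C₁, -, hA3⟩ := hA2 _ hG
  have hlog : 0 ≤ ∑ v ∈ S, Real.log (Nv v) := sum_nonneg fun v _ => (log_Nv_pos v).le
  obtain ⟨Z₀, hZ₀, hlo⟩ := low_u K (basq_all K) (cellq_all K) (lowp_all K) (winj_all K) hq hA hG
    hε hε1 one_pos (C₀ := q * ∑ v ∈ S, Real.log (Nv v)) (by positivity)
  refine ⟨Z₀, hZ₀, fun t B ht htB hB0 => ?_⟩
  have ht0 : 0 < t := by linarith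
  obtain ⟨X, hX⟩ : ∃ X : ℝ, X = finrank ℚ K * Real.log B := ⟨_, rfl⟩
  obtain ⟨F, hF, hcard⟩ := hlo (finrank ℚ K * t) X (by nlinarith) (by
    rw [hX]
    have := mul_le_mul_of_nonneg_left htB hd.le
    linarith)
  have e1 : Real.exp (2 * X) = B ^ ((2 * finrank ℚ K : ℕ) : ℝ) := by
    rw [Real.rpow_def_of_pos hB0, hX]
    congr 1
    push_cast
    ring
  have e2 : Real.exp (2 * X - finrank ℚ K * t + (1 - ε) *
      √(8 * q * (finrank ℚ K * t) / Real.log (finrank ℚ K * t))) =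
      Real.exp (-(finrank ℚ K * t) + (1 - ε) *
        √(8 * q * (finrank ℚ K * t) / Real.log (finrank ℚ K * t))) *
        B ^ ((2 * finrank ℚ K : ℕ) : ℝ) := by
    rw [← e1, ← Real.exp_add]
    congr 1
    ring
  rw [e2] at hcard
  refine hcard.trans ?_
  have hsub : ((F.image pt : Finset _) : Set _) ⊆ DV T α t B := by
    intro P hP
    obtain ⟨x, hx, rfl⟩ := mem_image.1 (mem_coe.1 hP)
    obtain ⟨o1, k1, A, hPA, htr⟩ := hF x hx
    obtain ⟨n1, e1⟩ := pt_rep x
    have l1 : Height.logHeight (pt x).rep = hr (aff x) := by rw [ht_rep, e1]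
    have f1 : Off1 α (pt x) := off_of n1 (by rw [e1]; exact o1)
    have hcop := ((hA3 _ o1).2.1 A hPA).1
    refine ⟨f1, ?_, ?_⟩
    · rw [← Real.exp_log hB0]
      exact exp_hh.2 (by rw [l1, ← hX]; exact k1)
    · have h6 := (counting_bounds (S := S) hα0 hTS n1 f1 (by rw [e1]; exact hPA) hcop).2
      have h7 : (finrank ℚ K : ℝ) * t ≤ finrank ℚ K * df T α (pt x) := by
        have h8 : (finrank ℚ K : ℝ) * df T α (pt x) = q * Height.logHeight (pt x).rep -
            finrank ℚ K * counting T α (pt x).rep := by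
          unfold df hh
          field_simp
        rw [h8, l1]
        linarith
      exact le_of_mul_le_mul_left h7 hd
  have h1 : F.card = (F.image pt).card := (card_image_of_injective F pt_inj).symm
  rw [h1, ← Set.ncard_coe_finset]
  exact_mod_cast Set.ncard_le_ncard hsub (DV_finite T α t B)

end Pool.Agent.L5helper9
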