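import Mathlib

/-!
# Small representatives modulo `(X - r, p) ^ 2`

`Sm t d M A`: the polynomial `A` has degree at most `d` and its coefficients satisfy
`|a_i| t ^ (2 i) ≤ M`. If every residue modulo the prime `p` is the value at `r` of a polynomial
`A` with `Sm t m (J t ^ n) A`, then every pair (value modulo `p ^ 2`, derivative modulo `p`) is
that of a polynomial `h` with `Sm t (2 m) (K t ^ (2 n)) h`.
-/

set_option autoImplicit false

namespace Pool.Agent.L5helper9.Nf

open Polynomial

/-- degree at most `d`, weighted coefficients at most `M` -/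
def Sm (t d : ℕ) (M : ℤ) (A : ℤ[X]) : Prop :=
  A.natDegree ≤ d ∧ ∀ i, |A.coeff i| * (t : ℤ) ^ (2 * i) ≤ M

section basic

variable {t d e : ℕ} {M N : ℤ} {A B : ℤ[X]}

lemma Sm.mono {d' : ℕ} {M' : ℤ} (h : Sm t d M A) (hd : d ≤ d') (hM : M ≤ M') : Sm t d' M' A :=
  ⟨h.1.trans hd, fun i => (h.2 i).trans hM⟩

lemma Sm.nonneg (h : Sm t d M A) : 0 ≤ M := le_trans (by positivity) (h.2 0)

lemma Sm.add (h1 : Sm t d M A) (h2 : Sm t d N B) : Sm t d (M + N) (A + B) := by
  refine ⟨(natDegree_add_le _ _).trans (max_le h1.1 h2.1), fun i => ?_⟩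
  have h3 := h1.2 i
  have h4 := h2.2 i
  have h5 : |(A + B).coeff i| ≤ |A.coeff i| + |B.coeff i| := by
    rw [coeff_add]
    exact abs_add_le _ _
  have h6 : (0 : ℤ) ≤ (t : ℤ) ^ (2 * i) := by positivity
  nlinarith [mul_le_mul_of_nonneg_right h5 h6]

lemma Sm.neg (h1 : Sm t d M A) : Sm t d M (-A) := by
  refine ⟨by rw [natDegree_neg]; exact h1.1, fun i => ?_⟩
  rw [coeff_neg, abs_neg]
  exact h1.2 i

lemma Sm.sub (h1 : Sm t d M A) (h2 : Sm t d N B) : Sm t d (M + N) (A - B) := by
  rw [sub_eq_add_neg]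
  exact h1.add h2.neg

lemma sm_one (h : 1 ≤ M) : Sm t d M (1 : ℤ[X]) := by
  refine ⟨by simp, fun i => ?_⟩
  rw [coeff_one]
  rcases Nat.eq_zero_or_pos i with rfl | hi
  · simpa using h
  · rw [if_neg (by omega)]
    simp only [abs_zero, zero_mul]
    linarith

lemma sm_X (hd : 1 ≤ d) (h : (t : ℤ) ^ 2 ≤ M) : Sm t d M (X : ℤ[X]) := by
  refine ⟨natDegree_X_le.trans hd, fun i => ?_⟩
  have h0 : (0 : ℤ) ≤ M := le_trans (by positivity) h
  rw [coeff_X]
  split_ifs with hi
  · subst hi
    simpa using h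
  · simpa using h0

lemma Sm.mul (h1 : Sm t d M A) (h2 : Sm t e N B) : Sm t (d + e) ((d + 1) * M * N) (A * B) := by
  have hM := h1.nonneg
  have hN := h2.nonneg
  refine ⟨natDegree_mul_le.trans (add_le_add h1.1 h2.1), fun k => ?_⟩
  rw [coeff_mul]
  have h3 : ∀ x ∈ Finset.HasAntidiagonal.antidiagonal k, |A.coeff x.1 * B.coeff x.2| * (t : ℤ) ^ (2 * k) ≤
      if x.1 ≤ d then M * N else 0 := by
    intro x hx
    rw [Finset.HasAntidiagonal.mem_antidiagonal] at hx
    split_ifs with hxd
    · have h4 := h1.2 x.1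
      have h5 := h2.2 x.2
      have h6 : |A.coeff x.1 * B.coeff x.2| * (t : ℤ) ^ (2 * k) =
          (|A.coeff x.1| * (t : ℤ) ^ (2 * x.1)) * (|B.coeff x.2| * (t : ℤ) ^ (2 * x.2)) := by
        rw [abs_mul, ← hx]
        ring
      rw [h6]
      exact mul_le_mul h4 h5 (by positivity) hM
    · rw [coeff_eq_zero_of_natDegree_lt (lt_of_le_of_lt h1.1 (by omega))]
      simp
  calc |∑ x ∈ Finset.HasAntidiagonal.antidiagonal k, A.coeff x.1 * B.coeff x.2| * (t : ℤ) ^ (2 * k)
      ≤ (∑ x ∈ Finset.HasAntidiagonal.antidiagonal k, |A.coeff x.1 * B.coeff x.2|) * (t : ℤ) ^ (2 * k) :=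
        mul_le_mul_of_nonneg_right (Finset.abs_sum_le_sum_abs _ _) (by positivity)
    _ = ∑ x ∈ Finset.HasAntidiagonal.antidiagonal k, |A.coeff x.1 * B.coeff x.2| * (t : ℤ) ^ (2 * k) := by
        rw [Finset.sum_mul]
    _ ≤ ∑ x ∈ Finset.HasAntidiagonal.antidiagonal k, if x.1 ≤ d then M * N else 0 := Finset.sum_le_sum h3
    _ = ((Finset.HasAntidiagonal.antidiagonal k).filter fun x => x.1 ≤ d).card * (M * N) := by
        rw [← Finset.sum_filter, Finset.sum_const, nsmul_eq_mul]
    _ ≤ ((d : ℤ) + 1) * (M * N) := by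
        apply mul_le_mul_of_nonneg_right _ (mul_nonneg hM hN)
        have h4 : ((Finset.HasAntidiagonal.antidiagonal k).filter fun x => x.1 ≤ d).card ≤
            (Finset.range (d + 1)).card := by
          apply Finset.card_le_card_of_injOn (fun x => x.1)
          · intro x hx
            simp only [Finset.coe_filter, Set.mem_ofPred_eq] at hx
            simp only [Finset.coe_range, Set.mem_Iio]
            omega
          · intro x hx y hy hxy
            simp only [Finset.coe_filter, Finset.HasAntidiagonal.mem_antidiagonal, Set.mem_ofPred_eq] at hx hy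
            simp only at hxy
            ext
            · exact hxy
            · omega
        rw [Finset.card_range] at h4
        exact_mod_cast h4
    _ = (d + 1) * M * N := by ring

end basic

section telescoping

variable {p : ℕ} {t m n : ℕ} {r : ℤ} {J : ℤ}

/-- the linear functional `a V(r) / p + b V'(r)` vanishes modulo `p` at the polynomial `V`, whose
value at `r` is divisible by `p` -/
def Van (p : ℕ) (r : ℤ) (a b : ZMod p) (V : ℤ[X]) : Prop :=
  ∃ v : ℤ, V.eval r = p * v ∧ a * (v : ZMod p) + b * ((V.derivative.eval r : ℤ) : ZMod p) = 0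

lemma Van.add {a b : ZMod p} {V W : ℤ[X]} (h1 : Van p r a b V) (h2 : Van p r a b W) :
    Van p r a b (V + W) := by
  obtain ⟨v, hv, hv2⟩ := h1
  obtain ⟨w, hw, hw2⟩ := h2
  refine ⟨v + w, by rw [eval_add, hv, hw]; ring, ?_⟩
  rw [derivative_add, eval_add]
  push_cast
  linear_combination hv2 + hw2

lemma Van.neg {a b : ZMod p} {V : ℤ[X]} (h1 : Van p r a b V) : Van p r a b (-V) := by
  obtain ⟨v, hv, hv2⟩ := h1
  refine ⟨-v, by rw [eval_neg, hv]; ring, ?_⟩
  rw [derivative_neg, eval_neg]
  push_cast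
  linear_combination -hv2

/-- If the functional vanishes at all small polynomials, it is zero. -/
lemma telescope (hp : p.Prime) (ht : 1 ≤ t) (hm : 1 ≤ m) (hn : 2 ≤ n) (hJ : 1 ≤ J)
    (hrep : ∀ ρ : ℤ, ∃ A, Sm t m (J * t ^ n) A ∧ (p : ℤ) ∣ A.eval r - ρ) (a b : ZMod p)
    (hsmall : ∀ V, Sm t m ((2 * J + 1) * t ^ n) V → (p : ℤ) ∣ V.eval r → Van p r a b V) :
    a = 0 ∧ b = 0 := by
  choose R hR1 hR2 using hrep
  have htn : (1 : ℤ) ≤ (t : ℤ) ^ n := one_le_pow₀ (by exact_mod_cast ht)
  have ht2 : ((t : ℤ)) ^ 2 ≤ (t : ℤ) ^ n := pow_le_pow_right₀ (by exact_mod_cast ht) hn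
  have hR0 : Van p r a b (R 0) := by
    apply hsmall
    · exact (hR1 0).mono le_rfl (by nlinarith)
    · simpa using hR2 0
  -- constants
  have hconst : ∀ k : ℕ, Van p r a b (C (k : ℤ) - R k) := by
    intro k
    induction k with
    | zero =>
      simpa using hR0.neg
    | succ k ih =>
      have h1 : Van p r a b (1 + R k - R ((k + 1 : ℕ) : ℤ)) := by
        apply hsmall
        · have h2 : Sm t m (t ^ n : ℤ) (1 : ℤ[X]) := sm_one htn
          exact ((h2.add (hR1 k)).sub (hR1 ((k + 1 : ℕ) : ℤ))).mono le_rfl (by nlinarith)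
        · have h3 := hR2 k
          have h4 := hR2 ((k + 1 : ℕ) : ℤ)
          rw [eval_sub, eval_add, eval_one]
          push_cast at h4 ⊢
          obtain ⟨u, hu⟩ := h3
          obtain ⟨w, hw⟩ := h4
          exact ⟨u - w, by linear_combination hu - hw⟩
      have h2 := ih.add h1
      have h3 : C (((k + 1 : ℕ) : ℤ)) = C (k : ℤ) + 1 := by
        rw [Nat.cast_succ, map_add, map_one]
      rw [h3]
      convert h2 using 1
      ring
  -- linear polynomials
  have hX0 : Van p r a b (X - R r) := by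
    apply hsmall
    · exact ((sm_X hm ht2).sub (hR1 r)).mono le_rfl (by nlinarith)
    · rw [eval_sub, eval_X]
      have := hR2 r
      rw [← dvd_neg]
      simpa using this
  have hlin : ∀ k : ℕ, Van p r a b (X - C (k : ℤ) - R (r - k)) ∧
      Van p r a b (X + C (k : ℤ) - R (r + k)) := by
    intro k
    induction k with
    | zero =>
      constructor <;> simpa using hX0
    | succ k ih =>
      constructor
      · have h1 : Van p r a b (-1 + R (r - k) - R (r - ((k + 1 : ℕ) : ℤ))) := by
          apply hsmall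
          · have h2 : Sm t m (t ^ n : ℤ) (-1 : ℤ[X]) := (sm_one htn).neg
            exact ((h2.add (hR1 _)).sub (hR1 _)).mono le_rfl (by nlinarith)
          · have h3 := hR2 (r - k)
            have h4 := hR2 (r - ((k + 1 : ℕ) : ℤ))
            rw [eval_sub, eval_add, eval_neg, eval_one]
            push_cast at h4 ⊢
            obtain ⟨u, hu⟩ := h3
            obtain ⟨w, hw⟩ := h4
            exact ⟨u - w, by linear_combination hu - hw⟩
        have h2 := ih.1.add h1
        have h3 : C (((k + 1 : ℕ) : ℤ)) = C (k : ℤ) + 1 := by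
          rw [Nat.cast_succ, map_add, map_one]
        rw [h3]
        convert h2 using 1
        ring
      · have h1 : Van p r a b (1 + R (r + k) - R (r + ((k + 1 : ℕ) : ℤ))) := by
          apply hsmall
          · have h2 : Sm t m (t ^ n : ℤ) (1 : ℤ[X]) := sm_one htn
            exact ((h2.add (hR1 _)).sub (hR1 _)).mono le_rfl (by nlinarith)
          · have h3 := hR2 (r + k)
            have h4 := hR2 (r + ((k + 1 : ℕ) : ℤ))
            rw [eval_sub, eval_add, eval_one]
            push_cast at h4 ⊢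
            obtain ⟨u, hu⟩ := h3
            obtain ⟨w, hw⟩ := h4
            exact ⟨u - w, by linear_combination hu - hw⟩
        have h2 := ih.2.add h1
        have h3 : C (((k + 1 : ℕ) : ℤ)) = C (k : ℤ) + 1 := by
          rw [Nat.cast_succ, map_add, map_one]
        rw [h3]
        convert h2 using 1
        ring
  have hpz : ((p : ℤ)) ≠ 0 := by exact_mod_cast hp.ne_zero
  have : Fact p.Prime := ⟨hp⟩
  constructor
  · -- the constant `p`
    have h1 := (hconst p)
    have h2 : (p : ℤ) ∣ (R (p : ℤ)).eval r := by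
      have := hR2 (p : ℤ)
      have h3 := dvd_add this (dvd_refl (p : ℤ))
      simpa using h3
    have h3 : Van p r a b (R (p : ℤ)) := hsmall _ ((hR1 p).mono le_rfl (by nlinarith)) h2
    have h4 := h1.add h3
    rw [sub_add_cancel] at h4
    obtain ⟨v, hv, hv2⟩ := h4
    rw [eval_C] at hv
    have hv1 : v = 1 := by
      have : (p : ℤ) * v = p * 1 := by rw [← hv]; ring
      exact mul_left_cancel₀ hpz this
    subst hv1
    rw [derivative_C] at hv2
    simpa using hv2
  · -- the linear polynomial `X - r`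
    have key : Van p r a b (X - C r) := by
      rcases le_total 0 r with hr | hr
      · lift r to ℕ using hr
        have h1 := (hlin r).1
        rw [sub_self] at h1
        have := h1.add hR0
        rwa [sub_add_cancel] at this
      · obtain ⟨k, hk⟩ := Int.exists_eq_neg_ofNat hr
        have h1 := (hlin k).2
        have h0 : r + (k : ℤ) = 0 := by rw [hk]; simp
        rw [h0] at h1
        have := h1.add hR0
        rw [sub_add_cancel] at this
        convert this using 1
        rw [hk]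
        simp
    obtain ⟨v, hv, hv2⟩ := key
    rw [eval_sub, eval_X, eval_C, sub_self] at hv
    have hv0 : v = 0 := by
      rcases mul_eq_zero.1 hv.symm with h | h
      · exact absurd h hpz
      · exact h
    subst hv0
    simpa using hv2

/-- **Small representatives of all classes modulo `(X - r, p) ^ 2`.** -/
theorem reps2 (hp : p.Prime) (ht : 1 ≤ t) (hm : 1 ≤ m) (hn : 2 ≤ n) (hJ : 1 ≤ J)
    (hrep : ∀ ρ : ℤ, ∃ A, Sm t m (J * t ^ n) A ∧ (p : ℤ) ∣ A.eval r - ρ) (ρ0 ρ1 : ℤ) :
    ∃ h : ℤ[X], Sm t (m + m) ((J + 2 * (m + 1) * (2 * J + 1) * J) * t ^ (2 * n)) h ∧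
      (p : ℤ) ^ 2 ∣ h.eval r - ρ0 ∧ (p : ℤ) ∣ h.derivative.eval r - ρ1 := by
  have : Fact p.Prime := ⟨hp⟩
  have hpz : ((p : ℤ)) ≠ 0 := by exact_mod_cast hp.ne_zero
  have htn : (1 : ℤ) ≤ (t : ℤ) ^ n := one_le_pow₀ (by exact_mod_cast ht)
  -- two small polynomials with independent images
  have hV : ∃ V W : ℤ[X], Sm t m ((2 * J + 1) * t ^ n) V ∧ Sm t m ((2 * J + 1) * t ^ n) W ∧
      ∃ v w : ℤ, V.eval r = p * v ∧ W.eval r = p * w ∧
        (v : ZMod p) * ((W.derivative.eval r : ℤ) : ZMod p) -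
          (w : ZMod p) * ((V.derivative.eval r : ℤ) : ZMod p) ≠ 0 := by
    by_contra hcon
    push Not at hcon
    -- every small polynomial has image zero
    have h1 : ∀ V, Sm t m ((2 * J + 1) * t ^ n) V → (p : ℤ) ∣ V.eval r →
        ∃ v : ℤ, V.eval r = p * v ∧ (v : ZMod p) = 0 ∧
          ((V.derivative.eval r : ℤ) : ZMod p) = 0 := by
      rintro V hV ⟨v, hv⟩
      have h2 := telescope (p := p) (r := r) hp ht hm hn hJ hrep
        (-((V.derivative.eval r : ℤ) : ZMod p)) (v : ZMod p) (by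
          rintro W hW ⟨w, hw⟩
          refine ⟨w, hw, ?_⟩
          have := hcon V W hV hW v w hv hw
          linear_combination this)
      exact ⟨v, hv, h2.2, by simpa using h2.1⟩
    have h2 := telescope (p := p) (r := r) hp ht hm hn hJ hrep 1 0 (by
      intro V hV hd
      obtain ⟨v, hv, hv0, -⟩ := h1 V hV hd
      exact ⟨v, hv, by rw [hv0]; ring⟩)
    exact one_ne_zero h2.1
  obtain ⟨V, W, hVs, hWs, v, w, hv, hw, hdet⟩ := hV
  choose R hR1 hR2 using hrep
  obtain ⟨e, he⟩ := hR2 ρ0
  -- Cramer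
  set D : ZMod p := (v : ZMod p) * ((W.derivative.eval r : ℤ) : ZMod p) -
          (w : ZMod p) * ((V.derivative.eval r : ℤ) : ZMod p) with hD
  set e' : ZMod p := ((-e : ℤ) : ZMod p) with he'
  set f' : ZMod p := ((ρ1 - (R ρ0).derivative.eval r : ℤ) : ZMod p) with hf'
  set x : ZMod p := (e' * ((W.derivative.eval r : ℤ) : ZMod p) - (w : ZMod p) * f') / D with hx
  set y : ZMod p := ((v : ZMod p) * f' - e' * ((V.derivative.eval r : ℤ) : ZMod p)) / D with hy
  obtain ⟨xi, hxi⟩ := ZMod.intCast_surjective x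
  obtain ⟨yi, hyi⟩ := ZMod.intCast_surjective y
  have hxe : (((R xi).eval r : ℤ) : ZMod p) = x := by
    rw [← hxi]
    have := (ZMod.intCast_eq_intCast_iff_dvd_sub xi ((R xi).eval r) p).2 (hR2 xi)
    exact this.symm
  have hye : (((R yi).eval r : ℤ) : ZMod p) = y := by
    rw [← hyi]
    have := (ZMod.intCast_eq_intCast_iff_dvd_sub yi ((R yi).eval r) p).2 (hR2 yi)
    exact this.symm
  refine ⟨R ρ0 + V * R xi + W * R yi, ?_, ?_, ?_⟩
  · have hJ0 : (0 : ℤ) ≤ J := by linarith
    have h1 : Sm t (m + m) (J * t ^ n) (R ρ0) := (hR1 ρ0).mono (by omega) le_rfl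
    have h2 := hVs.mul (hR1 xi)
    have h3 := hWs.mul (hR1 yi)
    refine ((h1.add h2).add h3).mono le_rfl ?_
    have h4 : (t : ℤ) ^ (2 * n) = (t : ℤ) ^ n * (t : ℤ) ^ n := by rw [two_mul, pow_add]
    rw [h4]
    have h5 : J * (t : ℤ) ^ n ≤ J * ((t : ℤ) ^ n * (t : ℤ) ^ n) := by
      apply mul_le_mul_of_nonneg_left _ hJ0
      nlinarith
    nlinarith
  · have h1 : (R ρ0 + V * R xi + W * R yi).eval r - ρ0 =
        p * (e + v * (R xi).eval r + w * (R yi).eval r) := by
      rw [eval_add, eval_add, eval_mul, eval_mul, hv, hw]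
      linear_combination he
    rw [h1, pow_two]
    apply mul_dvd_mul_left
    rw [← ZMod.intCast_zmod_eq_zero_iff_dvd]
    push_cast
    rw [hxe, hye, hx, hy]
    have h2 : (e : ZMod p) = -e' := by rw [he']; push_cast; ring
    rw [h2]
    field_simp
    rw [hD]
    ring
  · rw [← ZMod.intCast_zmod_eq_zero_iff_dvd]
    rw [derivative_add, derivative_add, derivative_mul, derivative_mul, eval_add, eval_add,
      eval_add, eval_add, eval_mul, eval_mul, eval_mul, eval_mul, hv, hw]
    push_cast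
    rw [hxe, hye]
    have hp0 : (p : ZMod p) = 0 := ZMod.natCast_self p
    rw [hp0]
    have h3 : ((ρ1 : ℤ) : ZMod p) = f' + (((R ρ0).derivative.eval r : ℤ) : ZMod p) := by
      rw [hf']; push_cast; ring
    rw [h3, hx, hy]
    field_simp
    rw [hD]
    ring

end telescoping

end Pool.Agent.L5helper9.Nf
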