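import Pool.Agent.L5helper9.Nf9
import Pool.Agent.L5helper40.NF.F8

/-!
# The lower bound
-/

set_option autoImplicit false

namespace Pool.Agent.L5helper9.Nf

open Filter Topology Polynomial Module NumberField

lemma to_X (N : ℝ → ℝ) (hmono : ∀ X Y, 1 ≤ X → X ≤ Y → N X ≤ N Y) (C1 c : ℝ) (hC1 : 1 ≤ C1)
    (hc : 0 < c) (G H : ℕ) (hH : 0 < H)
    (h : ∀ᶠ t : ℕ in atTop, c * (t : ℝ) ^ G ≤ N (C1 * (t : ℝ) ^ H)) (e : ℝ)
    (he : e < (G : ℝ) / H) : ∀ᶠ X : ℝ in atTop, X ^ e ≤ N X := by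
  have hH' : (0 : ℝ) < H := by exact_mod_cast hH
  have hC10 : 0 < C1 := by linarith
  have hy : Tendsto (fun X : ℝ => (X / C1) ^ ((1 : ℝ) / H)) atTop atTop := by
    apply (tendsto_rpow_atTop (by positivity : (0 : ℝ) < 1 / H)).comp
    exact tendsto_id.atTop_div_const hC10
  have hfl : Tendsto (fun X : ℝ => ⌊(X / C1) ^ ((1 : ℝ) / H)⌋₊) atTop atTop :=
    tendsto_nat_floor_atTop.comp hy
  have h1 := hfl.eventually h
  have h2 := hy.eventually_ge_atTop 2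
  set K : ℝ := C1 ^ ((G : ℝ) / H) * 2 ^ G / c with hK
  have h3 : ∀ᶠ X : ℝ in atTop, K * X ^ e ≤ X ^ ((G : ℝ) / H) := by
    have h4 := (tendsto_rpow_atTop (sub_pos.2 he)).eventually_ge_atTop K
    filter_upwards [h4, eventually_gt_atTop 0] with X hX hX0
    have h5 : X ^ ((G : ℝ) / H) = X ^ ((G : ℝ) / H - e) * X ^ e := by
      rw [← Real.rpow_add hX0]
      congr 1
      ring
    rw [h5]
    exact mul_le_mul_of_nonneg_right hX (by positivity)
  filter_upwards [h1, h2, h3, eventually_ge_atTop 1] with X hX1 hX2 hX3 hX4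
  set y := (X / C1) ^ ((1 : ℝ) / H) with hyd
  have hX0 : 0 < X := by linarith
  have hy0 : 0 < y := by linarith
  have hyH : y ^ H = X / C1 := by
    rw [hyd, ← Real.rpow_natCast, ← Real.rpow_mul (by positivity)]
    rw [one_div, inv_mul_cancel₀ hH'.ne', Real.rpow_one]
  have hfl1 : ((⌊y⌋₊ : ℕ) : ℝ) ≤ y := Nat.floor_le hy0.le
  have hfl2 : y / 2 ≤ ((⌊y⌋₊ : ℕ) : ℝ) := by
    have := Nat.lt_floor_add_one y
    linarith
  have hle : C1 * ((⌊y⌋₊ : ℕ) : ℝ) ^ H ≤ X := by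
    calc C1 * ((⌊y⌋₊ : ℕ) : ℝ) ^ H ≤ C1 * y ^ H :=
          mul_le_mul_of_nonneg_left (pow_le_pow_left₀ (by positivity) hfl1 H) hC10.le
      _ = X := by rw [hyH]; field_simp
  have hone : 1 ≤ C1 * ((⌊y⌋₊ : ℕ) : ℝ) ^ H := by
    have : (1 : ℝ) ≤ ((⌊y⌋₊ : ℕ) : ℝ) := by linarith
    have : (1 : ℝ) ≤ ((⌊y⌋₊ : ℕ) : ℝ) ^ H := one_le_pow₀ this
    nlinarith
  have h5 : N (C1 * ((⌊y⌋₊ : ℕ) : ℝ) ^ H) ≤ N X := hmono _ _ hone hle
  have h6 : c * (y / 2) ^ G ≤ c * ((⌊y⌋₊ : ℕ) : ℝ) ^ G :=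
    mul_le_mul_of_nonneg_left (pow_le_pow_left₀ (by positivity) hfl2 G) hc.le
  have h7 : y ^ G = X ^ ((G : ℝ) / H) / C1 ^ ((G : ℝ) / H) := by
    rw [hyd, ← Real.rpow_natCast, ← Real.rpow_mul (by positivity), ← Real.div_rpow hX0.le hC10.le]
    congr 1
    ring
  have h8 : X ^ e ≤ c * (y / 2) ^ G := by
    rw [div_pow, h7]
    have hC1p : 0 < C1 ^ ((G : ℝ) / H) := by positivity
    rw [hK, div_mul_eq_mul_div, div_le_iff₀ hc] at hX3
    have h9 : c * (X ^ ((G : ℝ) / H) / C1 ^ ((G : ℝ) / H) / 2 ^ G) =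
        (X ^ ((G : ℝ) / H) * c) / (C1 ^ ((G : ℝ) / H) * 2 ^ G) := by
      field_simp
    rw [h9, le_div_iff₀ (by positivity)]
    calc X ^ e * (C1 ^ ((G : ℝ) / H) * 2 ^ G) = C1 ^ ((G : ℝ) / H) * 2 ^ G * X ^ e := by ring
      _ ≤ _ := hX3
  linarith

/-- residue classes of polynomials which give fields without intermediate fields -/
def Res (W : IntermediateField ℚ (AlgebraicClosure ℚ) → Prop) (n : ℕ) : Prop :=
  ∃ q : ℕ, 1 ≤ q ∧ ∃ f0 : ℤ[X], f0.Monic ∧ f0.natDegree = n ∧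
  ∀ f : ℤ[X], f.Monic → (∃ g, f = f0 + C (q : ℤ) * g) → Irreducible f ∧
    ∀ α : AlgebraicClosure ℚ, minpoly ℤ α = f →
      (∀ K : IntermediateField ℚ (IntermediateField.adjoin ℚ {α}), K = ⊥ ∨ K = ⊤) ∧
      W (IntermediateField.adjoin ℚ {α})

lemma fin_Fl (n : ℕ) (hn : 2 ≤ n) : ∃ C : ℝ, 0 < C ∧ ∀ X : ℝ, 1 ≤ X →
    (Fl n X).Finite ∧ ((Fl n X).ncard : ℝ) ≤ C * X ^ ((3 : ℝ) / 2 * Nat.clog 2 n + 1) := by
  have hcl : 0 < Nat.clog 2 n := Nat.clog_pos (by norm_num) hn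
  obtain ⟨C, hC0, hC⟩ := Pool.Agent.L5helper40.NF.count_FS2 ℚ n 2 (Nat.clog 2 n) (by norm_num)
    (by omega) hcl (Nat.le_pow_clog (by norm_num) n) 1 one_pos
  refine ⟨C, hC0, fun X hX => ?_⟩
  have h := hC X hX
  norm_num at h
  norm_num
  exact h

lemma sum_ceil (n S : ℕ) (hS : 1 ≤ S) :
    ((∑ j ∈ Finset.range n, (j + S - 1) / S : ℕ) : ℝ) ≤ n ^ 2 / (2 * S) + n := by
  have hS' : (0 : ℝ) < S := by exact_mod_cast hS
  induction n with
  | zero => simp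
  | succ n ih =>
    rw [Finset.sum_range_succ]
    push_cast
    push_cast at ih
    have h1 : (((n + S - 1) / S : ℕ) : ℝ) ≤ n / S + 1 := by
      have h2 : (((n + S - 1) / S : ℕ) : ℝ) ≤ ((n + S - 1 : ℕ) : ℝ) / S := Nat.cast_div_le
      have h3 : ((n + S - 1 : ℕ) : ℝ) / S ≤ ((n : ℝ) + S) / S := by
        apply div_le_div_of_nonneg_right _ hS'.le
        have : ((n + S - 1 : ℕ) : ℝ) ≤ ((n + S : ℕ) : ℝ) := by exact_mod_cast (by omega)
        push_cast at this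
        exact this
      have h4 : ((n : ℝ) + S) / S = n / S + 1 := by field_simp
      linarith
    have h5 : ((n : ℝ) + 1) ^ 2 / (2 * S) = n ^ 2 / (2 * S) + n / S + 1 / (2 * S) := by
      field_simp
      ring
    have h6 : (0 : ℝ) < 1 / (2 * S) := by positivity
    linarith

lemma clog_small (δ : ℝ) (hδ : 0 < δ) : ∀ᶠ n : ℕ in atTop, (Nat.clog 2 n : ℝ) ≤ δ * n := by
  have h1 : (fun x : ℝ => Real.log x) =o[atTop] fun x : ℝ => x := Real.isLittleO_log_id_atTop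
  have h2 := tendsto_natCast_atTop_atTop (R := ℝ).eventually (h1.def (by positivity : (0 : ℝ) < δ / 4))
  have h3 : ∀ᶠ n : ℕ in atTop, 2 / δ ≤ (n : ℝ) :=
    tendsto_natCast_atTop_atTop.eventually_ge_atTop _
  filter_upwards [h2, h3, eventually_ge_atTop 2] with n hn1 hn2 hn3
  have hn : (1 : ℝ) ≤ n := by exact_mod_cast (by omega : 1 ≤ n)
  have hcl : 1 ≤ Nat.clog 2 n := Nat.clog_pos (by norm_num) (by omega)
  have h4 : (2 : ℝ) ^ (Nat.clog 2 n - 1) < n := by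
    exact_mod_cast Nat.pow_pred_clog_lt_self (b := 2) (by norm_num) (x := n) (by omega)
  have h5 : ((Nat.clog 2 n - 1 : ℕ) : ℝ) * Real.log 2 < Real.log n := by
    rw [← Real.log_pow]
    exact Real.log_lt_log (by positivity) h4
  have hl2 : (1 : ℝ) / 2 ≤ Real.log 2 := by
    have := Real.log_two_gt_d9
    linarith
  rw [Nat.cast_sub hcl, Nat.cast_one] at h5
  simp only [Real.norm_eq_abs] at hn1
  rw [abs_of_nonneg (Real.log_nonneg hn), abs_of_nonneg (by positivity)] at hn1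
  have h6 : 2 ≤ δ * n := by
    rw [div_le_iff₀ hδ] at hn2
    linarith
  have h7 : (0 : ℝ) ≤ (Nat.clog 2 n : ℝ) - 1 := by
    have : (1 : ℝ) ≤ (Nat.clog 2 n : ℝ) := by exact_mod_cast hcl
    linarith
  nlinarith

theorem lower_all (c : ℝ) (hc : c < 4 / 3) : ∀ᶠ n : ℕ in atTop,
    ∀ W : IntermediateField ℚ (AlgebraicClosure ℚ) → Prop, Res W n →
    ∀ᶠ X : ℝ in atTop, (Fl n X).Finite ∧
      X ^ ((1 : ℝ) / 2 + c / n) ≤ ((Flw W n X).ncard : ℝ) := by
  set δ : ℝ := (2 - 3 * c / 2) with hδ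
  have hδ0 : 0 < δ := by rw [hδ]; linarith
  have e1 := clog_small (δ / 32) (by positivity)
  have e2 := clog_small (1 / 800) (by positivity)
  have e3 : ∀ᶠ n : ℕ in atTop, 16 / δ ≤ (n : ℝ) :=
    tendsto_natCast_atTop_atTop.eventually_ge_atTop _
  filter_upwards [e1, e2, e3, eventually_ge_atTop 1000] with n h1 h2 h3 hn W hres
  obtain ⟨q, hq, f0, hf0, hf0n, hf⟩ := hres
  set r := Nat.clog 2 n with hr
  have hr2 : 2 ≤ r := by
    rw [hr]
    have : Nat.clog 2 4 ≤ Nat.clog 2 n := Nat.clog_mono_right 2 (by omega)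
    have h4 : Nat.clog 2 4 = 2 := by
      rw [show (4 : ℕ) = 2 ^ 2 by norm_num, Nat.clog_pow 2 2 (by norm_num)]
    omega
  set S := 8 * r with hS
  set m := (n - 1) / 2 with hm
  set U := (m + 1) * (n - m) with hU
  have hnr : (1000 : ℝ) ≤ n := by exact_mod_cast hn
  have hU1 : 4 * U ≤ (n + 1) ^ 2 := by
    have h4 : (m + 1) + (n - m) = n + 1 := by omega
    rw [← h4, hU]
    generalize m + 1 = a
    generalize n - m = b
    have h5 : (4 : ℤ) * (a * b) ≤ (a + b) ^ 2 := by nlinarith [sq_nonneg ((a : ℤ) - b)]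
    exact_mod_cast h5
  have hU2 : n * (n + 2) ≤ 4 * U := by
    rcases (by omega : n = 2 * m + 1 ∨ n = 2 * m + 2) with h4 | h4
    · have h5 : n - m = m + 1 := by omega
      rw [hU, h5, h4]
      nlinarith
    · have h5 : n - m = m + 2 := by omega
      rw [hU, h5, h4]
      nlinarith
  have hUn : U ≤ n * (n - 1) := by
    have h4 : 4 * (n * (n - 1)) = 4 * (n * n) - 4 * n := by
      rw [Nat.mul_sub, Nat.mul_sub, mul_one]
    have h5 : n * n ≥ 1000 * n := Nat.mul_le_mul_right _ hn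
    have h6 : (n + 1) ^ 2 = n * n + 2 * n + 1 := by ring
    omega
  have hSr : (S : ℝ) = 8 * r := by rw [hS]; push_cast; ring
  have hU1' : 4 * (U : ℝ) ≤ (n + 1) ^ 2 := by exact_mod_cast hU1
  have hU2' : (n : ℝ) * (n + 2) ≤ 4 * U := by exact_mod_cast hU2
  have hN : U + 4 ≤ n * (n + 1) := by nlinarith
  set N1 := n * (n + 1) - U - 4 with hN1
  have hN1' : (N1 : ℝ) = n * (n + 1) - U - 4 := by
    rw [hN1, Nat.sub_sub, Nat.cast_sub hN]
    push_cast
    ring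
  have hSn : (S : ℝ) ≤ n / 100 := by rw [hSr]; linarith
  have hSδ : (S : ℝ) ≤ δ * n / 4 := by rw [hSr]; linarith
  have hPr : 2 * ((S : ℝ) + 1) < N1 := by
    rw [hN1']
    nlinarith
  have hP : 2 * (S + 1) < N1 := by exact_mod_cast hPr
  have hR : 4 * ((3 : ℝ) / 2 * r + 1) * ((∑ j ∈ Finset.range n, (j + S - 1) / S : ℕ) : ℝ) +
      2 * (n + 1) < N1 := by
    have h4 := sum_ceil n S (by omega)
    have hr2' : (2 : ℝ) ≤ r := by exact_mod_cast hr2
    have h5 : 4 * ((3 : ℝ) / 2 * r + 1) ≤ S := by rw [hSr]; linarith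
    have hS0 : (0 : ℝ) < S := by rw [hSr]; linarith
    have h6 : 4 * ((3 : ℝ) / 2 * r + 1) * ((∑ j ∈ Finset.range n, (j + S - 1) / S : ℕ) : ℝ) ≤
        S * (n ^ 2 / (2 * S) + n) := by
      apply mul_le_mul h5 h4 (by positivity) hS0.le
    have h7 : (S : ℝ) * (n ^ 2 / (2 * S) + n) = n ^ 2 / 2 + S * n := by
      field_simp
    rw [h7] at h6
    have h8 : (S : ℝ) * n ≤ n / 100 * n := mul_le_mul_of_nonneg_right hSn (by positivity)
    rw [hN1']
    nlinarith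
  obtain ⟨CC, -, hCC⟩ := fin_Fl n (by omega)
  have hfinX : ∀ᶠ X : ℝ in atTop, (Fl n X).Finite := by
    filter_upwards [eventually_ge_atTop 1] with X hX
    exact (hCC X hX).1
  refine hfinX.and ?_
  obtain ⟨C1, c1, hC1, hc1, hev⟩ := lower_t W n m q S N1 (by omega) (by omega) hq (by omega) f0 hf0
    hf0n hf _ (fin_Fl n (by omega)) hN1 hUn hR hP
  have hH0 : 0 < 2 * (n * (n - 1)) - 2 * U := by
    have h4 : 4 * (n * (n - 1)) = 4 * (n * n) - 4 * n := by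
      rw [Nat.mul_sub, Nat.mul_sub, mul_one]
    have h5 : n * n ≥ 1000 * n := Nat.mul_le_mul_right _ hn
    have h6 : (n + 1) ^ 2 = n * n + 2 * n + 1 := by ring
    omega
  refine to_X (fun X => ((Flw W n X).ncard : ℝ)) ?_ C1 c1 hC1 hc1 _ _ hH0 hev _ ?_
  · intro X Y hX hXY
    have hsub : Flw W n X ⊆ Flw W n Y := by
      rintro L ⟨hL1, hW, hL2, hL3⟩
      exact ⟨hL1, hW, hL2, hL3.trans hXY⟩
    exact_mod_cast Set.ncard_le_ncard hsub ((hCC Y (hX.trans hXY)).1.subset (Flw_subset W n _))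
  · have hG : ((N1 - 2 * (S + 1) : ℕ) : ℝ) = n * (n + 1) - U - 6 - 2 * S := by
      rw [Nat.cast_sub hP.le, hN1']
      push_cast
      ring
    have hH : ((2 * (n * (n - 1)) - 2 * U : ℕ) : ℝ) = 2 * (n * (n - 1)) - 2 * U := by
      rw [Nat.cast_sub (by omega)]
      push_cast
      rw [Nat.cast_sub (by omega)]
      push_cast
      ring
    have hH0' : (0 : ℝ) < ((2 * (n * (n - 1)) - 2 * U : ℕ) : ℝ) := by exact_mod_cast hH0
    rw [lt_div_iff₀ hH0']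
    rw [hG]
    rw [hH] at hH0' ⊢
    have hn0 : (0 : ℝ) < n := by linarith
    have h4 : (1 / 2 + c / n) * (2 * (n * (n - 1)) - 2 * (U : ℝ)) =
        (n * (n - 1) - U) + c * ((2 * (n * (n - 1)) - 2 * (U : ℝ)) / n) := by
      field_simp
    rw [h4]
    set H : ℝ := 2 * (n * (n - 1)) - 2 * (U : ℝ) with hHd
    have h5 : H / n ≤ 3 / 2 * n - 3 := by
      rw [div_le_iff₀ hn0, hHd]
      nlinarith
    have h6 : 0 < H / n := by positivity
    have h7 : 16 ≤ δ * n := by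
      rw [div_le_iff₀ hδ0] at h3
      linarith
    have h8 : c * (H / n) ≤ max c 0 * (3 / 2 * n) := by
      calc c * (H / n) ≤ max c 0 * (H / n) := mul_le_mul_of_nonneg_right (le_max_left _ _) h6.le
        _ ≤ max c 0 * (3 / 2 * n) :=
          mul_le_mul_of_nonneg_left (by linarith) (le_max_right _ _)
    have h9 : max c 0 * (3 / 2 * n) < 2 * n - 6 - 2 * S := by
      rcases le_total c 0 with h | h
      · rw [max_eq_right h]
        linarith
      · rw [max_eq_left h]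
        rw [hδ] at h7 hSδ
        nlinarith
    linarith

end Pool.Agent.L5helper9.Nf
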