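import Pool.Agent.L5helper9.Nf2

/-!
# Many monic polynomials with a double root modulo a large prime

For a good residue `r` modulo the prime `p` there are at least `t ^ (n (n + 1)) / p ^ 3` monic
polynomials `f` of degree `n`, congruent to a given one modulo `q`, with `|a_i| ≤ M t ^ (2 (n - i))`
and `p ^ 2 ∣ f(r)`, `p ∣ f'(r)`.
-/

set_option autoImplicit false

namespace Pool.Agent.L5helper9.Nf

open Polynomial Finset

/-- the constant in the bound for the coefficients -/
def Mc (C m c0 q : ℕ) : ℤ := c0 + q + q * (2 * C + 2 * (m + 1) * (2 * (2 * C) + 1) * (2 * C))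

lemma sum_exp2 (n : ℕ) : ∑ i ∈ Finset.range n, 2 * (n - i) = n * (n + 1) := by
  have h1 : ∑ i ∈ Finset.range n, 2 * (n - i) = ∑ i ∈ Finset.range n, 2 * (i + 1) := by
    rw [← Finset.sum_range_reflect]
    apply Finset.sum_congr rfl
    intro i hi
    rw [Finset.mem_range] at hi
    congr 1
    omega
  rw [h1]
  induction n with
  | zero => simp
  | succ n ih =>
    rw [Finset.sum_range_succ]
    have h2 : ∑ i ∈ Finset.range n, 2 * (i + 1) = n * (n + 1) := by
      have : ∀ k : ℕ, ∑ i ∈ Finset.range k, 2 * (i + 1) = k * (k + 1) := by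
        intro k
        induction k with
        | zero => simp
        | succ k ih => rw [Finset.sum_range_succ, ih]; ring
      exact this n
    rw [h2]
    ring

theorem fam1 (t n m p q : ℕ) (hp : p.Prime) (r : ℤ) (hm1 : 1 ≤ m) (hm : 2 * m + 1 ≤ n)
    (ht : 2 ≤ t) (hr : Good t n m p r) (C : ℕ) (hC : 1 ≤ C)
    (hpC : p ≤ C * t ^ ((m + 1) * (n - m))) (hq : 1 ≤ q) (hqp : Nat.Coprime q p)
    (f0 : ℤ[X]) (hf0 : f0.Monic) (hf0n : f0.natDegree = n) (c0 : ℕ)
    (hc0 : ∀ i, |f0.coeff i| ≤ c0) :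
    ∃ F : Finset ℤ[X], t ^ (n * (n + 1)) ≤ F.card * p ^ 3 ∧ ∀ f ∈ F, f.Monic ∧ f.natDegree = n ∧
      (∀ i < n, |f.coeff i| * (t : ℤ) ^ (2 * i) ≤ Mc C m c0 q * t ^ (2 * n)) ∧
      (∃ g, f = f0 + Polynomial.C (q : ℤ) * g) ∧ (p : ℤ) ^ 2 ∣ f.eval r ∧
      (p : ℤ) ∣ f.derivative.eval r := by
  classical
  have : NeZero p := ⟨hp.ne_zero⟩
  have : NeZero (p ^ 2) := ⟨pow_ne_zero 2 hp.ne_zero⟩
  have hJ : (1 : ℤ) ≤ ((2 * C : ℕ) : ℤ) := by exact_mod_cast (by omega : 1 ≤ 2 * C)
  -- inverse of `q`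
  obtain ⟨q', hq'⟩ : ∃ q' : ℤ, (p : ℤ) ^ 2 ∣ q * q' - 1 := by
    have h1 : IsCoprime (q : ℤ) ((p : ℤ) ^ 2) :=
      IsCoprime.pow_right (Nat.isCoprime_iff_coprime.2 hqp)
    obtain ⟨a, b, hab⟩ := h1
    exact ⟨a, -b, by linear_combination hab⟩
  have hrep2 := reps2 (p := p) (t := t) (m := m) (n := n) (r := r) (J := ((2 * C : ℕ) : ℤ)) hp
    (by omega) hm1 (by omega) hJ (fun ρ => reps1 t n m p hp r hm ht hr C hpC ρ)
  choose H hH1 hH2 hH3 using hrep2
  -- the polynomials
  set G : (Fin n → ℤ) → ℤ[X] := fun v => f0 + Polynomial.C (q : ℤ) * ofFn n v with hG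
  set κ : (Fin n → ℤ) → ZMod (p ^ 2) × ZMod p := fun v =>
    (((q' * (-(G v).eval r) : ℤ) : ZMod (p ^ 2)), ((q' * (-(G v).derivative.eval r) : ℤ) : ZMod p))
    with hκ
  set Hh : ZMod (p ^ 2) × ZMod p → ℤ[X] := fun k => H (k.1.val : ℤ) (k.2.val : ℤ) with hHh
  set F : (Fin n → ℤ) → ℤ[X] := fun v => G v + Polynomial.C (q : ℤ) * Hh (κ v) with hF
  set P : Finset (Fin n → ℤ) := Fintype.piFinset fun i : Fin n =>
    Finset.Ico 0 ((t : ℤ) ^ (2 * (n - (i : ℕ)))) with hP
  have hPcard : P.card = t ^ (n * (n + 1)) := by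
    rw [hP, Fintype.card_piFinset, ← sum_exp2 n, ← Finset.prod_pow_eq_pow_sum,
      ← Fin.prod_univ_eq_prod_range (fun i => t ^ (2 * (n - i)))]
    apply Finset.prod_congr rfl
    intro i _
    rw [Int.card_Ico, sub_zero]
    have : ((t : ℤ) ^ (2 * (n - (i : ℕ)))) = ((t ^ (2 * (n - (i : ℕ))) : ℕ) : ℤ) := by
      push_cast; ring
    rw [this, Int.toNat_natCast]
  have hn1 : 1 ≤ n := by omega
  refine ⟨P.image F, ?_, ?_⟩
  · -- the count
    have h1 : P.card ≤ ((P.image F) ×ˢ (Finset.univ : Finset (ZMod (p ^ 2) × ZMod p))).card := by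
      apply Finset.card_le_card_of_injOn (fun v => (F v, κ v))
      · intro v hv
        simp only [Finset.coe_product, Finset.coe_image, Finset.coe_univ, Set.mem_prod,
          Set.mem_univ, and_true]
        exact ⟨v, hv, rfl⟩
      · intro v _ w _ hvw
        simp only [Prod.mk.injEq] at hvw
        have h2 : G v = G w := by
          have h3 : F v = F w := hvw.1
          have h4 : κ v = κ w := hvw.2
          simp only [hF] at h3
          rw [h4] at h3
          exact add_right_cancel h3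
        simp only [hG] at h2
        have h3 : Polynomial.C (q : ℤ) * ofFn n v = Polynomial.C (q : ℤ) * ofFn n w :=
          add_left_cancel h2
        have h4 : (Polynomial.C (q : ℤ)) ≠ 0 := by
          rw [Ne, C_eq_zero]
          exact_mod_cast (by omega : q ≠ 0)
        exact injective_ofFn (R := ℤ) n (mul_left_cancel₀ h4 h3)
    rw [hPcard, Finset.card_product, Finset.card_univ, Fintype.card_prod, ZMod.card, ZMod.card] at h1
    calc t ^ (n * (n + 1)) ≤ _ := h1
      _ = _ := by ring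
  · intro f hf
    rw [Finset.mem_image] at hf
    obtain ⟨v, hv, rfl⟩ := hf
    rw [hP, Fintype.mem_piFinset] at hv
    have hdv : (ofFn n v).natDegree < n := ofFn_natDegree_lt hn1 v
    have hdH : (Hh (κ v)).natDegree ≤ m + m := (hH1 _ _).1
    have hsum : F v = f0 + Polynomial.C (q : ℤ) * (ofFn n v + Hh (κ v)) := by
      simp only [hF, hG]
      ring
    have hdeg : (Polynomial.C (q : ℤ) * (ofFn n v + Hh (κ v))).natDegree < n := by
      refine lt_of_le_of_lt (natDegree_C_mul_le _ _) ?_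
      refine lt_of_le_of_lt (natDegree_add_le _ _) ?_
      rw [max_lt_iff]
      exact ⟨hdv, by omega⟩
    have hlt : (Polynomial.C (q : ℤ) * (ofFn n v + Hh (κ v))).degree < f0.degree := by
      apply degree_lt_degree
      rw [hf0n]
      exact hdeg
    refine ⟨?_, ?_, ?_, ⟨_, hsum⟩, ?_, ?_⟩
    · rw [hsum]
      exact hf0.add_of_left hlt
    · rw [hsum, natDegree_add_eq_left_of_natDegree_lt (by rw [hf0n]; exact hdeg), hf0n]
    · intro i hi
      rw [hsum, coeff_add, coeff_C_mul, coeff_add]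
      have h1 : |(ofFn n v).coeff i| * (t : ℤ) ^ (2 * i) ≤ t ^ (2 * n) := by
        rw [ofFn_coeff_eq_val_of_lt v hi]
        have h2 := hv ⟨i, hi⟩
        rw [Finset.mem_Ico] at h2
        simp only at h2
        rw [abs_of_nonneg h2.1]
        have h3 : (t : ℤ) ^ (2 * n) = (t : ℤ) ^ (2 * (n - i)) * (t : ℤ) ^ (2 * i) := by
          rw [← pow_add]
          congr 1
          omega
        rw [h3]
        exact mul_le_mul_of_nonneg_right h2.2.le (by positivity)
      have h2 : |(Hh (κ v)).coeff i| * (t : ℤ) ^ (2 * i) ≤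
          (((2 * C : ℕ) : ℤ) + 2 * (m + 1) * (2 * ((2 * C : ℕ) : ℤ) + 1) * ((2 * C : ℕ) : ℤ)) *
            t ^ (2 * n) := (hH1 _ _).2 i
      have h3 : |f0.coeff i| * (t : ℤ) ^ (2 * i) ≤ c0 * t ^ (2 * n) := by
        apply mul_le_mul (hc0 i) _ (by positivity) (by positivity)
        exact pow_le_pow_right₀ (by exact_mod_cast (by omega : 1 ≤ t)) (by omega)
      have h4 : |f0.coeff i + (q : ℤ) * ((ofFn n v).coeff i + (Hh (κ v)).coeff i)| ≤
          |f0.coeff i| + q * (|(ofFn n v).coeff i| + |(Hh (κ v)).coeff i|) := by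
        calc _ ≤ |f0.coeff i| + |(q : ℤ) * ((ofFn n v).coeff i + (Hh (κ v)).coeff i)| :=
              abs_add_le _ _
          _ = |f0.coeff i| + q * |(ofFn n v).coeff i + (Hh (κ v)).coeff i| := by
              rw [abs_mul, Nat.abs_cast]
          _ ≤ _ := by
              gcongr
              exact abs_add_le _ _
      have h5 : (0 : ℤ) ≤ (t : ℤ) ^ (2 * i) := by positivity
      have hq0 : (0 : ℤ) ≤ q := by positivity
      calc _ ≤ (|f0.coeff i| + q * (|(ofFn n v).coeff i| + |(Hh (κ v)).coeff i|)) *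
            (t : ℤ) ^ (2 * i) := mul_le_mul_of_nonneg_right h4 h5
        _ = |f0.coeff i| * (t : ℤ) ^ (2 * i) + q * (|(ofFn n v).coeff i| * (t : ℤ) ^ (2 * i) +
            |(Hh (κ v)).coeff i| * (t : ℤ) ^ (2 * i)) := by ring
        _ ≤ c0 * t ^ (2 * n) + q * (t ^ (2 * n) +
            (((2 * C : ℕ) : ℤ) + 2 * (m + 1) * (2 * ((2 * C : ℕ) : ℤ) + 1) * ((2 * C : ℕ) : ℤ)) *
            t ^ (2 * n)) := by
            gcongr
        _ = _ := by
            unfold Mc
            push_cast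
            ring
    · -- value
      have h1 := hH2 ((κ v).1.val : ℤ) ((κ v).2.val : ℤ)
      have h2 : (p : ℤ) ^ 2 ∣ ((κ v).1.val : ℤ) - q' * (-(G v).eval r) := by
        have h3 : (((κ v).1.val : ℤ) : ZMod (p ^ 2)) = ((q' * (-(G v).eval r) : ℤ) : ZMod (p ^ 2)) := by
          rw [Int.cast_natCast, ZMod.natCast_zmod_val]
        have h4 := (ZMod.intCast_eq_intCast_iff_dvd_sub _ _ _).1 h3.symm
        exact_mod_cast h4
      have h3 : (F v).eval r = (G v).eval r + q * (Hh (κ v)).eval r := by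
        simp only [hF]
        rw [eval_add, eval_mul, eval_C]
      rw [h3]
      obtain ⟨a, ha⟩ := h1
      obtain ⟨b, hb⟩ := h2
      obtain ⟨c, hc⟩ := hq'
      have h4 : (Hh (κ v)).eval r = (p : ℤ) ^ 2 * a + ((κ v).1.val : ℤ) := by
        rw [← ha]; ring
      refine ⟨q * a + q * b - c * (G v).eval r, ?_⟩
      rw [h4]
      linear_combination q * hb - (G v).eval r * hc
    · have h1 := hH3 ((κ v).1.val : ℤ) ((κ v).2.val : ℤ)
      have h2 : (p : ℤ) ∣ ((κ v).2.val : ℤ) - q' * (-(G v).derivative.eval r) := by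
        have h3 : (((κ v).2.val : ℤ) : ZMod p) =
            ((q' * (-(G v).derivative.eval r) : ℤ) : ZMod p) := by
          rw [Int.cast_natCast, ZMod.natCast_zmod_val]
        exact (ZMod.intCast_eq_intCast_iff_dvd_sub _ _ _).1 h3.symm
      have h3 : (F v).derivative.eval r = (G v).derivative.eval r +
          q * (Hh (κ v)).derivative.eval r := by
        simp only [hF]
        rw [derivative_add, eval_add, derivative_C_mul, eval_mul, eval_C]
      rw [h3]
      obtain ⟨a, ha⟩ := h1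
      obtain ⟨b, hb⟩ := h2
      obtain ⟨c, hc⟩ := hq'
      have h4 : (Hh (κ v)).derivative.eval r = (p : ℤ) * a + ((κ v).2.val : ℤ) := by
        rw [← ha]; ring
      refine ⟨q * a + q * b - p * c * (G v).derivative.eval r, ?_⟩
      rw [h4]
      linear_combination q * hb - (G v).derivative.eval r * hc

end Pool.Agent.L5helper9.Nf
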