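import Pool.Agent.L5helper9.Nf4

/-!
# The field generated by a root of a monic polynomial with bounded coefficients
-/

set_option autoImplicit false

namespace Pool.Agent.L5helper9.Nf

open Module NumberField Polynomial

lemma root_bound {n M t : ℕ} (hn : 1 ≤ n) (ht : 1 ≤ t) (hM : 1 ≤ M) (f : ℤ[X]) (hf : f.Monic)
    (hfn : f.natDegree = n)
    (hc : ∀ i < n, |f.coeff i| * (t : ℤ) ^ (2 * i) ≤ M * t ^ (2 * n)) (z : ℂ)
    (hz : aeval z f = 0) : ‖z‖ ≤ n * M * t ^ 2 := by
  by_contra hcon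
  push Not at hcon
  have hn' : (1 : ℝ) ≤ n := by exact_mod_cast hn
  have ht' : (1 : ℝ) ≤ t := by exact_mod_cast ht
  have hM' : (1 : ℝ) ≤ M := by exact_mod_cast hM
  have hnM : (1 : ℝ) ≤ n * M := by nlinarith
  have ht2 : (t : ℝ) ^ 2 ≤ ‖z‖ := by
    have : (t : ℝ) ^ 2 ≤ n * M * t ^ 2 := by
      have h0 : (0 : ℝ) ≤ (t : ℝ) ^ 2 := by positivity
      nlinarith
    linarith
  have hzpos : 0 < ‖z‖ := lt_of_lt_of_le (by positivity) ht2
  have hcoef : ∀ i < n, (|f.coeff i| : ℝ) ≤ M * ((t : ℝ) ^ 2) ^ (n - i) := by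
    intro i hi
    have h1 := hc i hi
    have h2 : (|(f.coeff i : ℝ)|) * (t : ℝ) ^ (2 * i) ≤ M * (t : ℝ) ^ (2 * n) := by exact_mod_cast h1
    have h3 : (t : ℝ) ^ (2 * n) = ((t : ℝ) ^ 2) ^ (n - i) * (t : ℝ) ^ (2 * i) := by
      rw [← pow_mul, ← pow_add]
      congr 1
      omega
    rw [h3, ← mul_assoc] at h2
    exact le_of_mul_le_mul_right h2 (by positivity)
  have hsum : z ^ n = -∑ i ∈ Finset.range n, (f.coeff i : ℂ) * z ^ i := by
    have h1 : aeval z f = ∑ i ∈ Finset.range (n + 1), (f.coeff i : ℂ) * z ^ i := by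
      rw [aeval_eq_sum_range' (n := n + 1) (by omega)]
      apply Finset.sum_congr rfl
      intro i _
      rw [zsmul_eq_mul]
    rw [hz, Finset.sum_range_succ] at h1
    have h2 : f.coeff n = 1 := by
      have := hf.coeff_natDegree
      rwa [hfn] at this
    rw [h2] at h1
    push_cast at h1
    linear_combination -h1
  have hle : ‖z‖ ^ n ≤ ∑ i ∈ Finset.range n, |(f.coeff i : ℝ)| * ‖z‖ ^ i := by
    rw [← norm_pow, hsum, norm_neg]
    refine (norm_sum_le _ _).trans (Finset.sum_le_sum fun i _ => ?_)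
    rw [norm_mul, norm_pow]
    have : ‖((f.coeff i : ℤ) : ℂ)‖ = |(f.coeff i : ℝ)| := by
      rw [← Complex.ofReal_intCast, Complex.norm_real, Real.norm_eq_abs]
    rw [this]
  have hterm : ∀ i ∈ Finset.range n, (n : ℝ) * (|(f.coeff i : ℝ)| * ‖z‖ ^ i) < ‖z‖ ^ n := by
    intro i hi
    rw [Finset.mem_range] at hi
    have h1 := hcoef i hi
    have h2 : ‖z‖ ^ n = ‖z‖ * ‖z‖ ^ (n - i - 1) * ‖z‖ ^ i := by
      rw [mul_assoc, ← pow_add, ← pow_succ']
      congr 1
      omega
    have h3 : (n : ℝ) * |(f.coeff i : ℝ)| < ‖z‖ * ‖z‖ ^ (n - i - 1) := by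
      calc (n : ℝ) * |(f.coeff i : ℝ)| ≤ n * (M * ((t : ℝ) ^ 2) ^ (n - i)) := by
            apply mul_le_mul_of_nonneg_left h1 (by positivity)
        _ = (n * M * (t : ℝ) ^ 2) * ((t : ℝ) ^ 2) ^ (n - i - 1) := by
            have : n - i = n - i - 1 + 1 := by omega
            conv_lhs => rw [this, pow_succ]
            ring
        _ ≤ (n * M * (t : ℝ) ^ 2) * ‖z‖ ^ (n - i - 1) := by
            apply mul_le_mul_of_nonneg_left _ (by positivity)
            exact pow_le_pow_left₀ (by positivity) ht2 _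
        _ < ‖z‖ * ‖z‖ ^ (n - i - 1) := by
            apply mul_lt_mul_of_pos_right hcon (by positivity)
    rw [h2, ← mul_assoc]
    exact mul_lt_mul_of_pos_right h3 (by positivity)
  have h1 : ∑ i ∈ Finset.range n, (n : ℝ) * (|(f.coeff i : ℝ)| * ‖z‖ ^ i) <
      ∑ _i ∈ Finset.range n, ‖z‖ ^ n :=
    Finset.sum_lt_sum_of_nonempty ⟨0, Finset.mem_range.2 (by omega)⟩ hterm
  rw [← Finset.mul_sum, Finset.sum_const, Finset.card_range, nsmul_eq_mul] at h1
  have h2 := mul_le_mul_of_nonneg_left hle (by positivity : (0 : ℝ) ≤ n)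
  linarith

/-- Facts on the field generated by a root of an irreducible monic polynomial. -/
theorem field_facts {n M t : ℕ} (hn : 1 ≤ n) (ht : 1 ≤ t) (hM : 1 ≤ M) (f : ℤ[X])
    (hf : f.Monic) (hfn : f.natDegree = n) (hirr : Irreducible f)
    (hc : ∀ i < n, |f.coeff i| * (t : ℤ) ^ (2 * i) ≤ M * t ^ (2 * n)) :
    ∃ α : AlgebraicClosure ℚ, minpoly ℤ α = f ∧ IsIntegral ℤ α ∧
      finrank ℚ (IntermediateField.adjoin ℚ {α}) = n ∧
      (∀ φ : IntermediateField.adjoin ℚ {α} →+* ℂ,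
        ‖φ (IntermediateField.AdjoinSimple.gen ℚ α)‖ ≤ n * M * t ^ 2) ∧
      ∃ D : ℤ, D ≠ 0 ∧ (|D| : ℝ) ≤ ((n.factorial : ℝ) * (n * M * t ^ 2) ^ (n * (n - 1) / 2)) ^ 2 ∧
        ∀ P r : ℤ, P ≠ 0 → P ^ 2 ∣ f.eval r → P ∣ f.derivative.eval r →
          P ^ 2 ∣ D ∧ ∀ h : NumberField (IntermediateField.adjoin ℚ {α}),
            |@NumberField.discr (IntermediateField.adjoin ℚ {α}) _ h| * P ^ 2 ≤ |D| := by
  obtain ⟨α, hα⟩ : ∃ α : AlgebraicClosure ℚ, aeval α f = 0 := by
    have h1 : (f.map (algebraMap ℤ (AlgebraicClosure ℚ))).degree ≠ 0 := by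
      rw [hf.degree_map, degree_eq_natDegree hf.ne_zero, hfn]
      exact_mod_cast (by omega : n ≠ 0)
    obtain ⟨α, hα⟩ := IsAlgClosed.exists_root _ h1
    refine ⟨α, ?_⟩
    rwa [IsRoot.def, eval_map_algebraMap] at hα
  have hint : IsIntegral ℤ α := ⟨f, hf, by rwa [← aeval_def]⟩
  have hfmap : minpoly ℚ α = f.map (algebraMap ℤ ℚ) := by
    symm
    apply minpoly.eq_of_irreducible_of_monic
    · exact (IsPrimitive.Int.irreducible_iff_irreducible_map_cast hf.isPrimitive).1 hirr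
    · rw [aeval_map_algebraMap]
      exact hα
    · exact hf.map _
  have hminZ : minpoly ℤ α = f := by
    have h1 := minpoly.isIntegrallyClosed_eq_field_fractions' ℚ hint
    rw [hfmap] at h1
    exact (map_injective _ (algebraMap ℤ ℚ).injective_int h1).symm
  have hαQ : IsIntegral ℚ α := hint.tower_top
  set L := IntermediateField.adjoin ℚ {α} with hL
  have hfin : finrank ℚ L = n := by
    rw [hL, IntermediateField.adjoin.finrank hαQ, hfmap, hf.natDegree_map, hfn]
  have hfd : FiniteDimensional ℚ L := IntermediateField.adjoin.finiteDimensional hαQ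
  have hnf : NumberField L := { to_charZero := inferInstance, to_finiteDimensional := hfd }
  set a : L := IntermediateField.AdjoinSimple.gen ℚ α with ha
  have haα : algebraMap L (AlgebraicClosure ℚ) a = α := IntermediateField.AdjoinSimple.algebraMap_gen ℚ α
  have haint : IsIntegral ℤ a := by
    rw [← isIntegral_algebraMap_iff (algebraMap L (AlgebraicClosure ℚ)).injective, haα]
    exact hint
  have haf : aeval a f = 0 := by
    have h1 : algebraMap L (AlgebraicClosure ℚ) (aeval a f) = 0 := by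
      rw [← aeval_algebraMap_apply, haα]
      exact hα
    exact (map_eq_zero_iff _ (algebraMap L (AlgebraicClosure ℚ)).injective).1 h1
  have hamin : (minpoly ℚ a).natDegree = n := by
    have h1 : minpoly ℚ a = minpoly ℚ α := by
      rw [← haα]
      exact (minpoly.algebraMap_eq (algebraMap L (AlgebraicClosure ℚ)).injective a).symm
    rw [h1, hfmap, hf.natDegree_map, hfn]
  have hbd : ∀ φ : L →+* ℂ, ‖φ a‖ ≤ n * M * t ^ 2 := by
    intro φ
    apply root_bound hn ht hM f hf hfn hc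
    have h1 : φ (aeval a f) = 0 := by rw [haf, map_zero]
    rw [aeval_def, hom_eval₂] at h1
    rw [aeval_def]
    convert h1 using 2
    exact RingHom.ext_int _ _
  set α' : 𝓞 L := ⟨a, haint⟩ with hα'
  have hα'a : (α' : L) = a := rfl
  -- the discriminant of the powers
  have hdisc0 : Algebra.discr ℚ (fun i : Fin n => (α' : L) ^ (i : ℕ)) ≠ 0 :=
    pow_discr_ne_zero L hfin (α' : L) hamin
  obtain ⟨D, hD0, hD1, -⟩ := discr_family L hfin (fun i => α' ^ (i : ℕ)) (by
    have : (fun i : Fin n => ((α' ^ (i : ℕ) : 𝓞 L) : L)) = fun i : Fin n => (α' : L) ^ (i : ℕ) := by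
      funext i
      push_cast
      rfl
    rw [this]
    exact hdisc0)
  have hD2 : Algebra.discr ℚ (fun i : Fin n => (α' : L) ^ (i : ℕ)) = D := by
    rw [← hD1]
    congr 1
  refine ⟨α, hminZ, hint, hfin, hbd, D, hD0, ?_, ?_⟩
  · have h1 := discr_bound L hfin (fun i : Fin n => (α' : L) ^ (i : ℕ))
      (fun i => ((n : ℝ) * M * t ^ 2) ^ (i : ℕ)) (by
        intro j φ
        rw [map_pow, norm_pow]
        exact pow_le_pow_left₀ (norm_nonneg _) (hbd φ) _)
    rw [hD2] at h1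
    have h2 : ∏ j : Fin n, ((n : ℝ) * M * t ^ 2) ^ (j : ℕ) =
        ((n : ℝ) * M * t ^ 2) ^ (n * (n - 1) / 2) := by
      rw [Finset.prod_pow_eq_pow_sum, Fin.sum_univ_eq_sum_range (fun i => i), Finset.sum_range_id]
    rw [h2] at h1
    simpa using h1
  · intro P r hP h1 h2
    obtain ⟨z, hz0, hz1, hz2⟩ := index_lemma L hfin α' hamin f hf hfn haf P r hP h1 h2
    rw [hD2] at hz1
    have h3 : D = P ^ 2 * z := by exact_mod_cast hz1
    refine ⟨⟨z, h3⟩, fun h => ?_⟩
    have h4 : @NumberField.discr L _ h = NumberField.discr L := rfl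
    rw [h4, h3, abs_mul, abs_pow, sq_abs, mul_comm (P ^ 2)]
    exact mul_le_mul_of_nonneg_right hz2 (sq_nonneg P)

end Pool.Agent.L5helper9.Nf
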