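import Pool.Agent.L5helper9.Nf3
import Pool.Agent.L5helper9.Nf5

/-!
# The family of polynomials with a double root modulo some large prime
-/

set_option autoImplicit false

namespace Pool.Agent.L5helper9.Nf

open Filter Topology Polynomial

/-- many primes between `Y` and `3 Y` -/
lemma many_primes : ∀ᶠ Y : ℕ in atTop,
    (Y : ℝ) / 2 ≤ ((Finset.Ioc Y (3 * Y)).filter Nat.Prime).card * Real.log (3 * Y) := by
  have h1 : Tendsto (fun Y : ℕ => (3 * Y : ℝ)) atTop atTop :=
    Tendsto.const_mul_atTop (by norm_num) tendsto_natCast_atTop_atTop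
  have hlog : (fun x : ℝ => Real.log x) =o[atTop] fun x : ℝ => x ^ ((1 : ℝ) / 4) :=
    isLittleO_log_rpow_atTop (by norm_num)
  have h2 := (hlog.def (by norm_num : (0 : ℝ) < 1 / 100))
  have h3 := h1.eventually h2
  have h4 := h1.eventually (eventually_ge_atTop ((10 : ℝ) ^ 8))
  filter_upwards [h3, h4, eventually_ge_atTop 1] with Y hY1 hY2 hY3
  have hY : (1 : ℝ) ≤ Y := by exact_mod_cast hY3
  set x : ℝ := 3 * Y with hx
  have hxpos : 0 < x := by positivity
  -- θ
  have hθ1 := Chebyshev.theta_ge (3 * Y)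
  have hθ2 := Chebyshev.theta_le_log4_mul_x (x := (Y : ℝ)) (by positivity)
  have hsum : Chebyshev.theta ((3 * Y : ℕ) : ℝ) - Chebyshev.theta (Y : ℝ) ≤
      ((Finset.Ioc Y (3 * Y)).filter Nat.Prime).card * Real.log x := by
    unfold Chebyshev.theta
    rw [Nat.floor_natCast, Nat.floor_natCast]
    have hsub : (Finset.Ioc 0 (3 * Y)).filter Nat.Prime =
        (Finset.Ioc 0 Y).filter Nat.Prime ∪ (Finset.Ioc Y (3 * Y)).filter Nat.Prime := by
      rw [← Finset.filter_union, Finset.Ioc_union_Ioc_eq_Ioc (by omega) (by omega)]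
    have hdis : Disjoint ((Finset.Ioc 0 Y).filter Nat.Prime)
        ((Finset.Ioc Y (3 * Y)).filter Nat.Prime) := by
      rw [Finset.disjoint_left]
      intro p hp1 hp2
      rw [Finset.mem_filter, Finset.mem_Ioc] at hp1 hp2
      omega
    rw [hsub, Finset.sum_union hdis, add_sub_cancel_left]
    calc ∑ p ∈ (Finset.Ioc Y (3 * Y)).filter Nat.Prime, Real.log p
        ≤ ∑ _p ∈ (Finset.Ioc Y (3 * Y)).filter Nat.Prime, Real.log x := by
          apply Finset.sum_le_sum
          intro p hp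
          rw [Finset.mem_filter, Finset.mem_Ioc] at hp
          apply Real.log_le_log
          · exact_mod_cast hp.2.pos
          · rw [hx]
            exact_mod_cast hp.1.2
      _ = _ := by rw [Finset.sum_const, nsmul_eq_mul]
  have hlogx : Real.log x ≤ 1 / 100 * x ^ ((1 : ℝ) / 4) := by
    have h5 : 0 ≤ Real.log x := Real.log_nonneg (by linarith)
    simp only [Real.norm_eq_abs] at hY1
    rw [abs_of_nonneg h5, abs_of_nonneg (by positivity)] at hY1
    exact hY1
  have hcast : (((3 * Y : ℕ) : ℝ)) = x := by rw [hx]; push_cast; ring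
  rw [hcast] at hθ1 hsum
  -- bounds
  have hx1 : (1 : ℝ) ≤ x ^ ((1 : ℝ) / 4) := Real.one_le_rpow (by linarith) (by norm_num)
  have hsq : √x = x ^ ((1 : ℝ) / 4) * x ^ ((1 : ℝ) / 4) := by
    rw [← Real.rpow_add hxpos, Real.sqrt_eq_rpow]
    norm_num
  have hx4 : x ^ ((1 : ℝ) / 4) * x ^ ((1 : ℝ) / 4) * x ^ ((1 : ℝ) / 4) * x ^ ((1 : ℝ) / 4) = x := by
    rw [← Real.rpow_add hxpos, ← Real.rpow_add hxpos, ← Real.rpow_add hxpos]
    norm_num
  have hl2 : (0.6931471803 : ℝ) < Real.log 2 := Real.log_two_gt_d9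
  have hl4 : Real.log 4 = 2 * Real.log 2 := by
    rw [show (4 : ℝ) = 2 ^ 2 by norm_num, Real.log_pow]
    norm_num
  have hlog1 : Real.log (x + 1) ≤ Real.log x + 1 := by
    have h5 : Real.log (x + 1) ≤ Real.log (x * 2) := Real.log_le_log (by linarith) (by linarith)
    rw [Real.log_mul hxpos.ne' (by norm_num)] at h5
    have : Real.log 2 < 1 := by
      have := Real.log_two_lt_d9
      linarith
    linarith
  have hbig : (10 : ℝ) ^ 2 ≤ x ^ ((1 : ℝ) / 4) := by
    have h5 : ((10 : ℝ) ^ 8) ^ ((1 : ℝ) / 4) ≤ x ^ ((1 : ℝ) / 4) :=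
      Real.rpow_le_rpow (by norm_num) hY2 (by norm_num)
    have h6 : ((10 : ℝ) ^ 8) ^ ((1 : ℝ) / 4) = 10 ^ 2 := by
      rw [show ((10 : ℝ) ^ 8) = ((10 : ℝ) ^ 2) ^ (4 : ℕ) by norm_num, ← Real.rpow_natCast,
        ← Real.rpow_mul (by positivity)]
      norm_num
    rwa [h6] at h5
  set y := x ^ ((1 : ℝ) / 4) with hy
  have hy0 : 0 < y := by linarith
  rw [hsq] at hθ1
  have h7 : 2 * (y * y) * Real.log x ≤ 2 * (y * y) * (1 / 100 * y) :=
    mul_le_mul_of_nonneg_left hlogx (by positivity)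
  have h8 : (y * y) * y ≤ x / 100 := by
    have : y * y * y * 10 ^ 2 ≤ y * y * y * y := mul_le_mul_of_nonneg_left hbig (by positivity)
    rw [hx4] at this
    linarith
  have h9 : y ≤ x / 100 := by
    have h10 : y * 10 ^ 2 ≤ y * y := mul_le_mul_of_nonneg_left hbig hy0.le
    have h11 : y * y ≤ y * y * y := by
      have : (1 : ℝ) ≤ y := hx1
      nlinarith [mul_pos hy0 hy0]
    have h12 : y * y * y ≤ x := by linarith
    linarith
  have hYx : (Y : ℝ) = x / 3 := by rw [hx]; ring
  have h13 : x * Real.log 2 - Real.log (x + 1) - 2 * (y * y) * Real.log x -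
      Real.log 4 * Y ≤ ((Finset.Ioc Y (3 * Y)).filter Nat.Prime).card * Real.log x := by
    have e := hθ1
    ring_nf at e hsum hθ2 ⊢
    linarith
  rw [hl4, hYx] at h13
  have h14 : x * 0.6931471803 ≤ x * Real.log 2 := mul_le_mul_of_nonneg_left hl2.le hxpos.le
  have h15 : (10 : ℝ) ^ 8 ≤ x := hY2
  have h16 : 2 * (y * y) * (1 / 100 * y) = (y * y * y) / 50 := by ring
  rw [h16] at h7
  have h17 : x * Real.log 2 - 2 * Real.log 2 * (x / 3) = (x * Real.log 2) / 3 := by ring
  have h18 : (Y : ℝ) / 2 ≤ (x * Real.log 2) / 3 - Real.log (x + 1) - 2 * (y * y) * Real.log x := by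
    rw [hYx]
    norm_num at h14 h15
    linarith
  linarith

/-- few large primes divide a nonzero integer -/
lemma card_primes_dvd {t k : ℕ} (D : ℤ) (hD : D ≠ 0) (s : Finset ℕ)
    (hs : ∀ p ∈ s, p.Prime ∧ t < p ∧ (p : ℤ) ∣ D) (hDt : |D| < (t : ℤ) ^ (k + 1)) :
    s.card ≤ k := by
  by_contra hcon
  push Not at hcon
  have h1 : ∏ p ∈ s, p ∣ D.natAbs := by
    apply Finset.prod_primes_dvd
    · intro p hp
      exact (hs p hp).1.prime
    · intro p hp
      exact Int.natCast_dvd.1 (hs p hp).2.2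
  have h2 : ∏ p ∈ s, p ≤ D.natAbs := Nat.le_of_dvd (Int.natAbs_pos.2 hD) h1
  have h3 : t ^ s.card ≤ ∏ p ∈ s, p := by
    rw [← Finset.prod_const]
    apply Finset.prod_le_prod'
    intro p hp
    exact (hs p hp).2.1.le
  have h0 : 0 < t := by
    rcases Nat.eq_zero_or_pos t with h | h
    · subst h
      simp only [Nat.cast_zero] at hDt
      rw [zero_pow (by omega)] at hDt
      have := abs_nonneg D
      omega
    · exact h
  have h4 : t ^ (k + 1) ≤ t ^ s.card := Nat.pow_le_pow_right h0 hcon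
  have h5 : (t : ℤ) ^ (k + 1) ≤ |D| := by
    rw [Int.abs_eq_natAbs]
    exact_mod_cast h4.trans (h3.trans h2)
  omega

/-- **The family.** -/
theorem family (n m q : ℕ) (hm1 : 1 ≤ m) (hm : 2 * m + 1 ≤ n) (hq : 1 ≤ q)
    (f0 : ℤ[X]) (hf0 : f0.Monic) (hf0n : f0.natDegree = n)
    (hirr : ∀ f : ℤ[X], f.Monic → (∃ g, f = f0 + C (q : ℤ) * g) → Irreducible f) :
    ∃ M : ℕ, 1 ≤ M ∧ ∀ᶠ t : ℕ in atTop, ∃ F : Finset ℤ[X],
      t ^ (n * (n + 1) - (m + 1) * (n - m) - 4) ≤ F.card ∧
      ∀ f ∈ F, f.Monic ∧ f.natDegree = n ∧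
        (∀ i < n, |f.coeff i| * (t : ℤ) ^ (2 * i) ≤ M * t ^ (2 * n)) ∧
        (∃ g, f = f0 + C (q : ℤ) * g) ∧
        ∃ P r : ℤ, (t : ℤ) ^ ((m + 1) * (n - m)) ≤ P ∧ P ^ 2 ∣ f.eval r ∧
          P ∣ f.derivative.eval r := by
  classical
  set U := (m + 1) * (n - m) with hU
  have hU1 : 1 ≤ U := Nat.mul_pos (by omega) (by omega)
  have hUn : n ≤ U := by
    have h1 : m ≤ m * (n - m) := Nat.le_mul_of_pos_right m (by omega)
    have h2 : (m + 1) * (n - m) = m * (n - m) + (n - m) := by ring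
    omega
  set C0 := 2 * (m * 2 ^ (m + 1)) with hC0
  have hC01 : 1 ≤ C0 := by
    have : 0 < m * 2 ^ (m + 1) := Nat.mul_pos hm1 (by positivity)
    omega
  -- bound for the coefficients of f0
  obtain ⟨c0, hc0⟩ : ∃ c0 : ℕ, ∀ i, |f0.coeff i| ≤ c0 := by
    refine ⟨∑ i ∈ f0.support, (f0.coeff i).natAbs, fun i => ?_⟩
    by_cases hi : i ∈ f0.support
    · rw [Int.abs_eq_natAbs]
      exact_mod_cast Finset.single_le_sum (f := fun i => (f0.coeff i).natAbs)
        (fun _ _ => Nat.zero_le _) hi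
    · rw [notMem_support_iff.1 hi, abs_zero]
      exact Int.natCast_nonneg _
  set M : ℕ := c0 + q + q * (2 * (3 * C0) + 2 * (m + 1) * (2 * (2 * (3 * C0)) + 1) * (2 * (3 * C0)))
    with hM
  have hMc : Mc (3 * C0) m c0 q = M := by
    unfold Mc
    rw [hM]
    push_cast
    ring
  have hM1 : 1 ≤ M := by rw [hM]; omega
  refine ⟨M, hM1, ?_⟩
  set K := n * (2 * (n * (n - 1)) + 1) with hK
  -- eventually
  have hY : Tendsto (fun t : ℕ => C0 * t ^ U) atTop atTop := by
    apply Tendsto.const_mul_atTop' (by omega)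
    exact tendsto_pow_atTop (by omega)
  have e1 := hY.eventually many_primes
  have e2 : ∀ᶠ t : ℕ in atTop, 2 * Real.log (3 * ((C0 * t ^ U : ℕ) : ℝ)) ≤ t := by
    have hlog : (fun x : ℝ => Real.log x) =o[atTop] fun x : ℝ => x :=
      Real.isLittleO_log_id_atTop
    have h1 := hlog.def (by positivity : (0 : ℝ) < 1 / (4 * U))
    have h2 := tendsto_natCast_atTop_atTop (R := ℝ).eventually h1
    have h3 : ∀ᶠ t : ℕ in atTop, 4 * Real.log (3 * C0) ≤ (t : ℝ) :=
      tendsto_natCast_atTop_atTop.eventually_ge_atTop _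
    filter_upwards [h2, h3, eventually_ge_atTop 1] with t ht1 ht2 ht3
    have ht : (1 : ℝ) ≤ t := by exact_mod_cast ht3
    have hC : (0 : ℝ) < 3 * C0 := by positivity
    push_cast
    rw [← mul_assoc, Real.log_mul hC.ne' (by positivity), Real.log_pow]
    simp only [Real.norm_eq_abs] at ht1
    rw [abs_of_nonneg (Real.log_nonneg ht), abs_of_nonneg (by positivity)] at ht1
    have hU' : (0 : ℝ) < U := by exact_mod_cast hU1
    have h4 : (U : ℝ) * Real.log t ≤ U * (1 / (4 * U) * t) :=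
      mul_le_mul_of_nonneg_left ht1 hU'.le
    have h5 : (U : ℝ) * (1 / (4 * U) * t) = t / 4 := by
      field_simp
    rw [h5] at h4
    linarith
  have e3 : ∀ᶠ t : ℕ in atTop, (54 * C0 * K : ℕ) ≤ t ^ 3 := by
    filter_upwards [eventually_ge_atTop (54 * C0 * K)] with t ht
    rcases Nat.eq_zero_or_pos t with h | h
    · omega
    · exact ht.trans (Nat.le_self_pow (by norm_num) t)
  have e4 : ∀ᶠ t : ℕ in atTop,
      (((n.factorial : ℝ) * (n * M) ^ (n * (n - 1) / 2)) ^ 2 : ℝ) < t :=
    tendsto_natCast_atTop_atTop.eventually_gt_atTop _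
  filter_upwards [e1, e2, e3, e4, eventually_ge_atTop 2, eventually_ge_atTop q] with t h1 h2 h3 h4
    ht2 htq
  set Y := C0 * t ^ U with hYdef
  have htU : t ^ n ≤ t ^ U := Nat.pow_le_pow_right (by omega) hUn
  have htY : t ^ U ≤ Y := Nat.le_mul_of_pos_left _ (by omega)
  have htt : t ≤ t ^ U := Nat.le_self_pow (by omega) t
  set Pr := (Finset.Ioc Y (3 * Y)).filter Nat.Prime with hPr
  -- the number of primes
  have hPrcard : Y ≤ Pr.card * t := by
    have h5 : (Y : ℝ) ≤ Pr.card * t := by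
      have h6 : (Pr.card : ℝ) * (2 * Real.log (3 * Y)) ≤ Pr.card * t :=
        mul_le_mul_of_nonneg_left h2 (by positivity)
      linarith
    exact_mod_cast h5
  -- good residues
  set Gd : ℕ → Finset ℕ := fun p => (Finset.range p).filter fun r : ℕ => Good t n m p (r : ℤ)
    with hGd
  have hGdcard : ∀ p ∈ Pr, Y ≤ 2 * (Gd p).card := by
    intro p hp
    rw [hPr, Finset.mem_filter, Finset.mem_Ioc] at hp
    have h5 := card_not_good t n m p hp.2 (by omega) (by omega) (by omega)
    rw [← hU] at h5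
    have h6 := Finset.card_filter_add_card_filter_not (s := Finset.range p)
      (fun r : ℕ => Good t n m p (r : ℤ))
    rw [Finset.card_range] at h6
    have h7 : 2 * (m * (2 ^ (m + 1) * t ^ U)) = Y := by
      rw [hYdef, hC0]
      ring
    have h8 : ((Finset.range p).filter fun r : ℕ => Good t n m p (r : ℤ)).card = (Gd p).card := rfl
    rw [h8] at h6
    omega
  -- the families
  have hfam : ∀ p ∈ Pr, ∀ r ∈ Gd p, ∃ F : Finset ℤ[X], t ^ (n * (n + 1)) ≤ F.card * p ^ 3 ∧
      ∀ f ∈ F, f.Monic ∧ f.natDegree = n ∧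
      (∀ i < n, |f.coeff i| * (t : ℤ) ^ (2 * i) ≤ M * t ^ (2 * n)) ∧
      (∃ g, f = f0 + Polynomial.C (q : ℤ) * g) ∧ (p : ℤ) ^ 2 ∣ f.eval (r : ℤ) ∧
      (p : ℤ) ∣ f.derivative.eval (r : ℤ) := by
    intro p hp r hr
    rw [hPr, Finset.mem_filter, Finset.mem_Ioc] at hp
    rw [hGd, Finset.mem_filter] at hr
    have h5 := fam1 t n m p q hp.2 (r : ℤ) hm1 hm ht2 hr.2 (3 * C0) (by omega) (by
        calc p ≤ 3 * Y := hp.1.2
          _ = 3 * C0 * t ^ U := by rw [hYdef]; ring) hq (by
        rw [Nat.coprime_comm, Nat.Prime.coprime_iff_not_dvd hp.2]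
        exact Nat.not_dvd_of_pos_of_lt (by omega) (by omega)) f0 hf0 hf0n c0 hc0
    rw [hMc] at h5
    exact h5
  choose! F hFcard hFmem using hfam
  set FF : Finset ℤ[X] := Pr.biUnion fun p => (Gd p).biUnion fun r => F p r with hFF
  have hFFmem : ∀ f ∈ FF, ∃ p ∈ Pr, ∃ r ∈ Gd p, f ∈ F p r := by
    intro f hf
    rw [hFF, Finset.mem_biUnion] at hf
    obtain ⟨p, hp, hf⟩ := hf
    rw [Finset.mem_biUnion] at hf
    obtain ⟨r, hr, hf⟩ := hf
    exact ⟨p, hp, r, hr, hf⟩
  -- the double counting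
  have hcount : ∑ p ∈ Pr, ∑ r ∈ Gd p, (F p r).card ≤ K * FF.card := by
    have h5 : ∑ p ∈ Pr, ∑ r ∈ Gd p, (F p r).card =
        ∑ f ∈ FF, ((Pr.sigma Gd).filter fun x => f ∈ F x.1 x.2).card := by
      rw [Finset.sum_sigma']
      have h6 : ∀ x ∈ Pr.sigma Gd, (F x.1 x.2).card = ∑ f ∈ FF, if f ∈ F x.1 x.2 then 1 else 0 := by
        intro x hx
        rw [Finset.mem_sigma] at hx
        rw [← Finset.sum_filter, Finset.sum_const, smul_eq_mul, mul_one]
        congr 1
        ext f
        rw [Finset.mem_filter]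
        constructor
        · intro hf
          refine ⟨?_, hf⟩
          rw [hFF, Finset.mem_biUnion]
          refine ⟨x.1, hx.1, ?_⟩
          rw [Finset.mem_biUnion]
          exact ⟨x.2, hx.2, hf⟩
        · exact fun h => h.2
      rw [Finset.sum_congr rfl h6, Finset.sum_comm]
      apply Finset.sum_congr rfl
      intro f _
      rw [← Finset.sum_filter, Finset.sum_const, smul_eq_mul, mul_one]
    rw [h5]
    calc ∑ f ∈ FF, ((Pr.sigma Gd).filter fun x => f ∈ F x.1 x.2).card ≤ ∑ _f ∈ FF, K := by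
          apply Finset.sum_le_sum
          intro f hf
          obtain ⟨p0, hp0, r0, hr0, hf0'⟩ := hFFmem f hf
          obtain ⟨hfm, hfn, hfc, hfq, -, -⟩ := hFmem p0 hp0 r0 hr0 f hf0'
          obtain ⟨α, -, -, -, -, D, hD0, hDb, hDP⟩ := field_facts (n := n) (M := M) (t := t)
            (by omega) (by omega) hM1 f hfm hfn (hirr f hfm hfq) hfc
          have hDt : |D| < (t : ℤ) ^ (2 * (n * (n - 1)) + 1) := by
            have h7 : (|D| : ℝ) < (t : ℝ) ^ (2 * (n * (n - 1)) + 1) := by
              calc (|D| : ℝ) ≤ ((n.factorial : ℝ) * (n * M * t ^ 2) ^ (n * (n - 1) / 2)) ^ 2 := hDb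
                _ = ((n.factorial : ℝ) * (n * M) ^ (n * (n - 1) / 2)) ^ 2 *
                    (t : ℝ) ^ (4 * (n * (n - 1) / 2)) := by
                  rw [mul_pow ((n : ℝ) * M), ← pow_mul, ← mul_assoc, mul_pow, ← pow_mul]
                  congr 2
                  ring
                _ < t * (t : ℝ) ^ (4 * (n * (n - 1) / 2)) :=
                  mul_lt_mul_of_pos_right h4 (by positivity)
                _ = (t : ℝ) ^ (4 * (n * (n - 1) / 2) + 1) := by ring
                _ ≤ (t : ℝ) ^ (2 * (n * (n - 1)) + 1) := by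
                  apply pow_le_pow_right₀
                  · exact_mod_cast (by omega : 1 ≤ t)
                  · omega
            exact_mod_cast h7
          set Q : Finset ℕ := Pr.filter fun p : ℕ => (p : ℤ) ∣ D with hQ
          have hQc : Q.card ≤ 2 * (n * (n - 1)) := by
            apply card_primes_dvd D hD0 Q _ hDt
            intro p hp
            rw [hQ, Finset.mem_filter, hPr, Finset.mem_filter, Finset.mem_Ioc] at hp
            exact ⟨hp.1.2, by omega, hp.2⟩
          have hsub : ((Pr.sigma Gd).filter fun x => f ∈ F x.1 x.2) ⊆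
              Q.sigma fun p => (Finset.range p).filter fun r : ℕ => (p : ℤ) ∣ f.eval (r : ℤ) := by
            intro x hx
            rw [Finset.mem_filter, Finset.mem_sigma] at hx
            obtain ⟨⟨hx1, hx2⟩, hx3⟩ := hx
            obtain ⟨-, -, -, -, he1, he2⟩ := hFmem x.1 hx1 x.2 hx2 f hx3
            have hxp : x.1.Prime := by
              rw [hPr, Finset.mem_filter] at hx1
              exact hx1.2
            have hdv := (hDP x.1 x.2 (by exact_mod_cast hxp.ne_zero) he1 he2).1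
            have hx1' : x.1 ∈ Q :=
              Finset.mem_filter.2 ⟨hx1, (dvd_pow_self _ two_ne_zero).trans hdv⟩
            have hx2' : x.2 ∈ Finset.range x.1 := by
              rw [hGd, Finset.mem_filter] at hx2
              exact hx2.1
            exact Finset.mem_sigma.2 ⟨hx1', Finset.mem_filter.2
              ⟨hx2', (dvd_pow_self _ two_ne_zero).trans he1⟩⟩
          calc ((Pr.sigma Gd).filter fun x => f ∈ F x.1 x.2).card
              ≤ (Q.sigma fun p => (Finset.range p).filter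
                  fun r : ℕ => (p : ℤ) ∣ f.eval (r : ℤ)).card := Finset.card_le_card hsub
            _ = ∑ p ∈ Q, ((Finset.range p).filter
                  fun r : ℕ => (p : ℤ) ∣ f.eval (r : ℤ)).card := Finset.card_sigma _ _
            _ ≤ ∑ _p ∈ Q, n := by
              apply Finset.sum_le_sum
              intro p hp
              rw [hQ, Finset.mem_filter, hPr, Finset.mem_filter, Finset.mem_Ioc] at hp
              apply card_roots_le p hp.1.2 f n hfn.le
              refine ⟨n, ?_⟩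
              rw [← hfn, hfm.coeff_natDegree]
              intro h8
              have := Int.le_of_dvd (by norm_num) h8
              have := hp.1.2.two_le
              omega
            _ = Q.card * n := by rw [Finset.sum_const, smul_eq_mul]
            _ ≤ 2 * (n * (n - 1)) * n := Nat.mul_le_mul_right _ hQc
            _ ≤ K := by
              rw [hK, mul_comm]
              exact Nat.mul_le_mul_left _ (by omega)
      _ = K * FF.card := by rw [Finset.sum_const, smul_eq_mul, mul_comm]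
  -- lower bound
  have hlow : Y * Y * t ^ (n * (n + 1)) ≤ 2 * t * (27 * Y ^ 3 * (K * FF.card)) := by
    have h5 : ∀ p ∈ Pr, Y * t ^ (n * (n + 1)) ≤ 2 * (27 * Y ^ 3 * ∑ r ∈ Gd p, (F p r).card) := by
      intro p hp
      have hp' := hp
      rw [hPr, Finset.mem_filter, Finset.mem_Ioc] at hp'
      calc Y * t ^ (n * (n + 1)) ≤ 2 * (Gd p).card * t ^ (n * (n + 1)) :=
            Nat.mul_le_mul_right _ (hGdcard p hp)
        _ = 2 * ∑ _r ∈ Gd p, t ^ (n * (n + 1)) := by
          rw [Finset.sum_const, smul_eq_mul]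
          ring
        _ ≤ 2 * ∑ r ∈ Gd p, 27 * Y ^ 3 * (F p r).card := by
          apply Nat.mul_le_mul_left
          apply Finset.sum_le_sum
          intro r hr
          calc t ^ (n * (n + 1)) ≤ (F p r).card * p ^ 3 := hFcard p hp r hr
            _ ≤ (F p r).card * (3 * Y) ^ 3 :=
              Nat.mul_le_mul_left _ (Nat.pow_le_pow_left hp'.1.2 3)
            _ = _ := by ring
        _ = _ := by rw [← Finset.mul_sum]
    calc Y * Y * t ^ (n * (n + 1)) = Y * (Y * t ^ (n * (n + 1))) := by ring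
      _ ≤ (Pr.card * t) * (Y * t ^ (n * (n + 1))) := Nat.mul_le_mul_right _ hPrcard
      _ = t * ∑ _p ∈ Pr, Y * t ^ (n * (n + 1)) := by
        rw [Finset.sum_const, smul_eq_mul]
        ring
      _ ≤ t * ∑ p ∈ Pr, 2 * (27 * Y ^ 3 * ∑ r ∈ Gd p, (F p r).card) :=
        Nat.mul_le_mul_left _ (Finset.sum_le_sum h5)
      _ = 2 * t * (27 * Y ^ 3 * ∑ p ∈ Pr, ∑ r ∈ Gd p, (F p r).card) := by
        rw [← Finset.mul_sum, ← Finset.mul_sum]
        ring
      _ ≤ 2 * t * (27 * Y ^ 3 * (K * FF.card)) :=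
        Nat.mul_le_mul_left _ (Nat.mul_le_mul_left _ hcount)
  have hY0 : 0 < Y := by
    have : 0 < t ^ U := by positivity
    omega
  have hlow2 : t ^ (n * (n + 1)) ≤ t ^ (U + 4) * FF.card := by
    have h5 : Y * Y * t ^ (n * (n + 1)) ≤ Y * Y * (54 * t * Y * K * FF.card) := by
      calc _ ≤ _ := hlow
        _ = _ := by ring
    have h6 := Nat.le_of_mul_le_mul_left h5 (Nat.mul_pos hY0 hY0)
    calc t ^ (n * (n + 1)) ≤ 54 * t * Y * K * FF.card := h6
      _ = (54 * C0 * K) * (t ^ U * t) * FF.card := by rw [hYdef]; ring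
      _ ≤ t ^ 3 * (t ^ U * t) * FF.card := by
        apply Nat.mul_le_mul_right
        exact Nat.mul_le_mul_right _ h3
      _ = _ := by ring
  refine ⟨FF, ?_, ?_⟩
  · have hFF0 : 1 ≤ FF.card := by
      by_contra hcon
      have : FF.card = 0 := by omega
      rw [this, mul_zero] at hlow2
      have : 0 < t ^ (n * (n + 1)) := by positivity
      omega
    rcases le_total (U + 4) (n * (n + 1)) with h | h
    · have h5 : t ^ (n * (n + 1)) = t ^ (U + 4) * t ^ (n * (n + 1) - U - 4) := by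
        rw [← pow_add]
        congr 1
        omega
      rw [h5] at hlow2
      exact Nat.le_of_mul_le_mul_left hlow2 (by positivity)
    · have h5 : n * (n + 1) - U - 4 = 0 := by omega
      rw [h5, pow_zero]
      exact hFF0
  · intro f hf
    obtain ⟨p, hp, r, hr, hfF⟩ := hFFmem f hf
    obtain ⟨hfm, hfn, hfc, hfq, he1, he2⟩ := hFmem p hp r hr f hfF
    refine ⟨hfm, hfn, hfc, hfq, p, r, ?_, he1, he2⟩
    rw [hPr, Finset.mem_filter, Finset.mem_Ioc] at hp
    have : t ^ U ≤ p := by omega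
    exact_mod_cast this

end Pool.Agent.L5helper9.Nf
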