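import Mathlib
import Pool.Agent.L5helper5.NfLow.M2

/-!
# How many small integers generate the same field
-/

set_option autoImplicit false

namespace Pool.Agent.L5helper9.Nf

open Module NumberField

/-- integers of `L` given as algebraic numbers -/
lemma fibre_le (L : IntermediateField ℚ (AlgebraicClosure ℚ)) [NumberField L]
    (A : Finset (AlgebraicClosure ℚ)) (B lam : ℝ) (hlam : 1 ≤ lam) (hB : lam ≤ B)
    (hA : ∀ α ∈ A, ∃ x : 𝓞 L, ((x : L) : AlgebraicClosure ℚ) = α ∧ ∀ φ : L →+* ℂ, ‖φ x‖ ≤ B)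
    (V : Submodule ℚ L) (hV : ∀ x : 𝓞 L, (∀ φ : L →+* ℂ, ‖φ x‖ ≤ B) → (x : L) ∈ V)
    (s : ℕ) (hs : finrank ℚ V ≤ s)
    (hmin : ∀ x : 𝓞 L, (∀ k : ℤ, x ≠ k) → ∃ φ : L →+* ℂ, lam ≤ ‖φ x‖) :
    (A.card : ℝ) ≤ (2 * B + 1) * (1 + 2 * B / lam) ^ s := by
  classical
  choose! g hg1 hg2 using hA
  have hinj : Set.InjOn g A := by
    intro x hx y hy hxy
    rw [← hg1 x hx, ← hg1 y hy, hxy]
  rw [← Finset.card_image_of_injOn hinj]
  apply Pool.Agent.L5helper5.NfLow.count_integers L V s hs B lam hlam hB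
  · intro x hx
    rw [Finset.mem_image] at hx
    obtain ⟨α, hα, rfl⟩ := hx
    exact hV _ (hg2 α hα)
  · intro x hx
    rw [Finset.mem_image] at hx
    obtain ⟨α, hα, rfl⟩ := hx
    exact hg2 α hα
  · exact hmin

/-- a nonrational integer generates a field without intermediate fields -/
lemma generates (L : IntermediateField ℚ (AlgebraicClosure ℚ)) [NumberField L]
    (hprim : ∀ K : IntermediateField ℚ L, K = ⊥ ∨ K = ⊤) (x : 𝓞 L) (hx : ∀ k : ℤ, x ≠ k) :
    (minpoly ℚ ((x : L) : AlgebraicClosure ℚ)).natDegree = finrank ℚ L ∧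
      IntermediateField.adjoin ℚ {((x : L) : AlgebraicClosure ℚ)} = L := by
  have h1 : minpoly ℚ ((x : L) : AlgebraicClosure ℚ) = minpoly ℚ (x : L) :=
    minpoly.algebraMap_eq (A := ℚ) (B := L) (B' := AlgebraicClosure ℚ)
      (algebraMap L (AlgebraicClosure ℚ)).injective (x : L)
  have hint : IsIntegral ℚ (x : L) := Algebra.IsIntegral.isIntegral _
  have h2 : IntermediateField.adjoin ℚ {(x : L)} = ⊤ := by
    rcases hprim (IntermediateField.adjoin ℚ {(x : L)}) with h | h
    · exfalso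
      rw [IntermediateField.adjoin_simple_eq_bot_iff, IntermediateField.mem_bot] at h
      obtain ⟨y, hy⟩ := h
      have hyint : IsIntegral ℤ y := by
        have h3 : IsIntegral ℤ (algebraMap ℚ L y) := by
          rw [hy]
          exact x.2
        exact (isIntegral_algebraMap_iff (algebraMap ℚ L).injective).1 h3
      obtain ⟨k, hk⟩ := IsIntegrallyClosed.isIntegral_iff.1 hyint
      apply hx k
      apply RingOfIntegers.ext
      rw [← hy, ← hk]
      simp
    · exact h
  have h3 : (minpoly ℚ (x : L)).natDegree = finrank ℚ L := by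
    rw [← IntermediateField.adjoin.finrank hint, h2, IntermediateField.finrank_top']
  refine ⟨h1 ▸ h3, ?_⟩
  apply IntermediateField.eq_of_le_of_finrank_eq
  · rw [IntermediateField.adjoin_simple_le_iff]
    exact (x : L).2
  · have hint' : IsIntegral ℚ ((x : L) : AlgebraicClosure ℚ) := hint.map L.val
    rw [IntermediateField.adjoin.finrank hint', h1, h3]

/-- the hypotheses on an algebraic number -/
def Adm (n : ℕ) (B : ℝ) (α : AlgebraicClosure ℚ) : Prop :=
  IsIntegral ℤ α ∧ finrank ℚ (IntermediateField.adjoin ℚ {α}) = n ∧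
    (∀ φ : IntermediateField.adjoin ℚ {α} →+* ℂ,
      ‖φ (IntermediateField.AdjoinSimple.gen ℚ α)‖ ≤ B) ∧
    ∀ K : IntermediateField ℚ (IntermediateField.adjoin ℚ {α}), K = ⊥ ∨ K = ⊤

lemma Adm.spec {n : ℕ} {B : ℝ} {α : AlgebraicClosure ℚ} (h : Adm n B α)
    {L : IntermediateField ℚ (AlgebraicClosure ℚ)} (hL : IntermediateField.adjoin ℚ {α} = L) :
    finrank ℚ L = n ∧ (∀ K : IntermediateField ℚ L, K = ⊥ ∨ K = ⊤) ∧
      ∃ x : 𝓞 L, ((x : L) : AlgebraicClosure ℚ) = α ∧ ∀ φ : L →+* ℂ, ‖φ x‖ ≤ B := by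
  subst hL
  obtain ⟨h1, h2, h3, h4⟩ := h
  have hx : IsIntegral ℤ (IntermediateField.AdjoinSimple.gen ℚ α) := by
    have : IsIntegral ℤ (algebraMap (IntermediateField.adjoin ℚ {α}) (AlgebraicClosure ℚ)
        (IntermediateField.AdjoinSimple.gen ℚ α)) := by
      rw [IntermediateField.AdjoinSimple.algebraMap_gen]
      exact h1
    exact (isIntegral_algebraMap_iff
      (algebraMap (IntermediateField.adjoin ℚ {α}) (AlgebraicClosure ℚ)).injective).1 this
  exact ⟨h2, h4, ⟨_, hx⟩, rfl, h3⟩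

/-- the span of the small integers -/
noncomputable def Vsp (L : IntermediateField ℚ (AlgebraicClosure ℚ)) (B : ℝ) : Submodule ℚ L :=
  Submodule.span ℚ (insert (1 : L) ((fun x : 𝓞 L => (x : L)) '' {x | ∀ φ : L →+* ℂ, ‖φ x‖ ≤ B}))

/-- discriminants of fields with many small integers -/
def Small (L : IntermediateField ℚ (AlgebraicClosure ℚ)) (lam : ℝ) : Prop :=
  ∃ x : 𝓞 L, (∀ k : ℤ, x ≠ k) ∧ ∀ φ : L →+* ℂ, ‖φ x‖ < lam

open scoped Classical in
theorem mult_bound (n : ℕ) (hn : 1 ≤ n) : ∃ C : ℝ, 0 < C ∧ ∀ (S : ℕ) (B lam : ℝ), 1 ≤ S →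
    1 ≤ lam → lam ≤ B → ∀ A : Finset (AlgebraicClosure ℚ), (∀ α ∈ A, Adm n B α) →
    ∀ R : Finset (IntermediateField ℚ (AlgebraicClosure ℚ)),
    (∀ L : IntermediateField ℚ (AlgebraicClosure ℚ), finrank ℚ L = n →
      (∀ K : IntermediateField ℚ L, K = ⊥ ∨ K = ⊤) → S + 1 ≤ finrank ℚ (Vsp L B) → L ∈ R) →
    (A.card : ℝ) ≤ R.card * ((2 * B + 1) * (1 + 2 * B) ^ n) +
      C * lam ^ (n * (n + 1) / 2) * ((2 * B + 1) * (1 + 2 * B) ^ S) +
      (A.image fun α => IntermediateField.adjoin ℚ {α}).card *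
        ((2 * B + 1) * (1 + 2 * B / lam) ^ S) := by
  classical
  obtain ⟨C, hC0, hC⟩ := Pool.Agent.L5helper5.NfLow.card_algebraic_integers n
  refine ⟨C, hC0, ?_⟩
  intro S B lam hS hlam hlamB A hA R hR
  have hB : 1 ≤ B := hlam.trans hlamB
  set T := A.image fun α => IntermediateField.adjoin ℚ {α} with hT
  have hTmem : ∀ L ∈ T, finrank ℚ L = n ∧ ∀ K : IntermediateField ℚ L, K = ⊥ ∨ K = ⊤ := by
    intro L hL
    rw [hT, Finset.mem_image] at hL
    obtain ⟨α, hα, hαL⟩ := hL
    exact ⟨((hA α hα).spec hαL).1, ((hA α hα).spec hαL).2.1⟩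
  have hNF : ∀ L ∈ T, NumberField L := by
    intro L hL
    have : FiniteDimensional ℚ L := FiniteDimensional.of_finrank_pos (by rw [(hTmem L hL).1]; omega)
    exact ⟨⟩
  set Af : IntermediateField ℚ (AlgebraicClosure ℚ) → Finset (AlgebraicClosure ℚ) :=
    fun L => A.filter fun α => IntermediateField.adjoin ℚ {α} = L with hAf
  have hcard : A.card = ∑ L ∈ T, (Af L).card :=
    Finset.card_eq_sum_card_image _ _
  set g1 := (2 * B + 1) * (1 + 2 * B) ^ n with hg1
  set g2 := (2 * B + 1) * (1 + 2 * B) ^ S with hg2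
  set g3 := (2 * B + 1) * (1 + 2 * B / lam) ^ S with hg3
  have hg1' : 0 ≤ g1 := by positivity
  have hg2' : 0 ≤ g2 := by positivity
  have hg3' : 0 ≤ g3 := by positivity
  have hAfs : ∀ L, ∀ α ∈ Af L, ∃ x : 𝓞 L, ((x : L) : AlgebraicClosure ℚ) = α ∧
      ∀ φ : L →+* ℂ, ‖φ x‖ ≤ B := by
    intro L α hα
    rw [hAf, Finset.mem_filter] at hα
    exact ((hA α hα.1).spec hα.2).2.2
  -- trivial bound for the conjugates of nonrational integers
  have hone : ∀ L : IntermediateField ℚ (AlgebraicClosure ℚ), ∀ _ : NumberField L,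
      ∀ x : 𝓞 L, (∀ k : ℤ, x ≠ k) → ∃ φ : L →+* ℂ, (1 : ℝ) ≤ ‖φ x‖ := by
    intro L hL x hx
    apply NumberField.exists_conjugate_one_le_norm
    intro h0
    exact hx 0 (by rw [h0]; simp)
  -- the three cases
  have hmain : ∀ L ∈ T, ((Af L).card : ℝ) ≤ (if L ∈ R then g1 else 0) +
      (if Small L lam then g2 else 0) + g3 := by
    intro L hL
    have := hNF L hL
    by_cases h1 : L ∈ R
    · rw [if_pos h1]
      have h2 := fibre_le L (Af L) B 1 le_rfl hB (hAfs L) ⊤ (fun _ _ => Submodule.mem_top) n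
        (by rw [finrank_top, (hTmem L hL).1]) (hone L this)
      rw [div_one] at h2
      have h3 : 0 ≤ (if Small L lam then g2 else 0) := by split_ifs <;> linarith
      linarith
    · rw [if_neg h1]
      have hV : finrank ℚ (Vsp L B) ≤ S := by
        by_contra hcon
        exact h1 (hR L (hTmem L hL).1 (hTmem L hL).2 (by omega))
      have hVm : ∀ x : 𝓞 L, (∀ φ : L →+* ℂ, ‖φ x‖ ≤ B) → (x : L) ∈ Vsp L B := by
        intro x hx
        apply Submodule.subset_span
        exact Set.mem_insert_of_mem _ ⟨x, hx, rfl⟩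
      by_cases h2 : Small L lam
      · rw [if_pos h2]
        have h3 := fibre_le L (Af L) B 1 le_rfl hB (hAfs L) (Vsp L B) hVm S hV (hone L this)
        rw [div_one] at h3
        linarith
      · rw [if_neg h2]
        have h3 := fibre_le L (Af L) B lam hlam hlamB (hAfs L) (Vsp L B) hVm S hV (by
          intro x hx
          by_contra hcon
          push Not at hcon
          exact h2 ⟨x, hx, hcon⟩)
        linarith
  -- the number of fields with a small integer
  have hsmall : ((T.filter fun L => Small L lam).card : ℝ) ≤ C * lam ^ (n * (n + 1) / 2) := by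
    have hch : ∀ L ∈ T.filter fun L => Small L lam, ∃ β : AlgebraicClosure ℚ,
        (IsIntegral ℤ β ∧ (minpoly ℚ β).natDegree = n ∧
          ∀ φ : AlgebraicClosure ℚ →+* ℂ, ‖φ β‖ ≤ lam) ∧ IntermediateField.adjoin ℚ {β} = L := by
      intro L hL
      rw [Finset.mem_filter] at hL
      obtain ⟨hL, x, hx1, hx2⟩ := hL
      have := hNF L hL
      have h3 := generates L (hTmem L hL).2 x hx1
      refine ⟨((x : L) : AlgebraicClosure ℚ), ⟨?_, ?_, ?_⟩, h3.2⟩
      · have := x.2
        exact (mem_integralClosure_iff _ _).1 this |>.map (L.val.restrictScalars ℤ)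
      · rw [h3.1, (hTmem L hL).1]
      · intro φ
        exact (hx2 (φ.comp (algebraMap L (AlgebraicClosure ℚ)))).le
    choose! b hb1 hb2 using hch
    have hinj : Set.InjOn b (T.filter fun L => Small L lam) := by
      intro L hL L' hL' hLL
      rw [← hb2 L hL, ← hb2 L' hL', hLL]
    obtain ⟨hfin, hcount⟩ := hC lam hlam
    refine le_trans ?_ hcount
    rw [← Finset.card_image_of_injOn hinj]
    have h5 : (((T.filter fun L => Small L lam).image b : Finset _) :
        Set (AlgebraicClosure ℚ)) ⊆ {β : AlgebraicClosure ℚ | IsIntegral ℤ β ∧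
          (minpoly ℚ β).natDegree = n ∧ ∀ φ : AlgebraicClosure ℚ →+* ℂ, ‖φ β‖ ≤ lam} := by
      intro β hβ
      rw [Finset.mem_coe, Finset.mem_image] at hβ
      obtain ⟨L, hL, rfl⟩ := hβ
      exact hb1 L hL
    have h6 := Set.ncard_le_ncard h5 hfin
    rw [Set.ncard_coe_finset] at h6
    exact_mod_cast h6
  have hrich : ((T.filter fun L => L ∈ R).card : ℝ) ≤ R.card := by
    have : (T.filter fun L => L ∈ R) ⊆ R := fun L hL => (Finset.mem_filter.1 hL).2
    exact_mod_cast Finset.card_le_card this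
  calc (A.card : ℝ) = ∑ L ∈ T, ((Af L).card : ℝ) := by rw [hcard]; push_cast; rfl
    _ ≤ ∑ L ∈ T, ((if L ∈ R then g1 else 0) + (if Small L lam then g2 else 0) + g3) :=
      Finset.sum_le_sum hmain
    _ = (T.filter fun L => L ∈ R).card * g1 + (T.filter fun L => Small L lam).card * g2 +
        T.card * g3 := by
      rw [Finset.sum_add_distrib, Finset.sum_add_distrib, ← Finset.sum_filter, ← Finset.sum_filter,
        Finset.sum_const, Finset.sum_const, Finset.sum_const]
      simp only [nsmul_eq_mul]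
    _ ≤ _ := by
      gcongr

end Pool.Agent.L5helper9.Nf
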