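import Pool.Agent.L5helper9.Nf6
import Pool.Agent.L5helper9.Nf8
import Pool.Agent.L5helper5.NfLow.M1

/-!
# Many fields along a sequence of bounds
-/

set_option autoImplicit false

namespace Pool.Agent.L5helper9.Nf

open Filter Topology Polynomial Module NumberField

/-- the fields of degree `n` with discriminant at most `X` -/
def Fl (n : ℕ) (X : ℝ) : Set (IntermediateField ℚ (AlgebraicClosure ℚ)) :=
  {L | finrank ℚ L = n ∧ ∃ h : NumberField L, ((|@NumberField.discr L _ h| : ℤ) : ℝ) ≤ X}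

/-- the fields of degree `n` with discriminant at most `X` and a property `W` -/
def Flw (W : IntermediateField ℚ (AlgebraicClosure ℚ) → Prop) (n : ℕ) (X : ℝ) :
    Set (IntermediateField ℚ (AlgebraicClosure ℚ)) :=
  {L | finrank ℚ L = n ∧ W L ∧ ∃ h : NumberField L, ((|@NumberField.discr L _ h| : ℤ) : ℝ) ≤ X}

lemma Flw_subset (W : IntermediateField ℚ (AlgebraicClosure ℚ) → Prop) (n : ℕ) (X : ℝ) :
    Flw W n X ⊆ Fl n X := fun _ hL => ⟨hL.1, hL.2.2⟩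

lemma dominate (K a b : ℝ) (hab : a < b) :
    ∀ᶠ t : ℕ in atTop, K * (t : ℝ) ^ a ≤ (t : ℝ) ^ b / 4 := by
  have h1 := tendsto_rpow_atTop (sub_pos.2 hab)
  have h2 := (h1.comp (tendsto_natCast_atTop_atTop (R := ℝ))).eventually_ge_atTop (4 * K)
  filter_upwards [h2, eventually_gt_atTop 0] with t ht ht0
  have ht0' : (0 : ℝ) < t := by exact_mod_cast ht0
  simp only [Function.comp_apply] at ht
  have h3 : (t : ℝ) ^ b = (t : ℝ) ^ (b - a) * (t : ℝ) ^ a := by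
    rw [← Real.rpow_add ht0']
    congr 1
    ring
  rw [h3]
  have h4 : 0 ≤ (t : ℝ) ^ a := by positivity
  nlinarith

theorem lower_t (W : IntermediateField ℚ (AlgebraicClosure ℚ) → Prop) (n m q S N1 : ℕ) (hm1 : 1 ≤ m) (hm : 2 * m + 1 ≤ n) (hq : 1 ≤ q) (hS : 1 ≤ S)
    (f0 : ℤ[X]) (hf0 : f0.Monic) (hf0n : f0.natDegree = n)
    (hres : ∀ f : ℤ[X], f.Monic → (∃ g, f = f0 + C (q : ℤ) * g) → Irreducible f ∧
      ∀ α : AlgebraicClosure ℚ, minpoly ℤ α = f →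
        (∀ K : IntermediateField ℚ (IntermediateField.adjoin ℚ {α}), K = ⊥ ∨ K = ⊤) ∧
        W (IntermediateField.adjoin ℚ {α}))
    (cr : ℝ) (hfin : ∃ C : ℝ, 0 < C ∧ ∀ X : ℝ, 1 ≤ X →
      (Fl n X).Finite ∧ ((Fl n X).ncard : ℝ) ≤ C * X ^ cr)
    (hN1 : N1 = n * (n + 1) - (m + 1) * (n - m) - 4)
    (hU : (m + 1) * (n - m) ≤ n * (n - 1))
    (hR : 4 * cr * ((∑ j ∈ Finset.range n, (j + S - 1) / S : ℕ) : ℝ) + 2 * (n + 1) < N1)
    (hP : 2 * (S + 1) < N1) :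
    ∃ C1 c : ℝ, 1 ≤ C1 ∧ 0 < c ∧ ∀ᶠ t : ℕ in atTop, c * (t : ℝ) ^ (N1 - 2 * (S + 1)) ≤
      ((Flw W n (C1 * (t : ℝ) ^ (2 * (n * (n - 1)) - 2 * ((m + 1) * (n - m))))).ncard : ℝ) := by
  classical
  set Sg : ℕ := ∑ j ∈ Finset.range n, (j + S - 1) / S with hSg
  set U := (m + 1) * (n - m) with hUdef
  obtain ⟨M, hM1, hfam⟩ := family n m q hm1 hm hq f0 hf0 hf0n (fun f hf h => (hres f hf h).1)
  obtain ⟨Cm, hCm0, hCm⟩ := mult_bound n (by omega)
  obtain ⟨CF, hCF0, hCF⟩ := hfin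
  have hn1 : (1 : ℝ) ≤ n := by exact_mod_cast (by omega : 1 ≤ n)
  have hM1' : (1 : ℝ) ≤ M := by exact_mod_cast hM1
  have hnM : (1 : ℝ) ≤ n * M := by nlinarith
  have hfac : (1 : ℝ) ≤ (n.factorial : ℝ) := by exact_mod_cast Nat.one_le_iff_ne_zero.2 n.factorial_ne_zero
  set C1 : ℝ := ((n.factorial : ℝ) * (n * M) ^ (n * (n - 1) / 2)) ^ 2 with hC1
  have hC11 : 1 ≤ C1 := by
    rw [hC1]
    apply one_le_pow₀
    have : (1 : ℝ) ≤ ((n : ℝ) * M) ^ (n * (n - 1) / 2) := one_le_pow₀ hnM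
    nlinarith
  set Q : ℝ := 3 * (n * M) with hQ
  have hQ1 : 1 ≤ Q := by rw [hQ]; linarith
  set K1 : ℝ := CF * (((n.factorial : ℝ) ^ 2 * (n * M) ^ (2 * Sg)) ^ cr) * Q ^ (n + 1) with hK1
  set K2 : ℝ := Cm * Q ^ (S + 1) with hK2
  have hd1 := dominate K1 (4 * Sg * cr + 2 * (n + 1)) N1 (by
    calc 4 * Sg * cr + 2 * (n + 1) = 4 * cr * Sg + 2 * (n + 1) := by ring
      _ < N1 := hR)
  have hd2 := dominate K2 ((2 * (S + 1) : ℕ) : ℝ) N1 (by exact_mod_cast hP)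
  refine ⟨C1, 1 / (2 * Q ^ (S + 1)), hC11, by positivity, ?_⟩
  filter_upwards [hfam, hd1, hd2, eventually_ge_atTop 1] with t hFt hd1 hd2 ht
  obtain ⟨F, hFcard, hF⟩ := hFt
  have ht' : (1 : ℝ) ≤ t := by exact_mod_cast ht
  have ht0 : (0 : ℝ) < t := by linarith
  set B : ℝ := n * M * t ^ 2 with hB
  have ht2 : (1 : ℝ) ≤ (t : ℝ) ^ 2 := one_le_pow₀ ht'
  have hB1 : 1 ≤ B := by rw [hB]; nlinarith
  -- the fields
  have hff : ∀ f ∈ F, ∃ α : AlgebraicClosure ℚ, minpoly ℤ α = f ∧ Adm n B α ∧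
      IntermediateField.adjoin ℚ {α} ∈ Flw W n (C1 * (t : ℝ) ^ (2 * (n * (n - 1)) - 2 * U)) := by
    intro f hf
    obtain ⟨hfm, hfn, hfc, hfq, P, r, hP1, hP2, hP3⟩ := hF f hf
    obtain ⟨hirr, hpr⟩ := hres f hfm hfq
    obtain ⟨α, hα1, hα2, hα3, hα4, D, hD0, hDb, hDP⟩ := field_facts (n := n) (M := M) (t := t)
      (by omega) (by omega) hM1 f hfm hfn hirr hfc
    refine ⟨α, hα1, ⟨hα2, hα3, hα4, (hpr α hα1).1⟩, hα3, (hpr α hα1).2, ?_⟩
    have hfd : FiniteDimensional ℚ (IntermediateField.adjoin ℚ {α}) :=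
      FiniteDimensional.of_finrank_pos (by rw [hα3]; omega)
    have hNF : NumberField (IntermediateField.adjoin ℚ {α}) := ⟨⟩
    refine ⟨hNF, ?_⟩
    have hP0 : (1 : ℤ) ≤ P := by
      have : (1 : ℤ) ≤ (t : ℤ) ^ U := one_le_pow₀ (by exact_mod_cast ht)
      linarith
    have h5 := (hDP P r (by omega) hP2 hP3).2 hNF
    have h6 : (((|@NumberField.discr (IntermediateField.adjoin ℚ {α}) _ hNF| : ℤ) : ℝ)) *
        (P : ℝ) ^ 2 ≤ (|D| : ℝ) := by exact_mod_cast h5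
    have h7 : ((t : ℝ) ^ U) ^ 2 ≤ (P : ℝ) ^ 2 := by
      have : (t : ℝ) ^ U ≤ (P : ℝ) := by exact_mod_cast hP1
      exact pow_le_pow_left₀ (by positivity) this 2
    have h8 : ((n.factorial : ℝ) * B ^ (n * (n - 1) / 2)) ^ 2 ≤
        (C1 * (t : ℝ) ^ (2 * (n * (n - 1)) - 2 * U)) * ((t : ℝ) ^ U) ^ 2 := by
      have h9 : (t : ℝ) ^ (2 * (n * (n - 1)) - 2 * U) * ((t : ℝ) ^ U) ^ 2 =
          (t : ℝ) ^ (2 * (n * (n - 1))) := by
        rw [← pow_mul, ← pow_add]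
        congr 1
        omega
      rw [mul_assoc, h9, hC1, hB, mul_pow ((n : ℝ) * M), ← mul_assoc, mul_pow (_ * _), ← pow_mul,
        ← pow_mul]
      apply mul_le_mul_of_nonneg_left _ (by positivity)
      apply pow_le_pow_right₀ ht'
      omega
    have h9 : (0 : ℝ) ≤ ((|@NumberField.discr (IntermediateField.adjoin ℚ {α}) _ hNF| : ℤ) : ℝ) := by
      exact_mod_cast abs_nonneg _
    have h10 : (((|@NumberField.discr (IntermediateField.adjoin ℚ {α}) _ hNF| : ℤ) : ℝ)) *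
        ((t : ℝ) ^ U) ^ 2 ≤
        (C1 * (t : ℝ) ^ (2 * (n * (n - 1)) - 2 * U)) * ((t : ℝ) ^ U) ^ 2 := by
      calc _ ≤ (((|@NumberField.discr (IntermediateField.adjoin ℚ {α}) _ hNF| : ℤ) : ℝ)) *
            (P : ℝ) ^ 2 := mul_le_mul_of_nonneg_left h7 h9
        _ ≤ _ := h6.trans (hDb.trans h8)
    exact le_of_mul_le_mul_right h10 (by positivity)
  choose! α hα1 hα2 hα3 using hff
  have hinj : Set.InjOn α F := by
    intro f hf g hg hfg
    rw [← hα1 f hf, ← hα1 g hg, hfg]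
  set A := F.image α with hA
  have hAcard : A.card = F.card := Finset.card_image_of_injOn hinj
  have hAadm : ∀ x ∈ A, Adm n B x := by
    intro x hx
    rw [hA, Finset.mem_image] at hx
    obtain ⟨f, hf, rfl⟩ := hx
    exact hα2 f hf
  -- rich fields
  set Xr : ℝ := (n.factorial : ℝ) ^ 2 * B ^ (2 * Sg) with hXr
  have hXr1 : 1 ≤ Xr := by
    have h5 : (1 : ℝ) ≤ (n.factorial : ℝ) ^ 2 := one_le_pow₀ hfac
    have h6 : 1 ≤ B ^ (2 * Sg) := one_le_pow₀ hB1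
    rw [hXr]
    nlinarith
  obtain ⟨hRfin, hRcard⟩ := hCF Xr hXr1
  have hmb := hCm S B 1 hS le_rfl hB1 A hAadm hRfin.toFinset (by
    intro L hL1 hL2 hL3
    rw [Set.Finite.mem_toFinset]
    have hfd : FiniteDimensional ℚ L := FiniteDimensional.of_finrank_pos (by rw [hL1]; omega)
    have hNF : NumberField L := ⟨⟩
    refine ⟨hL1, hNF, ?_⟩
    have h5 := Pool.Agent.L5helper5.NfLow.discr_le_of_small L hL2 S hS B hB1
      {x | ∀ φ : L →+* ℂ, ‖φ x‖ ≤ B} (fun x hx => hx) hL3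
    rw [hL1] at h5
    exact h5)
  rw [← Set.ncard_eq_toFinset_card _ hRfin, hAcard, one_pow, mul_one, div_one] at hmb
  -- bounds for the three terms
  have hBQ : 2 * B + 1 ≤ Q * (t : ℝ) ^ 2 := by
    rw [hQ, hB]
    nlinarith
  have hBQ' : 1 + 2 * B ≤ Q * (t : ℝ) ^ 2 := by linarith
  have hpow : ∀ k : ℕ, (2 * B + 1) * (1 + 2 * B) ^ k ≤ Q ^ (k + 1) * (t : ℝ) ^ (2 * (k + 1)) := by
    intro k
    calc (2 * B + 1) * (1 + 2 * B) ^ k ≤ (Q * (t : ℝ) ^ 2) * (Q * (t : ℝ) ^ 2) ^ k := by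
          apply mul_le_mul hBQ _ (by positivity) (by positivity)
          exact pow_le_pow_left₀ (by positivity) hBQ' k
      _ = _ := by
          rw [← pow_succ', mul_pow, ← pow_mul]
  have hT1 : ((Fl n Xr).ncard : ℝ) * ((2 * B + 1) * (1 + 2 * B) ^ n) ≤ (t : ℝ) ^ N1 / 4 := by
    calc ((Fl n Xr).ncard : ℝ) * ((2 * B + 1) * (1 + 2 * B) ^ n)
        ≤ (CF * Xr ^ cr) * (Q ^ (n + 1) * (t : ℝ) ^ (2 * (n + 1))) := by
          apply mul_le_mul hRcard (hpow n) (by positivity)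
          have : 0 < Xr := by linarith
          positivity
      _ = K1 * (t : ℝ) ^ (4 * Sg * cr + 2 * (n + 1)) := by
          have h5 : Xr = ((n.factorial : ℝ) ^ 2 * (n * M) ^ (2 * Sg)) * (t : ℝ) ^ (4 * Sg) := by
            rw [hXr, hB, mul_pow ((n : ℝ) * M), ← pow_mul]
            ring_nf
          have h6 : Xr ^ cr = ((n.factorial : ℝ) ^ 2 * (n * M) ^ (2 * Sg)) ^ cr *
              (t : ℝ) ^ (4 * Sg * cr) := by
            rw [h5, Real.mul_rpow (by positivity) (by positivity)]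
            congr 1
            rw [← Real.rpow_natCast, ← Real.rpow_mul ht0.le]
            push_cast
            ring_nf
          have h7 : (t : ℝ) ^ (4 * Sg * cr + 2 * (n + 1)) =
              (t : ℝ) ^ (4 * Sg * cr) * (t : ℝ) ^ (2 * (n + 1)) := by
            rw [Real.rpow_add ht0, ← Real.rpow_natCast (t : ℝ) (2 * (n + 1))]
            push_cast
            ring_nf
          rw [h6, h7, hK1]
          ring
      _ ≤ (t : ℝ) ^ (N1 : ℝ) / 4 := hd1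
      _ = _ := by rw [Real.rpow_natCast]
  have hT2 : Cm * ((2 * B + 1) * (1 + 2 * B) ^ S) ≤ (t : ℝ) ^ N1 / 4 := by
    calc Cm * ((2 * B + 1) * (1 + 2 * B) ^ S) ≤ Cm * (Q ^ (S + 1) * (t : ℝ) ^ (2 * (S + 1))) :=
          mul_le_mul_of_nonneg_left (hpow S) hCm0.le
      _ = K2 * (t : ℝ) ^ ((2 * (S + 1) : ℕ) : ℝ) := by
          rw [Real.rpow_natCast, hK2]
          ring
      _ ≤ (t : ℝ) ^ (N1 : ℝ) / 4 := hd2
      _ = _ := by rw [Real.rpow_natCast]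
  set T := A.image fun α => IntermediateField.adjoin ℚ {α} with hT
  have hXt1 : (1 : ℝ) ≤ C1 * (t : ℝ) ^ (2 * (n * (n - 1)) - 2 * U) := by
    have : (1 : ℝ) ≤ (t : ℝ) ^ (2 * (n * (n - 1)) - 2 * U) := one_le_pow₀ ht'
    nlinarith
  have hTcard : (T.card : ℝ) ≤
      ((Flw W n (C1 * (t : ℝ) ^ (2 * (n * (n - 1)) - 2 * U))).ncard : ℝ) := by
    have h5 : (T : Set (IntermediateField ℚ (AlgebraicClosure ℚ))) ⊆
        Flw W n (C1 * (t : ℝ) ^ (2 * (n * (n - 1)) - 2 * U)) := by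
      intro L hL
      rw [Finset.mem_coe, hT, Finset.mem_image] at hL
      obtain ⟨x, hx, rfl⟩ := hL
      rw [hA, Finset.mem_image] at hx
      obtain ⟨f, hf, rfl⟩ := hx
      exact hα3 f hf
    have h6 := Set.ncard_le_ncard h5 ((hCF _ hXt1).1.subset (Flw_subset W n _))
    rw [Set.ncard_coe_finset] at h6
    exact_mod_cast h6
  refine le_trans ?_ hTcard
  have hFc : (t : ℝ) ^ N1 ≤ F.card := by
    rw [← hN1] at hFcard
    exact_mod_cast hFcard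
  have h5 : (t : ℝ) ^ N1 / 2 ≤ T.card * (Q ^ (S + 1) * (t : ℝ) ^ (2 * (S + 1))) := by
    have h6 : (T.card : ℝ) * ((2 * B + 1) * (1 + 2 * B) ^ S) ≤
        T.card * (Q ^ (S + 1) * (t : ℝ) ^ (2 * (S + 1))) :=
      mul_le_mul_of_nonneg_left (hpow S) (by positivity)
    linarith
  have h6 : (t : ℝ) ^ N1 = (t : ℝ) ^ (N1 - 2 * (S + 1)) * (t : ℝ) ^ (2 * (S + 1)) := by
    rw [← pow_add]
    congr 1
    omega
  rw [h6] at h5
  have h7 : (t : ℝ) ^ (N1 - 2 * (S + 1)) / 2 ≤ T.card * Q ^ (S + 1) := by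
    have h8 : (t : ℝ) ^ (N1 - 2 * (S + 1)) / 2 * (t : ℝ) ^ (2 * (S + 1)) ≤
        T.card * Q ^ (S + 1) * (t : ℝ) ^ (2 * (S + 1)) := by linarith
    exact le_of_mul_le_mul_right h8 (by positivity)
  rw [div_mul_eq_mul_div, one_mul, div_le_iff₀ (by positivity)]
  linarith

end Pool.Agent.L5helper9.Nf
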