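import Pool.Agent.L5helper9.Nk9
import Pool.Agent.L5helper9.Nf10

/-!
# The lower bound over number fields
-/

set_option autoImplicit false

namespace Pool.Agent.L5helper9.Nk

open Filter Topology Polynomial Module NumberField Pool.Agent.L5helper9.Nf

lemma to_XK (N : ℝ → ℝ) (hmono : ∀ X Y, 1 ≤ X → X ≤ Y → N X ≤ N Y) (C1 c : ℝ) (hC1 : 1 ≤ C1)
    (hc : 0 < c) (G H : ℕ) (hH : 0 < H)
    (h : ∀ ε : ℝ, 0 < ε → ε < 1 → ∀ᶠ t : ℕ in atTop, ∃ s : ℕ, (t : ℝ) ^ (1 - ε) ≤ s ∧ s ≤ t ∧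
      c * (s : ℝ) ^ G ≤ N (C1 * (s : ℝ) ^ H)) (e : ℝ)
    (he : e < (G : ℝ) / H) : ∀ᶠ X : ℝ in atTop, X ^ e ≤ N X := by
  have hH' : (0 : ℝ) < H := by exact_mod_cast hH
  have hC10 : 0 < C1 := by linarith
  -- the loss
  obtain ⟨ε, hε0, hε1, hεe⟩ : ∃ ε : ℝ, 0 < ε ∧ ε < 1 ∧ e < (G : ℝ) / H * (1 - ε) := by
    have h1 : Tendsto (fun ε : ℝ => (G : ℝ) / H * (1 - ε)) (𝓝[>] 0) (𝓝 ((G : ℝ) / H * (1 - 0))) := by
      apply Tendsto.mono_left _ nhdsWithin_le_nhds
      exact (tendsto_const_nhds.mul (tendsto_const_nhds.sub tendsto_id))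
    rw [sub_zero, mul_one] at h1
    have h2 := h1.eventually (eventually_gt_nhds he)
    have h3 : ∀ᶠ ε : ℝ in 𝓝[>] 0, ε < 1 := by
      apply eventually_nhdsWithin_of_eventually_nhds
      exact eventually_lt_nhds one_pos
    obtain ⟨ε, h4, h5, h6⟩ := (h2.and (h3.and self_mem_nhdsWithin)).exists
    exact ⟨ε, h6, h5, h4⟩
  set G' : ℝ := (G : ℝ) / H * (1 - ε) with hG'
  have hy : Tendsto (fun X : ℝ => (X / C1) ^ ((1 : ℝ) / H)) atTop atTop := by
    apply (tendsto_rpow_atTop (by positivity : (0 : ℝ) < 1 / H)).comp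
    exact tendsto_id.atTop_div_const hC10
  have hfl : Tendsto (fun X : ℝ => ⌊(X / C1) ^ ((1 : ℝ) / H)⌋₊) atTop atTop :=
    tendsto_nat_floor_atTop.comp hy
  have h1 := hfl.eventually (h ε hε0 hε1)
  have h2 := hy.eventually_ge_atTop 2
  set K : ℝ := (C1 ^ G' * 2 ^ ((1 - ε) * G)) / c with hK
  have h3 : ∀ᶠ X : ℝ in atTop, K * X ^ e ≤ X ^ G' := by
    have h4 := (tendsto_rpow_atTop (sub_pos.2 hεe)).eventually_ge_atTop K
    filter_upwards [h4, eventually_gt_atTop 0] with X hX hX0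
    have h5 : X ^ G' = X ^ (G' - e) * X ^ e := by
      rw [← Real.rpow_add hX0]
      congr 1
      ring
    rw [h5]
    exact mul_le_mul_of_nonneg_right hX (by positivity)
  filter_upwards [h1, h2, h3, eventually_ge_atTop 1] with X hX1 hX2 hX3 hX4
  obtain ⟨s, hs1, hs2, hs3⟩ := hX1
  set y := (X / C1) ^ ((1 : ℝ) / H) with hyd
  have hX0 : 0 < X := by linarith
  have hy0 : 0 < y := by linarith
  have hyH : y ^ H = X / C1 := by
    rw [hyd, ← Real.rpow_natCast, ← Real.rpow_mul (by positivity)]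
    rw [one_div, inv_mul_cancel₀ hH'.ne', Real.rpow_one]
  have hfl1 : ((⌊y⌋₊ : ℕ) : ℝ) ≤ y := Nat.floor_le hy0.le
  have hfl2 : y / 2 ≤ ((⌊y⌋₊ : ℕ) : ℝ) := by
    have := Nat.lt_floor_add_one y
    linarith
  have hsy : (s : ℝ) ≤ y := le_trans (by exact_mod_cast hs2) hfl1
  have hfl3 : (1 : ℝ) ≤ ((⌊y⌋₊ : ℕ) : ℝ) := by linarith
  have hs1' : (1 : ℝ) ≤ s := le_trans (Real.one_le_rpow hfl3 (by linarith)) hs1
  have hle : C1 * (s : ℝ) ^ H ≤ X := by
    calc C1 * (s : ℝ) ^ H ≤ C1 * y ^ H :=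
          mul_le_mul_of_nonneg_left (pow_le_pow_left₀ (by positivity) hsy H) hC10.le
      _ = X := by rw [hyH]; field_simp
  have hone : 1 ≤ C1 * (s : ℝ) ^ H := by
    have : (1 : ℝ) ≤ (s : ℝ) ^ H := one_le_pow₀ hs1'
    nlinarith
  have h5 : N (C1 * (s : ℝ) ^ H) ≤ N X := hmono _ _ hone hle
  have h6 : (y / 2) ^ ((1 - ε) * G) ≤ (s : ℝ) ^ G := by
    calc (y / 2) ^ ((1 - ε) * G) = ((y / 2) ^ (1 - ε)) ^ (G : ℝ) := by
          rw [← Real.rpow_mul (by positivity)]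
      _ ≤ (s : ℝ) ^ (G : ℝ) := by
          apply Real.rpow_le_rpow (by positivity) _ (by positivity)
          exact le_trans (Real.rpow_le_rpow (by positivity) hfl2 (by linarith)) hs1
      _ = _ := Real.rpow_natCast _ _
  have h7 : y ^ ((1 - ε) * G) = X ^ G' / C1 ^ G' := by
    rw [hyd, ← Real.rpow_mul (by positivity), ← Real.div_rpow hX0.le hC10.le]
    congr 1
    rw [hG']
    ring
  have h8 : X ^ e ≤ c * (y / 2) ^ ((1 - ε) * G) := by
    rw [Real.div_rpow hy0.le (by norm_num), h7]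
    have hC1p : 0 < C1 ^ G' := by positivity
    have h2p : (0 : ℝ) < 2 ^ ((1 - ε) * G) := by positivity
    rw [hK, div_mul_eq_mul_div, div_le_iff₀ hc] at hX3
    have h9 : c * (X ^ G' / C1 ^ G' / 2 ^ ((1 - ε) * G)) =
        (X ^ G' * c) / (C1 ^ G' * 2 ^ ((1 - ε) * G)) := by
      field_simp
    rw [h9, le_div_iff₀ (by positivity)]
    calc X ^ e * (C1 ^ G' * 2 ^ ((1 - ε) * G)) = C1 ^ G' * 2 ^ ((1 - ε) * G) * X ^ e := by ring
      _ ≤ _ := hX3
  calc X ^ e ≤ c * (y / 2) ^ ((1 - ε) * G) := h8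
    _ ≤ c * (s : ℝ) ^ G := mul_le_mul_of_nonneg_left h6 hc.le
    _ ≤ _ := hs3.trans h5

/-- residue classes of polynomials which give extensions without intermediate fields -/
def ResK (K : Type) [Field K] [NumberField K]
    (W : IntermediateField K (AlgebraicClosure K) → Prop) (n : ℕ) : Prop :=
  ∃ q : ℕ, 1 ≤ q ∧ ∃ f0 : (𝓞 K)[X], f0.Monic ∧ f0.natDegree = n ∧
  ∀ f : (𝓞 K)[X], f.Monic → (∃ g, f = f0 + C ((q : ℕ) : 𝓞 K) * g) → Irreducible f ∧
    ∀ α : AlgebraicClosure K, minpoly K α = f.map (algebraMap (𝓞 K) K) →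
      (∀ E : IntermediateField K (IntermediateField.adjoin K {α}), E = ⊥ ∨ E = ⊤) ∧
      W (IntermediateField.adjoin K {α})

lemma fin_FlK (K : Type) [Field K] [NumberField K] (n : ℕ) (hn : 2 ≤ n) :
    ∃ C : ℝ, 0 < C ∧ ∀ X : ℝ, 1 ≤ X →
      (FlK K n X).Finite ∧
        ((FlK K n X).ncard : ℝ) ≤ C * X ^ ((3 : ℝ) / 2 * Nat.clog 2 n + 1) := by
  have hcl : 0 < Nat.clog 2 n := Nat.clog_pos (by norm_num) hn
  obtain ⟨C, hC0, hC⟩ := Pool.Agent.L5helper40.NF.count_FS2 K n 2 (Nat.clog 2 n) (by norm_num)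
    (by omega) hcl (Nat.le_pow_clog (by norm_num) n) 1 one_pos
  refine ⟨C, hC0, fun X hX => ?_⟩
  have h := hC X hX
  norm_num at h
  norm_num
  exact h

theorem lower_allK (c : ℝ) (hc : c < 4 / 3) : ∀ᶠ n : ℕ in atTop,
    ∀ (K : Type) [Field K] [NumberField K],
    ∀ W : IntermediateField K (AlgebraicClosure K) → Prop, ResK K W n →
    ∀ᶠ X : ℝ in atTop, (FlK K n X).Finite ∧
      X ^ ((1 : ℝ) / 2 + c / n) ≤ ((FlwK K W n X).ncard : ℝ) := by
  set δ : ℝ := (2 - 3 * c / 2) with hδ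
  have hδ0 : 0 < δ := by rw [hδ]; linarith
  have e1 := clog_small (δ / 32) (by positivity)
  have e2 := clog_small (1 / 800) (by positivity)
  have e3 : ∀ᶠ n : ℕ in atTop, 16 / δ ≤ (n : ℝ) :=
    tendsto_natCast_atTop_atTop.eventually_ge_atTop _
  filter_upwards [e1, e2, e3, eventually_ge_atTop 1000] with n h1 h2 h3 hn K _ _ W hres
  obtain ⟨q, hq, f0, hf0, hf0n, hf⟩ := hres
  obtain ⟨d, hd⟩ : ∃ d : ℕ, d = finrank ℚ K := ⟨_, rfl⟩
  have hd1 : 1 ≤ d := by rw [hd]; exact Module.finrank_pos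
  have hd1' : (1 : ℝ) ≤ d := by exact_mod_cast hd1
  set r := Nat.clog 2 n with hr
  have hr2 : 2 ≤ r := by
    rw [hr]
    have : Nat.clog 2 4 ≤ Nat.clog 2 n := Nat.clog_mono_right 2 (by omega)
    have h4 : Nat.clog 2 4 = 2 := by
      rw [show (4 : ℕ) = 2 ^ 2 by norm_num, Nat.clog_pow 2 2 (by norm_num)]
    omega
  set S := 8 * r with hS
  set m := (n - 1) / 2 with hm
  set U := (m + 1) * (n - m) with hU
  have hnr : (1000 : ℝ) ≤ n := by exact_mod_cast hn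
  have hU1 : 4 * U ≤ (n + 1) ^ 2 := by
    have h4 : (m + 1) + (n - m) = n + 1 := by omega
    rw [← h4, hU]
    generalize m + 1 = a
    generalize n - m = b
    have h5 : (4 : ℤ) * (a * b) ≤ (a + b) ^ 2 := by nlinarith [sq_nonneg ((a : ℤ) - b)]
    exact_mod_cast h5
  have hU2 : n * (n + 2) ≤ 4 * U := by
    rcases (by omega : n = 2 * m + 1 ∨ n = 2 * m + 2) with h4 | h4
    · have h5 : n - m = m + 1 := by omega
      rw [hU, h5, h4]
      nlinarith
    · have h5 : n - m = m + 2 := by omega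
      rw [hU, h5, h4]
      nlinarith
  have hnn : n * n ≥ 1000 * n := Nat.mul_le_mul_right _ hn
  have hn1' : 4 * (n * (n - 1)) = 4 * (n * n) - 4 * n := by
    rw [Nat.mul_sub, Nat.mul_sub, mul_one]
  have hsq : (n + 1) ^ 2 = n * n + 2 * n + 1 := by ring
  have hUn : U ≤ n * (n - 1) := by omega
  have hSr : (S : ℝ) = 8 * r := by rw [hS]; push_cast; ring
  have hU1' : 4 * (U : ℝ) ≤ (n + 1) ^ 2 := by exact_mod_cast hU1
  have hU2' : (n : ℝ) * (n + 2) ≤ 4 * U := by exact_mod_cast hU2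
  have hN : U + 4 ≤ n * (n + 1) := by
    have h4 : n * (n + 1) = n * n + n := by ring
    omega
  have hdN : d * U + 4 ≤ d * (n * (n + 1)) := by
    calc d * U + 4 ≤ d * U + 4 * d := by omega
      _ = d * (U + 4) := by ring
      _ ≤ d * (n * (n + 1)) := Nat.mul_le_mul_left d hN
  set N1 := d * (n * (n + 1)) - d * U - 4 with hN1
  have hN1' : (N1 : ℝ) = d * (n * (n + 1)) - d * U - 4 := by
    rw [hN1, Nat.sub_sub, Nat.cast_sub hdN]
    push_cast
    ring
  have hN1d : (d : ℝ) * (n * (n + 1) - U - 4) ≤ N1 := by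
    rw [hN1']
    nlinarith
  have hSn : (S : ℝ) ≤ n / 100 := by rw [hSr]; linarith
  have hSδ : (S : ℝ) ≤ δ * n / 4 := by rw [hSr]; linarith
  have hP' : 2 * ((d : ℝ) * S) < N1 := by
    have h4 : 2 * (S : ℝ) < n * (n + 1) - U - 4 := by nlinarith
    have h5 : (d : ℝ) * (2 * S) < d * (n * (n + 1) - U - 4) :=
      mul_lt_mul_of_pos_left h4 (by linarith)
    linarith
  have hP : 2 * (d * S) < N1 := by exact_mod_cast hP'
  have hR : 4 * ((3 : ℝ) / 2 * r + 1) *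
      (d * ((∑ j ∈ Finset.range n, (j + S - 1) / S : ℕ) : ℝ)) + 2 * (d * n) < N1 := by
    have h4 := sum_ceil n S (by omega)
    have hr2' : (2 : ℝ) ≤ r := by exact_mod_cast hr2
    have h5 : 4 * ((3 : ℝ) / 2 * r + 1) ≤ S := by rw [hSr]; linarith
    have hS0 : (0 : ℝ) < S := by rw [hSr]; linarith
    have h6 : 4 * ((3 : ℝ) / 2 * r + 1) * ((∑ j ∈ Finset.range n, (j + S - 1) / S : ℕ) : ℝ) ≤
        S * (n ^ 2 / (2 * S) + n) := by
      apply mul_le_mul h5 h4 (by positivity) hS0.le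
    have h7 : (S : ℝ) * (n ^ 2 / (2 * S) + n) = n ^ 2 / 2 + S * n := by
      field_simp
    rw [h7] at h6
    have h8 : (S : ℝ) * n ≤ n / 100 * n := mul_le_mul_of_nonneg_right hSn (by positivity)
    have h9 : 4 * ((3 : ℝ) / 2 * r + 1) * ((∑ j ∈ Finset.range n, (j + S - 1) / S : ℕ) : ℝ) +
        2 * n < n * (n + 1) - U - 4 := by nlinarith
    have h10 := mul_lt_mul_of_pos_left h9 (by linarith : (0 : ℝ) < d)
    calc 4 * ((3 : ℝ) / 2 * r + 1) *
          (d * ((∑ j ∈ Finset.range n, (j + S - 1) / S : ℕ) : ℝ)) + 2 * (d * n)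
        = d * (4 * ((3 : ℝ) / 2 * r + 1) * ((∑ j ∈ Finset.range n, (j + S - 1) / S : ℕ) : ℝ) +
          2 * n) := by ring
      _ < d * (n * (n + 1) - U - 4) := h10
      _ ≤ N1 := hN1d
  obtain ⟨CC, -, hCC⟩ := fin_FlK K n (by omega)
  have hfinX : ∀ᶠ X : ℝ in atTop, (FlK K n X).Finite := by
    filter_upwards [eventually_ge_atTop 1] with X hX
    exact (hCC X hX).1
  refine hfinX.and ?_
  have hUd : d * U ≤ d * (n * (n - 1)) := Nat.mul_le_mul_left d hUn
  have hUlt : U < n * (n - 1) := by omega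
  have hUdlt : d * U < d * (n * (n - 1)) := Nat.mul_lt_mul_of_pos_left hUlt (by omega)
  have hlow := lower_tK K W n m q S N1 (by omega) (by omega) hq (by omega) f0 hf0
    hf0n hf _ (fin_FlK K n (by omega)) (by rw [← hd]) hUn (by rw [← hd]; exact hR)
    (by rw [← hd]; exact hP)
  rw [← hd, ← hU] at hlow
  obtain ⟨C1, c1, hC1, hc1, hev⟩ := hlow
  have hH0 : 0 < 2 * (d * (n * (n - 1))) - 2 * (d * U) := by omega
  refine to_XK (fun X => ((FlwK K W n X).ncard : ℝ)) ?_ C1 c1 hC1 hc1 _ _ hH0 hev _ ?_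
  · intro X Y hX hXY
    have hsub : FlwK K W n X ⊆ FlwK K W n Y := by
      rintro L ⟨hL1, hW, hL2, hL3⟩
      exact ⟨hL1, hW, hL2, hL3.trans hXY⟩
    exact_mod_cast Set.ncard_le_ncard hsub
      ((hCC Y (hX.trans hXY)).1.subset (FlwK_subset K W n _))
  · have hG : ((N1 - 2 * (d * S) : ℕ) : ℝ) = d * (n * (n + 1)) - d * U - 4 - 2 * (d * S) := by
      rw [Nat.cast_sub hP.le, hN1']
      push_cast
      ring
    have hH : ((2 * (d * (n * (n - 1))) - 2 * (d * U) : ℕ) : ℝ) =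
        d * (2 * (n * (n - 1)) - 2 * U) := by
      rw [Nat.cast_sub (by omega)]
      push_cast
      rw [Nat.cast_sub (by omega)]
      push_cast
      ring
    have hH0' : (0 : ℝ) < ((2 * (d * (n * (n - 1))) - 2 * (d * U) : ℕ) : ℝ) := by
      exact_mod_cast hH0
    rw [lt_div_iff₀ hH0', hG]
    rw [hH] at hH0' ⊢
    have hn0 : (0 : ℝ) < n := by linarith
    have hd0 : (0 : ℝ) < d := by linarith
    set H : ℝ := 2 * (n * (n - 1)) - 2 * (U : ℝ) with hHd
    have hHpos : 0 < H := by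
      by_contra hcon
      push Not at hcon
      nlinarith
    have h4 : (1 / 2 + c / n) * (d * H) = d * ((n * (n - 1) - U) + c * (H / n)) := by
      rw [hHd]
      field_simp
    rw [h4]
    have h5 : H / n ≤ 3 / 2 * n - 3 := by
      rw [div_le_iff₀ hn0, hHd]
      nlinarith
    have h6 : 0 < H / n := by positivity
    have h7 : 16 ≤ δ * n := by
      rw [div_le_iff₀ hδ0] at h3
      linarith
    have h8 : c * (H / n) ≤ max c 0 * (3 / 2 * n) := by
      calc c * (H / n) ≤ max c 0 * (H / n) := mul_le_mul_of_nonneg_right (le_max_left _ _) h6.le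
        _ ≤ max c 0 * (3 / 2 * n) :=
          mul_le_mul_of_nonneg_left (by linarith) (le_max_right _ _)
    have h9 : max c 0 * (3 / 2 * n) < 2 * n - 4 - 2 * S := by
      rcases le_total c 0 with h | h
      · rw [max_eq_right h]
        linarith
      · rw [max_eq_left h]
        rw [hδ] at h7 hSδ
        nlinarith
    have h10 : (n * (n - 1) - U) + c * (H / n) < n * (n + 1) - U - 4 - 2 * (S : ℝ) := by
      nlinarith
    have h11 := mul_lt_mul_of_pos_left h10 hd0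
    nlinarith

end Pool.Agent.L5helper9.Nk
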