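import Pool.Agent.L5helper9.NkJobs
import Pool.Agent.L5helper9.Nf6

/-!
# The family of polynomials over the integers of a number field
-/

set_option autoImplicit false

namespace Pool.Agent.L5helper9.Nk

open Filter Topology Polynomial NumberField Module Pool.Agent.L5helper9.Nf

lemma card_rootsK {K : Type} [Field K] [NumberField K] {p : ℕ} (hp : p.Prime)
    (ψ : 𝓞 K →+* ZMod (p ^ 2)) (f : (𝓞 K)[X]) (hf : f.Monic) :
    ((Finset.range p).filter fun r : ℕ => ev1 ψ (r : ℤ) f = 0).card ≤ f.natDegree := by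
  classical
  have : Fact p.Prime := ⟨hp⟩
  set χ : 𝓞 K →+* ZMod p := (ZMod.castHom (dvd_pow_self p two_ne_zero) (ZMod p)).comp ψ with hχ
  have hev : ∀ r : ℕ, ev1 ψ (r : ℤ) f = (f.map χ).eval (r : ZMod p) := by
    intro r
    unfold ev1 ev
    rw [hom_eval₂, eval_map, map_intCast, Int.cast_natCast]
  set B := f.map χ with hB
  have hB0 : B ≠ 0 := (hf.map χ).ne_zero
  calc ((Finset.range p).filter fun r : ℕ => ev1 ψ (r : ℤ) f = 0).card
      = (((Finset.range p).filter fun r : ℕ => ev1 ψ (r : ℤ) f = 0).image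
          fun r : ℕ => (r : ZMod p)).card := by
        rw [Finset.card_image_of_injOn]
        intro a ha b hb hab
        rw [Finset.mem_coe, Finset.mem_filter, Finset.mem_range] at ha hb
        have h1 := (ZMod.natCast_eq_natCast_iff' a b p).1 hab
        rwa [Nat.mod_eq_of_lt ha.1, Nat.mod_eq_of_lt hb.1] at h1
    _ ≤ B.roots.toFinset.card := by
        apply Finset.card_le_card
        intro x hx
        rw [Finset.mem_image] at hx
        obtain ⟨r, hr, rfl⟩ := hx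
        rw [Finset.mem_filter, hev] at hr
        rw [Multiset.mem_toFinset, mem_roots hB0]
        exact hr.2
    _ ≤ B.natDegree := (Multiset.toFinset_card_le _).trans (card_roots' _)
    _ ≤ f.natDegree := natDegree_map_le

theorem familyK (K : Type) [Field K] [NumberField K] (n m q : ℕ) (hm1 : 1 ≤ m)
    (hm : 2 * m + 1 ≤ n) (hq : 1 ≤ q) (f0 : (𝓞 K)[X]) (hf0 : f0.Monic) (hf0n : f0.natDegree = n)
    (hirr : ∀ f : (𝓞 K)[X], f.Monic → (∃ g, f = f0 + C ((q : ℕ) : 𝓞 K) * g) → Irreducible f) :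
    ∃ M : ℕ, 1 ≤ M ∧ ∀ ε : ℝ, 0 < ε → ε < 1 → ∀ᶠ t : ℕ in atTop, ∃ s : ℕ,
      (t : ℝ) ^ (1 - ε) ≤ s ∧ s ≤ t ∧ ∃ F : Finset (𝓞 K)[X],
      s ^ (finrank ℚ K * (n * (n + 1)) - finrank ℚ K * ((m + 1) * (n - m)) - 4) ≤ F.card ∧
      ∀ f ∈ F, f.Monic ∧ f.natDegree = n ∧
        (∀ i < n, house (f.coeff i : K) * (s : ℝ) ^ (2 * i) ≤ M * (s : ℝ) ^ (2 * n)) ∧
        (∃ g, f = f0 + C ((q : ℕ) : 𝓞 K) * g) ∧
        ∃ (p : ℕ) (ψ : 𝓞 K →+* ZMod (p ^ 2)) (r : ℤ), p.Prime ∧
          s ^ (finrank ℚ K * ((m + 1) * (n - m))) ≤ p ∧ ev ψ r f = 0 ∧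
          ev1 ψ r f.derivative = 0 := by
  classical
  set d := finrank ℚ K with hd
  have hd1 : 1 ≤ d := Module.finrank_pos
  obtain ⟨κ, C2, hκ, hC2, hgood⟩ := goodK K m hm1
  set U := (m + 1) * (n - m) with hU
  have hUn : n ≤ U := by
    have h1 : m ≤ m * (n - m) := Nat.le_mul_of_pos_right m (by omega)
    have h2 : (m + 1) * (n - m) = m * (n - m) + (n - m) := by ring
    omega
  have hdU : 1 ≤ d * U := Nat.mul_pos (by omega) (by omega)
  set C0 := 2 * C2 with hC0
  have hJ : (1 : ℝ) ≤ κ * ((3 * C0 : ℕ) : ℝ) := by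
    have : (1 : ℝ) ≤ ((3 * C0 : ℕ) : ℝ) := by exact_mod_cast (by omega)
    nlinarith
  obtain ⟨M, hM1, hfam1⟩ := fam1K K n m q hm1 hm hq f0 hf0 hf0n _ hJ
  obtain ⟨CD, hCD1, hff⟩ := field_factsK K n (by omega)
  simp only [← hd] at hgood hfam1 hff
  refine ⟨M, hM1, ?_⟩
  intro ε hε0 hε1
  set k0 := 2 * (d * (n * (n - 1))) with hk0
  set K0 := n * (k0 + 1) with hK0
  -- eventually
  have hpow : Tendsto (fun t : ℕ => (t : ℝ) ^ (1 - ε)) atTop atTop :=
    (tendsto_rpow_atTop (by linarith)).comp tendsto_natCast_atTop_atTop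
  have e1 := degree_one_primes K (d * U) C0 hdU (by omega) ε hε0
  have e3 := hpow.eventually_ge_atTop ((54 * C0 * K0 + q + 2 : ℕ) : ℝ)
  have e4 := hpow.eventually_gt_atTop (CD * (n * M : ℝ) ^ (d * (n * (n - 1))))
  filter_upwards [e1, e3, e4] with t h1 h3 h4
  obtain ⟨s, hs1, hs2, Pr, hPrcard, hPr⟩ := h1
  refine ⟨s, hs1, hs2, ?_⟩
  have h3' : 54 * C0 * K0 + q + 2 ≤ s := by exact_mod_cast h3.trans hs1
  have h4' : CD * (n * M : ℝ) ^ (d * (n * (n - 1))) < s := lt_of_lt_of_le h4 hs1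
  set Y := C0 * s ^ (d * U) with hYdef
  have htU : s ^ (d * n) ≤ s ^ (d * U) := Nat.pow_le_pow_right (by omega) (Nat.mul_le_mul_left d hUn)
  have htt : s ≤ s ^ (d * U) := Nat.le_self_pow (by omega) s
  have hC2Y : C2 * s ^ (d * U) + C2 * s ^ (d * U) = Y := by rw [hYdef, hC0]; ring
  have hsY : s ^ (d * U) ≤ Y := Nat.le_mul_of_pos_left _ (by omega)
  have hC2n : C2 * s ^ (d * n) ≤ C2 * s ^ (d * U) := Nat.mul_le_mul_left _ htU
  have hC2p : 0 < C2 * s ^ (d * U) := Nat.mul_pos (by omega) (Nat.pow_pos (by omega))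
  -- for every prime: the good residues and the families
  have hch : ∀ p ∈ Pr, ∃ (Gd : Finset ℕ) (F : ℕ → Finset (𝓞 K)[X]), Y ≤ 2 * Gd.card ∧
      (∀ r ∈ Gd, s ^ (d * (n * (n + 1))) ≤ (F r).card * p ^ 3 ∧
        ∀ f ∈ F r, f.Monic ∧ f.natDegree = n ∧
          (∀ i < n, house (f.coeff i : K) * (s : ℝ) ^ (2 * i) ≤ M * (s : ℝ) ^ (2 * n)) ∧
          (∃ g, f = f0 + C ((q : ℕ) : 𝓞 K) * g) ∧
          ∃ ψ : 𝓞 K →+* ZMod (p ^ 2), ev ψ (r : ℤ) f = 0 ∧ ev1 ψ (r : ℤ) f.derivative = 0) ∧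
      ∀ f : (𝓞 K)[X], f.Monic → f.natDegree = n → (Gd.filter fun r => f ∈ F r).card ≤ n := by
    intro p hp
    obtain ⟨hpp, hpY, hpY', ⟨ψ⟩⟩ := hPr p hp
    obtain ⟨Gd, hG1, hG2, hG3⟩ := hgood s n p hpp hm (by omega) (by omega) ψ
    rw [← hU] at hG2 hG3
    have hcop : Nat.Coprime q p := by
      rw [Nat.coprime_comm, Nat.Prime.coprime_iff_not_dvd hpp]
      exact Nat.not_dvd_of_pos_of_lt (by omega) (by omega)
    have hfam : ∀ r ∈ Gd, ∃ F : Finset (𝓞 K)[X],
        s ^ (d * (n * (n + 1))) ≤ F.card * p ^ 3 ∧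
        ∀ f ∈ F, f.Monic ∧ f.natDegree = n ∧
          (∀ i < n, house (f.coeff i : K) * (s : ℝ) ^ (2 * i) ≤ M * (s : ℝ) ^ (2 * n)) ∧
          (∃ g, f = f0 + C ((q : ℕ) : 𝓞 K) * g) ∧ ev ψ (r : ℤ) f = 0 ∧
          ev1 ψ (r : ℤ) f.derivative = 0 := by
      intro r hr
      exact hfam1 s p ψ (r : ℤ) hpp (by omega) hcop (hG3 r hr (3 * C0) (by
        calc p ≤ 3 * (C0 * s ^ (d * U)) := hpY'
          _ = 3 * C0 * s ^ (d * U) := by ring))
    choose! F hF1 hF2 using hfam
    refine ⟨Gd, F, by omega, fun r hr => ⟨hF1 r hr, fun f hf => ?_⟩, ?_⟩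
    · obtain ⟨h5, h6, h7, h8, h9, h10⟩ := hF2 r hr f hf
      exact ⟨h5, h6, h7, h8, ψ, h9, h10⟩
    · intro f hfm hfn
      have hsub : (Gd.filter fun r => f ∈ F r) ⊆
          (Finset.range p).filter fun r : ℕ => ev1 ψ (r : ℤ) f = 0 := by
        intro r hr
        rw [Finset.mem_filter] at hr
        refine Finset.mem_filter.2 ⟨hG1 hr.1, ?_⟩
        unfold ev1
        rw [(hF2 r hr.1 f hr.2).2.2.2.2.1, map_zero]
      exact (Finset.card_le_card hsub).trans ((card_rootsK hpp ψ f hfm).trans hfn.le)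
  choose! Gd F hGdcard hFr hFcnt using hch
  set FF : Finset (𝓞 K)[X] := Pr.biUnion fun p => (Gd p).biUnion fun r => F p r with hFF
  have hFFmem : ∀ f ∈ FF, ∃ p ∈ Pr, ∃ r ∈ Gd p, f ∈ F p r := by
    intro f hf
    rw [hFF, Finset.mem_biUnion] at hf
    obtain ⟨p, hp, hf⟩ := hf
    rw [Finset.mem_biUnion] at hf
    obtain ⟨r, hr, hf⟩ := hf
    exact ⟨p, hp, r, hr, hf⟩
  -- the double counting
  have hcount : ∑ p ∈ Pr, ∑ r ∈ Gd p, (F p r).card ≤ K0 * FF.card := by
    have h5 : ∑ p ∈ Pr, ∑ r ∈ Gd p, (F p r).card =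
        ∑ f ∈ FF, ∑ p ∈ Pr, ((Gd p).filter fun r => f ∈ F p r).card := by
      rw [Finset.sum_comm]
      apply Finset.sum_congr rfl
      intro p hp
      have h6 : ∀ r ∈ Gd p, (F p r).card = ∑ f ∈ FF, if f ∈ F p r then 1 else 0 := by
        intro r hr
        rw [← Finset.sum_filter, Finset.sum_const, smul_eq_mul, mul_one]
        congr 1
        ext f
        rw [Finset.mem_filter]
        constructor
        · intro hf
          refine ⟨?_, hf⟩
          rw [hFF, Finset.mem_biUnion]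
          refine ⟨p, hp, ?_⟩
          rw [Finset.mem_biUnion]
          exact ⟨r, hr, hf⟩
        · exact fun h => h.2
      rw [Finset.sum_congr rfl h6, Finset.sum_comm]
      apply Finset.sum_congr rfl
      intro f _
      rw [← Finset.sum_filter, Finset.sum_const, smul_eq_mul, mul_one]
    rw [h5]
    calc ∑ f ∈ FF, ∑ p ∈ Pr, ((Gd p).filter fun r => f ∈ F p r).card ≤ ∑ _f ∈ FF, K0 := by
          apply Finset.sum_le_sum
          intro f hf
          obtain ⟨p0, hp0, r0, hr0, hf0'⟩ := hFFmem f hf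
          obtain ⟨hfm, hfn, hfc, hfq, -⟩ := (hFr p0 hp0 r0 hr0).2 f hf0'
          obtain ⟨α, -, -, -, -, -, D, hD0, hDb, hDP⟩ := hff M s (by omega) hM1 f hfm hfn
            (hirr f hfm hfq) hfc
          have hDt : |D| < (s : ℤ) ^ (k0 + 1) := by
            have h7 : (|D| : ℝ) < (s : ℝ) ^ (k0 + 1) := by
              calc (|D| : ℝ) ≤ CD * (n * M * s ^ 2) ^ (d * (n * (n - 1))) := hDb
                _ = (CD * (n * M : ℝ) ^ (d * (n * (n - 1)))) * (s : ℝ) ^ k0 := by
                  rw [mul_pow ((n : ℝ) * M), ← pow_mul, ← mul_assoc, hk0]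
                _ < s * (s : ℝ) ^ k0 := by
                  apply mul_lt_mul_of_pos_right h4'
                  have : (0 : ℝ) < s := by exact_mod_cast (by omega : 0 < s)
                  positivity
                _ = (s : ℝ) ^ (k0 + 1) := by ring
            exact_mod_cast h7
          set Q : Finset ℕ := Pr.filter fun p : ℕ => (p : ℤ) ∣ D with hQ
          have hQc : Q.card ≤ k0 := by
            apply card_primes_dvd D hD0 Q _ hDt
            intro p hp
            rw [hQ, Finset.mem_filter] at hp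
            obtain ⟨hpp, hpY, -, -⟩ := hPr p hp.1
            exact ⟨hpp, by omega, hp.2⟩
          calc ∑ p ∈ Pr, ((Gd p).filter fun r => f ∈ F p r).card
              ≤ ∑ p ∈ Pr, if (p : ℤ) ∣ D then n else 0 := by
                apply Finset.sum_le_sum
                intro p hp
                split_ifs with h8
                · exact hFcnt p hp f hfm hfn
                · rw [Nat.le_zero, Finset.card_eq_zero, Finset.filter_eq_empty_iff]
                  intro r hr hfr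
                  apply h8
                  obtain ⟨-, -, -, -, ψ, he1, he2⟩ := (hFr p hp r hr).2 f hfr
                  exact (dvd_pow_self _ two_ne_zero).trans (hDP p ψ r (hPr p hp).1 he1 he2).1
            _ = ∑ _p ∈ Q, n := by rw [hQ, Finset.sum_filter]
            _ = Q.card * n := by rw [Finset.sum_const, smul_eq_mul]
            _ ≤ k0 * n := Nat.mul_le_mul_right _ hQc
            _ ≤ K0 := by
              rw [hK0, mul_comm]
              exact Nat.mul_le_mul_left _ (by omega)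
      _ = K0 * FF.card := by rw [Finset.sum_const, smul_eq_mul, mul_comm]
  -- lower bound
  have hlow : Y * Y * s ^ (d * (n * (n + 1))) ≤ 2 * s * (27 * Y ^ 3 * (K0 * FF.card)) := by
    have h5 : ∀ p ∈ Pr, Y * s ^ (d * (n * (n + 1))) ≤
        2 * (27 * Y ^ 3 * ∑ r ∈ Gd p, (F p r).card) := by
      intro p hp
      calc Y * s ^ (d * (n * (n + 1))) ≤ 2 * (Gd p).card * s ^ (d * (n * (n + 1))) :=
            Nat.mul_le_mul_right _ (hGdcard p hp)
        _ = 2 * ∑ _r ∈ Gd p, s ^ (d * (n * (n + 1))) := by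
          rw [Finset.sum_const, smul_eq_mul]
          ring
        _ ≤ 2 * ∑ r ∈ Gd p, 27 * Y ^ 3 * (F p r).card := by
          apply Nat.mul_le_mul_left
          apply Finset.sum_le_sum
          intro r hr
          calc s ^ (d * (n * (n + 1))) ≤ (F p r).card * p ^ 3 := (hFr p hp r hr).1
            _ ≤ (F p r).card * (3 * Y) ^ 3 :=
              Nat.mul_le_mul_left _ (Nat.pow_le_pow_left (hPr p hp).2.2.1 3)
            _ = _ := by ring
        _ = _ := by rw [← Finset.mul_sum]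
    calc Y * Y * s ^ (d * (n * (n + 1))) = Y * (Y * s ^ (d * (n * (n + 1)))) := by ring
      _ ≤ (Pr.card * s) * (Y * s ^ (d * (n * (n + 1)))) := Nat.mul_le_mul_right _ hPrcard
      _ = s * ∑ _p ∈ Pr, Y * s ^ (d * (n * (n + 1))) := by
        rw [Finset.sum_const, smul_eq_mul]
        ring
      _ ≤ s * ∑ p ∈ Pr, 2 * (27 * Y ^ 3 * ∑ r ∈ Gd p, (F p r).card) :=
        Nat.mul_le_mul_left _ (Finset.sum_le_sum h5)
      _ = 2 * s * (27 * Y ^ 3 * ∑ p ∈ Pr, ∑ r ∈ Gd p, (F p r).card) := by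
        rw [← Finset.mul_sum, ← Finset.mul_sum]
        ring
      _ ≤ 2 * s * (27 * Y ^ 3 * (K0 * FF.card)) :=
        Nat.mul_le_mul_left _ (Nat.mul_le_mul_left _ hcount)
  have hY0 : 0 < Y := by omega
  have hlow2 : s ^ (d * (n * (n + 1))) ≤ s ^ (d * U + 4) * FF.card := by
    have h5 : Y * Y * s ^ (d * (n * (n + 1))) ≤ Y * Y * (54 * s * Y * K0 * FF.card) := by
      calc _ ≤ _ := hlow
        _ = _ := by ring
    have h6 := Nat.le_of_mul_le_mul_left h5 (Nat.mul_pos hY0 hY0)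
    calc s ^ (d * (n * (n + 1))) ≤ 54 * s * Y * K0 * FF.card := h6
      _ = (54 * C0 * K0) * (s ^ (d * U) * s) * FF.card := by rw [hYdef]; ring
      _ ≤ s ^ 3 * (s ^ (d * U) * s) * FF.card := by
        apply Nat.mul_le_mul_right
        apply Nat.mul_le_mul_right
        exact (by omega : 54 * C0 * K0 ≤ s).trans (Nat.le_self_pow (by norm_num) s)
      _ = _ := by ring
  refine ⟨FF, ?_, ?_⟩
  · have hFF0 : 1 ≤ FF.card := by
      by_contra hcon
      have : FF.card = 0 := by omega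
      rw [this, mul_zero] at hlow2
      have : 0 < s ^ (d * (n * (n + 1))) := Nat.pow_pos (by omega)
      omega
    rcases le_total (d * U + 4) (d * (n * (n + 1))) with h | h
    · have h5 : s ^ (d * (n * (n + 1))) = s ^ (d * U + 4) * s ^ (d * (n * (n + 1)) - d * U - 4) := by
        rw [← pow_add]
        congr 1
        omega
      rw [h5] at hlow2
      exact Nat.le_of_mul_le_mul_left hlow2 (Nat.pow_pos (by omega))
    · have h5 : d * (n * (n + 1)) - d * U - 4 = 0 := by omega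
      rw [h5, pow_zero]
      exact hFF0
  · intro f hf
    obtain ⟨p, hp, r, hr, hfF⟩ := hFFmem f hf
    obtain ⟨hfm, hfn, hfc, hfq, ψ, he1, he2⟩ := (hFr p hp r hr).2 f hfF
    obtain ⟨hpp, hpY, -, -⟩ := hPr p hp
    exact ⟨hfm, hfn, hfc, hfq, p, ψ, r, hpp, by omega, he1, he2⟩

end Pool.Agent.L5helper9.Nk
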