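import Pool.Agent.L5helper9.Nk6
import Pool.Agent.L5helper9.Nf9

/-!
# Many extensions along a sequence of bounds
-/

set_option autoImplicit false

namespace Pool.Agent.L5helper9.Nk

open Filter Topology Polynomial Module NumberField Pool.Agent.L5helper9.Nf

/-- the extensions of degree `n` with discriminant at most `X` -/
def FlK (K : Type) [Field K] [NumberField K] (n : ℕ) (X : ℝ) :
    Set (IntermediateField K (AlgebraicClosure K)) :=
  {L | finrank K L = n ∧ ∃ h : NumberField L, ((|@NumberField.discr L _ h| : ℤ) : ℝ) ≤ X}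

/-- the extensions of degree `n` with discriminant at most `X` and a property `W` -/
def FlwK (K : Type) [Field K] [NumberField K]
    (W : IntermediateField K (AlgebraicClosure K) → Prop) (n : ℕ) (X : ℝ) :
    Set (IntermediateField K (AlgebraicClosure K)) :=
  {L | finrank K L = n ∧ W L ∧ ∃ h : NumberField L, ((|@NumberField.discr L _ h| : ℤ) : ℝ) ≤ X}

lemma FlwK_subset (K : Type) [Field K] [NumberField K]
    (W : IntermediateField K (AlgebraicClosure K) → Prop) (n : ℕ) (X : ℝ) :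
    FlwK K W n X ⊆ FlK K n X := fun _ hL => ⟨hL.1, hL.2.2⟩

theorem lower_tK (K : Type) [Field K] [NumberField K]
    (W : IntermediateField K (AlgebraicClosure K) → Prop) (n m q S N1 : ℕ) (hm1 : 1 ≤ m)
    (hm : 2 * m + 1 ≤ n) (hq : 1 ≤ q) (hS : 1 ≤ S)
    (f0 : (𝓞 K)[X]) (hf0 : f0.Monic) (hf0n : f0.natDegree = n)
    (hres : ∀ f : (𝓞 K)[X], f.Monic → (∃ g, f = f0 + C ((q : ℕ) : 𝓞 K) * g) → Irreducible f ∧
      ∀ α : AlgebraicClosure K, minpoly K α = f.map (algebraMap (𝓞 K) K) →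
        (∀ E : IntermediateField K (IntermediateField.adjoin K {α}), E = ⊥ ∨ E = ⊤) ∧
        W (IntermediateField.adjoin K {α}))
    (cr : ℝ) (hfin : ∃ C : ℝ, 0 < C ∧ ∀ X : ℝ, 1 ≤ X →
      (FlK K n X).Finite ∧ ((FlK K n X).ncard : ℝ) ≤ C * X ^ cr)
    (hN1 : N1 = finrank ℚ K * (n * (n + 1)) - finrank ℚ K * ((m + 1) * (n - m)) - 4)
    (hU : (m + 1) * (n - m) ≤ n * (n - 1))
    (hR : 4 * cr * (finrank ℚ K * (∑ j ∈ Finset.range n, (j + S - 1) / S : ℕ) : ℝ) +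
      2 * (finrank ℚ K * n) < N1)
    (hP : 2 * (finrank ℚ K * S) < N1) :
    ∃ C1 c : ℝ, 1 ≤ C1 ∧ 0 < c ∧ ∀ ε : ℝ, 0 < ε → ε < 1 → ∀ᶠ t : ℕ in atTop, ∃ s : ℕ,
      (t : ℝ) ^ (1 - ε) ≤ s ∧ s ≤ t ∧ c * (s : ℝ) ^ (N1 - 2 * (finrank ℚ K * S)) ≤
      ((FlwK K W n (C1 * (s : ℝ) ^ (2 * (finrank ℚ K * (n * (n - 1))) -
        2 * (finrank ℚ K * ((m + 1) * (n - m)))))).ncard : ℝ) := by
  classical
  obtain ⟨M, hM1, hfam⟩ := familyK K n m q hm1 hm hq f0 hf0 hf0n (fun f hf h => (hres f hf h).1)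
  obtain ⟨Cm, hCm1, hCm⟩ := mult_boundK K n S (by omega) hS
  obtain ⟨CD, hCD1, hff⟩ := field_factsK K n (by omega)
  set d : ℕ := finrank ℚ K with hd
  have hd1 : 1 ≤ d := Module.finrank_pos
  set Sg : ℕ := ∑ j ∈ Finset.range n, (j + S - 1) / S with hSg
  set U := (m + 1) * (n - m) with hUdef
  obtain ⟨CF, hCF0, hCF⟩ := hfin
  have hn1 : (1 : ℝ) ≤ n := by exact_mod_cast (by omega : 1 ≤ n)
  have hM1' : (1 : ℝ) ≤ M := by exact_mod_cast hM1
  have hnM : (1 : ℝ) ≤ n * M := by nlinarith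
  set C1 : ℝ := CD * (n * M) ^ (d * (n * (n - 1))) with hC1
  have hC11 : 1 ≤ C1 := by
    have : (1 : ℝ) ≤ ((n : ℝ) * M) ^ (d * (n * (n - 1))) := one_le_pow₀ hnM
    rw [hC1]
    nlinarith
  set Q : ℝ := 3 * (n * M) with hQ
  have hQ1 : 1 ≤ Q := by rw [hQ]; linarith
  set K1 : ℝ := CF * ((Cm * (n * M) ^ (2 * (d * Sg))) ^ cr) * Q ^ (d * n) with hK1
  have hd1' := dominate K1 (4 * (d * Sg) * cr + 2 * (d * n)) N1 (by
    calc (4 * (d * Sg) * cr + 2 * (d * n) : ℝ) = 4 * cr * (d * Sg) + 2 * (d * n) := by ring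
      _ < N1 := hR)
  refine ⟨C1, 1 / (2 * Q ^ (d * S)), hC11, by positivity, ?_⟩
  intro ε hε0 hε1
  have hpow : Tendsto (fun t : ℕ => (t : ℝ) ^ (1 - ε)) atTop atTop :=
    (tendsto_rpow_atTop (by linarith)).comp tendsto_natCast_atTop_atTop
  obtain ⟨s0, hs0⟩ := eventually_atTop.1 hd1'
  have e1 := hfam ε hε0 hε1
  have e2 := hpow.eventually_ge_atTop ((s0 + 1 : ℕ) : ℝ)
  filter_upwards [e1, e2] with t hFt ht2
  obtain ⟨s, hs1, hs2, F, hFcard, hF⟩ := hFt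
  refine ⟨s, hs1, hs2, ?_⟩
  have hss : s0 + 1 ≤ s := by exact_mod_cast ht2.trans hs1
  have hds := hs0 s (by omega)
  have hs' : (1 : ℝ) ≤ s := by exact_mod_cast (by omega : 1 ≤ s)
  have hs0' : (0 : ℝ) < s := by linarith
  set B : ℝ := n * M * s ^ 2 with hB
  have hst2 : (1 : ℝ) ≤ (s : ℝ) ^ 2 := one_le_pow₀ hs'
  have hB1 : 1 ≤ B := by rw [hB]; nlinarith
  set H := 2 * (d * (n * (n - 1))) - 2 * (d * U) with hH
  have hUd : d * U ≤ d * (n * (n - 1)) := Nat.mul_le_mul_left d hU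
  -- the fields
  have hffs : ∀ f ∈ F, ∃ α : AlgebraicClosure K, minpoly K α = f.map (algebraMap (𝓞 K) K) ∧
      (IsIntegral ℤ α ∧ finrank K (IntermediateField.adjoin K {α}) = n ∧
        (∀ φ : IntermediateField.adjoin K {α} →+* ℂ,
          ‖φ (IntermediateField.AdjoinSimple.gen K α)‖ ≤ B) ∧
        ∀ E : IntermediateField K (IntermediateField.adjoin K {α}), E = ⊥ ∨ E = ⊤) ∧
      IntermediateField.adjoin K {α} ∈ FlwK K W n (C1 * (s : ℝ) ^ H) := by
    intro f hf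
    obtain ⟨hfm, hfn, hfc, hfq, p, ψ, r, hpp, hP1, hP2, hP3⟩ := hF f hf
    obtain ⟨hirr, hpr⟩ := hres f hfm hfq
    obtain ⟨α, -, hα1, hα2, hα3, hα4, D, hD0, hDb, hDP⟩ := hff M s (by omega) hM1 f hfm hfn hirr hfc
    refine ⟨α, hα1, ⟨hα2, hα3, hα4, (hpr α hα1).1⟩, hα3, (hpr α hα1).2, ?_⟩
    have hfd : FiniteDimensional K (IntermediateField.adjoin K {α}) :=
      FiniteDimensional.of_finrank_pos (by rw [hα3]; omega)
    have hNF : NumberField (IntermediateField.adjoin K {α}) := NumberField.of_module_finite K _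
    refine ⟨hNF, ?_⟩
    have h5 := (hDP p ψ r hpp hP2 hP3).2 hNF
    have h6 : (((|@NumberField.discr (IntermediateField.adjoin K {α}) _ hNF| : ℤ) : ℝ)) *
        (p : ℝ) ^ 2 ≤ (|D| : ℝ) := by exact_mod_cast h5
    have h7 : ((s : ℝ) ^ (d * U)) ^ 2 ≤ (p : ℝ) ^ 2 := by
      have : (s : ℝ) ^ (d * U) ≤ (p : ℝ) := by exact_mod_cast hP1
      exact pow_le_pow_left₀ (by positivity) this 2
    have h8 : CD * B ^ (d * (n * (n - 1))) ≤ (C1 * (s : ℝ) ^ H) * ((s : ℝ) ^ (d * U)) ^ 2 := by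
      have h9 : (s : ℝ) ^ H * ((s : ℝ) ^ (d * U)) ^ 2 = (s : ℝ) ^ (2 * (d * (n * (n - 1)))) := by
        rw [← pow_mul, ← pow_add]
        congr 1
        omega
      rw [mul_assoc, h9, hC1, hB, mul_pow ((n : ℝ) * M), ← mul_assoc, ← pow_mul]
    have h9 : (0 : ℝ) ≤ ((|@NumberField.discr (IntermediateField.adjoin K {α}) _ hNF| : ℤ) : ℝ) := by
      exact_mod_cast abs_nonneg _
    have h10 : (((|@NumberField.discr (IntermediateField.adjoin K {α}) _ hNF| : ℤ) : ℝ)) *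
        ((s : ℝ) ^ (d * U)) ^ 2 ≤ (C1 * (s : ℝ) ^ H) * ((s : ℝ) ^ (d * U)) ^ 2 := by
      calc _ ≤ (((|@NumberField.discr (IntermediateField.adjoin K {α}) _ hNF| : ℤ) : ℝ)) *
            (p : ℝ) ^ 2 := mul_le_mul_of_nonneg_left h7 h9
        _ ≤ _ := h6.trans (hDb.trans h8)
    exact le_of_mul_le_mul_right h10 (by positivity)
  choose! α hα1 hα2 hα3 using hffs
  have hinj : Set.InjOn α F := by
    intro f hf g hg hfg
    have h5 : f.map (algebraMap (𝓞 K) K) = g.map (algebraMap (𝓞 K) K) := by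
      rw [← hα1 f hf, ← hα1 g hg, hfg]
    exact Polynomial.map_injective _ (FaithfulSMul.algebraMap_injective (𝓞 K) K) h5
  set A := F.image α with hA
  have hAcard : A.card = F.card := Finset.card_image_of_injOn hinj
  -- rich fields
  set Xr : ℝ := Cm * B ^ (2 * (d * Sg)) with hXr
  have hXr1 : 1 ≤ Xr := by
    have h6 : 1 ≤ B ^ (2 * (d * Sg)) := one_le_pow₀ hB1
    rw [hXr]
    nlinarith
  obtain ⟨hRfin, hRcard⟩ := hCF Xr hXr1
  have hmb := hCm B hB1 A (by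
    intro x hx
    rw [hA, Finset.mem_image] at hx
    obtain ⟨f, hf, rfl⟩ := hx
    exact hα2 f hf) hRfin.toFinset (by
    intro L hL1 hL2
    rw [Set.Finite.mem_toFinset]
    exact ⟨hL1, hL2⟩)
  rw [← Set.ncard_eq_toFinset_card _ hRfin, hAcard] at hmb
  -- bounds for the terms
  have hBQ' : 1 + 2 * B ≤ Q * (s : ℝ) ^ 2 := by
    rw [hQ, hB]
    nlinarith
  have hpowk : ∀ k : ℕ, (1 + 2 * B) ^ k ≤ Q ^ k * (s : ℝ) ^ (2 * k) := by
    intro k
    calc (1 + 2 * B) ^ k ≤ (Q * (s : ℝ) ^ 2) ^ k := pow_le_pow_left₀ (by positivity) hBQ' k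
      _ = _ := by rw [mul_pow, ← pow_mul]
  have hT1 : ((FlK K n Xr).ncard : ℝ) * (1 + 2 * B) ^ (d * n) ≤ (s : ℝ) ^ N1 / 4 := by
    calc ((FlK K n Xr).ncard : ℝ) * (1 + 2 * B) ^ (d * n)
        ≤ (CF * Xr ^ cr) * (Q ^ (d * n) * (s : ℝ) ^ (2 * (d * n))) := by
          apply mul_le_mul hRcard (hpowk _) (by positivity)
          have : 0 < Xr := by linarith
          positivity
      _ = K1 * (s : ℝ) ^ (4 * (d * Sg) * cr + 2 * (d * n) : ℝ) := by
          have h5 : Xr = (Cm * (n * M) ^ (2 * (d * Sg))) * (s : ℝ) ^ (4 * (d * Sg)) := by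
            rw [hXr, hB, mul_pow ((n : ℝ) * M), ← pow_mul]
            ring_nf
          have hCm0 : 0 < Cm := by linarith
          have h6 : Xr ^ cr = (Cm * (n * M) ^ (2 * (d * Sg))) ^ cr *
              (s : ℝ) ^ (4 * (d * Sg) * cr : ℝ) := by
            rw [h5, Real.mul_rpow (by positivity) (by positivity)]
            congr 1
            rw [← Real.rpow_natCast, ← Real.rpow_mul hs0'.le]
            push_cast
            ring_nf
          have h7 : (s : ℝ) ^ (4 * (d * Sg) * cr + 2 * (d * n) : ℝ) =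
              (s : ℝ) ^ (4 * (d * Sg) * cr : ℝ) * (s : ℝ) ^ (2 * (d * n)) := by
            rw [Real.rpow_add hs0', ← Real.rpow_natCast (s : ℝ) (2 * (d * n))]
            push_cast
            ring_nf
          rw [h6, h7, hK1]
          ring
      _ ≤ (s : ℝ) ^ (N1 : ℝ) / 4 := hds
      _ = _ := by rw [Real.rpow_natCast]
  set T := A.image fun α => IntermediateField.adjoin K {α} with hT
  have hXt1 : (1 : ℝ) ≤ C1 * (s : ℝ) ^ H := by
    have : (1 : ℝ) ≤ (s : ℝ) ^ H := one_le_pow₀ hs'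
    nlinarith
  have hTcard : (T.card : ℝ) ≤ ((FlwK K W n (C1 * (s : ℝ) ^ H)).ncard : ℝ) := by
    have h5 : (T : Set (IntermediateField K (AlgebraicClosure K))) ⊆
        FlwK K W n (C1 * (s : ℝ) ^ H) := by
      intro L hL
      rw [Finset.mem_coe, hT, Finset.mem_image] at hL
      obtain ⟨x, hx, rfl⟩ := hL
      rw [hA, Finset.mem_image] at hx
      obtain ⟨f, hf, rfl⟩ := hx
      exact hα3 f hf
    have h6 := Set.ncard_le_ncard h5 ((hCF _ hXt1).1.subset (FlwK_subset K W n _))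
    rw [Set.ncard_coe_finset] at h6
    exact_mod_cast h6
  refine le_trans ?_ hTcard
  have hFc : (s : ℝ) ^ N1 ≤ F.card := by
    rw [← hN1] at hFcard
    exact_mod_cast hFcard
  have hsN : (0 : ℝ) < (s : ℝ) ^ N1 := by positivity
  have key : ∀ a b c e g : ℝ, 0 < a → a ≤ b → b ≤ c + e → c ≤ a / 4 → e ≤ g → a / 2 ≤ g := by
    intro a b c e g h1 h2 h3 h4 h5
    linarith
  have key2 : ∀ a b c e g : ℝ, 0 < b → (a * b) / 2 ≤ c * (e * b) → 0 < e → g = 2 * e →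
      1 / g * a ≤ c := by
    intro a b c e g h1 h2 h3 h4
    have h5 : a / 2 ≤ c * e := by
      have h6 : a / 2 * b ≤ c * e * b := by linarith
      exact le_of_mul_le_mul_right h6 h1
    rw [h4, div_mul_eq_mul_div, one_mul, div_le_iff₀ (by positivity)]
    linarith
  have h6 : (s : ℝ) ^ N1 = (s : ℝ) ^ (N1 - 2 * (d * S)) * (s : ℝ) ^ (2 * (d * S)) := by
    rw [← pow_add]
    congr 1
    omega
  have h7 : (T.card : ℝ) * (1 + 2 * B) ^ (d * S) ≤
      T.card * (Q ^ (d * S) * (s : ℝ) ^ (2 * (d * S))) :=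
    mul_le_mul_of_nonneg_left (hpowk _) (Nat.cast_nonneg _)
  have h5 := key _ _ _ _ _ hsN hFc hmb hT1 h7
  rw [h6] at h5
  have hsS : (0 : ℝ) < (s : ℝ) ^ (2 * (d * S)) := by positivity
  have hQS : (0 : ℝ) < Q ^ (d * S) := by positivity
  exact key2 _ _ _ _ _ hsS h5 hQS rfl

end Pool.Agent.L5helper9.Nk
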