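import Mathlib
import Pool.Agent.L5helper9.NkDefs
import Pool.Agent.L5helper85.NfLow.DegOne
import Pool.Agent.L5helper79.NfLow.RepsK
import Pool.Agent.L5helper37.NfLow.GoodK
import Pool.Agent.L5helper67.NfLow.Fam1K
import Pool.Agent.L5helper13.NfLow.FieldFactsK
import Pool.Agent.L5helper66.NfLow.MultK
import Pool.Agent.L5helper64.NfLow.ResK

/-!
# The lemmas over number fields, proved by helpers 85, 79, 37, 67, 13, 66 and 64
-/

set_option autoImplicit false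
open Polynomial Module NumberField Filter
namespace Pool.Agent.L5helper9.Nk

/-- many primes of degree one (helper85) -/
theorem degree_one_primes (K : Type) [Field K] [NumberField K] (U C0 : ℕ) (hU : 1 ≤ U)
    (hC0 : 1 ≤ C0) (ε : ℝ) (hε : 0 < ε) :
    ∀ᶠ t : ℕ in atTop, ∃ s : ℕ, (t : ℝ) ^ (1 - ε) ≤ s ∧ s ≤ t ∧ ∃ Pr : Finset ℕ,
      C0 * s ^ U ≤ Pr.card * s ∧
      ∀ p ∈ Pr, p.Prime ∧ C0 * s ^ U < p ∧ p ≤ 3 * (C0 * s ^ U) ∧
        Nonempty (𝓞 K →+* ZMod (p ^ 2)) :=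
  Pool.Agent.L5helper85.NfLow.degree_one_primes K U C0 hU hC0 ε hε

/-- small representatives (helper79) -/
theorem reps2K {K : Type} [Field K] [NumberField K] {t m n p : ℕ} (hp : p.Prime) (ht : 1 ≤ t)
    (hm : 1 ≤ m) (hn : 2 ≤ n) {J : ℝ} (hJ : 1 ≤ J) (ψ : 𝓞 K →+* ZMod (p ^ 2)) (r : ℤ)
    (hrep : ∀ ρ : ZMod p, ∃ A : (𝓞 K)[X], SmK t m (J * t ^ n) A ∧ ev1 ψ r A = ρ)
    (ρ0 : ZMod (p ^ 2)) (ρ1 : ZMod p) :
    ∃ h : (𝓞 K)[X], SmK t (m + m) ((J + 2 * (m + 1) * (2 * J + 1) * J) * t ^ (2 * n)) h ∧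
      ev ψ r h = ρ0 ∧ ev1 ψ r h.derivative = ρ1 :=
  Pool.Agent.L5helper79.NfLow.reps2K hp ht hm hn hJ ψ r hrep ρ0 ρ1

/-- good residues (helper37) -/
theorem goodK (K : Type) [Field K] [NumberField K] (m : ℕ) (hm1 : 1 ≤ m) :
    ∃ κ : ℝ, ∃ C2 : ℕ, 1 ≤ κ ∧ 1 ≤ C2 ∧ ∀ t n p : ℕ, p.Prime → 2 * m + 1 ≤ n → 2 ≤ t →
      C2 * t ^ (finrank ℚ K * n) < p → ∀ ψ : 𝓞 K →+* ZMod (p ^ 2), ∃ Gd : Finset ℕ,
        Gd ⊆ Finset.range p ∧ p ≤ Gd.card + C2 * t ^ (finrank ℚ K * ((m + 1) * (n - m))) ∧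
        ∀ r ∈ Gd, ∀ C : ℕ, p ≤ C * t ^ (finrank ℚ K * ((m + 1) * (n - m))) →
          ∀ ρ : ZMod p, ∃ A : (𝓞 K)[X], SmK t m (κ * C * t ^ n) A ∧ ev1 ψ (r : ℤ) A = ρ :=
  Pool.Agent.L5helper37.NfLow.goodK K m hm1

/-- the family for one prime (helper67) -/
theorem fam1K (K : Type) [Field K] [NumberField K] (n m q : ℕ) (hm1 : 1 ≤ m)
    (hm : 2 * m + 1 ≤ n) (hq : 1 ≤ q) (f0 : (𝓞 K)[X]) (hf0 : f0.Monic) (hf0n : f0.natDegree = n)
    (J : ℝ) (hJ : 1 ≤ J) :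
    ∃ M : ℕ, 1 ≤ M ∧ ∀ (t p : ℕ) (ψ : 𝓞 K →+* ZMod (p ^ 2)) (r : ℤ), p.Prime → 2 ≤ t →
      Nat.Coprime q p →
      (∀ ρ : ZMod p, ∃ A : (𝓞 K)[X], SmK t m (J * t ^ n) A ∧ ev1 ψ r A = ρ) →
      ∃ F : Finset (𝓞 K)[X], t ^ (finrank ℚ K * (n * (n + 1))) ≤ F.card * p ^ 3 ∧
        ∀ f ∈ F, f.Monic ∧ f.natDegree = n ∧
          (∀ i < n, house (f.coeff i : K) * (t : ℝ) ^ (2 * i) ≤ M * (t : ℝ) ^ (2 * n)) ∧
          (∃ g, f = f0 + C ((q : ℕ) : 𝓞 K) * g) ∧ ev ψ r f = 0 ∧ ev1 ψ r f.derivative = 0 :=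
  Pool.Agent.L5helper67.NfLow.fam1K_of K (fun hp ht hm hn J hJ ψ r h ρ0 ρ1 =>
    Pool.Agent.L5helper79.NfLow.reps2K hp ht hm hn hJ ψ r h ρ0 ρ1) n m q hm1 hm hq f0 hf0 hf0n J hJ

/-- the field of a polynomial (helper13) -/
theorem field_factsK (K : Type) [Field K] [NumberField K] (n : ℕ) (hn : 1 ≤ n) :
    ∃ C : ℝ, 1 ≤ C ∧ ∀ (M t : ℕ), 1 ≤ t → 1 ≤ M → ∀ f : (𝓞 K)[X], f.Monic → f.natDegree = n →
      Irreducible f →
      (∀ i < n, house (f.coeff i : K) * (t : ℝ) ^ (2 * i) ≤ M * (t : ℝ) ^ (2 * n)) →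
      ∃ α : AlgebraicClosure K, aeval α f = 0 ∧ minpoly K α = f.map (algebraMap (𝓞 K) K) ∧
        IsIntegral ℤ α ∧ finrank K (IntermediateField.adjoin K {α}) = n ∧
        (∀ φ : IntermediateField.adjoin K {α} →+* ℂ,
          ‖φ (IntermediateField.AdjoinSimple.gen K α)‖ ≤ n * M * t ^ 2) ∧
        ∃ D : ℤ, D ≠ 0 ∧ (|D| : ℝ) ≤ C * (n * M * t ^ 2) ^ (finrank ℚ K * (n * (n - 1))) ∧
          ∀ (p : ℕ) (ψ : 𝓞 K →+* ZMod (p ^ 2)) (r : ℤ), p.Prime → ev ψ r f = 0 →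
            ev1 ψ r f.derivative = 0 → (p : ℤ) ^ 2 ∣ D ∧
            ∀ h : NumberField (IntermediateField.adjoin K {α}),
              |@NumberField.discr (IntermediateField.adjoin K {α}) _ h| * (p : ℤ) ^ 2 ≤ |D| :=
  Pool.Agent.L5helper13.NfLow.field_factsK K n hn

open scoped Classical in
/-- multiplicities (helper66) -/
theorem mult_boundK (K : Type) [Field K] [NumberField K] (n S : ℕ) (hn : 1 ≤ n) (hS : 1 ≤ S) :
    ∃ C : ℝ, 1 ≤ C ∧ ∀ B : ℝ, 1 ≤ B → ∀ A : Finset (AlgebraicClosure K),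
      (∀ α ∈ A, IsIntegral ℤ α ∧ finrank K (IntermediateField.adjoin K {α}) = n ∧
        (∀ φ : IntermediateField.adjoin K {α} →+* ℂ,
          ‖φ (IntermediateField.AdjoinSimple.gen K α)‖ ≤ B) ∧
        ∀ E : IntermediateField K (IntermediateField.adjoin K {α}), E = ⊥ ∨ E = ⊤) →
      ∀ R : Finset (IntermediateField K (AlgebraicClosure K)),
        (∀ L : IntermediateField K (AlgebraicClosure K), finrank K L = n →
          (∃ h : NumberField L, ((|@NumberField.discr L _ h| : ℤ) : ℝ) ≤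
            C * B ^ (2 * (finrank ℚ K * ∑ j ∈ Finset.range n, (j + S - 1) / S))) → L ∈ R) →
        (A.card : ℝ) ≤ R.card * (1 + 2 * B) ^ (finrank ℚ K * n) +
          (A.image fun α => IntermediateField.adjoin K {α}).card *
            (1 + 2 * B) ^ (finrank ℚ K * S) :=
  Pool.Agent.L5helper66.NfLow.mult_boundK K n S hn hS

/-- the residue class (helper64) -/
theorem exists_residueK (K : Type) [Field K] [NumberField K] (n : ℕ) (hn : 5 ≤ n) :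
    ∃ q : ℕ, 1 ≤ q ∧ ∃ f0 : (𝓞 K)[X], f0.Monic ∧ f0.natDegree = n ∧
      ∀ f : (𝓞 K)[X], f.Monic → (∃ g, f = f0 + C ((q : ℕ) : 𝓞 K) * g) → Irreducible f ∧
        ∀ α : AlgebraicClosure K, minpoly K α = f.map (algebraMap (𝓞 K) K) →
          (∀ E : IntermediateField K (IntermediateField.adjoin K {α}), E = ⊥ ∨ E = ⊤) ∧
          finrank K (IntermediateField.normalClosure K (IntermediateField.adjoin K {α})
            (AlgebraicClosure K)) = n.factorial :=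
  Pool.Agent.L5helper64.NfLow.exists_residueK K n hn

end Pool.Agent.L5helper9.Nk
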