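import Mathlib

/-!
Dwork's congruences for the iterates of a lift of Frobenius, on forms.
-/

set_option autoImplicit false
set_option linter.unusedSectionVars false

namespace Pool.Agent.L5helper9.Ql

open MvPolynomial

noncomputable section

section Gen

variable {A : Type*} [CommRing A] {I : Ideal A} {q : ℕ}

lemma pow_sub_pow_mem (hq : (q : A) ∈ I) {a b : A} {s : ℕ} (hs : 1 ≤ s) (h : a - b ∈ I ^ s) :
    a ^ q - b ^ q ∈ I ^ (s + 1) := by
  have h1 : a - b ∈ I := Ideal.pow_le_self (by omega) h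
  rw [← geom_sum₂_mul, mul_comm, pow_succ]
  refine Ideal.mul_mem_mul h ?_
  have h2 : Ideal.Quotient.mk I a = Ideal.Quotient.mk I b := Ideal.Quotient.eq.mpr h1
  have h3 : Ideal.Quotient.mk I (q : A) = 0 := Ideal.Quotient.eq_zero_iff_mem.mpr hq
  rw [← Ideal.Quotient.eq_zero_iff_mem, map_sum]
  have h4 : ∀ i ∈ Finset.range q, Ideal.Quotient.mk I (a ^ i * b ^ (q - 1 - i)) =
      Ideal.Quotient.mk I b ^ (q - 1) := by
    intro i hi
    rw [Finset.mem_range] at hi
    rw [map_mul, map_pow, map_pow, h2, ← pow_add]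
    congr 1
    omega
  rw [Finset.sum_congr rfl h4, Finset.sum_const, Finset.card_range, nsmul_eq_mul,
    ← map_natCast (Ideal.Quotient.mk I), h3, zero_mul]

lemma pow_iter_sub_mem (hq : (q : A) ∈ I) {a b : A} (h : a - b ∈ I) (t : ℕ) :
    a ^ q ^ t - b ^ q ^ t ∈ I ^ (t + 1) := by
  induction t with
  | zero => simpa using h
  | succ t ih =>
    rw [pow_succ q t, pow_mul, pow_mul]
    exact pow_sub_pow_mem hq (by omega) ih

end Gen

variable {R : Type*} [CommRing R] {N : ℕ}

/-- coordinatewise action of a tuple of polynomials -/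
def actR {S : Type*} [CommRing S] [Algebra R S] (F : Fin (N + 1) → MvPolynomial (Fin (N + 1)) R)
    (y : Fin (N + 1) → S) : Fin (N + 1) → S := fun i => aeval y (F i)

/-- a lift of the `q`-power map modulo `P` -/
structure DD (P : Ideal R) (F : Fin (N + 1) → MvPolynomial (Fin (N + 1)) R) (q : ℕ) (ϖ : R) :
    Prop where
  hom : ∀ i, (F i).IsHomogeneous q
  frob : ∀ G : MvPolynomial (Fin (N + 1)) R, bind₁ F G - G ^ q ∈ P.map C
  qmem : (q : R) ∈ P
  wmem : ϖ ∈ P
  div : ∀ (t s : ℕ) (c : R), c ∈ P ^ t → ∃ d, c - ϖ ^ t * d ∈ P ^ (t + s)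

variable {P : Ideal R} {F : Fin (N + 1) → MvPolynomial (Fin (N + 1)) R} {q : ℕ} {ϖ : R}

lemma C_mem_pow {t : ℕ} {c : R} (hc : c ∈ P ^ t) :
    (C c : MvPolynomial (Fin (N + 1)) R) ∈ (P.map C) ^ t := by
  rw [← Ideal.map_pow]
  exact Ideal.mem_map_of_mem _ hc

lemma mem_pow_iff {t : ℕ} {G : MvPolynomial (Fin (N + 1)) R} :
    G ∈ (P.map C) ^ t ↔ ∀ m, G.coeff m ∈ P ^ t := by
  rw [← Ideal.map_pow, MvPolynomial.mem_map_C_iff]

lemma bind_mem_pow {t : ℕ} {G : MvPolynomial (Fin (N + 1)) R} (hG : G ∈ (P.map C) ^ t) :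
    bind₁ F G ∈ (P.map C) ^ t := by
  rw [← Ideal.map_pow] at hG ⊢
  have h1 := Ideal.mem_map_of_mem (bind₁ F).toRingHom hG
  rw [Ideal.map_map] at h1
  have e1 : (bind₁ F).toRingHom.comp (C : R →+* MvPolynomial (Fin (N + 1)) R) = C := by
    ext c
    simp
  rw [e1] at h1
  exact h1

lemma aeval_mem_pow {S : Type*} [CommRing S] [Algebra R S] (y : Fin (N + 1) → S) {t : ℕ}
    {G : MvPolynomial (Fin (N + 1)) R} (hG : G ∈ (P.map C) ^ t) :
    aeval y G ∈ (P.map (algebraMap R S)) ^ t := by
  rw [← Ideal.map_pow] at hG ⊢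
  have h1 := Ideal.mem_map_of_mem (aeval y : MvPolynomial (Fin (N + 1)) R →ₐ[R] S).toRingHom hG
  rw [Ideal.map_map] at h1
  have e1 : (aeval y : MvPolynomial (Fin (N + 1)) R →ₐ[R] S).toRingHom.comp C =
      algebraMap R S := by
    ext c
    simp
  rw [e1] at h1
  exact h1

/-- division of a form by a power of the uniformizer -/
lemma DD.divP (h : DD P F q ϖ) {δ t : ℕ} (s : ℕ) {G : MvPolynomial (Fin (N + 1)) R}
    (hG : G.IsHomogeneous δ) (hGt : G ∈ (P.map C) ^ t) :
    ∃ G' : MvPolynomial (Fin (N + 1)) R, G'.IsHomogeneous δ ∧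
      G - C (ϖ ^ t) * G' ∈ (P.map C) ^ (t + s) := by
  classical
  rw [mem_pow_iff] at hGt
  choose d hd using fun m => h.div t s _ (hGt m)
  refine ⟨∑ m ∈ G.support, monomial m (d m), ?_, ?_⟩
  · apply IsHomogeneous.sum
    intro m hm
    apply isHomogeneous_monomial
    have := hG (mem_support_iff.mp hm)
    rw [Finsupp.degree_eq_weight_one]
    exact this
  · rw [mem_pow_iff]
    intro m
    rw [coeff_sub, coeff_C_mul, coeff_sum]
    simp only [coeff_monomial]
    rw [Finset.sum_ite_eq']
    split_ifs with hm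
    · exact hd m
    · rw [notMem_support_iff.mp hm, mul_zero, sub_zero]
      exact Ideal.zero_mem _

/-- **Dwork's congruences** -/
theorem DD.dwork (h : DD P F q ϖ) {δ : ℕ} {G : MvPolynomial (Fin (N + 1)) R}
    (hG : G.IsHomogeneous δ) (m T : ℕ) :
    ∃ a : ℕ → MvPolynomial (Fin (N + 1)) R, (∀ l, (a l).IsHomogeneous (q ^ l * δ)) ∧
      ∀ t ≤ T, (bind₁ F)^[t] G - ∑ l ∈ Finset.range (t + 1), C (ϖ ^ l) * a l ^ q ^ (t - l) ∈
        (P.map C) ^ m := by
  classical
  induction T with
  | zero =>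
    refine ⟨fun l => if l = 0 then G else 0, fun l => ?_, fun t ht => ?_⟩
    · rcases Nat.eq_zero_or_pos l with rfl | hl
      · simpa using hG
      · simp only [hl.ne', if_false]
        exact isHomogeneous_zero _ _ _
    · obtain rfl : t = 0 := by omega
      simp
  | succ T ih =>
    obtain ⟨a, ha, hT⟩ := ih
    set B : MvPolynomial (Fin (N + 1)) R := ∑ l ∈ Finset.range (T + 1),
      C (ϖ ^ l) * (bind₁ F (a l) ^ q ^ (T - l) - a l ^ q ^ (T + 1 - l)) with hB
    have hBh : B.IsHomogeneous (q ^ (T + 1) * δ) := by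
      apply IsHomogeneous.sum
      intro l hl
      rw [Finset.mem_range] at hl
      have h1 : (bind₁ F (a l)).IsHomogeneous (q * (q ^ l * δ)) := (ha l).aeval F h.hom
      have h2 := h1.pow (q ^ (T - l))
      have h3 := (ha l).pow (q ^ (T + 1 - l))
      have e1 : q * (q ^ l * δ) * q ^ (T - l) = q ^ (T + 1) * δ := by
        have : T + 1 = 1 + l + (T - l) := by omega
        rw [this, pow_add, pow_add, pow_one]
        ring
      have e2 : q ^ l * δ * q ^ (T + 1 - l) = q ^ (T + 1) * δ := by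
        have : T + 1 = l + (T + 1 - l) := by omega
        conv_rhs => rw [this, pow_add]
        ring
      rw [e1] at h2
      rw [e2] at h3
      have h4 := (isHomogeneous_C (Fin (N + 1)) (ϖ ^ l)).mul (h2.sub h3)
      rwa [zero_add] at h4
    have hqC : (q : MvPolynomial (Fin (N + 1)) R) ∈ P.map C := by
      have := Ideal.mem_map_of_mem (C : R →+* MvPolynomial (Fin (N + 1)) R) h.qmem
      rwa [map_natCast] at this
    have hBt : B ∈ (P.map C) ^ (T + 1) := by
      apply Ideal.sum_mem
      intro l hl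
      rw [Finset.mem_range] at hl
      have h1 := pow_iter_sub_mem hqC (h.frob (a l)) (T - l)
      have e1 : (a l ^ q) ^ q ^ (T - l) = a l ^ q ^ (T + 1 - l) := by
        rw [← pow_mul, ← pow_succ']
        congr 2
        omega
      rw [e1] at h1
      have h2 := Ideal.mul_mem_mul (C_mem_pow (N := N) (Ideal.pow_mem_pow h.wmem l)) h1
      rwa [← pow_add, show l + (T - l + 1) = T + 1 by omega] at h2
    obtain ⟨b, hb, hb'⟩ := h.divP m hBh hBt
    refine ⟨Function.update a (T + 1) b, fun l => ?_, fun t ht => ?_⟩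
    · rcases eq_or_ne l (T + 1) with rfl | hl
      · rw [Function.update_self]
        exact hb
      · rw [Function.update_of_ne hl]
        exact ha l
    · rcases Nat.lt_or_ge t (T + 1) with ht' | ht'
      · have e1 : ∑ l ∈ Finset.range (t + 1), C (ϖ ^ l) *
            Function.update a (T + 1) b l ^ q ^ (t - l) =
            ∑ l ∈ Finset.range (t + 1), C (ϖ ^ l) * a l ^ q ^ (t - l) := by
          refine Finset.sum_congr rfl fun l hl => ?_
          rw [Finset.mem_range] at hl
          rw [Function.update_of_ne (by omega)]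
        rw [e1]
        exact hT t (by omega)
      · obtain rfl : t = T + 1 := by omega
        rw [Finset.sum_range_succ, Function.update_self, Nat.sub_self, pow_zero, pow_one]
        have e1 : ∑ l ∈ Finset.range (T + 1), C (ϖ ^ l) *
            Function.update a (T + 1) b l ^ q ^ (T + 1 - l) =
            ∑ l ∈ Finset.range (T + 1), C (ϖ ^ l) * a l ^ q ^ (T + 1 - l) := by
          refine Finset.sum_congr rfl fun l hl => ?_
          rw [Finset.mem_range] at hl
          rw [Function.update_of_ne (by omega)]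
        rw [e1, Function.iterate_succ_apply']
        have h1 := bind_mem_pow (F := F) (hT T le_rfl)
        rw [map_sub, map_sum] at h1
        have e2 : ∑ l ∈ Finset.range (T + 1), bind₁ F (C (ϖ ^ l) * a l ^ q ^ (T - l)) =
            B + ∑ l ∈ Finset.range (T + 1), C (ϖ ^ l) * a l ^ q ^ (T + 1 - l) := by
          rw [hB, ← Finset.sum_add_distrib]
          refine Finset.sum_congr rfl fun l _ => ?_
          rw [map_mul, bind₁_C_right, map_pow (bind₁ F) (a l), mul_sub, sub_add_cancel]
        rw [e2] at h1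
        have h2 := Ideal.add_mem _ h1 (Ideal.pow_le_pow_right (show m ≤ T + 1 + m by omega) hb')
        convert h2 using 1
        ring

variable {S : Type*} [CommRing S] [Algebra R S]

lemma aeval_iter (y : Fin (N + 1) → S) (G : MvPolynomial (Fin (N + 1)) R) (t : ℕ) :
    aeval y ((bind₁ F)^[t] G) = aeval ((actR F)^[t] y) G := by
  induction t generalizing y with
  | zero => rfl
  | succ t ih =>
    rw [Function.iterate_succ_apply', aeval_bind₁]
    change aeval (actR F y) _ = _
    rw [ih, Function.iterate_succ_apply]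

/-- the values at all late iterates are determined modulo a power of `P` -/
theorem DD.cong (h : DD P F q ϖ) (y : Fin (N + 1) → S) {m t : ℕ} (ht : m ≤ t + 1)
    {G G' : MvPolynomial (Fin (N + 1)) R} {a a' : ℕ → MvPolynomial (Fin (N + 1)) R}
    (ha : (bind₁ F)^[t] G - ∑ l ∈ Finset.range (t + 1), C (ϖ ^ l) * a l ^ q ^ (t - l) ∈
        (P.map C) ^ m)
    (ha' : (bind₁ F)^[t] G' - ∑ l ∈ Finset.range (t + 1), C (ϖ ^ l) * a' l ^ q ^ (t - l) ∈
        (P.map C) ^ m)
    (haa : ∀ l < m, aeval y (a l) - aeval y (a' l) ∈ P.map (algebraMap R S)) :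
    aeval ((actR F)^[t] y) (G - G') ∈ (P.map (algebraMap R S)) ^ m := by
  have hq : (q : S) ∈ P.map (algebraMap R S) := by
    have := Ideal.mem_map_of_mem (algebraMap R S) h.qmem
    rwa [map_natCast] at this
  have hw : ∀ l, algebraMap R S (ϖ ^ l) ∈ (P.map (algebraMap R S)) ^ l := by
    intro l
    rw [← Ideal.map_pow]
    exact Ideal.mem_map_of_mem _ (Ideal.pow_mem_pow h.wmem l)
  have h1 := aeval_mem_pow y ha
  have h2 := aeval_mem_pow y ha'
  rw [map_sub, aeval_iter, map_sum] at h1 h2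
  have h3 : ∑ l ∈ Finset.range (t + 1), aeval y (C (ϖ ^ l) * a l ^ q ^ (t - l)) -
      ∑ l ∈ Finset.range (t + 1), aeval y (C (ϖ ^ l) * a' l ^ q ^ (t - l)) ∈
      (P.map (algebraMap R S)) ^ m := by
    rw [← Finset.sum_sub_distrib]
    apply Ideal.sum_mem
    intro l hl
    rw [Finset.mem_range] at hl
    rw [map_mul, map_mul, map_pow (aeval y) (a l), map_pow (aeval y) (a' l), ← mul_sub]
    have e1 : aeval y (C (ϖ ^ l) : MvPolynomial (Fin (N + 1)) R) = algebraMap R S (ϖ ^ l) := by
      rw [aeval_C]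
    rw [e1]
    rcases Nat.lt_or_ge l m with hlm | hlm
    · have h4 := Ideal.mul_mem_mul (hw l) (pow_iter_sub_mem hq (haa l hlm) (t - l))
      rw [← pow_add] at h4
      exact Ideal.pow_le_pow_right (by omega) h4
    · exact Ideal.mul_mem_right _ _ (Ideal.pow_le_pow_right hlm (hw l))
  rw [map_sub]
  have h4 := Ideal.add_mem _ (Ideal.sub_mem _ h1 h2) h3
  convert h4 using 1
  ring

end

end Pool.Agent.L5helper9.Ql
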