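import Mathlib
import Pool.Agent.L5helper9.Ql1
import Pool.Agent.H627.LP.Top

/-!
Integral models over rings of integers: uniformizers, lifts of Frobenius, and counting of the
values of forms modulo a prime of the base field.
-/

set_option autoImplicit false
set_option linter.unusedSectionVars false

namespace Pool.Agent.L5helper9.Ql

open MvPolynomial NumberField Module IsDedekindDomain
open Pool.Agent.H420R3 (mi TP mem_TP)
open Pool.Agent.H627.LP (GoodN)

noncomputable section

section Unif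

variable {R : Type*} [CommRing R] [IsDedekindDomain R] {P : Ideal R} [hP : P.IsMaximal]

lemma exists_unif (hP0 : P ≠ ⊥) : ∃ ϖ : R, ∀ t : ℕ, ϖ ^ t ∈ P ^ t ∧ ϖ ^ t ∉ P ^ (t + 1) := by
  let v : HeightOneSpectrum R := ⟨P, hP.isPrime, hP0⟩
  obtain ⟨ϖ, hϖ⟩ := v.intValuation_exists_uniformizer
  have h1 : ∀ t : ℕ, v.intValuation (ϖ ^ t) = WithZero.exp (-(t : ℤ)) := by
    intro t
    rw [map_pow, hϖ, ← WithZero.exp_nsmul]
    congr 1
    simp
  refine ⟨ϖ, fun t => ⟨?_, ?_⟩⟩
  · have := (v.intValuation_le_pow_iff_mem (ϖ ^ t) t).mp (h1 t).le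
    exact this
  · intro h2
    have h3 := (v.intValuation_le_pow_iff_mem (ϖ ^ t) (t + 1)).mpr h2
    rw [h1, WithZero.exp_le_exp] at h3
    push_cast at h3
    omega

lemma unif_div (hP0 : P ≠ ⊥) {ϖ : R} (hϖ : ∀ t : ℕ, ϖ ^ t ∈ P ^ t ∧ ϖ ^ t ∉ P ^ (t + 1))
    (t s : ℕ) (c : R) (hc : c ∈ P ^ t) : ∃ d, c - ϖ ^ t * d ∈ P ^ (t + s) := by
  induction s generalizing t c with
  | zero => exact ⟨0, by simpa using hc⟩
  | succ s ih =>
    obtain ⟨d, e, he, hde⟩ := Ideal.exists_mul_add_mem_pow_succ hP0 (ϖ ^ t) c (hϖ t).1 (hϖ t).2 hc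
    obtain ⟨d', hd'⟩ := ih (t + 1) e he
    refine ⟨d + ϖ * d', ?_⟩
    have e1 : c - ϖ ^ t * (d + ϖ * d') = e - ϖ ^ (t + 1) * d' := by
      rw [← hde]
      ring
    rw [e1, show t + (s + 1) = t + 1 + s by ring]
    exact hd'

end Unif

section Frob

variable {k : Type*} [Field k] [Fintype k] {N : ℕ}

lemma bind_pow_card (κ : ℕ) (g : MvPolynomial (Fin (N + 1)) k) :
    bind₁ (fun i => (X i : MvPolynomial (Fin (N + 1)) k) ^ Fintype.card k ^ κ) g =
      g ^ Fintype.card k ^ κ := by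
  obtain ⟨p, hp⟩ := CharP.exists k
  obtain ⟨n, hpp, hn⟩ := FiniteField.card k p
  haveI : Fact p.Prime := ⟨hpp⟩
  have h1 : (bind₁ (fun i => (X i : MvPolynomial (Fin (N + 1)) k) ^ Fintype.card k ^ κ) :
      MvPolynomial (Fin (N + 1)) k →ₐ[k] _).toRingHom =
      iterateFrobenius (MvPolynomial (Fin (N + 1)) k) p (n * κ) := by
    apply MvPolynomial.ringHom_ext
    · intro c
      rw [iterateFrobenius_def, pow_mul, ← hn, ← C_pow, FiniteField.pow_card_pow]
      exact bind₁_C_right _ _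
    · intro i
      rw [iterateFrobenius_def, pow_mul, ← hn]
      exact bind₁_X_right _ _
  have h2 := congrArg (fun f : MvPolynomial (Fin (N + 1)) k →+* _ => f g) h1
  simp only [iterateFrobenius_def] at h2
  rw [pow_mul, ← hn] at h2
  exact h2

end Frob

variable {K : Type} [Field K] [NumberField K] {N : ℕ}
variable {F : Fin (N + 1) → MvPolynomial (Fin (N + 1)) K} {q : ℕ}
variable {P : Ideal (𝓞 K)} [hP : P.IsMaximal]

/-- the integral model -/
lemma exists_model (h : GoodN P F q) (hP0 : P ≠ ⊥) {ϖ : 𝓞 K}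
    (hϖ : ∀ t : ℕ, ϖ ^ t ∈ P ^ t ∧ ϖ ^ t ∉ P ^ (t + 1)) :
    ∃ F' : Fin (N + 1) → MvPolynomial (Fin (N + 1)) (𝓞 K),
      (∀ i, map (algebraMap (𝓞 K) K) (F' i) = F i) ∧ DD P F' q ϖ := by
  classical
  choose c hcP hc using h.red
  set F' : Fin (N + 1) → MvPolynomial (Fin (N + 1)) (𝓞 K) := fun i =>
    X i ^ q + ∑ m ∈ (F i - X i ^ q).support, monomial m (c i m) with hF'
  have hsub : ∀ i m, (F' i - X i ^ q).coeff m ∈ P := by
    intro i m
    simp only [hF', add_sub_cancel_left]
    rw [coeff_sum]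
    simp only [coeff_monomial]
    rw [Finset.sum_ite_eq']
    split_ifs
    · exact hcP i m
    · exact Ideal.zero_mem _
  have hmap : ∀ i, map (algebraMap (𝓞 K) K) (F' i) = F i := by
    intro i
    have h1 : map (algebraMap (𝓞 K) K) (F' i - X i ^ q) = F i - X i ^ q := by
      ext m
      rw [coeff_map]
      simp only [hF', add_sub_cancel_left]
      rw [coeff_sum]
      simp only [coeff_monomial]
      rw [Finset.sum_ite_eq']
      split_ifs with hm
      · exact (hc i m).symm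
      · rw [notMem_support_iff.mp hm, map_zero]
    rw [map_sub, map_pow, map_X] at h1
    exact sub_left_injective h1
  obtain ⟨κ, hκ, hqκ⟩ := h.pow
  let : Field (𝓞 K ⧸ P) := Ideal.Quotient.field P
  have hfin : Finite (𝓞 K ⧸ P) := Ideal.finiteQuotientOfFreeOfNeBot P hP0
  let : Fintype (𝓞 K ⧸ P) := Fintype.ofFinite _
  have hcard : Ideal.absNorm P = Fintype.card (𝓞 K ⧸ P) := by
    rw [Ideal.absNorm_apply, Submodule.cardQuot_apply, Nat.card_eq_fintype_card]
  refine ⟨F', hmap, ?_, ?_, ?_, ?_, unif_div hP0 hϖ⟩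
  · intro i m hm
    apply h.hom i
    rw [← hmap i, coeff_map]
    intro h0
    apply hm
    exact (FaithfulSMul.algebraMap_injective (𝓞 K) K) (by rw [h0, map_zero])
  · intro G
    rw [MvPolynomial.mem_map_C_iff]
    intro m
    rw [← Ideal.Quotient.eq_zero_iff_mem, ← coeff_map]
    have h1 : map (Ideal.Quotient.mk P) (bind₁ F' G - G ^ q) = 0 := by
      rw [map_sub, map_pow, map_bind₁]
      have h2 : (fun i => map (Ideal.Quotient.mk P) (F' i)) =
          fun i => (X i : MvPolynomial (Fin (N + 1)) (𝓞 K ⧸ P)) ^ q := by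
        funext i
        have h3 : map (Ideal.Quotient.mk P) (F' i - X i ^ q) = 0 := by
          ext m
          rw [coeff_map, coeff_zero]
          exact Ideal.Quotient.eq_zero_iff_mem.mpr (hsub i m)
        rw [map_sub, map_pow, map_X] at h3
        exact sub_eq_zero.mp h3
      rw [h2, hqκ, hcard, bind_pow_card, sub_self]
    rw [h1, coeff_zero]
  · rw [← Ideal.Quotient.eq_zero_iff_mem, map_natCast, hqκ, hcard, Nat.cast_pow,
      FiniteField.cast_card_eq_zero, zero_pow (by omega)]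
  · have := (hϖ 1).1
    simpa using this

end

end Pool.Agent.L5helper9.Ql
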