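import Mathlib
import Pool.Agent.L5helper9.Ql2

/-!
Counting residues of `q`-th powers modulo a prime of the base field.
-/

set_option autoImplicit false
set_option linter.unusedSectionVars false

namespace Pool.Agent.L5helper9.Ql

open NumberField Module IsDedekindDomain
open Pool.Agent.H420R3 (mi TP mem_TP)

noncomputable section

section Pow

variable {A : Type*} [CommRing A] {b : Ideal A} {p : ℕ}

lemma add_pow_mem (hp : p.Prime) (hpb : (p : A) ∈ b) (n : ℕ) (x y : A) :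
    (x + y) ^ p ^ n - (x ^ p ^ n + y ^ p ^ n) ∈ b := by
  obtain ⟨r, hr⟩ := exists_add_pow_prime_pow_eq hp x y n
  rw [hr, add_sub_cancel_left, mul_assoc, mul_assoc]
  exact b.mul_mem_right _ hpb

variable (b) in
/-- the power map as an additive map to the quotient -/
def powHom (hp : p.Prime) (hpb : (p : A) ∈ b) (n : ℕ) : A →+ A ⧸ b :=
  AddMonoidHom.mk' (fun x => Ideal.Quotient.mk b (x ^ p ^ n)) (by
    intro x y
    rw [← map_add]
    exact Ideal.Quotient.eq.mpr (add_pow_mem hp hpb n x y))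

lemma powHom_apply (hp : p.Prime) (hpb : (p : A) ∈ b) (n : ℕ) (x : A) :
    powHom b hp hpb n x = Ideal.Quotient.mk b (x ^ p ^ n) := rfl

lemma mem_ker_powHom (hp : p.Prime) (hpb : (p : A) ∈ b) (n : ℕ) (x : A) :
    powHom b hp hpb n x = 0 ↔ x ^ p ^ n ∈ b := by
  rw [powHom_apply, Ideal.Quotient.eq_zero_iff_mem]

end Pow

variable {K : Type} [Field K] [NumberField K] {L : Type} [Field L] [NumberField L] [Algebra K L]

variable (L) in
/-- the product of the primes above `P` -/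
def rad (P : Ideal (𝓞 K)) : Ideal (𝓞 L) := ∏ v ∈ TP L P, mi v

variable (L) in
/-- the product of the primes above `P` with exponents `⌊e / Q⌋ + 1` -/
def cid (P : Ideal (𝓞 K)) (Q : ℕ) : Ideal (𝓞 L) :=
  ∏ v ∈ TP L P, mi v ^ ((mi v).ramificationIdx (𝓞 K) / Q + 1)

variable {P : Ideal (𝓞 K)} [hP : P.IsMaximal]

lemma map_eq_prod (hP0 : P ≠ ⊥) :
    P.map (algebraMap (𝓞 K) (𝓞 L)) = ∏ v ∈ TP L P, mi v ^ (mi v).ramificationIdx (𝓞 K) := by
  classical
  have h1 := Ideal.map_algebraMap_eq_finsetProd_pow (R := 𝓞 L) (S := 𝓞 K) (p := P) hP0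
  rw [h1]
  symm
  refine Finset.prod_bij (fun v _ => mi v) ?_ ?_ ?_ ?_
  · intro v hv
    rw [Set.mem_toFinset]
    exact (mem_TP hP0).mp hv
  · intro v _ w _ h
    apply FinitePlace.maximalIdeal_injective
    exact HeightOneSpectrum.ext h
  · intro Q hQ
    rw [Set.mem_toFinset] at hQ
    have hQ1 : Q.IsPrime := hQ.1
    have hQ2 : Q.LiesOver P := hQ.2
    have hQ0 : Q ≠ ⊥ := Ideal.ne_bot_of_liesOver_of_ne_bot hP0 Q
    let w : HeightOneSpectrum (𝓞 L) := ⟨Q, hQ1, hQ0⟩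
    have hw : mi (FinitePlace.mk w) = Q := by
      unfold mi
      rw [FinitePlace.maximalIdeal_mk]
    refine ⟨FinitePlace.mk w, ?_, hw⟩
    rw [mem_TP hP0, hw]
    exact hQ
  · intro v _
    rfl

lemma map_le_rad (hP0 : P ≠ ⊥) : P.map (algebraMap (𝓞 K) (𝓞 L)) ≤ rad L P := by
  rw [map_eq_prod hP0, ← Ideal.dvd_iff_le]
  apply Finset.prod_dvd_prod_of_dvd
  intro v _
  exact dvd_pow_self _ ((mi v).ramificationIdx_pos (𝓞 K)).ne'

lemma cid_le_rad (Q : ℕ) : cid L P Q ≤ rad L P := by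
  rw [← Ideal.dvd_iff_le]
  apply Finset.prod_dvd_prod_of_dvd
  intro v _
  exact dvd_pow_self _ (Nat.succ_ne_zero _)

lemma cid_pow (hP0 : P ≠ ⊥) {Q : ℕ} (hQ : 1 ≤ Q) {y : 𝓞 L} (hy : y ∈ cid L P Q) :
    y ^ Q ∈ P.map (algebraMap (𝓞 K) (𝓞 L)) := by
  have h1 := Ideal.pow_mem_pow hy Q
  have h2 : cid L P Q ^ Q ≤ P.map (algebraMap (𝓞 K) (𝓞 L)) := by
    rw [map_eq_prod hP0, ← Ideal.dvd_iff_le]
    unfold cid
    rw [← Finset.prod_pow]
    apply Finset.prod_dvd_prod_of_dvd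
    intro v _
    rw [← pow_mul]
    apply pow_dvd_pow
    have := Nat.div_add_mod ((mi v).ramificationIdx (𝓞 K)) Q
    have h3 := Nat.mod_lt ((mi v).ramificationIdx (𝓞 K)) (show Q > 0 by omega)
    rw [add_mul, one_mul, mul_comm]
    omega
  exact h2 h1

lemma rad_radical {y : 𝓞 L} {n : ℕ} (h : y ^ n ∈ rad L P) : y ∈ rad L P := by
  have h1 : ∀ v ∈ TP L P, y ∈ mi v := by
    intro v hv
    have h2 : rad L P ≤ mi v := by
      rw [← Ideal.dvd_iff_le]
      exact Finset.dvd_prod_of_mem _ hv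
    exact (Ideal.IsMaximal.isPrime (inferInstance : (mi v).IsMaximal)).mem_of_pow_mem n (h2 h)
  rw [← Ideal.dvd_span_singleton]
  apply Finset.prod_dvd_of_coprime
  · intro v hv w hw hvw
    change IsCoprime (mi v) (mi w)
    rw [Ideal.isCoprime_iff_sup_eq]
    apply Ideal.IsMaximal.coprime_of_ne inferInstance inferInstance
    intro h
    apply hvw
    apply FinitePlace.maximalIdeal_injective
    exact HeightOneSpectrum.ext h
  · intro v hv
    rw [Ideal.dvd_span_singleton]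
    exact h1 v hv

lemma rad_ne_bot : rad L P ≠ ⊥ := by
  unfold rad
  rw [← Ideal.zero_eq_bot, Finset.prod_ne_zero_iff]
  intro v _
  exact H420R3.mi_ne_bot v

lemma cid_ne_bot (Q : ℕ) : cid L P Q ≠ ⊥ := by
  unfold cid
  rw [← Ideal.zero_eq_bot, Finset.prod_ne_zero_iff]
  intro v _
  exact pow_ne_zero _ (H420R3.mi_ne_bot v)

lemma absNorm_cid (hP0 : P ≠ ⊥) (Q : ℕ) :
    ∃ s : ℕ, s * Q ≤ finrank K L ∧ (cid L P Q).absNorm = P.absNorm ^ s * (rad L P).absNorm := by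
  refine ⟨∑ v ∈ TP L P, (mi v).ramificationIdx (𝓞 K) / Q * (mi v).inertiaDeg (𝓞 K), ?_, ?_⟩
  · rw [← H627.LP.sum_ef (K := K) (M := L) (P := P) hP0, Finset.sum_mul]
    refine Finset.sum_le_sum fun v _ => ?_
    calc (mi v).ramificationIdx (𝓞 K) / Q * (mi v).inertiaDeg (𝓞 K) * Q =
        ((mi v).ramificationIdx (𝓞 K) / Q * Q) * (mi v).inertiaDeg (𝓞 K) := by ring
      _ ≤ _ := Nat.mul_le_mul_right _ (Nat.div_mul_le_self _ _)
  · unfold cid rad
    rw [map_prod, map_prod, ← Finset.prod_pow_eq_pow_sum, ← Finset.prod_mul_distrib]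
    refine Finset.prod_congr rfl fun v hv => ?_
    have hlo := H420R3.liesOver_of_mem hP0 hv
    have h1 := Ideal.absNorm_eq_pow_inertiaDeg'_of_liesOver (mi v) P inferInstance hP0
    rw [Ideal.inertiaDeg'_eq_inertiaDeg] at h1
    rw [map_pow, pow_succ, h1, ← pow_mul]
    congr 2
    ring

lemma index_eq {I : Ideal (𝓞 L)} : I.toAddSubgroup.index = I.absNorm := by
  rw [Ideal.absNorm_apply]
  rfl

lemma relIndex_cid (hP0 : P ≠ ⊥) {Q : ℕ} (hQ : 1 ≤ Q) :
    (cid L P Q).toAddSubgroup.relIndex (rad L P).toAddSubgroup ≤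
      P.absNorm ^ (finrank K L / Q) := by
  obtain ⟨s, hs, hs'⟩ := absNorm_cid (L := L) hP0 Q
  have h1 : (cid L P Q).toAddSubgroup.relIndex (rad L P).toAddSubgroup *
      (rad L P).toAddSubgroup.index = (cid L P Q).toAddSubgroup.index :=
    AddSubgroup.relIndex_mul_index (cid_le_rad Q)
  rw [index_eq, index_eq, hs'] at h1
  have h2 : (rad L P).absNorm ≠ 0 := by
    rw [Ne, Ideal.absNorm_eq_zero_iff]
    exact rad_ne_bot
  rw [Nat.eq_of_mul_eq_mul_right (Nat.pos_of_ne_zero h2) h1]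
  apply Nat.pow_le_pow_right
  · apply Nat.pos_of_ne_zero
    rw [Ne, Ideal.absNorm_eq_zero_iff]
    exact hP0
  · exact (Nat.le_div_iff_mul_le (by omega)).mpr hs

lemma relIndex_ne {I : Ideal (𝓞 L)} (hI : I ≠ ⊥) (Λ : AddSubgroup (𝓞 L)) :
    I.toAddSubgroup.relIndex Λ ≠ 0 := by
  intro h
  have h1 : I.toAddSubgroup.index = 0 := by
    have h2 := AddSubgroup.relIndex_dvd_index_of_normal I.toAddSubgroup Λ
    rw [h] at h2
    exact Nat.eq_zero_of_zero_dvd h2
  rw [index_eq, Ideal.absNorm_eq_zero_iff] at h1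
  exact hI h1

/-- the number of residues of powers -/
lemma card_pow_le (hP0 : P ≠ ⊥) {p n : ℕ} (hp : p.Prime)
    (hpP : (p : 𝓞 L) ∈ P.map (algebraMap (𝓞 K) (𝓞 L))) (Λ : AddSubgroup (𝓞 L)) :
    ((fun y => Ideal.Quotient.mk (P.map (algebraMap (𝓞 K) (𝓞 L))) (y ^ p ^ n)) ''
      (Λ : Set (𝓞 L))).ncard ≤
      P.absNorm ^ (finrank K L / p ^ n) * (rad L P).toAddSubgroup.relIndex Λ := by
  have hQ : 1 ≤ p ^ n := Nat.one_le_pow _ _ hp.pos
  set f : Λ →+ 𝓞 L ⧸ P.map (algebraMap (𝓞 K) (𝓞 L)) :=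
    (powHom _ hp hpP n).comp Λ.subtype with hf
  have h1 : ((fun y => Ideal.Quotient.mk (P.map (algebraMap (𝓞 K) (𝓞 L))) (y ^ p ^ n)) ''
      (Λ : Set (𝓞 L))) = (f.range : Set _) := by
    ext z
    constructor
    · rintro ⟨y, hy, rfl⟩
      exact ⟨⟨y, hy⟩, rfl⟩
    · rintro ⟨y, rfl⟩
      exact ⟨y, y.2, rfl⟩
  rw [h1, ← Nat.card_coe_set_eq]
  change Nat.card f.range ≤ _
  rw [← AddSubgroup.index_ker]
  have h2 : (cid L P (p ^ n)).toAddSubgroup.addSubgroupOf Λ ≤ f.ker := by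
    intro y hy
    rw [AddSubgroup.mem_addSubgroupOf] at hy
    rw [AddMonoidHom.mem_ker, hf, AddMonoidHom.comp_apply, mem_ker_powHom]
    exact cid_pow hP0 hQ hy
  have h3 : f.ker.index ≤ (cid L P (p ^ n)).toAddSubgroup.relIndex Λ := by
    have hne := relIndex_ne (cid_ne_bot (P := P) (L := L) (p ^ n)) Λ
    have : ((cid L P (p ^ n)).toAddSubgroup.addSubgroupOf Λ).FiniteIndex := ⟨hne⟩
    exact AddSubgroup.index_antitone h2
  refine h3.trans ?_
  have h4 := AddSubgroup.relIndex_inf_mul_relIndex (cid L P (p ^ n)).toAddSubgroup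
    (rad L P).toAddSubgroup Λ
  have h5 : (cid L P (p ^ n)).toAddSubgroup ⊓ (rad L P).toAddSubgroup =
      (cid L P (p ^ n)).toAddSubgroup := inf_eq_left.mpr (cid_le_rad _)
  rw [h5] at h4
  rw [← h4]
  refine Nat.mul_le_mul_right _ ?_
  refine (AddSubgroup.relIndex_le_of_le_right inf_le_left ?_).trans (relIndex_cid hP0 hQ)
  exact relIndex_ne (cid_ne_bot _) _

/-- powers preserve the index -/
lemma relIndex_pow_le (hP0 : P ≠ ⊥) {p n : ℕ} (hp : p.Prime)
    (hpP : (p : 𝓞 L) ∈ P.map (algebraMap (𝓞 K) (𝓞 L))) {Λ Λ' : AddSubgroup (𝓞 L)}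
    (h : ∀ y ∈ Λ, ∃ y' ∈ Λ', y' - y ^ p ^ n ∈ rad L P) :
    (rad L P).toAddSubgroup.relIndex Λ ≤ (rad L P).toAddSubgroup.relIndex Λ' := by
  have hpr := map_le_rad (L := L) hP0 hpP
  set f : Λ →+ 𝓞 L ⧸ rad L P := (powHom _ hp hpr n).comp Λ.subtype with hf
  set g : Λ' →+ 𝓞 L ⧸ rad L P :=
    ((Ideal.Quotient.mk (rad L P)) : 𝓞 L →+ 𝓞 L ⧸ rad L P).comp Λ'.subtype with hg
  have h1 : f.ker = (rad L P).toAddSubgroup.addSubgroupOf Λ := by
    ext y
    rw [AddSubgroup.mem_addSubgroupOf, AddMonoidHom.mem_ker, hf, AddMonoidHom.comp_apply,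
      mem_ker_powHom]
    constructor
    · intro h
      exact rad_radical h
    · intro h
      exact Ideal.pow_mem_of_mem _ h _ (pow_pos hp.pos _)
  have h2 : g.ker = (rad L P).toAddSubgroup.addSubgroupOf Λ' := by
    ext y
    rw [AddSubgroup.mem_addSubgroupOf, AddMonoidHom.mem_ker, hg, AddMonoidHom.comp_apply]
    exact Ideal.Quotient.eq_zero_iff_mem
  have h3 : (rad L P).toAddSubgroup.relIndex Λ = Nat.card f.range := by
    rw [← AddSubgroup.index_ker, h1]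
    rfl
  have h4 : (rad L P).toAddSubgroup.relIndex Λ' = Nat.card g.range := by
    rw [← AddSubgroup.index_ker, h2]
    rfl
  rw [h3, h4]
  have hfin : Finite (𝓞 L ⧸ rad L P) := Ideal.finiteQuotientOfFreeOfNeBot _ rad_ne_bot
  apply AddSubgroup.card_le_of_le
  rintro _ ⟨y, rfl⟩
  obtain ⟨y', hy', hyy⟩ := h y y.2
  refine ⟨⟨y', hy'⟩, ?_⟩
  exact Ideal.Quotient.eq.mpr hyy

/-- the index is bounded by the rank -/
lemma relIndex_le_of_rank (hP0 : P ≠ ⊥) (Λ : AddSubgroup (𝓞 L)) {D : ℕ}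
    (h : ∀ (t : ℕ) (b : Fin t → 𝓞 L), (∀ i, b i ∈ Λ) →
      LinearIndependent K (fun i => (b i : L)) → t ≤ D) :
    (rad L P).toAddSubgroup.relIndex Λ ≤ P.absNorm ^ D := by
  have hfin : Finite (𝓞 L ⧸ rad L P) := Ideal.finiteQuotientOfFreeOfNeBot _ rad_ne_bot
  let : Field (𝓞 K ⧸ P) := Ideal.Quotient.field P
  have hfin' : Finite (𝓞 K ⧸ P) := Ideal.finiteQuotientOfFreeOfNeBot P hP0
  let : Fintype (𝓞 K ⧸ P) := Fintype.ofFinite _
  have hcard : Ideal.absNorm P = Fintype.card (𝓞 K ⧸ P) := by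
    rw [Ideal.absNorm_apply, Submodule.cardQuot_apply, Nat.card_eq_fintype_card]
  set V := 𝓞 L ⧸ rad L P with hV
  have hM : Module.IsTorsionBySet (𝓞 K) V (P : Set (𝓞 K)) := by
    rintro z ⟨a, ha⟩
    obtain ⟨y, rfl⟩ := Ideal.Quotient.mk_surjective z
    change a • Ideal.Quotient.mk (rad L P) y = 0
    rw [← Ideal.Quotient.mk_eq_mk, ← Submodule.Quotient.mk_smul, Submodule.Quotient.mk_eq_zero,
      Algebra.smul_def]
    exact Ideal.mul_mem_right _ _ (map_le_rad hP0 (Ideal.mem_map_of_mem _ ha))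
  let : Module (𝓞 K ⧸ P) V := hM.module
  have : IsScalarTower (𝓞 K) (𝓞 K ⧸ P) V := hM.isScalarTower
  set g : Λ →+ V := ((Ideal.Quotient.mk (rad L P)) : 𝓞 L →+ V).comp Λ.subtype with hg
  have h2 : g.ker = (rad L P).toAddSubgroup.addSubgroupOf Λ := by
    ext y
    rw [AddSubgroup.mem_addSubgroupOf, AddMonoidHom.mem_ker, hg, AddMonoidHom.comp_apply]
    exact Ideal.Quotient.eq_zero_iff_mem
  have h4 : (rad L P).toAddSubgroup.relIndex Λ = Nat.card g.range := by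
    rw [← AddSubgroup.index_ker, h2]
    rfl
  rw [h4]
  have : Module.Finite (𝓞 K ⧸ P) V := Module.Finite.of_finite
  set W : Submodule (𝓞 K ⧸ P) V := Submodule.span _ (g.range : Set V) with hW
  obtain ⟨b, hb, -, hli⟩ := Submodule.exists_fun_fin_finrank_span_eq (𝓞 K ⧸ P)
    (g.range : Set V)
  choose c hc using hb
  have h5 : finrank (𝓞 K ⧸ P) W ≤ D := by
    refine h _ (fun i => (c i : 𝓞 L)) (fun i => (c i).2) ?_
    have h6 := Ideal.FinrankQuotientMap.linearIndependent_of_nontrivial (R := 𝓞 K)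
      (S := 𝓞 K ⧸ P) (K := K) (V := L) (V' := V) (V'' := 𝓞 L)
      (by
        rw [Ideal.Quotient.algebraMap_eq, Ideal.mk_ker]
        exact hP.ne_top)
      ((Algebra.linearMap (𝓞 L) L).restrictScalars (𝓞 K)) RingOfIntegers.coe_injective
      ((Submodule.mkQ (rad L P)).restrictScalars (𝓞 K)) (b := fun i => (c i : 𝓞 L))
      (by
        have h7 : (((Submodule.mkQ (rad L P)).restrictScalars (𝓞 K)) ∘
            fun i => (c i : 𝓞 L)) = b := funext hc
        rw [h7]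
        exact hli)
    exact h6
  have h6 : Nat.card g.range ≤ Nat.card W := by
    apply Nat.card_le_card_of_injective (fun x : g.range => (⟨x.1, Submodule.subset_span x.2⟩ : W))
    intro x y hxy
    have := congrArg Subtype.val hxy
    exact Subtype.ext this
  refine h6.trans ?_
  let : Fintype W := Fintype.ofFinite _
  rw [Nat.card_eq_fintype_card, Module.card_eq_pow_finrank (K := 𝓞 K ⧸ P) (V := W), ← hcard]
  apply Nat.pow_le_pow_right
  · apply Nat.pos_of_ne_zero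
    rw [Ne, Ideal.absNorm_eq_zero_iff]
    exact hP0
  · exact h5

end

end Pool.Agent.L5helper9.Ql
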