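import Mathlib
import Pool.Agent.L5helper9.Ql3
import Pool.Agent.H627.LP.Orb

/-!
Counting the values of all forms of a given degree at an iterate of a point, modulo a prime.
-/

set_option autoImplicit false
set_option linter.unusedSectionVars false

namespace Pool.Agent.L5helper9.Ql

open MvPolynomial NumberField Module IsDedekindDomain
open Pool.Agent.W238.Leh (act aeval_smul_hom)
open Pool.Agent.H420R3 (mi TP mem_TP)
open Pool.Agent.H627.LP (GoodN QQ ptS pt act_gal_iter act_iter_base)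

noncomputable section

section Rank

variable {K : Type} [Field K] [NumberField K] {M : Type} [Field M] [NumberField M] [Algebra K M]
  [IsGalois K M] {N : ℕ} {F : Fin (N + 1) → MvPolynomial (Fin (N + 1)) K}

/-- the dimension of the space of values of forms is at most the number of conjugates -/
lemma rank_le {z : Fin (N + 1) → M} {j : ℕ} (hz : (act F)^[j] z ≠ 0) {d t : ℕ} (b : Fin t → M)
    (hb : ∀ i, ∃ G : MvPolynomial (Fin (N + 1)) K, G.IsHomogeneous d ∧
      aeval ((act F)^[j] z) G = b i)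
    (hli : LinearIndependent K b) : t ≤ Fintype.card (QQ F z j) := by
  classical
  set w : Fin (N + 1) → M := (act F)^[j] z with hw
  obtain ⟨i₀, hi₀⟩ : ∃ i, w i ≠ 0 := Function.ne_iff.mp hz
  set E : IntermediateField K M := IntermediateField.adjoin K (Set.range fun i => w i / w i₀)
    with hE
  have hmem : ∀ i, w i / w i₀ ∈ E := fun i => IntermediateField.subset_adjoin K _ ⟨i, rfl⟩
  set u : Fin (N + 1) → E := fun i => ⟨w i / w i₀, hmem i⟩ with hu
  choose G hG hGb using hb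
  have hbe : ∀ i, b i = w i₀ ^ d * (aeval u (G i) : E) := by
    intro i
    have h1 : w = w i₀ • fun i => algebraMap E M (u i) := by
      funext l
      simp only [Pi.smul_apply, smul_eq_mul]
      change w l = w i₀ * (w l / w i₀)
      field_simp
    have h2 := aeval_algebraMap_apply M u (G i)
    rw [← hGb i]
    conv_lhs => rw [h1]
    rw [aeval_smul_hom (hG i)]
    congr 1
  have hli' : LinearIndependent K (fun i => aeval u (G i) : Fin t → E) := by
    refine LinearIndependent.of_comp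
      ((LinearMap.mulLeft K (w i₀ ^ d)) ∘ₗ E.val.toLinearMap) ?_
    have e1 : (⇑((LinearMap.mulLeft K (w i₀ ^ d)) ∘ₗ E.val.toLinearMap) ∘
        fun i => aeval u (G i)) = b := funext fun i => (hbe i).symm
    rw [e1]
    exact hli
  have h1 := hli'.fintype_card_le_finrank
  rw [Fintype.card_fin] at h1
  refine h1.trans ?_
  rw [IntermediateField.finrank_eq_fixingSubgroup_index M E, ← Nat.card_eq_fintype_card]
  change Nat.card (Gal(M/K) ⧸ E.fixingSubgroup) ≤ _
  apply Nat.card_le_card_of_injective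
    (fun c : Gal(M/K) ⧸ E.fixingSubgroup => (Quotient.mk (ptS F z j) c.out))
  intro c c' hcc
  obtain ⟨a, ha, haa⟩ : (ptS F z j) c.out c'.out := Quotient.exact hcc
  rw [← QuotientGroup.out_eq' c, ← QuotientGroup.out_eq' c', QuotientGroup.eq]
  rw [IntermediateField.mem_fixingSubgroup_iff]
  have h2 : ∀ i, c.out (w i) = a * c'.out (w i) := by
    intro i
    have h3 := congrFun haa i
    unfold pt at h3
    rw [act_gal_iter, act_gal_iter] at h3
    exact h3
  have h3 : ∀ i, (c.out⁻¹ * c'.out) (w i / w i₀) = w i / w i₀ := by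
    intro i
    rw [AlgEquiv.mul_apply]
    have h4 : c'.out (w i / w i₀) = c.out (w i / w i₀) := by
      rw [map_div₀, map_div₀, h2, h2, mul_div_mul_left _ _ ha]
    rw [h4, ← AlgEquiv.mul_apply, inv_mul_cancel, AlgEquiv.one_apply]
  intro x hx
  induction hx using IntermediateField.adjoin_induction with
  | mem x hx =>
    obtain ⟨i, rfl⟩ := hx
    exact h3 i
  | algebraMap x => exact AlgEquiv.commutes _ x
  | add x y _ _ hx hy => rw [map_add, hx, hy]
  | inv x _ hx => rw [map_inv₀, hx]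
  | mul x y _ _ hx hy => rw [map_mul, hx, hy]

end Rank

variable {K : Type} [Field K] [NumberField K] {N : ℕ}
variable {F : Fin (N + 1) → MvPolynomial (Fin (N + 1)) K} {q : ℕ}
variable {P : Ideal (𝓞 K)} [hP : P.IsMaximal]
variable {L : Type} [Field L] [NumberField L] [Algebra K L]
variable {F' : Fin (N + 1) → MvPolynomial (Fin (N + 1)) (𝓞 K)} {ϖ : 𝓞 K}

lemma exists_pr (h : GoodN P F q) (hP0 : P ≠ ⊥) :
    ∃ p r : ℕ, p.Prime ∧ q = p ^ r ∧ 1 ≤ r ∧ (p : 𝓞 K) ∈ P := by
  obtain ⟨k, hk, hq⟩ := h.pow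
  let : Field (𝓞 K ⧸ P) := Ideal.Quotient.field P
  have hfin : Finite (𝓞 K ⧸ P) := Ideal.finiteQuotientOfFreeOfNeBot P hP0
  let : Fintype (𝓞 K ⧸ P) := Fintype.ofFinite _
  have hcard : Ideal.absNorm P = Fintype.card (𝓞 K ⧸ P) := by
    rw [Ideal.absNorm_apply, Submodule.cardQuot_apply, Nat.card_eq_fintype_card]
  obtain ⟨p, hp⟩ := CharP.exists (𝓞 K ⧸ P)
  obtain ⟨n, hpp, hn⟩ := FiniteField.card (𝓞 K ⧸ P) p
  refine ⟨p, n * k, hpp, ?_, Nat.mul_pos n.pos hk, ?_⟩
  · rw [hq, hcard, hn, ← pow_mul]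
  · rw [← Ideal.Quotient.eq_zero_iff_mem, map_natCast]
    exact CharP.cast_eq_zero _ p

lemma DD.iter_frob (h : DD P F' q ϖ) (G : MvPolynomial (Fin (N + 1)) (𝓞 K)) (i : ℕ) :
    (bind₁ F')^[i] G - G ^ q ^ i ∈ P.map C := by
  have hqC : (q : MvPolynomial (Fin (N + 1)) (𝓞 K)) ∈ P.map C := by
    have := Ideal.mem_map_of_mem (C : 𝓞 K →+* MvPolynomial (Fin (N + 1)) (𝓞 K)) h.qmem
    rwa [map_natCast] at this
  induction i with
  | zero => simp
  | succ i ih =>
    rw [Function.iterate_succ_apply']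
    have h1 := h.frob ((bind₁ F')^[i] G)
    have h2 := pow_sub_pow_mem hqC (s := 1) le_rfl (by rw [pow_one]; exact ih)
    have h3 := Ideal.pow_le_self (by norm_num) h2
    have h4 := Ideal.add_mem _ h1 h3
    rw [sub_add_sub_cancel, ← pow_mul, ← pow_succ] at h4
    exact h4

lemma DD.aeval_frob (h : DD P F' q ϖ) (x : Fin (N + 1) → 𝓞 L)
    (G : MvPolynomial (Fin (N + 1)) (𝓞 K)) (i : ℕ) :
    aeval ((actR F')^[i] x) G - aeval x G ^ q ^ i ∈ P.map (algebraMap (𝓞 K) (𝓞 L)) := by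
  have h1 := aeval_mem_pow x (t := 1) (by rw [pow_one]; exact h.iter_frob G i)
  rw [pow_one, map_sub, aeval_iter, map_pow] at h1
  exact h1

/-- the values of the forms of degree `d` -/
def LA (x : Fin (N + 1) → 𝓞 L) (d : ℕ) : AddSubgroup (𝓞 L) :=
  ((homogeneousSubmodule (Fin (N + 1)) (𝓞 K) d).toAddSubgroup).map
    ((aeval x : MvPolynomial (Fin (N + 1)) (𝓞 K) →ₐ[𝓞 K] 𝓞 L) :
      MvPolynomial (Fin (N + 1)) (𝓞 K) →+ 𝓞 L)

lemma mem_LA {x : Fin (N + 1) → 𝓞 L} {d : ℕ} {y : 𝓞 L} : y ∈ LA (K := K) x d ↔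
    ∃ a : MvPolynomial (Fin (N + 1)) (𝓞 K), a.IsHomogeneous d ∧ aeval x a = y := by
  unfold LA
  rw [AddSubgroup.mem_map]
  rfl

lemma coe_iter (hmap : ∀ i, map (algebraMap (𝓞 K) K) (F' i) = F i) (x : Fin (N + 1) → 𝓞 L)
    (j : ℕ) : (fun i => (((actR F')^[j] x i : 𝓞 L) : L)) = (act F)^[j] fun i => (x i : L) := by
  induction j with
  | zero => rfl
  | succ j ih =>
    rw [Function.iterate_succ_apply', Function.iterate_succ_apply', ← ih]
    funext i
    unfold actR act
    rw [← hmap i, aeval_map_algebraMap]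
    exact (aeval_algebraMap_apply L ((actR F')^[j] x) (F' i)).symm

variable {M : Type} [Field M] [NumberField M] [Algebra K M] [Algebra L M] [IsScalarTower K L M]
  [IsGalois K M]

/-- **the count** -/
theorem count_vals (h : GoodN P F q) (hd : DD P F' q ϖ) (hP0 : P ≠ ⊥)
    (hmap : ∀ i, map (algebraMap (𝓞 K) K) (F' i) = F i)
    (x : Fin (N + 1) → 𝓞 L) (i j d : ℕ) (hj : (act F)^[j] (fun l => (x l : L)) ≠ 0) :
    ((fun a : MvPolynomial (Fin (N + 1)) (𝓞 K) =>
      Ideal.Quotient.mk (P.map (algebraMap (𝓞 K) (𝓞 L))) (aeval ((actR F')^[i] x) a)) ''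
      {a | a.IsHomogeneous d}).ncard ≤
      P.absNorm ^ (finrank K L / q ^ i +
        Fintype.card (QQ F (fun l => algebraMap L M (x l : L)) j)) := by
  obtain ⟨p, r, hp, hq, hr, hpP⟩ := exists_pr h hP0
  have hpP' : (p : 𝓞 L) ∈ P.map (algebraMap (𝓞 K) (𝓞 L)) := by
    have := Ideal.mem_map_of_mem (algebraMap (𝓞 K) (𝓞 L)) hpP
    rwa [map_natCast] at this
  have hqi : ∀ i, q ^ i = p ^ (r * i) := fun i => by rw [hq, ← pow_mul]
  have hfin : Finite (𝓞 L ⧸ P.map (algebraMap (𝓞 K) (𝓞 L))) := by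
    apply Ideal.finiteQuotientOfFreeOfNeBot
    intro h0
    exact hP0 ((Ideal.map_eq_bot_iff_of_injective
      (FaithfulSMul.algebraMap_injective (𝓞 K) (𝓞 L))).mp h0)
  have h1 : ((fun a : MvPolynomial (Fin (N + 1)) (𝓞 K) =>
      Ideal.Quotient.mk (P.map (algebraMap (𝓞 K) (𝓞 L))) (aeval ((actR F')^[i] x) a)) ''
      {a | a.IsHomogeneous d}) ⊆
      ((fun y => Ideal.Quotient.mk (P.map (algebraMap (𝓞 K) (𝓞 L))) (y ^ p ^ (r * i))) ''
      (LA (K := K) x d : Set (𝓞 L))) := by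
    rintro _ ⟨a, ha, rfl⟩
    refine ⟨aeval x a, mem_LA.mpr ⟨a, ha, rfl⟩, ?_⟩
    rw [← hqi]
    exact (Ideal.Quotient.eq.mpr (hd.aeval_frob x a i)).symm
  refine (Set.ncard_le_ncard h1 (Set.toFinite _)).trans ?_
  refine (card_pow_le hP0 hp hpP' (LA (K := K) x d)).trans ?_
  rw [pow_add, ← hqi]
  refine Nat.mul_le_mul_left _ ?_
  have h2 : ∀ y ∈ LA (K := K) x d, ∃ y' ∈ LA (K := K) ((actR F')^[j] x) d,
      y' - y ^ p ^ (r * j) ∈ rad L P := by
    intro y hy
    obtain ⟨a, ha, rfl⟩ := mem_LA.mp hy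
    refine ⟨aeval ((actR F')^[j] x) a, mem_LA.mpr ⟨a, ha, rfl⟩, ?_⟩
    rw [← hqi]
    exact map_le_rad hP0 (hd.aeval_frob x a j)
  refine (relIndex_pow_le hP0 hp hpP' h2).trans ?_
  apply relIndex_le_of_rank hP0
  intro t b hb hli
  have hinj := FaithfulSMul.algebraMap_injective L M
  have : IsScalarTower (𝓞 K) L M := IsScalarTower.of_algebraMap_eq fun c => by
    rw [IsScalarTower.algebraMap_apply (𝓞 K) K M, IsScalarTower.algebraMap_apply (𝓞 K) K L,
      IsScalarTower.algebraMap_apply K L M]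
  have hact : (act F)^[j] (fun l => algebraMap L M (x l : L)) =
      fun l => algebraMap L M ((act F)^[j] (fun l => (x l : L)) l) :=
    act_iter_base F _ j
  refine rank_le (F := F) (z := fun l => algebraMap L M (x l : L)) (j := j) (d := d) ?_
    (fun s => algebraMap L M (b s : L)) ?_ ?_
  · rw [hact]
    intro h0
    apply hj
    funext l
    have := congrFun h0 l
    exact hinj (by rw [Pi.zero_apply, map_zero]; exact this)
  · intro s
    obtain ⟨a, ha, hab⟩ := mem_LA.mp (hb s)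
    refine ⟨map (algebraMap (𝓞 K) K) a, ha.map _, ?_⟩
    rw [hact, ← hab, aeval_map_algebraMap]
    have e1 : (fun l => algebraMap L M ((act F)^[j] (fun l => (x l : L)) l)) =
        algebraMap L M ∘ fun l => (((actR F')^[j] x l : 𝓞 L) : L) := by
      rw [coe_iter hmap x j]
      rfl
    rw [e1, aeval_algebraMap_apply]
    congr 1
    exact aeval_algebraMap_apply L ((actR F')^[j] x) a
  · have h5 := hli.map' ((IsScalarTower.toAlgHom K L M).toLinearMap)
      (LinearMap.ker_eq_bot.mpr hinj)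
    exact h5

end

end Pool.Agent.L5helper9.Ql
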