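import Mathlib
import Pool.Agent.L5helper9.Ql4

/-!
Coordinate vectors which are integral, and unimodular at all primes above a given prime.
-/

set_option autoImplicit false
set_option linter.unusedSectionVars false

namespace Pool.Agent.L5helper9.Ql

open NumberField Module IsDedekindDomain
open Pool.Agent.H420R3 (mi TP mem_TP TP_nonempty exists_frac v_lt_one_iff v_le_one)
open Pool.Agent.W238.Leh (nmf nmf_pos le_nmf nmf_le v_nonneg v_sum_le)
open Pool.Agent.H627.LP (exists_nmf v_sub_le)

noncomputable section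

variable {K : Type} [Field K] [NumberField K] {L : Type} [Field L] [NumberField L] [Algebra K L]
variable {P : Ideal (𝓞 K)} [hP : P.IsMaximal] {N : ℕ}

lemma prime_above (hP0 : P ≠ ⊥) {𝔭 : Ideal (𝓞 L)} (h𝔭 : 𝔭.IsPrime)
    (h : P.map (algebraMap (𝓞 K) (𝓞 L)) ≤ 𝔭) : ∃ w ∈ TP L P, 𝔭 = mi w := by
  rw [map_eq_prod hP0] at h
  obtain ⟨w, hw, hw'⟩ := (Ideal.IsPrime.prod_le h𝔭).mp h
  have h1 : mi w ≤ 𝔭 := by
    intro z hz
    exact h𝔭.mem_of_pow_mem _ (hw' (Ideal.pow_mem_pow hz _))
  refine ⟨w, hw, ?_⟩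
  exact ((inferInstance : (mi w).IsMaximal).eq_of_le h𝔭.ne_top h1).symm

/-- a combination of the coordinates of maximal absolute value at all places above `P` -/
lemma exists_comb {x : Fin (N + 1) → L} (hx : x ≠ 0) :
    ∃ y : L, ∀ w ∈ TP L P, w y = nmf w x := by
  classical
  choose i hi using fun w : FinitePlace L => exists_nmf (v := w) x
  have h1 : ∀ l : Fin (N + 1), ∃ c : 𝓞 L, ∀ w ∈ TP L P, c - (if l = i w then 1 else 0) ∈ mi w := by
    intro l
    obtain ⟨c, hc⟩ := IsDedekindDomain.exists_forall_sub_mem_ideal (s := TP L P)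
      (fun w => mi w) (fun _ => 1)
      (fun w _ => Ideal.prime_of_isPrime (H420R3.mi_ne_bot w) inferInstance)
      (fun w _ w' _ hne h => hne (by
        apply FinitePlace.maximalIdeal_injective
        exact HeightOneSpectrum.ext h)) (fun w => if l = i w then 1 else 0)
    refine ⟨c, fun w hw => ?_⟩
    have := hc w hw
    rwa [pow_one] at this
  choose c hc using h1
  refine ⟨∑ l, (c l : L) * x l, fun w hw => ?_⟩
  have hpos := nmf_pos w hx
  have hle : ∀ l, w ((c l : L) * x l) ≤ nmf w x := by
    intro l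
    rw [map_mul]
    calc w (c l : L) * w (x l) ≤ 1 * nmf w x :=
          mul_le_mul (v_le_one w _) (le_nmf w x l) (v_nonneg w _) zero_le_one
      _ = _ := one_mul _
  apply le_antisymm
  · exact v_sum_le w _ _ hpos.le fun l _ => hle l
  · by_contra hcon
    push Not at hcon
    rw [← Finset.add_sum_erase _ _ (Finset.mem_univ (i w))] at hcon
    set A := (c (i w) : L) * x (i w) with hA
    set B := ∑ l ∈ Finset.univ.erase (i w), (c l : L) * x l with hB
    have hAv : w A = nmf w x := by
      rw [hA, map_mul, hi w]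
      have h2 : w (c (i w) : L) = 1 := by
        apply le_antisymm (v_le_one w _)
        by_contra h3
        push Not at h3
        rw [v_lt_one_iff] at h3
        have h4 := hc (i w) w hw
        rw [if_pos rfl] at h4
        have h5 := (mi w).sub_mem h3 h4
        rw [sub_sub_cancel] at h5
        exact (inferInstance : (mi w).IsMaximal).ne_top
          ((Ideal.eq_top_iff_one _).mpr h5)
      rw [h2, one_mul]
    have hBv : w B < nmf w x := by
      have hBl : ∀ l ∈ Finset.univ.erase (i w), w ((c l : L) * x l) ≤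
          (H420R3.nv w)⁻¹ * nmf w x := by
        intro l hl
        have h2 := hc l w hw
        rw [if_neg (Finset.ne_of_mem_erase hl), sub_zero] at h2
        have h3 := (H420R3.v_le_iff w (c l) 1).mpr (by rwa [pow_one])
        rw [pow_one] at h3
        rw [map_mul]
        exact mul_le_mul h3 (le_nmf w x l) (v_nonneg w _)
          (inv_nonneg.mpr (H420R3.nv_pos w).le)
      refine lt_of_le_of_lt (v_sum_le w _ _ (by
        have := H420R3.nv_pos w
        positivity) hBl) ?_
      have h4 := inv_lt_one_of_one_lt₀ (H420R3.one_lt_nv w)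
      calc (H420R3.nv w)⁻¹ * nmf w x < 1 * nmf w x := mul_lt_mul_of_pos_right h4 hpos
        _ = _ := one_mul _
    have h6 := v_sub_le w (A + B) B
    rw [add_sub_cancel_right, hAv] at h6
    have := max_lt hcon hBv
    linarith

/-- **normalised coordinates** -/
theorem exists_norm (hP0 : P ≠ ⊥) {x : Fin (N + 1) → L} (hx : x ≠ 0) :
    ∃ (x' : Fin (N + 1) → 𝓞 L) (b : L), b ≠ 0 ∧ (x = b • fun l => (x' l : L)) ∧
      ∀ 𝔭 : Ideal (𝓞 L), 𝔭.IsPrime → P.map (algebraMap (𝓞 K) (𝓞 L)) ≤ 𝔭 →
        ∃ l, x' l ∉ 𝔭 := by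
  classical
  obtain ⟨y, hy⟩ := exists_comb (P := P) hx
  obtain ⟨w₀, hw₀⟩ := TP_nonempty (M := L) (P := P) hP0
  have hy0 : y ≠ 0 := by
    intro h
    have h1 := hy w₀ hw₀
    rw [h, map_zero] at h1
    have := nmf_pos w₀ hx
    linarith
  set z : Fin (N + 1) → L := fun l => x l / y with hz
  have hzv : ∀ w ∈ TP L P, ∀ l, w (z l) ≤ 1 := by
    intro w hw l
    simp only [hz]
    rw [map_div₀, hy w hw]
    exact (div_le_one (nmf_pos w hx)).mpr (le_nmf w x l)
  -- the ideal of denominators
  let D : Ideal (𝓞 L) :=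
    { carrier := {b | ∀ l, ∃ a : 𝓞 L, (b : L) * z l = (a : L)}
      add_mem' := by
        intro b b' hb hb' l
        obtain ⟨a, ha⟩ := hb l
        obtain ⟨a', ha'⟩ := hb' l
        refine ⟨a + a', ?_⟩
        push_cast
        rw [add_mul, ha, ha']
        
      zero_mem' := by
        intro l
        exact ⟨0, by simp⟩
      smul_mem' := by
        intro c b hb l
        obtain ⟨a, ha⟩ := hb l
        refine ⟨c * a, ?_⟩
        rw [smul_eq_mul]
        push_cast
        rw [mul_assoc, ha] }
  have hD : ∀ w ∈ TP L P, ¬ D ≤ mi w := by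
    intro w hw hle
    choose a c hc hac using fun l => exists_frac w (hzv w hw l)
    have h1 : ∏ l, c l ∈ D := by
      intro l
      refine ⟨a l * ∏ l' ∈ Finset.univ.erase l, c l', ?_⟩
      have hcl : (c l : L) ≠ 0 := by
        intro h0
        apply hc l
        have : c l = 0 := by exact_mod_cast h0
        rw [this]
        exact Ideal.zero_mem _
      rw [← Finset.mul_prod_erase _ _ (Finset.mem_univ l), hac l]
      push_cast
      field_simp
    have h2 := hle h1
    rw [Ideal.IsPrime.prod_mem_iff] at h2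
    obtain ⟨l, -, hl⟩ := h2
    exact hc l hl
  obtain ⟨b, hbD, hb⟩ : ∃ b ∈ D, ∀ w ∈ TP L P, b ∉ mi w := by
    by_contra hcon
    push Not at hcon
    have h1 : (D : Set (𝓞 L)) ⊆ ⋃ w ∈ (TP L P : Set (FinitePlace L)), (mi w : Set (𝓞 L)) := by
      intro b hb
      obtain ⟨w, hw, hbw⟩ := hcon b hb
      simp only [Set.mem_iUnion]
      exact ⟨w, hw, hbw⟩
    rw [Ideal.subset_union_prime w₀ w₀ (fun w _ _ _ => inferInstance)] at h1
    obtain ⟨w, hw, hle⟩ := h1
    exact hD w hw hle
  choose x' hx' using hbD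
  have hb0 : (b : L) ≠ 0 := by
    intro h0
    apply hb w₀ hw₀
    have : b = 0 := by exact_mod_cast h0
    rw [this]
    exact Ideal.zero_mem _
  refine ⟨x', y / b, div_ne_zero hy0 hb0, ?_, ?_⟩
  · funext l
    simp only [Pi.smul_apply, smul_eq_mul]
    rw [← hx' l]
    simp only [hz]
    field_simp
  · intro 𝔭 h𝔭 hle
    obtain ⟨w, hw, rfl⟩ := prime_above hP0 h𝔭 hle
    obtain ⟨l, hl⟩ := exists_nmf (v := w) x
    refine ⟨l, fun hmem => ?_⟩
    rw [← v_lt_one_iff, ← hx' l, map_mul] at hmem
    have h1 : w (z l) = 1 := by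
      simp only [hz]
      rw [map_div₀, hy w hw, hl]
      exact div_self (nmf_pos w hx).ne'
    have h2 : w (b : L) = 1 := by
      apply le_antisymm (v_le_one w _)
      by_contra h3
      push Not at h3
      exact hb w hw ((v_lt_one_iff w b).mp h3)
    rw [h1, h2] at hmem
    norm_num at hmem

end

end Pool.Agent.L5helper9.Ql
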