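import Mathlib
import Pool.Agent.L5helper9.Ql2

/-!
The forms with small values at all late iterates: a bound for the index of their leading
coefficients.
-/

set_option autoImplicit false
set_option linter.unusedSectionVars false

namespace Pool.Agent.L5helper9.Ql

open MvPolynomial NumberField Module IsDedekindDomain

noncomputable section

/-- monomials of degree `d` -/
def md {N : ℕ} (d : ℕ) : Finset (Fin (N + 1) →₀ ℕ) := Finset.univ.finsuppAntidiag d

lemma mem_md {N d : ℕ} {w : Fin (N + 1) →₀ ℕ} : w ∈ md d ↔ w.degree = d := by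
  unfold md
  rw [Finset.mem_finsuppAntidiag, Finsupp.degree_eq_sum]
  constructor
  · rintro ⟨h, -⟩
    exact h
  · intro h
    exact ⟨h, Finset.subset_univ _⟩

variable {K : Type} [Field K] [NumberField K] {N : ℕ}
variable {P : Ideal (𝓞 K)} [hP : P.IsMaximal]
variable {L : Type} [Field L] [NumberField L] [Algebra K L]
variable {F : Fin (N + 1) → MvPolynomial (Fin (N + 1)) (𝓞 K)} {q : ℕ} {ϖ : 𝓞 K}

/-- forms of degree `d` with small values at the iterates `n, …, n + k - 1` of `y` -/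
def JJ (P : Ideal (𝓞 K)) (F : Fin (N + 1) → MvPolynomial (Fin (N + 1)) (𝓞 K))
    (y : Fin (N + 1) → 𝓞 L) (n k d : ℕ) : Set (MvPolynomial (Fin (N + 1)) (𝓞 K)) :=
  {G | G.IsHomogeneous d ∧ ∀ t, n ≤ t → t < n + k →
    aeval ((actR F)^[t] y) G ∈ (P.map (algebraMap (𝓞 K) (𝓞 L))) ^ (n + 1)}

/-- the values of the forms of degree `d` at `y` modulo `P` -/
def vals (P : Ideal (𝓞 K)) (y : Fin (N + 1) → 𝓞 L) (d : ℕ) :
    Set (𝓞 L ⧸ P.map (algebraMap (𝓞 K) (𝓞 L))) :=
  (fun a : MvPolynomial (Fin (N + 1)) (𝓞 K) =>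
    Ideal.Quotient.mk (P.map (algebraMap (𝓞 K) (𝓞 L))) (aeval y a)) '' {a | a.IsHomogeneous d}

lemma card_quot_pow (c : ℕ) : Nat.card (𝓞 K ⧸ P ^ c) = P.absNorm ^ c := by
  rw [← Submodule.cardQuot_apply, ← Ideal.absNorm_apply, map_pow]

/-- **the index bound** -/
theorem exists_gens (hd : DD P F q ϖ) (hP0 : P ≠ ⊥)
    (hϖ : ∀ t : ℕ, ϖ ^ t ∈ P ^ t ∧ ϖ ^ t ∉ P ^ (t + 1)) (y : Fin (N + 1) → 𝓞 L) (n k : ℕ)
    {E : ℕ} (hE : ∀ d, (vals P y d).ncard ≤ P.absNorm ^ E) (mo : MonomialOrder (Fin (N + 1))) :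
    ∃ (c : (Fin (N + 1) →₀ ℕ) → ℕ)
      (G : (Fin (N + 1) →₀ ℕ) → MvPolynomial (Fin (N + 1)) (𝓞 K)),
      (∀ w, G w ∈ JJ P F y n k w.degree ∧ mo.degree (G w) = w ∧ (G w).coeff w ∉ P ^ (c w + 1)) ∧
      ∀ d, ∑ w ∈ md d, c w ≤ (n + 1) * E := by
  classical
  have hfin : Finite (𝓞 L ⧸ P.map (algebraMap (𝓞 K) (𝓞 L))) := by
    apply Ideal.finiteQuotientOfFreeOfNeBot
    intro h0
    exact hP0 ((Ideal.map_eq_bot_iff_of_injective
      (FaithfulSMul.algebraMap_injective (𝓞 K) (𝓞 L))).mp h0)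
  have hq0 : 2 ≤ P.absNorm := by
    have h1 : P.absNorm ≠ 1 := by
      intro h
      exact hP.ne_top (Ideal.absNorm_eq_one_iff.mp h)
    have h2 : P.absNorm ≠ 0 := by
      intro h
      exact hP0 (Ideal.absNorm_eq_zero_iff.mp h)
    omega
  -- the minimal exponents
  have hex : ∀ w : Fin (N + 1) →₀ ℕ, ∃ c : ℕ, ∃ G ∈ JJ P F y n k w.degree,
      mo.degree G = w ∧ G.coeff w ∉ P ^ (c + 1) := by
    intro w
    have hw0 : ϖ ^ (n + 1) ≠ 0 := by
      intro h0
      apply (hϖ (n + 1)).2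
      rw [h0]
      exact Ideal.zero_mem _
    refine ⟨n + 1, monomial w (ϖ ^ (n + 1)), ⟨isHomogeneous_monomial _ rfl, ?_⟩, ?_, ?_⟩
    · intro t _ _
      rw [aeval_monomial]
      apply Ideal.mul_mem_right
      rw [← Ideal.map_pow]
      exact Ideal.mem_map_of_mem _ (hϖ (n + 1)).1
    · rw [MonomialOrder.degree_monomial, if_neg hw0]
    · rw [coeff_monomial, if_pos rfl]
      exact (hϖ (n + 1)).2
  set c : (Fin (N + 1) →₀ ℕ) → ℕ := fun w => Nat.find (hex w) with hc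
  have hcspec := fun w => Nat.find_spec (hex w)
  have hcmin : ∀ w (c' : ℕ), c' < c w → ∀ G ∈ JJ P F y n k w.degree, mo.degree G = w →
      G.coeff w ∈ P ^ (c' + 1) := by
    intro w c' hc' G hG hGw
    by_contra hcon
    exact Nat.find_min (hex w) hc' ⟨G, hG, hGw, hcon⟩
  choose G hG1 hG2 hG3 using hcspec
  refine ⟨c, G, fun w => ⟨hG1 w, hG2 w, hG3 w⟩, fun d => ?_⟩
  -- polynomials with digits
  set g : ((w : md (N := N) d) → 𝓞 K ⧸ P ^ c w) → MvPolynomial (Fin (N + 1)) (𝓞 K) :=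
    fun e => ∑ w : md (N := N) d, monomial w.1 (Quotient.out (e w)) with hg
  have hghom : ∀ e, (g e).IsHomogeneous d := by
    intro e
    apply IsHomogeneous.sum
    intro w _
    exact isHomogeneous_monomial _ (mem_md.mp w.2)
  have hgcoeff : ∀ e (w : md (N := N) d), (g e).coeff w.1 = Quotient.out (e w) := by
    intro e w
    simp only [hg]
    rw [coeff_sum]
    simp only [coeff_monomial]
    rw [Finset.sum_eq_single w]
    · rw [if_pos rfl]
    · intro w' _ hw'
      rw [if_neg]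
      intro h
      exact hw' (Subtype.ext h)
    · intro h
      exact absurd (Finset.mem_univ _) h
  have hgJ : ∀ e e', g e - g e' ∈ JJ P F y n k d → e = e' := by
    intro e e' hJ
    by_contra hne
    obtain ⟨w, hw⟩ := Function.ne_iff.mp hne
    have h0 : g e - g e' ≠ 0 := by
      intro h0
      apply hw
      have h1 : (g e - g e').coeff w.1 = 0 := by rw [h0, coeff_zero]
      rw [coeff_sub, hgcoeff, hgcoeff, sub_eq_zero] at h1
      rw [← Quotient.out_eq (e w), ← Quotient.out_eq (e' w), h1]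
    set w₀ := mo.degree (g e - g e') with hw₀
    have h1 : (g e - g e').coeff w₀ ≠ 0 := MonomialOrder.coeff_degree_ne_zero_iff.mpr h0
    have h2 : w₀ ∈ md (N := N) d := by
      rw [mem_md]
      have h3 := hJ.1 h1
      rw [Finsupp.degree_eq_weight_one]
      exact h3
    have h3 : (g e - g e').coeff w₀ =
        Quotient.out (e ⟨w₀, h2⟩) - Quotient.out (e' ⟨w₀, h2⟩) := by
      rw [coeff_sub, ← hgcoeff e ⟨w₀, h2⟩, ← hgcoeff e' ⟨w₀, h2⟩]
    have h4 : e ⟨w₀, h2⟩ ≠ e' ⟨w₀, h2⟩ := by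
      intro h5
      rw [h3, h5, sub_self] at h1
      exact h1 rfl
    have h5 : (g e - g e').coeff w₀ ∉ P ^ c w₀ := by
      intro h6
      apply h4
      rw [h3] at h6
      rw [← Quotient.out_eq (e ⟨w₀, h2⟩), ← Quotient.out_eq (e' ⟨w₀, h2⟩)]
      exact Ideal.Quotient.eq.mpr h6
    rcases Nat.eq_zero_or_pos (c w₀) with h6 | h6
    · rw [h6, pow_zero, Ideal.one_eq_top] at h5
      exact h5 Submodule.mem_top
    · have h7 := hcmin w₀ (c w₀ - 1) (by omega) (g e - g e') (by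
        rw [mem_md.mp h2]
        exact hJ) rfl
      rw [Nat.sub_add_cancel h6] at h7
      exact h5 h7
  -- the data
  choose a ha1 ha2 using fun e => hd.dwork (hghom e) (n + 1) (n + k)
  set dat : ((w : md (N := N) d) → 𝓞 K ⧸ P ^ c w) →
      ((l : Fin (n + 1)) → vals (L := L) P y (q ^ (l : ℕ) * d)) := fun e l =>
    ⟨Ideal.Quotient.mk (P.map (algebraMap (𝓞 K) (𝓞 L))) (aeval y (a e l)),
      ⟨a e l, ha1 e l, rfl⟩⟩ with hdat
  have hinj : Function.Injective dat := by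
    intro e e' hee
    apply hgJ
    refine ⟨(hghom e).sub (hghom e'), ?_⟩
    intro t hnt htk
    refine hd.cong y (by omega) (ha2 e t (by omega)) (ha2 e' t (by omega)) ?_
    intro l hl
    have h1 := congrArg Subtype.val (congrFun hee ⟨l, hl⟩)
    exact Ideal.Quotient.eq.mp h1
  have h1 := Nat.card_le_card_of_injective dat hinj
  rw [Nat.card_pi, Nat.card_pi] at h1
  have h2 : ∏ l : Fin (n + 1), Nat.card (vals (L := L) P y (q ^ (l : ℕ) * d)) ≤
      (P.absNorm ^ E) ^ (n + 1) := by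
    refine (Finset.prod_le_pow_card _ _ (P.absNorm ^ E) fun l _ => ?_).trans (le_of_eq ?_)
    · rw [Nat.card_coe_set_eq]
      exact hE _
    · rw [Finset.card_univ, Fintype.card_fin]
  have h3 : ∏ w : md (N := N) d, Nat.card (𝓞 K ⧸ P ^ c w) = P.absNorm ^ ∑ w ∈ md d, c w := by
    rw [← Finset.prod_pow_eq_pow_sum, ← Finset.prod_coe_sort (md (N := N) d)]
    exact Finset.prod_congr rfl fun w _ => card_quot_pow _
  rw [h3] at h1
  have h4 := h1.trans h2
  rw [← pow_mul, mul_comm E] at h4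
  exact (Nat.pow_le_pow_iff_right (by omega)).mp h4

end

end Pool.Agent.L5helper9.Ql
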