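import Mathlib
import Pool.Agent.H627.LP.Orb

/-!
Determinants over a discretely valued field whose rows are combinations of vectors in triangular
position modulo small vectors.
-/

set_option autoImplicit false
set_option linter.unusedSectionVars false

namespace Pool.Agent.L5helper9.Ql

open NumberField Module
open Pool.Agent.H627.LP (det_rows_le v_sub_le)
open Pool.Agent.W238.Leh (v_nonneg v_sum_le)

noncomputable section

variable {M : Type} [Field M] [NumberField M] (v : FinitePlace M) {ι : Type} [Fintype ι]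
  [DecidableEq ι] {α : Type} [LinearOrder α]

/-- `w` is an integral combination of the vectors `E u`, `u ∈ S`, up to an error of size `θ` -/
def Rep (S : Finset α) (E : α → ι → M) (θ : ℝ) (w : ι → M) : Prop :=
  ∃ c : α → M, (∀ u, v (c u) ≤ 1) ∧ ∀ i, v (w i - ∑ u ∈ S, c u * E u i) ≤ θ

variable {v} {S : Finset α} {E : α → ι → M} {θ : ℝ}

lemma Rep.add {w w' : ι → M} (h : Rep v S E θ w) (h' : Rep v S E θ w') :
    Rep v S E θ (w + w') := by
  obtain ⟨c, hc, hc'⟩ := h
  obtain ⟨d, hd, hd'⟩ := h'
  refine ⟨fun u => c u + d u, fun u => ?_, fun i => ?_⟩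
  · exact (FinitePlace.add_le v _ _).trans (max_le (hc u) (hd u))
  · have e1 : (w + w') i - ∑ u ∈ S, (c u + d u) * E u i =
        (w i - ∑ u ∈ S, c u * E u i) + (w' i - ∑ u ∈ S, d u * E u i) := by
      simp only [Pi.add_apply, add_mul, Finset.sum_add_distrib]
      ring
    rw [e1]
    exact (FinitePlace.add_le v _ _).trans (max_le (hc' i) (hd' i))

lemma Rep.smul {w : ι → M} (h : Rep v S E θ w) {a : M} (ha : v a ≤ 1) :
    Rep v S E θ (a • w) := by
  obtain ⟨c, hc, hc'⟩ := h
  refine ⟨fun u => a * c u, fun u => ?_, fun i => ?_⟩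
  · rw [map_mul]
    exact mul_le_one₀ ha (v_nonneg v _) (hc u)
  · have e1 : (a • w) i - ∑ u ∈ S, a * c u * E u i = a * (w i - ∑ u ∈ S, c u * E u i) := by
      rw [mul_sub, Finset.mul_sum]
      simp only [Pi.smul_apply, smul_eq_mul, mul_assoc]
    rw [e1, map_mul]
    calc v a * v (w i - ∑ u ∈ S, c u * E u i) ≤ 1 * θ :=
          mul_le_mul ha (hc' i) (v_nonneg v _) zero_le_one
      _ = θ := one_mul θ

lemma Rep.split {b : α} (hb : b ∉ S) {w : ι → M} (h : Rep v (insert b S) E θ w) :
    ∃ c : M, v c ≤ 1 ∧ Rep v S E θ (w - c • E b) := by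
  obtain ⟨c, hc, hc'⟩ := h
  refine ⟨c b, hc b, c, hc, fun i => ?_⟩
  have h1 := hc' i
  rw [Finset.sum_insert hb] at h1
  have e1 : (w - c b • E b) i - ∑ u ∈ S, c u * E u i =
      w i - (c b * E b i + ∑ u ∈ S, c u * E u i) := by
    simp only [Pi.sub_apply, Pi.smul_apply, smul_eq_mul]
    ring
  rw [e1]
  exact h1

/-- **determinants of vectors in triangular position** -/
theorem det_gain (β : α → M) (d : α → ℕ) {ρ : ℝ} (hρ0 : 0 < ρ) (hρ1 : ρ ≤ 1)
    (hθ : 0 ≤ θ) (S : Finset α) (hβ1 : ∀ u ∈ S, v (β u) ≤ 1)
    (hβ : ∀ u ∈ S, ρ ^ d u ≤ v (β u))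
    (hE : ∀ u ∈ S, Rep v (S.filter (· < u)) E θ (β u • E u)) (hι : Nonempty ι)
    (W : Matrix ι ι M) (hW : ∀ i, Rep v S E θ (W i)) :
    v W.det * ρ ^ (∑ u ∈ S, d u) ≤ θ ^ Fintype.card ι := by
  classical
  induction S using Finset.induction_on_max generalizing W with
  | empty =>
    rw [Finset.sum_empty, pow_zero, mul_one]
    have h1 := det_rows_le v W (fun _ => θ) (fun _ => hθ) (by
      intro i j
      obtain ⟨c, -, hc⟩ := hW i
      have h2 := hc j
      rw [Finset.sum_empty, sub_zero] at h2
      exact h2)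
    rw [Finset.prod_const, Finset.card_univ] at h1
    exact h1
  | insert b S hb ih =>
    have hbS : b ∉ S := fun h => lt_irrefl _ (hb b h)
    have hfil : ∀ u ∈ S, (insert b S).filter (· < u) = S.filter (· < u) := by
      intro u hu
      rw [Finset.filter_insert, if_neg (not_lt.mpr (hb u hu).le)]
    have hfb : (insert b S).filter (· < b) = S := by
      rw [Finset.filter_insert, if_neg (lt_irrefl b)]
      exact Finset.filter_true_of_mem hb
    have ih' := ih (fun u hu => hβ1 u (Finset.mem_insert_of_mem hu))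
      (fun u hu => hβ u (Finset.mem_insert_of_mem hu))
      (fun u hu => by
        have := hE u (Finset.mem_insert_of_mem hu)
        rwa [hfil u hu] at this)
    have hEb := hE b (Finset.mem_insert_self _ _)
    rw [hfb] at hEb
    have hβb := hβ b (Finset.mem_insert_self _ _)
    have hβb1 := hβ1 b (Finset.mem_insert_self _ _)
    rw [Finset.sum_insert hbS]
    have hpow : ρ ^ d b ≤ 1 := pow_le_one₀ hρ0.le hρ1
    choose c hc hcR using fun i => (hW i).split hbS
    obtain ⟨j₀, hj₀⟩ := Finite.exists_max fun i => v (c i)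
    by_cases h0 : c j₀ = 0
    · have h1 : ∀ i, c i = 0 := by
        intro i
        have h2 := hj₀ i
        rw [h0, map_zero] at h2
        by_contra h3
        exact absurd (FinitePlace.pos_iff.mpr h3) (not_lt.mpr h2)
      have h2 := ih' W (fun i => by
        have := hcR i
        rwa [h1 i, zero_smul, sub_zero] at this)
      refine le_trans ?_ h2
      rw [pow_add]
      have h3 : ρ ^ d b * ρ ^ ∑ u ∈ S, d u ≤ 1 * ρ ^ ∑ u ∈ S, d u :=
        mul_le_mul_of_nonneg_right hpow (by positivity)
      rw [one_mul] at h3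
      exact mul_le_mul_of_nonneg_left h3 (v_nonneg v _)
    · have hc0 : 0 < v (c j₀) := FinitePlace.pos_iff.mpr h0
      set t : ι → M := fun i => if i = j₀ then 0 else -(c i / c j₀) with ht
      set W₁ : Matrix ι ι M := Matrix.of fun i j => W i j + t i * W j₀ j with hW₁
      have hdet₁ : W₁.det = W.det := by
        refine Matrix.det_eq_of_forall_row_eq_smul_add_const t j₀ ?_ (fun i j => rfl)
        simp [ht]
      have hrow₀ : W₁ j₀ = W j₀ := by
        funext j
        simp [hW₁, ht]
      set W₂ : Matrix ι ι M := W₁.updateRow j₀ (β b • W₁ j₀) with hW₂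
      have hdet₂ : W₂.det = β b * W.det := by
        rw [hW₂, Matrix.det_updateRow_smul, Matrix.updateRow_eq_self, hdet₁]
      have h2 := ih' W₂ (by
        intro i
        by_cases hi : i = j₀
        · subst hi
          rw [hW₂, Matrix.updateRow_self, hrow₀]
          have h3 : β b • W i = β b • (W i - c i • E b) + c i • (β b • E b) := by
            rw [smul_sub, smul_comm (c i) (β b) (E b), sub_add_cancel]
          rw [h3]
          exact ((hcR i).smul hβb1).add (hEb.smul (hc i))
        · rw [hW₂, Matrix.updateRow_ne hi]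
          have h3 : W₁ i = (W i - c i • E b) + (-(c i / c j₀)) • (W j₀ - c j₀ • E b) := by
            funext j
            simp only [hW₁, Matrix.of_apply, ht, if_neg hi, Pi.add_apply, Pi.sub_apply,
              Pi.smul_apply, smul_eq_mul]
            field_simp
            ring
          rw [h3]
          refine (hcR i).add ((hcR j₀).smul ?_)
          rw [H627.LP.v_neg', map_div₀]
          exact (div_le_one hc0).mpr (hj₀ i))
      rw [hdet₂, map_mul] at h2
      refine le_trans ?_ h2
      rw [pow_add]
      calc v W.det * (ρ ^ d b * ρ ^ ∑ u ∈ S, d u) =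
          ρ ^ d b * (v W.det * ρ ^ ∑ u ∈ S, d u) := by ring
        _ ≤ v (β b) * (v W.det * ρ ^ ∑ u ∈ S, d u) := by
          apply mul_le_mul_of_nonneg_right hβb
          have := v_nonneg v W.det
          positivity
        _ = _ := by ring

end

end Pool.Agent.L5helper9.Ql
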