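import Mathlib
import Pool.Agent.L5helper9.Ql5
import Pool.Agent.L5helper9.Ql6

/-!
Absolute values of elements of powers of a prime of the base field; the classes of exponents.
-/

set_option autoImplicit false
set_option linter.unusedSectionVars false

namespace Pool.Agent.L5helper9.Ql

open MvPolynomial NumberField Module IsDedekindDomain
open Pool.Agent.H420R3 (mi TP mem_TP ew nv nv_pos one_lt_nv)

noncomputable section

section Val

variable {K : Type} [Field K] [NumberField K] {M : Type} [Field M] [NumberField M] [Algebra K M]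
variable {P : Ideal (𝓞 K)} [hP : P.IsMaximal]

lemma exp_ew (v : FinitePlace M) (s : ℕ) :
    Real.exp (-ew K v) ^ s = (nv v ^ ((mi v).ramificationIdx (𝓞 K) * s))⁻¹ := by
  unfold ew
  rw [Real.exp_neg, Real.exp_nat_mul, Real.exp_log (nv_pos v), inv_pow, ← pow_mul]

lemma v_ge (hP0 : P ≠ ⊥) {v : FinitePlace M} (hv : v ∈ TP M P) {c : 𝓞 K} {s : ℕ}
    (hc : c ∉ P ^ (s + 1)) : Real.exp (-ew K v) ^ s ≤ v (algebraMap (𝓞 K) M c) := by
  have hlo := H420R3.liesOver_of_mem hP0 hv
  have hc0 : c ≠ 0 := by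
    rintro rfl
    exact hc (Ideal.zero_mem _)
  have hc0' : algebraMap (𝓞 K) (𝓞 M) c ≠ 0 := by
    intro h
    exact hc0 (FaithfulSMul.algebraMap_injective (𝓞 K) (𝓞 M) (by rw [h, map_zero]))
  have hspan : Ideal.span {c} ≠ ⊥ := by
    rw [Ne, Ideal.span_singleton_eq_bot]
    exact hc0
  have hPirr : Irreducible P := (Ideal.prime_of_isPrime hP0 hP.isPrime).irreducible
  have hvirr : Irreducible (mi v) :=
    (Ideal.prime_of_isPrime (H420R3.mi_ne_bot v) inferInstance).irreducible
  have h1 := Ideal.IsDedekindDomain.emultiplicity_map_eq_ramificationIdx'_mul (v := P)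
    (w := mi v) hspan hPirr hvirr (H420R3.mi_ne_bot v)
  rw [Ideal.map_span, Set.image_singleton, Ideal.ramificationIdx'_eq_ramificationIdx P (mi v) hP0,
    (H420R3.finMult v hc0').emultiplicity_eq_multiplicity] at h1
  have h2 : emultiplicity P (Ideal.span {c}) < ((s + 1 : ℕ) : ℕ∞) := by
    rw [emultiplicity_lt_iff_not_dvd, Ideal.dvd_span_singleton]
    exact hc
  have h3 : FiniteMultiplicity P (Ideal.span {c}) := by
    refine ⟨s, ?_⟩
    rw [Ideal.dvd_span_singleton]
    exact hc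
  rw [h3.emultiplicity_eq_multiplicity] at h1 h2
  have h4 : multiplicity P (Ideal.span {c}) < s + 1 := by exact_mod_cast h2
  have h5 : multiplicity (mi v) (Ideal.span {algebraMap (𝓞 K) (𝓞 M) c}) =
      (mi v).ramificationIdx (𝓞 K) * multiplicity P (Ideal.span {c}) := by
    exact_mod_cast h1
  have h6 := H420R3.v_eq v hc0'
  have h7 : algebraMap (𝓞 K) M c = ((algebraMap (𝓞 K) (𝓞 M) c : 𝓞 M) : M) := rfl
  rw [h7, h6, h5, exp_ew]
  have h8 := one_lt_nv v
  have h9 := nv_pos v
  apply inv_anti₀ (by positivity)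
  apply pow_le_pow_right₀ h8.le
  exact Nat.mul_le_mul_left _ (by omega)

lemma v_le_pow (hP0 : P ≠ ⊥) {v : FinitePlace M} (hv : v ∈ TP M P) {c : 𝓞 K} {s : ℕ}
    (hc : c ∈ P ^ s) : v (algebraMap (𝓞 K) M c) ≤ Real.exp (-ew K v) ^ s := by
  have hlo := H420R3.liesOver_of_mem hP0 hv
  have h1 : algebraMap (𝓞 K) (𝓞 M) c ∈ mi v ^ ((mi v).ramificationIdx (𝓞 K) * s) := by
    have h2 : P.map (algebraMap (𝓞 K) (𝓞 M)) ≤ mi v ^ (mi v).ramificationIdx (𝓞 K) :=
      H420R3.map_le_pow_ramificationIdx hP0 (mi v)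
    rw [pow_mul]
    apply Ideal.pow_right_mono h2 s
    rw [← Ideal.map_pow]
    exact Ideal.mem_map_of_mem _ hc
  rw [exp_ew]
  exact (H420R3.v_le_iff v _ _).mpr h1

variable {L : Type} [Field L] [NumberField L] [Algebra K L]

lemma v_int_le (v : FinitePlace M) (ψ : 𝓞 L →ₐ[𝓞 K] M) (z : 𝓞 L) : v (ψ z) ≤ 1 := by
  have h1 : IsIntegral ℤ (ψ z) := (RingOfIntegers.isIntegral z).map ψ.toRingHom.toIntAlgHom
  exact H420R3.v_le_one v ⟨ψ z, h1⟩

lemma v_emb_le (hP0 : P ≠ ⊥) {v : FinitePlace M} (hv : v ∈ TP M P) (ψ : 𝓞 L →ₐ[𝓞 K] M)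
    {z : 𝓞 L} {s : ℕ} (hz : z ∈ (P.map (algebraMap (𝓞 K) (𝓞 L))) ^ s) :
    v (ψ z) ≤ Real.exp (-ew K v) ^ s := by
  rw [← Ideal.map_pow] at hz
  have hpos : 0 ≤ Real.exp (-ew K v) ^ s := by positivity
  unfold Ideal.map at hz
  induction hz using Submodule.span_induction with
  | mem x hx =>
    obtain ⟨c, hc, rfl⟩ := hx
    change v (ψ (algebraMap (𝓞 K) (𝓞 L) c)) ≤ _
    rw [AlgHom.commutes]
    exact v_le_pow hP0 hv hc
  | zero => rw [map_zero, map_zero]; exact hpos
  | add x y _ _ hx hy =>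
    rw [map_add]
    exact (FinitePlace.add_le v _ _).trans (max_le hx hy)
  | smul a x _ hx =>
    rw [smul_eq_mul, map_mul, map_mul]
    calc v (ψ a) * v (ψ x) ≤ 1 * Real.exp (-ew K v) ^ s :=
          mul_le_mul (v_int_le v ψ a) hx (W238.Leh.v_nonneg v _) zero_le_one
      _ = _ := one_mul _

end Val

section Classes

variable {N : ℕ}

/-- integral parts of the exponents divided by `a` -/
def fl (a : ℕ) (u : Fin (N + 1) →₀ ℕ) : Fin (N + 1) →₀ ℕ := u.mapRange (· / a) (Nat.zero_div a)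

lemma fl_apply (a : ℕ) (u : Fin (N + 1) →₀ ℕ) (l : Fin (N + 1)) : fl a u l = u l / a := rfl

lemma sum_classes (c : (Fin (N + 1) →₀ ℕ) → ℕ) {B a : ℕ} (ha : 1 ≤ a)
    (hc : ∀ d, ∑ w ∈ md d, c w ≤ B) (δ : ℕ) : ∑ u ∈ md δ, c (fl a u) ≤ a ^ N * B := by
  classical
  have : NeZero a := ⟨by omega⟩
  set κ : (Fin (N + 1) →₀ ℕ) → (Fin N → Fin a) :=
    fun u l => ⟨u l.succ % a, Nat.mod_lt _ ha⟩ with hκ
  rw [← Finset.sum_fiberwise (md δ) κ]
  have h1 : ∀ y : Fin N → Fin a, ∑ u ∈ md δ with κ u = y, c (fl a u) ≤ B := by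
    intro y
    rcases (Finset.filter (fun u => κ u = y) (md δ)).eq_empty_or_nonempty with h0 | ⟨u₀, hu₀⟩
    · rw [h0, Finset.sum_empty]
      exact Nat.zero_le _
    · rw [Finset.mem_filter, mem_md, Finsupp.degree_eq_sum] at hu₀
      have hmod : ∀ u ∈ (md δ).filter (fun u => κ u = y), ∀ l, u l % a = u₀ l % a := by
        intro u hu
        rw [Finset.mem_filter, mem_md, Finsupp.degree_eq_sum] at hu
        have h2 : ∀ l : Fin N, u l.succ % a = u₀ l.succ % a := by
          intro l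
          have h3 := congrFun (hu.2.trans hu₀.2.symm) l
          exact congrArg Fin.val h3
        intro l
        refine Fin.cases ?_ h2 l
        rw [← ZMod.natCast_eq_natCast_iff']
        have h4 : ∑ l, (u l : ZMod a) = ∑ l, (u₀ l : ZMod a) := by
          have := congrArg (fun n : ℕ => (n : ZMod a)) (hu.1.trans hu₀.1.symm)
          simpa using this
        rw [Fin.sum_univ_succ, Fin.sum_univ_succ] at h4
        have h5 : ∑ l : Fin N, (u l.succ : ZMod a) = ∑ l : Fin N, (u₀ l.succ : ZMod a) :=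
          Finset.sum_congr rfl fun l _ => (ZMod.natCast_eq_natCast_iff' _ _ _).mpr (h2 l)
        rw [h5] at h4
        exact add_right_cancel h4
      have hdeg : ∀ u ∈ (md δ).filter (fun u => κ u = y), (fl a u).degree = (fl a u₀).degree := by
        intro u hu
        have h2 := hmod u hu
        rw [Finset.mem_filter, mem_md, Finsupp.degree_eq_sum] at hu
        have h3 : ∀ u : Fin (N + 1) →₀ ℕ, ∑ l, u l = a * (fl a u).degree + ∑ l, u l % a := by
          intro u
          rw [Finsupp.degree_eq_sum, Finset.mul_sum, ← Finset.sum_add_distrib]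
          refine Finset.sum_congr rfl fun l _ => ?_
          rw [fl_apply]
          exact (Nat.div_add_mod (u l) a).symm
        have h4 := h3 u
        have h5 := h3 u₀
        rw [hu.1, Finset.sum_congr rfl fun l _ => h2 l] at h4
        rw [hu₀.1] at h5
        have h6 : a * (fl a u).degree = a * (fl a u₀).degree := by omega
        exact Nat.eq_of_mul_eq_mul_left ha h6
      have hinj : Set.InjOn (fl a) ((md δ).filter (fun u => κ u = y) : Set (Fin (N + 1) →₀ ℕ)) := by
        intro u hu u' hu' h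
        ext l
        have h2 := hmod u hu l
        have h3 := hmod u' hu' l
        have h4 := DFunLike.congr_fun h l
        rw [fl_apply, fl_apply] at h4
        rw [← Nat.div_add_mod (u l) a, ← Nat.div_add_mod (u' l) a, h4, h2, h3]
      rw [← Finset.sum_image hinj]
      refine le_trans (Finset.sum_le_sum_of_subset ?_) (hc (fl a u₀).degree)
      intro w hw
      obtain ⟨u, hu, rfl⟩ := Finset.mem_image.mp hw
      exact mem_md.mpr (hdeg u hu)
  refine (Finset.sum_le_card_nsmul _ _ B fun y _ => h1 y).trans (le_of_eq ?_)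
  rw [Finset.card_univ, Fintype.card_fun, Fintype.card_fin, Fintype.card_fin, smul_eq_mul]

end Classes

end

end Pool.Agent.L5helper9.Ql
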