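import Mathlib
import Pool.Agent.L5helper9.Ql7

/-!
The gain at a place above `P` for interpolation determinants at iterates of conjugates.
-/

set_option autoImplicit false
set_option linter.unusedSectionVars false

namespace Pool.Agent.L5helper9.Ql

open MvPolynomial NumberField Module IsDedekindDomain
open Pool.Agent.H420R3 (mi TP mem_TP ew nv nv_pos one_lt_nv)
open Pool.Agent.W238.Leh (v_nonneg)

noncomputable section

/-- evaluation of a monomial -/
def mon {M : Type} [Field M] {N : ℕ} (y : Fin (N + 1) → M) (m : Fin (N + 1) →₀ ℕ) : M :=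
  ∏ l, y l ^ m l

lemma aeval_eq_sum_md {R M : Type} [CommRing R] [Field M] [Algebra R M] {N δ : ℕ}
    {H : MvPolynomial (Fin (N + 1)) R} (hH : H.IsHomogeneous δ) (y : Fin (N + 1) → M) :
    aeval y H = ∑ m ∈ md δ, algebraMap R M (H.coeff m) * mon y m := by
  rw [aeval_def, eval₂_eq']
  refine Finset.sum_subset (fun m hm => ?_) fun m _ hm => ?_
  · rw [mem_md, Finsupp.degree_eq_weight_one]
    exact hH (mem_support_iff.mp hm)
  · rw [notMem_support_iff.mp hm, map_zero, zero_mul]

variable {K : Type} [Field K] [NumberField K] {M : Type} [Field M] [NumberField M] [Algebra K M]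
variable {P : Ideal (𝓞 K)} [hP : P.IsMaximal] {N : ℕ}
variable {L : Type} [Field L] [NumberField L] [Algebra K L]
variable {F : Fin (N + 1) → MvPolynomial (Fin (N + 1)) (𝓞 K)} {q : ℕ} {ϖ : 𝓞 K}
variable {ι : Type} [Fintype ι] [DecidableEq ι]

/-- **the local gain** -/
theorem local_gain2 (hd : DD P F q ϖ) (hP0 : P ≠ ⊥)
    (hϖ : ∀ t : ℕ, ϖ ^ t ∈ P ^ t ∧ ϖ ^ t ∉ P ^ (t + 1)) {v : FinitePlace M} (hv : v ∈ TP M P)
    (y : Fin (N + 1) → 𝓞 L) {n k a E δ : ℕ} (ha : 1 ≤ a)
    (hE : ∀ d, (vals P y d).ncard ≤ P.absNorm ^ E) (τ : ι → ℕ)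
    (hτ : ∀ i, n ≤ τ i ∧ τ i < n + k) (ψ : ι → 𝓞 L →ₐ[𝓞 K] M) (p : ι → Fin (N + 1) → M)
    (hp : ∀ i, p i = fun l => ψ i ((actR F)^[τ i] y l))
    (Φ : ι → MvPolynomial (Fin (N + 1)) K) (hΦ : ∀ j, (Φ j).IsHomogeneous δ)
    (hΦ' : ∀ j m, v (algebraMap K M ((Φ j).coeff m)) ≤ 1) (hι : Nonempty ι) :
    v (Matrix.of fun i j => aeval (p i) (Φ j)).det *
      Real.exp (-ew K v) ^ (a ^ (N + 1) * ((n + 1) * E)) ≤
      Real.exp (-ew K v) ^ ((n + 1) * a * Fintype.card ι) := by
  classical
  set ρ : ℝ := Real.exp (-ew K v) with hρ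
  have hρ0 : 0 < ρ := Real.exp_pos _
  have hρ1 : ρ ≤ 1 := by
    rw [hρ, Real.exp_le_one_iff]
    have := H420R3.ew_pos (K := K) v
    linarith
  set mo : MonomialOrder (Fin (N + 1)) := MonomialOrder.lex with hmo
  obtain ⟨c, G, hG, hc⟩ := exists_gens hd hP0 hϖ y n k hE mo
  set S : Finset mo.syn := (md (N := N) δ).map mo.toSyn.toEquiv.toEmbedding with hS
  set EE : mo.syn → ι → M := fun u i => mon (p i) (mo.toSyn.symm u) with hEE
  set β : mo.syn → M := fun u =>
    algebraMap (𝓞 K) M ((G (fl a (mo.toSyn.symm u))).coeff (fl a (mo.toSyn.symm u))) ^ a with hβ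
  set d : mo.syn → ℕ := fun u => c (fl a (mo.toSyn.symm u)) * a with hd'
  have hvp : ∀ i l, v (p i l) ≤ 1 := by
    intro i l
    rw [hp i]
    exact v_int_le v (ψ i) _
  have hmon : ∀ i m, v (mon (p i) m) ≤ 1 := by
    intro i m
    unfold mon
    rw [map_prod]
    refine Finset.prod_le_one (fun l _ => v_nonneg v _) fun l _ => ?_
    rw [map_pow]
    exact pow_le_one₀ (v_nonneg v _) (hvp i l)
  have hOK : ∀ b : 𝓞 K, v (algebraMap (𝓞 K) M b) ≤ 1 := by
    intro b
    have := v_le_pow (s := 0) hP0 hv (c := b) (by rw [pow_zero, Ideal.one_eq_top]; trivial)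
    rwa [pow_zero] at this
  have hGv : ∀ i w, v (aeval (p i) (G w)) ≤ ρ ^ (n + 1) := by
    intro i w
    rw [hp i, ← comp_aeval_apply]
    exact v_emb_le hP0 hv (ψ i) ((hG w).1.2 (τ i) (hτ i).1 (hτ i).2)
  have hmain := det_gain (v := v) (E := EE) (θ := (ρ ^ (n + 1)) ^ a) β d hρ0 hρ1
    (by positivity) S
    (by
      intro u _
      simp only [hβ]
      rw [map_pow]
      exact pow_le_one₀ (v_nonneg v _) (hOK _))
    (by
      intro u _
      simp only [hβ, hd']
      rw [map_pow, pow_mul]
      exact pow_le_pow_left₀ (by positivity) (v_ge hP0 hv (hG _).2.2) a)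
    (by
      intro u hu
      rw [hS, Finset.mem_map] at hu
      obtain ⟨m, hm, rfl⟩ := hu
      have hm' := mem_md.mp hm
      set w := fl a m with hw
      have hle : a • w ≤ m := by
        intro l
        change a * (m l / a) ≤ m l
        exact Nat.mul_div_le _ _
      set e := m - a • w with he
      have hew : e + a • w = m := tsub_add_cancel_of_le hle
      have hG0 : G w ≠ 0 := by
        intro h0
        apply (hG w).2.2
        rw [h0, coeff_zero]
        exact Ideal.zero_mem _
      set H : MvPolynomial (Fin (N + 1)) (𝓞 K) := monomial e 1 * G w ^ a with hH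
      have hHhom : H.IsHomogeneous δ := by
        have h1 := (isHomogeneous_monomial (1 : 𝓞 K) (show e.degree = e.degree from rfl)).mul
          ((hG w).1.1.pow a)
        have h2 : e.degree + w.degree * a = δ := by
          have h3 := congrArg Finsupp.degree hew
          rw [map_add, map_nsmul, hm', smul_eq_mul, mul_comm a] at h3
          exact h3
        rwa [h2] at h1
      have hm1 : (monomial e (1 : 𝓞 K)) ≠ 0 := by
        rw [Ne, monomial_eq_zero]
        exact one_ne_zero
      have hHdeg : mo.degree H = m := by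
        rw [hH, MonomialOrder.degree_mul hm1 (pow_ne_zero _ hG0), MonomialOrder.degree_pow,
          (hG w).2.1, MonomialOrder.degree_monomial, if_neg one_ne_zero, hew]
      have hHlc : H.coeff m = (G w).coeff w ^ a := by
        have h1 : mo.leadingCoeff H = (G w).coeff w ^ a := by
          rw [hH, MonomialOrder.leadingCoeff_mul, MonomialOrder.leadingCoeff_pow,
            MonomialOrder.leadingCoeff_monomial, one_mul]
          unfold MonomialOrder.leadingCoeff
          rw [(hG w).2.1]
        unfold MonomialOrder.leadingCoeff at h1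
        rwa [hHdeg] at h1
      have hHv : ∀ i, v (aeval (p i) H) ≤ (ρ ^ (n + 1)) ^ a := by
        intro i
        rw [hH, map_mul, map_pow, map_mul, map_pow]
        have h1 : v (aeval (p i) (monomial e (1 : 𝓞 K))) ≤ 1 := by
          have h2 : aeval (p i) (monomial e (1 : 𝓞 K)) = mon (p i) e := by
            rw [aeval_monomial, map_one, one_mul, Finsupp.prod_fintype _ _ (fun l => pow_zero _)]
            rfl
          rw [h2]
          exact hmon i e
        have h3 := pow_le_pow_left₀ (v_nonneg v _) (hGv i w) a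
        calc v (aeval (p i) (monomial e (1 : 𝓞 K))) * v (aeval (p i) (G w)) ^ a ≤
            1 * (ρ ^ (n + 1)) ^ a :=
              mul_le_mul h1 h3 (pow_nonneg (v_nonneg v _) _) zero_le_one
          _ = _ := one_mul _
      have hu' : mo.toSyn.toEquiv.toEmbedding m = mo.toSyn m := rfl
      rw [hu']
      refine ⟨fun s => -algebraMap (𝓞 K) M (H.coeff (mo.toSyn.symm s)), fun s => ?_,
        fun i => ?_⟩
      · rw [H627.LP.v_neg']
        exact hOK _
      · have h1 := aeval_eq_sum_md hHhom (p i)
        have h2 : ∑ m' ∈ md δ, algebraMap (𝓞 K) M (H.coeff m') * mon (p i) m' =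
            ∑ s ∈ S, algebraMap (𝓞 K) M (H.coeff (mo.toSyn.symm s)) * EE s i := by
          rw [hS, Finset.sum_map]
          refine Finset.sum_congr rfl fun m' _ => ?_
          have h3 : mo.toSyn.symm (mo.toSyn.toEquiv.toEmbedding m') = m' :=
            mo.toSyn.symm_apply_apply m'
          simp only [hEE]
          rw [h3]
        rw [h2, ← Finset.sum_filter_add_sum_filter_not S (· < mo.toSyn m)] at h1
        have h3 : ∑ s ∈ S with ¬ s < mo.toSyn m,
            algebraMap (𝓞 K) M (H.coeff (mo.toSyn.symm s)) * EE s i =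
            (β (mo.toSyn m) • EE (mo.toSyn m)) i := by
          rw [Finset.sum_eq_single (mo.toSyn m)]
          · simp only [Pi.smul_apply, smul_eq_mul, hβ]
            rw [AddEquiv.symm_apply_apply, hHlc, map_pow]
          · intro s hs hsm
            rw [Finset.mem_filter, not_lt] at hs
            have h4 : H.coeff (mo.toSyn.symm s) = 0 := by
              by_contra h5
              have h6 := MonomialOrder.le_degree (m := mo) (mem_support_iff.mpr h5)
              rw [hHdeg, AddEquiv.apply_symm_apply] at h6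
              exact hsm (le_antisymm h6 hs.2)
            rw [h4, map_zero, zero_mul]
          · intro h4
            exfalso
            apply h4
            rw [Finset.mem_filter]
            exact ⟨Finset.mem_map_of_mem _ hm, lt_irrefl _⟩
        rw [h3] at h1
        have h4 : (β (mo.toSyn m) • EE (mo.toSyn m)) i -
            ∑ s ∈ S with s < mo.toSyn m,
              -algebraMap (𝓞 K) M (H.coeff (mo.toSyn.symm s)) * EE s i = aeval (p i) H := by
          rw [h1]
          simp only [neg_mul, Finset.sum_neg_distrib]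
          ring
        rw [h4]
        exact hHv i)
    hι (Matrix.of fun j i => aeval (p i) (Φ j))
    (by
      intro j
      refine ⟨fun s => algebraMap K M ((Φ j).coeff (mo.toSyn.symm s)), fun s => hΦ' _ _,
        fun i => ?_⟩
      have h1 := aeval_eq_sum_md (hΦ j) (p i)
      have h2 : ∑ m' ∈ md δ, algebraMap K M ((Φ j).coeff m') * mon (p i) m' =
          ∑ s ∈ S, algebraMap K M ((Φ j).coeff (mo.toSyn.symm s)) * EE s i := by
        rw [hS, Finset.sum_map]
        refine Finset.sum_congr rfl fun m' _ => ?_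
        have h3 : mo.toSyn.symm (mo.toSyn.toEquiv.toEmbedding m') = m' :=
          mo.toSyn.symm_apply_apply m'
        simp only [hEE]
        rw [h3]
      rw [h2] at h1
      rw [Matrix.of_apply, h1, sub_self, map_zero]
      positivity)
  have htr : (Matrix.of fun i j => aeval (p i) (Φ j)) =
      (Matrix.of fun j i => aeval (p i) (Φ j)).transpose := by
    ext i j
    rfl
  rw [htr, Matrix.det_transpose]
  have hsum : ∑ u ∈ S, d u ≤ a ^ (N + 1) * ((n + 1) * E) := by
    rw [hS, Finset.sum_map]
    have h1 : ∑ m ∈ md (N := N) δ, d (mo.toSyn.toEquiv.toEmbedding m) =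
        (∑ m ∈ md (N := N) δ, c (fl a m)) * a := by
      rw [Finset.sum_mul]
      refine Finset.sum_congr rfl fun m _ => ?_
      have h3 : mo.toSyn.symm (mo.toSyn.toEquiv.toEmbedding m) = m :=
        mo.toSyn.symm_apply_apply m
      simp only [hd']
      rw [h3]
    rw [h1]
    calc (∑ m ∈ md (N := N) δ, c (fl a m)) * a ≤ (a ^ N * ((n + 1) * E)) * a :=
          Nat.mul_le_mul_right _ (sum_classes c ha hc δ)
      _ = _ := by rw [pow_succ]; ring
  calc v (Matrix.of fun j i => aeval (p i) (Φ j)).det * ρ ^ (a ^ (N + 1) * ((n + 1) * E)) ≤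
      v (Matrix.of fun j i => aeval (p i) (Φ j)).det * ρ ^ ∑ u ∈ S, d u := by
        apply mul_le_mul_of_nonneg_left _ (v_nonneg v _)
        exact pow_le_pow_of_le_one hρ0.le hρ1 hsum
    _ ≤ ((ρ ^ (n + 1)) ^ a) ^ Fintype.card ι := hmain
    _ = _ := by rw [← pow_mul, ← pow_mul, mul_assoc]

end

end Pool.Agent.L5helper9.Ql
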