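import Mathlib
import Pool.Agent.H627.LP.Orb

/-!
The product formula for interpolation determinants with an arbitrary gain at finitely many finite
places.
-/

set_option autoImplicit false
set_option linter.unusedSectionVars false

namespace Pool.Agent.L5helper9.Ql

open NumberField Module MvPolynomial
open Pool.Agent.W238.Leh
open Pool.Agent.H627.LP

noncomputable section

variable {K : Type} [Field K] [NumberField K] {M : Type} [Field M] [NumberField M] [Algebra K M]
  {N : ℕ} {ι : Type} [Fintype ι] [DecidableEq ι]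
variable {F : Fin (N + 1) → MvPolynomial (Fin (N + 1)) K} {q c a : ℕ} {A : ℝ}

/-- **the inequality** -/
theorem det_ineqG (hB : Bds F q A a) (hF : ∀ i, (F i).IsHomogeneous q)
    (hc : ∀ m, c + q ≤ m → ∀ p : MvPolynomial (Fin (N + 1)) K, p.IsHomogeneous m →
      p ∈ Ideal.span (Set.range F)) {p : ι → Fin (N + 1) → M} (hp : ∀ i, p i ≠ 0)
    (hne : ∀ i j, i ≠ j → ∀ b : M, p i ≠ b • p j) (l : List ℕ) (hl : LOK c l)
    (hlc : Fintype.card ι ≤ ldeg q l + 1) (T : Finset (FinitePlace M)) (g : FinitePlace M → ℝ)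
    (hT : ∀ v ∈ T, ∀ Φ : ι → MvPolynomial (Fin (N + 1)) K, (∀ j, Φ j ∈ GG F l) →
      (Matrix.of fun i j => aeval (p i) (Φ j)).det ≠ 0 →
      Real.log (v (Matrix.of fun i j => aeval (p i) (Φ j)).det) ≤
        ∑ i, Real.log (wt (nmf v) (act F) l (p i)) - g v) :
    ∑ v ∈ T, g v ≤
      ∑ i, HL F l (p i) + finrank ℚ M * Real.log (Fintype.card ι).factorial := by
  obtain ⟨Φ, hΦ, hdet⟩ := exists_forms hF hc hp hne l hl hlc
  set W := (Matrix.of fun i j => aeval (p i) (Φ j)) with hW
  have hiter : ∀ i j, (act F)^[j] (p i) ≠ 0 := fun i j => hB.iter_ne_zero (hp i) j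
  have hwtpos : ∀ (w : InfinitePlace M) i, 0 < wt (nmi w) (act F) l (p i) :=
    fun w i => wt_pos l fun j => nmi_pos w (hiter _ j)
  have hwtposf : ∀ (v : FinitePlace M) i, 0 < wt (nmf v) (act F) l (p i) :=
    fun v i => wt_pos l fun j => nmf_pos v (hiter _ j)
  have hinf : ∀ w : InfinitePlace M, Real.log (w W.det) ≤
      ∑ i, Real.log (wt (nmi w) (act F) l (p i)) + Real.log (Fintype.card ι).factorial := by
    intro w
    have h1 : w W.det ≤ (Fintype.card ι).factorial * ∏ i, wt (nmi w) (act F) l (p i) := by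
      apply det_rows_le_inf
      intro i j
      exact abs_le_wt (w.1.toMonoidWithZeroHom) (fun x => w.1.nonneg x)
        (fun x j => le_nmi w x j) (fun x => nmi_nonneg w x) l (hΦ j) (p i)
    have h2 : 0 < w W.det := InfinitePlace.pos_iff.mpr hdet
    have h3 := Real.log_le_log h2 h1
    have h4 : (0 : ℝ) < ((Fintype.card ι).factorial : ℝ) := by
      exact_mod_cast Nat.factorial_pos _
    rw [Real.log_mul h4.ne' (Finset.prod_pos fun k _ => hwtpos w k).ne',
      Real.log_prod (fun k _ => (hwtpos w k).ne')] at h3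
    linarith
  have hfin : ∀ v : FinitePlace M, Real.log (v W.det) ≤
      ∑ i, Real.log (wt (nmf v) (act F) l (p i)) := by
    intro v
    have h1 : v W.det ≤ ∏ i, wt (nmf v) (act F) l (p i) := by
      apply det_rows_le v _ _ (fun k => (hwtposf v k).le)
      intro i j
      exact abs_le_wt (v.1.toMonoidWithZeroHom) (fun x => v.1.nonneg x)
        (fun x j => le_nmf v x j) (fun x => nmf_nonneg v x) l (hΦ j) (p i)
    have h2 : 0 < v W.det := FinitePlace.pos_iff.mpr hdet
    have h3 := Real.log_le_log h2 h1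
    rwa [Real.log_prod (fun k _ => (hwtposf v k).ne')] at h3
  have hfinT : ∀ v ∈ T, Real.log (v W.det) ≤
      ∑ i, Real.log (wt (nmf v) (act F) l (p i)) - g v := fun v hv => hT v hv Φ hΦ hdet
  have hgs1 : HasGS (fun w => ∑ i, Real.log (wt (nmi w) (act F) l (p i)))
      (fun v => ∑ i, Real.log (wt (nmf v) (act F) l (p i))) (∑ i, HL F l (p i)) :=
    HasGS.sum Finset.univ fun k _ => HasGS.wt l (hiter k)
  have hmain := HasGS_le_gain (HasGS.prod hdet) hgs1
    (c := Real.log (Fintype.card ι).factorial) hinf T g (fun v _ => hfin v) hfinT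
  linarith

/-- the inequality in terms of canonical heights -/
theorem det_ineqG' (hB : Bds F q A a) (hq : 2 ≤ q) (hF : ∀ i, (F i).IsHomogeneous q)
    (hc : ∀ m, c + q ≤ m → ∀ p : MvPolynomial (Fin (N + 1)) K, p.IsHomogeneous m →
      p ∈ Ideal.span (Set.range F)) {p : ι → Fin (N + 1) → M} (hp : ∀ i, p i ≠ 0)
    (hne : ∀ i j, i ≠ j → ∀ b : M, p i ≠ b • p j) (hι : 1 ≤ Fintype.card ι)
    (T : Finset (FinitePlace M)) (g : FinitePlace M → ℝ)
    (hT : ∀ l : List ℕ, ∀ v ∈ T, ∀ Φ : ι → MvPolynomial (Fin (N + 1)) K,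
      (∀ j, Φ j ∈ GG F l) → (Matrix.of fun i j => aeval (p i) (Φ j)).det ≠ 0 →
      Real.log (v (Matrix.of fun i j => aeval (p i) (Φ j)).det) ≤
        ∑ i, Real.log (wt (nmf v) (act F) l (p i)) - g v) {H : ℝ}
    (hH : ∀ i, canH F q (p i) ≤ H) :
    ∑ v ∈ T, g v ≤
      finrank ℚ M * (Fintype.card ι * (Fintype.card ι * H +
        hC A a * ((c + q : ℕ) * (1 + Nat.log 2 (Fintype.card ι) : ℕ)) +
        Real.log (Fintype.card ι))) := by
  set r := Fintype.card ι with hr
  obtain ⟨l, hl1, hl2, hl3, hl4⟩ := exists_list (c := c) hq r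
  have h1 := det_ineqG hB hF hc hp hne l hl2 (by omega) T g (hT l)
  refine h1.trans ?_
  have hD := finrank_pos' (L := M)
  have hr' : (1 : ℝ) ≤ r := by exact_mod_cast hι
  have hHL : ∀ i, HL F l (p i) ≤ finrank ℚ M * (r * H +
      hC A a * ((c + q : ℕ) * (1 + Nat.log 2 r : ℕ))) := by
    intro i
    refine (hB.HL_le hq l (hp i)).trans ?_
    rw [hl1]
    have h2 : (l.sum : ℝ) ≤ (c + q : ℕ) * (1 + Nat.log 2 r : ℕ) := by
      have h3 : l.sum ≤ l.length * (c + q) := by
        have := List.sum_le_card_nsmul l (c + q) hl3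
        simpa using this
      have h4 : l.length * (c + q) ≤ (c + q) * (1 + Nat.log 2 r) := by
        rw [mul_comm]
        exact Nat.mul_le_mul_left _ hl4
      exact_mod_cast h3.trans h4
    have h3 : (r : ℝ) * canH F q (p i) ≤ r * H :=
      mul_le_mul_of_nonneg_left (hH i) (by linarith)
    have h4 : hC A a * l.sum ≤ hC A a * ((c + q : ℕ) * (1 + Nat.log 2 r : ℕ)) :=
      mul_le_mul_of_nonneg_left h2 hB.hC_nonneg
    exact mul_le_mul_of_nonneg_left (by linarith) hD.le
  have hsum : ∑ i, HL F l (p i) ≤ r * (finrank ℚ M * (r * H +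
      hC A a * ((c + q : ℕ) * (1 + Nat.log 2 r : ℕ)))) := by
    have h7 := Finset.sum_le_sum (fun k (_ : k ∈ (Finset.univ : Finset ι)) => hHL k)
    rwa [Finset.sum_const, Finset.card_univ, nsmul_eq_mul] at h7
  have hfac : Real.log r.factorial ≤ r * Real.log r := by
    have h2 : (r.factorial : ℝ) ≤ (r : ℝ) ^ r := by exact_mod_cast Nat.factorial_le_pow r
    have h3 := Real.log_le_log (by exact_mod_cast Nat.factorial_pos r) h2
    rwa [Real.log_pow] at h3
  have h5 := mul_le_mul_of_nonneg_left hfac hD.le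
  calc ∑ i, HL F l (p i) + finrank ℚ M * Real.log r.factorial ≤
      r * (finrank ℚ M * (r * H + hC A a * ((c + q : ℕ) * (1 + Nat.log 2 r : ℕ)))) +
        finrank ℚ M * (r * Real.log r) := by linarith
    _ = _ := by ring

end

end Pool.Agent.L5helper9.Ql
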