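import Mathlib
import Pool.Agent.L5helper9.Ql8
import Pool.Agent.L5helper9.Ql9
import Pool.Agent.L5helper9.Ql10

/-!
The fundamental inequality without the ramification index.
-/

set_option autoImplicit false
set_option linter.unusedSectionVars false

namespace Pool.Agent.L5helper9.Ql

open MvPolynomial NumberField Module IsDedekindDomain Filter Topology
open Pool.Agent.W238.Leh
open Pool.Agent.H420R3 (mi nv TP ew lP lP_pos sum_ew TP_nonempty mem_TP)
open Pool.Agent.H627.LP

noncomputable section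

variable {K : Type} [Field K] [NumberField K] {N : ℕ}
variable {F : Fin (N + 1) → MvPolynomial (Fin (N + 1)) K} {q : ℕ}
variable {P : Ideal (𝓞 K)} [hP : P.IsMaximal]
variable {L : Type} [Field L] [NumberField L] [Algebra K L]

lemma canH_smul' (hF : ∀ i, (F i).IsHomogeneous q) {b : L} (hb : b ≠ 0)
    (z : Fin (N + 1) → L) : canH F q (b • z) = canH F q z := by
  unfold canH
  congr 1
  funext n
  rw [act_iter_smul hF, Height.logHeight_smul_eq_logHeight _ (pow_ne_zero _ hb)]

lemma Wnd_smul (hF : ∀ i, (F i).IsHomogeneous q) {b : L} (hb : b ≠ 0)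
    {z : Fin (N + 1) → L} (h : Wnd F (b • z)) : Wnd F z := by
  rintro ⟨m, n, hmn, c, hc, heq⟩
  refine h ⟨m, n, hmn, b ^ q ^ n * c * (b ^ q ^ m)⁻¹, ?_, ?_⟩
  · exact mul_ne_zero (mul_ne_zero (pow_ne_zero _ hb) hc) (inv_ne_zero (pow_ne_zero _ hb))
  · rw [act_iter_smul hF, act_iter_smul hF, heq, smul_smul, smul_smul,
      inv_mul_cancel_right₀ (pow_ne_zero _ hb)]

section Emb

variable {M : Type} [Field M] [NumberField M] [Algebra K M] [Algebra L M] [IsScalarTower K L M]

/-- the conjugates of integers of `L` -/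
def emb (L : Type) [Field L] [NumberField L] [Algebra K L] {M : Type} [Field M] [NumberField M]
    [Algebra K M] [Algebra L M] [IsScalarTower K L M] (σ : Gal(M/K)) : 𝓞 L →ₐ[𝓞 K] M where
  toRingHom := ((σ : M →+* M).comp (algebraMap L M)).comp (algebraMap (𝓞 L) L)
  commutes' := by
    intro c
    have h1 : algebraMap (𝓞 L) L (algebraMap (𝓞 K) (𝓞 L) c) = algebraMap K L (c : K) := rfl
    change σ (algebraMap L M (algebraMap (𝓞 L) L (algebraMap (𝓞 K) (𝓞 L) c))) = _
    rw [h1, ← IsScalarTower.algebraMap_apply K L M, AlgEquiv.commutes]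
    rfl

lemma emb_apply (σ : Gal(M/K)) (z : 𝓞 L) : emb L σ z = σ (algebraMap L M (z : L)) := rfl

lemma exists_unit_coord (hP0 : P ≠ ⊥) {x' : Fin (N + 1) → 𝓞 L}
    (hx' : ∀ 𝔭 : Ideal (𝓞 L), 𝔭.IsPrime → P.map (algebraMap (𝓞 K) (𝓞 L)) ≤ 𝔭 →
        ∃ l, x' l ∉ 𝔭) {v : FinitePlace M} (hv : v ∈ TP M P) (ψ : 𝓞 L →ₐ[𝓞 K] M) :
    nmf v (fun l => ψ (x' l)) = 1 := by
  let 𝔭 : Ideal (𝓞 L) :=
    { carrier := {z | v (ψ z) < 1}
      add_mem' := by
        intro a b ha hb
        change v (ψ (a + b)) < 1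
        rw [map_add]
        exact lt_of_le_of_lt (FinitePlace.add_le v _ _) (max_lt ha hb)
      zero_mem' := by
        change v (ψ 0) < 1
        rw [map_zero, map_zero]
        exact one_pos
      smul_mem' := by
        intro c a ha
        change v (ψ (c • a)) < 1
        rw [smul_eq_mul, map_mul, map_mul]
        calc v (ψ c) * v (ψ a) ≤ 1 * v (ψ a) :=
              mul_le_mul_of_nonneg_right (v_int_le v ψ c) (v_nonneg v _)
          _ < 1 := by rw [one_mul]; exact ha }
  have hpr : 𝔭.IsPrime := by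
    refine ⟨?_, ?_⟩
    · intro h
      have h1 : (1 : 𝓞 L) ∈ 𝔭 := by rw [h]; exact Submodule.mem_top
      change v (ψ 1) < 1 at h1
      rw [map_one, map_one] at h1
      exact lt_irrefl _ h1
    · intro a b hab
      change v (ψ (a * b)) < 1 at hab
      change v (ψ a) < 1 ∨ v (ψ b) < 1
      by_contra hcon
      push Not at hcon
      have ha : v (ψ a) = 1 := le_antisymm (v_int_le v ψ a) hcon.1
      have hb : v (ψ b) = 1 := le_antisymm (v_int_le v ψ b) hcon.2
      rw [map_mul, map_mul, ha, hb] at hab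
      norm_num at hab
  have hle : P.map (algebraMap (𝓞 K) (𝓞 L)) ≤ 𝔭 := by
    intro z hz
    have h1 := v_emb_le (s := 1) hP0 hv ψ (by rwa [pow_one])
    rw [pow_one] at h1
    refine lt_of_le_of_lt h1 ?_
    rw [Real.exp_lt_one_iff]
    have := H420R3.ew_pos (K := K) v
    linarith
  obtain ⟨l, hl⟩ := hx' 𝔭 hpr hle
  apply le_antisymm
  · exact nmf_le fun i => v_int_le v ψ _
  · have h1 : 1 ≤ v (ψ (x' l)) := not_lt.mp hl
    exact h1.trans (le_nmf v (fun l => ψ (x' l)) l)

end Emb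

/-- the level at which the number of conjugates is comparable with the degree -/
lemma exists_level {D : ℕ → ℕ} {q n : ℕ} (hq : 2 ≤ q) (hanti : ∀ i, D (i + 1) ≤ D i)
    (hD1 : ∀ i, 1 ≤ D i) (hDn : ∀ i, D i ≤ n) :
    ∃ i, n ≤ q ^ (i + 1) * D i ∧ q ^ i * D i ≤ n := by
  classical
  have hex : ∃ i, n ≤ q ^ (i + 1) * D i := by
    refine ⟨n, ?_⟩
    have h1 : n < q ^ n := Nat.lt_pow_self (by omega)
    have h2 : q ^ n ≤ q ^ (n + 1) := Nat.pow_le_pow_right (by omega) (by omega)
    calc n ≤ q ^ (n + 1) * 1 := by omega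
      _ ≤ _ := Nat.mul_le_mul_left _ (hD1 n)
  refine ⟨Nat.find hex, Nat.find_spec hex, ?_⟩
  rcases Nat.eq_zero_or_pos (Nat.find hex) with h0 | h0
  · rw [h0, pow_zero, one_mul]
    exact hDn 0
  · have h1 := Nat.find_min hex (m := Nat.find hex - 1) (by omega)
    push Not at h1
    rw [Nat.sub_add_cancel h0] at h1
    refine le_trans ?_ h1.le
    apply Nat.mul_le_mul_left
    have h2 := hanti (Nat.find hex - 1)
    rwa [Nat.sub_add_cancel h0] at h2

/-- **the fundamental inequality** -/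
theorem points2 (h : GoodN P F q) (hP0 : P ≠ ⊥) {A : ℝ} {a c : ℕ} (hB : Bds F q A a)
    (hc : ∀ m, c + q ≤ m → ∀ p : MvPolynomial (Fin (N + 1)) K, p.IsHomogeneous m →
      p ∈ Ideal.span (Set.range F)) {x₀ : Fin (N + 1) → L} (hx₀ : x₀ ≠ 0) (hw₀ : Wnd F x₀)
    {k s n : ℕ} (hs : 1 ≤ s) (hk : 1 ≤ k) (hks : 2 * (1 + q) * s ^ N ≤ k)
    (hM : ∃ (M : Type) (_ : Field M) (_ : NumberField M)
      (_ : Algebra K M) (_ : Algebra L M), IsScalarTower K L M ∧ IsGalois K M) :
    lP P * (1 + (n : ℝ)) * s / 2 ≤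
      (k * finrank K L : ℕ) * ((q : ℝ) ^ (n + k) * canH F q x₀) +
        (hC A a * ((c + q : ℕ) * (1 + Nat.log 2 (k * finrank K L) : ℕ)) +
        Real.log (k * finrank K L : ℕ)) := by
  classical
  obtain ⟨M, _, _, _, _, _, _⟩ := hM
  have hlP := lP_pos hP0
  obtain ⟨v₀, hv₀⟩ := TP_nonempty (M := M) (P := P) hP0
  have hq : 2 ≤ q := (h.red_at hP0 hv₀).two_le
  have hq' : (2 : ℝ) ≤ q := by exact_mod_cast hq
  -- normalisation
  obtain ⟨x', b₀, hb₀, hxb, hunit⟩ := exists_norm hP0 hx₀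
  set x : Fin (N + 1) → L := fun l => (x' l : L) with hxdef
  have hcanx : canH F q x₀ = canH F q x := by rw [hxb, canH_smul' h.hom hb₀]
  have hw : Wnd F x := Wnd_smul h.hom hb₀ (by rw [← hxb]; exact hw₀)
  have hx : x ≠ 0 := by
    intro h0
    apply hx₀
    rw [hxb, h0, smul_zero]
  rw [hcanx]
  -- the integral model
  obtain ⟨ϖ, hϖ⟩ := exists_unif hP0
  obtain ⟨F', hmap, hd⟩ := exists_model h hP0 hϖ
  set z : Fin (N + 1) → M := fun i => algebraMap L M (x i) with hz
  have hz0 : z ≠ 0 := by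
    intro h0
    apply hx
    funext i
    have := congrFun h0 i
    simp only [hz, Pi.zero_apply, FaithfulSMul.algebraMap_eq_zero_iff] at this
    exact this
  have hzσ : ∀ σ : Gal(M/K), (fun i => σ (z i)) ≠ 0 := by
    intro σ h0
    apply hz0
    funext i
    have := congrFun h0 i
    simpa using this
  have hwz : Wnd F z := hw.base hB hx
  have hcan0 : 0 ≤ canH F q x := hB.canH_nonneg hq hx
  -- the level
  have hcard1 : ∀ i, 1 ≤ Fintype.card (QQ F z i) := by
    intro i
    have : Nonempty (QQ F z i) := ⟨Quotient.mk _ 1⟩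
    exact Fintype.card_pos
  obtain ⟨i₀, hi1, hi2⟩ := exists_level (D := fun i => Fintype.card (QQ F z (i + n + (k - 1))))
    (q := q) (n := finrank K L) hq
    (fun i => QQ_anti h.hom z (by omega)) (fun i => hcard1 _) (fun i => QQ_le x _)
  set top := i₀ + n + (k - 1) with htop
  set D := Fintype.card (QQ F z top) with hD
  have hD1 : 1 ≤ D := hcard1 _
  set E := finrank K L / q ^ i₀ + D with hE
  have hEle : E ≤ (1 + q) * D := by
    have h1 : finrank K L / q ^ i₀ ≤ q * D := by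
      apply Nat.div_le_of_le_mul
      calc finrank K L ≤ q ^ (i₀ + 1) * D := hi1
        _ = q ^ i₀ * (q * D) := by rw [pow_succ]; ring
    rw [hE, add_mul, one_mul]
    omega
  set y : Fin (N + 1) → 𝓞 L := (actR F')^[i₀] x' with hy
  have hEv : ∀ d, (vals P y d).ncard ≤ P.absNorm ^ E := by
    intro d
    exact count_vals (M := M) h hd hP0 hmap x' i₀ top d (hB.iter_ne_zero hx top)
  -- the points
  set ι : Type := Fin k × QQ F z top with hι
  have hιne : Nonempty ι := ⟨⟨⟨0, by omega⟩, Quotient.mk _ 1⟩⟩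
  set p : ι → Fin (N + 1) → M := fun i => pt F z (i₀ + n + i.1) i.2.out with hp
  have hp0 : ∀ i, p i ≠ 0 := fun i => hB.iter_ne_zero (hzσ _) _
  set r := Fintype.card ι with hr
  have hrk : r = k * D := by
    rw [hr, hD]
    simp [hι]
  have hr1 : 1 ≤ r := by rw [hrk]; exact Nat.mul_pos hk hD1
  have hr1' : (1 : ℝ) ≤ r := by exact_mod_cast hr1
  have hne : ∀ i i' : ι, i ≠ i' → ∀ b : M, p i ≠ b • p i' := by
    rintro ⟨j, u⟩ ⟨j', u'⟩ hii b hb
    have hb0 : b ≠ 0 := by
      rintro rfl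
      rw [zero_smul] at hb
      exact hp0 _ hb
    rcases lt_trichotomy j j' with hj | hj | hj
    · have h1 : p ⟨j', u'⟩ = b⁻¹ • p ⟨j, u⟩ := by
        rw [hb, smul_smul, inv_mul_cancel₀ hb0, one_smul]
      exact pt_ne h.hom hwz (Nat.add_lt_add_left (Fin.lt_def.mp hj) (i₀ + n)) _ _
        (inv_ne_zero hb0) h1
    · subst hj
      apply hii
      have h1 : u = u' := by
        rw [← Quotient.out_equiv_out]
        refine ⟨b ^ q ^ (k - 1 - (j : ℕ)), pow_ne_zero _ hb0, ?_⟩
        have h2 := congrArg ((act F)^[k - 1 - (j : ℕ)]) hb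
        rw [act_iter_smul h.hom] at h2
        simp only [hp] at h2
        unfold pt at h2 ⊢
        have h3 : k - 1 - (j : ℕ) + (i₀ + n + j) = top := by
          have := j.2
          omega
        rw [← Function.iterate_add_apply, ← Function.iterate_add_apply, h3] at h2
        exact h2
      rw [h1]
    · exact pt_ne h.hom hwz (Nat.add_lt_add_left (Fin.lt_def.mp hj) (i₀ + n)) _ _ hb0 hb
  -- the points are conjugates of iterates
  have hpψ : ∀ i : ι, p i = fun l => emb L i.2.out ((actR F')^[n + (i.1 : ℕ)] y l) := by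
    rintro ⟨j, u⟩
    simp only [hp]
    unfold pt
    rw [act_gal_iter]
    funext l
    have h2 : (act F)^[i₀ + n + j] z l = algebraMap L M ((act F)^[i₀ + n + j] x l) :=
      congrFun (act_iter_base F x (i₀ + n + j)) l
    rw [h2, emb_apply, hy, ← Function.iterate_add_apply,
      show n + (j : ℕ) + i₀ = i₀ + n + j by ring]
    have h1 := congrFun (coe_iter hmap x' (i₀ + n + j)) l
    rw [h1]
  -- local gains
  set g : FinitePlace M → ℝ := fun v => ew K v * ((1 + (n : ℝ)) * (s * (r / 2))) with hg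
  have hT : ∀ l : List ℕ, ∀ v ∈ TP M P, ∀ Φ : ι → MvPolynomial (Fin (N + 1)) K,
      (∀ j, Φ j ∈ GG F l) → (Matrix.of fun i j => aeval (p i) (Φ j)).det ≠ 0 →
      Real.log (v (Matrix.of fun i j => aeval (p i) (Φ j)).det) ≤
        ∑ i, Real.log (wt (nmf v) (act F) l (p i)) - g v := by
    intro l v hv Φ hΦ hdet
    have hR := h.red_at hP0 hv
    have hnm : ∀ i, nmf v (p i) = 1 := by
      rintro ⟨j, u⟩
      simp only [hp]
      unfold pt
      apply hR.nm_iter
      exact exists_unit_coord hP0 hunit hv (emb L u.out)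
    have hwt : ∀ i, Real.log (wt (nmf v) (act F) l (p i)) = 0 := by
      intro i
      rw [hR.wt_eq h.hom l (hp0 i), hnm i, one_pow, Real.log_one]
    rw [Finset.sum_congr rfl fun i _ => hwt i, Finset.sum_const_zero, zero_sub]
    have h1 := local_gain2 hd hP0 hϖ hv y (n := n) (k := k) (a := s) hs hEv
      (fun i : ι => n + (i.1 : ℕ)) (fun i => ⟨by omega, by have := i.1.2; omega⟩)
      (fun i => emb L i.2.out) p hpψ Φ (fun j => GG_hom h.hom l (hΦ j))
      (fun j m => by
        have h2 := GG_intP hR.intP l (hΦ j) m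
        rwa [coeff_map] at h2) hιne
    have h2 : 0 < v (Matrix.of fun i j => aeval (p i) (Φ j)).det := FinitePlace.pos_iff.mpr hdet
    have h3 := Real.log_le_log (mul_pos h2 (pow_pos (Real.exp_pos _) _)) h1
    rw [Real.log_mul h2.ne' (pow_pos (Real.exp_pos _) _).ne', Real.log_pow, Real.log_pow,
      Real.log_exp] at h3
    have hew := H420R3.ew_pos (K := K) v
    have h4 : ((s ^ (N + 1) * ((n + 1) * E) : ℕ) : ℝ) ≤ (1 + (n : ℝ)) * (s * (r / 2)) := by
      have h5 : 2 * (s ^ N * E) ≤ r := by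
        calc 2 * (s ^ N * E) ≤ 2 * (s ^ N * ((1 + q) * D)) := by gcongr
          _ = (2 * (1 + q) * s ^ N) * D := by ring
          _ ≤ k * D := Nat.mul_le_mul_right _ hks
          _ = r := hrk.symm
      have h6 : (2 : ℝ) * (s ^ N * E) ≤ r := by exact_mod_cast h5
      push_cast
      calc (s : ℝ) ^ (N + 1) * ((n + 1) * E) = (1 + (n : ℝ)) * (s * (s ^ N * E)) := by
            rw [pow_succ]; ring
        _ ≤ (1 + (n : ℝ)) * (s * (r / 2)) := by
          have h7 : (s : ℝ) ^ N * E ≤ r / 2 := by linarith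
          gcongr
    have h5 : (((n + 1) * s * r : ℕ) : ℝ) = 2 * ((1 + (n : ℝ)) * (s * (r / 2))) := by
      push_cast
      ring
    rw [← hr, h5] at h3
    simp only [hg]
    have h6 := mul_le_mul_of_nonneg_left h4 hew.le
    nlinarith
  -- heights
  have hHp : ∀ i, canH F q (p i) ≤ (q : ℝ) ^ (i₀ + n + k) * canH F q x := by
    rintro ⟨j, u⟩
    change canH F q ((act F)^[i₀ + n + j] fun i => u.out (z i)) ≤ _
    rw [hB.canH_iter hq (hzσ _), canH_gal, hz, canH_base]
    refine mul_le_mul_of_nonneg_right ?_ hcan0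
    apply pow_le_pow_right₀ (by linarith)
    have := j.2
    omega
  have hmain := det_ineqG' hB hq h.hom hc hp0 hne hr1 (TP M P) g hT hHp
  have hDM := finrank_pos' (L := M)
  have hDK := finrank_pos' (L := K)
  have hgsum : ∑ v ∈ TP M P, g v = finrank ℚ M * (lP P * ((1 + (n : ℝ)) * (s * (r / 2)))) := by
    simp only [hg]
    rw [← Finset.sum_mul, sum_ew hP0]
    have hdeg : (finrank ℚ M : ℝ) = finrank ℚ K * finrank K M := by
      exact_mod_cast (finrank_mul_finrank ℚ K M).symm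
    unfold lP
    rw [hdeg]
    field_simp
  rw [hgsum, ← hr] at hmain
  have hmain' : lP P * ((1 + (n : ℝ)) * (s * (r / 2))) ≤
      r * (r * ((q : ℝ) ^ (i₀ + n + k) * canH F q x) +
        hC A a * ((c + q : ℕ) * (1 + Nat.log 2 r : ℕ)) + Real.log r) :=
    le_of_mul_le_mul_left hmain hDM
  have h1 : lP P * (1 + (n : ℝ)) * s / 2 ≤
      r * ((q : ℝ) ^ (i₀ + n + k) * canH F q x) +
        hC A a * ((c + q : ℕ) * (1 + Nat.log 2 r : ℕ)) + Real.log r := by
    refine le_of_mul_le_mul_left ?_ (lt_of_lt_of_le one_pos hr1')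
    refine le_trans (le_of_eq ?_) hmain'
    ring
  have hD_le : D ≤ finrank K L := QQ_le x _
  have hrD : r ≤ k * finrank K L := by
    rw [hrk]
    exact Nat.mul_le_mul_left _ hD_le
  have hrD' : (r : ℝ) ≤ (k * finrank K L : ℕ) := by exact_mod_cast hrD
  have h2 : (r : ℝ) * ((q : ℝ) ^ (i₀ + n + k) * canH F q x) ≤
      (k * finrank K L : ℕ) * ((q : ℝ) ^ (n + k) * canH F q x) := by
    have h3 : q ^ i₀ * r ≤ k * finrank K L := by
      rw [hrk]
      calc q ^ i₀ * (k * D) = k * (q ^ i₀ * D) := by ring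
        _ ≤ _ := Nat.mul_le_mul_left _ hi2
    have h4 : ((q : ℝ) ^ i₀ * r) ≤ (k * finrank K L : ℕ) := by exact_mod_cast h3
    have hX : 0 ≤ (q : ℝ) ^ (n + k) * canH F q x := by positivity
    calc (r : ℝ) * ((q : ℝ) ^ (i₀ + n + k) * canH F q x) =
        ((q : ℝ) ^ i₀ * r) * ((q : ℝ) ^ (n + k) * canH F q x) := by
          rw [add_assoc i₀ n k, pow_add]
          ring
      _ ≤ _ := mul_le_mul_of_nonneg_right h4 hX
  have h3 : hC A a * ((c + q : ℕ) * (1 + Nat.log 2 r : ℕ)) ≤
      hC A a * ((c + q : ℕ) * (1 + Nat.log 2 (k * finrank K L) : ℕ)) := by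
    have h4 : Nat.log 2 r ≤ Nat.log 2 (k * finrank K L) := Nat.log_mono_right hrD
    have h5 : ((1 + Nat.log 2 r : ℕ) : ℝ) ≤ ((1 + Nat.log 2 (k * finrank K L) : ℕ) : ℝ) := by
      exact_mod_cast Nat.add_le_add_left h4 1
    have := hB.hC_nonneg
    gcongr
  have h4 : Real.log r ≤ Real.log (k * finrank K L : ℕ) :=
    Real.log_le_log (by linarith) hrD'
  linarith

end

end Pool.Agent.L5helper9.Ql
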