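import Mathlib
import Pool.Agent.H627.LP.Par

/-!
Choice of the parameters, without the ramification index.
-/

set_option autoImplicit false

namespace Pool.Agent.L5helper9.Ql

open Pool.Agent.H627.LP (natlog_le)

noncomputable section

/-- the choice of the parameters -/
theorem choose_params2 {lp E : ℝ} (hlp : 0 < lp) (hE : 0 ≤ E) {N q b : ℕ} (hN : 1 ≤ N)
    (hq : 2 ≤ q) (hb : 2 ≤ b) : ∃ C : ℝ, 0 < C ∧ ∀ D : ℕ, 1 ≤ D → ∀ h : ℝ,
      (∀ s k : ℕ, 1 ≤ s → 1 ≤ k → b * s ^ N ≤ k → lp * (1 + (k : ℝ)) * s / 2 ≤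
        (k * D : ℕ) * ((q : ℝ) ^ (k + k) * h) +
          (E * (1 + Nat.log 2 (k * D) : ℕ) + Real.log (k * D : ℕ))) →
      Real.exp (-(C * (1 + Real.log D) ^ ((N : ℝ) / (N + 1)))) / D ≤ h := by
  have hb' : (2 : ℝ) ≤ b := by exact_mod_cast hb
  have hlb : 0 ≤ Real.log b := Real.log_nonneg (by linarith)
  set lb : ℝ := Real.log b with hlbdef
  set E' : ℝ := E * (3 + 2 * lb) + (2 + lb) with hE'
  have hE'0 : 0 < E' := by positivity
  have hN' : (1 : ℝ) ≤ N := by exact_mod_cast hN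
  have hq' : (2 : ℝ) ≤ q := by exact_mod_cast hq
  have hlq : 0 < Real.log q := Real.log_pos (by linarith)
  set C₁ : ℝ := 1 + 2 * E' * (N + 1) / lp with hC₁
  have hC₁1 : 1 ≤ C₁ := by
    have : 0 ≤ 2 * E' * (N + 1) / lp := by positivity
    linarith
  have hC₁a : 2 * E' * N ≤ lp * C₁ := by
    have h1 : lp * C₁ = lp + 2 * E' * (N + 1) := by
      rw [hC₁]
      field_simp
    rw [h1]
    have h2 : 2 * E' * (N + 1) = 2 * E' * N + 2 * E' := by ring
    linarith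
  have hC₁b : 2 * E' ≤ lp * C₁ := by
    refine le_trans ?_ hC₁a
    exact le_mul_of_one_le_right (by linarith) hN'
  set C₂ : ℝ := b * (2 * C₁) ^ N * (1 + 2 * Real.log q) with hC₂
  have hC₂0 : 0 < C₂ := by positivity
  refine ⟨C₂, hC₂0, ?_⟩
  intro D hD h hmain
  have hD' : (1 : ℝ) ≤ D := by exact_mod_cast hD
  have hlD : 0 ≤ Real.log D := Real.log_nonneg hD'
  set Λ : ℝ := 1 + Real.log D with hΛ
  have hΛ1 : 1 ≤ Λ := by linarith
  set α : ℝ := 1 / ((N : ℝ) + 1) with hα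
  have hα0 : 0 < α := by positivity
  have hΛα : 1 ≤ Λ ^ α := Real.one_le_rpow hΛ1 hα0.le
  set s : ℕ := ⌈C₁ * Λ ^ α⌉₊ with hs
  have hs1 : C₁ * Λ ^ α ≤ s := Nat.le_ceil _
  have hs2 : (s : ℝ) ≤ 2 * C₁ * Λ ^ α := by
    have h1 : (s : ℝ) < C₁ * Λ ^ α + 1 := Nat.ceil_lt_add_one (by positivity)
    have h2 : 1 ≤ C₁ * Λ ^ α := one_le_mul_of_one_le_of_one_le hC₁1 hΛα
    linarith
  have hsC : C₁ ≤ s := by
    refine le_trans ?_ hs1
    exact le_mul_of_one_le_right (by linarith) hΛα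
  have hs3 : (1 : ℝ) ≤ s := hC₁1.trans hsC
  have hs3' : 1 ≤ s := by exact_mod_cast hs3
  set k : ℕ := b * s ^ N with hk
  have hk' : (k : ℝ) = b * (s : ℝ) ^ N := by rw [hk]; push_cast; ring
  have hk1 : 1 ≤ k := by
    have : 1 ≤ s ^ N := Nat.one_le_pow _ _ hs3'
    exact Nat.mul_pos (by omega) this
  have hk1' : (1 : ℝ) ≤ k := by exact_mod_cast hk1
  have hkD : 1 ≤ k * D := Nat.mul_pos hk1 hD
  have h1 := hmain s k hs3' hk1 le_rfl
  -- the logarithm
  have hsN : (s : ℝ) ^ N ≤ (2 * C₁) ^ N * Λ ^ ((N : ℝ) / (N + 1)) := by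
    have h2 : (s : ℝ) ^ N ≤ (2 * C₁ * Λ ^ α) ^ N := pow_le_pow_left₀ (by linarith) hs2 N
    refine h2.trans (le_of_eq ?_)
    rw [mul_pow]
    congr 1
    rw [← Real.rpow_natCast, ← Real.rpow_mul (by linarith)]
    congr 1
    rw [hα]
    ring
  have hsN1 : lp * Λ * C₁ ≤ lp * (s : ℝ) ^ (N + 1) := by
    have h2 : (C₁ * Λ ^ α) ^ (N + 1) ≤ (s : ℝ) ^ (N + 1) :=
      pow_le_pow_left₀ (by positivity) hs1 _
    have h3 : (C₁ * Λ ^ α) ^ (N + 1) = C₁ ^ (N + 1) * Λ := by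
      rw [mul_pow]
      congr 1
      rw [← Real.rpow_natCast, ← Real.rpow_mul (by linarith)]
      have : α * ((N + 1 : ℕ) : ℝ) = 1 := by
        rw [hα]
        push_cast
        field_simp
      rw [this, Real.rpow_one]
    have h4 : C₁ ≤ C₁ ^ (N + 1) := le_self_pow₀ hC₁1 (by omega)
    rw [h3] at h2
    have h5 : C₁ * Λ ≤ C₁ ^ (N + 1) * Λ := mul_le_mul_of_nonneg_right h4 (by linarith)
    calc lp * Λ * C₁ = lp * (C₁ * Λ) := by ring
      _ ≤ lp * (s : ℝ) ^ (N + 1) := mul_le_mul_of_nonneg_left (h5.trans h2) hlp.le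
  have hlogs : Real.log s ≤ s := by
    have := Real.log_le_sub_one_of_pos (show (0 : ℝ) < s by linarith)
    linarith
  have hlogs0 : 0 ≤ Real.log s := Real.log_nonneg hs3
  have hW1 : 1 ≤ (N : ℝ) * s + Λ := by
    have : 0 ≤ (N : ℝ) * s := by positivity
    linarith
  have hlkD : Real.log (k * D : ℕ) ≤ (1 + lb) * (N * s + Λ) := by
    push_cast
    rw [Real.log_mul (by linarith) (by linarith), hk',
      Real.log_mul (by linarith) (by positivity), Real.log_pow, ← hlbdef]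
    have h3 : (N : ℝ) * Real.log s ≤ N * s := mul_le_mul_of_nonneg_left hlogs (by linarith)
    have h4 : lb ≤ lb * (N * s + Λ) := le_mul_of_one_le_right hlb hW1
    have h5 : (1 + lb) * ((N : ℝ) * s + Λ) = N * s + Λ + lb * (N * s + Λ) := by ring
    linarith
  have hnl := natlog_le hkD
  have hR : E * (1 + Nat.log 2 (k * D) : ℕ) + Real.log (k * D : ℕ) + 1 ≤
      E' * (N * s + Λ) := by
    set W : ℝ := N * s + Λ with hW
    push_cast at hnl hlkD ⊢
    have h2 : E * (1 + (Nat.log 2 (k * D) : ℝ)) ≤ E * (1 + 2 * ((1 + lb) * W)) := by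
      apply mul_le_mul_of_nonneg_left _ hE
      linarith
    have h3 : E ≤ E * W := le_mul_of_one_le_right hE hW1
    have h4 : E' * W = E * W + 2 * (E * ((1 + lb) * W)) + (1 + lb) * W + W := by
      rw [hE']
      ring
    have h5 : E * (1 + 2 * ((1 + lb) * W)) = E + 2 * (E * ((1 + lb) * W)) := by ring
    linarith
  have hL : E' * (N * s + Λ) ≤ lp * (1 + (k : ℝ)) * s / 2 := by
    have h2 : lp * (s : ℝ) ^ (N + 1) ≤ lp * (1 + (k : ℝ)) * s / 2 := by
      have h3 : 0 ≤ lp * s := by positivity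
      have h4 : lp * (1 + (k : ℝ)) * s / 2 = lp * s / 2 + (b / 2) * (lp * (s : ℝ) ^ (N + 1)) := by
        rw [hk']
        ring
      have h5 : 0 ≤ lp * (s : ℝ) ^ (N + 1) := by positivity
      have h6 : 1 * (lp * (s : ℝ) ^ (N + 1)) ≤ (b / 2) * (lp * (s : ℝ) ^ (N + 1)) :=
        mul_le_mul_of_nonneg_right (by linarith) h5
      linarith
    refine le_trans ?_ h2
    have h3 : 2 * (E' * (N * s)) ≤ lp * (s : ℝ) ^ (N + 1) := by
      have h4 : (s : ℝ) ≤ (s : ℝ) ^ N := le_self_pow₀ hs3 (by omega)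
      have h5 : lp * C₁ ≤ lp * (s : ℝ) ^ N :=
        mul_le_mul_of_nonneg_left (hsC.trans h4) hlp.le
      rw [pow_succ]
      calc 2 * (E' * (N * s)) = (2 * E' * N) * s := by ring
        _ ≤ (lp * (s : ℝ) ^ N) * s := by
          apply mul_le_mul_of_nonneg_right _ (by linarith)
          linarith
        _ = _ := by ring
    have h4 : 2 * (E' * Λ) ≤ lp * (s : ℝ) ^ (N + 1) := by
      refine le_trans ?_ hsN1
      calc 2 * (E' * Λ) = (2 * E') * Λ := by ring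
        _ ≤ (lp * C₁) * Λ := mul_le_mul_of_nonneg_right hC₁b (by linarith)
        _ = _ := by ring
    linarith
  have h2 : 1 ≤ (k * D : ℕ) * ((q : ℝ) ^ (k + k) * h) := by linarith
  -- conclusion
  have hh0 : 0 < h := by
    by_contra hcon
    push Not at hcon
    have h3 : (0 : ℝ) ≤ (k * D : ℕ) * (q : ℝ) ^ (k + k) := by positivity
    have h4 : (k * D : ℕ) * ((q : ℝ) ^ (k + k) * h) ≤ 0 := by
      rw [← mul_assoc]
      exact mul_nonpos_of_nonneg_of_nonpos h3 hcon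
    linarith
  have hkexp : (k : ℝ) * ((q : ℝ) ^ k * (q : ℝ) ^ k) ≤ Real.exp (k * (1 + 2 * Real.log q)) := by
    have h3 : (k : ℝ) ≤ Real.exp k := by
      have := Real.add_one_le_exp (k : ℝ)
      linarith
    have h4 : (q : ℝ) ^ k = Real.exp (k * Real.log q) := by
      rw [Real.exp_nat_mul, Real.exp_log (by linarith)]
    rw [h4, ← Real.exp_add]
    calc (k : ℝ) * Real.exp (k * Real.log q + k * Real.log q) ≤
        Real.exp k * Real.exp (k * Real.log q + k * Real.log q) := by gcongr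
      _ = _ := by
        rw [← Real.exp_add]
        congr 1
        ring
  have hkC : (k : ℝ) * (1 + 2 * Real.log q) ≤ C₂ * Λ ^ ((N : ℝ) / (N + 1)) := by
    have hΛ0 : 0 ≤ Λ ^ ((N : ℝ) / (N + 1)) := by positivity
    calc (k : ℝ) * (1 + 2 * Real.log q) = (s : ℝ) ^ N * (b * (1 + 2 * Real.log q)) := by
          rw [hk']; ring
      _ ≤ ((2 * C₁) ^ N * Λ ^ ((N : ℝ) / (N + 1))) * (b * (1 + 2 * Real.log q)) := by
          gcongr
      _ = C₂ * Λ ^ ((N : ℝ) / (N + 1)) := by rw [hC₂]; ring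
  have hexp : Real.exp (k * (1 + 2 * Real.log q)) ≤
      Real.exp (C₂ * Λ ^ ((N : ℝ) / (N + 1))) := Real.exp_le_exp.mpr hkC
  have h3 : 1 ≤ Real.exp (C₂ * Λ ^ ((N : ℝ) / (N + 1))) * D * h := by
    calc (1 : ℝ) ≤ (k * D : ℕ) * ((q : ℝ) ^ (k + k) * h) := h2
      _ = (k * ((q : ℝ) ^ k * (q : ℝ) ^ k)) * D * h := by
          push_cast
          rw [pow_add]
          ring
      _ ≤ Real.exp (C₂ * Λ ^ ((N : ℝ) / (N + 1))) * D * h := by
          have h5 := hkexp.trans hexp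
          gcongr
  rw [Real.exp_neg, div_le_iff₀ (by positivity)]
  have h4 := Real.exp_pos (C₂ * Λ ^ ((N : ℝ) / (N + 1)))
  rw [inv_le_iff_one_le_mul₀ h4]
  calc (1 : ℝ) ≤ _ := h3
    _ = _ := by ring

/-- the bound beats every power -/
lemma exp_pow_ge {C ε θ : ℝ} (hC : 0 < C) (hε : 0 < ε) (hθ0 : 0 ≤ θ) (hθ : θ < 1) :
    ∃ c : ℝ, 0 < c ∧ ∀ D : ℕ, 1 ≤ D →
      c * (D : ℝ) ^ (-(1 + ε)) ≤ Real.exp (-(C * (1 + Real.log D) ^ θ)) / D := by
  set Y : ℝ := (C / ε) ^ (1 / (1 - θ)) with hY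
  have hY0 : 0 < Y := by positivity
  have h1θ : 0 < 1 - θ := by linarith
  -- C y ^ θ ≤ ε y + C Y ^ θ
  have hyoung : ∀ y : ℝ, 0 < y → C * y ^ θ ≤ ε * y + C * Y ^ θ := by
    intro y hy
    rcases le_total y Y with h | h
    · have h2 : y ^ θ ≤ Y ^ θ := Real.rpow_le_rpow hy.le h hθ0
      have h3 : C * y ^ θ ≤ C * Y ^ θ := mul_le_mul_of_nonneg_left h2 hC.le
      have : 0 ≤ ε * y := by positivity
      linarith
    · have h2 : C / ε ≤ y ^ (1 - θ) := by
        have h3 : Y ^ (1 - θ) ≤ y ^ (1 - θ) := Real.rpow_le_rpow hY0.le h h1θ.le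
        have h4 : Y ^ (1 - θ) = C / ε := by
          rw [hY, ← Real.rpow_mul (by positivity), one_div, inv_mul_cancel₀ h1θ.ne',
            Real.rpow_one]
        rwa [h4] at h3
      have h3 : y = y ^ θ * y ^ (1 - θ) := by
        rw [← Real.rpow_add hy]
        simp
      have h4 : C * y ^ θ ≤ ε * y := by
        have h5 : 0 ≤ y ^ θ := by positivity
        calc C * y ^ θ = ε * (y ^ θ * (C / ε)) := by field_simp
          _ ≤ ε * (y ^ θ * y ^ (1 - θ)) := by gcongr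
          _ = ε * y := by rw [← h3]
      have : 0 ≤ C * Y ^ θ := by positivity
      linarith
  refine ⟨Real.exp (-(ε + C * Y ^ θ)), Real.exp_pos _, ?_⟩
  intro D hD
  have hD' : (1 : ℝ) ≤ D := by exact_mod_cast hD
  have hD0 : (0 : ℝ) < D := by linarith
  have hlD : 0 ≤ Real.log D := Real.log_nonneg hD'
  have h1 := hyoung (1 + Real.log D) (by linarith)
  rw [le_div_iff₀ hD0, mul_assoc]
  have h2 : (D : ℝ) ^ (-(1 + ε)) * D = Real.exp (-(ε * Real.log D)) := by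
    rw [Real.rpow_def_of_pos hD0]
    nth_rw 2 [← Real.exp_log hD0]
    rw [← Real.exp_add]
    congr 1
    ring
  rw [h2, ← Real.exp_add]
  apply Real.exp_le_exp.mpr
  linarith

end

end Pool.Agent.L5helper9.Ql
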