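import Mathlib

/-!
# Families of sets without a prescribed difference size (Frankl-Wilson), and a pigeonhole for pairs
-/

set_option autoImplicit false

namespace Pool.Agent.L5helper9.Rp1

open Finset

variable {α : Type*} [DecidableEq α]

/-- The monomial of `S`, as a function of `B`. -/
def mono (p : ℕ) (S : Finset α) : Finset α → ZMod p := fun B => if S ⊆ B then 1 else 0

/-- The functions of degree at most `j`. -/
def W (p : ℕ) (I : Finset α) (j : ℕ) : Submodule (ZMod p) (Finset α → ZMod p) :=
  Submodule.span (ZMod p) ((fun S => mono p S) '' {S : Finset α | S ⊆ I ∧ S.card ≤ j})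

lemma W_mono (p : ℕ) (I : Finset α) {j l : ℕ} (h : j ≤ l) : W p I j ≤ W p I l := by
  apply Submodule.span_mono
  apply Set.image_mono
  rintro S ⟨h1, h2⟩
  exact ⟨h1, h2.trans h⟩

lemma mul_mem {p : ℕ} {I : Finset α} {j : ℕ} {A : Finset α} (hA : A ⊆ I) (c : ZMod p)
    {g : Finset α → ZMod p} (hg : g ∈ W p I j) :
    (fun B => (((A ∩ B).card : ZMod p) - c) * g B) ∈ W p I (j + 1) := by
  unfold W at hg
  induction hg using Submodule.span_induction with
  | mem x hx =>
    obtain ⟨S, ⟨hS1, hS2⟩, rfl⟩ := hx
    have h1 : (fun B => (((A ∩ B).card : ZMod p) - c) * mono p S B) =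
        (∑ a ∈ A, mono p (insert a S)) - c • mono p S := by
      funext B
      simp only [Pi.sub_apply, Finset.sum_apply, Pi.smul_apply, smul_eq_mul]
      have h2 : ((A ∩ B).card : ZMod p) = ∑ a ∈ A, (if a ∈ B then (1 : ZMod p) else 0) := by
        rw [Finset.sum_boole]
        congr 2
      rw [sub_mul, h2, Finset.sum_mul]
      congr 1
      apply Finset.sum_congr rfl
      intro a ha
      unfold mono
      by_cases h3 : a ∈ B
      · by_cases h4 : S ⊆ B
        · simp [h3, h4, Finset.insert_subset_iff]
        · simp [h3, h4, Finset.insert_subset_iff]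
      · simp [h3, Finset.insert_subset_iff]
    show (fun B => (((A ∩ B).card : ZMod p) - c) * mono p S B) ∈ W p I (j + 1)
    rw [h1]
    apply Submodule.sub_mem
    · apply Submodule.sum_mem
      intro a ha
      apply Submodule.subset_span
      exact ⟨insert a S, ⟨Finset.insert_subset (hA ha) hS1,
        (Finset.card_insert_le a S).trans (by omega)⟩, rfl⟩
    · apply Submodule.smul_mem
      apply Submodule.subset_span
      exact ⟨S, ⟨hS1, by omega⟩, rfl⟩
  | zero =>
    simp only [Pi.zero_apply, mul_zero]
    exact Submodule.zero_mem _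
  | add x y hx hy ihx ihy =>
    have h1 : (fun B => (((A ∩ B).card : ZMod p) - c) * (x + y) B) =
        (fun B => (((A ∩ B).card : ZMod p) - c) * x B) +
        (fun B => (((A ∩ B).card : ZMod p) - c) * y B) := by
      funext B
      simp only [Pi.add_apply]
      ring
    rw [h1]
    exact Submodule.add_mem _ ihx ihy
  | smul a x hx ih =>
    have h1 : (fun B => (((A ∩ B).card : ZMod p) - c) * (a • x) B) =
        a • (fun B => (((A ∩ B).card : ZMod p) - c) * x B) := by
      funext B
      simp only [Pi.smul_apply, smul_eq_mul]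
      ring
    rw [h1]
    exact Submodule.smul_mem _ _ ih

/-- The functions of the proof. -/
def ff (p k : ℕ) (A : Finset α) (j : ℕ) : Finset α → ZMod p :=
  fun B => ∏ i ∈ range j, (((A ∩ B).card : ZMod p) - ((k + 1 + i : ℕ) : ZMod p))

lemma ff_mem (p k : ℕ) {I A : Finset α} (hA : A ⊆ I) (j : ℕ) : ff p k A j ∈ W p I j := by
  induction j with
  | zero =>
    have h1 : ff p k A 0 = mono p ∅ := by
      funext B
      simp [ff, mono]
    rw [h1]
    apply Submodule.subset_span
    exact ⟨∅, ⟨Finset.empty_subset _, by simp⟩, rfl⟩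
  | succ j ih =>
    have h1 : ff p k A (j + 1) =
        fun B => (((A ∩ B).card : ZMod p) - ((k + 1 + j : ℕ) : ZMod p)) * ff p k A j B := by
      funext B
      simp only [ff, Finset.prod_range_succ]
      ring
    rw [h1]
    exact mul_mem hA _ ih

/-- **Frankl-Wilson.** -/
theorem frankl_wilson {p k : ℕ} (hp : p.Prime) (hk : k < 2 * p) {I : Finset α}
    (F : Finset (Finset α)) (hF : ∀ A ∈ F, A ⊆ I ∧ A.card = k)
    (hF2 : ∀ A ∈ F, ∀ B ∈ F, (A \ B).card ≠ p) :
    F.card ≤ ∑ i ∈ range p, I.card.choose i := by
  classical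
  have : Fact p.Prime := ⟨hp⟩
  have hp1 := hp.one_lt
  -- the values
  have hself : ∀ A ∈ F, ff p k A (p - 1) A ≠ 0 := by
    intro A hA
    unfold ff
    rw [Finset.prod_ne_zero_iff]
    intro i hi
    rw [Finset.mem_range] at hi
    rw [Finset.inter_self, (hF A hA).2]
    have h1 : ((k : ℕ) : ZMod p) - ((k + 1 + i : ℕ) : ZMod p) = -((1 + i : ℕ) : ZMod p) := by
      push_cast
      ring
    rw [h1, neg_ne_zero, Ne, ZMod.natCast_eq_zero_iff]
    intro h2
    have := Nat.le_of_dvd (by omega) h2
    omega
  have hoff : ∀ A ∈ F, ∀ B ∈ F, A ≠ B → ff p k A (p - 1) B = 0 := by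
    intro A hA B hB hAB
    have h1 : (A \ B).card + (A ∩ B).card = k := by
      rw [Finset.card_sdiff_add_card_inter]
      exact (hF A hA).2
    have h2 : (A \ B).card ≠ 0 := by
      intro h3
      rw [Finset.card_eq_zero, Finset.sdiff_eq_empty_iff_subset] at h3
      exact hAB (Finset.eq_of_subset_of_card_le h3 (by rw [(hF A hA).2, (hF B hB).2]))
    have h3 := hF2 A hA B hB
    -- write `k - |A ∩ B| = r`, not divisible by p
    set r := (A \ B).card with hr
    have hrk : r ≤ k := by omega
    have hrp : ¬ p ∣ r := by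
      rintro ⟨c, hc⟩
      have hc1 : c < 2 := by
        by_contra h4
        push Not at h4
        have : 2 * p ≤ p * c := by nlinarith
        omega
      interval_cases c
      · omega
      · omega
    unfold ff
    -- choose i with i + 1 ≡ - r
    have h4 : r % p ≠ 0 := fun h => hrp (Nat.dvd_of_mod_eq_zero h)
    have h5 : r % p < p := Nat.mod_lt _ (by omega)
    apply Finset.prod_eq_zero (i := p - r % p - 1)
    · rw [Finset.mem_range]
      omega
    · have h6 : ((A ∩ B).card : ZMod p) = (k : ZMod p) - (r : ZMod p) := by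
        rw [← h1]
        push_cast
        ring
      rw [h6]
      have h7 : ((k + 1 + (p - r % p - 1) : ℕ) : ZMod p) = (k : ZMod p) - ((r % p : ℕ) : ZMod p) := by
        have h8 : k + 1 + (p - r % p - 1) + r % p = k + p := by omega
        have h9 : ((k + 1 + (p - r % p - 1) + r % p : ℕ) : ZMod p) = ((k + p : ℕ) : ZMod p) := by
          rw [h8]
        rw [Nat.cast_add, Nat.cast_add k p, ZMod.natCast_self, add_zero] at h9
        rw [← h9]
        ring
      rw [h7, ZMod.natCast_mod]
      ring
  -- the span
  have hfin : ((fun S => mono p S) '' {S : Finset α | S ⊆ I ∧ S.card ≤ p - 1}) =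
      (((range p).biUnion (fun i => powersetCard i I)).image (fun S => mono p S) :
        Finset (Finset α → ZMod p)) := by
    classical
    rw [Finset.coe_image]
    congr 1
    ext S
    simp only [Set.mem_ofPred_eq, Finset.coe_biUnion, Finset.mem_coe, Finset.mem_range,
      Set.mem_iUnion, Finset.mem_powersetCard]
    constructor
    · rintro ⟨h1, h2⟩
      exact ⟨S.card, by omega, h1, rfl⟩
    · rintro ⟨i, h1, h2, h3⟩
      exact ⟨h2, by omega⟩
  have hW : Module.finrank (ZMod p) (W p I (p - 1)) ≤ ∑ i ∈ range p, I.card.choose i := by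
    unfold W
    rw [hfin]
    refine (finrank_span_finset_le_card _).trans ?_
    refine Finset.card_image_le.trans ?_
    refine Finset.card_biUnion_le.trans ?_
    apply Finset.sum_le_sum
    intro i _
    rw [Finset.card_powersetCard]
  have : Module.Finite (ZMod p) (W p I (p - 1)) := by
    unfold W
    rw [hfin]
    infer_instance
  -- linear independence
  let v : F → W p I (p - 1) := fun A => ⟨ff p k A.1 (p - 1), ff_mem p k (hF A.1 A.2).1 _⟩
  have hv : LinearIndependent (ZMod p) v := by
    rw [Fintype.linearIndependent_iff]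
    intro g hg B
    have h1 : ∑ A : F, g A * ff p k A.1 (p - 1) B.1 = 0 := by
      have h2 := congrArg (fun w : W p I (p - 1) => (w : Finset α → ZMod p) B.1) hg
      simp only [v, Submodule.coe_sum, Submodule.coe_smul, Finset.sum_apply, Pi.smul_apply,
        smul_eq_mul, Submodule.coe_zero, Pi.zero_apply] at h2
      exact h2
    rw [Finset.sum_eq_single B] at h1
    · exact (mul_eq_zero.mp h1).resolve_right (hself B.1 B.2)
    · intro A _ hAB
      rw [hoff A.1 A.2 B.1 B.2 (fun h => hAB (Subtype.ext h)), mul_zero]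
    · intro h
      exact absurd (Finset.mem_univ B) h
  have h1 := hv.fintype_card_le_finrank
  rw [Fintype.card_coe] at h1
  exact h1.trans hW

/-- Binomial coefficients below the middle. -/
lemma sum_choose_le {n p : ℕ} (hp : 1 ≤ p) (hn : 2 * p ≤ n) :
    ∑ i ∈ range p, n.choose i ≤ p * n.choose (p - 1) := by
  have h1 : ∀ i ∈ range p, n.choose i ≤ n.choose (p - 1) := by
    intro i hi
    rw [Finset.mem_range] at hi
    obtain ⟨c, hc⟩ := Nat.exists_eq_add_of_le (show i ≤ p - 1 by omega)
    have h2 : ∀ c, i + c ≤ p - 1 → n.choose i ≤ n.choose (i + c) := by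
      intro c
      induction c with
      | zero => intro _; simp
      | succ c ih =>
        intro h3
        refine (ih (by omega)).trans ?_
        exact Nat.choose_le_succ_of_lt_half_left (by omega)
    rw [hc]
    exact h2 c (by omega)
  calc ∑ i ∈ range p, n.choose i ≤ ∑ _i ∈ range p, n.choose (p - 1) := Finset.sum_le_sum h1
    _ = p * n.choose (p - 1) := by simp

lemma choose_growth {n p : ℕ} (hp : 1 ≤ p) (hn : 18 * p ≤ n) :
    8 ^ p * n.choose (p - 1) ≤ n.choose (2 * p - 1) := by
  have h1 : ∀ j, j ≤ p → 8 ^ j * n.choose (p - 1) ≤ n.choose (p - 1 + j) := by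
    intro j
    induction j with
    | zero => intro _; simp
    | succ j ih =>
      intro hj
      have h2 := ih (by omega)
      have h3 : n.choose (p - 1 + j + 1) * (p - 1 + j + 1) = n.choose (p - 1 + j) * (n - (p - 1 + j)) :=
        Nat.choose_succ_right_eq n (p - 1 + j)
      have h4 : 8 * (p - 1 + j + 1) ≤ n - (p - 1 + j) := by omega
      have h5 : 8 * n.choose (p - 1 + j) * (p - 1 + j + 1) ≤
          n.choose (p - 1 + j + 1) * (p - 1 + j + 1) := by
        rw [h3]
        calc 8 * n.choose (p - 1 + j) * (p - 1 + j + 1)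
            = n.choose (p - 1 + j) * (8 * (p - 1 + j + 1)) := by ring
          _ ≤ n.choose (p - 1 + j) * (n - (p - 1 + j)) := Nat.mul_le_mul_left _ h4
      have h6 : 8 * n.choose (p - 1 + j) ≤ n.choose (p - 1 + j + 1) :=
        Nat.le_of_mul_le_mul_right h5 (by omega)
      calc 8 ^ (j + 1) * n.choose (p - 1) = 8 * (8 ^ j * n.choose (p - 1)) := by ring
        _ ≤ 8 * n.choose (p - 1 + j) := Nat.mul_le_mul_left _ h2
        _ ≤ n.choose (p - 1 + j + 1) := h6
        _ = n.choose (p - 1 + (j + 1)) := by rw [Nat.add_assoc]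
  have h2 := h1 p le_rfl
  have h3 : p - 1 + p = 2 * p - 1 := by omega
  rwa [h3] at h2

/-- **Pairs of sets of a prescribed prime size with the same value.** -/
theorem exists_pair {β : Type*} [DecidableEq β] {p : ℕ} (hp : p.Prime) {I : Finset α}
    (hn : 18 * p ≤ I.card) (V : Finset α → β) (L : ℕ)
    (hL : ((powersetCard (2 * p - 1) I).image V).card ≤ L) (hLp : L * p < 8 ^ p) :
    ∃ A B : Finset α, A ⊆ I ∧ B ⊆ I ∧ A.card = 2 * p - 1 ∧ B.card = 2 * p - 1 ∧ V A = V B ∧
      (A \ B).card = p := by
  by_contra hcon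
  push Not at hcon
  have hp1 := hp.one_lt
  -- each class is small
  have h1 : ∀ b ∈ (powersetCard (2 * p - 1) I).image V,
      ((powersetCard (2 * p - 1) I).filter (fun A => V A = b)).card ≤
        ∑ i ∈ range p, I.card.choose i := by
    intro b _
    apply frankl_wilson (k := 2 * p - 1) hp (by omega)
    · intro A hA
      rw [Finset.mem_filter, Finset.mem_powersetCard] at hA
      exact hA.1
    · intro A hA B hB
      rw [Finset.mem_filter, Finset.mem_powersetCard] at hA hB
      exact hcon A B hA.1.1 hB.1.1 hA.1.2 hB.1.2 (hA.2.trans hB.2.symm)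
  have h2 : (powersetCard (2 * p - 1) I).card ≤
      ∑ b ∈ (powersetCard (2 * p - 1) I).image V,
        ((powersetCard (2 * p - 1) I).filter (fun A => V A = b)).card := by
    rw [← Finset.card_eq_sum_card_image]
  rw [Finset.card_powersetCard] at h2
  have h3 : I.card.choose (2 * p - 1) ≤ L * (p * I.card.choose (p - 1)) := by
    refine h2.trans ((Finset.sum_le_sum h1).trans ?_)
    rw [Finset.sum_const, smul_eq_mul]
    exact Nat.mul_le_mul hL (sum_choose_le (by omega) (by omega))
  have h4 := choose_growth (n := I.card) (p := p) (by omega) hn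
  have h5 : 0 < I.card.choose (p - 1) := Nat.choose_pos (by omega)
  have h6 : 8 ^ p * I.card.choose (p - 1) ≤ (L * p) * I.card.choose (p - 1) := by
    calc 8 ^ p * I.card.choose (p - 1) ≤ _ := h4
      _ ≤ _ := h3
      _ = _ := by ring
  have h7 := Nat.le_of_mul_le_mul_right h6 h5
  omega

end Pool.Agent.L5helper9.Rp1
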