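import Mathlib

/-!
# Numbers as sums of primes from a short range
-/

set_option autoImplicit false

namespace Pool.Agent.L5helper9.Rp2

open Finset
open scoped Pointwise

/-- Many primes in `(q, 4q]`. -/
lemma primes_card {q : ℕ} (hq : 10 ^ 7 ≤ q) :
    (q : ℝ) / Real.log (4 * q) ≤ ((Ioc q (4 * q)).filter Nat.Prime).card := by
  have hq0 : (0 : ℝ) < q := by positivity
  have hq1 : (10 ^ 7 : ℝ) ≤ q := by exact_mod_cast hq
  have hlog : 0 < Real.log (4 * q) := Real.log_pos (by linarith)
  rw [div_le_iff₀ hlog]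
  have h1 := Chebyshev.theta_ge (4 * q)
  have h2 := Chebyshev.theta_le_log4_mul_x (x := (q : ℝ)) hq0.le
  have h3 : Chebyshev.theta ((4 * q : ℕ) : ℝ) - Chebyshev.theta (q : ℝ) =
      ∑ p ∈ (Ioc q (4 * q)).filter Nat.Prime, Real.log p := by
    rw [Chebyshev.theta_eq_sum_Icc, Chebyshev.theta_eq_sum_Icc]
    simp only [Nat.floor_natCast]
    have h4 : (Icc 0 (4 * q)).filter Nat.Prime =
        (Icc 0 q).filter Nat.Prime ∪ (Ioc q (4 * q)).filter Nat.Prime := by
      rw [← Finset.filter_union]
      congr 1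
      ext x
      simp only [Finset.mem_Icc, Finset.mem_union, Finset.mem_Ioc]
      omega
    rw [h4, Finset.sum_union]
    · ring
    · rw [Finset.disjoint_left]
      intro x hx hx2
      rw [Finset.mem_filter, Finset.mem_Icc] at hx
      rw [Finset.mem_filter, Finset.mem_Ioc] at hx2
      omega
  have h5 : ∑ p ∈ (Ioc q (4 * q)).filter Nat.Prime, Real.log p ≤
      ∑ _p ∈ (Ioc q (4 * q)).filter Nat.Prime, Real.log (4 * q) := by
    apply Finset.sum_le_sum
    intro p hp
    rw [Finset.mem_filter, Finset.mem_Ioc] at hp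
    apply Real.log_le_log
    · have := hp.2.pos
      positivity
    · have := hp.1.2
      exact_mod_cast this
  rw [Finset.sum_const, nsmul_eq_mul] at h5
  -- the error terms
  have h6 : Real.log 4 = 2 * Real.log 2 := by
    rw [show (4 : ℝ) = 2 ^ (2 : ℕ) by norm_num, Real.log_pow]
    norm_num
  have h8 : (0.6931 : ℝ) ≤ Real.log 2 := by
    have := Real.log_two_gt_d9
    linarith
  have h8' : Real.log 2 ≤ 0.6932 := by
    have := Real.log_two_lt_d9
    linarith
  have h7 : Real.log ((4 * q : ℕ) + 1) + 2 * √((4 * q : ℕ) : ℝ) * Real.log ((4 * q : ℕ) : ℝ) ≤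
      0.38 * q := by
    set u : ℝ := √(√(q : ℝ)) with hu
    have hu0 : 0 ≤ u := Real.sqrt_nonneg _
    have hu2 : u ^ 2 = √(q : ℝ) := Real.sq_sqrt (Real.sqrt_nonneg _)
    have hu4 : u ^ 4 = q := by
      rw [show u ^ 4 = (u ^ 2) ^ 2 by ring, hu2]
      exact Real.sq_sqrt hq0.le
    have hu50 : 50 ≤ u := by
      by_contra h
      push Not at h
      have h9 : u ^ 4 ≤ 50 ^ 4 := by gcongr
      rw [hu4] at h9
      norm_num at h9 hq1
      linarith
    have hlogq : Real.log ((4 * q : ℕ) : ℝ) ≤ 4 * u - 2 := by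
      push_cast
      rw [← hu4, Real.log_mul (by norm_num) (by positivity), Real.log_pow, h6]
      have := Real.log_le_sub_one_of_pos (show 0 < u by linarith)
      push_cast
      linarith
    have hlogq1 : Real.log ((4 * q : ℕ) + 1) ≤ 4 * u := by
      have h9 : ((4 * q : ℕ) : ℝ) + 1 ≤ ((4 * q : ℕ) : ℝ) * 2 := by
        push_cast
        linarith
      have h10 : Real.log ((4 * q : ℕ) + 1) ≤ Real.log (((4 * q : ℕ) : ℝ) * 2) :=
        Real.log_le_log (by positivity) h9
      rw [Real.log_mul (by positivity) (by norm_num)] at h10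
      linarith
    have hsq : √((4 * q : ℕ) : ℝ) = 2 * u ^ 2 := by
      push_cast
      rw [hu2, Real.sqrt_mul (by norm_num), show (4 : ℝ) = 2 ^ 2 by norm_num,
        Real.sqrt_sq (by norm_num)]
    rw [hsq, ← hu4]
    have h10 : 2 * (2 * u ^ 2) * Real.log ((4 * q : ℕ) : ℝ) ≤ 2 * (2 * u ^ 2) * (4 * u - 2) := by
      gcongr
    have h11 : u ^ 4 ≥ 50 * u ^ 3 := by
      have : u ^ 4 = u * u ^ 3 := by ring
      rw [this]
      gcongr
    have h12 : u ≤ u ^ 3 := by
      have : u ^ 3 = u * u ^ 2 := by ring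
      rw [this]
      have : 1 ≤ u ^ 2 := by nlinarith
      nlinarith
    have h13 : 2 * (2 * u ^ 2) * (4 * u - 2) = 16 * u ^ 3 - 8 * u ^ 2 := by ring
    have h14 : 4 * u ≤ 8 * u ^ 2 := by nlinarith
    have h15 : 0 ≤ u ^ 3 := by positivity
    nlinarith
  have h9 : (q : ℝ) ≤ Chebyshev.theta ((4 * q : ℕ) : ℝ) - Chebyshev.theta (q : ℝ) := by
    push_cast at h1 h7 ⊢
    rw [h6] at h2
    nlinarith
  linarith [h3 ▸ h9]

/-- Iterated sumsets. -/
lemma sumset_card {p : ℕ} (hp : p.Prime) (S : Finset (ZMod p)) (hS : S.Nonempty) (t : ℕ) :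
    min p (t * (S.card - 1) + 1) ≤ (t • S).card := by
  induction t with
  | zero => simp
  | succ t ih =>
    have h0 : (t • S).Nonempty := hS.nsmul
    have h1 := ZMod.cauchy_davenport hp h0 hS
    rw [succ_nsmul]
    have h2 : 1 ≤ S.card := hS.card_pos
    have h3 : (t + 1) * (S.card - 1) + 1 = (t * (S.card - 1) + 1) + S.card - 1 := by
      rw [Nat.add_mul]
      omega
    rw [h3]
    refine le_trans ?_ h1
    rcases le_total p (t * (S.card - 1) + 1) with h4 | h4
    · rw [min_eq_left h4] at ih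
      omega
    · rw [min_eq_right h4] at ih
      omega

/-- Every residue is a sum of few elements. -/
lemma mem_sumset {p : ℕ} (P : Finset ℕ) :
    ∀ (t : ℕ) (x : ZMod p), x ∈ t • (insert (0 : ZMod p) (P.image (fun n : ℕ => (n : ZMod p)))) →
    ∃ l : List ℕ, (∀ y ∈ l, y ∈ P) ∧ l.length ≤ t ∧ ((l.sum : ℕ) : ZMod p) = x := by
  intro t
  induction t with
  | zero =>
    intro x hx
    rw [zero_nsmul] at hx
    refine ⟨[], by simp, by simp, ?_⟩
    have : x = 0 := by simpa using hx
    simp [this]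
  | succ t ih =>
    intro x hx
    rw [succ_nsmul, Finset.mem_add] at hx
    obtain ⟨y, hy, z, hz, rfl⟩ := hx
    obtain ⟨l, hl1, hl2, hl3⟩ := ih y hy
    rw [Finset.mem_insert, Finset.mem_image] at hz
    rcases hz with rfl | ⟨n, hn, rfl⟩
    · exact ⟨l, hl1, by omega, by simp [hl3]⟩
    · refine ⟨n :: l, ?_, ?_, ?_⟩
      · intro w hw
        rw [List.mem_cons] at hw
        rcases hw with rfl | hw
        · exact hn
        · exact hl1 w hw
      · simp only [List.length_cons]
        omega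
      · rw [List.sum_cons, Nat.cast_add, hl3, add_comm]

/-- **Every large number is a sum of primes from a given short range.** -/
theorem exists_list {q t d : ℕ} (hq : 10 ^ 7 ≤ q) (ht : 8 * Real.log (4 * q) ≤ t)
    (hd : 8 * q * (t + 1) ≤ d) :
    ∃ l : List ℕ, (∀ y ∈ l, y.Prime ∧ q < y ∧ y ≤ 8 * q) ∧ l.sum = d := by
  obtain ⟨M, hM, hM1, hM2⟩ := Nat.exists_prime_lt_and_le_two_mul (4 * q) (by omega)
  have hM3 : M ≤ 8 * q := by omega
  have : Fact M.Prime := ⟨hM⟩
  set P := (Ioc q (4 * q)).filter Nat.Prime with hP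
  have hPc := primes_card hq
  have hinj : Set.InjOn (fun n : ℕ => (n : ZMod M)) P := by
    intro a ha b hb hab
    rw [Finset.mem_coe, hP, Finset.mem_filter, Finset.mem_Ioc] at ha hb
    simp only at hab
    rw [ZMod.natCast_eq_natCast_iff'] at hab
    rwa [Nat.mod_eq_of_lt (by omega), Nat.mod_eq_of_lt (by omega)] at hab
  set S := insert (0 : ZMod M) (P.image (fun n : ℕ => (n : ZMod M))) with hS
  have hScard : S.card - 1 = P.card := by
    rw [hS, Finset.card_insert_of_notMem, Finset.card_image_of_injOn hinj]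
    · omega
    · rw [Finset.mem_image]
      rintro ⟨n, hn, h0⟩
      rw [hP, Finset.mem_filter, Finset.mem_Ioc] at hn
      rw [ZMod.natCast_eq_zero_iff] at h0
      have := Nat.le_of_dvd (by omega) h0
      omega
  have hlog : 0 < Real.log (4 * q) := by
    apply Real.log_pos
    have : (10 ^ 7 : ℝ) ≤ q := by exact_mod_cast hq
    linarith
  have htP : M ≤ t * P.card + 1 := by
    have h1 : (8 * q : ℝ) ≤ t * P.card := by
      calc (8 * q : ℝ) = (8 * Real.log (4 * q)) * (q / Real.log (4 * q)) := by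
            rw [show (8 * Real.log (4 * q)) * (q / Real.log (4 * q)) =
              8 * q * (Real.log (4 * q) / Real.log (4 * q)) by ring, div_self hlog.ne', mul_one]
        _ ≤ t * P.card := by
            apply mul_le_mul ht hPc (by positivity) (by positivity)
    have h2 : 8 * q ≤ t * P.card := by exact_mod_cast h1
    omega
  have hcov : (t • S) = Finset.univ := by
    rw [← Finset.card_eq_iff_eq_univ, ZMod.card]
    apply le_antisymm
    · have := Finset.card_le_univ (t • S)
      rwa [ZMod.card] at this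
    · have h1 := sumset_card hM S ⟨0, by rw [hS]; exact Finset.mem_insert_self _ _⟩ t
      rw [hScard, min_eq_left htP] at h1
      exact h1
  obtain ⟨l, hl1, hl2, hl3⟩ := mem_sumset (p := M) P t (d : ZMod M) (by
    rw [← hS, hcov]
    exact Finset.mem_univ _)
  have hlP : ∀ y ∈ l, y.Prime ∧ q < y ∧ y ≤ 4 * q := by
    intro y hy
    have := hl1 y hy
    rw [hP, Finset.mem_filter, Finset.mem_Ioc] at this
    exact ⟨this.2, this.1.1, this.1.2⟩
  have hsum : l.sum ≤ d := by
    have h1 : l.sum ≤ l.length * (4 * q) := by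
      have := List.sum_le_card_nsmul l (4 * q) (fun y hy => (hlP y hy).2.2)
      simpa using this
    have h2 : l.length * (4 * q) ≤ t * (4 * q) := Nat.mul_le_mul_right _ hl2
    nlinarith
  have hmod : M ∣ d - l.sum := by
    rw [← ZMod.natCast_eq_zero_iff, Nat.cast_sub hsum, hl3, sub_self]
  obtain ⟨c, hc⟩ := hmod
  refine ⟨List.replicate c M ++ l, ?_, ?_⟩
  · intro y hy
    rw [List.mem_append, List.mem_replicate] at hy
    rcases hy with ⟨_, rfl⟩ | hy
    · exact ⟨hM, by omega, hM3⟩
    · have := hlP y hy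
      exact ⟨this.1, this.2.1, by omega⟩
  · rw [List.sum_append, List.sum_replicate, smul_eq_mul, mul_comm]
    omega

end Pool.Agent.L5helper9.Rp2
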