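import Pool.Agent.L5helper9.Rp1

/-!
# Pairs of disjoint sets with the same products
-/

set_option autoImplicit false

namespace Pool.Agent.L5helper9.Rp3

open Finset

/-- Positive numbers up to `M ^ w` without prime factors above `M`. -/
def T (M w : ℕ) : Finset ℕ :=
  (range (M ^ w + 1)).filter (fun n => n ≠ 0 ∧ ∀ p ∈ n.primeFactors, p ≤ M)

lemma card_T (M w : ℕ) : (T M w).card ≤ (M * w + 1) ^ (M + 1) := by
  classical
  have hcard : (Finset.univ : Finset (Fin (M + 1) → Fin (M * w + 1))).card =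
      (M * w + 1) ^ (M + 1) := by
    simp
  rw [← hcard]
  apply Finset.card_le_card_of_injOn
    (fun n => fun i : Fin (M + 1) =>
      (⟨min (n.factorization i) (M * w), by omega⟩ : Fin (M * w + 1)))
  · intro n _
    exact Finset.mem_coe.mpr (Finset.mem_univ _)
  · have hval : ∀ n ∈ T M w, ∀ p, n.factorization p ≤ M * w := by
      intro n hn p
      unfold T at hn
      rw [Finset.mem_filter, Finset.mem_range] at hn
      obtain ⟨h1, h2, h3⟩ := hn
      by_cases hp : p.Prime
      · have h4 : p ^ n.factorization p ≤ n := Nat.ordProj_le p h2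
        have h5 : 2 ^ n.factorization p ≤ 2 ^ (M * w) := by
          calc 2 ^ n.factorization p ≤ p ^ n.factorization p :=
                Nat.pow_le_pow_left hp.two_le _
            _ ≤ n := h4
            _ ≤ M ^ w := by omega
            _ ≤ (2 ^ M) ^ w := Nat.pow_le_pow_left (Nat.lt_two_pow_self).le _
            _ = 2 ^ (M * w) := by rw [pow_mul]
        exact (Nat.pow_le_pow_iff_right (by norm_num)).mp h5
      · rw [Nat.factorization_eq_zero_of_not_prime n hp]
        omega
    intro a ha b hb hab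
    rw [Finset.mem_coe] at ha hb
    have hva := hval a ha
    have hvb := hval b hb
    unfold T at ha hb
    rw [Finset.mem_filter, Finset.mem_range] at ha hb
    apply Nat.eq_of_factorization_eq ha.2.1 hb.2.1
    intro p
    by_cases hp : p ≤ M
    · have h1 := congrFun hab ⟨p, by omega⟩
      simp only [Fin.mk.injEq] at h1
      rw [min_eq_left (hva p), min_eq_left (hvb p)] at h1
      exact h1
    · have h2 : ∀ n, n ≠ 0 → (∀ p ∈ n.primeFactors, p ≤ M) → n.factorization p = 0 := by
        intro n hn0 hn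
        by_cases hpp : p.Prime
        · apply Nat.factorization_eq_zero_of_not_dvd
          intro h3
          exact hp (hn p (Nat.mem_primeFactors.mpr ⟨hpp, h3, hn0⟩))
        · exact Nat.factorization_eq_zero_of_not_prime n hpp
      rw [h2 a ha.2.1 ha.2.2, h2 b hb.2.1 hb.2.2]

lemma prod_mem_T {α : Type*} {M w : ℕ} (hM : 1 ≤ M) (f : α → ℕ) (A : Finset α)
    (hf : ∀ a ∈ A, 1 ≤ f a ∧ f a ≤ M) (hA : A.card ≤ w) : ∏ a ∈ A, f a ∈ T M w := by
  unfold T
  rw [Finset.mem_filter, Finset.mem_range]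
  refine ⟨?_, ?_, ?_⟩
  · have h1 : ∏ a ∈ A, f a ≤ M ^ A.card := by
      apply Finset.prod_le_pow_card
      intro a ha
      exact (hf a ha).2
    have h2 : M ^ A.card ≤ M ^ w := Nat.pow_le_pow_right hM hA
    omega
  · apply Finset.prod_ne_zero_iff.mpr
    intro a ha
    have := (hf a ha).1
    omega
  · intro p hp'
    obtain ⟨hp, hd, _⟩ := Nat.mem_primeFactors.mp hp'
    obtain ⟨a, ha, hpa⟩ := (hp.prime.dvd_finsetProd_iff f).mp hd
    exact (Nat.le_of_dvd (hf a ha).1 hpa).trans (hf a ha).2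

/-- One pair. -/
theorem one_pair {α ι : Type*} [DecidableEq α] [Fintype ι] {M q p : ℕ}
    (hM : 1 ≤ M) (f : ι → α → ℕ) (G : Finset α)
    (hf : ∀ i, ∀ a ∈ G, 1 ≤ f i a ∧ f i a ≤ M)
    (hL : ((16 * M * q + 1) ^ (M + 1)) ^ Fintype.card ι ≤ 4 ^ q)
    (hp : p.Prime) (hqp : q < p) (hpq : p ≤ 8 * q)
    (J : Finset α) (hJG : J ⊆ G) (hJ : 144 * q ≤ J.card) :
    ∃ A B : Finset α, A ⊆ J ∧ B ⊆ J ∧ Disjoint A B ∧ A.card = p ∧ B.card = p ∧
      ∀ i, ∏ a ∈ A, f i a = ∏ a ∈ B, f i a := by
  classical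
  set V : Finset α → (ι → ℕ) := fun A i => ∏ a ∈ A, f i a with hV
  have hw : 2 * p - 1 ≤ 16 * q := by omega
  have h1 : ((powersetCard (2 * p - 1) J).image V).card ≤ 4 ^ q := by
    have h2 : (powersetCard (2 * p - 1) J).image V ⊆ Fintype.piFinset (fun _ : ι => T M (16 * q)) := by
      intro v hv
      rw [Finset.mem_image] at hv
      obtain ⟨A, hA, rfl⟩ := hv
      rw [Finset.mem_powersetCard] at hA
      rw [Fintype.mem_piFinset]
      intro i
      apply prod_mem_T hM
      · intro a ha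
        exact hf i a (hJG (hA.1 ha))
      · omega
    refine (Finset.card_le_card h2).trans ?_
    rw [Fintype.card_piFinset, Finset.prod_const, Finset.card_univ]
    refine le_trans ?_ hL
    apply Nat.pow_le_pow_left
    refine (card_T M (16 * q)).trans ?_
    apply Nat.pow_le_pow_left
    have : M * (16 * q) = 16 * M * q := by ring
    omega
  obtain ⟨A, B, hA, hB, hAc, hBc, hAB, hd⟩ := Rp1.exists_pair hp (I := J) (by omega) V (4 ^ q) h1 (by
    calc 4 ^ q * p < 4 ^ p * 2 ^ p := by
          apply Nat.mul_lt_mul_of_lt_of_le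
          · exact Nat.pow_lt_pow_right (by norm_num) hqp
          · exact Nat.lt_two_pow_self.le
          · positivity
      _ = 8 ^ p := by rw [← mul_pow]; norm_num)
  have hd2 : (B \ A).card = p := by
    have h3 : (A \ B).card + (A ∩ B).card = A.card := Finset.card_sdiff_add_card_inter A B
    have h4 : (B \ A).card + (B ∩ A).card = B.card := Finset.card_sdiff_add_card_inter B A
    rw [Finset.inter_comm] at h4
    omega
  refine ⟨A \ B, B \ A, Finset.sdiff_subset.trans hA, Finset.sdiff_subset.trans hB, ?_, hd, hd2, ?_⟩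
  · rw [Finset.disjoint_left]
    intro x hx hx2
    rw [Finset.mem_sdiff] at hx hx2
    exact hx.2 hx2.1
  · intro i
    have h5 := congrFun hAB i
    simp only [hV] at h5
    have h6 : (∏ a ∈ A \ B, f i a) * (∏ a ∈ A ∩ B, f i a) = ∏ a ∈ A, f i a := by
      rw [mul_comm, Finset.prod_inter_mul_prod_sdiff]
    have h7 : (∏ a ∈ B \ A, f i a) * (∏ a ∈ B ∩ A, f i a) = ∏ a ∈ B, f i a := by
      rw [mul_comm, Finset.prod_inter_mul_prod_sdiff]
    rw [Finset.inter_comm B A] at h7
    have h8 : 0 < ∏ a ∈ A ∩ B, f i a := by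
      apply Finset.prod_pos
      intro a ha
      rw [Finset.mem_inter] at ha
      have := (hf i a (hJG (hA ha.1))).1
      omega
    apply Nat.eq_of_mul_eq_mul_right h8
    rw [h6, h7, h5]

/-- **Pairs of any size which is a sum of primes.** -/
theorem many_pairs {α ι : Type*} [DecidableEq α] [Fintype ι] {M q : ℕ}
    (hM : 1 ≤ M) (f : ι → α → ℕ) (G : Finset α)
    (hf : ∀ i, ∀ a ∈ G, 1 ≤ f i a ∧ f i a ≤ M)
    (hL : ((16 * M * q + 1) ^ (M + 1)) ^ Fintype.card ι ≤ 4 ^ q)
    (l : List ℕ) (hl : ∀ y ∈ l, y.Prime ∧ q < y ∧ y ≤ 8 * q) :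
    ∀ J ⊆ G, 144 * q + 2 * l.sum ≤ J.card →
    ∃ A B : Finset α, A ⊆ J ∧ B ⊆ J ∧ Disjoint A B ∧ A.card = l.sum ∧ B.card = l.sum ∧
      ∀ i, ∏ a ∈ A, f i a = ∏ a ∈ B, f i a := by
  induction l with
  | nil =>
    intro J _ _
    exact ⟨∅, ∅, by simp, by simp, by simp, by simp, by simp, by simp⟩
  | cons p l ih =>
    intro J hJ hJc
    rw [List.sum_cons] at hJc
    have hp := hl p (by simp)
    obtain ⟨A1, B1, hA1, hB1, hd1, hAc1, hBc1, hV1⟩ :=
      one_pair hM f G hf hL hp.1 hp.2.1 hp.2.2 J hJ (by omega)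
    set J' := J \ (A1 ∪ B1) with hJ'
    have hJ'c : J.card ≤ J'.card + 2 * p := by
      have h1 : J.card ≤ J'.card + (A1 ∪ B1).card := by
        have := Finset.card_le_card (show J ⊆ J' ∪ (A1 ∪ B1) by
          intro x hx
          rw [hJ', Finset.mem_union, Finset.mem_sdiff]
          by_cases h : x ∈ A1 ∪ B1
          · exact Or.inr h
          · exact Or.inl ⟨hx, h⟩)
        exact this.trans (Finset.card_union_le _ _)
      have h2 := Finset.card_union_le A1 B1
      omega
    obtain ⟨A2, B2, hA2, hB2, hd2, hAc2, hBc2, hV2⟩ :=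
      ih (fun y hy => hl y (List.mem_cons_of_mem _ hy)) J' (Finset.sdiff_subset.trans hJ) (by omega)
    have hdis : ∀ X ⊆ J', Disjoint A1 X ∧ Disjoint B1 X := by
      intro X hX
      constructor
      · rw [Finset.disjoint_left]
        intro x hx hx2
        have := hX hx2
        rw [hJ', Finset.mem_sdiff, Finset.mem_union] at this
        exact this.2 (Or.inl hx)
      · rw [Finset.disjoint_left]
        intro x hx hx2
        have := hX hx2
        rw [hJ', Finset.mem_sdiff, Finset.mem_union] at this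
        exact this.2 (Or.inr hx)
    have hJJ : J' ⊆ J := Finset.sdiff_subset
    refine ⟨A1 ∪ A2, B1 ∪ B2, Finset.union_subset hA1 (hA2.trans hJJ),
      Finset.union_subset hB1 (hB2.trans hJJ), ?_, ?_, ?_, ?_⟩
    · rw [Finset.disjoint_union_left, Finset.disjoint_union_right, Finset.disjoint_union_right]
      exact ⟨⟨hd1, (hdis B2 hB2).1⟩, ⟨(hdis A2 hA2).2.symm, hd2⟩⟩
    · rw [Finset.card_union_of_disjoint (hdis A2 hA2).1, hAc1, hAc2, List.sum_cons]
    · rw [Finset.card_union_of_disjoint (hdis B2 hB2).2, hBc1, hBc2, List.sum_cons]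
    · intro i
      rw [Finset.prod_union (hdis A2 hA2).1, Finset.prod_union (hdis B2 hB2).2, hV1 i, hV2 i]

end Pool.Agent.L5helper9.Rp3
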