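import Mathlib

/-!
# The rational functions of the construction
-/

set_option autoImplicit false

namespace Pool.Agent.L5helper9.Rp4

open Finset Polynomial

/-- The homogeneous map `(u, v) ↦ (P(u, v), Q(u, v))` of the polynomials `p`, `q` of degree at most
`d`, over a field `K` of characteristic zero. -/
noncomputable def lift (K : Type) [Field K] [Algebra ℚ K] (p q : ℚ[X]) (d : ℕ) (v : K × K) : K × K :=
  (∑ i ∈ Finset.range (d + 1), algebraMap ℚ K (p.coeff i) * v.1 ^ i * v.2 ^ (d - i),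
   ∑ i ∈ Finset.range (d + 1), algebraMap ℚ K (q.coeff i) * v.1 ^ i * v.2 ^ (d - i))

/-- `(x : 1)` is preperiodic. -/
def IsPre (K : Type) [Field K] [Algebra ℚ K] (p q : ℚ[X]) (d : ℕ) (x : K) : Prop :=
  ∃ i j : ℕ, j < i ∧
    ((lift K p q d)^[i] (x, 1)).1 * ((lift K p q d)^[j] (x, 1)).2 =
    ((lift K p q d)^[i] (x, 1)).2 * ((lift K p q d)^[j] (x, 1)).1

lemma lift_algebraMap (K : Type) [Field K] [Algebra ℚ K] (p q : ℚ[X]) (d : ℕ) (v : ℚ × ℚ) :
    lift K p q d (algebraMap ℚ K v.1, algebraMap ℚ K v.2) =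
      (algebraMap ℚ K (lift ℚ p q d v).1, algebraMap ℚ K (lift ℚ p q d v).2) := by
  unfold lift
  simp [map_sum, map_mul, map_pow]

lemma isPre_algebraMap (K : Type) [Field K] [Algebra ℚ K] (p q : ℚ[X]) (d : ℕ) (x : ℚ)
    (h : IsPre ℚ p q d x) : IsPre K p q d (algebraMap ℚ K x) := by
  obtain ⟨i, j, hij, h1⟩ := h
  refine ⟨i, j, hij, ?_⟩
  have h2 : ∀ n, (lift K p q d)^[n] (algebraMap ℚ K x, 1) =
      (algebraMap ℚ K ((lift ℚ p q d)^[n] (x, 1)).1, algebraMap ℚ K ((lift ℚ p q d)^[n] (x, 1)).2) := by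
    intro n
    induction n with
    | zero => simp
    | succ n ih =>
      rw [Function.iterate_succ_apply', ih, lift_algebraMap, Function.iterate_succ_apply']
  rw [h2, h2]
  simp only
  rw [← map_mul, ← map_mul, h1]

/-- The polynomial of a set of pairs. -/
noncomputable def PA (A : Finset (ℕ × ℕ)) : ℚ[X] := ∏ x ∈ A, (C (x.1 : ℚ) - C (x.2 : ℚ) * X)

lemma PA_eval (A : Finset (ℕ × ℕ)) (t : ℚ) : (PA A).eval t = ∏ x ∈ A, ((x.1 : ℚ) - x.2 * t) := by
  unfold PA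
  rw [eval_prod]
  simp

lemma fac_natDegree (x : ℕ × ℕ) (h : x.2 ≠ 0) :
    (C (x.1 : ℚ) - C (x.2 : ℚ) * X).natDegree = 1 := by
  have h1 : (C (x.1 : ℚ) - C (x.2 : ℚ) * X) = C (-(x.2 : ℚ)) * X + C (x.1 : ℚ) := by
    simp
    ring
  rw [h1]
  exact natDegree_linear (by simpa using h)

lemma fac_leadingCoeff (x : ℕ × ℕ) (h : x.2 ≠ 0) :
    (C (x.1 : ℚ) - C (x.2 : ℚ) * X).leadingCoeff = -(x.2 : ℚ) := by
  have h1 : (C (x.1 : ℚ) - C (x.2 : ℚ) * X) = C (-(x.2 : ℚ)) * X + C (x.1 : ℚ) := by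
    simp
    ring
  rw [h1]
  exact leadingCoeff_linear (by simpa using h)

lemma fac_ne_zero (x : ℕ × ℕ) (h : x.2 ≠ 0) : (C (x.1 : ℚ) - C (x.2 : ℚ) * X) ≠ 0 := by
  intro h1
  have := fac_natDegree x h
  rw [h1] at this
  simp at this

lemma PA_natDegree (A : Finset (ℕ × ℕ)) (h : ∀ x ∈ A, x.2 ≠ 0) : (PA A).natDegree = A.card := by
  unfold PA
  rw [natDegree_prod _ _ (fun x hx => fac_ne_zero x (h x hx))]
  rw [Finset.sum_congr rfl (fun x hx => fac_natDegree x (h x hx))]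
  simp

lemma PA_leadingCoeff (A : Finset (ℕ × ℕ)) (h : ∀ x ∈ A, x.2 ≠ 0) :
    (PA A).coeff A.card = (-1) ^ A.card * ∏ x ∈ A, (x.2 : ℚ) := by
  have h1 : (PA A).coeff A.card = (PA A).leadingCoeff := by
    rw [leadingCoeff, PA_natDegree A h]
  rw [h1]
  unfold PA
  rw [leadingCoeff_prod, Finset.prod_congr rfl (fun x hx => fac_leadingCoeff x (h x hx))]
  rw [Finset.prod_neg]

lemma fac_coprime (x y : ℕ × ℕ) (h : x.1 * y.2 ≠ y.1 * x.2) :
    IsCoprime (C (x.1 : ℚ) - C (x.2 : ℚ) * X) (C (y.1 : ℚ) - C (y.2 : ℚ) * X) := by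
  set c : ℚ := (x.1 : ℚ) * y.2 - y.1 * x.2 with hc
  have hc0 : c ≠ 0 := by
    rw [hc, sub_ne_zero]
    exact_mod_cast h
  refine ⟨C (y.2 / c), -C (x.2 / c), ?_⟩
  have h1 : C ((y.2 : ℚ) / c) * (C (x.1 : ℚ) - C (x.2 : ℚ) * X) +
      -C ((x.2 : ℚ) / c) * (C (y.1 : ℚ) - C (y.2 : ℚ) * X) =
      C ((y.2 : ℚ) / c * x.1 - x.2 / c * y.1) +
        C ((x.2 : ℚ) / c * y.2 - y.2 / c * x.2) * X := by
    simp only [map_sub, map_mul]
    ring
  rw [h1]
  have h2 : (y.2 : ℚ) / c * x.1 - x.2 / c * y.1 = 1 := by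
    rw [show (y.2 : ℚ) / c * x.1 - x.2 / c * y.1 = c / c by rw [hc]; ring]
    exact div_self hc0
  have h3 : (x.2 : ℚ) / c * y.2 - y.2 / c * x.2 = 0 := by ring
  rw [h2, h3]
  simp

lemma PA_coprime (A B : Finset (ℕ × ℕ)) (h : ∀ x ∈ A, ∀ y ∈ B, x.1 * y.2 ≠ y.1 * x.2) :
    IsCoprime (PA A) (PA B) := by
  unfold PA
  apply IsCoprime.prod_left
  intro x hx
  apply IsCoprime.prod_right
  intro y hy
  exact fac_coprime x y (h x hx y hy)

/-- The values of the homogeneous map. -/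
lemma sum_at_one (p : ℚ[X]) {d : ℕ} (hp : p.natDegree ≤ d) (x : ℚ) :
    ∑ i ∈ Finset.range (d + 1), algebraMap ℚ ℚ (p.coeff i) * x ^ i * (1 : ℚ) ^ (d - i) = p.eval x := by
  rw [eval_eq_sum_range' (Nat.lt_succ_of_le hp)]
  apply Finset.sum_congr rfl
  intro i _
  simp

lemma sum_at_zero (p : ℚ[X]) {d : ℕ} (c : ℚ) :
    ∑ i ∈ Finset.range (d + 1), algebraMap ℚ ℚ (p.coeff i) * (0 : ℚ) ^ i * c ^ (d - i) =
      p.eval 0 * c ^ d := by
  rw [Finset.sum_eq_single 0]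
  · simp [coeff_zero_eq_eval_zero]
  · intro i _ hi
    simp [hi]
  · intro h
    simp at h

lemma sum_at_infty (p : ℚ[X]) {d : ℕ} (c : ℚ) :
    ∑ i ∈ Finset.range (d + 1), algebraMap ℚ ℚ (p.coeff i) * c ^ i * (0 : ℚ) ^ (d - i) =
      p.coeff d * c ^ d := by
  rw [Finset.sum_eq_single d]
  · simp
  · intro i hi hid
    rw [Finset.mem_range] at hi
    have : d - i ≠ 0 := by omega
    simp [this]
  · intro h
    simp at h

lemma sum_at_diag (p : ℚ[X]) {d : ℕ} (hp : p.natDegree ≤ d) (c : ℚ) :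
    ∑ i ∈ Finset.range (d + 1), algebraMap ℚ ℚ (p.coeff i) * c ^ i * c ^ (d - i) =
      p.eval 1 * c ^ d := by
  rw [eval_eq_sum_range' (Nat.lt_succ_of_le hp), Finset.sum_mul]
  apply Finset.sum_congr rfl
  intro i hi
  rw [Finset.mem_range] at hi
  rw [mul_assoc, ← pow_add, show i + (d - i) = d by omega]
  simp

/-- **The preperiodic points.** -/
theorem isPre_of {p q : ℚ[X]} {d : ℕ} (hp : p.natDegree ≤ d) (hq : q.natDegree ≤ d)
    (h0 : p.eval 0 = q.eval 0) (h1 : p.eval 1 = q.eval 1) (hinf : p.coeff d = q.coeff d)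
    {x : ℚ} (hx : p.eval x = 0 ∨ q.eval x = 0 ∨ p.eval x = q.eval x) : IsPre ℚ p q d x := by
  have hdiag : ∀ v : ℚ × ℚ, v.1 = v.2 → (lift ℚ p q d v).1 = (lift ℚ p q d v).2 := by
    rintro ⟨a, b⟩ hab
    simp only at hab
    subst hab
    unfold lift
    simp only
    rw [sum_at_diag p hp, sum_at_diag q hq, h1]
  have h2 : ((lift ℚ p q d)^[2] (x, 1)).1 = ((lift ℚ p q d)^[2] (x, 1)).2 := by
    rw [Function.iterate_succ_apply', Function.iterate_one]
    have h3 : lift ℚ p q d (x, 1) = (p.eval x, q.eval x) := by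
      unfold lift
      simp only
      rw [sum_at_one p hp, sum_at_one q hq]
    rw [h3]
    rcases hx with hx | hx | hx
    · rw [hx]
      unfold lift
      simp only
      rw [sum_at_zero, sum_at_zero, h0]
    · rw [hx]
      unfold lift
      simp only
      rw [sum_at_infty, sum_at_infty, hinf]
    · exact hdiag _ hx
  have h3 : ((lift ℚ p q d)^[3] (x, 1)).1 = ((lift ℚ p q d)^[3] (x, 1)).2 := by
    rw [Function.iterate_succ_apply']
    exact hdiag _ h2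
  refine ⟨3, 2, by norm_num, ?_⟩
  rw [h3, h2]

end Pool.Agent.L5helper9.Rp4
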