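import Pool.Agent.L5helper9.Rp2
import Pool.Agent.L5helper9.Rp3
import Pool.Agent.L5helper9.Rp4

/-!
# The ground set and the construction
-/

set_option autoImplicit false

namespace Pool.Agent.L5helper9.Rp5

open Finset Polynomial
open Pool.Agent.L5helper9.Rp2 Pool.Agent.L5helper9.Rp3 Pool.Agent.L5helper9.Rp4

/-- The fractions `b / k`, `k ≤ Y` a prime, `m Y < b ≤ 2 m Y` not divisible by `k`. -/
def G (m Y : ℕ) : Finset (ℕ × ℕ) :=
  ((Ioc (m * Y) (2 * (m * Y))) ×ˢ ((range (Y + 1)).filter Nat.Prime)).filter (fun x => ¬ x.2 ∣ x.1)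

lemma mem_G {m Y : ℕ} {x : ℕ × ℕ} : x ∈ G m Y ↔
    (m * Y < x.1 ∧ x.1 ≤ 2 * (m * Y)) ∧ (x.2 ≤ Y ∧ x.2.Prime) ∧ ¬ x.2 ∣ x.1 := by
  unfold G
  rw [Finset.mem_filter, Finset.mem_product, Finset.mem_Ioc, Finset.mem_filter, Finset.mem_range,
    and_assoc, Nat.lt_succ_iff]

lemma card_count {a k : ℕ} (hk : 2 ≤ k) :
    a ≤ ((Ioc a (2 * a)).filter (fun b => ¬ k ∣ b)).card + (a / 2 + 1) := by
  have h1 : ((Ioc a (2 * a)).filter (fun b => k ∣ b)).card +
      ((Ioc a (2 * a)).filter (fun b => ¬ k ∣ b)).card = a := by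
    rw [Finset.card_filter_add_card_filter_not, Nat.card_Ioc]
    omega
  have h2 : ((Ioc a (2 * a)).filter (fun b => k ∣ b)).card + a / k = 2 * a / k := by
    rw [← Nat.Ioc_filter_dvd_card_eq_div a k, ← Nat.Ioc_filter_dvd_card_eq_div (2 * a) k]
    have h3 : (Ioc 0 (2 * a)).filter (fun b => k ∣ b) =
        (Ioc a (2 * a)).filter (fun b => k ∣ b) ∪ (Ioc 0 a).filter (fun b => k ∣ b) := by
      rw [← Finset.filter_union]
      congr 1
      ext x
      simp only [Finset.mem_Ioc, Finset.mem_union]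
      omega
    rw [h3, Finset.card_union_of_disjoint]
    rw [Finset.disjoint_left]
    intro x hx hx2
    rw [Finset.mem_filter, Finset.mem_Ioc] at hx hx2
    omega
  have h3 : 2 * a / k ≤ 2 * (a / k) + 1 := by
    have h4 := Nat.div_add_mod a k
    have h5 := Nat.mod_lt a (show k > 0 by omega)
    have h6 : 2 * a < k * (2 * (a / k) + 2) := by nlinarith
    have h7 : 2 * a / k < 2 * (a / k) + 2 := Nat.div_lt_of_lt_mul h6
    omega
  have h4 : a / k ≤ a / 2 := Nat.div_le_div_left hk (by norm_num)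
  omega

lemma card_G (m Y : ℕ) :
    ((range (Y + 1)).filter Nat.Prime).card * (m * Y - (m * Y / 2 + 1)) ≤ (G m Y).card := by
  have h1 : (G m Y).card = ∑ k ∈ (range (Y + 1)).filter Nat.Prime,
      ((Ioc (m * Y) (2 * (m * Y))).filter (fun b => ¬ k ∣ b)).card := by
    rw [Finset.card_eq_sum_card_fiberwise (f := fun x : ℕ × ℕ => x.2)
      (t := (range (Y + 1)).filter Nat.Prime)]
    · apply Finset.sum_congr rfl
      intro k hk
      rw [Finset.mem_filter, Finset.mem_range] at hk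
      apply Finset.card_bij (fun x _ => x.1)
      · intro x hx
        rw [Finset.mem_filter, mem_G] at hx
        obtain ⟨⟨h1, h2, h3⟩, h4⟩ := hx
        rw [Finset.mem_filter, Finset.mem_Ioc]
        rw [h4] at h3
        exact ⟨h1, h3⟩
      · intro x hx y hy hxy
        rw [Finset.mem_filter] at hx hy
        exact Prod.ext hxy (hx.2.trans hy.2.symm)
      · intro b hb
        rw [Finset.mem_filter, Finset.mem_Ioc] at hb
        refine ⟨(b, k), ?_, rfl⟩
        rw [Finset.mem_filter, mem_G]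
        exact ⟨⟨hb.1, ⟨by omega, hk.2⟩, hb.2⟩, rfl⟩
    · intro x hx
      rw [Finset.mem_coe, mem_G] at hx
      rw [Finset.mem_coe, Finset.mem_filter, Finset.mem_range]
      exact ⟨Nat.lt_succ_of_le hx.2.1.1, hx.2.1.2⟩
  rw [h1, ← smul_eq_mul]
  apply Finset.card_nsmul_le_sum
  intro k hk
  rw [Finset.mem_filter, Finset.mem_range] at hk
  have := card_count (a := m * Y) hk.2.two_le
  omega

lemma G_inj {m Y : ℕ} {x y : ℕ × ℕ} (hx : x ∈ G m Y) (hy : y ∈ G m Y)
    (h : x.1 * y.2 = y.1 * x.2) : x = y := by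
  rw [mem_G] at hx hy
  obtain ⟨_, ⟨_, hx2⟩, hx3⟩ := hx
  obtain ⟨_, ⟨_, hy2⟩, hy3⟩ := hy
  have h1 : x.2 ∣ x.1 * y.2 := by
    rw [h]
    exact Dvd.intro_left _ rfl
  have h2 : x.2 ∣ y.2 := (hx2.dvd_mul.mp h1).resolve_left hx3
  have h3 : x.2 = y.2 := (Nat.prime_dvd_prime_iff_eq hx2 hy2).mp h2
  have h4 : x.1 = y.1 := by
    rw [← h3] at h
    exact Nat.eq_of_mul_eq_mul_right hx2.pos h
  exact Prod.ext h4 h3

/-- The linear forms. -/
def fm (m : ℕ) : Option (Fin m) → ℕ × ℕ → ℕ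
  | none, x => x.2
  | some s, x => x.1 - x.2 * s

/-- **The construction.** -/
theorem construct {m Y q t d : ℕ} (hm : 2 ≤ m) (hq : 10 ^ 7 ≤ q)
    (ht : 8 * Real.log (4 * q) ≤ t) (hd : 8 * q * (t + 1) ≤ d)
    (hL : ((16 * (2 * (m * Y)) * q + 1) ^ (2 * (m * Y) + 1)) ^ (m + 1) ≤ 4 ^ q)
    (hG : 144 * q + 2 * d ≤
      ((range (Y + 1)).filter Nat.Prime).card * (m * Y - (m * Y / 2 + 1))) :
    ∃ P Q : ℚ[X], IsCoprime P Q ∧ max P.natDegree Q.natDegree = d ∧
      ∃ s : Finset ℚ, s.card = 2 * d + m ∧ ∀ x ∈ s, IsPre ℚ P Q d x := by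
  classical
  obtain ⟨l, hl1, hl2⟩ := exists_list hq ht hd
  have hYpos : 0 < m * Y := by
    by_contra h
    have : m * Y = 0 := by omega
    rw [this] at hG
    simp at hG
    omega
  have hM : 1 ≤ 2 * (m * Y) := by omega
  have hpos : ∀ x ∈ G m Y, ∀ s < m, x.2 * s < x.1 := by
    intro x hx s hs
    rw [mem_G] at hx
    calc x.2 * s ≤ Y * m := Nat.mul_le_mul hx.2.1.1 hs.le
      _ = m * Y := Nat.mul_comm _ _
      _ < x.1 := hx.1.1
  have hf : ∀ i : Option (Fin m), ∀ a ∈ G m Y, 1 ≤ fm m i a ∧ fm m i a ≤ 2 * (m * Y) := by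
    intro i a ha
    have ha' := ha
    rw [mem_G] at ha
    have hYm : Y ≤ m * Y := by nlinarith
    rcases i with _ | s
    · refine ⟨?_, ?_⟩
      · exact ha.2.1.2.pos
      · show a.2 ≤ 2 * (m * Y)
        omega
    · have := hpos a ha' s s.2
      refine ⟨?_, ?_⟩
      · show 1 ≤ a.1 - a.2 * s
        omega
      · show a.1 - a.2 * s ≤ 2 * (m * Y)
        omega
  obtain ⟨A, B, hA, hB, hAB, hAc, hBc, hV⟩ := many_pairs hM (fm m) (G m Y) hf
    (by simpa using hL) l hl1 (G m Y) (Finset.Subset.refl _) (by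
      rw [hl2]
      exact hG.trans (card_G m Y))
  rw [hl2] at hAc hBc
  have hAk : ∀ x ∈ A, x.2 ≠ 0 := fun x hx => ((mem_G.mp (hA hx)).2.1.2).ne_zero
  have hBk : ∀ x ∈ B, x.2 ≠ 0 := fun x hx => ((mem_G.mp (hB hx)).2.1.2).ne_zero
  have hcop : ∀ x ∈ A, ∀ y ∈ B, x.1 * y.2 ≠ y.1 * x.2 := by
    intro x hx y hy h
    have := G_inj (hA hx) (hB hy) h
    rw [this] at hx
    exact (Finset.disjoint_left.mp hAB hx) hy
  have hdA : (PA A).natDegree = d := (PA_natDegree A hAk).trans hAc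
  have hdB : (PA B).natDegree = d := (PA_natDegree B hBk).trans hBc
  have heval : ∀ s < m, (PA A).eval (s : ℚ) = (PA B).eval (s : ℚ) := by
    intro s hs
    have h1 := hV (some ⟨s, hs⟩)
    simp only [fm] at h1
    have h2 : ∀ C ⊆ G m Y, ((∏ a ∈ C, (a.1 - a.2 * s) : ℕ) : ℚ) = (PA C).eval (s : ℚ) := by
      intro C hC
      rw [PA_eval, Nat.cast_prod]
      apply Finset.prod_congr rfl
      intro a ha
      rw [Nat.cast_sub (hpos a (hC ha) s hs).le]
      push_cast
      ring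
    rw [← h2 A hA, ← h2 B hB, h1]
  have hinf : (PA A).coeff d = (PA B).coeff d := by
    have h1 := PA_leadingCoeff A hAk
    have h2 := PA_leadingCoeff B hBk
    rw [hAc] at h1
    rw [hBc] at h2
    rw [h1, h2]
    have h3 := hV none
    simp only [fm] at h3
    have h4 : (∏ a ∈ A, (a.2 : ℚ)) = ∏ a ∈ B, (a.2 : ℚ) := by
      rw [← Nat.cast_prod, ← Nat.cast_prod, h3]
    rw [h4]
  refine ⟨PA A, PA B, PA_coprime A B hcop, by rw [hdA, hdB, max_self], ?_⟩
  -- the points
  set g : ℕ × ℕ → ℚ := fun x => (x.1 : ℚ) / x.2 with hg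
  set s1 : Finset ℚ := (A ∪ B).image g with hs1
  set s2 : Finset ℚ := (range m).image (fun n : ℕ => (n : ℚ)) with hs2
  have hABG : A ∪ B ⊆ G m Y := Finset.union_subset hA hB
  have hginj : Set.InjOn g (A ∪ B : Finset (ℕ × ℕ)) := by
    intro x hx y hy hxy
    have hx' := hABG hx
    have hy' := hABG hy
    apply G_inj hx' hy'
    have hx2 : (x.2 : ℚ) ≠ 0 := by exact_mod_cast ((mem_G.mp hx').2.1.2).ne_zero
    have hy2 : (y.2 : ℚ) ≠ 0 := by exact_mod_cast ((mem_G.mp hy').2.1.2).ne_zero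
    simp only [hg] at hxy
    rw [div_eq_div_iff hx2 hy2] at hxy
    exact_mod_cast hxy
  have hs1c : s1.card = 2 * d := by
    rw [hs1, Finset.card_image_of_injOn hginj, Finset.card_union_of_disjoint hAB, hAc, hBc]
    ring
  have hs2c : s2.card = m := by
    rw [hs2, Finset.card_image_of_injective _ Nat.cast_injective, Finset.card_range]
  have hdis : Disjoint s1 s2 := by
    rw [Finset.disjoint_left]
    intro x hx hx2
    rw [hs1, Finset.mem_image] at hx
    rw [hs2, Finset.mem_image] at hx2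
    obtain ⟨a, ha, rfl⟩ := hx
    obtain ⟨n, hn, hn2⟩ := hx2
    rw [Finset.mem_range] at hn
    have ha' := hABG ha
    have h1 := hpos a ha' n hn
    have ha2 : (0 : ℚ) < a.2 := by exact_mod_cast ((mem_G.mp ha').2.1.2).pos
    simp only [hg] at hn2
    rw [eq_div_iff ha2.ne'] at hn2
    have h2 : n * a.2 = a.1 := by exact_mod_cast hn2
    rw [mul_comm] at h2
    omega
  refine ⟨s1 ∪ s2, ?_, ?_⟩
  · rw [Finset.card_union_of_disjoint hdis, hs1c, hs2c]
  · intro x hx
    apply isPre_of hdA.le hdB.le (by simpa using heval 0 (by omega)) (by simpa using heval 1 (by omega))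
      hinf
    rw [Finset.mem_union] at hx
    rcases hx with hx | hx
    · rw [hs1, Finset.mem_image] at hx
      obtain ⟨a, ha, rfl⟩ := hx
      have ha' := hABG ha
      have ha2 : (a.2 : ℚ) ≠ 0 := by exact_mod_cast ((mem_G.mp ha').2.1.2).ne_zero
      rw [Finset.mem_union] at ha
      rcases ha with ha | ha
      · left
        rw [PA_eval]
        apply Finset.prod_eq_zero ha
        simp only [hg]
        field_simp
        ring
      · right; left
        rw [PA_eval]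
        apply Finset.prod_eq_zero ha
        simp only [hg]
        field_simp
        ring
    · rw [hs2, Finset.mem_image] at hx
      obtain ⟨n, hn, rfl⟩ := hx
      rw [Finset.mem_range] at hn
      right; right
      exact heval n hn

end Pool.Agent.L5helper9.Rp5
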