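import Pool.Agent.L5helper9.Rp5

/-!
# The choice of the parameters
-/

set_option autoImplicit false

namespace Pool.Agent.L5helper9.Rp6

open Finset Polynomial Filter
open Pool.Agent.L5helper9.Rp4 Pool.Agent.L5helper9.Rp5

/-- All conditions in terms of real variables. -/
lemma core {D u v z x ld : ℝ} {d m Y q t : ℕ} (hDd : D = d) (hld : ld = Real.log D)
    (hx : 200 ≤ x) (hu : 4 ≤ u) (hv : 100 ≤ v) (hz : 10 ^ 7 + 1 ≤ z)
    (hD : 1000 ≤ D) (hldx : ld ≤ x) (huvD : u * v ≤ D) (hzD : z ≤ D)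
    (huvz : u ^ 2 * v * x ^ 4 = z) (hzx : z * x ^ 4 = D) (huvv : u * v ^ 2 = D * x ^ 8)
    (hvD : v + 1 ≤ D)
    (hm1 : (m : ℝ) ≤ u + 3) (hm2 : u + 2 ≤ m) (hY1 : (Y : ℝ) ≤ v + 1) (hY2 : v ≤ Y)
    (hq1 : (q : ℝ) ≤ z) (hq2 : z - 1 ≤ q) (ht : t = ⌈8 * Real.log (4 * q)⌉₊) :
    10 ^ 7 ≤ q ∧ 8 * q * (t + 1) ≤ d ∧
    ((16 * (2 * (m * Y)) * q + 1) ^ (2 * (m * Y) + 1)) ^ (m + 1) ≤ 4 ^ q ∧
    144 * q + 2 * d ≤
      ((range (Y + 1)).filter Nat.Prime).card * (m * Y - (m * Y / 2 + 1)) := by
  have hq7 : 10 ^ 7 ≤ q := by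
    have : (10 ^ 7 : ℝ) ≤ q := by linarith
    exact_mod_cast this
  have hqR : (10 ^ 7 : ℝ) ≤ q := by exact_mod_cast hq7
  have hq0 : (0 : ℝ) < q := by linarith
  have hx0 : 0 < x := by linarith
  have hu0 : 0 < u := by linarith
  have hv0 : 0 < v := by linarith
  have hz0 : 0 < z := by linarith
  have hD0 : 0 < D := by linarith
  have hlog4 : Real.log 4 ≤ 1.4 := by
    rw [show (4 : ℝ) = 2 ^ (2 : ℕ) by norm_num, Real.log_pow]
    have := Real.log_two_lt_d9
    push_cast
    linarith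
  have hlog4' : 1.38 ≤ Real.log 4 := by
    rw [show (4 : ℝ) = 2 ^ (2 : ℕ) by norm_num, Real.log_pow]
    have := Real.log_two_gt_d9
    push_cast
    linarith
  have hlogq : Real.log (4 * q) ≤ 1.4 + x := by
    rw [Real.log_mul (by norm_num) (by positivity)]
    have h1 : Real.log q ≤ Real.log D := Real.log_le_log hq0 (by linarith)
    linarith
  have hlogq0 : 0 ≤ Real.log (4 * q) := Real.log_nonneg (by linarith)
  refine ⟨hq7, ?_, ?_, ?_⟩
  · -- (B)
    have h1 : (t : ℝ) ≤ 8 * Real.log (4 * q) + 1 := by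
      rw [ht]
      exact (Nat.ceil_lt_add_one (by positivity)).le
    have h2 : (t : ℝ) + 1 ≤ 9 * x := by linarith
    have h3 : (8 * q * (t + 1) : ℝ) ≤ D := by
      calc (8 * q * (t + 1) : ℝ) ≤ 8 * z * (9 * x) := by gcongr
        _ = 72 * (z * x) := by ring
        _ ≤ x ^ 3 * (z * x) := by
            apply mul_le_mul_of_nonneg_right _ (by positivity)
            have : (200 : ℝ) ^ 3 ≤ x ^ 3 := by gcongr
            linarith
        _ = z * x ^ 4 := by ring
        _ = D := hzx
    rw [hDd] at h3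
    exact_mod_cast h3
  · -- (A)
    have hN0 : (0 : ℝ) < ((16 * (2 * (m * Y)) * q + 1 : ℕ) : ℝ) := by positivity
    have hm0 : (m : ℝ) ≤ 2 * u := by linarith
    have hY0 : (Y : ℝ) ≤ 2 * v := by linarith
    have hmY : ((m * Y : ℕ) : ℝ) ≤ 4 * (u * v) := by
      push_cast
      calc (m : ℝ) * Y ≤ (2 * u) * (2 * v) := by gcongr
        _ = 4 * (u * v) := by ring
    have huv1 : 400 ≤ u * v := by nlinarith
    have hlogN : Real.log ((16 * (2 * (m * Y)) * q + 1 : ℕ) : ℝ) ≤ 3 * x := by
      have h1 : ((16 * (2 * (m * Y)) * q + 1 : ℕ) : ℝ) ≤ D ^ 3 := by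
        push_cast at hmY ⊢
        calc 16 * (2 * ((m : ℝ) * Y)) * q + 1 ≤ 16 * (2 * (4 * (u * v))) * z + 1 := by gcongr
          _ ≤ 16 * (2 * (4 * D)) * D + 1 := by gcongr
          _ = 128 * D ^ 2 + 1 := by ring
          _ ≤ 1000 * D ^ 2 := by nlinarith
          _ ≤ D * D ^ 2 := by gcongr
          _ = D ^ 3 := by ring
      calc Real.log ((16 * (2 * (m * Y)) * q + 1 : ℕ) : ℝ) ≤ Real.log (D ^ 3) :=
            Real.log_le_log hN0 h1
        _ = 3 * Real.log D := by
            rw [Real.log_pow]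
            norm_num
        _ ≤ 3 * x := by linarith
    have hexp : (((2 * (m * Y) + 1) * (m + 1) : ℕ) : ℝ) * (3 * x) ≤ q * Real.log 4 := by
      have h2 : ((2 * (m * Y) + 1 : ℕ) : ℝ) ≤ 9 * (u * v) := by
        push_cast at hmY ⊢
        linarith
      have h3 : ((m + 1 : ℕ) : ℝ) ≤ 2 * u := by
        push_cast
        linarith
      calc (((2 * (m * Y) + 1) * (m + 1) : ℕ) : ℝ) * (3 * x)
          = ((2 * (m * Y) + 1 : ℕ) : ℝ) * ((m + 1 : ℕ) : ℝ) * (3 * x) := by
            rw [Nat.cast_mul]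
        _ ≤ (9 * (u * v)) * (2 * u) * (3 * x) := by gcongr
        _ = 54 * (u ^ 2 * v * x) := by ring
        _ ≤ x ^ 3 * (u ^ 2 * v * x) := by
            apply mul_le_mul_of_nonneg_right _ (by positivity)
            have : (200 : ℝ) ^ 3 ≤ x ^ 3 := by gcongr
            linarith
        _ = z := by rw [← huvz]; ring
        _ ≤ (z - 1) * 1.38 := by linarith
        _ ≤ q * Real.log 4 := by gcongr
    have h4 : Real.log ((((16 * (2 * (m * Y)) * q + 1) ^ (2 * (m * Y) + 1)) ^ (m + 1) : ℕ) : ℝ) ≤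
        Real.log ((4 ^ q : ℕ) : ℝ) := by
      rw [← pow_mul, Nat.cast_pow, Real.log_pow, Nat.cast_pow, Real.log_pow]
      refine le_trans ?_ (by simpa using hexp)
      rw [← Nat.cast_mul]
      refine (mul_le_mul_of_nonneg_left hlogN (by positivity)).trans ?_
      simp
    have h5 := (Real.log_le_log_iff (by positivity) (by positivity)).mp h4
    exact_mod_cast h5
  · -- (C)
    have hY0 : (0 : ℝ) < Y := by linarith
    have hY100 : (100 : ℝ) ≤ Y := by linarith
    have hlogY : Real.log Y ≤ x := by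
      have : Real.log Y ≤ Real.log D := Real.log_le_log hY0 (by linarith)
      linarith
    have hlogY0 : 0 < Real.log Y := Real.log_pos (by linarith)
    have hpi : v / (2 * x) ≤ ((range (Y + 1)).filter Nat.Prime).card := by
      have h1 := Chebyshev.pi_ge Y
      have h2 : (Nat.primeCounting Y : ℝ) = (((range (Y + 1)).filter Nat.Prime).card : ℝ) := by
        rw [Nat.primeCounting, Nat.primeCounting', Nat.count_eq_card_filter_range]
      rw [h2] at h1
      refine le_trans ?_ h1
      have h3 : (Y : ℝ) / 2 ≤ Y * Real.log 2 - Real.log (Y + 1) := by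
        have h4 := Real.log_two_gt_d9
        have h5 : Real.log (Y + 1) ≤ 0.19 * Y := by
          -- log (Y+1) = 2 log √(Y+1)
          have h6 : Real.log (((Y : ℝ) + 1) / 20) ≤ ((Y : ℝ) + 1) / 20 - 1 :=
            Real.log_le_sub_one_of_pos (by positivity)
          rw [Real.log_div (by positivity) (by norm_num)] at h6
          have h7 : Real.log 20 ≤ 3.1 := by
            have h8 : Real.log 20 ≤ Real.log (2 ^ (4 : ℕ) * (5 / 4)) := Real.log_le_log (by norm_num) (by norm_num)
            rw [Real.log_mul (by norm_num) (by norm_num), Real.log_pow] at h8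
            have h9 : Real.log (5 / 4) ≤ 5 / 4 - 1 := Real.log_le_sub_one_of_pos (by norm_num)
            have h10 := Real.log_two_lt_d9
            norm_num at h8 h9
            linarith
          linarith
        nlinarith
      rw [div_le_div_iff₀ (by positivity) hlogY0]
      calc v * Real.log Y ≤ Y * x := by gcongr
        _ = (Y / 2) * (2 * x) := by ring
        _ ≤ (Y * Real.log 2 - Real.log (Y + 1)) * (2 * x) := by gcongr
    have hcnt : u * v / 4 ≤ ((m * Y - (m * Y / 2 + 1) : ℕ) : ℝ) := by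
      have h1 : m * Y ≤ 2 * (m * Y - (m * Y / 2 + 1)) + 2 := by omega
      have h2 : ((m * Y : ℕ) : ℝ) ≤ 2 * ((m * Y - (m * Y / 2 + 1) : ℕ) : ℝ) + 2 := by
        exact_mod_cast h1
      have h3 : u * v ≤ ((m * Y : ℕ) : ℝ) := by
        push_cast
        have : u ≤ m := by linarith
        gcongr
      have huv1 : 400 ≤ u * v := by nlinarith
      linarith
    have hmain : (144 * q + 2 * d : ℝ) ≤
        (((range (Y + 1)).filter Nat.Prime).card : ℝ) * ((m * Y - (m * Y / 2 + 1) : ℕ) : ℝ) := by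
      have hx4 : (200 : ℝ) ^ 4 ≤ x ^ 4 := by gcongr
      have h1 : 144 * (q : ℝ) ≤ D := by
        calc 144 * (q : ℝ) ≤ 144 * z := by gcongr
          _ ≤ x ^ 4 * z := by
              apply mul_le_mul_of_nonneg_right _ (by positivity)
              linarith
          _ = D := by rw [← hzx]; ring
      have h2 : 3 * D ≤ (v / (2 * x)) * (u * v / 4) := by
        have h3 : (v / (2 * x)) * (u * v / 4) = (u * v ^ 2) / (8 * x) := by
          field_simp
          ring
        rw [h3, huvv, le_div_iff₀ (by positivity)]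
        have h4 : x ^ 8 = x ^ 7 * x := by ring
        rw [h4]
        have h5 : (24 : ℝ) ≤ x ^ 7 := by
          have : (200 : ℝ) ^ 7 ≤ x ^ 7 := by gcongr
          linarith
        calc 3 * D * (8 * x) = D * (24 * x) := by ring
          _ ≤ D * (x ^ 7 * x) := by gcongr
      calc (144 * q + 2 * d : ℝ) ≤ 3 * D := by rw [← hDd]; linarith
        _ ≤ (v / (2 * x)) * (u * v / 4) := h2
        _ ≤ _ := by gcongr
    exact_mod_cast hmain

end Pool.Agent.L5helper9.Rp6
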