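import Pool.Agent.L5helper9.Rp6

/-!
# All large degrees
-/

set_option autoImplicit false

namespace Pool.Agent.L5helper9.Rp7

open Finset Polynomial Filter
open Pool.Agent.L5helper9.Rp4 Pool.Agent.L5helper9.Rp5

theorem exists_of_eps {ε : ℝ} (hε : 0 < ε) (hε4 : ε ≤ 1 / 4) :
    ∃ d₀ : ℕ, ∀ d : ℕ, d₀ ≤ d →
    ∃ P Q : ℚ[X], IsCoprime P Q ∧ max P.natDegree Q.natDegree = d ∧
      ∃ s : Finset ℚ, 2 * (d : ℝ) + (d : ℝ) ^ (1 / 3 - ε) ≤ s.card ∧ ∀ x ∈ s, IsPre ℚ P Q d x := by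
  have hcast : Tendsto (fun d : ℕ => (d : ℝ)) atTop atTop := tendsto_natCast_atTop_atTop
  have hx := (tendsto_rpow_atTop (show 0 < ε / 8 by positivity)).comp hcast
  have hu := (tendsto_rpow_atTop (show 0 < 1 / 3 - ε by linarith)).comp hcast
  have hv := (tendsto_rpow_atTop (show 0 < 1 / 3 + ε by linarith)).comp hcast
  have hz := (tendsto_rpow_atTop (show 0 < 1 - ε / 2 by linarith)).comp hcast
  have hw := (tendsto_rpow_atTop (show 0 < 2 / 3 - ε by linarith)).comp hcast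
  have hlog := hcast.eventually ((isLittleO_log_rpow_atTop (show 0 < ε / 8 by positivity)).bound
    (show (0 : ℝ) < 1 by norm_num))
  have hev : ∀ᶠ d : ℕ in atTop, ∃ P Q : ℚ[X], IsCoprime P Q ∧ max P.natDegree Q.natDegree = d ∧
      ∃ s : Finset ℚ, 2 * (d : ℝ) + (d : ℝ) ^ (1 / 3 - ε) ≤ s.card ∧ ∀ x ∈ s, IsPre ℚ P Q d x := by
    filter_upwards [hx.eventually_ge_atTop 200, hu.eventually_ge_atTop 4,
      hv.eventually_ge_atTop 100, hz.eventually_ge_atTop (10 ^ 7 + 1),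
      hw.eventually_ge_atTop 2, hlog, hcast.eventually_ge_atTop 1000] with d h1 h2 h3 h4 h5 h6 h7
    simp only [Function.comp_apply] at h1 h2 h3 h4 h5
    set D : ℝ := (d : ℝ) with hD
    have hD0 : 0 < D := by linarith
    have hD1 : 1 ≤ D := by linarith
    have hlogD : 0 ≤ Real.log D := Real.log_nonneg hD1
    rw [one_mul, Real.norm_of_nonneg hlogD, Real.norm_of_nonneg (by positivity)] at h6
    set u : ℝ := D ^ (1 / 3 - ε) with hu'
    set v : ℝ := D ^ (1 / 3 + ε) with hv'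
    set z : ℝ := D ^ (1 - ε / 2) with hz'
    set x : ℝ := D ^ (ε / 8) with hx'
    have huv : u * v = D ^ (2 / 3 : ℝ) := by
      rw [hu', hv', ← Real.rpow_add hD0]
      congr 1
      ring
    have huvD : u * v ≤ D := by
      rw [huv]
      calc D ^ (2 / 3 : ℝ) ≤ D ^ (1 : ℝ) := Real.rpow_le_rpow_of_exponent_le hD1 (by norm_num)
        _ = D := Real.rpow_one D
    have hzD : z ≤ D := by
      calc z ≤ D ^ (1 : ℝ) := Real.rpow_le_rpow_of_exponent_le hD1 (by linarith)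
        _ = D := Real.rpow_one D
    have hx4 : x ^ 4 = D ^ (ε / 2) := by
      rw [hx', ← Real.rpow_natCast, ← Real.rpow_mul hD0.le]
      congr 1
      push_cast
      ring
    have hx8 : x ^ 8 = D ^ ε := by
      rw [hx', ← Real.rpow_natCast, ← Real.rpow_mul hD0.le]
      congr 1
      push_cast
      ring
    have huvz : u ^ 2 * v * x ^ 4 = z := by
      rw [hx4, hu', hv', hz', ← Real.rpow_natCast, ← Real.rpow_mul hD0.le, ← Real.rpow_add hD0,
        ← Real.rpow_add hD0]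
      congr 1
      push_cast
      ring
    have hzx : z * x ^ 4 = D := by
      rw [hx4, hz', ← Real.rpow_add hD0]
      rw [show 1 - ε / 2 + ε / 2 = 1 by ring, Real.rpow_one]
    have huvv : u * v ^ 2 = D * x ^ 8 := by
      rw [hx8, hu', hv', ← Real.rpow_natCast, ← Real.rpow_mul hD0.le, ← Real.rpow_add hD0]
      nth_rewrite 2 [← Real.rpow_one D]
      rw [← Real.rpow_add hD0]
      congr 1
      push_cast
      ring
    have hvD : v + 1 ≤ D := by
      have h8 : v * D ^ (2 / 3 - ε) = D := by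
        rw [hv', ← Real.rpow_add hD0]
        rw [show 1 / 3 + ε + (2 / 3 - ε) = 1 by ring, Real.rpow_one]
      nlinarith
    have hmc : (⌈u⌉₊ : ℝ) ≤ u + 1 := (Nat.ceil_lt_add_one (by linarith)).le
    have hmc2 : u ≤ (⌈u⌉₊ : ℝ) := Nat.le_ceil _
    obtain ⟨c1, c2, c3, c4⟩ := Rp6.core (D := D) (u := u) (v := v) (z := z) (x := x)
      (ld := Real.log D) (d := d) (m := ⌈u⌉₊ + 2) (Y := ⌈v⌉₊) (q := ⌊z⌋₊)
      (t := ⌈8 * Real.log (4 * ⌊z⌋₊)⌉₊) hD rfl h1 h2 h3 h4 h7 h6 huvD hzD huvz hzx huvv hvD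
      (by push_cast; linarith) (by push_cast; linarith)
      (Nat.ceil_lt_add_one (by linarith)).le (Nat.le_ceil _)
      (Nat.floor_le (by linarith)) (Nat.sub_one_lt_floor _).le rfl
    obtain ⟨P, Q, hPQ, hdeg, s, hs, hpre⟩ := construct (m := ⌈u⌉₊ + 2) (by omega) c1 (Nat.le_ceil _)
      c2 c3 c4
    refine ⟨P, Q, hPQ, hdeg, s, ?_, hpre⟩
    rw [hs]
    push_cast
    linarith
  exact eventually_atTop.mp hev

/-- **All large degrees and all exponents below `1 / 3`.** -/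
theorem main (θ : ℝ) (hθ : θ < 1 / 3) :
    ∃ d₀ : ℕ, ∀ d : ℕ, d₀ ≤ d →
    ∃ P Q : ℚ[X], IsCoprime P Q ∧ max P.natDegree Q.natDegree = d ∧
      ∀ (K : Type) [Field K] [NumberField K],
      ∃ s : Finset K, 2 * (d : ℝ) + (d : ℝ) ^ θ ≤ s.card ∧ ∀ x ∈ s, IsPre K P Q d x := by
  classical
  set ε : ℝ := 1 / 3 - max θ (1 / 12) with hε
  have h1 : max θ (1 / 12) < 1 / 3 := max_lt hθ (by norm_num)
  have h2 : 1 / 12 ≤ max θ (1 / 12) := le_max_right _ _
  obtain ⟨d₀, hd₀⟩ := exists_of_eps (ε := ε) (by linarith) (by rw [hε]; linarith)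
  refine ⟨max d₀ 1, fun d hd => ?_⟩
  obtain ⟨P, Q, hPQ, hdeg, s, hs, hpre⟩ := hd₀ d ((le_max_left _ _).trans hd)
  refine ⟨P, Q, hPQ, hdeg, ?_⟩
  intro K _ _
  refine ⟨s.image (algebraMap ℚ K), ?_, ?_⟩
  · rw [Finset.card_image_of_injective _ (algebraMap ℚ K).injective]
    refine le_trans ?_ hs
    have h3 : (1 : ℝ) ≤ d := by
      have : 1 ≤ d := (le_max_right _ _).trans hd
      exact_mod_cast this
    have h4 : (d : ℝ) ^ θ ≤ (d : ℝ) ^ (1 / 3 - ε) := by
      apply Real.rpow_le_rpow_of_exponent_le h3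
      rw [hε]
      have := le_max_left θ (1 / 12)
      linarith
    linarith
  · intro x hx
    rw [Finset.mem_image] at hx
    obtain ⟨y, hy, rfl⟩ := hx
    exact isPre_algebraMap K P Q d y (hpre y hy)

end Pool.Agent.L5helper9.Rp7
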