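import Pool.Agent.L5helper13.TQ.Defs

set_option autoImplicit false

namespace Pool.Agent.L5helper13.TQ

open MvPolynomial

/-- TQ4 -/
theorem abstract_main (k : Type) [Field k] [CharZero k] (V : Type) [AddCommGroup V] [Module k V]
    (T : Type) [CommGroup T] (l : T → V →ₗ[k] V) (B : T → V →ₗ[k] V →ₗ[k] V)
    (hsym : ∀ t x y, B t x y = B t y x) (h1 : ∀ x, l 1 x = x)
    (hl : ∀ s t x, l (s * t) x = l s (l t x))
    (h2 : ∀ s t x, B (s * t) x x = l s (B t x x) + B s (l t x) (l t x))
    (h3 : ∀ s t x, B s (l t x) (B t x x) = 0)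
    (h4 : ∀ s t x, B s (B t x x) (B t x x) = 0)
    (E : (T → V) →ₗ[k] V) (E1 : ∀ (A : V →ₗ[k] V) (f : T → V), E (fun t => A (f t)) = A (E f))
    (E2 : ∀ v, E (fun _ => v) = v)
    (E3 : ∀ x y s, E (fun t => l (t * s)⁻¹ (B (t * s) x y)) = E (fun t => l t⁻¹ (B t x y)))
    (E4 : ∀ x y, E (fun t => l t (B t⁻¹ x y)) = E (fun t => l t⁻¹ (B t x y))) :
    ∃ M : V →ₗ[k] V →ₗ[k] V, (∀ x y, M x y = M y x) ∧ (∀ x, M x (M x x) = 0) ∧
      (∀ x, M (M x x) (M x x) = 0) ∧
      ∀ s x, (l s x + B s x x) + M (l s x + B s x x) (l s x + B s x x) = l s (x + M x x) := by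
  have Eadd : ∀ f g : T → V, E (fun t => f t + g t) = E f + E g := fun f g => map_add E f g
  have Esmul : ∀ (c : k) (f : T → V), E (fun t => c • f t) = c • E f := fun c f => map_smul E c f
  have E0 : E (fun _ => (0 : V)) = 0 := E2 0
  let M : V →ₗ[k] V →ₗ[k] V := LinearMap.mk₂ k (fun x y => E (fun t => l t⁻¹ (B t x y)))
    (fun x x' y => by simp only [map_add, LinearMap.add_apply]; exact Eadd _ _)
    (fun c x y => by simp only [map_smul, LinearMap.smul_apply]; exact Esmul _ _)
    (fun x y y' => by simp only [map_add]; exact Eadd _ _)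
    (fun c x y => by simp only [map_smul]; exact Esmul _ _)
  have hM : ∀ x y, M x y = E (fun t => l t⁻¹ (B t x y)) := fun x y => rfl
  have Msym : ∀ x y, M x y = M y x := by
    intro x y
    rw [hM, hM]
    congr 1
    funext t
    rw [hsym]
  -- (A)
  have hA : ∀ s x, M (l s x) (l s x) = l s (M x x) - B s x x := by
    intro s x
    have e1 : ∀ t, l (t * s)⁻¹ (B (t * s) x x) =
        l s⁻¹ (B s x x) + l s⁻¹ (l t⁻¹ (B t (l s x) (l s x))) := by
      intro t
      rw [h2 t s x, map_add, ← hl, ← hl]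
      congr 3
      · rw [mul_inv_rev, mul_assoc, inv_mul_cancel, mul_one]
      · rw [mul_inv_rev]
    have e2 := E3 x x s
    rw [funext e1, Eadd, E2, E1 (l s⁻¹) (fun t => l t⁻¹ (B t (l s x) (l s x))), ← hM, ← hM] at e2
    rw [← e2, map_add, ← hl, ← hl, mul_inv_cancel, h1, h1]
    abel
  have hC : ∀ s x, M (l s x) (B s x x) = 0 := by
    intro s x
    rw [hM]
    have : (fun t => l t⁻¹ (B t (l s x) (B s x x))) = fun _ => (0 : V) := by
      funext t
      rw [h3, map_zero]
    rw [this, E0]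
  have hD : ∀ s x, M (B s x x) (B s x x) = 0 := by
    intro s x
    rw [hM]
    have : (fun t => l t⁻¹ (B t (B s x x) (B s x x))) = fun _ => (0 : V) := by
      funext t
      rw [h4, map_zero]
    rw [this, E0]
  have hB1 : ∀ x, B 1 x x = 0 := by
    intro x
    have := h2 1 1 x
    rw [mul_one, h1, h1] at this
    exact left_eq_add.1 this
  have hN : ∀ s x, M x (l s (B s⁻¹ x x)) = 0 := by
    intro s x
    have e := h2 s s⁻¹ x
    rw [mul_inv_cancel, hB1] at e
    have e' : B s (l s⁻¹ x) (l s⁻¹ x) = -l s (B s⁻¹ x x) := by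
      rw [eq_neg_iff_add_eq_zero, add_comm]
      exact e.symm
    have c := hC s (l s⁻¹ x)
    rw [← hl, mul_inv_cancel, h1, e', map_neg, neg_eq_zero] at c
    exact c
  have hMN : ∀ x y, E (fun s => l s (B s⁻¹ x y)) = M x y := fun x y => E4 x y
  have hP : ∀ x, M x (M x x) = 0 := by
    intro x
    have e := E1 (M x) (fun s => l s (B s⁻¹ x x))
    rw [hMN] at e
    rw [← e, funext fun s => hN s x, E0]
  have h22 : (2 : k) ≠ 0 := two_ne_zero
  have hpol : ∀ s x y, M y (l s (B s⁻¹ x x)) + (2 : k) • M x (l s (B s⁻¹ x y)) = 0 := by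
    intro s x y
    have c1 := hN s (x + y)
    have c2 := hN s (x - y)
    have c3 := hN s y
    simp only [map_add, map_sub, LinearMap.add_apply, LinearMap.sub_apply] at c1 c2
    rw [hsym s⁻¹ y x] at c1 c2
    have : (2 : k) • (M y (l s (B s⁻¹ x x)) + (2 : k) • M x (l s (B s⁻¹ x y))) = 0 := by
      linear_combination (norm := module) c1 - c2 - (2 : k) • c3
    exact (smul_eq_zero.1 this).resolve_left h22
  refine ⟨M, Msym, hP, ?_, ?_⟩
  · intro x
    have e : E (fun s => M (M x x) (l s (B s⁻¹ x x)) +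
        (2 : k) • M x (l s (B s⁻¹ x (M x x)))) = 0 := by
      rw [funext fun s => hpol s x (M x x), E0]
    rw [Eadd, Esmul, E1 (M (M x x)) (fun s => l s (B s⁻¹ x x)),
      E1 (M x) (fun s => l s (B s⁻¹ x (M x x))), hMN, hMN, hP, map_zero, smul_zero, add_zero] at e
    exact e
  · intro s x
    have hs : M (B s x x) (l s x) = 0 := by rw [Msym]; exact hC s x
    simp only [map_add, LinearMap.add_apply]
    rw [hA, hC, hs, hD]
    abel

end Pool.Agent.L5helper13.TQ
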