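import Pool.Agent.N906.QP.All
import Pool.Agent.N362.QP_UPU

/-!
# The number of the points with a large defect

`K` a number field, `α_1..α_q` distinct points of the projective line. The number of the points `x` of height at
most `X` (relative height `hr`) with `tr P ≤ q hr - t` is at most `C (exp (2 X - (1 - η) t) + exp ((2 - ν) X))`,
uniformly in `t ≥ 0`; without polynomial factors in `X`.
-/

set_option autoImplicit false
set_option linter.unusedSectionVars false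

namespace Pool.Agent.L5helper9

open NumberField IsDedekindDomain Finset Filter Topology Pool.Agent.H691R3 Pool.Agent.W223.AK
open Pool.Agent.N906.NT (Cx cst)
open Pool.Agent.N906.KG Pool.Agent.N645.KG Pool.Agent.N362.QP

variable {K : Type} [Field K] [NumberField K]

/-- Rankin's method with the exponent `u` -/
theorem rankin (h : S_GUPK K) {q : ℕ} (hq : 1 ≤ q) {ε : ℝ} (hε : 0 < ε) :
    ∃ u₀ : ℝ, 0 < u₀ ∧ u₀ < 1 / 2 ∧ ∀ u : ℝ, 0 < u → u < u₀ →
      ∀ (T : ℝ) (F : Finset (Fin q → Idl K)), (∀ D ∈ F, Tp (Sg q) D ∧ Sq D ∧ T ≤ gl D) →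
      ∑ D ∈ F, Real.exp (-tl D) ≤
        Real.exp ((1 + ε) * q / (u * Real.log (1 / u))) * Real.exp (-((1 - u) * T)) := by
  obtain ⟨u₀, hu₀, hu₀2, h⟩ := h q (Sg q) 1 q 1 0 ε (cx_sg hq) one_pos le_rfl (by norm_num) hε
  refine ⟨u₀, hu₀, hu₀2, fun u hu0 hu1 T F hF => ?_⟩
  have h1 := h u hu0 hu1 F (fun D hD => ⟨(hF D hD).1, (hF D hD).2.1⟩)
  have h2 : ∑ D ∈ F, Real.exp (-tl D) ≤
      (∑ D ∈ F, (1 : ℝ) ^ om D * Real.exp (-(u * gl D) - (1 - 0 * u) * tr D)) *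
        Real.exp (-((1 - u) * T)) := by
    rw [Finset.sum_mul]
    refine Finset.sum_le_sum fun D hD => ?_
    rw [one_pow, one_mul, ← Real.exp_add]
    apply Real.exp_le_exp.2
    have h3 := (hF D hD).2.2
    have h4 : tl D = gl D + tr D := by unfold gl; ring
    rw [h4]
    nlinarith
  have h5 : ((1 + ε) * 1 * q / (((1 : ℕ) : ℝ) * (((1 : ℕ) : ℝ) * (u * Real.log (1 / u))) ^ 1) : ℝ) =
      (1 + ε) * q / (u * Real.log (1 / u)) := by
    rw [Nat.cast_one, one_mul, one_mul, pow_one, mul_one]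
  rw [h5] at h1
  exact h2.trans (mul_le_mul_of_nonneg_right h1 (Real.exp_pos _).le)

/-- the contribution of one code -/
theorem cls' {q : ℕ} {α : Fin q → K × K} {S : Finset (Pr K)} {A C C' M u t : ℝ} (hq : 1 ≤ q)
    (hA : 0 ≤ A) (hC : 0 ≤ C) (hM : 0 ≤ M) (hu : 0 ≤ u) (h : CB α S A)
    (hrank : ∀ (T : ℝ) (F : Finset (Fin q → Idl K)),
      (∀ D ∈ F, Tp (Sg q) D ∧ Sq D ∧ T ≤ gl D) →
      ∑ D ∈ F, Real.exp (-tl D) ≤ M * Real.exp (-((1 - u) * T)))
    (hα : ∀ x, Of α x → ∀ P, IsP S α x P → ∀ l l', l ≠ l' → Cop (P l) (P l'))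
    {c : ℕ × (Pl K → Fin q) × (Pl K → ℕ)}
    (hup : ∀ x, Of α x → ∀ P, IsP S α x P → Ic α S C c x →
      tl P ≤ q * hr (aff x) - Kc S c + C')
    {F : Finset K} (hF : ∀ x ∈ F, Of α x ∧ Ic α S C c x ∧
      ∃ P, IsP S α x P ∧ tr P ≤ q * hr (aff x) - t ∧ ((q : ℝ) - 1 / 2) * hr (aff x) ≤ tr P) :
    (F.card : ℝ) ≤ A * (1 + Real.exp (2 * C')) * M * Real.exp C *
      Real.exp (2 * c.1 - (1 - u) * t - u * Kc S c) := by
  classical
  have k1 := Kc0 S c
  obtain ⟨T, hT⟩ : ∃ T : ℝ, T = t - C - Kc S c := ⟨_, rfl⟩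
  have hex : ∀ x : K, ∃ D : Fin q → Idl K, x ∈ F → Tp (Sg q) D ∧ Sq D ∧ T ≤ gl D ∧
      tl D + Kc S c ≤ c.1 + 2 * C' ∧ ∃ P, IsP S α x P ∧ ∀ l, D l ≤ P l := by
    intro x
    by_cases hx : x ∈ F
    · obtain ⟨g1, g3, P, hP, g4, g5⟩ := hF x hx
      have hcop := hα x g1 P hP
      refine ⟨fun l => sqf (P l), fun _ => ⟨tp_of_cop hq (cop_sqf hcop), sq_sqf P, ?_, ?_, P, hP,
        fun l => sqf_le _⟩⟩
      · rw [gl_sqf hq hcop, hT]
        have := g3.ge P hP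
        unfold gl
        unfold Kc
        linarith
      · have e2 := hup x g1 P hP g3
        have e3 : hr (aff x) ≤ c.1 := g3.up
        have e1 : gl (fun l => sqf (P l)) + Kc S c ≤ c.1 / 2 + C' := by
          rw [gl_sqf hq hcop]
          unfold gl
          linarith
        have e5 := tr_le_gl (sq_sqf P)
        have e6 : tl (fun l => sqf (P l)) = gl (fun l => sqf (P l)) + tr (fun l => sqf (P l)) := by
          unfold gl
          ring
        linarith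
    · exact ⟨0, fun h => absurd h hx⟩
  choose d hd using hex
  obtain ⟨L, hL⟩ : ∃ L : Finset (Fin q → Idl K), L = F.image d := ⟨_, rfl⟩
  have hterm : ∀ D ∈ L, ((#{x ∈ F | d x = D} : ℕ) : ℝ) ≤
      A * (1 + Real.exp (2 * C')) * Real.exp (2 * c.1 - Kc S c) * Real.exp (-tl D) := by
    intro D hD
    rw [hL] at hD
    obtain ⟨x₀, hx₀, hD₀⟩ := mem_image.1 hD
    have b1 := cell_code (C := C) (c := c) (D := D) (F := {x ∈ F | d x = D}) hA h (by
      intro x hx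
      rw [mem_filter] at hx
      obtain ⟨g1, g3, -⟩ := hF x hx.1
      obtain ⟨-, -, -, -, g4⟩ := hd x hx.1
      rw [hx.2] at g4
      exact ⟨g1, g3, g4⟩)
    refine b1.trans ?_
    rw [mul_assoc A, mul_assoc A]
    apply mul_le_mul_of_nonneg_left _ hA
    obtain ⟨-, -, -, g4, -⟩ := hd x₀ hx₀
    rw [hD₀] at g4
    have g0 : (0 : ℝ) ≤ c.1 := Nat.cast_nonneg _
    have e1 : Real.exp (2 * c.1 - tl D - Kc S c) =
        Real.exp (2 * c.1 - Kc S c) * Real.exp (-tl D) := by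
      rw [← Real.exp_add]
      congr 1
      ring
    have e2 : 1 ≤ Real.exp (2 * C') * (Real.exp (2 * c.1 - Kc S c) * Real.exp (-tl D)) := by
      rw [← Real.exp_add, ← Real.exp_add]
      exact Real.one_le_exp (by linarith)
    calc Real.exp (2 * c.1 - tl D - Kc S c) + 1
        ≤ Real.exp (2 * c.1 - Kc S c) * Real.exp (-tl D) +
          Real.exp (2 * C') * (Real.exp (2 * c.1 - Kc S c) * Real.exp (-tl D)) :=
          add_le_add e1.le e2
      _ = _ := by ring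
  have hsum : (F.card : ℝ) ≤ A * (1 + Real.exp (2 * C')) * Real.exp (2 * c.1 - Kc S c) *
      ∑ D ∈ L, Real.exp (-tl D) := by
    rw [card_eq_sum_card_image d F, ← hL]
    push_cast
    refine (Finset.sum_le_sum hterm).trans (le_of_eq ?_)
    rw [Finset.mul_sum]
  have hr' : ∑ D ∈ L, Real.exp (-tl D) ≤ M * Real.exp (-((1 - u) * T)) := by
    refine hrank T L fun D hD => ?_
    rw [hL] at hD
    obtain ⟨x₀, hx₀, hD₀⟩ := mem_image.1 hD
    obtain ⟨g1, g2, g3, -⟩ := hd x₀ hx₀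
    rw [hD₀] at g1 g2 g3
    exact ⟨g1, g2, g3⟩
  have hE : Real.exp (2 * c.1 - Kc S c) * Real.exp (-((1 - u) * T)) ≤
      Real.exp C * Real.exp (2 * c.1 - (1 - u) * t - u * Kc S c) := by
    rw [← Real.exp_add, ← Real.exp_add]
    apply Real.exp_le_exp.2
    rw [hT]
    nlinarith
  refine hsum.trans ?_
  calc A * (1 + Real.exp (2 * C')) * Real.exp (2 * c.1 - Kc S c) * ∑ D ∈ L, Real.exp (-tl D)
      ≤ A * (1 + Real.exp (2 * C')) * Real.exp (2 * c.1 - Kc S c) *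
        (M * Real.exp (-((1 - u) * T))) :=
        mul_le_mul_of_nonneg_left hr' (by positivity)
    _ = A * (1 + Real.exp (2 * C')) * M *
        (Real.exp (2 * c.1 - Kc S c) * Real.exp (-((1 - u) * T))) := by ring
    _ ≤ A * (1 + Real.exp (2 * C')) * M *
        (Real.exp C * Real.exp (2 * c.1 - (1 - u) * t - u * Kc S c)) :=
        mul_le_mul_of_nonneg_left hE (by positivity)
    _ = _ := by ring

/-! ### the sum over the codes -/

theorem geom_le {u : ℝ} (hu : 0 < u) (M : ℕ) :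
    ∑ j ∈ range M, Real.exp (-(u * j)) ≤ (1 - Real.exp (-u))⁻¹ := by
  have h1 : Real.exp (-u) < 1 := by rw [Real.exp_lt_one_iff]; linarith
  have h2 : ∀ j ∈ range M, Real.exp (-(u * j)) = Real.exp (-u) ^ j := by
    intro j _
    rw [← Real.exp_nat_mul]
    congr 1
    ring
  rw [Finset.sum_congr rfl h2]
  have h3 : HasSum (fun j : ℕ => Real.exp (-u) ^ j) (1 - Real.exp (-u))⁻¹ :=
    hasSum_geometric_of_lt_one (Real.exp_pos _).le h1
  exact sum_le_hasSum _ (fun j _ => by positivity) h3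

theorem exp_sum_le (N : ℕ) : ∑ n ∈ range (N + 1), Real.exp (2 * n) ≤ 2 * Real.exp (2 * N) := by
  induction N with
  | zero => simp
  | succ N ih =>
    rw [Finset.sum_range_succ]
    have h1 : Real.exp (2 * ((N + 1 : ℕ) : ℝ)) = Real.exp 2 * Real.exp (2 * N) := by
      rw [← Real.exp_add]
      congr 1
      push_cast
      ring
    rw [h1]
    have h2 : (2 : ℝ) + 1 ≤ Real.exp 2 := Real.add_one_le_exp 2
    have h3 := Real.exp_pos (2 * (N : ℝ))
    nlinarith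

theorem pi_sum {ι : Type} [Fintype ι] {u : ℝ} (hu : 0 < u) (W : Finset (ι → ℕ)) :
    ∑ k ∈ W, Real.exp (-(u * ∑ v, (k v : ℝ))) ≤ (1 - Real.exp (-u))⁻¹ ^ Fintype.card ι := by
  classical
  obtain ⟨M, hM⟩ : ∃ M : ℕ, ∀ k ∈ W, ∀ v, k v < M := by
    refine ⟨∑ k ∈ W, ∑ v, k v + 1, fun k hk v => ?_⟩
    have h1 : k v ≤ ∑ v, k v := Finset.single_le_sum (fun _ _ => Nat.zero_le _) (mem_univ v)
    have h2 : ∑ v, k v ≤ ∑ k ∈ W, ∑ v, k v :=
      Finset.single_le_sum (f := fun k : ι → ℕ => ∑ v, k v) (fun _ _ => Nat.zero_le _) hk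
    omega
  have h1 : ∑ k ∈ W, Real.exp (-(u * ∑ v, (k v : ℝ))) ≤
      ∑ k ∈ Fintype.piFinset (fun _ : ι => range M), Real.exp (-(u * ∑ v, (k v : ℝ))) := by
    refine Finset.sum_le_sum_of_subset_of_nonneg (fun k hk => ?_) fun _ _ _ => (Real.exp_pos _).le
    rw [Fintype.mem_piFinset]
    exact fun v => mem_range.2 (hM k hk v)
  refine h1.trans ?_
  have h2 : ∀ k ∈ Fintype.piFinset (fun _ : ι => range M), Real.exp (-(u * ∑ v, (k v : ℝ))) =
      ∏ v, Real.exp (-(u * (k v : ℝ))) := by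
    intro k _
    rw [← Real.exp_sum, Finset.mul_sum, Finset.sum_neg_distrib]
  rw [Finset.sum_congr rfl h2]
  have h3 := Finset.prod_univ_sum (fun _ : ι => range M) (fun _ j => Real.exp (-(u * (j : ℝ))))
  rw [← h3]
  calc ∏ _i : ι, ∑ j ∈ range M, Real.exp (-(u * (j : ℝ)))
      ≤ ∏ _i : ι, (1 - Real.exp (-u))⁻¹ :=
        Finset.prod_le_prod (fun _ _ => Finset.sum_nonneg fun _ _ => (Real.exp_pos _).le)
          fun _ _ => geom_le hu M
    _ = _ := by rw [Finset.prod_const, card_univ]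

theorem code_sum {ι τ : Type} [Fintype ι] [Fintype τ] [DecidableEq τ] {u : ℝ} (hu : 0 < u) (N : ℕ)
    (W : Finset (ℕ × τ × (ι → ℕ))) (hW : ∀ c ∈ W, c.1 ≤ N) :
    ∑ c ∈ W, Real.exp (2 * c.1 - u * ∑ v, (c.2.2 v : ℝ)) ≤
      2 * Real.exp (2 * N) * (Fintype.card τ * (1 - Real.exp (-u))⁻¹ ^ Fintype.card ι) := by
  classical
  have hg : 0 < (1 - Real.exp (-u))⁻¹ := by
    rw [inv_pos, sub_pos, Real.exp_lt_one_iff]
    linarith
  obtain ⟨W₂, hW₂⟩ : ∃ W₂ : Finset (ι → ℕ), W₂ = W.image fun c => c.2.2 := ⟨_, rfl⟩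
  have h1 : ∑ c ∈ W, Real.exp (2 * c.1 - u * ∑ v, (c.2.2 v : ℝ)) ≤
      ∑ c ∈ range (N + 1) ×ˢ ((univ : Finset τ) ×ˢ W₂),
        Real.exp (2 * c.1 - u * ∑ v, (c.2.2 v : ℝ)) := by
    refine Finset.sum_le_sum_of_subset_of_nonneg (fun c hc => ?_) fun _ _ _ => (Real.exp_pos _).le
    rw [mem_product, mem_product, mem_range]
    refine ⟨Nat.lt_succ_of_le (hW c hc), mem_univ _, ?_⟩
    rw [hW₂]
    exact mem_image_of_mem _ hc
  refine h1.trans ?_
  rw [Finset.sum_product]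
  have h2 : ∀ n ∈ range (N + 1), ∑ y ∈ (univ : Finset τ) ×ˢ W₂,
      Real.exp (2 * (n : ℝ) - u * ∑ v, (y.2 v : ℝ)) ≤
      Real.exp (2 * (n : ℝ)) * (Fintype.card τ * (1 - Real.exp (-u))⁻¹ ^ Fintype.card ι) := by
    intro n _
    rw [Finset.sum_product]
    have h3 : ∀ _x ∈ (univ : Finset τ), ∑ y ∈ W₂, Real.exp (2 * (n : ℝ) - u * ∑ v, (y v : ℝ)) ≤
        Real.exp (2 * (n : ℝ)) * (1 - Real.exp (-u))⁻¹ ^ Fintype.card ι := by
      intro _ _
      have h4 : ∀ y ∈ W₂, Real.exp (2 * (n : ℝ) - u * ∑ v, (y v : ℝ)) =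
          Real.exp (2 * (n : ℝ)) * Real.exp (-(u * ∑ v, (y v : ℝ))) := by
        intro y _
        rw [← Real.exp_add]
        congr 1
      rw [Finset.sum_congr rfl h4, ← Finset.mul_sum]
      exact mul_le_mul_of_nonneg_left (pi_sum hu W₂) (Real.exp_pos _).le
    refine (Finset.sum_le_sum h3).trans (le_of_eq ?_)
    rw [Finset.sum_const, card_univ, nsmul_eq_mul]
    ring
  refine (Finset.sum_le_sum h2).trans ?_
  rw [← Finset.sum_mul]
  exact mul_le_mul_of_nonneg_right (exp_sum_le N) (by positivity)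

theorem inv_le {u : ℝ} (hu : 0 < u) (hu2 : u < 1 / 2) : (1 - Real.exp (-u))⁻¹ ≤ 2 * u⁻¹ := by
  have h1 : Real.exp (-u) ≤ 1 - u / 2 := by
    have h2 := Real.exp_bound_div_one_sub_of_interval (x := u) hu.le (by linarith)
    have h3 := Real.add_one_le_exp u
    rw [Real.exp_neg, inv_le_comm₀ (Real.exp_pos _) (by linarith)]
    refine le_trans ?_ h3
    rw [inv_le_comm₀ (by linarith) (by linarith)]
    rw [← one_div, div_le_iff₀ (by linarith)]
    nlinarith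
  have h2 : u / 2 ≤ 1 - Real.exp (-u) := by linarith
  have h3 : 2 * u⁻¹ = (u / 2)⁻¹ := by
    rw [inv_div]
    ring
  rw [h3]
  exact inv_anti₀ (by positivity) h2

/-- **The number of the points with a large defect.** -/
theorem tail_u (K : Type) [Field K] [NumberField K] {q : ℕ} (h1 : S_BASQ K) (h2 : S_CELLQ K)
    (h3 : S_GUPK K) (h4 : S_BIGQ K q (6 / 7)) (hq : 1 ≤ q) {α : Fin q → K × K} (hα : Al α)
    {S : Finset (Pr K)} (hS : Gd S α) {ε : ℝ} (hε : 0 < ε) :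
    ∃ (C u₀ : ℝ) (n : ℕ), 0 < C ∧ 0 < u₀ ∧ u₀ < 1 / 2 ∧ ∀ (u X t : ℝ) (F : Finset K),
      0 < u → u < u₀ → 0 ≤ X →
      (∀ x ∈ F, Of α x ∧ hr (aff x) ≤ X ∧ ∃ P, IsP S α x P ∧ tr P ≤ q * hr (aff x) - t) →
      (F.card : ℝ) ≤ C * (u⁻¹ ^ n * Real.exp ((1 + ε) * q / (u * Real.log (1 / u))) *
        Real.exp (2 * X - (1 - u) * t) + Real.exp (7 / 4 * X)) := by
  classical
  obtain ⟨C, hC, ha1, ha2⟩ := codes h1 hq hα hS
  obtain ⟨C', hC', hup⟩ := tl_up h1 hq hα hS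
  obtain ⟨A, hA, hcell⟩ := h2 q α S hα hS
  obtain ⟨u₀, hu₀, hu₀2, hrank⟩ := rankin h3 hq hε
  obtain ⟨D₁, hD₁, hbig⟩ := h4 α S (1 / 2) (1 / 4) 0 hα hS (by norm_num) (by norm_num)
    (by norm_num)
  obtain ⟨s, hs⟩ : ∃ s : Finset (Pl K), s = Spl S := ⟨_, rfl⟩
  obtain ⟨t₀, -⟩ : ∃ t : Fin q, True := ⟨⟨0, hq⟩, trivial⟩
  obtain ⟨ext, hext⟩ : ∃ ext : ℕ × (s → Fin q) × (s → ℕ) → ℕ × (Pl K → Fin q) × (Pl K → ℕ),
      ext = fun c => (c.1, (fun v => if h : v ∈ s then c.2.1 ⟨v, h⟩ else t₀),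
        (fun v => if h : v ∈ s then c.2.2 ⟨v, h⟩ else 0)) := ⟨_, rfl⟩
  have hK : ∀ c, Kc S (ext c) = ∑ v : s, (c.2.2 v : ℝ) := by
    intro c
    unfold Kc
    rw [← hs, ← Finset.sum_coe_sort s]
    refine Finset.sum_congr rfl fun v _ => ?_
    rw [hext]
    simp
  have hex : ∀ x : K, ∃ c : ℕ × (s → Fin q) × (s → ℕ), Of α x → Ic α S C (ext c) x := by
    intro x
    by_cases hx : Of α x
    · obtain ⟨T, -, -, hT⟩ := ha2 (hr (aff x)) (hr_aff_nonneg x)
      obtain ⟨c, -, hc⟩ := hT x hx le_rfl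
      refine ⟨(c.1, fun v => c.2.1 v, fun v => c.2.2 v), fun _ => ?_⟩
      have e1 : ∀ v ∈ s, (ext (c.1, fun v => c.2.1 v, fun v => c.2.2 v)).2.1 v = c.2.1 v := by
        intro v hv
        rw [hext]
        simp only [dif_pos hv]
      have e2 : ∀ v ∈ s, (ext (c.1, fun v => c.2.1 v, fun v => c.2.2 v)).2.2 v = c.2.2 v := by
        intro v hv
        rw [hext]
        simp only [dif_pos hv]
      have e3 : (ext (c.1, fun v => c.2.1 v, fun v => c.2.2 v)).1 = c.1 := by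
        rw [hext]
      refine ⟨?_, ?_, ?_, ?_⟩
      · rw [e3]; exact hc.up
      · rw [e3]; exact hc.dn
      · intro v hv
        have hv' : v ∈ s := by rw [hs]; exact hv
        rw [e1 v hv', e2 v hv']
        exact hc.cl v hv
      · intro P hP
        have := hc.ge P hP
        rw [← hs] at this ⊢
        rw [Finset.sum_congr rfl fun v hv => by rw [e2 v hv]]
        exact this
    · exact ⟨(0, fun _ => t₀, fun _ => 0), fun h => absurd h hx⟩
  choose ρ hρ using hex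
  obtain ⟨B, hB⟩ : ∃ B : ℝ, B = A * (1 + Real.exp (2 * C')) * Real.exp C := ⟨_, rfl⟩
  have hB0 : 0 < B := by rw [hB]; positivity
  obtain ⟨n, hn⟩ : ∃ n : ℕ, n = Fintype.card s := ⟨_, rfl⟩
  obtain ⟨G, hG⟩ : ∃ G : ℝ, G = Fintype.card (s → Fin q) * 2 ^ n := ⟨_, rfl⟩
  have hG0 : 0 ≤ G := by rw [hG]; positivity
  refine ⟨D₁ + B * (2 * Real.exp 2 * G), u₀, n, by positivity, hu₀, hu₀2,
    fun u X t F hu hu1 hX hF => ?_⟩
  obtain ⟨M, hM⟩ : ∃ M : ℝ, M = Real.exp ((1 + ε) * q / (u * Real.log (1 / u))) := ⟨_, rfl⟩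
  have hM0 : 0 < M := by rw [hM]; exact Real.exp_pos _
  have hg : (1 - Real.exp (-u))⁻¹ ^ Fintype.card s ≤ 2 ^ n * u⁻¹ ^ n := by
    rw [← mul_pow, ← hn]
    refine pow_le_pow_left₀ ?_ (inv_le hu (by linarith)) _
    rw [inv_nonneg, sub_nonneg, Real.exp_le_one_iff]
    linarith
  rw [← hM]
  have hrank' := hrank u hu hu1
  rw [← hM] at hrank'
  obtain ⟨F₁, hF₁⟩ : ∃ F₁ : Finset K, F₁ = F.filter fun x =>
    ∃ P, IsP S α x P ∧ tr P ≤ ((q : ℝ) - 1 / 2) * hr (aff x) := ⟨_, rfl⟩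
  obtain ⟨F₂, hF₂⟩ : ∃ F₂ : Finset K, F₂ = F.filter fun x =>
    ¬ ∃ P, IsP S α x P ∧ tr P ≤ ((q : ℝ) - 1 / 2) * hr (aff x) := ⟨_, rfl⟩
  have hFF : (F.card : ℝ) = F₁.card + F₂.card := by
    rw [hF₁, hF₂]
    exact_mod_cast (card_filter_add_card_filter_not _).symm
  have hc1 : (F₁.card : ℝ) ≤ D₁ * Real.exp (7 / 4 * X) := by
    refine (hbig X F₁ hX fun x hx => ?_).trans (le_of_eq ?_)
    · rw [hF₁, mem_filter] at hx
      obtain ⟨g1, g2, -⟩ := hF x hx.1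
      obtain ⟨P, g3, g4⟩ := hx.2
      exact ⟨g1, g2, P, g3, by linarith⟩
    · congr 2
      ring
  obtain ⟨W, hW⟩ : ∃ W : Finset (ℕ × (s → Fin q) × (s → ℕ)), W = F₂.image ρ := ⟨_, rfl⟩
  have hc2 : (F₂.card : ℝ) ≤ B * M * Real.exp (-((1 - u) * t)) *
      ∑ c ∈ W, Real.exp (2 * c.1 - u * ∑ v, (c.2.2 v : ℝ)) := by
    rw [card_eq_sum_card_image ρ F₂, ← hW]
    push_cast
    rw [Finset.mul_sum]
    refine Finset.sum_le_sum fun c hc => ?_
    have h5 := cls' (c := ext c) (α := α) (S := S) (F := {x ∈ F₂ | ρ x = c}) (t := t) (M := M)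
      (u := u) hq hA.le hC.le hM0.le hu.le hcell hrank'
      (fun x hx P hP => (ha1 x hx P hP).1) (fun x hx P hP hI => hup x hx P hP C _ hI) (by
        intro x hx
        rw [mem_filter, hF₂, mem_filter] at hx
        obtain ⟨⟨hxF, hxn⟩, hxc⟩ := hx
        obtain ⟨g1, g2, P, g3, g4⟩ := hF x hxF
        refine ⟨g1, ?_, P, g3, g4, ?_⟩
        · rw [← hxc]
          exact hρ x g1
        · by_contra h
          push Not at h
          exact hxn ⟨P, g3, h.le⟩)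
    rw [hK] at h5
    refine h5.trans (le_of_eq ?_)
    have e3 : (ext c).1 = c.1 := by rw [hext]
    have e5 : Real.exp (2 * (c.1 : ℝ) - (1 - u) * t - u * ∑ v, (c.2.2 v : ℝ)) =
        Real.exp (-((1 - u) * t)) * Real.exp (2 * c.1 - u * ∑ v, (c.2.2 v : ℝ)) := by
      rw [← Real.exp_add]
      congr 1
      ring
    rw [e3, hB, e5]
    ring
  have hc3 := code_sum (ι := s) (τ := s → Fin q) hu ⌊X + 1⌋₊ W (by
    intro c hc
    rw [hW, mem_image] at hc
    obtain ⟨x, hx, rfl⟩ := hc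
    rw [hF₂, mem_filter] at hx
    obtain ⟨g1, g2, -⟩ := hF x hx.1
    have g3 := (hρ x g1).dn
    have e3 : (ext (ρ x)).1 = (ρ x).1 := by rw [hext]
    rw [e3] at g3
    exact Nat.le_floor (by linarith))
  have hu' : 0 < u⁻¹ := inv_pos.2 hu
  have hc3' : ∑ c ∈ W, Real.exp (2 * c.1 - u * ∑ v, (c.2.2 v : ℝ)) ≤
      2 * Real.exp (2 * ((⌊X + 1⌋₊ : ℕ) : ℝ)) * (G * u⁻¹ ^ n) := by
    refine hc3.trans (mul_le_mul_of_nonneg_left ?_ (by positivity))
    rw [hG, mul_assoc]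
    exact mul_le_mul_of_nonneg_left hg (by positivity)
  have hc4 : Real.exp (2 * ((⌊X + 1⌋₊ : ℕ) : ℝ)) ≤ Real.exp 2 * Real.exp (2 * X) := by
    rw [← Real.exp_add]
    apply Real.exp_le_exp.2
    have := Nat.floor_le (show 0 ≤ X + 1 by linarith)
    linarith
  have hc6 : (F₂.card : ℝ) ≤ B * (2 * Real.exp 2 * G) *
      (u⁻¹ ^ n * M * Real.exp (2 * X - (1 - u) * t)) := by
    refine hc2.trans ?_
    calc B * M * Real.exp (-((1 - u) * t)) *
          ∑ c ∈ W, Real.exp (2 * c.1 - u * ∑ v, (c.2.2 v : ℝ))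
        ≤ B * M * Real.exp (-((1 - u) * t)) *
          (2 * (Real.exp 2 * Real.exp (2 * X)) * (G * u⁻¹ ^ n)) := by
          refine mul_le_mul_of_nonneg_left (hc3'.trans ?_) (by positivity)
          exact mul_le_mul_of_nonneg_right (by linarith) (by positivity)
      _ = B * (2 * Real.exp 2 * G) * (u⁻¹ ^ n * M *
          (Real.exp (2 * X) * Real.exp (-((1 - u) * t)))) := by ring
      _ = _ := by
        rw [← Real.exp_add]
        rfl
  rw [hFF]
  have hp1 : 0 < u⁻¹ ^ n * M * Real.exp (2 * X - (1 - u) * t) := by positivity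
  have hp2 := Real.exp_pos (7 / 4 * X)
  have hp3 : 0 ≤ B * (2 * Real.exp 2 * G) := by positivity
  nlinarith [mul_nonneg hD₁.le hp1.le, mul_nonneg hp3 hp2.le]

end Pool.Agent.L5helper9
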